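import Mathlib

set_option autoImplicit false

namespace Pool.Agent.GemWidth

open Set

variable {V : Type*}

/-- `A` has at most `n` different rows on `B` (the empty row is counted). -/
def Few (G : SimpleGraph V) (A B : Set V) (n : ℕ) : Prop :=
  ∃ c : V → Fin n, ∀ a ∈ A, ∀ a' ∈ A, c a = c a' → ∀ b ∈ B, (G.Adj a b ↔ G.Adj a' b)

/-- `A` has at most `k` different nonempty rows on `B`. -/
def RB (G : SimpleGraph V) (A B : Set V) (k : ℕ) : Prop :=
  Few G {a | a ∈ A ∧ ∃ b ∈ B, G.Adj a b} B k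

/-- decomposition trees (rooted binary), every node set of size at least two satisfies `P`. -/
inductive Tree (P : Set V → Prop) : Set V → Prop
  | empty : Tree P ∅
  | single (v : V) : Tree P {v}
  | union (A B : Set V) : Disjoint A B → Tree P A → Tree P B → P (A ∪ B) → Tree P (A ∪ B)

/-- the cut `A | R \ A` has at most `k` nonempty rows in both directions -/
def CutOK (G : SimpleGraph V) (R : Set V) (k : ℕ) (A : Set V) : Prop :=
  RB G A (R \ A) k ∧ RB G (R \ A) A k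

/-- `G[R]` has width at most `k` -/
def W (G : SimpleGraph V) (R : Set V) (k : ℕ) : Prop := Tree (CutOK G R k) R

section Few

variable {G : SimpleGraph V} {A B A' B' R : Set V} {n m k : ℕ}

theorem few_of_label {α : Type*} [Fintype α] (c : V → α)
    (h : ∀ a ∈ A, ∀ a' ∈ A, c a = c a' → ∀ b ∈ B, (G.Adj a b ↔ G.Adj a' b))
    (hn : Fintype.card α ≤ n) : Few G A B n := by
  classical
  refine ⟨fun v => ⟨(Fintype.equivFin α (c v)).val,
    lt_of_lt_of_le (Fintype.equivFin α (c v)).isLt hn⟩, ?_⟩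
  intro a ha a' ha' e b hb
  have e2 : (Fintype.equivFin α (c a)).val = (Fintype.equivFin α (c a')).val :=
    Fin.mk.inj e
  have e3 : c a = c a' := (Fintype.equivFin α).injective (Fin.ext e2)
  exact h a ha a' ha' e3 b hb

theorem Few.mono (h : Few G A B n) (hA : A' ⊆ A) (hB : B' ⊆ B) (hn : n ≤ m) : Few G A' B' m := by
  obtain ⟨c, hc⟩ := h
  refine ⟨fun v => Fin.castLE hn (c v), ?_⟩
  intro a ha a' ha' e b hb
  exact hc a (hA ha) a' (hA ha') (Fin.castLE_injective hn e) b (hB hb)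

theorem Few.mono_n (h : Few G A B n) (hn : n ≤ m) : Few G A B m :=
  h.mono subset_rfl subset_rfl hn

/-- few rows of `A` on `B` and on `B'` -/
theorem Few.prod (h : Few G A B n) (h' : Few G A B' m) : Few G A (B ∪ B') (n * m) := by
  obtain ⟨c, hc⟩ := h
  obtain ⟨d, hd⟩ := h'
  refine few_of_label (fun v => (c v, d v)) ?_ (by simp)
  intro a ha a' ha' e b hb
  simp only [Prod.mk.injEq] at e
  rcases hb with hb | hb
  · exact hc a ha a' ha' e.1 b hb
  · exact hd a ha a' ha' e.2 b hb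

/-- rows of a union of two sets -/
theorem Few.union (h : Few G A B n) (h' : Few G A' B m) : Few G (A ∪ A') B (n + m) := by
  classical
  obtain ⟨c, hc⟩ := h
  obtain ⟨d, hd⟩ := h'
  refine few_of_label (fun v => if v ∈ A then (Sum.inl (c v) : Fin n ⊕ Fin m) else Sum.inr (d v))
    ?_ (by simp)
  intro a ha a' ha' e b hb
  by_cases h1 : a ∈ A <;> by_cases h2 : a' ∈ A
  · simp only [h1, h2, if_true, Sum.inl.injEq] at e
    exact hc a h1 a' h2 e b hb
  · simp [h1, h2] at e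
  · simp [h1, h2] at e
  · simp only [h1, h2, if_false, Sum.inr.injEq] at e
    exact hd a (ha.resolve_left h1) a' (ha'.resolve_left h2) e b hb

/-- symmetry with exponential loss -/
theorem Few.symm (h : Few G A B n) : Few G B A (2 ^ n) := by
  classical
  obtain ⟨c, hc⟩ := h
  refine few_of_label (fun v => (fun i : Fin n => decide (∃ a ∈ A, c a = i ∧ G.Adj a v))) ?_
    (by simp)
  intro b hb b' hb' e a ha
  have e1 := congrFun e (c a)
  simp only [decide_eq_decide] at e1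
  constructor
  · intro hab
    obtain ⟨a', ha', hca, hadj⟩ := e1.1 ⟨a, ha, rfl, hab.symm⟩
    exact ((hc a' ha' a ha hca b' hb').1 hadj).symm
  · intro hab
    obtain ⟨a', ha', hca, hadj⟩ := e1.2 ⟨a, ha, rfl, hab.symm⟩
    exact ((hc a' ha' a ha hca b hb).1 hadj).symm

/-- a homogeneous pair has one row -/
theorem few_one (h : ∀ a ∈ A, ∀ a' ∈ A, ∀ b ∈ B, (G.Adj a b ↔ G.Adj a' b)) : Few G A B 1 :=
  ⟨fun _ => 0, fun a ha a' ha' _ b hb => h a ha a' ha' b hb⟩

theorem few_anti (h : ∀ a ∈ A, ∀ b ∈ B, ¬ G.Adj a b) : Few G A B 1 :=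
  few_one fun a ha a' ha' b hb => iff_of_false (h a ha b hb) (h a' ha' b hb)

theorem few_complete (h : ∀ a ∈ A, ∀ b ∈ B, G.Adj a b) : Few G A B 1 :=
  few_one fun a ha a' ha' b hb => iff_of_true (h a ha b hb) (h a' ha' b hb)

theorem few_singleton (v : V) (B : Set V) : Few G {v} B 1 :=
  few_one fun a ha a' ha' b _ => by
    simp only [mem_singleton_iff] at ha ha'; subst ha; subst ha'; exact Iff.rfl

theorem Few.rb (h : Few G A B n) : RB G A B n := h.mono (fun _ ha => ha.1) subset_rfl le_rfl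

theorem RB.few (h : RB G A B k) : Few G A B (k + 1) := by
  classical
  obtain ⟨c, hc⟩ := h
  refine few_of_label (fun v => if (∃ b ∈ B, G.Adj v b) then some (c v) else none) ?_
    (by simp)
  intro a ha a' ha' e b hb
  by_cases h1 : ∃ b ∈ B, G.Adj a b <;> by_cases h2 : ∃ b ∈ B, G.Adj a' b
  · simp only [h1, h2, if_true, Option.some.injEq] at e
    exact hc a ⟨ha, h1⟩ a' ⟨ha', h2⟩ e b hb
  · simp [h1, h2] at e
  · simp [h1, h2] at e
  · exact iff_of_false (fun h => h1 ⟨b, hb, h⟩) (fun h => h2 ⟨b, hb, h⟩)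

theorem RB.mono (h : RB G A B n) (hA : A' ⊆ A) (hB : B' ⊆ B) (hn : n ≤ m) : RB G A' B' m :=
  Few.mono h (fun _ ha => ⟨hA ha.1, ha.2.imp fun _ hb => ⟨hB hb.1, hb.2⟩⟩) hB hn

theorem CutOK.mono (h : CutOK G R n A) (hn : n ≤ m) : CutOK G R m A :=
  ⟨h.1.mono subset_rfl subset_rfl hn, h.2.mono subset_rfl subset_rfl hn⟩

theorem CutOK.compl (h : CutOK G R k A) (hA : A ⊆ R) : CutOK G R k (R \ A) := by
  have e : R \ (R \ A) = A := by
    ext x; constructor
    · rintro ⟨h1, h2⟩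
      by_contra h3
      exact h2 ⟨h1, h3⟩
    · intro hx; exact ⟨hA hx, fun h => h.2 hx⟩
  exact ⟨by rw [e]; exact h.2, by rw [e]; exact h.1⟩

theorem cutOK_of_few (h1 : Few G A (R \ A) n) (h2 : Few G (R \ A) A m) (hn : n ≤ k) (hm : m ≤ k) :
    CutOK G R k A := ⟨(h1.mono_n hn).rb, (h2.mono_n hm).rb⟩

theorem cutOK_of_few_one (h1 : Few G A (R \ A) n) (hn : 2 ^ n ≤ k) : CutOK G R k A :=
  cutOK_of_few h1 h1.symm (le_trans (Nat.lt_two_pow_self).le hn) hn

theorem cutOK_singleton (v : V) (hk : 1 ≤ k) : CutOK G R k {v} := by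
  refine ⟨((few_singleton v _).mono_n hk).rb, ?_⟩
  refine Few.mono (A := {a | a ∈ R \ {v} ∧ ∃ b ∈ ({v} : Set V), G.Adj a b}) (n := 1) ?_
    subset_rfl subset_rfl hk
  refine few_complete ?_
  rintro a ⟨_, b, hb, hab⟩ b' hb'
  simp only [mem_singleton_iff] at hb hb'
  subst hb; subst hb'; exact hab

theorem cutOK_self (hk : 1 ≤ k) : CutOK G R k R := by
  refine cutOK_of_few (n := 1) (m := 1) ?_ ?_ hk hk
  · exact few_one fun a _ a' _ b hb => absurd hb.1 hb.2
  · exact few_one fun a ha a' _ b _ => absurd ha.1 ha.2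

theorem cutOK_empty (hk : 1 ≤ k) : CutOK G R k ∅ := by
  refine cutOK_of_few (n := 1) (m := 1) ?_ ?_ hk hk
  · exact few_one fun a ha => absurd ha (notMem_empty a)
  · exact few_one fun a _ a' _ b hb => absurd hb (notMem_empty b)

end Few

section TreeLemmas

variable {G : SimpleGraph V} {A B R S : Set V} {n m k : ℕ} {P Q : Set V → Prop}

theorem Tree.imp (h : Tree P A) (hPQ : ∀ B, B ⊆ A → P B → Q B) : Tree Q A := by
  induction h with
  | empty => exact Tree.empty
  | single v => exact Tree.single v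
  | union A B hd _ _ hP ihA ihB =>
    exact Tree.union A B hd (ihA fun C hC => hPQ C (hC.trans subset_union_left))
      (ihB fun C hC => hPQ C (hC.trans subset_union_right)) (hPQ _ subset_rfl hP)

/-- trees can be restricted to a subset -/
theorem Tree.inter (h : Tree P A) (S : Set V) (hPQ : ∀ B, B ⊆ A → P B → Q (B ∩ S)) :
    Tree Q (A ∩ S) := by
  induction h with
  | empty => rw [empty_inter]; exact Tree.empty
  | single v =>
    by_cases hv : v ∈ S
    · rw [show ({v} : Set V) ∩ S = {v} from inter_eq_left.2 (by simpa using hv)]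
      exact Tree.single v
    · rw [show ({v} : Set V) ∩ S = ∅ from by
        ext x; simp only [mem_inter_iff, mem_singleton_iff, mem_empty_iff_false, iff_false, not_and]
        rintro rfl; exact hv]
      exact Tree.empty
  | union A B hd _ _ hP ihA ihB =>
    have hQ : Q ((A ∪ B) ∩ S) := hPQ _ subset_rfl hP
    rw [union_inter_distrib_right] at hQ ⊢
    exact Tree.union _ _ (hd.mono inter_subset_left inter_subset_left)
      (ihA fun C hC => hPQ C (hC.trans subset_union_left))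
      (ihB fun C hC => hPQ C (hC.trans subset_union_right)) hQ

theorem Tree.root (h : Tree (CutOK G R k) A) (hk : 1 ≤ k) : CutOK G R k A := by
  cases h with
  | empty => exact cutOK_empty hk
  | single v => exact cutOK_singleton v hk
  | union A B _ _ _ h => exact h

theorem W.mono (h : W G R n) (hn : n ≤ m) : W G R m := Tree.imp h fun _ _ hB => hB.mono hn

/-- the width is hereditary -/
theorem W.subset (h : W G R k) (hS : S ⊆ R) : W G S k := by
  have := Tree.inter (Q := CutOK G S k) h S ?_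
  · rwa [inter_eq_right.2 hS] at this
  · intro B hB hcut
    have e : S \ (B ∩ S) ⊆ R \ B := fun x hx => ⟨hS hx.1, fun hxB => hx.2 ⟨hxB, hx.1⟩⟩
    exact ⟨hcut.1.mono inter_subset_left e le_rfl, hcut.2.mono e inter_subset_left le_rfl⟩

/-- change the ambient set: few rows towards the outside -/
theorem Tree.transfer (h : Tree (CutOK G S k) A) (hA : A ⊆ S) (hSR : S ⊆ R)
    (h1 : Few G S (R \ S) n) (h2 : Few G (R \ S) S m) :
    Tree (CutOK G R ((k + 1) * n + (k + 1 + m))) A := by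
  refine Tree.imp h ?_
  intro B hB hcut
  have hBS : B ⊆ S := hB.trans hA
  have e : R \ B = (S \ B) ∪ (R \ S) := by
    ext x; constructor
    · rintro ⟨h1, h2⟩
      by_cases hx : x ∈ S
      · exact Or.inl ⟨hx, h2⟩
      · exact Or.inr ⟨h1, hx⟩
    · rintro (⟨h1, h2⟩ | ⟨h1, h2⟩)
      · exact ⟨hSR h1, h2⟩
      · exact ⟨h1, fun h => h2 (hBS h)⟩
  refine cutOK_of_few (n := (k + 1) * n) (m := k + 1 + m) ?_ ?_ (by omega) (by omega)
  · rw [e]
    exact Few.prod hcut.1.few (h1.mono hBS subset_rfl le_rfl)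
  · rw [e]
    exact Few.union hcut.2.few (h2.mono subset_rfl hBS le_rfl)

/-- change the ambient set when the outside is anticomplete: no loss -/
theorem Tree.transfer_anti (h : Tree (CutOK G S k) A) (hA : A ⊆ S)
    (h1 : ∀ a ∈ S, ∀ b ∈ R \ S, ¬ G.Adj a b) :
    Tree (CutOK G R k) A := by
  refine Tree.imp h ?_
  intro B hB hcut
  have hBS : B ⊆ S := hB.trans hA
  constructor
  · obtain ⟨c, hc⟩ := hcut.1
    refine ⟨c, ?_⟩
    have key : ∀ a ∈ B, (∃ b ∈ R \ B, G.Adj a b) → ∃ b ∈ S \ B, G.Adj a b := by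
      rintro a ha ⟨b, hb, hab⟩
      by_cases hbS : b ∈ S
      · exact ⟨b, ⟨hbS, hb.2⟩, hab⟩
      · exact absurd hab (h1 a (hBS ha) b ⟨hb.1, hbS⟩)
    rintro a ⟨ha, hab⟩ a' ⟨ha', hab'⟩ e b hb
    by_cases hbS : b ∈ S
    · exact hc a ⟨ha, key a ha hab⟩ a' ⟨ha', key a' ha' hab'⟩ e b ⟨hbS, hb.2⟩
    · exact iff_of_false (h1 a (hBS ha) b ⟨hb.1, hbS⟩) (h1 a' (hBS ha') b ⟨hb.1, hbS⟩)
  · obtain ⟨c, hc⟩ := hcut.2
    refine ⟨c, ?_⟩
    have key : ∀ a, a ∈ R \ B → (∃ b ∈ B, G.Adj a b) → a ∈ S \ B := by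
      rintro a ha ⟨b, hb, hab⟩
      by_cases haS : a ∈ S
      · exact ⟨haS, ha.2⟩
      · exact absurd hab.symm (h1 b (hBS hb) a ⟨ha.1, haS⟩)
    rintro a ⟨ha, hab⟩ a' ⟨ha', hab'⟩ e b hb
    exact hc a ⟨key a ha hab, hab⟩ a' ⟨key a' ha' hab', hab'⟩ e b hb

/-- two anticomplete parts -/
theorem W.disjoint_union {X Y : Set V} (hX : W G X k) (hY : W G Y k) (hd : Disjoint X Y)
    (h : ∀ a ∈ X, ∀ b ∈ Y, ¬ G.Adj a b) (hk : 1 ≤ k) : W G (X ∪ Y) k := by
  refine Tree.union X Y hd ?_ ?_ (cutOK_self hk)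
  · refine hX.transfer_anti subset_rfl ?_
    rintro a ha b ⟨hb, hb'⟩
    exact h a ha b (hb.resolve_left hb')
  · refine hY.transfer_anti subset_rfl ?_
    rintro a ha b ⟨hb, hb'⟩ hab
    exact h b (hb.resolve_right hb') a ha hab.symm

/-- re-rooting -/
theorem Tree.reroot_aux (hk : 1 ≤ k) {A : Set V} (h : Tree (CutOK G R k) A) :
    A ⊆ R → ∀ y ∈ A, Tree (CutOK G R k) (R \ A) → Tree (CutOK G R k) (R \ {y}) := by
  induction h with
  | empty => intro _ y hy; exact absurd hy (notMem_empty y)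
  | single v =>
    intro _ y hy h
    simp only [mem_singleton_iff] at hy
    subst hy; exact h
  | union A B hd hA hB hP ihA ihB =>
    intro hAR y hy h
    have hAR' : A ⊆ R := subset_union_left.trans hAR
    have hBR' : B ⊆ R := subset_union_right.trans hAR
    have eA : R \ A = (R \ (A ∪ B)) ∪ B := by
      ext x; constructor
      · rintro ⟨h1, h2⟩
        by_cases hx : x ∈ B
        · exact Or.inr hx
        · exact Or.inl ⟨h1, fun h => h.elim h2 hx⟩
      · rintro (⟨h1, h2⟩ | h1)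
        · exact ⟨h1, fun h => h2 (Or.inl h)⟩
        · exact ⟨hBR' h1, fun h => (disjoint_left.1 hd) h h1⟩
    have eB : R \ B = (R \ (A ∪ B)) ∪ A := by
      ext x; constructor
      · rintro ⟨h1, h2⟩
        by_cases hx : x ∈ A
        · exact Or.inr hx
        · exact Or.inl ⟨h1, fun h => h.elim hx h2⟩
      · rintro (⟨h1, h2⟩ | h1)
        · exact ⟨h1, fun h => h2 (Or.inr h)⟩
        · exact ⟨hAR' h1, fun h => (disjoint_left.1 hd) h1 h⟩
    rcases hy with hy | hy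
    · refine ihA hAR' y hy ?_
      rw [eA]
      refine Tree.union _ _ ?_ h hB ?_
      · rw [disjoint_left]; rintro x ⟨_, h2⟩ h3; exact h2 (Or.inr h3)
      · rw [← eA]; exact (hA.root hk).compl hAR'
    · refine ihB hBR' y hy ?_
      rw [eB]
      refine Tree.union _ _ ?_ h hA ?_
      · rw [disjoint_left]; rintro x ⟨_, h2⟩ h3; exact h2 (Or.inl h3)
      · rw [← eB]; exact (hB.root hk).compl hBR'

theorem W.reroot (h : W G R k) (hk : 1 ≤ k) {y : V} (hy : y ∈ R) :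
    Tree (CutOK G R k) (R \ {y}) := by
  refine Tree.reroot_aux hk h subset_rfl y hy ?_
  rw [sdiff_self]; exact Tree.empty

/-- one half of the split lemma: trees of `X + y0` give trees in `X ∪ Y` -/
theorem Tree.transfer_split {X Y : Set V} {x0 y0 : V} (hd : Disjoint X Y)
    (hy0 : y0 ∈ Y)
    (hsp : ∀ x ∈ X, ∀ y ∈ Y, (G.Adj x y ↔ (G.Adj x y0 ∧ G.Adj x0 y)))
    (h : Tree (CutOK G (insert y0 X) k) A) (hA : A ⊆ X) :
    Tree (CutOK G (X ∪ Y) k) A := by
  refine Tree.imp h ?_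
  intro B hB hcut
  have hBX : B ⊆ X := hB.trans hA
  have hy0X : y0 ∉ X := fun h => (disjoint_left.1 hd) h hy0
  have hy0B : y0 ∉ B := fun h => hy0X (hBX h)
  constructor
  · obtain ⟨c, hc⟩ := hcut.1
    refine ⟨c, ?_⟩
    have key : ∀ a ∈ B, (∃ b ∈ (X ∪ Y) \ B, G.Adj a b) → ∃ b ∈ (insert y0 X) \ B, G.Adj a b := by
      rintro a ha ⟨b, ⟨hb, hbB⟩, hab⟩
      rcases hb with hb | hb
      · exact ⟨b, ⟨Or.inr hb, hbB⟩, hab⟩
      · exact ⟨y0, ⟨Or.inl rfl, hy0B⟩, ((hsp a (hBX ha) b hb).1 hab).1⟩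
    rintro a ⟨ha, hab⟩ a' ⟨ha', hab'⟩ e b ⟨hb, hbB⟩
    rcases hb with hb | hb
    · exact hc a ⟨ha, key a ha hab⟩ a' ⟨ha', key a' ha' hab'⟩ e b ⟨Or.inr hb, hbB⟩
    · have := hc a ⟨ha, key a ha hab⟩ a' ⟨ha', key a' ha' hab'⟩ e y0 ⟨Or.inl rfl, hy0B⟩
      rw [hsp a (hBX ha) b hb, hsp a' (hBX ha') b hb, this]
  · classical
    obtain ⟨c, hc⟩ := hcut.2
    refine ⟨fun v => if v ∈ X then c v else c y0, ?_⟩
    -- representative of a vertex outside
    have key : ∀ b, b ∈ (X ∪ Y) \ B → (∃ a ∈ B, G.Adj b a) →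
        ∃ b' ∈ (insert y0 X) \ B, (∃ a ∈ B, G.Adj b' a) ∧
          (∀ a ∈ B, (G.Adj b a ↔ G.Adj b' a)) ∧ (if b ∈ X then c b else c y0) = c b' := by
      rintro b ⟨hb, hbB⟩ ⟨a, ha, hab⟩
      by_cases hbX : b ∈ X
      · exact ⟨b, ⟨Or.inr hbX, hbB⟩, ⟨a, ha, hab⟩, fun _ _ => Iff.rfl, by simp [hbX]⟩
      · have hbY : b ∈ Y := hb.resolve_left hbX
        have h1 := (hsp a (hBX ha) b hbY).1 hab.symm
        refine ⟨y0, ⟨Or.inl rfl, hy0B⟩, ⟨a, ha, h1.1.symm⟩, ?_, by simp [hbX]⟩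
        intro a' ha'
        constructor
        · intro h2; exact ((hsp a' (hBX ha') b hbY).1 h2.symm).1.symm
        · intro h2; exact ((hsp a' (hBX ha') b hbY).2 ⟨h2.symm, h1.2⟩).symm
    rintro b ⟨hb, hb2⟩ b' ⟨hb', hb2'⟩ e a ha
    obtain ⟨p, hp, hp1, hp2, hp3⟩ := key b hb hb2
    obtain ⟨q, hq, hq1, hq2, hq3⟩ := key b' hb' hb2'
    have e' : c p = c q := by rw [← hp3, ← hq3]; exact e
    rw [hp2 a ha, hq2 a ha]
    exact hc p ⟨hp, hp1⟩ q ⟨hq, hq1⟩ e' a ha

/-- the split lemma (no loss) -/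
theorem W.split {X Y : Set V} {x0 y0 : V} (hk : 1 ≤ k) (hd : Disjoint X Y) (hx0 : x0 ∈ X)
    (hy0 : y0 ∈ Y)
    (hsp : ∀ x ∈ X, ∀ y ∈ Y, (G.Adj x y ↔ (G.Adj x y0 ∧ G.Adj x0 y)))
    (hX : W G (insert y0 X) k) (hY : W G (insert x0 Y) k) : W G (X ∪ Y) k := by
  have hy0X : y0 ∉ X := fun h => (disjoint_left.1 hd) h hy0
  have hx0Y : x0 ∉ Y := fun h => (disjoint_left.1 hd) hx0 h
  have t1 := hX.reroot hk (mem_insert y0 X)
  have t2 := hY.reroot hk (mem_insert x0 Y)
  rw [insert_sdiff_self_of_notMem hy0X] at t1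
  rw [insert_sdiff_self_of_notMem hx0Y] at t2
  refine Tree.union X Y hd (Tree.transfer_split hd hy0 hsp t1 subset_rfl) ?_ (cutOK_self hk)
  rw [union_comm]
  refine Tree.transfer_split (x0 := y0) hd.symm hx0 ?_ t2 subset_rfl
  intro y hy x hx
  rw [SimpleGraph.adj_comm, hsp x hx y hy, SimpleGraph.adj_comm G x y0, SimpleGraph.adj_comm G x0 y]
  exact And.comm

end TreeLemmas

end Pool.Agent.GemWidth
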