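import Pool.Agent.GemWidth.C5Pat

set_option autoImplicit false

namespace Pool.Agent.GemWidth

open Set

section
variable {V : Type*} {G : SimpleGraph V} {R S : Set V} {k n : ℕ}

theorem W.union_ncard [Finite V] (h : W G R k) (hS : S.ncard ≤ n) : W G (R ∪ S) (addN k n) := by
  classical
  have hfin : S.Finite := Set.toFinite S
  have h2 := W.union_finset h hfin.toFinset
  rw [hfin.coe_toFinset] at h2
  refine h2.mono (addN_mono ?_)
  rwa [← Set.ncard_eq_toFinset_card S hfin]

theorem ncard_le_one_of_subsingleton [Finite V] (h : S.Subsingleton) : S.ncard ≤ 1 := by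
  rw [Set.ncard_le_one (Set.toFinite S)]
  exact fun a ha b hb => h ha hb

end

namespace C5case

variable {V : Type*} {G : SimpleGraph V} {v : Fin 5 → V} {i j l : Fin 5} {x y : V}

/-- shifted five-cycle -/
def sh (v : Fin 5 → V) (i : Fin 5) : Fin 5 → V := fun j => v (i + j)

theorem IsC5.sh (P : IsC5 G v) (i : Fin 5) : IsC5 G (sh v i) := by
  intro a b
  have h : ∀ i a b : Fin 5, cyc (i + a) (i + b) = cyc a b := by decide
  show G.Adj (v (i + a)) (v (i + b)) ↔ _
  rw [P, h]

theorem add_sub5 (i j : Fin 5) : i + (j - i) = j := by revert i j; decide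

theorem mA (h : x ∈ cA G v j) (e : j = i + l) : x ∈ cA G (sh v i) l := by
  subst e
  refine ⟨h.1, fun m => ?_⟩
  have e : ∀ i l m : Fin 5, tA (i + l) (i + m) = tA l m := by decide
  show G.Adj x (v (i + m)) ↔ _
  rw [h.2 (i + m), e]

theorem mB (h : x ∈ cB G v j) (e : j = i + l) : x ∈ cB G (sh v i) l := by
  subst e
  intro m
  have e : ∀ i l m : Fin 5, tB (i + l) (i + m) = tB l m := by decide
  show G.Adj x (v (i + m)) ↔ _
  rw [h (i + m), e]

theorem mC (h : x ∈ cC G v j) (e : j = i + l) : x ∈ cC G (sh v i) l := by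
  subst e
  intro m
  have e : ∀ i l m : Fin 5, tC (i + l) (i + m) = tC l m := by decide
  show G.Adj x (v (i + m)) ↔ _
  rw [h (i + m), e]

theorem mS (h : x ∈ cS G v j) (e : j = i + l) : x ∈ cS G (sh v i) l := by
  subst e
  intro m
  have e : ∀ i l m : Fin 5, tS (i + l) (i + m) = tS l m := by decide
  show G.Adj x (v (i + m)) ↔ _
  rw [h (i + m), e]

theorem mE (h : x ∈ cE G v j) (e : j = i + l) : x ∈ cE G (sh v i) l := by
  subst e
  intro m
  have e : ∀ i l m : Fin 5, tE (i + l) (i + m) = tE l m := by decide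
  show G.Adj x (v (i + m)) ↔ _
  rw [h (i + m), e]

theorem mZ (h : x ∈ cZ G v) : x ∈ cZ G (sh v i) := fun m => h (i + m)

theorem mA' (h : x ∈ cA G (sh v i) l) : x ∈ cA G v (i + l) := by
  refine ⟨h.1, fun m => ?_⟩
  have e : ∀ i l m : Fin 5, tA l (m - i) = tA (i + l) m := by decide
  have h2 := h.2 (m - i)
  rw [e] at h2
  have e2 : sh v i (m - i) = v m := by show v (i + (m - i)) = _; rw [add_sub5]
  rwa [e2] at h2

theorem mC' (h : x ∈ cC G (sh v i) l) : x ∈ cC G v (i + l) := by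
  intro m
  have e : ∀ i l m : Fin 5, tC l (m - i) = tC (i + l) m := by decide
  have h2 := h (m - i)
  rw [e] at h2
  have e2 : sh v i (m - i) = v m := by show v (i + (m - i)) = _; rw [add_sub5]
  rwa [e2] at h2

theorem mZ' (h : x ∈ cZ G (sh v i)) : x ∈ cZ G v := by
  intro m
  have h2 := h (m - i)
  have e2 : sh v i (m - i) = v m := by show v (i + (m - i)) = _; rw [add_sub5]
  rwa [e2] at h2

theorem IsC5.inj (P : IsC5 G v) {i j : Fin 5} (h : v i = v j) : i = j := by
  have h1 : ∀ m, cyc i m = cyc j m := by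
    intro m
    have a := P i m
    have b := P j m
    rw [h] at a
    have := a.symm.trans b
    cases h1 : cyc i m <;> cases h2 : cyc j m <;> simp_all
  clear h P
  revert i j
  decide

theorem cA_inj (hi : x ∈ cA G v i) (hj : x ∈ cA G v j) : i = j := by
  have h1 : ∀ m, tA i m = tA j m := by
    intro m
    have a := hi.2 m
    have b := hj.2 m
    have := a.symm.trans b
    cases h1 : tA i m <;> cases h2 : tA j m <;> simp_all
  clear hi hj
  revert i j
  decide

theorem cC_inj (hi : x ∈ cC G v i) (hj : x ∈ cC G v j) : i = j := by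
  have h1 : ∀ m, tC i m = tC j m := by
    intro m
    have a := hi m
    have b := hj m
    have := a.symm.trans b
    cases h1 : tC i m <;> cases h2 : tC j m <;> simp_all
  clear hi hj
  revert i j
  decide

theorem cB_inj (hi : x ∈ cB G v i) (hj : x ∈ cB G v j) : i = j := by
  have h1 : ∀ m, tB i m = tB j m := by
    intro m
    have a := hi m
    have b := hj m
    have := a.symm.trans b
    cases h1 : tB i m <;> cases h2 : tB j m <;> simp_all
  clear hi hj
  revert i j
  decide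

theorem five (i j : Fin 5) : j = i ∨ j = i + 1 ∨ j = i + 2 ∨ i = j + 2 ∨ i = j + 1 := by
  revert i j; decide

theorem idx1 (i : Fin 5) : i = i + 0 := (add_zero i).symm

/-! ### facts on the classes `A`, `Z` for all indices -/

section facts

variable {a a1 b b1 c z w : V}

theorem Z_indep (hG : Cls G) (P : IsC5 G v) (hz : z ∈ cZ G v) (hw : w ∈ cZ G v) : ¬ G.Adj z w :=
  fun h => ZZ hG P hz hw h

theorem fA1a (hG : Cls G) (P : IsC5 G v) (ha : a ∈ cA G v i) (hb : b ∈ cA G v (i + 1))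
    (hb1 : b1 ∈ cA G v (i + 1)) (h1 : ¬ G.Adj a b) (h2 : ¬ G.Adj a b1) : b = b1 := by
  by_contra h
  exact A1a hG (P.sh i) (mA ha (idx1 i)) (mA hb rfl) (mA hb1 rfl) h1 h2 h

theorem fA1b (hG : Cls G) (P : IsC5 G v) (ha : a ∈ cA G v i) (ha1 : a1 ∈ cA G v i)
    (hb : b ∈ cA G v (i + 1)) (h1 : ¬ G.Adj a b) (h2 : ¬ G.Adj a1 b) : a = a1 := by
  by_contra h
  exact A1b hG (P.sh i) (mA ha (idx1 i)) (mA ha1 (idx1 i)) (mA hb rfl) h1 h2 h

theorem fA2a (hG : Cls G) (P : IsC5 G v) (ha : a ∈ cA G v i) (ha1 : a1 ∈ cA G v i)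
    (hb : b ∈ cA G v (i + 2)) (h1 : G.Adj a a1) : G.Adj a b := by
  by_contra h
  exact A2a hG (P.sh i) (mA ha (idx1 i)) (mA ha1 (idx1 i)) (mA hb rfl) h1 h

theorem fA2b (hG : Cls G) (P : IsC5 G v) (ha : a ∈ cA G v i) (hb : b ∈ cA G v (i + 2))
    (hb1 : b1 ∈ cA G v (i + 2)) (h1 : G.Adj b b1) : G.Adj a b := by
  by_contra h
  exact A2b hG (P.sh i) (mA ha (idx1 i)) (mA hb rfl) (mA hb1 rfl) h1 h

theorem fA4t (hG : Cls G) (P : IsC5 G v) (ha : a ∈ cA G v i) (hb : b ∈ cA G v (i + 1))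
    (hc : c ∈ cA G v (i + 3)) (h1 : G.Adj a b) (h2 : G.Adj a c) (h3 : G.Adj b c) : False :=
  A4t hG (P.sh i) (mA ha (idx1 i)) (mA hb rfl) (mA hc rfl) h1 h2 h3

end facts

end C5case
end Pool.Agent.GemWidth
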