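import Pool.Agent.GemWidth.C5Pent

set_option autoImplicit false

namespace Pool.Agent.GemWidth
namespace C5case

open Set

variable {V : Type} {G : SimpleGraph V} {v : Fin 5 → V} {i j l : Fin 5} {x y : V} {k : ℕ}

section facts

variable {a a1 b b1 c c1 z w : V}

theorem fZ1 (hG : Cls G) (P : IsC5 G v) (ha : a ∈ cA G v i) (hz : z ∈ cZ G v) (hw : w ∈ cZ G v)
    (h1 : G.Adj a z) (h2 : G.Adj a w) : z = w := by
  by_contra h
  exact Z1 hG (P.sh i) (mA ha (idx1 i)) (mZ hz) (mZ hw) h1 h2 h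

theorem fZ2 (hG : Cls G) (P : IsC5 G v) (ha : a ∈ cA G v i) (hb : b ∈ cA G v i)
    (hz : z ∈ cZ G v) (h1 : G.Adj a b) (h2 : G.Adj a z) : G.Adj b z := by
  by_contra h
  exact Z2 hG (P.sh i) (mA ha (idx1 i)) (mA hb (idx1 i)) (mZ hz) h1 h2 h

/-- nonadjacent vertices of different classes `A i`, `A j` have the same neighbours in `Z` -/
theorem fZ3 (hG : Cls G) (P : IsC5 G v) (ha : a ∈ cA G v i) (hb : b ∈ cA G v j) (hij : i ≠ j)
    (hz : z ∈ cZ G v) (h1 : ¬ G.Adj a b) (h2 : G.Adj a z) : G.Adj b z := by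
  by_contra h
  rcases five i j with e | e | e | e | e
  · exact hij e.symm
  · exact Z3a hG (P.sh i) (mA ha (idx1 i)) (mA hb e) (mZ hz) h1 h2 h
  · exact Z3c hG (P.sh i) (mA ha (idx1 i)) (mA hb e) (mZ hz) h1 h2 h
  · exact Z3d hG (P.sh j) (mA hb (idx1 j)) (mA ha e) (mZ hz) (ns h1) h2 h
  · exact Z3b hG (P.sh j) (mA hb (idx1 j)) (mA ha e) (mZ hz) (ns h1) h2 h

theorem fAC0a (hG : Cls G) (P : IsC5 G v) (ha : a ∈ cA G v i) (hc : c ∈ cC G v i)
    (hc1 : c1 ∈ cC G v i) (h1 : ¬ G.Adj a c) (h2 : ¬ G.Adj a c1) : c = c1 := by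
  by_contra h
  exact AC0a hG (P.sh i) (mA ha (idx1 i)) (mC hc (idx1 i)) (mC hc1 (idx1 i)) h1 h2 h

theorem fAC0b (hG : Cls G) (P : IsC5 G v) (ha : a ∈ cA G v i) (ha1 : a1 ∈ cA G v i)
    (hc : c ∈ cC G v i) (h1 : ¬ G.Adj a c) (h2 : ¬ G.Adj a1 c) : a = a1 := by
  by_contra h
  exact AC0b hG (P.sh i) (mA ha (idx1 i)) (mA ha1 (idx1 i)) (mC hc (idx1 i)) h1 h2 h

theorem fAC1 (hG : Cls G) (P : IsC5 G v) (ha : a ∈ cA G v i) (hc : c ∈ cC G v j)
    (e : j = i + 1 ∨ i = j + 1) : ¬ G.Adj a c := by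
  intro h
  rcases e with e | e
  · exact AC1 hG (P.sh i) (mA ha (idx1 i)) (mC hc e) h
  · have e' : j = i + 4 := by rw [e]; clear * -; revert j; decide
    exact AC4 hG (P.sh i) (mA ha (idx1 i)) (mC hc e') h

/-- uniform relation of `a ∈ A i` to `C (i ± 2)` -/
theorem fC7 (hG : Cls G) (P : IsC5 G v) (ha : a ∈ cA G v i) (hc : c ∈ cC G v j)
    (hc1 : c1 ∈ cC G v j) (e : j = i + 2 ∨ j = i + 3) (h : G.Adj a c) : G.Adj a c1 := by
  by_contra h1
  have hne : c ≠ c1 := by rintro rfl; exact h1 h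
  rcases e with e | e
  · exact C7a hG (P.sh i) (mA ha (idx1 i)) (mC hc e) (mC hc1 e) h h1 hne
  · exact C7b hG (P.sh i) (mA ha (idx1 i)) (mC hc e) (mC hc1 e) h h1 hne

theorem fC8 (hG : Cls G) (P : IsC5 G v) (ha : a ∈ cA G v i) (hc : c ∈ cC G v i)
    (hz : z ∈ cZ G v) (h : ¬ G.Adj a c) : G.Adj a z ↔ G.Adj c z := by
  constructor
  · intro h1
    by_contra h2
    exact C8a hG (P.sh i) (mA ha (idx1 i)) (mC hc (idx1 i)) (mZ hz) h h1 h2
  · intro h1
    by_contra h2
    exact C8b hG (P.sh i) (mA ha (idx1 i)) (mC hc (idx1 i)) (mZ hz) h h1 h2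

/-- an exceptional vertex of `A i` is anticomplete to all other classes `A j` -/
theorem fexc (hG : Cls G) (P : IsC5 G v) (ha : a ∈ cA G v i) (hc : c ∈ cC G v i)
    (hc1 : c1 ∈ cC G v i) (hne : c ≠ c1) (h : ¬ G.Adj a c) (hb : b ∈ cA G v j) (hij : i ≠ j) :
    ¬ G.Adj a b := by
  intro hab
  rcases five i j with e | e | e | e | e
  · exact hij e.symm
  · exact C6a hG (P.sh i) (mA ha (idx1 i)) (mA hb e) (mC hc (idx1 i)) h
  · exact C9a hG (P.sh i) (mA ha (idx1 i)) (mA hb e) (mC hc (idx1 i)) (mC hc1 (idx1 i)) h hab hne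
  · have e' : j = i + 3 := by rw [e]; clear * -; revert j; decide
    exact C9b hG (P.sh i) (mA ha (idx1 i)) (mA hb e') (mC hc (idx1 i)) (mC hc1 (idx1 i)) h hab hne
  · have e' : j = i + 4 := by rw [e]; clear * -; revert j; decide
    exact C6b hG (P.sh i) (mA ha (idx1 i)) (mA hb e') (mC hc (idx1 i)) h

theorem AC_disj (ha : x ∈ cA G v i) (hc : x ∈ cC G v j) : False := by
  have h1 : ∀ m, tA i m = tC j m := by
    intro m
    have a := ha.2 m
    have b := hc m
    have := a.symm.trans b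
    cases h1 : tA i m <;> cases h2 : tC j m <;> simp_all
  clear ha hc
  revert i j
  decide

theorem AZ_disj (ha : x ∈ cA G v i) (hz : x ∈ cZ G v) : False := by
  refine hz (i + 1) ((ha.2 (i + 1)).2 ?_)
  clear * -; revert i; decide

theorem CZ_disj (ha : x ∈ cC G v i) (hz : x ∈ cZ G v) : False := by
  refine hz i ((ha i).2 ?_)
  clear * -; revert i; decide

end facts

open Classical in
/-- index of a vertex of a class `C j` -/
noncomputable def idxC (G : SimpleGraph V) (v : Fin 5 → V) (x : V) : Fin 5 :=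
  if h : ∃ i, x ∈ cC G v i then h.choose else 0

theorem idxC_eq (h : x ∈ cC G v i) : idxC G v x = i := by
  have h' : ∃ i, x ∈ cC G v i := ⟨i, h⟩
  unfold idxC
  rw [dif_pos h']
  exact cC_inj h'.choose_spec h

/-- exceptional vertices of `A` with respect to `D` -/
def Exc (G : SimpleGraph V) (v : Fin 5 → V) (D : Fin 5 → Set V) (x : V) : Prop :=
  ∃ c ∈ D (idx G v x), ¬ G.Adj x c

open Classical in
/-- host map -/
noncomputable def pi3 (G : SimpleGraph V) (v : Fin 5 → V) (D : Fin 5 → Set V) (x : V) : V :=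
  if x ∈ Aall G v then
    if h : Exc G v D x then h.choose
    else if h : ∃ z ∈ cZ G v, G.Adj x z then h.choose
    else v 0
  else x

open Classical in
noncomputable def ty3 (G : SimpleGraph V) (v : Fin 5 → V) (D : Fin 5 → Set V) (x : V) :
    Bool × Bool × Fin 5 × Fin 5 × Bool × Bool × Bool :=
  (decide (x ∈ Aall G v), decide (x ∈ cZ G v), idx G v x, idxC G v x, decide (Exc G v D x),
    decide (∃ c ∈ D (idx G v x + 2), G.Adj x c), decide (∃ c ∈ D (idx G v x + 3), G.Adj x c))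

def hostK (k : ℕ) : ℕ :=
  (k + 1) * 800 + (comb (pentK k) 1 + 1) * 800 + (comb (pentK k) 1 + 1 + 2 ^ 800)

theorem host_bound [Finite V] (hX : ClassX k) (hG : Cls G) (P : IsC5 G v) (D : Fin 5 → Set V)
    (hD : ∀ i, D i ⊆ cC G v i) (hD1 : D 1 = ∅) (hD4 : D 4 = ∅)
    (hD2 : ∀ i, ∀ c ∈ D i, ∃ c1 ∈ cC G v i, c ≠ c1)
    (hiso : ∀ i, ∀ a ∈ cA G v i, ∀ c ∈ D i, ¬ G.Adj a c → ∀ b ∈ cA G v i, ¬ G.Adj a b) :
    W G (cZ G v ∪ Aall G v ∪ ⋃ i, D i) (hostK k) := by
  classical
  have notA : ∀ x ∈ cZ G v ∪ ⋃ i, D i, x ∉ Aall G v := by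
    rintro x (hx | hx) ⟨i, hi⟩
    · exact AZ_disj hi hx
    · obtain ⟨j, hj⟩ := mem_iUnion.1 hx
      exact AC_disj hi (hD j hj)
  have pi_self : ∀ x ∈ cZ G v ∪ ⋃ i, D i, pi3 G v D x = x := by
    intro x hx
    unfold pi3
    rw [if_neg (notA x hx)]
  have pi_exc : ∀ x ∈ Aall G v, ∀ (h : Exc G v D x), pi3 G v D x ∈ D (idx G v x) ∧
      ¬ G.Adj x (pi3 G v D x) := by
    intro x hx h
    unfold pi3
    rw [if_pos hx, dif_pos h]
    exact h.choose_spec
  have pi_z : ∀ x ∈ Aall G v, ¬ Exc G v D x → ∀ z ∈ cZ G v, G.Adj x z → pi3 G v D x = z := by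
    intro x hx h z hz hxz
    have h' : ∃ z ∈ cZ G v, G.Adj x z := ⟨z, hz, hxz⟩
    unfold pi3
    rw [if_pos hx, dif_neg h, dif_pos h']
    exact fZ1 hG P (mem_idx hx) h'.choose_spec.1 hz h'.choose_spec.2 hxz
  have pi_0 : ∀ x ∈ Aall G v, ¬ Exc G v D x → (¬ ∃ z ∈ cZ G v, G.Adj x z) → pi3 G v D x = v 0 := by
    intro x hx h h'
    unfold pi3
    rw [if_pos hx, dif_neg h, dif_neg h']
  set X : Set V := insert (v 0) (cZ G v ∪ ⋃ i, D i) with hXdef
  have hWX : W G X k := by
    refine hX V G (v 0) X hG ?_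
    have key : ∀ x ∈ X, x ≠ v 0 → ¬ G.Adj (v 0) x → x ∈ cZ G v := by
      rintro x (hx | hx | hx) h1 h2
      · exact absurd hx h1
      · exact hx
      · exfalso
        obtain ⟨j, hj⟩ := mem_iUnion.1 hx
        have hj5 : j = 0 ∨ j = 1 ∨ j = 2 ∨ j = 3 ∨ j = 4 := by clear hj; revert j; decide
        rcases hj5 with rfl | rfl | rfl | rfl | rfl
        · exact h2 (((hD _ hj) 0).2 rfl).symm
        · rw [hD1] at hj; exact hj
        · exact h2 (((hD _ hj) 0).2 rfl).symm
        · exact h2 (((hD _ hj) 0).2 rfl).symm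
        · rw [hD4] at hj; exact hj
    intro x hx y hy h1 h2 h3 h4
    exact Z_indep hG P (key x hx h1 h3) (key y hy h2 h4)
  refine W.subst_label (H := G) (X := X) (k := k) (n := comb (pentK k) 1) (m := 800)
    (pi3 G v D) (ty3 G v D) (by simp) hWX ?_ ?_ ?_
  · -- hosts are in `X`
    rintro x ((hx | hx) | hx)
    · rw [pi_self x (Or.inl hx)]; exact Or.inr (Or.inl hx)
    · by_cases h : Exc G v D x
      · exact Or.inr (Or.inr (mem_iUnion.2 ⟨_, (pi_exc x hx h).1⟩))
      · by_cases h' : ∃ z ∈ cZ G v, G.Adj x z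
        · obtain ⟨z, hz, hxz⟩ := h'
          rw [pi_z x hx h z hz hxz]; exact Or.inr (Or.inl hz)
        · rw [pi_0 x hx h h']; exact Or.inl rfl
    · rw [pi_self x (Or.inr hx)]; exact Or.inr (Or.inr hx)
  · -- blocks
    intro x _
    refine (W.insert_vertex (pent_bound hX hG P) x).subset ?_
    rintro y ⟨hy, hpy⟩
    by_cases h : y ∈ Aall G v
    · exact Or.inr h
    · left
      unfold pi3 at hpy
      rw [if_neg h] at hpy
      exact hpy
  · -- adjacencies
    have excA : ∀ x ∈ Aall G v, ∀ y ∈ Aall G v, Exc G v D x → ¬ G.Adj x y := by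
      rintro x hx y hy ⟨c, hc, hxc⟩ hxy
      have hxi := mem_idx hx
      have hyj := mem_idx hy
      by_cases hij : idx G v x = idx G v y
      · exact hiso _ x hxi c hc hxc y (hij ▸ hyj) hxy
      · obtain ⟨c1, hc1, hne⟩ := hD2 _ c hc
        exact fexc hG P hxi (hD _ hc) hc1 hne hxc hyj hij hxy
    have fAA : ∀ x ∈ Aall G v, ∀ y ∈ Aall G v, pi3 G v D x ≠ pi3 G v D y → (G.Adj x y ↔
        (¬ Exc G v D x ∧ ¬ Exc G v D y ∧ idx G v x ≠ idx G v y)) := by
      intro x hx y hy hne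
      constructor
      · intro hxy
        have h1 : ¬ Exc G v D x := fun h => excA x hx y hy h hxy
        have h2 : ¬ Exc G v D y := fun h => excA y hy x hx h hxy.symm
        refine ⟨h1, h2, fun e => hne ?_⟩
        have hxi := mem_idx hx
        have hyi : y ∈ cA G v (idx G v x) := e ▸ mem_idx hy
        by_cases h' : ∃ z ∈ cZ G v, G.Adj x z
        · obtain ⟨z, hz, hxz⟩ := h'
          rw [pi_z x hx h1 z hz hxz, pi_z y hy h2 z hz (fZ2 hG P hxi hyi hz hxy hxz)]
        · have h'' : ¬ ∃ z ∈ cZ G v, G.Adj y z := by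
            rintro ⟨z, hz, hyz⟩
            exact h' ⟨z, hz, fZ2 hG P hyi hxi hz hxy.symm hyz⟩
          rw [pi_0 x hx h1 h', pi_0 y hy h2 h'']
      · rintro ⟨h1, h2, hij⟩
        by_contra hxy
        apply hne
        have hxi := mem_idx hx
        have hyj := mem_idx hy
        by_cases h' : ∃ z ∈ cZ G v, G.Adj x z
        · obtain ⟨z, hz, hxz⟩ := h'
          rw [pi_z x hx h1 z hz hxz, pi_z y hy h2 z hz (fZ3 hG P hxi hyj hij hz hxy hxz)]
        · have h'' : ¬ ∃ z ∈ cZ G v, G.Adj y z := by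
            rintro ⟨z, hz, hyz⟩
            exact h' ⟨z, hz, fZ3 hG P hyj hxi (Ne.symm hij) hz (ns hxy) hyz⟩
          rw [pi_0 x hx h1 h', pi_0 y hy h2 h'']
    have fAZ : ∀ x ∈ Aall G v, ∀ z ∈ cZ G v, pi3 G v D x ≠ pi3 G v D z → (G.Adj x z ↔
        (Exc G v D x ∧ G.Adj (pi3 G v D x) (pi3 G v D z))) := by
      intro x hx z hz hne
      rw [pi_self z (Or.inl hz)] at hne ⊢
      by_cases h : Exc G v D x
      · obtain ⟨h1, h2⟩ := pi_exc x hx h
        rw [fC8 hG P (mem_idx hx) (hD _ h1) hz h2]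
        exact ⟨fun h3 => ⟨h, h3⟩, fun h3 => h3.2⟩
      · refine iff_of_false (fun hxz => hne (pi_z x hx h z hz hxz)) (fun h3 => h h3.1)
    have fAD : ∀ x ∈ Aall G v, ∀ j, ∀ c ∈ D j, pi3 G v D x ≠ pi3 G v D c → (G.Adj x c ↔
        (j = idx G v x ∨ (j = idx G v x + 2 ∧ ∃ c ∈ D (idx G v x + 2), G.Adj x c) ∨
          (j = idx G v x + 3 ∧ ∃ c ∈ D (idx G v x + 3), G.Adj x c))) := by
      intro x hx j c hc hne
      rw [pi_self c (Or.inr (mem_iUnion.2 ⟨j, hc⟩))] at hne
      have hxi := mem_idx hx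
      set i := idx G v x with hi
      by_cases hji : j = i
      · refine iff_of_true ?_ (Or.inl hji)
        subst hji
        by_contra hxc
        obtain ⟨h1, h2⟩ := pi_exc x hx ⟨c, hc, hxc⟩
        exact hne (fAC0a hG P hxi (hD _ h1) (hD _ hc) h2 hxc)
      · by_cases hj2 : j = i + 2
        · constructor
          · intro h; exact Or.inr (Or.inl ⟨hj2, c, hj2 ▸ hc, h⟩)
          · rintro (h | ⟨_, c', hc', h⟩ | ⟨h, _⟩)
            · exact absurd h hji
            · exact fC7 hG P hxi (hD _ hc') (hj2 ▸ hD _ hc) (Or.inl rfl) h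
            · exfalso
              rw [hj2] at h; clear_value i; clear * - h; revert i; decide
        · by_cases hj3 : j = i + 3
          · constructor
            · intro h; exact Or.inr (Or.inr ⟨hj3, c, hj3 ▸ hc, h⟩)
            · rintro (h | ⟨h, _⟩ | ⟨_, c', hc', h⟩)
              · exact absurd h hji
              · exact absurd h hj2
              · exact fC7 hG P hxi (hD _ hc') (hj3 ▸ hD _ hc) (Or.inr rfl) h
          · refine iff_of_false (fAC1 hG P hxi (hD _ hc) ?_) ?_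
            · rcases five i j with h | h | h | h | h
              · exact absurd h hji
              · exact Or.inl h
              · exact absurd h hj2
              · exfalso; apply hj3; rw [h]; clear * -; revert j; decide
              · exact Or.inr h
            · rintro (h | ⟨h, _⟩ | ⟨h, _⟩)
              · exact hji h
              · exact hj2 h
              · exact hj3 h
    intro a ha a' ha' b hb h1 h2 e h3
    simp only [ty3, Prod.mk.injEq, decide_eq_decide] at e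
    obtain ⟨e1, e0, e2, e3, e4, e5, e6⟩ := e
    have split : ∀ x ∈ cZ G v ∪ Aall G v ∪ ⋃ i, D i, x ∉ Aall G v →
        x ∈ cZ G v ∪ ⋃ i, D i := by
      rintro x ((hx | hx) | hx) h
      · exact Or.inl hx
      · exact absurd hx h
      · exact Or.inr hx
    by_cases hbA : b ∈ Aall G v
    · by_cases haA : a ∈ Aall G v
      · rw [fAA a haA b hbA h1, fAA a' (e1.1 haA) b hbA h2, e2, e4]
      · have ha2 := split a ha haA
        have ha2' := split a' ha' (fun h => haA (e1.2 h))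
        rw [G.adj_comm a b, G.adj_comm a' b]
        rw [G.adj_comm (pi3 G v D a), G.adj_comm (pi3 G v D a')] at h3
        rcases ha2 with haz | hac
        · rw [fAZ b hbA a haz h1.symm, fAZ b hbA a' (e0.1 haz) h2.symm, h3]
        · have hac' : a' ∈ ⋃ i, D i := by
            rcases ha2' with h | h
            · obtain ⟨j, hj⟩ := mem_iUnion.1 hac
              exact absurd (e0.2 h) (fun h5 => CZ_disj (hD _ hj) h5)
            · exact h
          obtain ⟨j, hj⟩ := mem_iUnion.1 hac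
          obtain ⟨j', hj'⟩ := mem_iUnion.1 hac'
          have ej : j = j' := by
            rw [idxC_eq (hD _ hj), idxC_eq (hD _ hj')] at e3
            exact e3
          subst ej
          rw [fAD b hbA j a hj h1.symm, fAD b hbA j a' hj' h2.symm]
    · have hb2 := split b hb hbA
      by_cases haA : a ∈ Aall G v
      · have haA' := e1.1 haA
        rcases hb2 with hbz | hbc
        · rw [fAZ a haA b hbz h1, fAZ a' haA' b hbz h2, e4, h3]
        · obtain ⟨j, hj⟩ := mem_iUnion.1 hbc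
          rw [fAD a haA j b hj h1, fAD a' haA' j b hj h2, e5, e6, e2]
      · have ha2 := split a ha haA
        have ha2' := split a' ha' (fun h => haA (e1.2 h))
        rwa [pi_self a ha2, pi_self b hb2, pi_self a' ha2'] at h3

end C5case
end Pool.Agent.GemWidth
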