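import Pool.Agent.GemWidth.C5Spec

set_option autoImplicit false

namespace Pool.Agent.GemWidth
namespace C5case

open Set

variable {V : Type} {G : SimpleGraph V} {v : Fin 5 → V} {i j l : Fin 5} {x y : V} {k : ℕ}

/-! ### classes `B` -/

/-- a bipartite relation without two disjoint pairs is covered by one vertex -/
theorem star {A B : Set V} (d0 : V)
    (h : ∀ x ∈ A, ∀ x1 ∈ A, ∀ y ∈ B, ∀ y1 ∈ B, ¬ G.Adj x y → ¬ G.Adj x1 y1 → x ≠ x1 → y ≠ y1 → False) :
    ∃ d, ∀ x ∈ A, ∀ y ∈ B, x ≠ d → y ≠ d → G.Adj x y := by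
  by_cases h0 : ∃ x ∈ A, ∃ y ∈ B, ¬ G.Adj x y
  · obtain ⟨x0, hx0, y0, hy0, hxy0⟩ := h0
    by_cases h1 : ∃ x ∈ A, ∃ y ∈ B, ¬ G.Adj x y ∧ x ≠ x0
    · obtain ⟨x1, hx1, y1, hy1, hxy1, hne⟩ := h1
      have e : y1 = y0 := by
        by_contra hy
        exact h x1 hx1 x0 hx0 y1 hy1 y0 hy0 hxy1 hxy0 hne hy
      subst e
      refine ⟨y1, fun x hx y hy _ hyd => ?_⟩
      by_contra hxy
      by_cases hx0' : x = x0
      · subst hx0'
        exact h x1 hx1 x hx y1 hy1 y hy hxy1 hxy hne (Ne.symm hyd)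
      · exact h x hx x0 hx0 y hy y1 hy1 hxy hxy0 hx0' hyd
    · refine ⟨x0, fun x hx y hy hxd _ => ?_⟩
      by_contra hxy
      exact h1 ⟨x, hx, y, hy, hxy, hxd⟩
  · refine ⟨d0, fun x hx y hy _ _ => ?_⟩
    by_contra hxy
    exact h0 ⟨x, hx, y, hy, hxy⟩

open Classical in
noncomputable def idxB (G : SimpleGraph V) (v : Fin 5 → V) (x : V) : Fin 5 :=
  if h : ∃ i, x ∈ cB G v i then h.choose else 0

theorem idxB_eq (h : x ∈ cB G v i) : idxB G v x = i := by
  have h' : ∃ i, x ∈ cB G v i := ⟨i, h⟩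
  unfold idxB
  rw [dif_pos h']
  exact cB_inj h'.choose_spec h

def cyc' (i j : Fin 5) : Bool := i == j || cyc i j

theorem BB_adj (hG : Cls G) (P : IsC5 G v) (hx : x ∈ cB G v i) (hy : y ∈ cB G v j) (hne : x ≠ y) :
    G.Adj x y ↔ cyc' i j = true := by
  rcases five i j with e | e | e | e | e
  · subst e
    refine iff_of_true ?_ ?_
    · by_contra h
      exact BB0 hG (P.sh j) (mB hx (idx1 j)) (mB hy (idx1 j)) h hne
    · clear hx hy; revert j; decide
  · refine iff_of_true ?_ ?_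
    · by_contra h
      exact BB1 hG (P.sh i) (mB hx (idx1 i)) (mB hy e) h
    · rw [e]; clear * -; revert i; decide
  · refine iff_of_false ?_ ?_
    · intro h
      exact BB2 hG (P.sh i) (mB hx (idx1 i)) (mB hy e) h
    · rw [e]; clear * -; revert i; decide
  · refine iff_of_false ?_ ?_
    · intro h
      exact BB2 hG (P.sh j) (mB hy (idx1 j)) (mB hx e) h.symm
    · rw [e]; clear * -; revert j; decide
  · refine iff_of_true ?_ ?_
    · by_contra h
      exact BB1 hG (P.sh j) (mB hy (idx1 j)) (mB hx e) (ns h)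
    · rw [e]; clear * -; revert j; decide

theorem B_width [Finite V] (hG : Cls G) (P : IsC5 G v) : W G (⋃ i, cB G v i) (2 * 5) := by
  refine W.of_classes_label (idxB G v) (by simp) ?_
  intro a ha a' ha' b hb h1 h2 e
  obtain ⟨i, hi⟩ := mem_iUnion.1 ha
  obtain ⟨i', hi'⟩ := mem_iUnion.1 ha'
  obtain ⟨j, hj⟩ := mem_iUnion.1 hb
  rw [idxB_eq hi, idxB_eq hi'] at e
  rw [BB_adj hG P hi hj h1, BB_adj hG P hi' hj h2, e]

theorem B_few (hG : Cls G) (P : IsC5 G v) (D : Fin 5 → Set V) (hD : ∀ i, D i ⊆ cC G v i)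
    (T : Set V)
    (h1 : ∀ i, ∀ a ∈ cA G v i, ∀ b ∈ cB G v (i + 1), a ∉ T → b ∉ T → G.Adj a b)
    (h4 : ∀ i, ∀ a ∈ cA G v i, ∀ b ∈ cB G v (i + 4), a ∉ T → b ∉ T → G.Adj a b)
    (h0 : ∀ i, ∀ b ∈ cB G v i, ∀ c ∈ cC G v i, b ∉ T → c ∉ T → G.Adj b c) :
    Few G ((⋃ i, cB G v i) \ T) ((cZ G v ∪ Aall G v ∪ ⋃ i, D i) \ T) 5 := by
  refine few_of_label (idxB G v) ?_ (by simp)
  rintro a ⟨ha, haT⟩ a' ⟨ha', haT'⟩ e x ⟨hx, hxT⟩
  obtain ⟨i, hi⟩ := mem_iUnion.1 ha
  obtain ⟨i', hi'⟩ := mem_iUnion.1 ha'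
  rw [idxB_eq hi, idxB_eq hi'] at e
  subst e
  rcases hx with (hx | ⟨j, hj⟩) | hx
  · exact iff_of_false (fun h => BZ hG (P.sh i) (mB hi (idx1 i)) (mZ hx) h)
      (fun h => BZ hG (P.sh i) (mB hi' (idx1 i)) (mZ hx) h)
  · rcases five i j with e | e | e | e | e
    · exact iff_of_false
        (fun h => AB0 hG (P.sh i) (mA hj (e.trans (idx1 i))) (mB hi (idx1 i)) h.symm)
        (fun h => AB0 hG (P.sh i) (mA hj (e.trans (idx1 i))) (mB hi' (idx1 i)) h.symm)
    · have e' : i = j + 4 := by rw [e]; clear * -; revert i; decide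
      exact iff_of_true (h4 j x hj a (e' ▸ hi) hxT haT).symm (h4 j x hj a' (e' ▸ hi') hxT haT').symm
    · exfalso
      have e' : i = j + 3 := by rw [e]; clear * -; revert i; decide
      exact AB3 hG (P.sh j) (mA hj (idx1 j)) (mB hi e')
    · exact (AB2 hG (P.sh j) (mA hj (idx1 j)) (mB hi e)).elim
    · exact iff_of_true (h1 j x hj a (e ▸ hi) hxT haT).symm (h1 j x hj a' (e ▸ hi') hxT haT').symm
  · obtain ⟨j, hj⟩ := mem_iUnion.1 hx
    have hjC := hD j hj
    rcases five i j with e | e | e | e | e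
    · subst e
      exact iff_of_true (h0 _ a hi x hjC haT hxT) (h0 _ a' hi' x hjC haT' hxT)
    · exact (BC1 hG (P.sh i) (mB hi (idx1 i)) (mC hjC e)).elim
    · refine iff_of_true ?_ ?_
      · by_contra h; exact BC2 hG (P.sh i) (mB hi (idx1 i)) (mC hjC e) h
      · by_contra h; exact BC2 hG (P.sh i) (mB hi' (idx1 i)) (mC hjC e) h
    · have e' : j = i + 3 := by rw [e]; clear * -; revert j; decide
      refine iff_of_true ?_ ?_
      · by_contra h; exact BC3 hG (P.sh i) (mB hi (idx1 i)) (mC hjC e') h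
      · by_contra h; exact BC3 hG (P.sh i) (mB hi' (idx1 i)) (mC hjC e') h
    · have e' : j = i + 4 := by rw [e]; clear * -; revert j; decide
      exact (BC4 hG (P.sh i) (mB hi (idx1 i)) (mC hjC e')).elim

/-! ### classification of the vertices -/

theorem bool5 : ∀ f : Fin 5 → Bool,
    (∃ i, f i = true ∧ f (i + 1) = true ∧ f (i + 2) = true ∧ f (i + 3) = true) ∨
    (∀ j, f j = false) ∨ (∃ i, ∀ j, f j = tA i j) ∨ (∃ i, ∀ j, f j = tB i j) ∨
    (∃ i, ∀ j, f j = tC i j) ∨ (∃ i, ∀ j, f j = tS i j) ∨ (∃ i, ∀ j, f j = tE i j) := by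
  decide

theorem classify (hG : Cls G) (P : IsC5 G v) (x : V) :
    x ∈ cZ G v ∨ x ∈ Aall G v ∨ (∃ i, x ∈ cB G v i) ∨ (∃ i, x ∈ cC G v i) ∨ (∃ i, x ∈ cS G v i) ∨
      (∃ i, x ∈ cE G v i) ∨ x ∈ Set.range v := by
  classical
  have hf : ∀ j, G.Adj x (v j) ↔ decide (G.Adj x (v j)) = true := fun j => by simp
  rcases bool5 (fun j => decide (G.Adj x (v j))) with h | h | h | h | h | h | h
  · exfalso
    obtain ⟨i, h0, h1, h2, h3⟩ := h
    simp only [decide_eq_true_eq] at h0 h1 h2 h3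
    have p : ∀ i : Fin 5, cyc i (i + 1) = true ∧ cyc (i + 1) (i + 2) = true ∧
        cyc (i + 2) (i + 3) = true ∧ cyc i (i + 2) = false ∧ cyc i (i + 3) = false ∧
        cyc (i + 1) (i + 3) = false := by decide
    obtain ⟨p1, p2, p3, p4, p5, p6⟩ := p i
    exact hG.gem x _ _ _ _ h0 h1 h2 h3 ((P _ _).2 p1) ((P _ _).2 p2) ((P _ _).2 p3)
      (P.nad p4) (P.nad p5) (P.nad p6)
  · left
    intro j hj
    have := h j
    simp only [decide_eq_false_iff_not] at this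
    exact this hj
  · obtain ⟨i, hi⟩ := h
    by_cases hx : x = v i
    · exact Or.inr (Or.inr (Or.inr (Or.inr (Or.inr (Or.inr ⟨i, hx.symm⟩)))))
    · exact Or.inr (Or.inl ⟨i, hx, fun j => (hf j).trans (by rw [hi j])⟩)
  · obtain ⟨i, hi⟩ := h
    exact Or.inr (Or.inr (Or.inl ⟨i, fun j => (hf j).trans (by rw [hi j])⟩))
  · obtain ⟨i, hi⟩ := h
    exact Or.inr (Or.inr (Or.inr (Or.inl ⟨i, fun j => (hf j).trans (by rw [hi j])⟩)))
  · obtain ⟨i, hi⟩ := h
    exact Or.inr (Or.inr (Or.inr (Or.inr (Or.inl ⟨i, fun j => (hf j).trans (by rw [hi j])⟩))))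
  · obtain ⟨i, hi⟩ := h
    exact Or.inr (Or.inr (Or.inr (Or.inr (Or.inr (Or.inl ⟨i, fun j => (hf j).trans (by rw [hi j])⟩)))))

theorem ncard_iUnion5 [Finite V] (F : Fin 5 → Set V) {n : ℕ} (h : ∀ i, (F i).ncard ≤ n) :
    (⋃ i, F i).ncard ≤ 5 * n := by
  have e : (⋃ i, F i) = F 0 ∪ (F 1 ∪ (F 2 ∪ (F 3 ∪ F 4))) := by
    ext x
    simp only [mem_iUnion, mem_union]
    constructor
    · rintro ⟨i, hi⟩
      have hi5 : i = 0 ∨ i = 1 ∨ i = 2 ∨ i = 3 ∨ i = 4 := by clear hi; revert i; decide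
      rcases hi5 with rfl | rfl | rfl | rfl | rfl
      · exact Or.inl hi
      · exact Or.inr (Or.inl hi)
      · exact Or.inr (Or.inr (Or.inl hi))
      · exact Or.inr (Or.inr (Or.inr (Or.inl hi)))
      · exact Or.inr (Or.inr (Or.inr (Or.inr hi)))
    · rintro (h | h | h | h | h)
      exacts [⟨_, h⟩, ⟨_, h⟩, ⟨_, h⟩, ⟨_, h⟩, ⟨_, h⟩]
  rw [e]
  have a1 := Set.ncard_union_le (F 0) (F 1 ∪ (F 2 ∪ (F 3 ∪ F 4)))
  have a2 := Set.ncard_union_le (F 1) (F 2 ∪ (F 3 ∪ F 4))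
  have a3 := Set.ncard_union_le (F 2) (F 3 ∪ F 4)
  have a4 := Set.ncard_union_le (F 3) (F 4)
  have b0 := h 0
  have b1 := h 1
  have b2 := h 2
  have b3 := h 3
  have b4 := h 4
  omega

theorem ncard_range5 [Finite V] (d : Fin 5 → V) : (Set.range d).ncard ≤ 5 := by
  classical
  have h1 : (Set.range d) = ((Finset.univ.image d : Finset V) : Set V) := by
    ext x; simp
  rw [h1, Set.ncard_coe_finset]
  exact le_trans Finset.card_image_le (by simp)

def mainK (k : ℕ) : ℕ := addN (comb (max (noBK k) 10) 5) 40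

theorem main_aux [Finite V] (hX : ClassX k) (hG : Cls G) (P : IsC5 G v)
    (hC1 : (cC G v 1).ncard ≤ 2) (hC4 : (cC G v 4).ncard ≤ 2) : W G univ (mainK k) := by
  classical
  -- large classes `C`
  set D : Fin 5 → Set V := fun i => if (cC G v i).ncard ≤ 2 then ∅ else cC G v i with hDdef
  have hD : ∀ i, D i ⊆ cC G v i := by
    intro i x hx
    simp only [hDdef] at hx
    split_ifs at hx with h
    · exact absurd hx (notMem_empty x)
    · exact hx
  have hD1 : D 1 = ∅ := by simp only [hDdef]; rw [if_pos hC1]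
  have hD4 : D 4 = ∅ := by simp only [hDdef]; rw [if_pos hC4]
  have hD2 : ∀ i, ∀ c ∈ D i, ∃ c1 ∈ cC G v i, c ≠ c1 := by
    intro i c hc
    have h : ¬ (cC G v i).ncard ≤ 2 := by
      intro h
      simp only [hDdef] at hc
      rw [if_pos h] at hc
      exact absurd hc (notMem_empty c)
    by_contra hcon
    apply h
    have : (cC G v i) ⊆ {c} := by
      intro c1 hc1
      by_contra hne
      exact hcon ⟨c1, hc1, fun e => hne e.symm⟩
    have h2 := Set.ncard_le_ncard this (Set.toFinite _)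
    rw [Set.ncard_singleton] at h2
    omega
  -- star centres
  have c1 : ∀ i, ∃ d, ∀ a ∈ cA G v i, ∀ b ∈ cB G v (i + 1), a ≠ d → b ≠ d → G.Adj a b := by
    intro i
    refine star (v 0) ?_
    intro a ha a1 ha1 b hb b1 hb1 h1 h2 h3 h4
    exact AB1star hG (P.sh i) (mA ha (idx1 i)) (mA ha1 (idx1 i)) (mB hb rfl) (mB hb1 rfl) h1 h2 h3 h4
  have c4 : ∀ i, ∃ d, ∀ a ∈ cA G v i, ∀ b ∈ cB G v (i + 4), a ≠ d → b ≠ d → G.Adj a b := by
    intro i
    refine star (v 0) ?_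
    intro a ha a1 ha1 b hb b1 hb1 h1 h2 h3 h4
    exact AB4star hG (P.sh i) (mA ha (idx1 i)) (mA ha1 (idx1 i)) (mB hb rfl) (mB hb1 rfl) h1 h2 h3 h4
  have c0 : ∀ i, ∃ d, ∀ b ∈ cB G v i, ∀ c ∈ cC G v i, b ≠ d → c ≠ d → G.Adj b c := by
    intro i
    refine star (v 0) ?_
    intro a ha a1 ha1 b hb b1 hb1 h1 h2 h3 h4
    exact BCstar hG (P.sh i) (mB ha (idx1 i)) (mB ha1 (idx1 i)) (mC hb (idx1 i)) (mC hb1 (idx1 i))
      h1 h2 h3 h4
  choose d1 hd1 using c1
  choose d4 hd4 using c4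
  choose d0 hd0 using c0
  set T : Set V := Set.range d1 ∪ (Set.range d4 ∪ Set.range d0) with hT
  have hT1 : ∀ i, d1 i ∈ T := fun i => Or.inl ⟨i, rfl⟩
  have hT4 : ∀ i, d4 i ∈ T := fun i => Or.inr (Or.inl ⟨i, rfl⟩)
  have hT0 : ∀ i, d0 i ∈ T := fun i => Or.inr (Or.inr ⟨i, rfl⟩)
  set R1 : Set V := cZ G v ∪ Aall G v ∪ ⋃ i, D i with hR1
  set Bs : Set V := ⋃ i, cB G v i with hBs
  have hW1 : W G (R1 \ T) (max (noBK k) 10) :=
    ((noB_bound hX hG P D hD hD1 hD4 hD2).mono (le_max_left _ _)).subset sdiff_subset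
  have hW2 : W G (Bs \ T) (max (noBK k) 10) :=
    ((B_width hG P).mono (le_max_right _ _)).subset sdiff_subset
  have hfew : Few G (Bs \ T) (R1 \ T) 5 := by
    refine B_few hG P D hD T ?_ ?_ ?_
    · intro i a ha b hb h1 h2
      exact hd1 i a ha b hb (fun e => h1 (e ▸ hT1 i)) (fun e => h2 (e ▸ hT1 i))
    · intro i a ha b hb h1 h2
      exact hd4 i a ha b hb (fun e => h1 (e ▸ hT4 i)) (fun e => h2 (e ▸ hT4 i))
    · intro i a ha b hb h1 h2
      exact hd0 i a ha b hb (fun e => h1 (e ▸ hT0 i)) (fun e => h2 (e ▸ hT0 i))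
  have hdisj : Disjoint (Bs \ T) (R1 \ T) := by
    rw [disjoint_left]
    rintro x ⟨hx, _⟩ ⟨hx', _⟩
    obtain ⟨i, hi⟩ := mem_iUnion.1 hx
    rcases hx' with (hx' | ⟨j, hj⟩) | hx'
    · refine hx' i ((hi i).2 ?_)
      clear * -; revert i; decide
    · have h1 : ∀ m, tA j m = tB i m := by
        intro m
        have a := hj.2 m
        have b := hi m
        have := a.symm.trans b
        cases h1 : tA j m <;> cases h2 : tB i m <;> simp_all
      clear * - h1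
      revert i j; decide
    · obtain ⟨j, hj⟩ := mem_iUnion.1 hx'
      have h1 : ∀ m, tC j m = tB i m := by
        intro m
        have a := (hD j hj) m
        have b := hi m
        have := a.symm.trans b
        cases h1 : tC j m <;> cases h2 : tB i m <;> simp_all
      clear * - h1
      revert i j; decide
  have hW3 := W.combine' hW2 hW1 hdisj hfew
  -- the deleted vertices
  set F : Set V := (T ∪ Set.range v) ∪ ((⋃ i, cS G v i) ∪ ((⋃ i, cE G v i) ∪
    (⋃ i, if (cC G v i).ncard ≤ 2 then cC G v i else ∅))) with hF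
  have hFcard : F.ncard ≤ 40 := by
    have s1 : (⋃ i, cS G v i).ncard ≤ 5 * 1 := by
      refine ncard_iUnion5 _ (fun i => ncard_le_one_of_subsingleton ?_)
      intro x hx y hy
      by_contra hne
      exact S_uniq hG (P.sh i) (mS hx (idx1 i)) (mS hy (idx1 i)) hne
    have s2 : (⋃ i, cE G v i).ncard ≤ 5 * 1 := by
      refine ncard_iUnion5 _ (fun i => ncard_le_one_of_subsingleton ?_)
      intro x hx y hy
      by_contra hne
      exact E_uniq hG (P.sh i) (mE hx (idx1 i)) (mE hy (idx1 i)) hne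
    have s3 : (⋃ i, if (cC G v i).ncard ≤ 2 then cC G v i else ∅).ncard ≤ 5 * 2 := by
      refine ncard_iUnion5 _ (fun i => ?_)
      split_ifs with h
      · exact h
      · simp
    have r1 := ncard_range5 d1
    have r4 := ncard_range5 d4
    have r0 := ncard_range5 d0
    have rv := ncard_range5 v
    have u1 := Set.ncard_union_le (Set.range d4) (Set.range d0)
    have u2 := Set.ncard_union_le (Set.range d1) (Set.range d4 ∪ Set.range d0)
    rw [← hT] at u2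
    have u3 := Set.ncard_union_le T (Set.range v)
    have u4 := Set.ncard_union_le (⋃ i, cE G v i) (⋃ i, if (cC G v i).ncard ≤ 2 then cC G v i else ∅)
    have u5 := Set.ncard_union_le (⋃ i, cS G v i) ((⋃ i, cE G v i) ∪
      (⋃ i, if (cC G v i).ncard ≤ 2 then cC G v i else ∅))
    have u6 := Set.ncard_union_le (T ∪ Set.range v) ((⋃ i, cS G v i) ∪ ((⋃ i, cE G v i) ∪
      (⋃ i, if (cC G v i).ncard ≤ 2 then cC G v i else ∅)))
    rw [← hF] at u6
    omega
  refine (W.union_ncard hW3 hFcard).subset ?_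
  intro x _
  by_cases hxT : x ∈ T
  · exact Or.inr (Or.inl (Or.inl hxT))
  rcases classify hG P x with h | h | h | h | h | h | h
  · exact Or.inl (Or.inr ⟨Or.inl (Or.inl h), hxT⟩)
  · exact Or.inl (Or.inr ⟨Or.inl (Or.inr h), hxT⟩)
  · exact Or.inl (Or.inl ⟨mem_iUnion.2 h, hxT⟩)
  · obtain ⟨i, hi⟩ := h
    by_cases hs : (cC G v i).ncard ≤ 2
    · refine Or.inr (Or.inr (Or.inr (Or.inr (mem_iUnion.2 ⟨i, ?_⟩))))
      rw [if_pos hs]; exact hi
    · refine Or.inl (Or.inr ⟨Or.inr (mem_iUnion.2 ⟨i, ?_⟩), hxT⟩)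
      simp only [hDdef]
      rw [if_neg hs]; exact hi
  · exact Or.inr (Or.inr (Or.inl (mem_iUnion.2 h)))
  · exact Or.inr (Or.inr (Or.inr (Or.inl (mem_iUnion.2 h))))
  · exact Or.inr (Or.inl (Or.inr h))

theorem cC_sh (i j : Fin 5) : cC G (sh v i) j = cC G v (i + j) := by
  ext x; exact ⟨fun h => mC' h, fun h => mC h rfl⟩

theorem bool5' : ∀ f : Fin 5 → Bool, (∀ i, ¬ (f i = true ∧ f (i + 1) = true)) →
    ∃ i, f (i + 1) = false ∧ f (i + 4) = false := by
  decide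

theorem c5_bound' [Finite V] (hX : ClassX k) (hG : Cls G) (P : IsC5 G v) :
    W G univ (mainK k) := by
  classical
  obtain ⟨i, h1, h4⟩ := bool5' (fun i => decide (¬ (cC G v i).ncard ≤ 2)) (by
    rintro i ⟨h1, h2⟩
    simp only [decide_eq_true_eq, not_le] at h1 h2
    obtain ⟨c, hc, c1, hc1, hne⟩ := (Set.one_lt_ncard (Set.toFinite _)).1
      (lt_trans (by norm_num) h1 : 1 < (cC G v i).ncard)
    obtain ⟨d, hd, _⟩ := (Set.one_lt_ncard (Set.toFinite _)).1
      (lt_trans (by norm_num) h2 : 1 < (cC G v (i + 1)).ncard)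
    exact CC1two hG (P.sh i) (mC hc (idx1 i)) (mC hc1 (idx1 i)) (mC hd rfl) hne)
  simp only [decide_eq_false_iff_not, not_not] at h1 h4
  refine main_aux hX hG (P.sh i) ?_ ?_
  · rw [cC_sh]; exact h1
  · rw [cC_sh]; exact h4

end C5case

/-- the C5 case -/
theorem c5_bound_of {k : ℕ} (hX : ClassX k) : ∃ k' : ℕ, ∀ (V : Type) [Finite V] (G : SimpleGraph V),
    Cls G → ¬ NoC5 G → W G Set.univ k' := by
  refine ⟨C5case.mainK k, fun V _ G hG hC => ?_⟩
  unfold NoC5 at hC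
  push Not at hC
  obtain ⟨a, b, c, d, e, h1, h2, h3, h4, h5, n1, n2, n3, n4, n5, -⟩ := hC
  refine C5case.c5_bound' (v := ![a, b, c, d, e]) hX hG ?_
  intro i j
  fin_cases i <;> fin_cases j <;>
    simp [C5case.cyc, h1, h2, h3, h4, h5, n1, n2, n3, n4, n5, h1.symm, h2.symm, h3.symm, h4.symm,
      h5.symm, nadj_symm n1, nadj_symm n2, nadj_symm n3, nadj_symm n4, nadj_symm n5]

end Pool.Agent.GemWidth
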