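import Pool.Agent.GemWidth.Ops2

/-! Typed pattern lemmas around an induced C5 (the proofs are generated: every proof names the gem
or the `P2+P3`).  Classes of vertices by their trace on the C5 `v`:
`cA i = {i-1,i+1}` (and different from `v i`), `cB i = {i-1,i,i+1}`, `cC i = {i,i+2,i+3}`,
`cS i = {i}`, `cE i = {i,i+1}`, `cZ = ∅`. -/

set_option autoImplicit false
set_option linter.unusedVariables false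

namespace Pool.Agent.GemWidth
namespace C5case

variable {V : Type*} {G : SimpleGraph V} {v : Fin 5 → V}

def cyc (i j : Fin 5) : Bool := j == i + 1 || i == j + 1
def tA (i j : Fin 5) : Bool := j == i + 1 || j == i + 4
def tB (i j : Fin 5) : Bool := j == i || (j == i + 1 || j == i + 4)
def tC (i j : Fin 5) : Bool := j == i || (j == i + 2 || j == i + 3)
def tS (i j : Fin 5) : Bool := j == i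
def tE (i j : Fin 5) : Bool := j == i || j == i + 1

/-- `v` is an induced five-cycle -/
def IsC5 (G : SimpleGraph V) (v : Fin 5 → V) : Prop := ∀ i j, G.Adj (v i) (v j) ↔ cyc i j = true

def cA (G : SimpleGraph V) (v : Fin 5 → V) (i : Fin 5) : Set V :=
  {x | x ≠ v i ∧ ∀ j, (G.Adj x (v j) ↔ tA i j = true)}
def cB (G : SimpleGraph V) (v : Fin 5 → V) (i : Fin 5) : Set V :=
  {x | ∀ j, (G.Adj x (v j) ↔ tB i j = true)}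
def cC (G : SimpleGraph V) (v : Fin 5 → V) (i : Fin 5) : Set V :=
  {x | ∀ j, (G.Adj x (v j) ↔ tC i j = true)}
def cS (G : SimpleGraph V) (v : Fin 5 → V) (i : Fin 5) : Set V :=
  {x | ∀ j, (G.Adj x (v j) ↔ tS i j = true)}
def cE (G : SimpleGraph V) (v : Fin 5 → V) (i : Fin 5) : Set V :=
  {x | ∀ j, (G.Adj x (v j) ↔ tE i j = true)}
def cZ (G : SimpleGraph V) (v : Fin 5 → V) : Set V := {x | ∀ j, ¬ G.Adj x (v j)}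

theorem nf {a b : V} {t : Bool} (h : G.Adj a b ↔ t = true) (ht : t = false) :
    ¬ G.Adj a b := fun h' => by rw [ht] at h; exact Bool.false_ne_true (h.1 h')

theorem nf1 {a b : V} (h : G.Adj a b ↔ false = true) : ¬ G.Adj a b := nf h rfl

theorem IsC5.nad (P : IsC5 G v) {i j : Fin 5} (h : cyc i j = false) : ¬ G.Adj (v i) (v j) :=
  nf (P i j) h

theorem ns {a b : V} (h : ¬ G.Adj a b) : ¬ G.Adj b a := fun h' => h h'.symm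

theorem sy {a b : V} (h : G.Adj a b) : G.Adj b a := h.symm


theorem S_uniq (hG : Cls G) (P : IsC5 G v) {a b : V}
    (ha : a ∈ cS G v 0) (hb : b ∈ cS G v 0)
    (dab : a ≠ b) : False := by
  by_cases k0 : G.Adj a b
  · exact hG.p23 _ _ _ _ _ k0 ((P 1 2).2 rfl) ((P 2 3).2 rfl) (SimpleGraph.ne_of_adj_of_not_adj G ((P 1 0).2 rfl) (P.nad rfl : ¬ G.Adj (v 3) (v 0))) (P.nad rfl : ¬ G.Adj (v 1) (v 3)) (nf1 (ha 1)) (nf1 (ha 2)) (nf1 (ha 3)) (nf1 (hb 1)) (nf1 (hb 2)) (nf1 (hb 3))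
  · exact hG.p23 _ _ _ _ _ ((P 2 3).2 rfl) ((ha 0).2 rfl) (sy ((hb 0).2 rfl)) dab k0 (ns (nf1 (ha 2))) (P.nad rfl : ¬ G.Adj (v 2) (v 0)) (ns (nf1 (hb 2))) (ns (nf1 (ha 3))) (P.nad rfl : ¬ G.Adj (v 3) (v 0)) (ns (nf1 (hb 3)))

theorem E_uniq (hG : Cls G) (P : IsC5 G v) {a b : V}
    (ha : a ∈ cE G v 0) (hb : b ∈ cE G v 0)
    (dab : a ≠ b) : False := by
  by_cases k0 : G.Adj a b
  · exact hG.p23 _ _ _ _ _ k0 ((P 2 3).2 rfl) ((P 3 4).2 rfl) (SimpleGraph.ne_of_adj_of_not_adj G ((P 4 0).2 rfl) (P.nad rfl : ¬ G.Adj (v 2) (v 0))).symm (P.nad rfl : ¬ G.Adj (v 2) (v 4)) (nf1 (ha 2)) (nf1 (ha 3)) (nf1 (ha 4)) (nf1 (hb 2)) (nf1 (hb 3)) (nf1 (hb 4))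
  · exact hG.p23 _ _ _ _ _ ((P 2 3).2 rfl) ((ha 0).2 rfl) (sy ((hb 0).2 rfl)) dab k0 (ns (nf1 (ha 2))) (P.nad rfl : ¬ G.Adj (v 2) (v 0)) (ns (nf1 (hb 2))) (ns (nf1 (ha 3))) (P.nad rfl : ¬ G.Adj (v 3) (v 0)) (ns (nf1 (hb 3)))

theorem BB0 (hG : Cls G) (P : IsC5 G v) {a b : V}
    (ha : a ∈ cB G v 0) (hb : b ∈ cB G v 0)
    (nab : ¬ G.Adj a b) (dab : a ≠ b) : False := by
  exact hG.p23 _ _ _ _ _ ((P 2 3).2 rfl) ((ha 0).2 rfl) (sy ((hb 0).2 rfl)) dab nab (ns (nf1 (ha 2))) (P.nad rfl : ¬ G.Adj (v 2) (v 0)) (ns (nf1 (hb 2))) (ns (nf1 (ha 3))) (P.nad rfl : ¬ G.Adj (v 3) (v 0)) (ns (nf1 (hb 3)))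

theorem BB1 (hG : Cls G) (P : IsC5 G v) {a b : V}
    (ha : a ∈ cB G v 0) (hb : b ∈ cB G v 1)
    (nab : ¬ G.Adj a b) : False := by
  exact hG.gem _ _ _ _ _ (sy ((hb 0).2 rfl)) ((P 0 1).2 rfl) (sy ((ha 0).2 rfl)) ((P 0 4).2 rfl) ((hb 1).2 rfl) (sy ((ha 1).2 rfl)) ((ha 4).2 rfl) (ns nab) (nf1 (hb 4)) (P.nad rfl : ¬ G.Adj (v 1) (v 4))

theorem BB2 (hG : Cls G) (P : IsC5 G v) {a b : V}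
    (ha : a ∈ cB G v 0) (hb : b ∈ cB G v 2)
    (eab : G.Adj a b) : False := by
  exact hG.gem _ _ _ _ _ ((P 1 0).2 rfl) (sy ((ha 1).2 rfl)) (sy ((hb 1).2 rfl)) ((P 1 2).2 rfl) (sy ((ha 0).2 rfl)) eab ((hb 2).2 rfl) (ns (nf1 (hb 0))) (P.nad rfl : ¬ G.Adj (v 0) (v 2)) (nf1 (ha 2))

theorem BZ (hG : Cls G) (P : IsC5 G v) {b z : V}
    (hb : b ∈ cB G v 0) (hz : z ∈ cZ G v)
    (ebz : G.Adj b z) : False := by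
  exact hG.p23 _ _ _ _ _ ((P 2 3).2 rfl) (sy ((hb 0).2 rfl)) ebz (SimpleGraph.ne_of_adj_of_not_adj G ((P 0 1).2 rfl) (hz 1)) (ns (hz 0)) (P.nad rfl : ¬ G.Adj (v 2) (v 0)) (ns (nf1 (hb 2))) (ns (hz 2)) (P.nad rfl : ¬ G.Adj (v 3) (v 0)) (ns (nf1 (hb 3))) (ns (hz 3))

theorem AB0 (hG : Cls G) (P : IsC5 G v) {a b : V}
    (ha : a ∈ cA G v 0) (hb : b ∈ cB G v 0)
    (eab : G.Adj a b) : False := by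
  exact hG.p23 _ _ _ _ _ ((P 2 3).2 rfl) (sy ((hb 0).2 rfl)) (sy eab) (Ne.symm ha.1) (ns (nf1 (ha.2 0))) (P.nad rfl : ¬ G.Adj (v 2) (v 0)) (ns (nf1 (hb 2))) (ns (nf1 (ha.2 2))) (P.nad rfl : ¬ G.Adj (v 3) (v 0)) (ns (nf1 (hb 3))) (ns (nf1 (ha.2 3)))

theorem AB2 (hG : Cls G) (P : IsC5 G v) {a b : V}
    (ha : a ∈ cA G v 0) (hb : b ∈ cB G v 2)
     : False := by
  by_cases k0 : G.Adj a b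
  · exact hG.gem _ _ _ _ _ (sy k0) ((hb 1).2 rfl) ((hb 2).2 rfl) ((hb 3).2 rfl) ((ha.2 1).2 rfl) ((P 1 2).2 rfl) ((P 2 3).2 rfl) (nf1 (ha.2 2)) (nf1 (ha.2 3)) (P.nad rfl : ¬ G.Adj (v 1) (v 3))
  · exact hG.p23 _ _ _ _ _ (sy ((hb 2).2 rfl)) ((P 0 4).2 rfl) (sy ((ha.2 4).2 rfl)) (Ne.symm ha.1) (ns (nf1 (ha.2 0))) (P.nad rfl : ¬ G.Adj (v 2) (v 0)) (P.nad rfl : ¬ G.Adj (v 2) (v 4)) (ns (nf1 (ha.2 2))) (nf1 (hb 0)) (nf1 (hb 4)) (ns k0)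

theorem AB3 (hG : Cls G) (P : IsC5 G v) {a b : V}
    (ha : a ∈ cA G v 0) (hb : b ∈ cB G v 3)
     : False := by
  by_cases k0 : G.Adj a b
  · exact hG.gem _ _ _ _ _ ((hb 2).2 rfl) ((hb 3).2 rfl) ((hb 4).2 rfl) (sy k0) ((P 2 3).2 rfl) ((P 3 4).2 rfl) (sy ((ha.2 4).2 rfl)) (P.nad rfl : ¬ G.Adj (v 2) (v 4)) (ns (nf1 (ha.2 2))) (ns (nf1 (ha.2 3)))
  · exact hG.p23 _ _ _ _ _ (sy ((hb 3).2 rfl)) ((P 0 1).2 rfl) (sy ((ha.2 1).2 rfl)) (Ne.symm ha.1) (ns (nf1 (ha.2 0))) (P.nad rfl : ¬ G.Adj (v 3) (v 0)) (P.nad rfl : ¬ G.Adj (v 3) (v 1)) (ns (nf1 (ha.2 3))) (nf1 (hb 0)) (nf1 (hb 1)) (ns k0)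

theorem BC1 (hG : Cls G) (P : IsC5 G v) {b c : V}
    (hb : b ∈ cB G v 0) (hc : c ∈ cC G v 1)
     : False := by
  by_cases k0 : G.Adj b c
  · exact hG.gem _ _ _ _ _ ((P 4 0).2 rfl) (sy ((hb 4).2 rfl)) (sy ((hc 4).2 rfl)) ((P 4 3).2 rfl) (sy ((hb 0).2 rfl)) k0 ((hc 3).2 rfl) (ns (nf1 (hc 0))) (P.nad rfl : ¬ G.Adj (v 0) (v 3)) (nf1 (hb 3))
  · exact hG.p23 _ _ _ _ _ (sy ((hb 0).2 rfl)) ((P 2 3).2 rfl) (sy ((hc 3).2 rfl)) (SimpleGraph.ne_of_adj_of_not_adj G ((hc 4).2 rfl) (P.nad rfl : ¬ G.Adj (v 2) (v 4))).symm (ns (nf1 (hc 2))) (P.nad rfl : ¬ G.Adj (v 0) (v 2)) (P.nad rfl : ¬ G.Adj (v 0) (v 3)) (ns (nf1 (hc 0))) (nf1 (hb 2)) (nf1 (hb 3)) k0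

theorem BC4 (hG : Cls G) (P : IsC5 G v) {b c : V}
    (hb : b ∈ cB G v 0) (hc : c ∈ cC G v 4)
     : False := by
  by_cases k0 : G.Adj b c
  · exact hG.gem _ _ _ _ _ ((P 1 0).2 rfl) (sy ((hb 1).2 rfl)) (sy ((hc 1).2 rfl)) ((P 1 2).2 rfl) (sy ((hb 0).2 rfl)) k0 ((hc 2).2 rfl) (ns (nf1 (hc 0))) (P.nad rfl : ¬ G.Adj (v 0) (v 2)) (nf1 (hb 2))
  · exact hG.p23 _ _ _ _ _ (sy ((hb 0).2 rfl)) ((P 3 2).2 rfl) (sy ((hc 2).2 rfl)) (SimpleGraph.ne_of_adj_of_not_adj G ((hc 1).2 rfl) (P.nad rfl : ¬ G.Adj (v 3) (v 1))).symm (ns (nf1 (hc 3))) (P.nad rfl : ¬ G.Adj (v 0) (v 3)) (P.nad rfl : ¬ G.Adj (v 0) (v 2)) (ns (nf1 (hc 0))) (nf1 (hb 3)) (nf1 (hb 2)) k0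

theorem BC2 (hG : Cls G) (P : IsC5 G v) {b c : V}
    (hb : b ∈ cB G v 0) (hc : c ∈ cC G v 2)
    (nbc : ¬ G.Adj b c) : False := by
  exact hG.gem _ _ _ _ _ (sy ((hc 0).2 rfl)) ((P 0 4).2 rfl) (sy ((hb 0).2 rfl)) ((P 0 1).2 rfl) ((hc 4).2 rfl) (sy ((hb 4).2 rfl)) ((hb 1).2 rfl) (ns nbc) (nf1 (hc 1)) (P.nad rfl : ¬ G.Adj (v 4) (v 1))

theorem BC3 (hG : Cls G) (P : IsC5 G v) {b c : V}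
    (hb : b ∈ cB G v 0) (hc : c ∈ cC G v 3)
    (nbc : ¬ G.Adj b c) : False := by
  exact hG.gem _ _ _ _ _ (sy ((hc 0).2 rfl)) ((P 0 1).2 rfl) (sy ((hb 0).2 rfl)) ((P 0 4).2 rfl) ((hc 1).2 rfl) (sy ((hb 1).2 rfl)) ((hb 4).2 rfl) (ns nbc) (nf1 (hc 4)) (P.nad rfl : ¬ G.Adj (v 1) (v 4))

theorem AB1star (hG : Cls G) (P : IsC5 G v) {a a1 b b1 : V}
    (ha : a ∈ cA G v 0) (ha1 : a1 ∈ cA G v 0) (hb : b ∈ cB G v 1) (hb1 : b1 ∈ cB G v 1)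
    (nab : ¬ G.Adj a b) (na1b1 : ¬ G.Adj a1 b1) (daa1 : a ≠ a1) (dbb1 : b ≠ b1) : False := by
  by_cases k0 : G.Adj b b1
  · by_cases k1 : G.Adj a b1
    · by_cases k2 : G.Adj a a1
      · exact hG.gem _ _ _ _ _ (sy ((ha1.2 1).2 rfl)) (sy ((ha.2 1).2 rfl)) (sy ((hb1 1).2 rfl)) ((P 1 0).2 rfl) (sy k2) k1 ((hb1 0).2 rfl) na1b1 (nf1 (ha1.2 0)) (nf1 (ha.2 0))
      · by_cases k3 : G.Adj a1 b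
        · exact hG.gem _ _ _ _ _ (sy ((ha1.2 1).2 rfl)) (sy ((hb 1).2 rfl)) (sy ((hb1 1).2 rfl)) (sy ((ha.2 1).2 rfl)) k3 k0 (sy k1) na1b1 (ns k2) (ns nab)
        · exact hG.p23 _ _ _ _ _ k0 ((P 3 4).2 rfl) (sy ((ha1.2 4).2 rfl)) (SimpleGraph.ne_of_adj_of_not_adj G ((ha1.2 1).2 rfl) (P.nad rfl : ¬ G.Adj (v 3) (v 1))).symm (ns (nf1 (ha1.2 3))) (nf1 (hb 3)) (nf1 (hb 4)) (ns k3) (nf1 (hb1 3)) (nf1 (hb1 4)) (ns na1b1)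
    · exact hG.p23 _ _ _ _ _ k0 ((P 3 4).2 rfl) (sy ((ha.2 4).2 rfl)) (SimpleGraph.ne_of_adj_of_not_adj G ((ha.2 1).2 rfl) (P.nad rfl : ¬ G.Adj (v 3) (v 1))).symm (ns (nf1 (ha.2 3))) (nf1 (hb 3)) (nf1 (hb 4)) (ns nab) (nf1 (hb1 3)) (nf1 (hb1 4)) (ns k1)
  · exact hG.p23 _ _ _ _ _ ((P 3 4).2 rfl) ((hb 1).2 rfl) (sy ((hb1 1).2 rfl)) dbb1 k0 (ns (nf1 (hb 3))) (P.nad rfl : ¬ G.Adj (v 3) (v 1)) (ns (nf1 (hb1 3))) (ns (nf1 (hb 4))) (P.nad rfl : ¬ G.Adj (v 4) (v 1)) (ns (nf1 (hb1 4)))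

theorem AB4star (hG : Cls G) (P : IsC5 G v) {a a1 b b1 : V}
    (ha : a ∈ cA G v 0) (ha1 : a1 ∈ cA G v 0) (hb : b ∈ cB G v 4) (hb1 : b1 ∈ cB G v 4)
    (nab : ¬ G.Adj a b) (na1b1 : ¬ G.Adj a1 b1) (daa1 : a ≠ a1) (dbb1 : b ≠ b1) : False := by
  by_cases k0 : G.Adj b b1
  · by_cases k1 : G.Adj a b1
    · by_cases k2 : G.Adj a a1
      · exact hG.gem _ _ _ _ _ (sy ((ha1.2 4).2 rfl)) (sy ((ha.2 4).2 rfl)) (sy ((hb1 4).2 rfl)) ((P 4 0).2 rfl) (sy k2) k1 ((hb1 0).2 rfl) na1b1 (nf1 (ha1.2 0)) (nf1 (ha.2 0))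
      · by_cases k3 : G.Adj a1 b
        · exact hG.gem _ _ _ _ _ (sy ((ha1.2 4).2 rfl)) (sy ((hb 4).2 rfl)) (sy ((hb1 4).2 rfl)) (sy ((ha.2 4).2 rfl)) k3 k0 (sy k1) na1b1 (ns k2) (ns nab)
        · exact hG.p23 _ _ _ _ _ k0 ((P 2 1).2 rfl) (sy ((ha1.2 1).2 rfl)) (SimpleGraph.ne_of_adj_of_not_adj G ((P 2 3).2 rfl) (nf1 (ha1.2 3))) (ns (nf1 (ha1.2 2))) (nf1 (hb 2)) (nf1 (hb 1)) (ns k3) (nf1 (hb1 2)) (nf1 (hb1 1)) (ns na1b1)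
    · exact hG.p23 _ _ _ _ _ k0 ((P 2 1).2 rfl) (sy ((ha.2 1).2 rfl)) (SimpleGraph.ne_of_adj_of_not_adj G ((P 2 3).2 rfl) (nf1 (ha.2 3))) (ns (nf1 (ha.2 2))) (nf1 (hb 2)) (nf1 (hb 1)) (ns nab) (nf1 (hb1 2)) (nf1 (hb1 1)) (ns k1)
  · exact hG.p23 _ _ _ _ _ ((P 1 2).2 rfl) ((hb 4).2 rfl) (sy ((hb1 4).2 rfl)) dbb1 k0 (ns (nf1 (hb 1))) (P.nad rfl : ¬ G.Adj (v 1) (v 4)) (ns (nf1 (hb1 1))) (ns (nf1 (hb 2))) (P.nad rfl : ¬ G.Adj (v 2) (v 4)) (ns (nf1 (hb1 2)))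

theorem AB1one (hG : Cls G) (P : IsC5 G v) {a b b1 : V}
    (ha : a ∈ cA G v 0) (hb : b ∈ cB G v 1) (hb1 : b1 ∈ cB G v 1)
    (nab : ¬ G.Adj a b) (nab1 : ¬ G.Adj a b1) (dbb1 : b ≠ b1) : False := by
  by_cases k0 : G.Adj b b1
  · exact hG.p23 _ _ _ _ _ k0 ((P 3 4).2 rfl) (sy ((ha.2 4).2 rfl)) (SimpleGraph.ne_of_adj_of_not_adj G ((ha.2 1).2 rfl) (P.nad rfl : ¬ G.Adj (v 3) (v 1))).symm (ns (nf1 (ha.2 3))) (nf1 (hb 3)) (nf1 (hb 4)) (ns nab) (nf1 (hb1 3)) (nf1 (hb1 4)) (ns nab1)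
  · exact hG.p23 _ _ _ _ _ ((P 3 4).2 rfl) ((hb 1).2 rfl) (sy ((hb1 1).2 rfl)) dbb1 k0 (ns (nf1 (hb 3))) (P.nad rfl : ¬ G.Adj (v 3) (v 1)) (ns (nf1 (hb1 3))) (ns (nf1 (hb 4))) (P.nad rfl : ¬ G.Adj (v 4) (v 1)) (ns (nf1 (hb1 4)))

theorem AB1two (hG : Cls G) (P : IsC5 G v) {a a1 b : V}
    (ha : a ∈ cA G v 0) (ha1 : a1 ∈ cA G v 0) (hb : b ∈ cB G v 1)
    (nab : ¬ G.Adj a b) (na1b : ¬ G.Adj a1 b) (daa1 : a ≠ a1) : False := by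
  by_cases k0 : G.Adj a a1
  · exact hG.p23 _ _ _ _ _ k0 ((P 3 2).2 rfl) (sy ((hb 2).2 rfl)) (SimpleGraph.ne_of_adj_of_not_adj G ((hb 0).2 rfl) (P.nad rfl : ¬ G.Adj (v 3) (v 0))).symm (ns (nf1 (hb 3))) (nf1 (ha.2 3)) (nf1 (ha.2 2)) nab (nf1 (ha1.2 3)) (nf1 (ha1.2 2)) na1b
  · exact hG.p23 _ _ _ _ _ (sy ((hb 2).2 rfl)) ((ha.2 4).2 rfl) (sy ((ha1.2 4).2 rfl)) daa1 k0 (ns (nf1 (ha.2 2))) (P.nad rfl : ¬ G.Adj (v 2) (v 4)) (ns (nf1 (ha1.2 2))) (ns nab) (nf1 (hb 4)) (ns na1b)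

theorem BCstar (hG : Cls G) (P : IsC5 G v) {b b1 c c1 : V}
    (hb : b ∈ cB G v 0) (hb1 : b1 ∈ cB G v 0) (hc : c ∈ cC G v 0) (hc1 : c1 ∈ cC G v 0)
    (nbc : ¬ G.Adj b c) (nb1c1 : ¬ G.Adj b1 c1) (dbb1 : b ≠ b1) (dcc1 : c ≠ c1) : False := by
  by_cases k0 : G.Adj b b1
  · by_cases k1 : G.Adj b c1
    · by_cases k2 : G.Adj c c1
      · exact hG.gem _ _ _ _ _ ((P 0 1).2 rfl) (sy ((hb 0).2 rfl)) (sy ((hc1 0).2 rfl)) (sy ((hc 0).2 rfl)) (sy ((hb 1).2 rfl)) k1 (sy k2) (ns (nf1 (hc1 1))) (ns (nf1 (hc 1))) nbc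
      · by_cases k3 : G.Adj b1 c
        · exact hG.gem _ _ _ _ _ (sy ((hc1 0).2 rfl)) (sy ((hb 0).2 rfl)) (sy ((hb1 0).2 rfl)) (sy ((hc 0).2 rfl)) (sy k1) k0 k3 (ns nb1c1) (ns k2) nbc
        · exact hG.p23 _ _ _ _ _ (sy ((hb1 4).2 rfl)) ((hc 2).2 rfl) (sy ((hc1 2).2 rfl)) dcc1 k2 (ns (nf1 (hc 4))) (P.nad rfl : ¬ G.Adj (v 4) (v 2)) (ns (nf1 (hc1 4))) k3 (nf1 (hb1 2)) nb1c1
    · by_cases k2 : G.Adj c c1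
      · exact hG.p23 _ _ _ _ _ k2 (sy ((hb 1).2 rfl)) ((hb 4).2 rfl) (SimpleGraph.ne_of_adj_of_not_adj G ((P 1 2).2 rfl) (P.nad rfl : ¬ G.Adj (v 4) (v 2))) (P.nad rfl : ¬ G.Adj (v 1) (v 4)) (nf1 (hc 1)) (ns nbc) (nf1 (hc 4)) (nf1 (hc1 1)) (ns k1) (nf1 (hc1 4))
      · exact hG.p23 _ _ _ _ _ (sy ((hb 4).2 rfl)) ((hc 2).2 rfl) (sy ((hc1 2).2 rfl)) dcc1 k2 (ns (nf1 (hc 4))) (P.nad rfl : ¬ G.Adj (v 4) (v 2)) (ns (nf1 (hc1 4))) nbc (nf1 (hb 2)) k1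
  · exact hG.p23 _ _ _ _ _ ((P 2 3).2 rfl) ((hb 0).2 rfl) (sy ((hb1 0).2 rfl)) dbb1 k0 (ns (nf1 (hb 2))) (P.nad rfl : ¬ G.Adj (v 2) (v 0)) (ns (nf1 (hb1 2))) (ns (nf1 (hb 3))) (P.nad rfl : ¬ G.Adj (v 3) (v 0)) (ns (nf1 (hb1 3)))

theorem ZZ (hG : Cls G) (P : IsC5 G v) {z w : V}
    (hz : z ∈ cZ G v) (hw : w ∈ cZ G v)
    (ezw : G.Adj z w) : False := by
  exact hG.p23 _ _ _ _ _ ezw ((P 1 0).2 rfl) ((P 0 4).2 rfl) (SimpleGraph.ne_of_adj_of_not_adj G ((P 1 2).2 rfl) (P.nad rfl : ¬ G.Adj (v 4) (v 2))) (P.nad rfl : ¬ G.Adj (v 1) (v 4)) (hz 1) (hz 0) (hz 4) (hw 1) (hw 0) (hw 4)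

theorem Z1 (hG : Cls G) (P : IsC5 G v) {a z w : V}
    (ha : a ∈ cA G v 0) (hz : z ∈ cZ G v) (hw : w ∈ cZ G v)
    (eaz : G.Adj a z) (eaw : G.Adj a w) (dzw : z ≠ w) : False := by
  by_cases k0 : G.Adj z w
  · exact hG.p23 _ _ _ _ _ k0 ((P 1 0).2 rfl) ((P 0 4).2 rfl) (SimpleGraph.ne_of_adj_of_not_adj G ((P 1 2).2 rfl) (P.nad rfl : ¬ G.Adj (v 4) (v 2))) (P.nad rfl : ¬ G.Adj (v 1) (v 4)) (hz 1) (hz 0) (hz 4) (hw 1) (hw 0) (hw 4)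
  · exact hG.p23 _ _ _ _ _ ((P 2 3).2 rfl) (sy eaz) eaw dzw k0 (ns (hz 2)) (ns (nf1 (ha.2 2))) (ns (hw 2)) (ns (hz 3)) (ns (nf1 (ha.2 3))) (ns (hw 3))

theorem Z2 (hG : Cls G) (P : IsC5 G v) {a b z : V}
    (ha : a ∈ cA G v 0) (hb : b ∈ cA G v 0) (hz : z ∈ cZ G v)
    (eab : G.Adj a b) (eaz : G.Adj a z) (nbz : ¬ G.Adj b z) : False := by
  exact hG.p23 _ _ _ _ _ ((P 2 3).2 rfl) (sy eab) eaz (SimpleGraph.ne_of_adj_of_not_adj G ((hb.2 1).2 rfl) (hz 1)) nbz (ns (nf1 (hb.2 2))) (ns (nf1 (ha.2 2))) (ns (hz 2)) (ns (nf1 (hb.2 3))) (ns (nf1 (ha.2 3))) (ns (hz 3))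

theorem Z3a (hG : Cls G) (P : IsC5 G v) {a b z : V}
    (ha : a ∈ cA G v 0) (hb : b ∈ cA G v 1) (hz : z ∈ cZ G v)
    (nab : ¬ G.Adj a b) (eaz : G.Adj a z) (nbz : ¬ G.Adj b z) : False := by
  exact hG.p23 _ _ _ _ _ eaz ((P 3 2).2 rfl) (sy ((hb.2 2).2 rfl)) (SimpleGraph.ne_of_adj_of_not_adj G ((hb.2 0).2 rfl) (P.nad rfl : ¬ G.Adj (v 3) (v 0))).symm (ns (nf1 (hb.2 3))) (nf1 (ha.2 3)) (nf1 (ha.2 2)) nab (hz 3) (hz 2) (ns nbz)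

theorem Z3b (hG : Cls G) (P : IsC5 G v) {a b z : V}
    (ha : a ∈ cA G v 0) (hb : b ∈ cA G v 1) (hz : z ∈ cZ G v)
    (nab : ¬ G.Adj a b) (ebz : G.Adj b z) (naz : ¬ G.Adj a z) : False := by
  exact hG.p23 _ _ _ _ _ ebz ((P 3 4).2 rfl) (sy ((ha.2 4).2 rfl)) (SimpleGraph.ne_of_adj_of_not_adj G ((ha.2 1).2 rfl) (P.nad rfl : ¬ G.Adj (v 3) (v 1))).symm (ns (nf1 (ha.2 3))) (nf1 (hb.2 3)) (nf1 (hb.2 4)) (ns nab) (hz 3) (hz 4) (ns naz)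

theorem Z3c (hG : Cls G) (P : IsC5 G v) {a b z : V}
    (ha : a ∈ cA G v 0) (hb : b ∈ cA G v 2) (hz : z ∈ cZ G v)
    (nab : ¬ G.Adj a b) (eaz : G.Adj a z) (nbz : ¬ G.Adj b z) : False := by
  exact hG.p23 _ _ _ _ _ eaz ((P 2 3).2 rfl) (sy ((hb.2 3).2 rfl)) (Ne.symm hb.1) (ns (nf1 (hb.2 2))) (nf1 (ha.2 2)) (nf1 (ha.2 3)) nab (hz 2) (hz 3) (ns nbz)

theorem Z3d (hG : Cls G) (P : IsC5 G v) {a b z : V}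
    (ha : a ∈ cA G v 0) (hb : b ∈ cA G v 2) (hz : z ∈ cZ G v)
    (nab : ¬ G.Adj a b) (ebz : G.Adj b z) (naz : ¬ G.Adj a z) : False := by
  exact hG.p23 _ _ _ _ _ ebz ((P 0 4).2 rfl) (sy ((ha.2 4).2 rfl)) (Ne.symm ha.1) (ns (nf1 (ha.2 0))) (nf1 (hb.2 0)) (nf1 (hb.2 4)) (ns nab) (hz 0) (hz 4) (ns naz)

theorem A1a (hG : Cls G) (P : IsC5 G v) {a b b1 : V}
    (ha : a ∈ cA G v 0) (hb : b ∈ cA G v 1) (hb1 : b1 ∈ cA G v 1)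
    (nab : ¬ G.Adj a b) (nab1 : ¬ G.Adj a b1) (dbb1 : b ≠ b1) : False := by
  by_cases k0 : G.Adj b b1
  · exact hG.p23 _ _ _ _ _ k0 ((P 3 4).2 rfl) (sy ((ha.2 4).2 rfl)) (SimpleGraph.ne_of_adj_of_not_adj G ((ha.2 1).2 rfl) (P.nad rfl : ¬ G.Adj (v 3) (v 1))).symm (ns (nf1 (ha.2 3))) (nf1 (hb.2 3)) (nf1 (hb.2 4)) (ns nab) (nf1 (hb1.2 3)) (nf1 (hb1.2 4)) (ns nab1)
  · exact hG.p23 _ _ _ _ _ (sy ((ha.2 4).2 rfl)) ((hb.2 2).2 rfl) (sy ((hb1.2 2).2 rfl)) dbb1 k0 (ns (nf1 (hb.2 4))) (P.nad rfl : ¬ G.Adj (v 4) (v 2)) (ns (nf1 (hb1.2 4))) nab (nf1 (ha.2 2)) nab1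

theorem A1b (hG : Cls G) (P : IsC5 G v) {a a1 b : V}
    (ha : a ∈ cA G v 0) (ha1 : a1 ∈ cA G v 0) (hb : b ∈ cA G v 1)
    (nab : ¬ G.Adj a b) (na1b : ¬ G.Adj a1 b) (daa1 : a ≠ a1) : False := by
  by_cases k0 : G.Adj a a1
  · exact hG.p23 _ _ _ _ _ k0 ((P 3 2).2 rfl) (sy ((hb.2 2).2 rfl)) (SimpleGraph.ne_of_adj_of_not_adj G ((hb.2 0).2 rfl) (P.nad rfl : ¬ G.Adj (v 3) (v 0))).symm (ns (nf1 (hb.2 3))) (nf1 (ha.2 3)) (nf1 (ha.2 2)) nab (nf1 (ha1.2 3)) (nf1 (ha1.2 2)) na1b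
  · exact hG.p23 _ _ _ _ _ (sy ((hb.2 2).2 rfl)) ((ha.2 4).2 rfl) (sy ((ha1.2 4).2 rfl)) daa1 k0 (ns (nf1 (ha.2 2))) (P.nad rfl : ¬ G.Adj (v 2) (v 4)) (ns (nf1 (ha1.2 2))) (ns nab) (nf1 (hb.2 4)) (ns na1b)

theorem AP3 (hG : Cls G) (P : IsC5 G v) {a b c : V}
    (ha : a ∈ cA G v 0) (hb : b ∈ cA G v 0) (hc : c ∈ cA G v 0)
    (eab : G.Adj a b) (ebc : G.Adj b c) (nac : ¬ G.Adj a c) (dac : a ≠ c) : False := by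
  exact hG.p23 _ _ _ _ _ ((P 2 3).2 rfl) eab ebc dac nac (ns (nf1 (ha.2 2))) (ns (nf1 (hb.2 2))) (ns (nf1 (hc.2 2))) (ns (nf1 (ha.2 3))) (ns (nf1 (hb.2 3))) (ns (nf1 (hc.2 3)))

theorem A2a (hG : Cls G) (P : IsC5 G v) {a a1 b : V}
    (ha : a ∈ cA G v 0) (ha1 : a1 ∈ cA G v 0) (hb : b ∈ cA G v 2)
    (eaa1 : G.Adj a a1) (nab : ¬ G.Adj a b) : False := by
  by_cases k0 : G.Adj a1 b
  · exact hG.gem _ _ _ _ _ k0 ((ha1.2 1).2 rfl) (sy eaa1) ((ha1.2 4).2 rfl) ((hb.2 1).2 rfl) (sy ((ha.2 1).2 rfl)) ((ha.2 4).2 rfl) (ns nab) (nf1 (hb.2 4)) (P.nad rfl : ¬ G.Adj (v 1) (v 4))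
  · exact hG.p23 _ _ _ _ _ eaa1 ((P 2 3).2 rfl) (sy ((hb.2 3).2 rfl)) (Ne.symm hb.1) (ns (nf1 (hb.2 2))) (nf1 (ha.2 2)) (nf1 (ha.2 3)) nab (nf1 (ha1.2 2)) (nf1 (ha1.2 3)) k0

theorem A2b (hG : Cls G) (P : IsC5 G v) {a b b1 : V}
    (ha : a ∈ cA G v 0) (hb : b ∈ cA G v 2) (hb1 : b1 ∈ cA G v 2)
    (ebb1 : G.Adj b b1) (nab : ¬ G.Adj a b) : False := by
  by_cases k0 : G.Adj a b1
  · exact hG.gem _ _ _ _ _ (sy k0) ((hb1.2 1).2 rfl) (sy ebb1) ((hb1.2 3).2 rfl) ((ha.2 1).2 rfl) (sy ((hb.2 1).2 rfl)) ((hb.2 3).2 rfl) nab (nf1 (ha.2 3)) (P.nad rfl : ¬ G.Adj (v 1) (v 3))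
  · exact hG.p23 _ _ _ _ _ ebb1 ((P 0 4).2 rfl) (sy ((ha.2 4).2 rfl)) (Ne.symm ha.1) (ns (nf1 (ha.2 0))) (nf1 (hb.2 0)) (nf1 (hb.2 4)) (ns nab) (nf1 (hb1.2 0)) (nf1 (hb1.2 4)) (ns k0)

theorem A3a (hG : Cls G) (P : IsC5 G v) {a b c : V}
    (ha : a ∈ cA G v 0) (hb : b ∈ cA G v 1) (hc : c ∈ cA G v 2)
    (nab : ¬ G.Adj a b) (ebc : G.Adj b c) (nac : ¬ G.Adj a c) : False := by
  exact hG.p23 _ _ _ _ _ (sy ((ha.2 4).2 rfl)) (sy ((hb.2 2).2 rfl)) ebc (Ne.symm hc.1) (ns (nf1 (hc.2 2))) (P.nad rfl : ¬ G.Adj (v 4) (v 2)) (ns (nf1 (hb.2 4))) (ns (nf1 (hc.2 4))) (nf1 (ha.2 2)) nab nac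

theorem A3b (hG : Cls G) (P : IsC5 G v) {a b c : V}
    (ha : a ∈ cA G v 0) (hb : b ∈ cA G v 1) (hc : c ∈ cA G v 4)
    (nab : ¬ G.Adj a b) (eac : G.Adj a c) (nbc : ¬ G.Adj b c) : False := by
  exact hG.p23 _ _ _ _ _ (sy ((hb.2 2).2 rfl)) (sy ((ha.2 4).2 rfl)) eac (Ne.symm hc.1) (ns (nf1 (hc.2 4))) (P.nad rfl : ¬ G.Adj (v 2) (v 4)) (ns (nf1 (ha.2 2))) (ns (nf1 (hc.2 2))) (nf1 (hb.2 4)) (ns nab) nbc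

theorem A4t (hG : Cls G) (P : IsC5 G v) {a b c : V}
    (ha : a ∈ cA G v 0) (hb : b ∈ cA G v 1) (hc : c ∈ cA G v 3)
    (eab : G.Adj a b) (eac : G.Adj a c) (ebc : G.Adj b c) : False := by
  exact hG.gem _ _ _ _ _ ((hc.2 4).2 rfl) (sy eac) (sy ebc) ((hc.2 2).2 rfl) (sy ((ha.2 4).2 rfl)) eab ((hb.2 2).2 rfl) (ns (nf1 (hb.2 4))) (P.nad rfl : ¬ G.Adj (v 4) (v 2)) (nf1 (ha.2 2))

theorem A5a (hG : Cls G) (P : IsC5 G v) {a a1 b b1 c : V}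
    (ha : a ∈ cA G v 0) (ha1 : a1 ∈ cA G v 0) (hb : b ∈ cA G v 1) (hb1 : b1 ∈ cA G v 1) (hc : c ∈ cA G v 2)
    (nab : ¬ G.Adj a b) (na1b1 : ¬ G.Adj a1 b1) (eab1 : G.Adj a b1) (ea1b : G.Adj a1 b) (ebc : G.Adj b c) (eb1c : G.Adj b1 c) (daa1 : a ≠ a1) (dbb1 : b ≠ b1) : False := by
  by_cases k0 : G.Adj a c
  · by_cases k1 : G.Adj a1 c
    · by_cases k2 : G.Adj a a1
      · exact hG.gem _ _ _ _ _ ((ha.2 4).2 rfl) k2 k0 eab1 (sy ((ha1.2 4).2 rfl)) k1 (sy eb1c) (ns (nf1 (hc.2 4))) (ns (nf1 (hb1.2 4))) na1b1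
      · exact hG.gem _ _ _ _ _ (sy k1) ((hc.2 1).2 rfl) (sy k0) (sy eb1c) ((ha1.2 1).2 rfl) (sy ((ha.2 1).2 rfl)) eab1 (ns k2) na1b1 (ns (nf1 (hb1.2 1)))
    · exact hG.p23 _ _ _ _ _ (sy ((ha1.2 4).2 rfl)) (sy ((hb1.2 2).2 rfl)) eb1c (Ne.symm hc.1) (ns (nf1 (hc.2 2))) (P.nad rfl : ¬ G.Adj (v 4) (v 2)) (ns (nf1 (hb1.2 4))) (ns (nf1 (hc.2 4))) (nf1 (ha1.2 2)) na1b1 k1
  · exact hG.p23 _ _ _ _ _ (sy ((ha.2 4).2 rfl)) (sy ((hb.2 2).2 rfl)) ebc (Ne.symm hc.1) (ns (nf1 (hc.2 2))) (P.nad rfl : ¬ G.Adj (v 4) (v 2)) (ns (nf1 (hb.2 4))) (ns (nf1 (hc.2 4))) (nf1 (ha.2 2)) nab k0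

theorem A5b (hG : Cls G) (P : IsC5 G v) {a a1 b b1 c : V}
    (ha : a ∈ cA G v 0) (ha1 : a1 ∈ cA G v 0) (hb : b ∈ cA G v 1) (hb1 : b1 ∈ cA G v 1) (hc : c ∈ cA G v 4)
    (nab : ¬ G.Adj a b) (na1b1 : ¬ G.Adj a1 b1) (eab1 : G.Adj a b1) (ea1b : G.Adj a1 b) (eac : G.Adj a c) (ea1c : G.Adj a1 c) (daa1 : a ≠ a1) (dbb1 : b ≠ b1) : False := by
  by_cases k0 : G.Adj b c
  · by_cases k1 : G.Adj b1 c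
    · by_cases k2 : G.Adj b b1
      · exact hG.gem _ _ _ _ _ ((hb.2 2).2 rfl) k2 k0 (sy ea1b) (sy ((hb1.2 2).2 rfl)) k1 (sy ea1c) (ns (nf1 (hc.2 2))) (ns (nf1 (ha1.2 2))) (ns na1b1)
      · exact hG.gem _ _ _ _ _ (sy k1) ((hc.2 0).2 rfl) (sy k0) (sy ea1c) ((hb1.2 0).2 rfl) (sy ((hb.2 0).2 rfl)) (sy ea1b) (ns k2) (ns na1b1) (ns (nf1 (ha1.2 0)))
    · exact hG.p23 _ _ _ _ _ (sy ((hb1.2 2).2 rfl)) (sy ((ha1.2 4).2 rfl)) ea1c (Ne.symm hc.1) (ns (nf1 (hc.2 4))) (P.nad rfl : ¬ G.Adj (v 2) (v 4)) (ns (nf1 (ha1.2 2))) (ns (nf1 (hc.2 2))) (nf1 (hb1.2 4)) (ns na1b1) k1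
  · exact hG.p23 _ _ _ _ _ (sy ((hb.2 2).2 rfl)) (sy ((ha.2 4).2 rfl)) eac (Ne.symm hc.1) (ns (nf1 (hc.2 4))) (P.nad rfl : ¬ G.Adj (v 2) (v 4)) (ns (nf1 (ha.2 2))) (ns (nf1 (hc.2 2))) (nf1 (hb.2 4)) (ns nab) k0

theorem A7 (hG : Cls G) (P : IsC5 G v) {a a1 b b1 : V}
    (ha : a ∈ cA G v 0) (ha1 : a1 ∈ cA G v 0) (hb : b ∈ cA G v 1) (hb1 : b1 ∈ cA G v 1)
    (eaa1 : G.Adj a a1) (ebb1 : G.Adj b b1) (nab : ¬ G.Adj a b) (ea1b1 : G.Adj a1 b1) : False := by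
  by_cases k0 : G.Adj a b1
  · by_cases k1 : G.Adj a1 b
    · exact hG.gem _ _ _ _ _ ((ha1.2 1).2 rfl) (sy eaa1) ea1b1 k1 (sy ((ha.2 1).2 rfl)) k0 (sy ebb1) (ns (nf1 (hb1.2 1))) (ns (nf1 (hb.2 1))) nab
    · exact hG.p23 _ _ _ _ _ eaa1 ((P 3 2).2 rfl) (sy ((hb.2 2).2 rfl)) (SimpleGraph.ne_of_adj_of_not_adj G ((hb.2 0).2 rfl) (P.nad rfl : ¬ G.Adj (v 3) (v 0))).symm (ns (nf1 (hb.2 3))) (nf1 (ha.2 3)) (nf1 (ha.2 2)) nab (nf1 (ha1.2 3)) (nf1 (ha1.2 2)) k1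
  · exact hG.p23 _ _ _ _ _ ebb1 ((P 3 4).2 rfl) (sy ((ha.2 4).2 rfl)) (SimpleGraph.ne_of_adj_of_not_adj G ((ha.2 1).2 rfl) (P.nad rfl : ¬ G.Adj (v 3) (v 1))).symm (ns (nf1 (ha.2 3))) (nf1 (hb.2 3)) (nf1 (hb.2 4)) (ns nab) (nf1 (hb1.2 3)) (nf1 (hb1.2 4)) (ns k0)

theorem CC1 (hG : Cls G) (P : IsC5 G v) {c d : V}
    (hc : c ∈ cC G v 0) (hd : d ∈ cC G v 1)
    (ecd : G.Adj c d) : False := by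
  exact hG.gem _ _ _ _ _ ((P 3 2).2 rfl) (sy ((hc 3).2 rfl)) (sy ((hd 3).2 rfl)) ((P 3 4).2 rfl) (sy ((hc 2).2 rfl)) ecd ((hd 4).2 rfl) (ns (nf1 (hd 2))) (P.nad rfl : ¬ G.Adj (v 2) (v 4)) (nf1 (hc 4))

theorem CC2 (hG : Cls G) (P : IsC5 G v) {c d : V}
    (hc : c ∈ cC G v 0) (hd : d ∈ cC G v 2)
    (ecd : G.Adj c d) : False := by
  exact hG.gem _ _ _ _ _ ((hc 3).2 rfl) ((hc 2).2 rfl) ecd ((hc 0).2 rfl) ((P 3 2).2 rfl) (sy ((hd 2).2 rfl)) ((hd 0).2 rfl) (ns (nf1 (hd 3))) (P.nad rfl : ¬ G.Adj (v 3) (v 0)) (P.nad rfl : ¬ G.Adj (v 2) (v 0))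

theorem CC1two (hG : Cls G) (P : IsC5 G v) {c c1 d : V}
    (hc : c ∈ cC G v 0) (hc1 : c1 ∈ cC G v 0) (hd : d ∈ cC G v 1)
    (dcc1 : c ≠ c1) : False := by
  by_cases k0 : G.Adj c d
  · exact hG.gem _ _ _ _ _ ((P 3 2).2 rfl) (sy ((hc 3).2 rfl)) (sy ((hd 3).2 rfl)) ((P 3 4).2 rfl) (sy ((hc 2).2 rfl)) k0 ((hd 4).2 rfl) (ns (nf1 (hd 2))) (P.nad rfl : ¬ G.Adj (v 2) (v 4)) (nf1 (hc 4))
  · by_cases k1 : G.Adj c1 d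
    · exact hG.gem _ _ _ _ _ ((P 3 2).2 rfl) (sy ((hc1 3).2 rfl)) (sy ((hd 3).2 rfl)) ((P 3 4).2 rfl) (sy ((hc1 2).2 rfl)) k1 ((hd 4).2 rfl) (ns (nf1 (hd 2))) (P.nad rfl : ¬ G.Adj (v 2) (v 4)) (nf1 (hc1 4))
    · by_cases k2 : G.Adj c c1
      · exact hG.p23 _ _ _ _ _ k2 (sy ((hd 1).2 rfl)) ((hd 4).2 rfl) (SimpleGraph.ne_of_adj_of_not_adj G ((P 1 2).2 rfl) (P.nad rfl : ¬ G.Adj (v 4) (v 2))) (P.nad rfl : ¬ G.Adj (v 1) (v 4)) (nf1 (hc 1)) k0 (nf1 (hc 4)) (nf1 (hc1 1)) k1 (nf1 (hc1 4))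
      · exact hG.p23 _ _ _ _ _ (sy ((hd 4).2 rfl)) ((hc 2).2 rfl) (sy ((hc1 2).2 rfl)) dcc1 k2 (ns (nf1 (hc 4))) (P.nad rfl : ¬ G.Adj (v 4) (v 2)) (ns (nf1 (hc1 4))) (ns k0) (nf1 (hd 2)) (ns k1)

theorem CC4two (hG : Cls G) (P : IsC5 G v) {c c1 d : V}
    (hc : c ∈ cC G v 0) (hc1 : c1 ∈ cC G v 0) (hd : d ∈ cC G v 4)
    (dcc1 : c ≠ c1) : False := by
  by_cases k0 : G.Adj c d
  · exact hG.gem _ _ _ _ _ ((P 2 3).2 rfl) (sy ((hc 2).2 rfl)) (sy ((hd 2).2 rfl)) ((P 2 1).2 rfl) (sy ((hc 3).2 rfl)) k0 ((hd 1).2 rfl) (ns (nf1 (hd 3))) (P.nad rfl : ¬ G.Adj (v 3) (v 1)) (nf1 (hc 1))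
  · by_cases k1 : G.Adj c1 d
    · exact hG.gem _ _ _ _ _ ((P 2 3).2 rfl) (sy ((hc1 2).2 rfl)) (sy ((hd 2).2 rfl)) ((P 2 1).2 rfl) (sy ((hc1 3).2 rfl)) k1 ((hd 1).2 rfl) (ns (nf1 (hd 3))) (P.nad rfl : ¬ G.Adj (v 3) (v 1)) (nf1 (hc1 1))
    · by_cases k2 : G.Adj c c1
      · exact hG.p23 _ _ _ _ _ k2 (sy ((hd 1).2 rfl)) ((hd 4).2 rfl) (SimpleGraph.ne_of_adj_of_not_adj G ((P 1 2).2 rfl) (P.nad rfl : ¬ G.Adj (v 4) (v 2))) (P.nad rfl : ¬ G.Adj (v 1) (v 4)) (nf1 (hc 1)) k0 (nf1 (hc 4)) (nf1 (hc1 1)) k1 (nf1 (hc1 4))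
      · exact hG.p23 _ _ _ _ _ (sy ((hd 1).2 rfl)) ((hc 3).2 rfl) (sy ((hc1 3).2 rfl)) dcc1 k2 (ns (nf1 (hc 1))) (P.nad rfl : ¬ G.Adj (v 1) (v 3)) (ns (nf1 (hc1 1))) (ns k0) (nf1 (hd 3)) (ns k1)

theorem AC1 (hG : Cls G) (P : IsC5 G v) {a c : V}
    (ha : a ∈ cA G v 0) (hc : c ∈ cC G v 1)
    (eac : G.Adj a c) : False := by
  exact hG.gem _ _ _ _ _ ((hc 3).2 rfl) ((hc 4).2 rfl) (sy eac) ((hc 1).2 rfl) ((P 3 4).2 rfl) (sy ((ha.2 4).2 rfl)) ((ha.2 1).2 rfl) (ns (nf1 (ha.2 3))) (P.nad rfl : ¬ G.Adj (v 3) (v 1)) (P.nad rfl : ¬ G.Adj (v 4) (v 1))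

theorem AC4 (hG : Cls G) (P : IsC5 G v) {a c : V}
    (ha : a ∈ cA G v 0) (hc : c ∈ cC G v 4)
    (eac : G.Adj a c) : False := by
  exact hG.gem _ _ _ _ _ ((hc 2).2 rfl) ((hc 1).2 rfl) (sy eac) ((hc 4).2 rfl) ((P 2 1).2 rfl) (sy ((ha.2 1).2 rfl)) ((ha.2 4).2 rfl) (ns (nf1 (ha.2 2))) (P.nad rfl : ¬ G.Adj (v 2) (v 4)) (P.nad rfl : ¬ G.Adj (v 1) (v 4))

theorem AC0a (hG : Cls G) (P : IsC5 G v) {a c c1 : V}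
    (ha : a ∈ cA G v 0) (hc : c ∈ cC G v 0) (hc1 : c1 ∈ cC G v 0)
    (nac : ¬ G.Adj a c) (nac1 : ¬ G.Adj a c1) (dcc1 : c ≠ c1) : False := by
  by_cases k0 : G.Adj c c1
  · exact hG.p23 _ _ _ _ _ k0 (sy ((ha.2 1).2 rfl)) ((ha.2 4).2 rfl) (SimpleGraph.ne_of_adj_of_not_adj G ((P 1 2).2 rfl) (P.nad rfl : ¬ G.Adj (v 4) (v 2))) (P.nad rfl : ¬ G.Adj (v 1) (v 4)) (nf1 (hc 1)) (ns nac) (nf1 (hc 4)) (nf1 (hc1 1)) (ns nac1) (nf1 (hc1 4))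
  · exact hG.p23 _ _ _ _ _ (sy ((ha.2 4).2 rfl)) ((hc 2).2 rfl) (sy ((hc1 2).2 rfl)) dcc1 k0 (ns (nf1 (hc 4))) (P.nad rfl : ¬ G.Adj (v 4) (v 2)) (ns (nf1 (hc1 4))) nac (nf1 (ha.2 2)) nac1

theorem AC0b (hG : Cls G) (P : IsC5 G v) {a a1 c : V}
    (ha : a ∈ cA G v 0) (ha1 : a1 ∈ cA G v 0) (hc : c ∈ cC G v 0)
    (nac : ¬ G.Adj a c) (na1c : ¬ G.Adj a1 c) (daa1 : a ≠ a1) : False := by
  by_cases k0 : G.Adj a a1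
  · exact hG.p23 _ _ _ _ _ k0 (sy ((hc 0).2 rfl)) ((hc 2).2 rfl) (SimpleGraph.ne_of_adj_of_not_adj G ((P 2 3).2 rfl) (P.nad rfl : ¬ G.Adj (v 0) (v 3))).symm (P.nad rfl : ¬ G.Adj (v 0) (v 2)) (nf1 (ha.2 0)) nac (nf1 (ha.2 2)) (nf1 (ha1.2 0)) na1c (nf1 (ha1.2 2))
  · exact hG.p23 _ _ _ _ _ (sy ((hc 3).2 rfl)) ((ha.2 1).2 rfl) (sy ((ha1.2 1).2 rfl)) daa1 k0 (ns (nf1 (ha.2 3))) (P.nad rfl : ¬ G.Adj (v 3) (v 1)) (ns (nf1 (ha1.2 3))) (ns nac) (nf1 (hc 1)) (ns na1c)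

theorem C6a (hG : Cls G) (P : IsC5 G v) {a b c : V}
    (ha : a ∈ cA G v 0) (hb : b ∈ cA G v 1) (hc : c ∈ cC G v 0)
    (nac : ¬ G.Adj a c) : False := by
  by_cases k0 : G.Adj b c
  · exact hG.gem _ _ _ _ _ ((hc 3).2 rfl) ((hc 2).2 rfl) (sy k0) ((hc 0).2 rfl) ((P 3 2).2 rfl) (sy ((hb.2 2).2 rfl)) ((hb.2 0).2 rfl) (ns (nf1 (hb.2 3))) (P.nad rfl : ¬ G.Adj (v 3) (v 0)) (P.nad rfl : ¬ G.Adj (v 2) (v 0))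
  · by_cases k1 : G.Adj a b
    · exact hG.p23 _ _ _ _ _ (sy ((hc 3).2 rfl)) (sy ((ha.2 1).2 rfl)) k1 (Ne.symm hb.1) (ns (nf1 (hb.2 1))) (P.nad rfl : ¬ G.Adj (v 3) (v 1)) (ns (nf1 (ha.2 3))) (ns (nf1 (hb.2 3))) (nf1 (hc 1)) (ns nac) (ns k0)
    · exact hG.p23 _ _ _ _ _ (sy ((ha.2 4).2 rfl)) ((hb.2 2).2 rfl) (sy ((hc 2).2 rfl)) (SimpleGraph.ne_of_adj_of_not_adj G ((hc 3).2 rfl) (nf1 (hb.2 3))).symm k0 (ns (nf1 (hb.2 4))) (P.nad rfl : ¬ G.Adj (v 4) (v 2)) (ns (nf1 (hc 4))) k1 (nf1 (ha.2 2)) nac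

theorem C6b (hG : Cls G) (P : IsC5 G v) {a b c : V}
    (ha : a ∈ cA G v 0) (hb : b ∈ cA G v 4) (hc : c ∈ cC G v 0)
    (nac : ¬ G.Adj a c) : False := by
  by_cases k0 : G.Adj b c
  · exact hG.gem _ _ _ _ _ ((hc 2).2 rfl) ((hc 3).2 rfl) (sy k0) ((hc 0).2 rfl) ((P 2 3).2 rfl) (sy ((hb.2 3).2 rfl)) ((hb.2 0).2 rfl) (ns (nf1 (hb.2 2))) (P.nad rfl : ¬ G.Adj (v 2) (v 0)) (P.nad rfl : ¬ G.Adj (v 3) (v 0))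
  · by_cases k1 : G.Adj a b
    · exact hG.p23 _ _ _ _ _ (sy ((hc 2).2 rfl)) (sy ((ha.2 4).2 rfl)) k1 (Ne.symm hb.1) (ns (nf1 (hb.2 4))) (P.nad rfl : ¬ G.Adj (v 2) (v 4)) (ns (nf1 (ha.2 2))) (ns (nf1 (hb.2 2))) (nf1 (hc 4)) (ns nac) (ns k0)
    · exact hG.p23 _ _ _ _ _ (sy ((ha.2 1).2 rfl)) ((hb.2 3).2 rfl) (sy ((hc 3).2 rfl)) (SimpleGraph.ne_of_adj_of_not_adj G ((hc 2).2 rfl) (nf1 (hb.2 2))).symm k0 (ns (nf1 (hb.2 1))) (P.nad rfl : ¬ G.Adj (v 1) (v 3)) (ns (nf1 (hc 1))) k1 (nf1 (ha.2 3)) nac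

theorem C7a (hG : Cls G) (P : IsC5 G v) {a c c1 : V}
    (ha : a ∈ cA G v 0) (hc : c ∈ cC G v 2) (hc1 : c1 ∈ cC G v 2)
    (eac : G.Adj a c) (nac1 : ¬ G.Adj a c1) (dcc1 : c ≠ c1) : False := by
  by_cases k0 : G.Adj c c1
  · exact hG.gem _ _ _ _ _ (sy eac) ((hc 4).2 rfl) k0 ((hc 2).2 rfl) ((ha.2 4).2 rfl) (sy ((hc1 4).2 rfl)) ((hc1 2).2 rfl) nac1 (nf1 (ha.2 2)) (P.nad rfl : ¬ G.Adj (v 4) (v 2))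
  · exact hG.gem _ _ _ _ _ (sy ((hc1 4).2 rfl)) ((P 4 0).2 rfl) (sy ((hc 4).2 rfl)) (sy ((ha.2 4).2 rfl)) ((hc1 0).2 rfl) (sy ((hc 0).2 rfl)) (sy eac) (ns k0) (ns nac1) (ns (nf1 (ha.2 0)))

theorem C7b (hG : Cls G) (P : IsC5 G v) {a c c1 : V}
    (ha : a ∈ cA G v 0) (hc : c ∈ cC G v 3) (hc1 : c1 ∈ cC G v 3)
    (eac : G.Adj a c) (nac1 : ¬ G.Adj a c1) (dcc1 : c ≠ c1) : False := by
  by_cases k0 : G.Adj c c1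
  · exact hG.gem _ _ _ _ _ (sy eac) ((hc 1).2 rfl) k0 ((hc 3).2 rfl) ((ha.2 1).2 rfl) (sy ((hc1 1).2 rfl)) ((hc1 3).2 rfl) nac1 (nf1 (ha.2 3)) (P.nad rfl : ¬ G.Adj (v 1) (v 3))
  · exact hG.gem _ _ _ _ _ (sy ((hc1 1).2 rfl)) ((P 1 0).2 rfl) (sy ((hc 1).2 rfl)) (sy ((ha.2 1).2 rfl)) ((hc1 0).2 rfl) (sy ((hc 0).2 rfl)) (sy eac) (ns k0) (ns nac1) (ns (nf1 (ha.2 0)))

theorem C8a (hG : Cls G) (P : IsC5 G v) {a c z : V}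
    (ha : a ∈ cA G v 0) (hc : c ∈ cC G v 0) (hz : z ∈ cZ G v)
    (nac : ¬ G.Adj a c) (eaz : G.Adj a z) (ncz : ¬ G.Adj c z) : False := by
  exact hG.p23 _ _ _ _ _ (sy ((hc 3).2 rfl)) (sy ((ha.2 1).2 rfl)) eaz (SimpleGraph.ne_of_adj_of_not_adj G ((P 1 0).2 rfl) (hz 0)) (ns (hz 1)) (P.nad rfl : ¬ G.Adj (v 3) (v 1)) (ns (nf1 (ha.2 3))) (ns (hz 3)) (nf1 (hc 1)) (ns nac) ncz

theorem C8b (hG : Cls G) (P : IsC5 G v) {a c z : V}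
    (ha : a ∈ cA G v 0) (hc : c ∈ cC G v 0) (hz : z ∈ cZ G v)
    (nac : ¬ G.Adj a c) (ecz : G.Adj c z) (naz : ¬ G.Adj a z) : False := by
  exact hG.p23 _ _ _ _ _ ecz (sy ((ha.2 1).2 rfl)) ((ha.2 4).2 rfl) (SimpleGraph.ne_of_adj_of_not_adj G ((P 1 2).2 rfl) (P.nad rfl : ¬ G.Adj (v 4) (v 2))) (P.nad rfl : ¬ G.Adj (v 1) (v 4)) (nf1 (hc 1)) (ns nac) (nf1 (hc 4)) (hz 1) (ns naz) (hz 4)

theorem C9a (hG : Cls G) (P : IsC5 G v) {a b c c1 : V}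
    (ha : a ∈ cA G v 0) (hb : b ∈ cA G v 2) (hc : c ∈ cC G v 0) (hc1 : c1 ∈ cC G v 0)
    (nac : ¬ G.Adj a c) (eab : G.Adj a b) (dcc1 : c ≠ c1) : False := by
  by_cases k0 : G.Adj b c1
  · by_cases k1 : G.Adj a c1
    · exact hG.gem _ _ _ _ _ ((hb.2 1).2 rfl) (sy eab) k0 ((hb.2 3).2 rfl) (sy ((ha.2 1).2 rfl)) k1 ((hc1 3).2 rfl) (ns (nf1 (hc1 1))) (P.nad rfl : ¬ G.Adj (v 1) (v 3)) (nf1 (ha.2 3))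
    · by_cases k2 : G.Adj c c1
      · exact hG.p23 _ _ _ _ _ k2 (sy ((ha.2 1).2 rfl)) ((ha.2 4).2 rfl) (SimpleGraph.ne_of_adj_of_not_adj G ((P 1 2).2 rfl) (P.nad rfl : ¬ G.Adj (v 4) (v 2))) (P.nad rfl : ¬ G.Adj (v 1) (v 4)) (nf1 (hc 1)) (ns nac) (nf1 (hc 4)) (nf1 (hc1 1)) (ns k1) (nf1 (hc1 4))
      · exact hG.p23 _ _ _ _ _ (sy ((ha.2 4).2 rfl)) ((hc 2).2 rfl) (sy ((hc1 2).2 rfl)) dcc1 k2 (ns (nf1 (hc 4))) (P.nad rfl : ¬ G.Adj (v 4) (v 2)) (ns (nf1 (hc1 4))) nac (nf1 (ha.2 2)) k1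
  · by_cases k1 : G.Adj b c
    · by_cases k2 : G.Adj c c1
      · exact hG.gem _ _ _ _ _ (sy k1) ((hc 3).2 rfl) k2 ((hc 0).2 rfl) ((hb.2 3).2 rfl) (sy ((hc1 3).2 rfl)) ((hc1 0).2 rfl) k0 (nf1 (hb.2 0)) (P.nad rfl : ¬ G.Adj (v 3) (v 0))
      · exact hG.gem _ _ _ _ _ (sy ((hc1 3).2 rfl)) ((P 3 2).2 rfl) (sy ((hc 3).2 rfl)) (sy ((hb.2 3).2 rfl)) ((hc1 2).2 rfl) (sy ((hc 2).2 rfl)) (sy k1) (ns k2) (ns k0) (ns (nf1 (hb.2 2)))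
    · exact hG.p23 _ _ _ _ _ (sy ((hc 2).2 rfl)) (sy ((ha.2 4).2 rfl)) eab (SimpleGraph.ne_of_adj_of_not_adj G ((P 4 0).2 rfl) (nf1 (hb.2 0))) (ns (nf1 (hb.2 4))) (P.nad rfl : ¬ G.Adj (v 2) (v 4)) (ns (nf1 (ha.2 2))) (ns (nf1 (hb.2 2))) (nf1 (hc 4)) (ns nac) (ns k1)

theorem C9b (hG : Cls G) (P : IsC5 G v) {a b c c1 : V}
    (ha : a ∈ cA G v 0) (hb : b ∈ cA G v 3) (hc : c ∈ cC G v 0) (hc1 : c1 ∈ cC G v 0)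
    (nac : ¬ G.Adj a c) (eab : G.Adj a b) (dcc1 : c ≠ c1) : False := by
  by_cases k0 : G.Adj b c1
  · by_cases k1 : G.Adj a c1
    · exact hG.gem _ _ _ _ _ ((hb.2 4).2 rfl) (sy eab) k0 ((hb.2 2).2 rfl) (sy ((ha.2 4).2 rfl)) k1 ((hc1 2).2 rfl) (ns (nf1 (hc1 4))) (P.nad rfl : ¬ G.Adj (v 4) (v 2)) (nf1 (ha.2 2))
    · by_cases k2 : G.Adj c c1
      · exact hG.p23 _ _ _ _ _ k2 (sy ((ha.2 1).2 rfl)) ((ha.2 4).2 rfl) (SimpleGraph.ne_of_adj_of_not_adj G ((P 1 2).2 rfl) (P.nad rfl : ¬ G.Adj (v 4) (v 2))) (P.nad rfl : ¬ G.Adj (v 1) (v 4)) (nf1 (hc 1)) (ns nac) (nf1 (hc 4)) (nf1 (hc1 1)) (ns k1) (nf1 (hc1 4))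
      · exact hG.p23 _ _ _ _ _ (sy ((ha.2 4).2 rfl)) ((hc 2).2 rfl) (sy ((hc1 2).2 rfl)) dcc1 k2 (ns (nf1 (hc 4))) (P.nad rfl : ¬ G.Adj (v 4) (v 2)) (ns (nf1 (hc1 4))) nac (nf1 (ha.2 2)) k1
  · by_cases k1 : G.Adj b c
    · by_cases k2 : G.Adj c c1
      · exact hG.gem _ _ _ _ _ (sy k1) ((hc 2).2 rfl) k2 ((hc 0).2 rfl) ((hb.2 2).2 rfl) (sy ((hc1 2).2 rfl)) ((hc1 0).2 rfl) k0 (nf1 (hb.2 0)) (P.nad rfl : ¬ G.Adj (v 2) (v 0))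
      · exact hG.gem _ _ _ _ _ (sy ((hc1 2).2 rfl)) ((P 2 3).2 rfl) (sy ((hc 2).2 rfl)) (sy ((hb.2 2).2 rfl)) ((hc1 3).2 rfl) (sy ((hc 3).2 rfl)) (sy k1) (ns k2) (ns k0) (ns (nf1 (hb.2 3)))
    · exact hG.p23 _ _ _ _ _ (sy ((hc 3).2 rfl)) (sy ((ha.2 1).2 rfl)) eab (SimpleGraph.ne_of_adj_of_not_adj G ((P 1 0).2 rfl) (nf1 (hb.2 0))) (ns (nf1 (hb.2 1))) (P.nad rfl : ¬ G.Adj (v 3) (v 1)) (ns (nf1 (ha.2 3))) (ns (nf1 (hb.2 3))) (nf1 (hc 1)) (ns nac) (ns k1)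

theorem C9c (hG : Cls G) (P : IsC5 G v) {a b c c1 : V}
    (ha : a ∈ cA G v 0) (hb : b ∈ cA G v 2) (hc : c ∈ cC G v 0) (hc1 : c1 ∈ cC G v 0)
    (nac : ¬ G.Adj a c) (ebc : G.Adj b c) (dcc1 : c ≠ c1) : False := by
  by_cases k0 : G.Adj a c1
  · by_cases k1 : G.Adj b c1
    · by_cases k2 : G.Adj a b
      · exact hG.gem _ _ _ _ _ ((hb.2 1).2 rfl) (sy k2) k1 ((hb.2 3).2 rfl) (sy ((ha.2 1).2 rfl)) k0 ((hc1 3).2 rfl) (ns (nf1 (hc1 1))) (P.nad rfl : ¬ G.Adj (v 1) (v 3)) (nf1 (ha.2 3))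
      · exact hG.p23 _ _ _ _ _ (sy ((ha.2 4).2 rfl)) (sy ((hc 2).2 rfl)) (sy ebc) (Ne.symm hb.1) (ns (nf1 (hb.2 2))) (P.nad rfl : ¬ G.Adj (v 4) (v 2)) (ns (nf1 (hc 4))) (ns (nf1 (hb.2 4))) (nf1 (ha.2 2)) nac k2
    · by_cases k2 : G.Adj c c1
      · exact hG.gem _ _ _ _ _ (sy ebc) ((hc 3).2 rfl) k2 ((hc 0).2 rfl) ((hb.2 3).2 rfl) (sy ((hc1 3).2 rfl)) ((hc1 0).2 rfl) k1 (nf1 (hb.2 0)) (P.nad rfl : ¬ G.Adj (v 3) (v 0))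
      · exact hG.gem _ _ _ _ _ (sy ((hc1 3).2 rfl)) ((P 3 2).2 rfl) (sy ((hc 3).2 rfl)) (sy ((hb.2 3).2 rfl)) ((hc1 2).2 rfl) (sy ((hc 2).2 rfl)) (sy ebc) (ns k2) (ns k1) (ns (nf1 (hb.2 2)))
  · by_cases k1 : G.Adj c c1
    · exact hG.p23 _ _ _ _ _ k1 (sy ((ha.2 1).2 rfl)) ((ha.2 4).2 rfl) (SimpleGraph.ne_of_adj_of_not_adj G ((P 1 2).2 rfl) (P.nad rfl : ¬ G.Adj (v 4) (v 2))) (P.nad rfl : ¬ G.Adj (v 1) (v 4)) (nf1 (hc 1)) (ns nac) (nf1 (hc 4)) (nf1 (hc1 1)) (ns k0) (nf1 (hc1 4))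
    · exact hG.p23 _ _ _ _ _ (sy ((ha.2 4).2 rfl)) ((hc 2).2 rfl) (sy ((hc1 2).2 rfl)) dcc1 k1 (ns (nf1 (hc 4))) (P.nad rfl : ¬ G.Adj (v 4) (v 2)) (ns (nf1 (hc1 4))) nac (nf1 (ha.2 2)) k0

theorem C9d (hG : Cls G) (P : IsC5 G v) {a b c c1 : V}
    (ha : a ∈ cA G v 0) (hb : b ∈ cA G v 3) (hc : c ∈ cC G v 0) (hc1 : c1 ∈ cC G v 0)
    (nac : ¬ G.Adj a c) (ebc : G.Adj b c) (dcc1 : c ≠ c1) : False := by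
  by_cases k0 : G.Adj a c1
  · by_cases k1 : G.Adj b c1
    · by_cases k2 : G.Adj a b
      · exact hG.gem _ _ _ _ _ ((hb.2 4).2 rfl) (sy k2) k1 ((hb.2 2).2 rfl) (sy ((ha.2 4).2 rfl)) k0 ((hc1 2).2 rfl) (ns (nf1 (hc1 4))) (P.nad rfl : ¬ G.Adj (v 4) (v 2)) (nf1 (ha.2 2))
      · exact hG.p23 _ _ _ _ _ (sy ((ha.2 1).2 rfl)) (sy ((hc 3).2 rfl)) (sy ebc) (Ne.symm hb.1) (ns (nf1 (hb.2 3))) (P.nad rfl : ¬ G.Adj (v 1) (v 3)) (ns (nf1 (hc 1))) (ns (nf1 (hb.2 1))) (nf1 (ha.2 3)) nac k2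
    · by_cases k2 : G.Adj c c1
      · exact hG.gem _ _ _ _ _ (sy ebc) ((hc 2).2 rfl) k2 ((hc 0).2 rfl) ((hb.2 2).2 rfl) (sy ((hc1 2).2 rfl)) ((hc1 0).2 rfl) k1 (nf1 (hb.2 0)) (P.nad rfl : ¬ G.Adj (v 2) (v 0))
      · exact hG.gem _ _ _ _ _ (sy ((hc1 2).2 rfl)) ((P 2 3).2 rfl) (sy ((hc 2).2 rfl)) (sy ((hb.2 2).2 rfl)) ((hc1 3).2 rfl) (sy ((hc 3).2 rfl)) (sy ebc) (ns k2) (ns k1) (ns (nf1 (hb.2 3)))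
  · by_cases k1 : G.Adj c c1
    · exact hG.p23 _ _ _ _ _ k1 (sy ((ha.2 1).2 rfl)) ((ha.2 4).2 rfl) (SimpleGraph.ne_of_adj_of_not_adj G ((P 1 2).2 rfl) (P.nad rfl : ¬ G.Adj (v 4) (v 2))) (P.nad rfl : ¬ G.Adj (v 1) (v 4)) (nf1 (hc 1)) (ns nac) (nf1 (hc 4)) (nf1 (hc1 1)) (ns k0) (nf1 (hc1 4))
    · exact hG.p23 _ _ _ _ _ (sy ((ha.2 4).2 rfl)) ((hc 2).2 rfl) (sy ((hc1 2).2 rfl)) dcc1 k1 (ns (nf1 (hc 4))) (P.nad rfl : ¬ G.Adj (v 4) (v 2)) (ns (nf1 (hc1 4))) nac (nf1 (ha.2 2)) k0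

theorem C10 (hG : Cls G) (P : IsC5 G v) {a b c c1 : V}
    (ha : a ∈ cA G v 0) (hb : b ∈ cA G v 0) (hc : c ∈ cC G v 0) (hc1 : c1 ∈ cC G v 0)
    (eab : G.Adj a b) (nac : ¬ G.Adj a c) (ebc : G.Adj b c) (ecc1 : G.Adj c c1) (ebc1 : G.Adj b c1) : False := by
  by_cases k0 : G.Adj a c1
  · exact hG.gem _ _ _ _ _ ((hb.2 1).2 rfl) (sy eab) ebc1 ebc (sy ((ha.2 1).2 rfl)) k0 (sy ecc1) (ns (nf1 (hc1 1))) (ns (nf1 (hc 1))) nac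
  · exact hG.p23 _ _ _ _ _ ecc1 (sy ((ha.2 1).2 rfl)) ((ha.2 4).2 rfl) (SimpleGraph.ne_of_adj_of_not_adj G ((P 1 2).2 rfl) (P.nad rfl : ¬ G.Adj (v 4) (v 2))) (P.nad rfl : ¬ G.Adj (v 1) (v 4)) (nf1 (hc 1)) (ns nac) (nf1 (hc 4)) (nf1 (hc1 1)) (ns k0) (nf1 (hc1 4))

theorem C11 (hG : Cls G) (P : IsC5 G v) {a b c z : V}
    (ha : a ∈ cA G v 0) (hb : b ∈ cA G v 0) (hc : c ∈ cC G v 0) (hz : z ∈ cZ G v)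
    (eab : G.Adj a b) (nac : ¬ G.Adj a c) (ecz : G.Adj c z) : False := by
  by_cases k0 : G.Adj a z
  · by_cases k1 : G.Adj b c
    · by_cases k2 : G.Adj b z
      · exact hG.gem _ _ _ _ _ ((hb.2 1).2 rfl) (sy eab) k2 k1 (sy ((ha.2 1).2 rfl)) k0 (sy ecz) (ns (hz 1)) (ns (nf1 (hc 1))) nac
      · exact hG.p23 _ _ _ _ _ ((P 2 3).2 rfl) (sy eab) k0 (SimpleGraph.ne_of_adj_of_not_adj G ((hb.2 1).2 rfl) (hz 1)) k2 (ns (nf1 (hb.2 2))) (ns (nf1 (ha.2 2))) (ns (hz 2)) (ns (nf1 (hb.2 3))) (ns (nf1 (ha.2 3))) (ns (hz 3))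
    · exact hG.p23 _ _ _ _ _ eab (sy ((hc 0).2 rfl)) ((hc 2).2 rfl) (SimpleGraph.ne_of_adj_of_not_adj G ((P 2 3).2 rfl) (P.nad rfl : ¬ G.Adj (v 0) (v 3))).symm (P.nad rfl : ¬ G.Adj (v 0) (v 2)) (nf1 (ha.2 0)) nac (nf1 (ha.2 2)) (nf1 (hb.2 0)) k1 (nf1 (hb.2 2))
  · exact hG.p23 _ _ _ _ _ ecz (sy ((ha.2 1).2 rfl)) ((ha.2 4).2 rfl) (SimpleGraph.ne_of_adj_of_not_adj G ((P 1 2).2 rfl) (P.nad rfl : ¬ G.Adj (v 4) (v 2))) (P.nad rfl : ¬ G.Adj (v 1) (v 4)) (nf1 (hc 1)) (ns nac) (nf1 (hc 4)) (hz 1) (ns k0) (hz 4)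

theorem C12a (hG : Cls G) (P : IsC5 G v) {a b c : V}
    (ha : a ∈ cA G v 0) (hb : b ∈ cA G v 0) (hc : c ∈ cC G v 2)
    (eab : G.Adj a b) (nac : ¬ G.Adj a c) : False := by
  by_cases k0 : G.Adj b c
  · exact hG.gem _ _ _ _ _ (sy ((ha.2 4).2 rfl)) (sy ((hb.2 4).2 rfl)) (sy ((hc 4).2 rfl)) ((P 4 0).2 rfl) eab k0 ((hc 0).2 rfl) nac (nf1 (ha.2 0)) (nf1 (hb.2 0))
  · exact hG.p23 _ _ _ _ _ eab ((P 3 2).2 rfl) (sy ((hc 2).2 rfl)) (SimpleGraph.ne_of_adj_of_not_adj G ((hc 0).2 rfl) (P.nad rfl : ¬ G.Adj (v 3) (v 0))).symm (ns (nf1 (hc 3))) (nf1 (ha.2 3)) (nf1 (ha.2 2)) nac (nf1 (hb.2 3)) (nf1 (hb.2 2)) k0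

theorem C12b (hG : Cls G) (P : IsC5 G v) {a b c : V}
    (ha : a ∈ cA G v 0) (hb : b ∈ cA G v 0) (hc : c ∈ cC G v 3)
    (eab : G.Adj a b) (nac : ¬ G.Adj a c) : False := by
  by_cases k0 : G.Adj b c
  · exact hG.gem _ _ _ _ _ (sy ((ha.2 1).2 rfl)) (sy ((hb.2 1).2 rfl)) (sy ((hc 1).2 rfl)) ((P 1 0).2 rfl) eab k0 ((hc 0).2 rfl) nac (nf1 (ha.2 0)) (nf1 (hb.2 0))
  · exact hG.p23 _ _ _ _ _ eab ((P 2 3).2 rfl) (sy ((hc 3).2 rfl)) (SimpleGraph.ne_of_adj_of_not_adj G ((hc 0).2 rfl) (P.nad rfl : ¬ G.Adj (v 2) (v 0))).symm (ns (nf1 (hc 2))) (nf1 (ha.2 2)) (nf1 (ha.2 3)) nac (nf1 (hb.2 2)) (nf1 (hb.2 3)) k0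

theorem C13a (hG : Cls G) (P : IsC5 G v) {a c d : V}
    (ha : a ∈ cA G v 0) (hc : c ∈ cC G v 0) (hd : d ∈ cC G v 2)
    (nac : ¬ G.Adj a c) (ead : G.Adj a d) : False := by
  by_cases k0 : G.Adj c d
  · exact hG.gem _ _ _ _ _ ((hc 3).2 rfl) ((hc 2).2 rfl) k0 ((hc 0).2 rfl) ((P 3 2).2 rfl) (sy ((hd 2).2 rfl)) ((hd 0).2 rfl) (ns (nf1 (hd 3))) (P.nad rfl : ¬ G.Adj (v 3) (v 0)) (P.nad rfl : ¬ G.Adj (v 2) (v 0))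
  · exact hG.p23 _ _ _ _ _ (sy ((hc 3).2 rfl)) (sy ((ha.2 1).2 rfl)) ead (SimpleGraph.ne_of_adj_of_not_adj G ((hd 4).2 rfl) (P.nad rfl : ¬ G.Adj (v 1) (v 4))).symm (ns (nf1 (hd 1))) (P.nad rfl : ¬ G.Adj (v 3) (v 1)) (ns (nf1 (ha.2 3))) (ns (nf1 (hd 3))) (nf1 (hc 1)) (ns nac) k0

theorem C13b (hG : Cls G) (P : IsC5 G v) {a c d : V}
    (ha : a ∈ cA G v 0) (hc : c ∈ cC G v 0) (hd : d ∈ cC G v 3)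
    (nac : ¬ G.Adj a c) (ead : G.Adj a d) : False := by
  by_cases k0 : G.Adj c d
  · exact hG.gem _ _ _ _ _ ((hc 2).2 rfl) ((hc 3).2 rfl) k0 ((hc 0).2 rfl) ((P 2 3).2 rfl) (sy ((hd 3).2 rfl)) ((hd 0).2 rfl) (ns (nf1 (hd 2))) (P.nad rfl : ¬ G.Adj (v 2) (v 0)) (P.nad rfl : ¬ G.Adj (v 3) (v 0))
  · exact hG.p23 _ _ _ _ _ (sy ((hc 2).2 rfl)) (sy ((ha.2 4).2 rfl)) ead (SimpleGraph.ne_of_adj_of_not_adj G ((hd 1).2 rfl) (P.nad rfl : ¬ G.Adj (v 4) (v 1))).symm (ns (nf1 (hd 4))) (P.nad rfl : ¬ G.Adj (v 2) (v 4)) (ns (nf1 (ha.2 2))) (ns (nf1 (hd 2))) (nf1 (hc 4)) (ns nac) k0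

end C5case
end Pool.Agent.GemWidth
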