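import Pool.Agent.GemWidth.Cls

set_option autoImplicit false

namespace Pool.Agent.GemWidth

open Set

variable {V : Type}

/-- the hypotheses of the EO lemma -/
structure EOH (G : SimpleGraph V) (E O Z : Set V) (qE qO : V) : Prop where
  cls : Cls G
  dEO : Disjoint E O
  dEZ : Disjoint E Z
  dOZ : Disjoint O Z
  iZ : Indep G Z
  comp : ∀ e ∈ E, ∀ o ∈ O, G.Adj e o
  qEE : ∀ e ∈ E, G.Adj qE e
  qOO : ∀ o ∈ O, G.Adj qO o
  qEn : ∀ x ∈ O ∪ Z, ¬ G.Adj qE x
  qOn : ∀ x ∈ E ∪ Z, ¬ G.Adj qO x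

section EO

variable {G : SimpleGraph V} {E O Z : Set V} {qE qO : V}

theorem EOH.symm (h : EOH G E O Z qE qO) : EOH G O E Z qO qE :=
  ⟨h.cls, h.dEO.symm, h.dOZ, h.dEZ, h.iZ, fun e he o ho => (h.comp o ho e he).symm, h.qOO, h.qEE,
    h.qOn, h.qEn⟩

/-- vertices of `Z` touching both sides -/
def Zb (G : SimpleGraph V) (E O Z : Set V) : Set V :=
  {z | z ∈ Z ∧ (∃ e ∈ E, G.Adj z e) ∧ ∃ o ∈ O, G.Adj z o}

theorem Zb_symm : Zb G E O Z = Zb G O E Z := by
  ext z; simp only [Zb, mem_ofPred_eq]; tauto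

/-- same neighbourhood -/
def Twn (G : SimpleGraph V) (E O : Set V) (z z' : V) : Prop :=
  ∀ x, x ∈ E ∨ x ∈ O → (G.Adj z x ↔ G.Adj z' x)

/-- common neighbour in `E` -/
def Shr (G : SimpleGraph V) (E : Set V) (z z' : V) : Prop := ∃ e ∈ E, G.Adj z e ∧ G.Adj z' e

theorem Shr.symm {z z' : V} (h : Shr G E z z') : Shr G E z' z := by
  obtain ⟨e, he, h1, h2⟩ := h
  exact ⟨e, he, h2, h1⟩

theorem Twn.symm {z z' : V} (h : Twn G E O z z') : Twn G E O z' z := fun x hx => (h x hx).symm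

theorem Twn.trans {z z' z'' : V} (h : Twn G E O z z') (h' : Twn G E O z' z'') :
    Twn G E O z z'' := fun x hx => (h x hx).trans (h' x hx)

theorem Twn.swap {z z' : V} (h : Twn G E O z z') : Twn G O E z z' := fun x hx => h x hx.symm

theorem Twn.shrE {z z' w : V} (h : Twn G E O z z') (hs : Shr G E z w) : Shr G E z' w := by
  obtain ⟨e, he, h1, h2⟩ := hs
  exact ⟨e, he, (h e (Or.inl he)).1 h1, h2⟩

theorem Twn.shrO {z z' w : V} (h : Twn G E O z z') (hs : Shr G O z w) : Shr G O z' w :=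
  h.swap.shrE hs

/-- (H1) -/
theorem EOH.closed (h : EOH G E O Z qE qO) {z e0 e1 o : V} (hz : z ∈ Z) (he0 : e0 ∈ E)
    (he1 : e1 ∈ E) (ho : o ∈ O) (z0 : G.Adj z e0) (e01 : G.Adj e0 e1) (zo : G.Adj z o) :
    G.Adj z e1 := by
  by_contra hn
  exact h.cls.gem e0 qE e1 o z (h.qEE e0 he0).symm e01 (h.comp e0 he0 o ho) z0.symm
    (h.qEE e1 he1) (h.comp e1 he1 o ho) zo.symm (h.qEn o (Or.inl ho)) (h.qEn z (Or.inr hz))
    (nadj_symm hn)

/-- half of (H2) -/
theorem EOH.sub (h : EOH G E O Z qE qO) {z z' e o e' : V} (hz : z ∈ Z) (hz' : z' ∈ Z)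
    (he : e ∈ E) (ho : o ∈ O) (ze : G.Adj z e) (ze' : G.Adj z' e) (zo : G.Adj z o)
    (zo' : G.Adj z' o) (he' : e' ∈ E) (h1 : G.Adj z' e') : G.Adj z e' := by
  by_contra hn
  refine h.cls.gem o e' z' e z (h.comp e' he' o ho).symm zo'.symm (h.comp e he o ho).symm zo.symm
    h1.symm ze' ze.symm ?_ (nadj_symm hn) (h.iZ z' hz' z hz)
  intro h2
  exact hn (h.closed hz he he' ho ze h2.symm zo)

/-- (H2) -/
theorem EOH.twin (h : EOH G E O Z qE qO) {z z' : V} (hz : z ∈ Z) (hz' : z' ∈ Z)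
    (h1 : Shr G E z z') (h2 : Shr G O z z') : Twn G E O z z' := by
  obtain ⟨e, he, ze, ze'⟩ := h1
  obtain ⟨o, ho, zo, zo'⟩ := h2
  rintro x (hx | hx)
  · exact ⟨fun hh => h.sub hz' hz he ho ze' ze zo' zo hx hh,
      fun hh => h.sub hz hz' he ho ze ze' zo zo' hx hh⟩
  · exact ⟨fun hh => h.symm.sub hz' hz ho he zo' zo ze' ze hx hh,
      fun hh => h.symm.sub hz hz' ho he zo zo' ze ze' hx hh⟩

/-- sharing in `E` -/
theorem EOH.third (h : EOH G E O Z qE qO) {z1 z2 z3 : V} (h1 : z1 ∈ Zb G E O Z)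
    (h2 : z2 ∈ Zb G E O Z) (h3 : z3 ∈ Zb G E O Z) (hne : z1 ≠ z2) (hs : Shr G E z1 z2) :
    Shr G E z3 z1 ∨ Shr G E z3 z2 := by
  by_contra hn
  push Not at hn
  obtain ⟨n1, n2⟩ := hn
  obtain ⟨e, he, a1, a2⟩ := hs
  obtain ⟨e3, he3, a3⟩ := h3.2.1
  obtain ⟨o1, ho1, b1⟩ := h1.2.2
  have c1 : ¬ G.Adj e3 z1 := fun hh => n1 ⟨e3, he3, a3, hh.symm⟩
  have c2 : ¬ G.Adj e3 z2 := fun hh => n2 ⟨e3, he3, a3, hh.symm⟩
  have c3 : ¬ G.Adj e3 e := fun hh => c1 (h.closed h1.1 he he3 ho1 a1 hh.symm b1).symm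
  have c4 : ¬ G.Adj z3 e := fun hh => n1 ⟨e, he, hh, a1⟩
  exact h.cls.p23 e3 z3 z1 e z2 a3.symm a1 a2.symm hne (h.iZ z1 h1.1 z2 h2.1) c1 c3 c2
    (h.iZ z3 h3.1 z1 h1.1) c4 (h.iZ z3 h3.1 z2 h2.1)

theorem twn_of_eq {z z' : V} (h : z = z') : Twn G E O z z' := by
  subst h; exact fun x _ => Iff.rfl

/-- not both kinds of non-twin sharing pairs exist -/
theorem EOH.dich (h : EOH G E O Z qE qO) :
    (∀ z ∈ Zb G E O Z, ∀ z' ∈ Zb G E O Z, Shr G E z z' → Twn G E O z z') ∨
    (∀ z ∈ Zb G E O Z, ∀ z' ∈ Zb G E O Z, Shr G O z z' → Twn G E O z z') := by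
  by_contra hn
  push Not at hn
  obtain ⟨⟨z1, h1, z2, h2, s12, t12⟩, ⟨z3, h3, z4, h4, s34, t34⟩⟩ := hn
  have tw : ∀ z ∈ Zb G E O Z, ∀ z' ∈ Zb G E O Z, Shr G E z z' → Shr G O z z' → Twn G E O z z' :=
    fun z hz z' hz' a b => h.twin hz.1 hz'.1 a b
  have thE : ∀ z1 ∈ Zb G E O Z, ∀ z2 ∈ Zb G E O Z, ∀ z3 ∈ Zb G E O Z, ¬ Twn G E O z1 z2 →
      Shr G E z1 z2 → Shr G E z3 z1 ∨ Shr G E z3 z2 := fun z1 h1 z2 h2 z3 h3 hne hs =>
    h.third h1 h2 h3 (fun e => hne (twn_of_eq e)) hs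
  have thO : ∀ z1 ∈ Zb G E O Z, ∀ z2 ∈ Zb G E O Z, ∀ z3 ∈ Zb G E O Z, ¬ Twn G E O z1 z2 →
      Shr G O z1 z2 → Shr G O z3 z1 ∨ Shr G O z3 z2 := by
    intro z1 h1 z2 h2 z3 h3 hne hs
    rw [Zb_symm] at h1 h2 h3
    exact h.symm.third h1 h2 h3 (fun e => hne (twn_of_eq e)) hs
  have no12 : ¬ Shr G O z1 z2 := fun hh => t12 (tw z1 h1 z2 h2 s12 hh)
  have ne34 : ¬ Shr G E z3 z4 := fun hh => t34 (tw z3 h3 z4 h4 hh s34)
  -- no twins between the two pairs: a general statement
  have main : ∀ z1 ∈ Zb G E O Z, ∀ z2 ∈ Zb G E O Z, ∀ z3 ∈ Zb G E O Z, ∀ z4 ∈ Zb G E O Z,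
      Shr G E z1 z2 → ¬ Shr G O z1 z2 → ¬ Twn G E O z1 z2 → Shr G O z3 z4 → ¬ Shr G E z3 z4 →
      ¬ Twn G E O z3 z4 → Shr G E z3 z1 → False := by
    intro z1 h1 z2 h2 z3 h3 z4 h4 s12 no12 t12 s34 ne34 t34 e31
    have t13 : ¬ Twn G E O z1 z3 := by
      intro t13
      have o24 : Shr G O z2 z4 := by
        rcases thO z3 h3 z4 h4 z2 h2 t34 s34 with a | a
        · exact absurd (t13.symm.shrO a.symm) no12
        · exact a
      have e42 : Shr G E z4 z2 := by
        rcases thE z1 h1 z2 h2 z4 h4 t12 s12 with a | a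
        · exact absurd (t13.shrE a.symm) ne34
        · exact a
      have t42 : Twn G E O z4 z2 := tw z4 h4 z2 h2 e42 o24.symm
      have : Shr G O z1 z2 := t13.symm.shrO (Shr.symm (t42.shrO s34.symm))
      exact no12 this
    have o14 : Shr G O z1 z4 := by
      rcases thO z3 h3 z4 h4 z1 h1 t34 s34 with a | a
      · exact absurd (tw z1 h1 z3 h3 e31.symm a) t13
      · exact a
    have t14 : ¬ Twn G E O z1 z4 := by
      intro t14
      exact ne34 ((t14.shrE e31.symm).symm)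
    rcases thE z1 h1 z3 h3 z4 h4 t13 e31.symm with a | a
    · exact t14 (tw z1 h1 z4 h4 a.symm o14)
    · exact ne34 a.symm
  rcases thE z1 h1 z2 h2 z3 h3 t12 s12 with a | a
  · exact main z1 h1 z2 h2 z3 h3 z4 h4 s12 no12 t12 s34 ne34 t34 a
  · exact main z2 h2 z1 h1 z3 h3 z4 h4 s12.symm (fun hh => no12 hh.symm)
      (fun hh => t12 hh.symm) s34 ne34 t34 a

/-- a vertex set covered by the neighbourhood of a vertex and an independent set -/
theorem hub_bound {k : ℕ} (hX : ∀ (q : V) (R : Set V),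
    (∀ a ∈ R, ∀ b ∈ R, a ≠ q → b ≠ q → ¬ G.Adj q a → ¬ G.Adj q b → ¬ G.Adj a b) → W G R k)
    {q : V} {R U I : Set V} (hR : R ⊆ U ∪ I) (hU : ∀ u ∈ U, G.Adj q u) (hI : Indep G I) :
    W G R k :=
  hX q R fun a ha b hb _ _ na nb =>
    hI a ((hR ha).resolve_left fun h => na (hU a h)) b ((hR hb).resolve_left fun h => nb (hU b h))

/-- the one-sided case -/
theorem EOH.oneside [Finite V] {k : ℕ} (h : EOH G E O Z qE qO) (hX : ∀ (q : V) (R : Set V),
    (∀ a ∈ R, ∀ b ∈ R, a ≠ q → b ≠ q → ¬ G.Adj q a → ¬ G.Adj q b → ¬ G.Adj a b) → W G R k)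
    (hS : ∀ z ∈ Zb G E O Z, ∀ z' ∈ Zb G E O Z, Shr G O z z' → Twn G E O z z') :
    W G (E ∪ O ∪ Z) (comb (max k ((k + 1) * 3 + (k + 1) * 3 + (k + 1 + 2 ^ 3))) 3) := by
  classical
  -- vertices of Z touching O only
  set ZO : Set V := {z | z ∈ Z ∧ (∃ o ∈ O, G.Adj z o) ∧ ∀ e ∈ E, ¬ G.Adj z e} with hZO
  have hEO : ∀ x ∈ E, x ∉ O := fun x hx hx' => (disjoint_left.1 h.dEO) hx hx'
  have hEZ : ∀ x ∈ E, x ∉ Z := fun x hx hx' => (disjoint_left.1 h.dEZ) hx hx'
  have hOZ : ∀ x ∈ O, x ∉ Z := fun x hx hx' => (disjoint_left.1 h.dOZ) hx hx'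
  have hrest : ∀ z ∈ Z, z ∉ ZO → z ∉ Zb G E O Z → ∀ o ∈ O, ¬ G.Adj z o := by
    intro z hz h1 h2 o ho hzo
    by_cases h3 : ∃ e ∈ E, G.Adj z e
    · exact h2 ⟨hz, h3, o, ho, hzo⟩
    · push Not at h3
      exact h1 ⟨hz, ⟨o, ho, hzo⟩, h3⟩
  by_cases hcl : ∀ z ∈ Zb G E O Z, ∀ z' ∈ Zb G E O Z, Twn G E O z z'
  · -- one class
    have e1 : E ∪ O ∪ Z = (O ∪ ZO) ∪ (E ∪ (Z \ ZO)) := by
      ext x
      constructor
      · rintro ((hx | hx) | hx)
        · exact Or.inr (Or.inl hx)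
        · exact Or.inl (Or.inl hx)
        · by_cases hx2 : x ∈ ZO
          · exact Or.inl (Or.inr hx2)
          · exact Or.inr (Or.inr ⟨hx, hx2⟩)
      · rintro ((hx | hx) | (hx | hx))
        · exact Or.inl (Or.inr hx)
        · exact Or.inr hx.1
        · exact Or.inl (Or.inl hx)
        · exact Or.inr hx.1
    rw [e1]
    have w1 : W G (O ∪ ZO) k := hub_bound hX (q := qO) (U := O) (I := Z)
      (union_subset_union_right O fun x hx => hx.1) h.qOO h.iZ
    have w2 : W G (E ∪ (Z \ ZO)) k := hub_bound hX (q := qE) (U := E) (I := Z)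
      (union_subset_union_right E fun x hx => hx.1) h.qEE h.iZ
    have hd : Disjoint (O ∪ ZO) (E ∪ (Z \ ZO)) := by
      rw [disjoint_left]
      rintro x (hx | hx) (hx' | hx')
      · exact hEO x hx' hx
      · exact hOZ x hx hx'.1
      · exact hEZ x hx' hx.1
      · exact hx'.2 hx
    have hf : Few G (O ∪ ZO) (E ∪ (Z \ ZO)) 3 := by
      refine ⟨fun v => if v ∈ O then (if ∃ z ∈ Zb G E O Z, G.Adj z v then 1 else 2) else 0, ?_⟩
      intro a ha a' ha' e b hb
      by_cases haO : a ∈ O <;> by_cases haO' : a' ∈ O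
      · simp only [haO, haO', if_true] at e
        rcases hb with hb | hb
        · exact iff_of_true (h.comp b hb a haO).symm (h.comp b hb a' haO').symm
        · by_cases hbZ : b ∈ Zb G E O Z
          · have iff1 : ∀ x ∈ O, (G.Adj x b ↔ ∃ z ∈ Zb G E O Z, G.Adj z x) := by
              intro x hx
              constructor
              · intro hh; exact ⟨b, hbZ, hh.symm⟩
              · rintro ⟨z, hz, hh⟩
                exact ((hcl z hz b hbZ x (Or.inr hx)).1 hh).symm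
            rw [iff1 a haO, iff1 a' haO']
            by_cases q1 : ∃ z ∈ Zb G E O Z, G.Adj z a <;>
              by_cases q2 : ∃ z ∈ Zb G E O Z, G.Adj z a'
            · exact iff_of_true q1 q2
            · simp [q1, q2] at e
            · simp [q1, q2] at e
            · exact iff_of_false q1 q2
          · exact iff_of_false (fun hh => hrest b hb.1 hb.2 hbZ a haO hh.symm)
              (fun hh => hrest b hb.1 hb.2 hbZ a' haO' hh.symm)
      · exfalso
        simp only [haO, haO', if_true, if_false] at e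
        split_ifs at e <;> simp at e
      · exfalso
        simp only [haO, haO', if_true, if_false] at e
        split_ifs at e <;> simp at e
      · have r1 : a ∈ ZO := ha.resolve_left haO
        have r2 : a' ∈ ZO := ha'.resolve_left haO'
        rcases hb with hb | hb
        · exact iff_of_false (r1.2.2 b hb) (r2.2.2 b hb)
        · exact iff_of_false (h.iZ a r1.1 b hb.1) (h.iZ a' r2.1 b hb.1)
    refine (W.combine' w1 w2 hd hf).mono (comb_mono (le_max_left _ _) le_rfl)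
  · -- at least two classes
    push Not at hcl
    obtain ⟨z1, hz1, z2, hz2, ht12⟩ := hcl
    -- classes are singletons
    have hsing : ∀ z ∈ Zb G E O Z, ∀ z' ∈ Zb G E O Z, Shr G O z z' → z = z' := by
      intro z hz z' hz' hs
      by_contra hne
      have htw := hS z hz z' hz' hs
      obtain ⟨w, hw, htw2⟩ : ∃ w ∈ Zb G E O Z, ¬ Twn G E O z w := by
        by_cases h1 : Twn G E O z z1
        · exact ⟨z2, hz2, fun h2 => ht12 (h1.symm.trans h2)⟩
        · exact ⟨z1, hz1, h1⟩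
      have ns : ¬ Shr G O z w := fun hh => htw2 (hS z hz w hw hh)
      have ns' : ¬ Shr G O z' w := fun hh => ns (htw.symm.shrO hh)
      obtain ⟨o, ho, a1, a2⟩ := hs
      obtain ⟨o', ho', a3⟩ := hw.2.2
      obtain ⟨e, he, a4⟩ := hz.2.1
      have c1 : ¬ G.Adj o' z := fun hh => ns ⟨o', ho', hh.symm, a3⟩
      have c2 : ¬ G.Adj o' z' := fun hh => ns' ⟨o', ho', hh.symm, a3⟩
      have c3 : ¬ G.Adj o' o := fun hh => c1 (h.symm.closed hz.1 ho ho' he a1 hh.symm a4).symm
      have c4 : ¬ G.Adj w o := fun hh => ns ⟨o, ho, a1, hh⟩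
      exact h.cls.p23 o' w z o z' a3.symm a1 a2.symm hne (h.iZ z hz.1 z' hz'.1) c1 c3 c2
        (h.iZ w hw.1 z hz.1) c4 (h.iZ w hw.1 z' hz'.1)
    -- closure
    have hcl : ∀ z ∈ Zb G E O Z, ∀ o ∈ O, ∀ o' ∈ O, G.Adj z o → G.Adj o o' → G.Adj z o' := by
      intro z hz o ho o' ho' h1 h2
      obtain ⟨e, he, a⟩ := hz.2.1
      exact h.symm.closed hz.1 ho ho' he h1 h2 a
    -- constancy
    have hconst1 : ∀ z ∈ Zb G E O Z, ∀ z' ∈ Zb G E O Z, z ≠ z' → ∀ o ∈ O, ∀ o' ∈ O, G.Adj z o →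
        G.Adj z' o' → ∀ y ∈ Z, y ∉ Zb G E O Z → G.Adj y o → G.Adj y o' := by
      intro z hz z' hz' hne o ho o' ho' zo zo' y hy hyb yo
      by_contra hn
      have c1 : ¬ G.Adj z o' := fun hh => hne (hsing z hz z' hz' ⟨o', ho', hh, zo'⟩)
      have c1' : ¬ G.Adj z' o := fun hh => hne (hsing z hz z' hz' ⟨o, ho, zo, hh⟩)
      have c2 : ¬ G.Adj o' o := fun hh => c1 (hcl z hz o ho o' ho' zo hh.symm)
      have c3 : y ≠ z := fun hh => hyb (hh ▸ hz)
      exact h.cls.p23 o' z' y o z zo'.symm yo zo.symm c3 (h.iZ y hy z hz.1) (nadj_symm hn) c2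
        (nadj_symm c1) (h.iZ z' hz'.1 y hy) c1' (h.iZ z' hz'.1 z hz.1)
    set Ob : Set V := {o | o ∈ O ∧ ∃ z ∈ Zb G E O Z, G.Adj z o} with hOb
    have hconst : ∀ o ∈ Ob, ∀ o' ∈ Ob, ∀ y ∈ Z, y ∉ Zb G E O Z → G.Adj y o → G.Adj y o' := by
      rintro o ⟨ho, z, hz, zo⟩ o' ⟨ho', z', hz', zo'⟩ y hy hyb yo
      by_cases hne : z = z'
      · obtain ⟨w, hw, hzw⟩ : ∃ w ∈ Zb G E O Z, z ≠ w := by
          by_cases h1 : z = z1
          · refine ⟨z2, hz2, fun h2 => ht12 (twn_of_eq (h1.symm.trans h2))⟩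
          · exact ⟨z1, hz1, h1⟩
        obtain ⟨o'', ho'', a⟩ := hw.2.2
        have := hconst1 z hz w hw hzw o ho o'' ho'' zo a y hy hyb yo
        exact hconst1 w hw z' hz' (by rw [← hne]; exact hzw.symm) o'' ho'' o' ho' a zo' y hy hyb
          this
      · exact hconst1 z hz z' hz' hne o ho o' ho' zo zo' y hy hyb yo
    have hZOb : ∀ z ∈ ZO, z ∉ Zb G E O Z := by
      rintro z hz ⟨_, ⟨e, he, a⟩, _⟩
      exact hz.2.2 e he a
    have e1 : E ∪ O ∪ Z = ((O \ Ob) ∪ ZO) ∪ ((E ∪ (Z \ ZO)) ∪ Ob) := by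
      ext x
      constructor
      · rintro ((hx | hx) | hx)
        · exact Or.inr (Or.inl (Or.inl hx))
        · by_cases hx2 : x ∈ Ob
          · exact Or.inr (Or.inr hx2)
          · exact Or.inl (Or.inl ⟨hx, hx2⟩)
        · by_cases hx2 : x ∈ ZO
          · exact Or.inl (Or.inr hx2)
          · exact Or.inr (Or.inl (Or.inr ⟨hx, hx2⟩))
      · rintro ((hx | hx) | ((hx | hx) | hx))
        · exact Or.inl (Or.inr hx.1)
        · exact Or.inr hx.1
        · exact Or.inl (Or.inl hx)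
        · exact Or.inr hx.1
        · exact Or.inl (Or.inr hx.1)
    rw [e1]
    have w1 : W G ((O \ Ob) ∪ ZO) k := hub_bound hX (q := qO) (U := O) (I := Z)
      (union_subset_union (fun x hx => hx.1) fun x hx => hx.1) h.qOO h.iZ
    have w2' : W G (E ∪ (Z \ ZO)) k := hub_bound hX (q := qE) (U := E) (I := Z)
      (union_subset_union_right E fun x hx => hx.1) h.qEE h.iZ
    have hd : Disjoint ((O \ Ob) ∪ ZO) ((E ∪ (Z \ ZO)) ∪ Ob) := by
      rw [disjoint_left]
      rintro x (hx | hx) ((hx' | hx') | hx')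
      · exact hEO x hx' hx.1
      · exact hOZ x hx.1 hx'.1
      · exact hx.2 hx'
      · exact hEZ x hx' hx.1
      · exact hx'.2 hx
      · exact hOZ x hx'.1 hx.1
    have hf : Few G ((O \ Ob) ∪ ZO) ((E ∪ (Z \ ZO)) ∪ Ob) 3 := by
      refine ⟨fun v => if v ∈ O then 0 else (if ∃ o ∈ Ob, G.Adj v o then 1 else 2), ?_⟩
      intro a ha a' ha' e b hb
      by_cases haO : a ∈ O <;> by_cases haO' : a' ∈ O
      · have r1 : a ∈ O \ Ob := ha.resolve_right fun hh => hOZ a haO hh.1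
        have r2 : a' ∈ O \ Ob := ha'.resolve_right fun hh => hOZ a' haO' hh.1
        have key : ∀ x ∈ O \ Ob, b ∉ E → ¬ G.Adj x b := by
          intro x hx hbE hh
          rcases hb with (hb | hb) | hb
          · exact hbE hb
          · by_cases hbZ : b ∈ Zb G E O Z
            · exact hx.2 ⟨hx.1, b, hbZ, hh.symm⟩
            · exact hrest b hb.1 hb.2 hbZ x hx.1 hh.symm
          · obtain ⟨hbO, z, hz, hzb⟩ := hb
            exact hx.2 ⟨hx.1, z, hz, hcl z hz b hbO x hx.1 hzb hh.symm⟩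
        by_cases hbE : b ∈ E
        · exact iff_of_true (h.comp b hbE a haO).symm (h.comp b hbE a' haO').symm
        · exact iff_of_false (key a r1 hbE) (key a' r2 hbE)
      · exfalso
        simp only [haO, haO', if_true, if_false] at e
        split_ifs at e <;> simp at e
      · exfalso
        simp only [haO, haO', if_true, if_false] at e
        split_ifs at e <;> simp at e
      · have r1 : a ∈ ZO := ha.resolve_left fun hh => haO hh.1
        have r2 : a' ∈ ZO := ha'.resolve_left fun hh => haO' hh.1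
        rcases hb with (hb | hb) | hb
        · exact iff_of_false (r1.2.2 b hb) (r2.2.2 b hb)
        · exact iff_of_false (h.iZ a r1.1 b hb.1) (h.iZ a' r2.1 b hb.1)
        · have iff1 : ∀ x ∈ ZO, (G.Adj x b ↔ ∃ o ∈ Ob, G.Adj x o) := by
            intro x hx
            constructor
            · intro hh; exact ⟨b, hb, hh⟩
            · rintro ⟨o, ho, hh⟩
              exact hconst o ho b hb x hx.1 (hZOb x hx) hh
          rw [iff1 a r1, iff1 a' r2]
          simp only [haO, haO', if_false] at e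
          by_cases q1 : ∃ o ∈ Ob, G.Adj a o <;> by_cases q2 : ∃ o ∈ Ob, G.Adj a' o
          · exact iff_of_true q1 q2
          · simp [q1, q2] at e
          · simp [q1, q2] at e
          · exact iff_of_false q1 q2
    -- the right hand side
    have hex : ∀ o ∈ Ob, ∃ z, z ∈ Zb G E O Z ∧ G.Adj z o := fun o ho => by
      obtain ⟨_, z, hz, hh⟩ := ho
      exact ⟨z, hz, hh⟩
    let zo : V → V := fun v => if hv : v ∈ Ob then (hex v hv).choose else v
    have zo1 : ∀ o ∈ Ob, zo o ∈ Zb G E O Z ∧ G.Adj (zo o) o := by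
      intro o ho
      simp only [zo, dif_pos ho]
      exact (hex o ho).choose_spec
    have zo2 : ∀ v, v ∉ Ob → zo v = v := fun v hv => by simp only [zo, dif_neg hv]
    have zo3 : ∀ o ∈ Ob, ∀ z ∈ Zb G E O Z, G.Adj z o → z = zo o := fun o ho z hz hh =>
      hsing z hz _ (zo1 o ho).1 ⟨o, ho.1, hh, (zo1 o ho).2⟩
    have hZbZ : ∀ z ∈ Zb G E O Z, z ∈ Z \ ZO := fun z hz => ⟨hz.1, fun hh => hZOb z hh hz⟩
    have w2 : W G ((E ∪ (Z \ ZO)) ∪ Ob) ((k + 1) * 3 + (k + 1) * 3 + (k + 1 + 2 ^ 3)) := by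
      refine W.subst (H := G) (X := E ∪ (Z \ ZO)) (m := 3) (n := k) zo
        (fun v => if v ∈ E then 0 else if v ∈ Z then 1 else 2) w2' ?_ ?_ ?_
      · intro v hv
        by_cases hvO : v ∈ Ob
        · exact Or.inr (hZbZ _ (zo1 v hvO).1)
        · rw [zo2 v hvO]; exact hv.resolve_right hvO
      · intro x hx
        by_cases hxb : x ∈ Zb G E O Z
        · refine hub_bound hX (q := qO) (U := O) (I := {x}) ?_ h.qOO ?_
          · rintro v ⟨hv, hvx⟩
            by_cases hvO : v ∈ Ob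
            · exact Or.inl hvO.1
            · rw [zo2 v hvO] at hvx; exact Or.inr hvx
          · intro a ha b hb hh
            simp only [mem_singleton_iff] at ha hb
            subst ha; subst hb; exact hh.ne rfl
        · refine W.of_subsingleton ?_
          have : ∀ v, v ∈ {v | v ∈ E ∪ Z \ ZO ∪ Ob ∧ zo v = x} → v = x := by
            rintro v ⟨hv, hvx⟩
            by_cases hvO : v ∈ Ob
            · exact absurd (hvx ▸ (zo1 v hvO).1) hxb
            · rw [zo2 v hvO] at hvx; exact hvx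
          intro a ha b hb
          rw [this a ha, this b hb]
      · -- adjacency
        intro a ha a' ha' b hb hab hab' e hadj
        have hObE : ∀ x ∈ Ob, x ∉ E := fun x hx hh => hEO x hh hx.1
        have hObZ : ∀ x ∈ Ob, x ∉ Z := fun x hx hh => hOZ x hx.1 hh
        by_cases haE : a ∈ E
        · have haE' : a' ∈ E := by
            by_contra hn
            simp only [haE, hn, if_true, if_false] at e
            split_ifs at e <;> simp at e
          have n1 : a ∉ Ob := fun hh => hObE a hh haE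
          have n2 : a' ∉ Ob := fun hh => hObE a' hh haE'
          by_cases hbO : b ∈ Ob
          · exact iff_of_true (h.comp a haE b hbO.1) (h.comp a' haE' b hbO.1)
          · rw [zo2 a n1, zo2 a' n2, zo2 b hbO] at hadj; exact hadj
        · have haE' : a' ∉ E := by
            intro hn
            simp only [haE, hn, if_true, if_false] at e
            split_ifs at e <;> simp at e
          by_cases haZ : a ∈ Z
          · have haZ' : a' ∈ Z := by
              by_contra hn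
              simp [haE, haE', haZ, hn] at e
            have n1 : a ∉ Ob := fun hh => hObZ a hh haZ
            have n2 : a' ∉ Ob := fun hh => hObZ a' hh haZ'
            by_cases hbO : b ∈ Ob
            · -- both nonadjacent
              have key : ∀ x ∈ Z, x ∉ ZO → zo x ≠ zo b → ¬ G.Adj x b := by
                intro x hx hxO hne hh
                have nx : x ∉ Ob := fun h2 => hObZ x h2 hx
                by_cases hxb : x ∈ Zb G E O Z
                · exact hne (by rw [zo2 x nx]; exact zo3 b hbO x hxb hh)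
                · exact hrest x hx hxO hxb b hbO.1 hh
              have nO : ∀ x ∈ E ∪ Z \ ZO ∪ Ob, x ∉ E → x ∈ Z → x ∉ ZO := by
                rintro x ((hx | hx) | hx) h1 h2
                · exact absurd hx h1
                · exact hx.2
                · exact absurd h2 (hObZ x hx)
              exact iff_of_false (key a haZ (nO a ha haE haZ) hab)
                (key a' haZ' (nO a' ha' haE' haZ') hab')
            · rw [zo2 a n1, zo2 a' n2, zo2 b hbO] at hadj; exact hadj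
          · have haZ' : a' ∉ Z := by
              intro hn
              simp [haE, haE', haZ, hn] at e
            have haO : a ∈ Ob := ha.resolve_left fun hh => hh.elim haE fun h2 => haZ h2.1
            have haO' : a' ∈ Ob := ha'.resolve_left fun hh => hh.elim haE' fun h2 => haZ' h2.1
            rcases hb with (hb | hb) | hb
            · exact iff_of_true (h.comp b hb a haO.1).symm (h.comp b hb a' haO'.1).symm
            · have nb : b ∉ Ob := fun hh => hObZ b hh hb.1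
              have key : ∀ x ∈ Ob, zo x ≠ zo b → ¬ G.Adj x b := by
                intro x hx hne hh
                by_cases hbb : b ∈ Zb G E O Z
                · exact hne (by rw [zo2 b nb]; exact (zo3 x hx b hbb hh.symm).symm)
                · exact hrest b hb.1 hb.2 hbb x hx.1 hh.symm
              exact iff_of_false (key a haO hab) (key a' haO' hab')
            · have key : ∀ x ∈ Ob, zo x ≠ zo b → ¬ G.Adj x b := by
                intro x hx hne hh
                have h1 := zo1 x hx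
                exact hne (zo3 b hb _ h1.1 (hcl _ h1.1 x hx.1 b hb.1 h1.2 hh))
              exact iff_of_false (key a haO hab) (key a' haO' hab')
    have := W.combine' (w1.mono (le_max_left k ((k + 1) * 3 + (k + 1) * 3 + (k + 1 + 2 ^ 3))))
      (w2.mono (le_max_right k _)) hd hf
    exact this

/-- EO lemma -/
theorem EOH.bound [Finite V] {k : ℕ} (h : EOH G E O Z qE qO) (hX : ∀ (q : V) (R : Set V),
    (∀ a ∈ R, ∀ b ∈ R, a ≠ q → b ≠ q → ¬ G.Adj q a → ¬ G.Adj q b → ¬ G.Adj a b) → W G R k) :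
    W G (E ∪ O ∪ Z) (comb (max k ((k + 1) * 3 + (k + 1) * 3 + (k + 1 + 2 ^ 3))) 3) := by
  rcases h.dich with h1 | h1
  · have := h.symm.oneside hX (fun z hz z' hz' hs => by
      rw [Zb_symm] at hz hz'
      exact (h1 z hz z' hz' hs).swap)
    rwa [union_comm O E] at this
  · exact h.oneside hX h1

end EO

/-- the conclusion of Theorem X with an explicit bound -/
def ClassX (k : ℕ) : Prop := ∀ (V : Type) [Finite V] (G : SimpleGraph V) (q : V) (R : Set V),
    Cls G → (∀ a ∈ R, ∀ b ∈ R, a ≠ q → b ≠ q → ¬ G.Adj q a → ¬ G.Adj q b → ¬ G.Adj a b) →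
    W G R k

theorem EO_bound_of {k : ℕ} (hX : ClassX k) :
    ∃ k : ℕ, ∀ (V : Type) [Finite V] (G : SimpleGraph V) (E O Z : Set V) (qE qO : V),
    Cls G → Disjoint E O → Disjoint E Z → Disjoint O Z → Indep G Z →
    (∀ e ∈ E, ∀ o ∈ O, G.Adj e o) → (∀ e ∈ E, G.Adj qE e) → (∀ o ∈ O, G.Adj qO o) →
    (∀ x ∈ O ∪ Z, ¬ G.Adj qE x) → (∀ x ∈ E ∪ Z, ¬ G.Adj qO x) → W G (E ∪ O ∪ Z) k := by
  refine ⟨_, fun V _ G E O Z qE qO h1 h2 h3 h4 h5 h6 h7 h8 h9 h10 =>
    EOH.bound (k := k) ⟨h1, h2, h3, h4, h5, h6, h7, h8, h9, h10⟩ fun q R hR => ?_⟩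
  exact hX V G q R h1 hR

end Pool.Agent.GemWidth
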