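import Pool.Agent.GemWidth.C5Basic
import Pool.Agent.GemWidth.EO

set_option autoImplicit false

namespace Pool.Agent.GemWidth
namespace C5case

open Set

variable {V : Type} {G : SimpleGraph V} {v : Fin 5 → V} {i j l : Fin 5} {x y : V} {k : ℕ}

theorem hubAll [Finite V] (hX : ClassX k) (hG : Cls G) {q : V} {R : Set V}
    (h : ∀ x ∈ R, G.Adj q x) : W G R k :=
  hX V G q R hG fun a ha _ _ _ _ h1 => absurd (h a ha) h1

/-- all vertices of the classes `A i` -/
def Aall (G : SimpleGraph V) (v : Fin 5 → V) : Set V := {x | ∃ i, x ∈ cA G v i}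

open Classical in
/-- the index of a vertex of `Aall` -/
noncomputable def idx (G : SimpleGraph V) (v : Fin 5 → V) (x : V) : Fin 5 :=
  if h : ∃ i, x ∈ cA G v i then h.choose else 0

theorem idx_eq (h : x ∈ cA G v i) : idx G v x = i := by
  have h' : ∃ i, x ∈ cA G v i := ⟨i, h⟩
  unfold idx
  rw [dif_pos h']
  exact cA_inj h'.choose_spec h

theorem mem_idx (h : x ∈ Aall G v) : x ∈ cA G v (idx G v x) := by
  obtain ⟨i, hi⟩ := h
  rw [idx_eq hi]; exact hi

theorem cast2 (e : i = j) (h : x ∈ cA G v i) : x ∈ cA G v j := e ▸ h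

theorem e32 : i = i + 3 + 2 := by revert i; decide
theorem e23 : i = i + 2 + 3 := by revert i; decide
theorem e41 : i = i + 4 + 1 := by revert i; decide
theorem e24 : i + 2 + 2 = i + 4 := by revert i; decide
theorem e43 : i + 2 = i + 4 + 3 := by revert i; decide

open Classical in
/-- the block of a vertex in the first case of the pentagon lemma -/
noncomputable def pi1 (G : SimpleGraph V) (v : Fin 5 → V) (R : Set V) (x : V) : V :=
  if (∃ b ∈ R, b ∈ cA G v (idx G v x + 2) ∧ G.Adj x b) then v (idx G v x)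
  else if (∃ b ∈ R, b ∈ cA G v (idx G v x + 3) ∧ G.Adj x b) then v (idx G v x + 3)
  else v (idx G v x)

def p1K (k : ℕ) : ℕ := (1 + 1) * 5 + (k + 1) * 5 + (k + 1 + 2 ^ 5)

theorem pent1 [Finite V] (hX : ClassX k) (hG : Cls G) (P : IsC5 G v) (R : Set V)
    (hR : R ⊆ Aall G v)
    (hc : ∀ i, ∀ a ∈ R, ∀ b ∈ R, a ∈ cA G v i → b ∈ cA G v (i + 1) → G.Adj a b) :
    W G R (p1K k) := by
  have same : ∀ i, ∀ x ∈ R, ∀ y ∈ R, x ∈ cA G v i → y ∈ cA G v i → G.Adj x y →
      pi1 G v R x = pi1 G v R y := by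
    intro i x hx y hy hxi hyi hxy
    have h2 : (∃ b ∈ R, b ∈ cA G v (i + 2) ∧ G.Adj x b) ↔
        (∃ b ∈ R, b ∈ cA G v (i + 2) ∧ G.Adj y b) := by
      constructor
      · rintro ⟨b, hb, hb2, _⟩
        exact ⟨b, hb, hb2, fA2a hG P hyi hxi hb2 hxy.symm⟩
      · rintro ⟨b, hb, hb2, _⟩
        exact ⟨b, hb, hb2, fA2a hG P hxi hyi hb2 hxy⟩
    have h3 : (∃ b ∈ R, b ∈ cA G v (i + 3) ∧ G.Adj x b) ↔
        (∃ b ∈ R, b ∈ cA G v (i + 3) ∧ G.Adj y b) := by
      constructor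
      · rintro ⟨b, hb, hb2, _⟩
        exact ⟨b, hb, hb2, (fA2b hG P hb2 (cast2 e32 hyi) (cast2 e32 hxi) hxy.symm).symm⟩
      · rintro ⟨b, hb, hb2, _⟩
        exact ⟨b, hb, hb2, (fA2b hG P hb2 (cast2 e32 hxi) (cast2 e32 hyi) hxy).symm⟩
    unfold pi1
    rw [idx_eq hxi, idx_eq hyi]
    by_cases c2 : ∃ b ∈ R, b ∈ cA G v (i + 2) ∧ G.Adj x b
    · rw [if_pos c2, if_pos (h2.1 c2)]
    · rw [if_neg c2, if_neg (fun h => c2 (h2.2 h))]
      by_cases c3 : ∃ b ∈ R, b ∈ cA G v (i + 3) ∧ G.Adj x b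
      · rw [if_pos c3, if_pos (h3.1 c3)]
      · rw [if_neg c3, if_neg (fun h => c3 (h3.2 h))]
  have dist2 : ∀ i, ∀ x ∈ R, ∀ y ∈ R, x ∈ cA G v i → y ∈ cA G v (i + 2) → G.Adj x y →
      pi1 G v R x = pi1 G v R y := by
    intro i x hx y hy hxi hyi hxy
    have h1 : ∃ b ∈ R, b ∈ cA G v (i + 2) ∧ G.Adj x b := ⟨y, hy, hyi, hxy⟩
    have h2 : ¬ ∃ b ∈ R, b ∈ cA G v (i + 2 + 2) ∧ G.Adj y b := by
      rintro ⟨b, hb, hb2, hyb⟩
      rw [e24] at hb2
      have hbx : G.Adj b x := hc (i + 4) b hb x hx hb2 (cast2 e41 hxi)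
      exact fA4t hG P hb2 (cast2 e41 hxi) (cast2 e43 hyi) hbx hyb.symm hxy
    have h3 : ∃ b ∈ R, b ∈ cA G v (i + 2 + 3) ∧ G.Adj y b :=
      ⟨x, hx, cast2 e23 hxi, hxy.symm⟩
    unfold pi1
    rw [idx_eq hxi, idx_eq hyi, if_pos h1, if_neg h2, if_pos h3, ← e23]
  have key : ∀ x ∈ R, ∀ y ∈ R, pi1 G v R x ≠ pi1 G v R y →
      (G.Adj x y ↔ (idx G v y = idx G v x + 1 ∨ idx G v x = idx G v y + 1)) := by
    intro x hx y hy hne
    have hxi := mem_idx (hR hx)
    have hyi := mem_idx (hR hy)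
    set i := idx G v x with hi
    set j := idx G v y with hj
    rcases five i j with h | h | h | h | h
    · rw [h] at hyi
      refine iff_of_false (fun hxy => hne (same i x hx y hy hxi hyi hxy)) ?_
      rw [h]; clear_value i; clear * -; revert i; decide
    · refine iff_of_true (hc i x hx y hy hxi (h ▸ hyi)) (Or.inl h)
    · refine iff_of_false (fun hxy => hne (dist2 i x hx y hy hxi (h ▸ hyi) hxy)) ?_
      rw [h]; clear_value i; clear * -; revert i; decide
    · refine iff_of_false (fun hxy => hne (dist2 j y hy x hx hyi (h ▸ hxi) hxy.symm).symm) ?_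
      rw [h]; clear_value j; clear * -; revert j; decide
    · refine iff_of_true (hc j y hy x hx hyi (h ▸ hxi)).symm (Or.inr h)
  refine W.typed_blocks (n := k) (m := 5) (pi1 G v R) (idx G v) (by simp) ?_ ?_
  · intro x
    by_cases hx : ∃ j, x = v j
    · obtain ⟨j, rfl⟩ := hx
      refine hubAll hX hG (q := v (j + 1)) ?_
      rintro y ⟨hy, hpy⟩
      have hyi := mem_idx (hR hy)
      have adj1 : idx G v y = j → G.Adj (v (j + 1)) y := by
        intro h
        rw [h] at hyi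
        refine ((hyi.2 (j + 1)).2 ?_).symm
        clear * -; revert j; decide
      unfold pi1 at hpy
      split_ifs at hpy with h1 h2
      · exact adj1 (P.inj hpy)
      · have h3 := P.inj hpy
        refine ((hyi.2 (j + 1)).2 ?_).symm
        rw [← h3]
        generalize idx G v y = t
        revert t; decide
      · exact adj1 (P.inj hpy)
    · refine W.of_subsingleton ?_
      rintro y ⟨hy, hpy⟩
      exfalso
      apply hx
      unfold pi1 at hpy
      split_ifs at hpy with h1 h2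
      · exact ⟨_, hpy.symm⟩
      · exact ⟨_, hpy.symm⟩
      · exact ⟨_, hpy.symm⟩
  · intro a ha a' ha' b hb h1 h2 e
    rw [key a ha b hb h1, key a' ha' b hb h2, e]

/-! ### the pair `A 0`, `A 1` -/

open Classical in
/-- host map for two consecutive classes -/
noncomputable def pi2 (G : SimpleGraph V) (v : Fin 5 → V) (x : V) : V :=
  if h : (x ∈ cA G v 0 ∧ (∀ y ∈ cA G v 0, ¬ G.Adj x y)) ∧ ∃ y ∈ cA G v 1, ¬ G.Adj x y then h.2.choose
  else if h : x ∈ cA G v 1 ∧ ∃ y ∈ cA G v 0, ¬ G.Adj y x ∧ ∃ w ∈ cA G v 0, G.Adj y w then h.2.choose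
  else x

theorem disj01 (h0 : x ∈ cA G v 0) (h1 : x ∈ cA G v 1) : False := by
  have := cA_inj h0 h1
  revert this; decide

theorem pi2_a (hG : Cls G) (P : IsC5 G v) (hx : x ∈ cA G v 0) (hiso : ∀ y ∈ cA G v 0, ¬ G.Adj x y)
    (hy : y ∈ cA G v 1) (hxy : ¬ G.Adj x y) : pi2 G v x = y := by
  have h : (x ∈ cA G v 0 ∧ (∀ y ∈ cA G v 0, ¬ G.Adj x y)) ∧ ∃ y ∈ cA G v 1, ¬ G.Adj x y :=
    ⟨⟨hx, hiso⟩, y, hy, hxy⟩
  unfold pi2
  rw [dif_pos h]
  exact fA1a hG P (i := 0) hx h.2.choose_spec.1 hy h.2.choose_spec.2 hxy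

theorem pi2_a' (hx : x ∈ cA G v 0)
    (h : (∃ y ∈ cA G v 0, G.Adj x y) ∨ (∀ y ∈ cA G v 1, G.Adj x y)) : pi2 G v x = x := by
  unfold pi2
  rw [dif_neg, dif_neg]
  · rintro ⟨h1, _⟩
    exact disj01 hx h1
  · rintro ⟨⟨_, h1⟩, y, hy, hxy⟩
    rcases h with ⟨y, hy, h⟩ | h
    · exact h1 y hy h
    · exact hxy (h y hy)

theorem pi2_b (hG : Cls G) (P : IsC5 G v) (hx : x ∈ cA G v 1) (hy : y ∈ cA G v 0)
    (hxy : ¬ G.Adj y x) {w : V} (hw : w ∈ cA G v 0) (hyw : G.Adj y w) : pi2 G v x = y := by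
  have h : x ∈ cA G v 1 ∧ ∃ y ∈ cA G v 0, ¬ G.Adj y x ∧ ∃ w ∈ cA G v 0, G.Adj y w :=
    ⟨hx, y, hy, hxy, w, hw, hyw⟩
  unfold pi2
  rw [dif_neg, dif_pos h]
  · exact fA1b hG P (i := 0) h.2.choose_spec.1 hy hx h.2.choose_spec.2.1 hxy
  · rintro ⟨⟨h1, _⟩, _⟩
    exact disj01 h1 hx

theorem pi2_b' (hx : x ∈ cA G v 1)
    (h : ∀ y ∈ cA G v 0, ¬ G.Adj y x → ∀ w ∈ cA G v 0, ¬ G.Adj y w) : pi2 G v x = x := by
  unfold pi2
  rw [dif_neg, dif_neg]
  · rintro ⟨_, y, hy, hyx, w, hw, hyw⟩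
    exact h y hy hyx w hw hyw
  · rintro ⟨⟨h1, _⟩, _⟩
    exact disj01 h1 hx

/-- nonadjacent vertices of the two classes are in the same block -/
theorem pi2_same (hG : Cls G) (P : IsC5 G v) (hx : x ∈ cA G v 0) (hy : y ∈ cA G v 1)
    (hxy : ¬ G.Adj x y) : pi2 G v x = pi2 G v y := by
  by_cases h : ∃ w ∈ cA G v 0, G.Adj x w
  · obtain ⟨w, hw, hxw⟩ := h
    rw [pi2_a' hx (Or.inl ⟨w, hw, hxw⟩), pi2_b hG P hy hx hxy hw hxw]
  · have h' : ∀ w ∈ cA G v 0, ¬ G.Adj x w := fun w hw hxw => h ⟨w, hw, hxw⟩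
    rw [pi2_a hG P hx h' hy hxy, pi2_b' hy]
    intro z hz hzy w hw
    have : x = z := fA1b hG P (i := 0) hx hz hy hxy hzy
    rw [← this]; exact h' w hw

def p2K (k : ℕ) : ℕ := (comb k 1 + 1) * 32 + (comb 0 1 + 1) * 32 + (comb 0 1 + 1 + 2 ^ 32)

theorem W.pair_le [Finite V] {R : Set V} {x : V} (h : (R \ {x}).Subsingleton) :
    W G R (comb 0 1) := by
  refine (W.insert_vertex (W.of_subsingleton h) x).subset ?_
  intro y hy
  by_cases e : y = x
  · exact Or.inl e
  · exact Or.inr ⟨hy, e⟩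

open Classical in
/-- types: in `A 0`, in `A 1`, self-hosted, isolated in `A 0`, isolated in `A 1` -/
noncomputable def ty2 (G : SimpleGraph V) (v : Fin 5 → V) (x : V) : Bool × Bool × Bool × Bool × Bool :=
  (decide (x ∈ cA G v 0), decide (x ∈ cA G v 1), decide (pi2 G v x = x),
    decide (∀ y ∈ cA G v 0, ¬ G.Adj x y), decide (∀ y ∈ cA G v 1, ¬ G.Adj x y))

theorem pair_bound [Finite V] (hX : ClassX k) (hG : Cls G) (P : IsC5 G v) :
    W G (cA G v 0 ∪ cA G v 1) (p2K k) := by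
  classical
  set X : Set V := {x | x ∈ cA G v 0 ∪ cA G v 1 ∧ pi2 G v x = x} with hXdef
  -- image
  have hmap : ∀ x ∈ cA G v 0 ∪ cA G v 1, pi2 G v x ∈ X := by
    intro x hx
    by_cases hself : pi2 G v x = x
    · rw [hself]; exact ⟨hx, hself⟩
    · rcases hx with hx | hx
      · have h1 : (∀ y ∈ cA G v 0, ¬ G.Adj x y) ∧ ∃ y ∈ cA G v 1, ¬ G.Adj x y := by
          by_contra hcon
          apply hself
          refine pi2_a' hx ?_
          by_cases h : ∃ y ∈ cA G v 0, G.Adj x y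
          · exact Or.inl h
          · right
            intro y hy
            by_contra hxy
            exact hcon ⟨fun z hz hxz => h ⟨z, hz, hxz⟩, y, hy, hxy⟩
        obtain ⟨hiso, y, hy, hxy⟩ := h1
        have e := pi2_a hG P hx hiso hy hxy
        rw [e]
        refine ⟨Or.inr hy, ?_⟩
        rw [← e, ← pi2_same hG P hx (e ▸ hy) (e ▸ hxy), e]
      · have h1 : ∃ y ∈ cA G v 0, ¬ G.Adj y x ∧ ∃ w ∈ cA G v 0, G.Adj y w := by
          by_contra hcon
          apply hself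
          refine pi2_b' hx ?_
          intro y hy hyx w hw hyw
          exact hcon ⟨y, hy, hyx, w, hw, hyw⟩
        obtain ⟨y, hy, hyx, w, hw, hyw⟩ := h1
        rw [pi2_b hG P hx hy hyx hw hyw]
        exact ⟨Or.inl hy, pi2_a' hy (Or.inl ⟨w, hw, hyw⟩)⟩
  -- width of the self-hosted part
  have hWX : W G X (comb k 1) := by
    have e : X = (X ∩ cA G v 0) ∪ (X ∩ cA G v 1) := by
      ext x; constructor
      · intro hx
        rcases hx.1 with h | h
        · exact Or.inl ⟨hx, h⟩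
        · exact Or.inr ⟨hx, h⟩
      · rintro (h | h) <;> exact h.1
    refine W.cut (X := X ∩ cA G v 0) (Y := X ∩ cA G v 1) (k := k) (n := 1) ?_ ?_ e ?_ ?_
    · refine hubAll hX hG (q := v 1) ?_
      intro x hx
      exact ((hx.2.2 1).2 rfl).symm
    · refine hubAll hX hG (q := v 0) ?_
      intro x hx
      exact ((hx.2.2 0).2 rfl).symm
    · rw [disjoint_left]
      intro x hx hx'
      exact disj01 hx.2 hx'.2
    · refine few_complete ?_
      intro x hx y hy
      by_contra hxy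
      have := pi2_same hG P hx.2 hy.2 hxy
      rw [hx.1.2, hy.1.2] at this
      exact disj01 hx.2 (this ▸ hy.2)
  refine W.subst_label (H := G) (X := X) (k := comb k 1) (n := comb 0 1) (m := 32)
    (pi2 G v) (ty2 G v) (by simp) hWX hmap ?_ ?_
  · -- blocks have at most two vertices
    rintro x ⟨hx, hself⟩
    refine W.pair_le (x := x) ?_
    -- members of the block other than `x` lie in the other class and are nonadjacent to `x`
    rcases hx with hx | hx
    · have key : ∀ y, y ∈ cA G v 0 ∪ cA G v 1 → pi2 G v y = x → y ≠ x → y ∈ cA G v 1 ∧ ¬ G.Adj x y := by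
        intro y hy hpy hne
        rcases hy with hy | hy
        · exfalso
          by_cases h1 : (∀ z ∈ cA G v 0, ¬ G.Adj y z) ∧ ∃ z ∈ cA G v 1, ¬ G.Adj y z
          · obtain ⟨hiso, z, hz, hyz⟩ := h1
            rw [pi2_a hG P hy hiso hz hyz] at hpy
            exact disj01 hx (hpy ▸ hz)
          · refine hne ?_
            rw [← hpy]
            refine (pi2_a' hy ?_).symm
            by_cases h : ∃ z ∈ cA G v 0, G.Adj y z
            · exact Or.inl h
            · right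
              intro z hz
              by_contra hyz
              exact h1 ⟨fun z hz hyz => h ⟨z, hz, hyz⟩, z, hz, hyz⟩
        · refine ⟨hy, fun hxy => ?_⟩
          by_cases h1 : ∃ z ∈ cA G v 0, ¬ G.Adj z y ∧ ∃ w ∈ cA G v 0, G.Adj z w
          · obtain ⟨z, hz, hzy, w, hw, hzw⟩ := h1
            rw [pi2_b hG P hy hz hzy hw hzw] at hpy
            exact hzy (hpy ▸ hxy)
          · refine hne ?_
            rw [← hpy]
            exact (pi2_b' hy fun z hz hzy w hw hzw => h1 ⟨z, hz, hzy, w, hw, hzw⟩).symm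
      rintro y ⟨⟨hy, hpy⟩, hyx⟩ z ⟨⟨hz, hpz⟩, hzx⟩
      obtain ⟨h1, h2⟩ := key y hy hpy hyx
      obtain ⟨h3, h4⟩ := key z hz hpz hzx
      exact fA1a hG P (i := 0) hx h1 h3 h2 h4
    · have key : ∀ y, y ∈ cA G v 0 ∪ cA G v 1 → pi2 G v y = x → y ≠ x → y ∈ cA G v 0 ∧ ¬ G.Adj y x := by
        intro y hy hpy hne
        rcases hy with hy | hy
        · refine ⟨hy, fun hyx => ?_⟩
          by_cases h1 : (∀ z ∈ cA G v 0, ¬ G.Adj y z) ∧ ∃ z ∈ cA G v 1, ¬ G.Adj y z
          · obtain ⟨hiso, z, hz, hyz⟩ := h1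
            rw [pi2_a hG P hy hiso hz hyz] at hpy
            exact hyz (hpy ▸ hyx)
          · refine hne ?_
            rw [← hpy]
            refine (pi2_a' hy ?_).symm
            by_cases h : ∃ z ∈ cA G v 0, G.Adj y z
            · exact Or.inl h
            · right
              intro z hz
              by_contra hyz
              exact h1 ⟨fun z hz hyz => h ⟨z, hz, hyz⟩, z, hz, hyz⟩
        · exfalso
          by_cases h1 : ∃ z ∈ cA G v 0, ¬ G.Adj z y ∧ ∃ w ∈ cA G v 0, G.Adj z w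
          · obtain ⟨z, hz, hzy, w, hw, hzw⟩ := h1
            rw [pi2_b hG P hy hz hzy hw hzw] at hpy
            exact disj01 (hpy ▸ hz) hx
          · refine hne ?_
            rw [← hpy]
            exact (pi2_b' hy fun z hz hzy w hw hzw => h1 ⟨z, hz, hzy, w, hw, hzw⟩).symm
      rintro y ⟨⟨hy, hpy⟩, hyx⟩ z ⟨⟨hz, hpz⟩, hzx⟩
      obtain ⟨h1, h2⟩ := key y hy hpy hyx
      obtain ⟨h3, h4⟩ := key z hz hpz hzx
      exact fA1b hG P (i := 0) h1 h3 hx h2 h4
  · -- adjacency between different blocks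
    -- isolated hosted vertices of `A 0`
    have hostA : ∀ x ∈ cA G v 0, pi2 G v x ≠ x → ∀ y ∈ cA G v 0, ¬ G.Adj x y := by
      intro x hx hne y hy hxy
      exact hne (pi2_a' hx (Or.inl ⟨y, hy, hxy⟩))
    -- hosted vertices of `A 1`
    have hostB : ∀ x ∈ cA G v 1, pi2 G v x ≠ x → ∃ y ∈ cA G v 0, ¬ G.Adj y x ∧
        (∃ w ∈ cA G v 0, G.Adj y w) ∧ pi2 G v x = y := by
      intro x hx hne
      by_contra hcon
      apply hne
      refine pi2_b' hx ?_
      intro y hy hyx w hw hyw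
      exact hcon ⟨y, hy, hyx, ⟨w, hw, hyw⟩, pi2_b hG P hx hy hyx hw hyw⟩
    -- a hosted vertex of `A 1` with a neighbour in `A 1`
    have dbl : ∀ x ∈ cA G v 1, ∀ y ∈ cA G v 1, G.Adj x y → pi2 G v x ≠ x →
        (∀ w ∈ cA G v 0, G.Adj (pi2 G v x) w → ¬ G.Adj w y) ∧
        pi2 G v y ≠ y ∧ G.Adj (pi2 G v x) (pi2 G v y) := by
      intro x hx y hy hxy hne
      obtain ⟨a, ha, hax, ⟨w, hw, haw⟩, e⟩ := hostB x hx hne
      have hwy : ∀ w ∈ cA G v 0, G.Adj a w → ¬ G.Adj w y := fun w hw haw hwy =>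
        A7 hG P ha hw hx hy haw hxy hax hwy
      have e2 := pi2_b hG P hy hw (hwy w hw haw) ha haw.symm
      rw [e, e2]
      refine ⟨hwy, ?_, haw⟩
      rintro rfl
      exact disj01 hw hy
    have f01 : ∀ x ∈ cA G v 0, ∀ y ∈ cA G v 1, pi2 G v x ≠ pi2 G v y → G.Adj x y := by
      intro x hx y hy hne
      by_contra hxy
      exact hne (pi2_same hG P hx hy hxy)
    have f00 : ∀ x ∈ cA G v 0, ∀ y ∈ cA G v 0, (G.Adj x y ↔
        (pi2 G v x = x ∧ pi2 G v y = y ∧ G.Adj (pi2 G v x) (pi2 G v y))) := by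
      intro x hx y hy
      constructor
      · intro hxy
        have e1 : pi2 G v x = x := by
          by_contra h; exact hostA x hx h y hy hxy
        have e2 : pi2 G v y = y := by
          by_contra h; exact hostA y hy h x hx hxy.symm
        refine ⟨e1, e2, ?_⟩
        rw [e1, e2]; exact hxy
      · rintro ⟨e1, e2, h⟩
        rwa [e1, e2] at h
    have f11 : ∀ x ∈ cA G v 1, ∀ y ∈ cA G v 1, (G.Adj x y ↔
        ((pi2 G v x = x ↔ pi2 G v y = y) ∧ (¬ ∀ z ∈ cA G v 1, ¬ G.Adj x z) ∧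
          (¬ ∀ z ∈ cA G v 1, ¬ G.Adj y z) ∧ G.Adj (pi2 G v x) (pi2 G v y))) := by
      intro x hx y hy
      constructor
      · intro hxy
        refine ⟨?_, fun h => h y hy hxy, fun h => h x hx hxy.symm, ?_⟩
        · constructor
          · intro e1
            by_contra h
            exact (dbl y hy x hx hxy.symm h).2.1 e1
          · intro e1
            by_contra h
            exact (dbl x hx y hy hxy h).2.1 e1
        · by_cases e1 : pi2 G v x = x
          · by_cases e2 : pi2 G v y = y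
            · rwa [e1, e2]
            · exact absurd e1 (dbl y hy x hx hxy.symm e2).2.1
          · exact (dbl x hx y hy hxy e1).2.2
      · rintro ⟨e, h1, h2, h3⟩
        by_cases e1 : pi2 G v x = x
        · rw [e1, e.1 e1] at h3; exact h3
        · have e2 : pi2 G v y ≠ y := fun h => e1 (e.2 h)
          push Not at h1
          obtain ⟨z, hz, hxz⟩ := h1
          have h4 := (dbl x hx z hz hxz e1).1
          obtain ⟨a, ha, hay, _, ea⟩ := hostB y hy e2
          rw [ea] at h3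
          have h5 := h4 a ha h3
          have : z = y := fA1a hG P (i := 0) ha hz hy h5 hay
          rw [← this]; exact hxz
    intro a ha a' ha' b hb h1 h2 e h3
    simp only [ty2, Prod.mk.injEq, decide_eq_decide] at e
    obtain ⟨e1, e2, e3, e4, e5⟩ := e
    rcases hb with hb | hb
    · by_cases h0 : a ∈ cA G v 0
      · rw [f00 a h0 b hb, f00 a' (e1.1 h0) b hb, e3, h3]
      · have ha1 := ha.resolve_left h0
        exact iff_of_true (f01 b hb a ha1 h1.symm).symm (f01 b hb a' (e2.1 ha1) h2.symm).symm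
    · by_cases h0 : a ∈ cA G v 0
      · exact iff_of_true (f01 a h0 b hb h1) (f01 a' (e1.1 h0) b hb h2)
      · have ha1 := ha.resolve_left h0
        rw [f11 a ha1 b hb, f11 a' (e2.1 ha1) b hb, e3, e5, h3]

theorem pent2 [Finite V] (hX : ClassX k) (hG : Cls G) (P : IsC5 G v) {a a1 b b1 : V}
    (ha : a ∈ cA G v 0) (ha1 : a1 ∈ cA G v 0) (hb : b ∈ cA G v 1) (hb1 : b1 ∈ cA G v 1)
    (hne : a ≠ a1) (hab : ¬ G.Adj a b) (hab1 : ¬ G.Adj a1 b1) :
    W G (Aall G v) (addN (max k (p2K k)) 4) := by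
  have hbb : b ≠ b1 := by
    rintro rfl
    exact hne (fA1b hG P (i := 0) ha ha1 hb hab hab1)
  have h1 : G.Adj a b1 := by
    by_contra h
    exact hbb (fA1a hG P (i := 0) ha hb hb1 hab h)
  have h2 : G.Adj a1 b := by
    by_contra h
    exact hbb (fA1a hG P (i := 0) ha1 hb hb1 h hab1)
  set N1 : Set V := {c | c ∈ cA G v 2 ∧ ¬ G.Adj b c} with hN1
  set N2 : Set V := {c | c ∈ cA G v 2 ∧ ¬ G.Adj b1 c} with hN2
  set N3 : Set V := {c | c ∈ cA G v 4 ∧ ¬ G.Adj c a} with hN3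
  set N4 : Set V := {c | c ∈ cA G v 4 ∧ ¬ G.Adj c a1} with hN4
  have s1 : N1.Subsingleton := fun c hc d hd => fA1a hG P (i := 1) hb hc.1 hd.1 hc.2 hd.2
  have s2 : N2.Subsingleton := fun c hc d hd => fA1a hG P (i := 1) hb1 hc.1 hd.1 hc.2 hd.2
  have s3 : N3.Subsingleton := fun c hc d hd => fA1b hG P (i := 4) hc.1 hd.1 ha hc.2 hd.2
  have s4 : N4.Subsingleton := fun c hc d hd => fA1b hG P (i := 4) hc.1 hd.1 ha1 hc.2 hd.2
  have hcard : ((N1 ∪ N2) ∪ (N3 ∪ N4)).ncard ≤ 4 := by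
    have a1 := ncard_le_one_of_subsingleton s1
    have a2 := ncard_le_one_of_subsingleton s2
    have a3 := ncard_le_one_of_subsingleton s3
    have a4 := ncard_le_one_of_subsingleton s4
    have b1 := Set.ncard_union_le N1 N2
    have b2 := Set.ncard_union_le N3 N4
    have b3 := Set.ncard_union_le (N1 ∪ N2) (N3 ∪ N4)
    omega
  have hsub : Aall G v ⊆ (cA G v 0 ∪ cA G v 1 ∪ cA G v 3) ∪ ((N1 ∪ N2) ∪ (N3 ∪ N4)) := by
    rintro x ⟨i, hx⟩
    have hi : i = 0 ∨ i = 1 ∨ i = 2 ∨ i = 3 ∨ i = 4 := by clear hx; revert i; decide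
    rcases hi with rfl | rfl | rfl | rfl | rfl
    · exact Or.inl (Or.inl (Or.inl hx))
    · exact Or.inl (Or.inl (Or.inr hx))
    · right; left
      by_cases h3 : G.Adj b x
      · right
        refine ⟨hx, fun h4 => ?_⟩
        exact A5a hG P ha ha1 hb hb1 hx hab hab1 h1 h2 h3 h4 hne hbb
      · exact Or.inl ⟨hx, h3⟩
    · exact Or.inl (Or.inr hx)
    · right; right
      by_cases h3 : G.Adj x a
      · right
        refine ⟨hx, fun h4 => ?_⟩
        exact A5b hG P ha ha1 hb hb1 hx hab hab1 h1 h2 h3.symm h4.symm hne hbb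
      · exact Or.inl ⟨hx, h3⟩
  refine W.subset (W.union_ncard ?_ hcard) hsub
  by_cases c0 : ∃ x ∈ cA G v 0, ∃ y ∈ cA G v 0, G.Adj x y
  · by_cases c1 : ∃ x ∈ cA G v 1, ∃ y ∈ cA G v 1, G.Adj x y
    · -- `A 3` is empty
      obtain ⟨x, hx, y, hy, hxy⟩ := c0
      obtain ⟨z, hz, w, hw, hzw⟩ := c1
      have h3 : ∀ d, d ∉ cA G v 3 := by
        intro d hd
        have xd : G.Adj x d := (fA2b hG P (i := 3) hd hx hy hxy).symm
        have yd : G.Adj y d := (fA2b hG P (i := 3) hd hy hx hxy.symm).symm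
        have zd : G.Adj z d := fA2a hG P (i := 1) hz hw hd hzw
        have h5 : ¬ G.Adj x z := fun h => fA4t hG P (i := 0) hx hz hd h xd zd
        have h6 : ¬ G.Adj y z := fun h => fA4t hG P (i := 0) hy hz hd h yd zd
        have := fA1b hG P (i := 0) hx hy hz h5 h6
        rw [this] at hxy
        exact G.loopless.irrefl _ hxy
      refine (((pair_bound hX hG P).mono (le_max_right _ _))).subset ?_
      rintro d (hd | hd)
      · exact hd
      · exact absurd hd (h3 d)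
    · refine W.mono (hX V G (v 4) _ hG ?_) (le_max_left _ _)
      have key : ∀ x ∈ cA G v 0 ∪ cA G v 1 ∪ cA G v 3, ¬ G.Adj (v 4) x → x ∈ cA G v 1 := by
        rintro x ((hx | hx) | hx) h
        · exact absurd ((hx.2 4).2 rfl).symm h
        · exact hx
        · exact absurd ((hx.2 4).2 rfl).symm h
      intro x hx y hy _ _ h5 h6 hxy
      exact c1 ⟨x, key x hx h5, y, key y hy h6, hxy⟩
  · refine W.mono (hX V G (v 2) _ hG ?_) (le_max_left _ _)
    have key : ∀ x ∈ cA G v 0 ∪ cA G v 1 ∪ cA G v 3, ¬ G.Adj (v 2) x → x ∈ cA G v 0 := by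
      rintro x ((hx | hx) | hx) h
      · exact hx
      · exact absurd ((hx.2 2).2 rfl).symm h
      · exact absurd ((hx.2 2).2 rfl).symm h
    intro x hx y hy _ _ h5 h6 hxy
    exact c0 ⟨x, key x hx h5, y, key y hy h6, hxy⟩

theorem Aall_sh (i : Fin 5) : Aall G (sh v i) = Aall G v := by
  ext x; constructor
  · rintro ⟨j, hj⟩
    exact ⟨i + j, mA' hj⟩
  · rintro ⟨j, hj⟩
    exact ⟨j - i, mA hj (add_sub5 i j).symm⟩

def pentK (k : ℕ) : ℕ := max (addN (p1K k) 5) (addN (max k (p2K k)) 4)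

/-- Pentagon lemma -/
theorem pent_bound [Finite V] (hX : ClassX k) (hG : Cls G) (P : IsC5 G v) :
    W G (Aall G v) (pentK k) := by
  classical
  by_cases H : ∃ i, ∃ a ∈ cA G v i, ∃ a1 ∈ cA G v i, ∃ b ∈ cA G v (i + 1), ∃ b1 ∈ cA G v (i + 1),
      a ≠ a1 ∧ ¬ G.Adj a b ∧ ¬ G.Adj a1 b1
  · obtain ⟨i, a, ha, a1, ha1, b, hb, b1, hb1, hne, hab, hab1⟩ := H
    have := pent2 hX hG (P.sh i) (mA ha (idx1 i)) (mA ha1 (idx1 i)) (mA hb rfl) (mA hb1 rfl)
      hne hab hab1
    rw [Aall_sh] at this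
    exact this.mono (le_max_right _ _)
  · have hd : ∀ i, ∃ d : V, ∀ a ∈ cA G v i, ∀ b ∈ cA G v (i + 1), ¬ G.Adj a b → a = d := by
      intro i
      by_cases h : ∃ a ∈ cA G v i, ∃ b ∈ cA G v (i + 1), ¬ G.Adj a b
      · obtain ⟨a, ha, b, hb, hab⟩ := h
        refine ⟨a, fun a1 ha1 b1 hb1 hab1 => ?_⟩
        by_contra hne
        exact H ⟨i, a1, ha1, a, ha, b1, hb1, b, hb, hne, hab1, hab⟩
      · exact ⟨v 0, fun a ha b hb hab => absurd ⟨a, ha, b, hb, hab⟩ h⟩
    choose d hd using hd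
    have hcard : (Set.range d).ncard ≤ 5 := by
      have h1 : (Set.range d) = ((Finset.univ.image d : Finset V) : Set V) := by
        ext x; simp
      rw [h1, Set.ncard_coe_finset]
      exact le_trans Finset.card_image_le (by simp)
    have h1 := pent1 hX hG P (Aall G v \ Set.range d) sdiff_subset ?_
    · refine W.mono (W.subset (W.union_ncard h1 hcard) ?_) (le_max_left _ _)
      intro x hx
      by_cases h : x ∈ Set.range d
      · exact Or.inr h
      · exact Or.inl ⟨hx, h⟩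
    · intro i a ha b hb hai hbi
      by_contra hab
      exact ha.2 ⟨i, (hd i a hai b hbi hab).symm⟩

end C5case
end Pool.Agent.GemWidth
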