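import Pool.Agent.GemWidth.C5Host

set_option autoImplicit false

namespace Pool.Agent.GemWidth
namespace C5case

open Set

variable {V : Type} {G : SimpleGraph V} {v : Fin 5 → V} {i j l : Fin 5} {x y : V} {k : ℕ}

/-- special vertices of `D i`: nonadjacent to a non-isolated vertex of `A i` -/
def Spec (G : SimpleGraph V) (v : Fin 5 → V) (i : Fin 5) : Set V :=
  {c | c ∈ cC G v i ∧ ∃ a ∈ cA G v i, ¬ G.Adj a c ∧ ∃ b ∈ cA G v i, G.Adj a b}

open Classical in
noncomputable def pi4 (G : SimpleGraph V) (v : Fin 5 → V) (i : Fin 5) (x : V) : V :=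
  if h : x ∈ Spec G v i then h.2.choose else x

open Classical in
noncomputable def ty4 (G : SimpleGraph V) (v : Fin 5 → V) (i : Fin 5) (x : V) :
    Bool × Bool × Bool :=
  (decide (x ∈ Spec G v i), decide (x ∈ cA G v i), decide (∃ c ∈ cC G v i, G.Adj x c))

def specK (k : ℕ) : ℕ := (k + 1) * 8 + (comb 0 1 + 1) * 8 + (comb 0 1 + 1 + 2 ^ 8)

theorem spec_bound [Finite V] (hG : Cls G) (P : IsC5 G v) (i : Fin 5) (D : Set V)
    (hD : D ⊆ cC G v i)
    (h : W G (cZ G v ∪ cA G v i ∪ (D \ Spec G v i)) k) :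
    W G (cZ G v ∪ cA G v i ∪ D) (specK k) := by
  classical
  have hmem : ∀ x ∈ cZ G v ∪ cA G v i ∪ D, x ∉ Spec G v i →
      x ∈ cZ G v ∪ cA G v i ∪ (D \ Spec G v i) := by
    rintro x ((hx | hx) | hx) h
    · exact Or.inl (Or.inl hx)
    · exact Or.inl (Or.inr hx)
    · exact Or.inr ⟨hx, h⟩
  have pself : ∀ x, x ∉ Spec G v i → pi4 G v i x = x := by
    intro x hx
    unfold pi4
    rw [dif_neg hx]
  have pspec : ∀ x ∈ Spec G v i, pi4 G v i x ∈ cA G v i ∧ ¬ G.Adj (pi4 G v i x) x ∧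
      ∃ b ∈ cA G v i, G.Adj (pi4 G v i x) b := by
    intro x hx
    unfold pi4
    rw [dif_pos hx]
    exact hx.2.choose_spec
  refine W.subst_label (H := G) (X := cZ G v ∪ cA G v i ∪ (D \ Spec G v i)) (k := k)
    (n := comb 0 1) (m := 8) (pi4 G v i) (ty4 G v i) (by simp) h ?_ ?_ ?_
  · intro x hx
    by_cases hs : x ∈ Spec G v i
    · exact Or.inl (Or.inr (pspec x hs).1)
    · rw [pself x hs]; exact hmem x hx hs
  · intro x hx
    refine W.pair_le (x := x) ?_
    rintro y ⟨⟨hy, hpy⟩, hyx⟩ z ⟨⟨hz, hpz⟩, hzx⟩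
    have key : ∀ y, pi4 G v i y = x → y ≠ x → y ∈ cC G v i ∧ ¬ G.Adj x y ∧ x ∈ cA G v i := by
      intro y hpy hne
      by_cases hs : y ∈ Spec G v i
      · have := pspec y hs
        rw [hpy] at this
        exact ⟨hs.1, this.2.1, this.1⟩
      · rw [pself y hs] at hpy
        exact absurd hpy hne
    obtain ⟨h1, h2, h3⟩ := key y hpy hyx
    obtain ⟨h4, h5, _⟩ := key z hpz hzx
    exact fAC0a hG P h3 h1 h4 h2 h5
  · -- facts about special vertices
    have sZ : ∀ x ∈ Spec G v i, ∀ z ∈ cZ G v, ¬ G.Adj x z := by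
      intro x hx z hz hxz
      obtain ⟨a, ha, hax, b, hb, hab⟩ := hx.2
      exact C11 hG (P.sh i) (mA ha (idx1 i)) (mA hb (idx1 i)) (mC hx.1 (idx1 i)) (mZ hz) hab hax hxz
    -- neighbours of special vertices
    have sC : ∀ x ∈ Spec G v i, ∀ y ∈ cC G v i, G.Adj x y →
        ∀ b ∈ cA G v i, G.Adj (pi4 G v i x) b → ¬ G.Adj b y := by
      intro x hx y hy hxy b hb hab hby
      obtain ⟨ha, hax, _⟩ := pspec x hx
      have hbx : G.Adj b x := by
        by_contra h
        have := fAC0b hG P ha hb hx.1 hax h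
        rw [← this] at hab
        exact G.loopless.irrefl _ hab
      exact C10 hG (P.sh i) (mA ha (idx1 i)) (mA hb (idx1 i)) (mC hx.1 (idx1 i)) (mC hy (idx1 i))
        hab hax hbx hxy hby
    have sA : ∀ x ∈ Spec G v i, ∀ y ∈ cA G v i, pi4 G v i x ≠ pi4 G v i y → G.Adj x y := by
      intro x hx y hy hne
      by_contra hxy
      obtain ⟨ha, hax, _⟩ := pspec x hx
      have hys : y ∉ Spec G v i := fun h => AC_disj hy h.1
      rw [pself y hys] at hne
      exact hne (fAC0b hG P ha hy hx.1 hax (ns hxy))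
    have sD : ∀ x ∈ Spec G v i, ∀ y ∈ cC G v i, y ∉ Spec G v i → ¬ G.Adj x y := by
      intro x hx y hy hys hxy
      obtain ⟨ha, hax, b, hb, hab⟩ := pspec x hx
      exact hys ⟨hy, b, hb, sC x hx y hy hxy b hb hab, _, ha, hab.symm⟩
    have sS : ∀ x ∈ Spec G v i, ∀ y ∈ Spec G v i, (G.Adj x y ↔
        ((∃ c ∈ cC G v i, G.Adj x c) ∧ (∃ c ∈ cC G v i, G.Adj y c) ∧
          G.Adj (pi4 G v i x) (pi4 G v i y))) := by
      intro x hx y hy
      constructor
      · intro hxy
        refine ⟨⟨y, hy.1, hxy⟩, ⟨x, hx.1, hxy.symm⟩, ?_⟩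
        obtain ⟨ha, hax, b, hb, hab⟩ := pspec x hx
        obtain ⟨ha', hay, _⟩ := pspec y hy
        have h1 := sC x hx y hy.1 hxy b hb hab
        have : b = pi4 G v i y := fAC0b hG P hb ha' hy.1 h1 hay
        rw [← this]; exact hab
      · rintro ⟨⟨c, hc, hxc⟩, _, h1⟩
        obtain ⟨ha, hax, _⟩ := pspec x hx
        obtain ⟨ha', hay, _⟩ := pspec y hy
        have h2 := sC x hx c hc hxc _ ha' h1
        have : c = y := fAC0a hG P ha' hc hy.1 h2 hay
        rw [← this]; exact hxc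
    intro a ha a' ha' b hb h1 h2 e h3
    simp only [ty4, Prod.mk.injEq, decide_eq_decide] at e
    obtain ⟨e1, e2, e3⟩ := e
    by_cases hbs : b ∈ Spec G v i
    · by_cases has : a ∈ Spec G v i
      · rw [sS a has b hbs, sS a' (e1.1 has) b hbs, e3, h3]
      · have has' : a' ∉ Spec G v i := fun h => has (e1.2 h)
        by_cases haA : a ∈ cA G v i
        · exact iff_of_true (sA b hbs a haA h1.symm).symm (sA b hbs a' (e2.1 haA) h2.symm).symm
        · have haA' : a' ∉ cA G v i := fun h => haA (e2.2 h)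
          have key : ∀ x ∈ cZ G v ∪ cA G v i ∪ D, x ∉ Spec G v i → x ∉ cA G v i →
              ¬ G.Adj x b := by
            rintro x ((hx | hx) | hx) h4 h5
            · exact ns (sZ b hbs x hx)
            · exact absurd hx h5
            · exact ns (sD b hbs x (hD hx) h4)
          exact iff_of_false (key a ha has haA) (key a' ha' has' haA')
    · by_cases has : a ∈ Spec G v i
      · have has' := e1.1 has
        rcases hb with (hb | hb) | hb
        · exact iff_of_false (sZ a has b hb) (sZ a' has' b hb)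
        · exact iff_of_true (sA a has b hb h1) (sA a' has' b hb h2)
        · exact iff_of_false (sD a has b (hD hb) hbs) (sD a' has' b (hD hb) hbs)
      · have has' : a' ∉ Spec G v i := fun h => has (e1.2 h)
        rwa [pself a has, pself b hbs, pself a' has'] at h3

/-- if there is a special vertex then all other classes are empty -/
theorem spec_empty (hG : Cls G) (P : IsC5 G v) {c c1 : V} (hc : c ∈ Spec G v i)
    (hc1 : c1 ∈ cC G v i) (hne : c ≠ c1) (hij : i ≠ j) :
    (∀ x, x ∉ cA G v j) ∧ ∀ x, x ∉ cC G v j := by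
  obtain ⟨hcC, a, ha, hac, b, hb, hab⟩ := hc
  constructor
  · intro x hx
    have h1 := fexc hG P ha hcC hc1 hne hac hx hij
    rcases five i j with e | e | e | e | e
    · exact hij e.symm
    · exact C6a hG (P.sh i) (mA ha (idx1 i)) (mA hx e) (mC hcC (idx1 i)) hac
    · exact h1 (fA2a hG P ha hb (e ▸ hx) hab)
    · exact h1 (fA2b hG P hx (e ▸ ha) (e ▸ hb) hab).symm
    · have e' : j = i + 4 := by rw [e]; clear * -; revert j; decide
      exact C6b hG (P.sh i) (mA ha (idx1 i)) (mA hx e') (mC hcC (idx1 i)) hac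
  · intro x hx
    rcases five i j with e | e | e | e | e
    · exact hij e.symm
    · exact CC1two hG (P.sh i) (mC hcC (idx1 i)) (mC hc1 (idx1 i)) (mC hx e) hne
    · by_cases hax : G.Adj a x
      · exact C13a hG (P.sh i) (mA ha (idx1 i)) (mC hcC (idx1 i)) (mC hx e) hac hax
      · exact C12a hG (P.sh i) (mA ha (idx1 i)) (mA hb (idx1 i)) (mC hx e) hab hax
    · have e' : j = i + 3 := by rw [e]; clear * -; revert j; decide
      by_cases hax : G.Adj a x
      · exact C13b hG (P.sh i) (mA ha (idx1 i)) (mC hcC (idx1 i)) (mC hx e') hac hax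
      · exact C12b hG (P.sh i) (mA ha (idx1 i)) (mA hb (idx1 i)) (mC hx e') hab hax
    · have e' : j = i + 4 := by rw [e]; clear * -; revert j; decide
      exact CC4two hG (P.sh i) (mC hcC (idx1 i)) (mC hc1 (idx1 i)) (mC hx e') hne

def noBK (k : ℕ) : ℕ := max (hostK k) (specK (hostK k))

/-- everything except the classes `B`, `S`, `E` and small `C` -/
theorem noB_bound [Finite V] (hX : ClassX k) (hG : Cls G) (P : IsC5 G v) (D : Fin 5 → Set V)
    (hD : ∀ i, D i ⊆ cC G v i) (hD1 : D 1 = ∅) (hD4 : D 4 = ∅)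
    (hD2 : ∀ i, ∀ c ∈ D i, ∃ c1 ∈ cC G v i, c ≠ c1) :
    W G (cZ G v ∪ Aall G v ∪ ⋃ i, D i) (noBK k) := by
  have h1 : W G (cZ G v ∪ Aall G v ∪ ⋃ i, (D i \ Spec G v i)) (hostK k) := by
    refine host_bound hX hG P (fun i => D i \ Spec G v i) (fun i x hx => hD i hx.1) ?_ ?_ ?_ ?_
    · simp only [hD1, empty_sdiff]
    · simp only [hD4, empty_sdiff]
    · intro i c hc
      exact hD2 i c hc.1
    · intro i a ha c hc hac b hb hab
      exact hc.2 ⟨hD i hc.1, a, ha, hac, b, hb, hab⟩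
  by_cases hS : ∃ i, ∃ c ∈ D i, c ∈ Spec G v i
  · obtain ⟨i, c, hcD, hc⟩ := hS
    obtain ⟨c1, hc1, hne⟩ := hD2 i c hcD
    have hA : Aall G v = cA G v i := by
      ext x; constructor
      · rintro ⟨j, hj⟩
        by_cases hij : i = j
        · rw [hij]; exact hj
        · exact absurd hj ((spec_empty hG P hc hc1 hne hij).1 x)
      · intro hx; exact ⟨i, hx⟩
    have hU : ∀ E : Fin 5 → Set V, (∀ j, E j ⊆ cC G v j) → (⋃ j, E j) = E i := by
      intro E hE
      ext x; constructor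
      · intro hx
        obtain ⟨j, hj⟩ := mem_iUnion.1 hx
        by_cases hij : i = j
        · rw [hij]; exact hj
        · exact absurd (hE j hj) ((spec_empty hG P hc hc1 hne hij).2 x)
      · intro hx; exact mem_iUnion.2 ⟨i, hx⟩
    rw [hA, hU D hD]
    rw [hA, hU _ (fun j x hx => hD j hx.1)] at h1
    exact (spec_bound hG P i (D i) (hD i) h1).mono (le_max_right _ _)
  · refine (h1.mono (le_max_left _ _)).subset ?_
    rintro x (hx | hx)
    · exact Or.inl hx
    · obtain ⟨j, hj⟩ := mem_iUnion.1 hx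
      exact Or.inr (mem_iUnion.2 ⟨j, hj, fun h => hS ⟨j, x, hj, h⟩⟩)

end C5case
end Pool.Agent.GemWidth
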