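import Pool.Agent.GemWidth.Cls

set_option autoImplicit false

namespace Pool.Agent.GemWidth

open Set

/-- statement of T3 -/
def NoTwoP2Stmt : Prop := ∃ k : ℕ, ∀ (V : Type) [Finite V] (G : SimpleGraph V) (R : Set V),
    Cls G → NoC5 G →
    (∀ a ∈ R, ∀ b ∈ R, ∀ c ∈ R, ∀ d ∈ R, G.Adj a b → G.Adj c d → ¬ G.Adj a c → ¬ G.Adj a d →
      ¬ G.Adj b c → ¬ G.Adj b d → False) → W G R k

/-- statement of T4.1 -/
def TwoCompsStmt : Prop :=
  ∃ k : ℕ, ∀ (V : Type) [Finite V] (G : SimpleGraph V) (Q0 Q1 F Z : Set V),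
    Cls G → NoC5 G → Disjoint Q0 Q1 → Disjoint (Q0 ∪ Q1) F → Disjoint (Q0 ∪ Q1) Z → Disjoint F Z →
    2 ≤ Q0.ncard → 2 ≤ Q1.ncard →
    (∀ a ∈ Q0, ∀ b ∈ Q0, a ≠ b → G.Adj a b) → (∀ a ∈ Q1, ∀ b ∈ Q1, a ≠ b → G.Adj a b) →
    (∀ a ∈ Q0, ∀ b ∈ Q1, ¬ G.Adj a b) →
    Indep G Z → (∀ z ∈ Z, ∀ x ∈ Q0 ∪ Q1, ¬ G.Adj z x) →
    (∀ f ∈ F, ∃ x ∈ Q0, G.Adj f x) → (∀ f ∈ F, ∃ x ∈ Q1, G.Adj f x) →
    W G (Q0 ∪ Q1 ∪ F ∪ Z) k

/-- statement of T4.2 -/
def ManyCompsStmt : Prop :=
  ∃ k : ℕ, ∀ (V : Type) [Finite V] (G : SimpleGraph V) (S F Z : Set V) (π : V → ℕ),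
    Cls G → NoC5 G → Disjoint S F → Disjoint S Z → Disjoint F Z →
    (∀ a ∈ S, ∀ b ∈ S, a ≠ b → (G.Adj a b ↔ π a = π b)) →
    (∀ a ∈ S, ∃ b ∈ S, a ≠ b ∧ π a = π b) →
    (∃ a ∈ S, ∃ b ∈ S, ∃ c ∈ S, π a ≠ π b ∧ π a ≠ π c ∧ π b ≠ π c) →
    Indep G Z → (∀ z ∈ Z, ∀ x ∈ S, ¬ G.Adj z x) →
    (∀ f ∈ F, ∀ a ∈ S, ∃ x ∈ S, π x = π a ∧ G.Adj f x) →
    W G (S ∪ F ∪ Z) k

/-- component labelling of a `P3`-free set -/
theorem exists_label {V : Type} [Finite V] (G : SimpleGraph V) (S : Set V) (hP : P3Free G S) :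
    ∃ π : V → ℕ, ∀ a ∈ S, ∀ b ∈ S, a ≠ b → (G.Adj a b ↔ π a = π b) := by
  classical
  obtain ⟨n, ⟨e⟩⟩ := Finite.exists_equiv_fin V
  let T : V → Set ℕ := fun v => {i | ∃ w ∈ S, (w = v ∨ G.Adj v w) ∧ i = (e w : ℕ)}
  refine ⟨fun v => sInf (T v), ?_⟩
  intro a ha b hb hab
  have hne : ∀ v ∈ S, (T v).Nonempty := fun v hv => ⟨_, v, hv, Or.inl rfl, rfl⟩
  constructor
  · intro h
    have key : ∀ a ∈ S, ∀ b ∈ S, G.Adj a b → T a ⊆ T b := by
      intro a ha b hb h i ⟨w, hw, h1, h2⟩
      refine ⟨w, hw, ?_, h2⟩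
      rcases h1 with rfl | h1
      · exact Or.inr h.symm
      · by_cases hwb : w = b
        · exact Or.inl hwb
        · exact Or.inr (hP b hb a ha w hw h.symm h1 (Ne.symm hwb))
    have : T a = T b := Subset.antisymm (key a ha b hb h) (key b hb a ha h.symm)
    simp only [this]
  · intro h
    obtain ⟨w, hw, h1, h2⟩ := Nat.sInf_mem (hne a ha)
    obtain ⟨w', hw', h1', h2'⟩ := Nat.sInf_mem (hne b hb)
    have hww : w = w' := by
      apply e.injective
      apply Fin.ext
      rw [← h2, ← h2']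
      exact h
    subst hww
    rcases h1 with rfl | h1
    · rcases h1' with rfl | h1'
      · exact absurd rfl hab
      · exact h1'.symm
    · rcases h1' with rfl | h1'
      · exact h1
      · exact hP a ha w hw b hb h1 h1'.symm hab

/-- the C5-free case from its three subcases -/
theorem c5free_of (h3 : NoTwoP2Stmt) (h41 : TwoCompsStmt) (h42 : ManyCompsStmt) :
    ∃ k : ℕ, ∀ (V : Type) [Finite V] (G : SimpleGraph V),
      Cls G → NoC5 G → W G Set.univ k := by
  classical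
  obtain ⟨k1, hk1⟩ := h3
  obtain ⟨k2, hk2⟩ := h41
  obtain ⟨k3, hk3⟩ := h42
  refine ⟨max k1 (max k2 k3), ?_⟩
  intro V _ G hC hN
  by_cases h2 : ∃ a b c d, G.Adj a b ∧ G.Adj c d ∧ ¬ G.Adj a c ∧ ¬ G.Adj a d ∧
      ¬ G.Adj b c ∧ ¬ G.Adj b d
  swap
  · refine (hk1 V G Set.univ hC hN ?_).mono (le_max_left _ _)
    intro a _ b _ c _ d _ e1 e2 e3 e4 e5 e6
    exact h2 ⟨a, b, c, d, e1, e2, e3, e4, e5, e6⟩
  obtain ⟨a, b, c, d, hab, hcd, hac, had, hbc, hbd⟩ := h2
  -- the maximal set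
  let P : Set V → Prop := fun S => P3Free G S ∧ (∀ x ∈ S, ∃ y ∈ S, G.Adj x y)
  have hP0 : P {a, b, c, d} := by
    constructor
    · intro x hx y hy z hz h1 h2 h3
      simp only [mem_insert_iff, mem_singleton_iff] at hx hy hz
      have hca := nadj_symm hac
      have hda := nadj_symm had
      have hcb := nadj_symm hbc
      have hdb := nadj_symm hbd
      rcases hx with rfl | rfl | rfl | rfl <;> rcases hy with rfl | rfl | rfl | rfl <;>
        rcases hz with rfl | rfl | rfl | rfl <;>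
        first
          | exact absurd rfl h3
          | exact absurd h1 (G.loopless.irrefl _)
          | exact absurd h2 (G.loopless.irrefl _)
          | contradiction
    · intro x hx
      simp only [mem_insert_iff, mem_singleton_iff] at hx
      rcases hx with rfl | rfl | rfl | rfl
      · exact ⟨b, by simp, hab⟩
      · exact ⟨a, by simp, hab.symm⟩
      · exact ⟨d, by simp, hcd⟩
      · exact ⟨c, by simp, hcd.symm⟩
  obtain ⟨S, hS0, hSmax⟩ := (Set.toFinite {S : Set V | P S}).exists_le_maximal hP0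
  have hPS : P S := hSmax.prop
  have hmax : ∀ T, P T → S ⊆ T → T ⊆ S := fun T hT hST => hSmax.le_of_ge hT hST
  obtain ⟨hP3, hiso⟩ := hPS
  have haS : a ∈ S := hS0 (by simp)
  have hbS : b ∈ S := hS0 (by simp)
  have hcS : c ∈ S := hS0 (by simp)
  have hdS : d ∈ S := hS0 (by simp)
  set Z : Set V := {v | v ∉ S ∧ ∀ s ∈ S, ¬ G.Adj v s} with hZ
  set F : Set V := {v | v ∉ S ∧ ∃ s ∈ S, G.Adj v s} with hF
  have hSF : Disjoint S F := Set.disjoint_left.2 fun x hx hx' => hx'.1 hx
  have hSZ : Disjoint S Z := Set.disjoint_left.2 fun x hx hx' => hx'.1 hx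
  have hFZ : Disjoint F Z := Set.disjoint_left.2 fun x hx hx' => by
    obtain ⟨s, hs, h⟩ := hx.2
    exact hx'.2 s hs h
  have huniv : S ∪ F ∪ Z = Set.univ := by
    apply Set.eq_univ_of_forall
    intro x
    by_cases h1 : x ∈ S
    · exact Or.inl (Or.inl h1)
    · by_cases h2 : ∃ s ∈ S, G.Adj x s
      · exact Or.inl (Or.inr ⟨h1, h2⟩)
      · push Not at h2
        exact Or.inr ⟨h1, h2⟩
  -- Z independent
  have hZind : Indep G Z := by
    intro z hz z' hz' hzz
    have hT : P (S ∪ {z, z'}) := by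
      constructor
      · intro x hx y hy w hw h1 h2 h3
        have aux : ∀ x ∈ S ∪ {z, z'}, ∀ y ∈ S ∪ {z, z'}, G.Adj x y →
            (x ∈ S ∧ y ∈ S) ∨ (x = z ∧ y = z') ∨ (x = z' ∧ y = z) := by
          intro x1 hx1 y1 hy1 h
          rcases hx1 with hx1 | hx1
          · rcases hy1 with hy1 | hy1
            · exact Or.inl ⟨hx1, hy1⟩
            · rcases hy1 with e | e
              · rw [e] at h; exact absurd h.symm (hz.2 x1 hx1)
              · rw [mem_singleton_iff] at e; rw [e] at h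
                exact absurd h.symm (hz'.2 x1 hx1)
          · rcases hx1 with e | e
            · rcases hy1 with hy1 | hy1
              · rw [e] at h; exact absurd h (hz.2 y1 hy1)
              · rcases hy1 with e' | e'
                · rw [e, e'] at h; exact absurd h (G.loopless.irrefl _)
                · exact Or.inr (Or.inl ⟨e, e'⟩)
            · rw [mem_singleton_iff] at e
              rcases hy1 with hy1 | hy1
              · rw [e] at h; exact absurd h (hz'.2 y1 hy1)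
              · rcases hy1 with e' | e'
                · exact Or.inr (Or.inr ⟨e, e'⟩)
                · rw [mem_singleton_iff] at e'
                  rw [e, e'] at h; exact absurd h (G.loopless.irrefl _)
        have hzz' : z ≠ z' := G.ne_of_adj hzz
        rcases aux x hx y hy h1 with ⟨e1, e2⟩ | ⟨e1, e2⟩ | ⟨e1, e2⟩
        · rcases aux y hy w hw h2 with ⟨e3, e4⟩ | ⟨e3, e4⟩ | ⟨e3, e4⟩
          · exact hP3 x e1 y e2 w e4 h1 h2 h3
          · subst e3; exact absurd e2 hz.1
          · subst e3; exact absurd e2 hz'.1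
        · rcases aux y hy w hw h2 with ⟨e3, e4⟩ | ⟨e3, e4⟩ | ⟨e3, e4⟩
          · subst e2; exact absurd e3 hz'.1
          · exact absurd (e3.symm.trans e2) hzz'
          · exact absurd (e1.trans e4.symm) h3
        · rcases aux y hy w hw h2 with ⟨e3, e4⟩ | ⟨e3, e4⟩ | ⟨e3, e4⟩
          · subst e2; exact absurd e3 hz.1
          · exact absurd (e1.trans e4.symm) h3
          · exact absurd (e2.symm.trans e3) hzz'
      · intro x hx
        rcases hx with hx | hx
        · obtain ⟨y, hy, h⟩ := hiso x hx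
          exact ⟨y, Or.inl hy, h⟩
        · rcases hx with rfl | hx
          · exact ⟨z', Or.inr (by simp), hzz⟩
          · rw [mem_singleton_iff] at hx; subst hx
            exact ⟨z, Or.inr (by simp), hzz.symm⟩
    exact hz.1 (hmax _ hT subset_union_left (Or.inr (by simp)))
  -- labelling
  obtain ⟨π, hπ⟩ := exists_label G S hP3
  have hπ2 : ∀ x ∈ S, ∃ y ∈ S, x ≠ y ∧ π x = π y := by
    intro x hx
    obtain ⟨y, hy, h⟩ := hiso x hx
    have hne := G.ne_of_adj h
    exact ⟨y, hy, hne, (hπ x hx y hy hne).1 h⟩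
  have hadj_pi : ∀ x ∈ S, ∀ y ∈ S, G.Adj x y → π x = π y := fun x hx y hy h =>
    (hπ x hx y hy (G.ne_of_adj h)).1 h
  -- F touches every component
  have hFt : ∀ f ∈ F, ∀ q ∈ S, ∃ x ∈ S, π x = π q ∧ G.Adj f x := by
    intro f hf q hq
    by_contra hcon
    push Not at hcon
    obtain ⟨q', hq', hqq'⟩ := hiso q hq
    have hpq' : π q = π q' := hadj_pi q hq q' hq' hqq'
    have hfq : ¬ G.Adj f q := hcon q hq rfl
    have hfq' : ¬ G.Adj f q' := hcon q' hq' hpq'.symm
    -- no edges between q-component and others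
    have hfar : ∀ x ∈ S, π x ≠ π q → ¬ G.Adj q x ∧ ¬ G.Adj q' x := by
      intro x hx hxq
      exact ⟨fun h => hxq (hadj_pi q hq x hx h).symm,
        fun h => hxq ((hadj_pi q' hq' x hx h).symm.trans hpq'.symm)⟩
    have hfull : ∀ x ∈ S, G.Adj f x → ∀ x' ∈ S, π x' = π x → G.Adj f x' := by
      intro x hx hfx x' hx' hxx
      by_contra hfx'
      have hne : x ≠ x' := fun h => hfx' (h ▸ hfx)
      have hxq : π x ≠ π q := fun h => hcon x hx h hfx
      have h1 := hfar x hx hxq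
      have h2 := hfar x' hx' (hxx ▸ hxq)
      have hadj : G.Adj x x' := (hπ x hx x' hx' hne).2 hxx.symm
      have hne2 : f ≠ x' := fun h => hf.1 (h ▸ hx')
      exact hC.p23 q q' f x x' hqq' hfx hadj hne2 hfx' (nadj_symm hfq) h1.1 h2.1
        (nadj_symm hfq') h1.2 h2.2
    have hone : ∀ x ∈ S, G.Adj f x → ∀ x' ∈ S, G.Adj f x' → π x = π x' := by
      intro x hx hfx x' hx' hfx'
      by_contra hne
      have hxq : π x ≠ π q := fun h => hcon x hx h hfx
      have hxq' : π x' ≠ π q := fun h => hcon x' hx' h hfx'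
      have h1 := hfar x hx hxq
      have h2 := hfar x' hx' hxq'
      have hne' : x ≠ x' := fun h => hne (by rw [h])
      have hnadj : ¬ G.Adj x x' := fun h => hne (hadj_pi x hx x' hx' h)
      exact hC.p23 q q' x f x' hqq' hfx.symm hfx' hne' hnadj h1.1 (nadj_symm hfq) h2.1
        h1.2 (nadj_symm hfq') h2.2
    obtain ⟨s, hs, hfs⟩ := hf.2
    have hT : P (insert f S) := by
      constructor
      · intro x hx y hy w hw h1 h2 h3
        rcases hx with rfl | hx
        · rcases hy with rfl | hy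
          · exact absurd h1 (G.loopless.irrefl _)
          · rcases hw with rfl | hw
            · exact absurd rfl h3
            · exact hfull y hy h1 w hw (hadj_pi y hy w hw h2).symm
        · rcases hy with rfl | hy
          · rcases hw with rfl | hw
            · exact absurd h2 (G.loopless.irrefl _)
            · exact (hπ x hx w hw h3).2 (hone x hx h1.symm w hw h2)
          · rcases hw with rfl | hw
            · exact (hfull y hy h2.symm x hx (hadj_pi x hx y hy h1)).symm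
            · exact hP3 x hx y hy w hw h1 h2 h3
      · intro x hx
        rcases hx with rfl | hx
        · exact ⟨s, Or.inr hs, hfs⟩
        · obtain ⟨y, hy, h⟩ := hiso x hx
          exact ⟨y, Or.inr hy, h⟩
    exact hf.1 (hmax _ hT (subset_insert _ _) (mem_insert _ _))
  have hZS : ∀ z ∈ Z, ∀ x ∈ S, ¬ G.Adj z x := fun z hz x hx => hz.2 x hx
  by_cases h3 : ∃ a ∈ S, ∃ b ∈ S, ∃ c ∈ S, π a ≠ π b ∧ π a ≠ π c ∧ π b ≠ π c
  · have := hk3 V G S F Z π hC hN hSF hSZ hFZ hπ hπ2 h3 hZind hZS hFt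
    rw [huniv] at this
    exact this.mono (le_trans (le_max_right _ _) (le_max_right _ _))
  · -- exactly two components
    have hac' : π a ≠ π c := by
      intro h
      have hne : a ≠ c := fun e => had (e ▸ hcd)
      exact hac ((hπ a haS c hcS hne).2 h)
    have htwo : ∀ x ∈ S, π x = π a ∨ π x = π c := by
      intro x hx
      by_contra hcon
      push Not at hcon
      exact h3 ⟨a, haS, c, hcS, x, hx, hac', Ne.symm hcon.1, Ne.symm hcon.2⟩
    set Q0 : Set V := {x | x ∈ S ∧ π x = π a} with hQ0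
    set Q1 : Set V := {x | x ∈ S ∧ π x = π c} with hQ1
    have hSQ : Q0 ∪ Q1 = S := by
      ext x
      constructor
      · rintro (h | h)
        · exact h.1
        · exact h.1
      · intro hx
        rcases htwo x hx with h | h
        · exact Or.inl ⟨hx, h⟩
        · exact Or.inr ⟨hx, h⟩
    have hcl : ∀ t, ∀ x ∈ {x | x ∈ S ∧ π x = t}, ∀ y ∈ {x | x ∈ S ∧ π x = t}, x ≠ y → G.Adj x y := by
      intro t x hx y hy hxy
      exact (hπ x hx.1 y hy.1 hxy).2 (hx.2.trans hy.2.symm)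
    have hcard : ∀ x ∈ S, 2 ≤ ({y | y ∈ S ∧ π y = π x} : Set V).ncard := by
      intro x hx
      obtain ⟨y, hy, hne, hxy⟩ := hπ2 x hx
      have : ({x, y} : Set V) ⊆ {y | y ∈ S ∧ π y = π x} := by
        rintro w (rfl | hw)
        · exact ⟨hx, rfl⟩
        · rw [mem_singleton_iff] at hw; subst hw
          exact ⟨hy, hxy.symm⟩
      calc 2 = ({x, y} : Set V).ncard := (Set.ncard_pair hne).symm
        _ ≤ _ := Set.ncard_le_ncard this (Set.toFinite _)
    have := hk2 V G Q0 Q1 F Z hC hN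
      (Set.disjoint_left.2 fun x hx hx' => hac' (hx.2.symm.trans hx'.2))
      (by rw [hSQ]; exact hSF) (by rw [hSQ]; exact hSZ) hFZ
      (hcard a haS) (hcard c hcS) (hcl _) (hcl _)
      (fun x hx y hy h => hac' (hx.2.symm.trans ((hadj_pi x hx.1 y hy.1 h).trans hy.2)))
      hZind (by rw [hSQ]; exact hZS)
      (fun f hf => by
        obtain ⟨x, hx, h1, h2⟩ := hFt f hf a haS
        exact ⟨x, ⟨hx, h1⟩, h2⟩)
      (fun f hf => by
        obtain ⟨x, hx, h1, h2⟩ := hFt f hf c hcS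
        exact ⟨x, ⟨hx, h1⟩, h2⟩)
    rw [hSQ, huniv] at this
    exact this.mono (le_trans (le_max_left _ _) (le_max_right _ _))

end Pool.Agent.GemWidth
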