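import Pool.Agent.GemWidth.Ops2

set_option autoImplicit false

namespace Pool.Agent.GemWidth

open Set

variable {V : Type*} {G : SimpleGraph V}

/-- no induced path on four vertices inside `C` -/
def P4Free (G : SimpleGraph V) (C : Set V) : Prop :=
  ∀ a ∈ C, ∀ b ∈ C, ∀ c ∈ C, ∀ d ∈ C, G.Adj a b → G.Adj b c → G.Adj c d → ¬ G.Adj a c →
    ¬ G.Adj a d → ¬ G.Adj b d → False

theorem P4Free.mono {S T : Set V} (h : P4Free G T) (hST : S ⊆ T) : P4Free G S :=
  fun a ha b hb c hc d hd => h a (hST ha) b (hST hb) c (hST hc) d (hST hd)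

/-- a partition into two nonempty parts, complete or anticomplete to each other -/
def Parts (G : SimpleGraph V) (C : Set V) : Prop :=
  ∃ A B : Set V, A.Nonempty ∧ B.Nonempty ∧ Disjoint A B ∧ A ∪ B = C ∧
    ((∀ a ∈ A, ∀ b ∈ B, G.Adj a b) ∨ (∀ a ∈ A, ∀ b ∈ B, ¬ G.Adj a b))

theorem parts_step_anti {A B : Set V} {v : V} (hP : P4Free G (insert v (A ∪ B)))
    (hvA : v ∉ A) (hvB : v ∉ B) (hd : Disjoint A B) (hanti : ∀ a ∈ A, ∀ b ∈ B, ¬ G.Adj a b)
    {x w : V} (hx : x ∈ A) (hvx : ¬ G.Adj v x) (hw : w ∈ B) (hvw : G.Adj v w) :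
    Parts G (insert v (A ∪ B)) := by
  classical
  by_cases hbad : ∃ a0 ∈ A, ∃ a1 ∈ A, ¬ G.Adj v a0 ∧ G.Adj v a1 ∧ G.Adj a0 a1
  · obtain ⟨a0, h0, a1, h1, n0, e1, e01⟩ := hbad
    exact (hP a0 (Or.inr (Or.inl h0)) a1 (Or.inr (Or.inl h1)) v (Or.inl rfl) w
      (Or.inr (Or.inr hw)) e01 e1.symm hvw (fun h => n0 h.symm) (hanti a0 h0 w hw)
      (hanti a1 h1 w hw)).elim
  · push Not at hbad
    refine ⟨{a | a ∈ A ∧ ¬ G.Adj v a}, {a | a ∈ A ∧ G.Adj v a} ∪ B ∪ {v}, ⟨x, hx, hvx⟩,
      ⟨v, Or.inr rfl⟩, ?_, ?_, Or.inr ?_⟩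
    · rw [disjoint_left]
      rintro a ⟨haA, hna⟩ ((⟨_, h⟩ | h) | h)
      · exact hna h
      · exact (disjoint_left.1 hd) haA h
      · exact hvA (h ▸ haA)
    · ext a; constructor
      · rintro (⟨h, _⟩ | (⟨h, _⟩ | h) | h)
        · exact Or.inr (Or.inl h)
        · exact Or.inr (Or.inl h)
        · exact Or.inr (Or.inr h)
        · exact Or.inl h
      · rintro (h | h | h)
        · exact Or.inr (Or.inr h)
        · by_cases h' : G.Adj v a
          · exact Or.inr (Or.inl (Or.inl ⟨h, h'⟩))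
          · exact Or.inl ⟨h, h'⟩
        · exact Or.inr (Or.inl (Or.inr h))
    · rintro a ⟨haA, hna⟩ b ((⟨hbA, hb⟩ | hb) | hb) hab
      · exact hbad a haA b hbA hna hb hab
      · exact hanti a haA b hb hab
      · rw [mem_singleton_iff] at hb
        subst hb; exact hna hab.symm

theorem parts_step_compl {A B : Set V} {v : V} (hP : P4Free G (insert v (A ∪ B)))
    (hvA : v ∉ A) (hvB : v ∉ B) (hd : Disjoint A B) (hc : ∀ a ∈ A, ∀ b ∈ B, G.Adj a b)
    {x w : V} (hx : x ∈ A) (hvx : G.Adj v x) (hw : w ∈ B) (hvw : ¬ G.Adj v w) :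
    Parts G (insert v (A ∪ B)) := by
  classical
  by_cases hbad : ∃ a0 ∈ A, ∃ a1 ∈ A, G.Adj v a0 ∧ ¬ G.Adj v a1 ∧ ¬ G.Adj a0 a1
  · obtain ⟨a0, h0, a1, h1, n0, e1, e01⟩ := hbad
    exact (hP v (Or.inl rfl) a0 (Or.inr (Or.inl h0)) w (Or.inr (Or.inr hw)) a1
      (Or.inr (Or.inl h1)) n0 (hc a0 h0 w hw) (hc a1 h1 w hw).symm hvw e1 e01).elim
  · push Not at hbad
    refine ⟨{a | a ∈ A ∧ G.Adj v a}, {a | a ∈ A ∧ ¬ G.Adj v a} ∪ B ∪ {v}, ⟨x, hx, hvx⟩,
      ⟨v, Or.inr rfl⟩, ?_, ?_, Or.inl ?_⟩
    · rw [disjoint_left]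
      rintro a ⟨haA, hna⟩ ((⟨_, h⟩ | h) | h)
      · exact h hna
      · exact (disjoint_left.1 hd) haA h
      · exact hvA (h ▸ haA)
    · ext a; constructor
      · rintro (⟨h, _⟩ | (⟨h, _⟩ | h) | h)
        · exact Or.inr (Or.inl h)
        · exact Or.inr (Or.inl h)
        · exact Or.inr (Or.inr h)
        · exact Or.inl h
      · rintro (h | h | h)
        · exact Or.inr (Or.inr h)
        · by_cases h' : G.Adj v a
          · exact Or.inl ⟨h, h'⟩
          · exact Or.inr (Or.inl (Or.inl ⟨h, h'⟩))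
        · exact Or.inr (Or.inl (Or.inr h))
    · rintro a ⟨haA, hna⟩ b ((⟨hbA, hb⟩ | hb) | hb)
      · exact hbad a haA b hbA hna hb
      · exact hc a haA b hb
      · rw [mem_singleton_iff] at hb
        subst hb; exact hna.symm

/-- cographs: every set with at least two elements has a complete or anticomplete partition -/
theorem cog_parts [Finite V] {C : Set V} (hP : P4Free G C) (h2 : 2 ≤ C.ncard) : Parts G C := by
  classical
  induction hn : C.ncard using Nat.strong_induction_on generalizing C with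
  | _ n ih =>
    have hfin : ∀ S : Set V, S.Finite := fun S => Set.toFinite S
    have hne : C.Nonempty := by
      rw [Set.nonempty_iff_ne_empty]
      rintro rfl
      simp at h2
    obtain ⟨v, hv⟩ := hne
    set C' := C \ {v} with hC'
    have hCC : C = insert v C' := by
      rw [hC', Set.insert_sdiff_singleton, Set.insert_eq_of_mem hv]
    have hvC' : v ∉ C' := fun h => h.2 rfl
    have hcard : C'.ncard + 1 = C.ncard := by
      rw [hCC, Set.ncard_insert_of_notMem hvC' (hfin _)]
    by_cases h3 : C'.ncard ≤ 1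
    · have h1 : C'.ncard = 1 := by omega
      obtain ⟨w, hw⟩ := Set.ncard_eq_one.1 h1
      have hvw : v ≠ w := fun e => hvC' (by rw [hw, e]; rfl)
      refine ⟨{v}, {w}, ⟨v, rfl⟩, ⟨w, rfl⟩, ?_, ?_, ?_⟩
      · rw [disjoint_singleton]; exact hvw
      · rw [hCC, hw]; rfl
      · by_cases hadj : G.Adj v w
        · refine Or.inl ?_
          rintro a rfl b rfl; exact hadj
        · refine Or.inr ?_
          rintro a rfl b rfl; exact hadj
    · push Not at h3
      obtain ⟨A, B, hA, hB, hd, hAB, hcase⟩ := ih C'.ncard (by omega) (C := C')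
        (hP.mono fun x hx => hx.1) (by omega) rfl
      have hvA : v ∉ A := fun h => hvC' (hAB ▸ Or.inl h)
      have hvB : v ∉ B := fun h => hvC' (hAB ▸ Or.inr h)
      rw [hCC, ← hAB] at hP ⊢
      have hP' : P4Free G (insert v (B ∪ A)) := by rwa [union_comm B A]
      rcases hcase with hc | hc
      · -- complete
        have hc' : ∀ b ∈ B, ∀ a ∈ A, G.Adj b a := fun b hb a ha => (hc a ha b hb).symm
        by_cases g1 : ∀ a ∈ A, G.Adj v a
        · refine ⟨A, insert v B, hA, ⟨v, Or.inl rfl⟩, ?_, ?_, Or.inl ?_⟩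
          · rw [disjoint_insert_right]; exact ⟨hvA, hd⟩
          · rw [union_insert]
          · rintro a ha b (rfl | hb)
            · exact (g1 a ha).symm
            · exact hc a ha b hb
        by_cases g2 : ∀ b ∈ B, G.Adj v b
        · refine ⟨B, insert v A, hB, ⟨v, Or.inl rfl⟩, ?_, ?_, Or.inl ?_⟩
          · rw [disjoint_insert_right]; exact ⟨hvB, hd.symm⟩
          · rw [union_insert, union_comm]
          · rintro a ha b (rfl | hb)
            · exact (g2 a ha).symm
            · exact hc' a ha b hb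
        push Not at g1 g2
        obtain ⟨a0, ha0, na0⟩ := g1
        obtain ⟨b0, hb0, nb0⟩ := g2
        by_cases g3 : ∃ a ∈ A, G.Adj v a
        · obtain ⟨a, ha, hva⟩ := g3
          exact parts_step_compl hP hvA hvB hd hc ha hva hb0 nb0
        by_cases g4 : ∃ b ∈ B, G.Adj v b
        · obtain ⟨b, hb, hvb⟩ := g4
          have := parts_step_compl hP' hvB hvA hd.symm hc' hb hvb ha0 na0
          rwa [union_comm B A] at this
        push Not at g3 g4
        refine ⟨{v}, A ∪ B, ⟨v, rfl⟩, hA.mono subset_union_left, ?_, by rw [singleton_union],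
          Or.inr ?_⟩
        · rw [disjoint_singleton_left]
          exact fun h => h.elim hvA hvB
        · rintro a rfl b (hb | hb)
          · exact g3 b hb
          · exact g4 b hb
      · -- anticomplete
        have hc' : ∀ b ∈ B, ∀ a ∈ A, ¬ G.Adj b a := fun b hb a ha => fun h => hc a ha b hb h.symm
        by_cases g1 : ∀ a ∈ A, ¬ G.Adj v a
        · refine ⟨A, insert v B, hA, ⟨v, Or.inl rfl⟩, ?_, ?_, Or.inr ?_⟩
          · rw [disjoint_insert_right]; exact ⟨hvA, hd⟩
          · rw [union_insert]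
          · rintro a ha b (rfl | hb)
            · exact fun h => g1 a ha h.symm
            · exact hc a ha b hb
        by_cases g2 : ∀ b ∈ B, ¬ G.Adj v b
        · refine ⟨B, insert v A, hB, ⟨v, Or.inl rfl⟩, ?_, ?_, Or.inr ?_⟩
          · rw [disjoint_insert_right]; exact ⟨hvB, hd.symm⟩
          · rw [union_insert, union_comm]
          · rintro a ha b (rfl | hb)
            · exact fun h => g2 a ha h.symm
            · exact hc' a ha b hb
        push Not at g1 g2
        obtain ⟨a0, ha0, na0⟩ := g1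
        obtain ⟨b0, hb0, nb0⟩ := g2
        by_cases g3 : ∃ a ∈ A, ¬ G.Adj v a
        · obtain ⟨a, ha, hva⟩ := g3
          exact parts_step_anti hP hvA hvB hd hc ha hva hb0 nb0
        by_cases g4 : ∃ b ∈ B, ¬ G.Adj v b
        · obtain ⟨b, hb, hvb⟩ := g4
          have := parts_step_anti hP' hvB hvA hd.symm hc' hb hvb ha0 na0
          rwa [union_comm B A] at this
        push Not at g3 g4
        refine ⟨{v}, A ∪ B, ⟨v, rfl⟩, hA.mono subset_union_left, ?_, by rw [singleton_union],
          Or.inl ?_⟩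
        · rw [disjoint_singleton_left]
          exact fun h => h.elim hvA hvB
        · rintro a rfl b (hb | hb)
          · exact g3 b hb
          · exact g4 b hb

/-- closure of `b` in `C` under the relation `r` -/
def cl (r : V → V → Prop) (C : Set V) (b : V) : Set V :=
  {x | Relation.ReflTransGen (fun x y => x ∈ C ∧ y ∈ C ∧ r x y) b x}

theorem cl_self (r : V → V → Prop) (C : Set V) (b : V) : b ∈ cl r C b := Relation.ReflTransGen.refl

theorem cl_induct {r : V → V → Prop} {C : Set V} {b : V} (p : V → Prop) (hb : p b)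
    (hs : ∀ x ∈ C, ∀ y ∈ C, r x y → p x → p y) : ∀ x ∈ cl r C b, p x := by
  intro x hx
  induction hx with
  | refl => exact hb
  | tail _ h2 ih => exact hs _ h2.1 _ h2.2.1 h2.2.2 ih

theorem cl_subset {r : V → V → Prop} {C : Set V} {b : V} (hb : b ∈ C) : cl r C b ⊆ C :=
  cl_induct (fun x => x ∈ C) hb fun _ _ _ hy _ _ => hy

theorem cl_closed {r : V → V → Prop} {C : Set V} {b x y : V} (hb : b ∈ C) (hx : x ∈ cl r C b)
    (hy : y ∈ C) (h : r x y) : y ∈ cl r C b :=
  Relation.ReflTransGen.tail hx ⟨cl_subset hb hx, hy, h⟩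

theorem cl_trans {r : V → V → Prop} {C : Set V} {b x y : V}
    (hx : x ∈ cl r C b) (hy : y ∈ cl r C x) : y ∈ cl r C b := Relation.ReflTransGen.trans hx hy

theorem cl_symm {r : V → V → Prop} (hr : ∀ x y, r x y → r y x) {C : Set V} {b x : V}
    (hx : x ∈ cl r C b) : b ∈ cl r C x := by
  refine cl_induct (fun x => b ∈ cl r C x) (cl_self r C b) ?_ x hx
  intro x hxC y hyC hxy hb
  exact cl_trans (Relation.ReflTransGen.single ⟨hyC, hxC, hr x y hxy⟩) hb

theorem cl_eq {r : V → V → Prop} (hr : ∀ x y, r x y → r y x) {C : Set V} {b x : V}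
    (hx : x ∈ cl r C b) : cl r C x = cl r C b := by
  ext y; constructor
  · intro hy; exact cl_trans hx hy
  · intro hy; exact cl_trans (cl_symm hr hx) hy

/-- co-adjacency -/
def coadj (G : SimpleGraph V) (x y : V) : Prop := ¬ G.Adj x y

theorem coadj_symm {x y : V} (h : coadj G x y) : coadj G y x := fun h' => h h'.symm

/-- a P4-free set with at least two elements is not both connected and co-connected -/
theorem not_conn_coconn [Finite V] {C : Set V} (hP : P4Free G C) {x y : V} (hx : x ∈ C)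
    (hy : y ∈ C) (hxy : x ≠ y) {b d : V} (hb : b ∈ C) (hd : d ∈ C) (h1 : cl G.Adj C b = C)
    (h2 : cl (coadj G) C d = C) : False := by
  have hfin : ∀ S : Set V, S.Finite := fun S => Set.toFinite S
  have hcard : 2 ≤ C.ncard := by
    have : ({x, y} : Set V) ⊆ C := by
      rintro w (rfl | rfl)
      · exact hx
      · exact hy
    have := Set.ncard_le_ncard this (hfin _)
    rw [Set.ncard_pair hxy] at this
    exact this
  obtain ⟨A, B, hA, hB, hdis, hAB, hcase⟩ := cog_parts hP hcard
  have key : ∀ (r : V → V → Prop) (A B : Set V), A ∪ B = C → Disjoint A B → B.Nonempty →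
      (∀ a ∈ A, ∀ b ∈ B, ¬ r a b) → ∀ b ∈ A, cl r C b = C → False := by
    intro r A B hAB hdis ⟨w, hw⟩ hr b hb hcl
    have : w ∈ cl r C b := by rw [hcl, ← hAB]; exact Or.inr hw
    have h3 := cl_induct (r := r) (C := C) (b := b) (fun x => x ∈ A) hb (by
      intro u hu v hv huv huA
      rw [← hAB] at hv
      rcases hv with hv | hv
      · exact hv
      · exact absurd huv (hr u huA v hv)) w this
    exact (disjoint_left.1 hdis) h3 hw
  rcases hcase with hc | hc
  · have hc' : ∀ a ∈ A, ∀ b ∈ B, ¬ coadj G a b := fun a ha b hb h => h (hc a ha b hb)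
    have hc'' : ∀ a ∈ B, ∀ b ∈ A, ¬ coadj G a b := fun a ha b hb h => h (hc b hb a ha).symm
    have hd' := hd
    rw [← hAB] at hd'
    rcases hd' with hd' | hd'
    · exact key _ A B hAB hdis hB hc' d hd' h2
    · exact key _ B A (by rw [union_comm]; exact hAB) hdis.symm hA hc'' d hd' h2
  · have hc'' : ∀ a ∈ B, ∀ b ∈ A, ¬ G.Adj a b := fun a ha b hb h => hc b hb a ha h.symm
    have hb' := hb
    rw [← hAB] at hb'
    rcases hb' with hb' | hb'
    · exact key _ A B hAB hdis hB hc b hb' h1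
    · exact key _ B A (by rw [union_comm]; exact hAB) hdis.symm hA hc'' b hb' h1

end Pool.Agent.GemWidth
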