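import Pool.Agent.GemWidth.Cluster
import Pool.Agent.GemWidth.Cograph

set_option autoImplicit false

namespace Pool.Agent.GemWidth

open Set

variable {V : Type*} {G : SimpleGraph V} {q : V} {U Z J B : Set V}

theorem cl_cl {r : V → V → Prop} {C : Set V} {b : V} (hb : b ∈ C) :
    cl r (cl r C b) b = cl r C b := by
  refine Set.Subset.antisymm (cl_subset (cl_self r C b)) ?_
  refine cl_induct (fun x => x ∈ cl r (cl r C b) b) (cl_self _ _ _) ?_
  intro x hx y hy hxy hx'
  have h1 : x ∈ cl r C b := cl_subset (cl_self r C b) hx'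
  have h2 : y ∈ cl r C b := cl_closed hb h1 hy hxy
  exact cl_closed (cl_self r C b) hx' h2 hxy

/-- the setting of class X -/
structure XSet (G : SimpleGraph V) (q : V) (U Z : Set V) : Prop where
  cls : Cls G
  qU : ∀ u ∈ U, G.Adj q u
  qZ : ∀ z ∈ Z, ¬ G.Adj q z
  qnZ : q ∉ Z
  ind : Indep G Z

namespace XSet

variable (h : XSet G q U Z)

include h

theorem qnU : q ∉ U := fun hq => (h.qU q hq).ne rfl

theorem disj : Disjoint U Z := by
  rw [disjoint_left]; intro v hv hv'; exact h.qZ v hv' (h.qU v hv)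

theorem R3 {u u1 u2 z : V} (hu : u ∈ U) (hu1 : u1 ∈ U) (hu2 : u2 ∈ U) (hz : z ∈ Z)
    (e1 : G.Adj u u1) (e2 : G.Adj u u2) (n12 : ¬ G.Adj u1 u2) (ez : G.Adj z u)
    (ez1 : G.Adj z u1) : G.Adj z u2 := by
  by_contra hcon
  exact h.cls.gem u z u1 q u2 ez.symm e1 (h.qU u hu).symm e2 ez1 (h.qU u1 hu1).symm (h.qU u2 hu2)
    (nadj_symm (h.qZ z hz)) hcon n12

theorem p4 : P4Free G U := fun a ha b hb c hc d hd e1 e2 e3 n1 n2 n3 =>
  h.cls.gem q a b c d (h.qU a ha) (h.qU b hb) (h.qU c hc) (h.qU d hd) e1 e2 e3 n1 n2 n3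

theorem const {D : Set V} (hD : D ⊆ U) (hco : ∀ d ∈ D, cl (coadj G) D d = D) {w z : V}
    (hw : w ∈ U) (hwD : ∀ d ∈ D, G.Adj w d) (hz : z ∈ Z) (hzw : G.Adj z w) :
    ∀ d ∈ D, ∀ d' ∈ D, G.Adj z d → G.Adj z d' := by
  intro d hd d' hd' hzd
  have : d' ∈ cl (coadj G) D d := by rw [hco d hd]; exact hd'
  refine cl_induct (fun x => G.Adj z x) hzd ?_ d' this
  intro x hx y hy hxy hzx
  exact h.R3 hw (hD hx) (hD hy) hz (hwD x hx) (hwD y hy) hxy hzw hzx

end XSet

/-- vertices of `U + q` anticomplete to `J ∪ B` -/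
def Ost (G : SimpleGraph V) (q : V) (U J B : Set V) : Set V :=
  {u | u ∈ insert q U ∧ u ∉ J ∧ u ∉ B ∧ ∀ x ∈ J ∪ B, ¬ G.Adj u x}

/-- mixed vertices -/
def Mx (G : SimpleGraph V) (Z B : Set V) : Set V :=
  {z | z ∈ Z ∧ (∃ b ∈ B, G.Adj z b) ∧ ∃ b ∈ B, ¬ G.Adj z b}

/-- mixed vertices with an outside neighbour -/
def Ms (G : SimpleGraph V) (q : V) (U Z J B : Set V) : Set V :=
  {z | z ∈ Mx G Z B ∧ ∃ v ∈ Ost G q U J B, G.Adj v z}

/-- at least two outside vertices have mixed neighbours -/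
def Two (G : SimpleGraph V) (q : V) (U Z J B : Set V) : Prop :=
  ∃ v1 ∈ Ost G q U J B, ∃ v2 ∈ Ost G q U J B, v1 ≠ v2 ∧ (∃ z ∈ Mx G Z B, G.Adj v1 z) ∧
    ∃ z ∈ Mx G Z B, G.Adj v2 z

/-- the part of `Z` inside the station -/
def Zin (G : SimpleGraph V) (q : V) (U Z J B : Set V) : Set V :=
  {z | z ∈ Mx G Z B ∧ (Two G q U Z J B → z ∉ Ms G q U Z J B)}

/-- stations of the caterpillar -/
structure Station (G : SimpleGraph V) (q : V) (U Z J B : Set V) : Prop where
  BU : B ⊆ U
  JU : J ⊆ insert q U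
  Jne : J.Nonempty
  JB : ∀ j ∈ J, j ∉ B
  compl : ∀ j ∈ J, ∀ b ∈ B, G.Adj j b
  hom : ∀ u ∈ insert q U, u ∉ J → u ∉ B → (∀ x ∈ J ∪ B, G.Adj u x) ∨ (∀ x ∈ J ∪ B, ¬ G.Adj u x)
  Oind : Indep G (Ost G q U J B)
  S4 : ∀ z ∈ Mx G Z B, ∀ u ∈ insert q U, u ∉ B → (∀ b ∈ B, G.Adj u b) → ¬ G.Adj z u
  S5 : Ost G q U J B = ∅ ∨ ∀ b ∈ B, cl (coadj G) B b = B

namespace Station

variable (hX : XSet G q U Z) (hS : Station G q U Z J B)

include hX hS

theorem uniq {z v v' : V} (hz : z ∈ Mx G Z B) (hv : v ∈ Ost G q U J B)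
    (hv' : v' ∈ Ost G q U J B) (e : G.Adj v z) (e' : G.Adj v' z) : v = v' := by
  by_contra hne
  obtain ⟨j, hj⟩ := hS.Jne
  obtain ⟨b, hb, hzb⟩ := hz.2.2
  have hzj : ¬ G.Adj z j := hS.S4 z hz j (hS.JU hj) (hS.JB j hj) (hS.compl j hj)
  exact hX.cls.p23 j b v z v' (hS.compl j hj b hb) e e'.symm hne (hS.Oind v hv v' hv')
    (nadj_symm (hv.2.2.2 j (Or.inl hj))) (nadj_symm hzj) (nadj_symm (hv'.2.2.2 j (Or.inl hj)))
    (nadj_symm (hv.2.2.2 b (Or.inr hb))) (nadj_symm hzb) (nadj_symm (hv'.2.2.2 b (Or.inr hb)))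

theorem push {z z' v b : V} (hb : b ∈ B) (hz : z ∈ Mx G Z B) (hv : v ∈ Ost G q U J B)
    (e : G.Adj v z) (hzb : ¬ G.Adj z b) (hz' : z' ∈ Mx G Z B) (hzb' : G.Adj z' b) :
    G.Adj v z' := by
  by_contra hcon
  obtain ⟨j, hj⟩ := hS.Jne
  have hzj : ¬ G.Adj z j := hS.S4 z hz j (hS.JU hj) (hS.JB j hj) (hS.compl j hj)
  have hzj' : ¬ G.Adj z' j := hS.S4 z' hz' j (hS.JU hj) (hS.JB j hj) (hS.compl j hj)
  have hne : j ≠ z' := by
    rintro rfl
    rcases hS.JU hj with h1 | h1
    · exact hX.qnZ (h1 ▸ hz'.1)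
    · exact (disjoint_left.1 hX.disj) h1 hz'.1
  exact hX.cls.p23 v z j b z' e (hS.compl j hj b hb) hzb'.symm hne (nadj_symm hzj')
    (hv.2.2.2 j (Or.inl hj)) (hv.2.2.2 b (Or.inr hb)) hcon hzj hzb (hX.ind z hz.1 z' hz'.1)

theorem dich (h2 : Two G q U Z J B) {b : V} (hb : b ∈ B) :
    (∀ z ∈ Ms G q U Z J B, G.Adj z b) ∨ (∀ z ∈ Mx G Z B, ¬ G.Adj z b) := by
  by_contra hcon
  push Not at hcon
  obtain ⟨⟨z, ⟨hz, v, hv, hvz⟩, hzb⟩, z', hz', hzb'⟩ := hcon
  have hvz' := push hX hS hb hz hv hvz hzb hz' hzb'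
  obtain ⟨v1, hv1, v2, hv2, hne, ⟨z1, hz1, e1⟩, z2, hz2, e2⟩ := h2
  have key : ∀ w ∈ Ost G q U J B, w ≠ v → ∀ y ∈ Mx G Z B, G.Adj w y → False := by
    intro w hw hwv y hy hwy
    by_cases hyb : G.Adj y b
    · have := push hX hS hb hz hv hvz hzb hy hyb
      exact hwv (uniq hX hS hy hw hv hwy this)
    · have := push hX hS hb hy hw hwy hyb hz' hzb'
      exact hwv (uniq hX hS hz' hw hv this hvz')
  by_cases h1 : v1 = v
  · exact key v2 hv2 (fun e => hne (h1.trans e.symm)) z2 hz2 e2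
  · exact key v1 hv1 h1 z1 hz1 e1

theorem few : Few G (B ∪ Zin G q U Z J B)
    ((insert q (U ∪ Z)) \ (B ∪ Zin G q U Z J B)) 8 := by
  classical
  have hZB : ∀ z ∈ Zin G q U Z J B, z ∉ B := fun z hz hzB =>
    (disjoint_left.1 hX.disj) (hS.BU hzB) hz.1.1
  refine few_of_label (fun x => (decide (x ∈ B), decide (∀ z ∈ Ms G q U Z J B, G.Adj z x),
    decide (∃ v ∈ Ost G q U J B, G.Adj v x))) ?_ (by simp)
  rintro a ha a' ha' e b ⟨hbR, hbn⟩
  simp only [Prod.mk.injEq, decide_eq_decide] at e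
  obtain ⟨e1, e2, e3⟩ := e
  have hbB : b ∉ B := fun hh => hbn (Or.inl hh)
  have hbR' : b ∈ insert q U ∨ b ∈ Z := by
    rcases hbR with h1 | h1 | h1
    · exact Or.inl (Or.inl h1)
    · exact Or.inl (Or.inr h1)
    · exact Or.inr h1
  by_cases haB : a ∈ B
  · have haB' := e1.1 haB
    rcases hbR' with hb | hb
    · by_cases hbJ : b ∈ J
      · exact iff_of_true (hS.compl b hbJ a haB).symm (hS.compl b hbJ a' haB').symm
      · rcases hS.hom b hb hbJ hbB with h1 | h1
        · exact iff_of_true (h1 a (Or.inr haB)).symm (h1 a' (Or.inr haB')).symm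
        · exact iff_of_false (fun hh => h1 a (Or.inr haB) hh.symm)
            (fun hh => h1 a' (Or.inr haB') hh.symm)
    · by_cases hbM : b ∈ Mx G Z B
      · have hb2 : Two G q U Z J B ∧ b ∈ Ms G q U Z J B := by
          by_contra hcon
          exact hbn (Or.inr ⟨hbM, fun h2 h3 => hcon ⟨h2, h3⟩⟩)
        obtain ⟨h2, hbs⟩ := hb2
        by_cases hc : ∀ z ∈ Ms G q U Z J B, G.Adj z a
        · exact iff_of_true (hc b hbs).symm (e2.1 hc b hbs).symm
        · have hc' : ¬ ∀ z ∈ Ms G q U Z J B, G.Adj z a' := fun hh => hc (e2.2 hh)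
          have d1 := (dich hX hS h2 haB).resolve_left hc
          have d2 := (dich hX hS h2 haB').resolve_left hc'
          exact iff_of_false (fun hh => d1 b hbM hh.symm) (fun hh => d2 b hbM hh.symm)
      · have key : ∀ x ∈ B, ∀ y ∈ B, G.Adj x b → G.Adj y b := by
          intro x hx y hy hxb
          by_contra hcon
          exact hbM ⟨hb, ⟨x, hx, hxb.symm⟩, ⟨y, hy, nadj_symm hcon⟩⟩
        exact ⟨key a haB a' haB', key a' haB' a haB⟩
  · have haB' : a' ∉ B := fun hh => haB (e1.2 hh)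
    have haZ := ha.resolve_left haB
    have haZ' := ha'.resolve_left haB'
    rcases hbR' with hb | hb
    · by_cases hcomp : ∀ x ∈ B, G.Adj b x
      · exact iff_of_false (hS.S4 a haZ.1 b hb hbB hcomp) (hS.S4 a' haZ'.1 b hb hbB hcomp)
      · have hbJ : b ∉ J := fun hh => hcomp (hS.compl b hh)
        have hbO : b ∈ Ost G q U J B := by
          refine ⟨hb, hbJ, hbB, ?_⟩
          rcases hS.hom b hb hbJ hbB with h1 | h1
          · exact absurd (fun x hx => h1 x (Or.inr hx)) hcomp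
          · exact h1
        have key : ∀ x y, x ∈ Zin G q U Z J B → y ∈ Zin G q U Z J B →
            ((∃ v ∈ Ost G q U J B, G.Adj v x) → (∃ v ∈ Ost G q U J B, G.Adj v y)) →
            G.Adj x b → G.Adj y b := by
          intro x y hx hy himp hxb
          by_cases h2 : Two G q U Z J B
          · exact absurd ⟨hx.1, b, hbO, hxb.symm⟩ (hx.2 h2)
          · obtain ⟨v, hv, hvy⟩ := himp ⟨b, hbO, hxb.symm⟩
            by_cases hvb : v = b
            · rw [← hvb]; exact hvy.symm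
            · exact absurd ⟨v, hv, b, hbO, hvb, ⟨y, hy.1, hvy⟩, ⟨x, hx.1, hxb.symm⟩⟩ h2
        exact ⟨key a a' haZ haZ' e3.1, key a' a haZ' haZ e3.2⟩
    · exact iff_of_false (hX.ind a haZ.1.1 b hb) (hX.ind a' haZ'.1.1 b hb)

end Station

/-- the bound along the caterpillar -/
def kStat : ℕ := (kClu + 1) * 2048 + (kClu + 1 + 264)

theorem kStat_aux1 (k a b : ℕ) (ha : a ≤ 2048) (hb : b ≤ 264) :
    (k + 1) * a + (k + 1 + b) ≤ (k + 1) * 2048 + (k + 1 + 264) := by
  have := Nat.mul_le_mul_left (k + 1) ha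
  exact Nat.add_le_add this (Nat.add_le_add_left hb _)

theorem kStat_aux2 (k a : ℕ) (ha : a ≤ 264) : a ≤ (k + 1) * 2048 + (k + 1 + 264) := by
  refine le_trans ha ?_
  refine le_trans (Nat.le_add_left _ _) (Nat.le_add_left _ _)

theorem kStat_ge {a b : ℕ} (ha : a ≤ 2048) (hb : b ≤ 264) :
    (kClu + 1) * a + (kClu + 1 + b) ≤ kStat := kStat_aux1 kClu a b ha hb

theorem kStat_ge' {a : ℕ} (ha : a ≤ 264) : a ≤ kStat := kStat_aux2 kClu a ha

theorem station_tree [Finite V] (hX : XSet G q U Z)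
    (hprime : SplitPrime G (insert q (U ∪ Z))) : ∀ n : ℕ, ∀ J B : Set V, B.ncard = n →
      Station G q U Z J B →
      Tree (CutOK G (insert q (U ∪ Z)) kStat) (B ∪ Zin G q U Z J B) := by
  classical
  have hfin : ∀ S : Set V, S.Finite := fun S => Set.toFinite S
  set R : Set V := insert q (U ∪ Z) with hR
  intro n
  induction n using Nat.strong_induction_on with
  | _ n ih =>
  intro J B hn hS
  have hG := hX.cls
  set A : Set V := B ∪ Zin G q U Z J B with hA
  have hAR : A ⊆ R := by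
    rintro v (hv | hv)
    · exact Or.inr (Or.inl (hS.BU hv))
    · exact Or.inr (Or.inr hv.1.1)
  have fA : Few G A (R \ A) 8 := hS.few hX
  have fA' : Few G (R \ A) A 256 := fA.symm
  by_cases hP3 : P3Free G B
  · have hW : W G A kClu := cluster_bound' hG (hX.disj.mono hS.BU fun z hz => hz.1.1) hP3
      (hX.ind.mono fun z hz => hz.1.1)
    refine Tree.imp (Tree.transfer hW subset_rfl hAR fA fA') ?_
    intro X _ hcut
    exact hcut.mono (kStat_ge (by norm_num) (by norm_num))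
  · unfold P3Free at hP3
    push Not at hP3
    obtain ⟨a, ha, b, hb, c, hc, eab, ebc, nac', nac⟩ := hP3
    set C : Set V := cl G.Adj B b with hC
    have hCB : C ⊆ B := cl_subset hb
    have hCU : C ⊆ U := hCB.trans hS.BU
    have aC : a ∈ C := cl_closed hb (cl_self _ _ _) ha eab.symm
    have bC : b ∈ C := cl_self _ _ _
    have cC : c ∈ C := cl_closed hb (cl_self _ _ _) hc ebc
    have antiI : ∀ x ∈ C, ∀ y ∈ B, y ∉ C → ¬ G.Adj x y := fun x hx y hy hyC hxy =>
      hyC (cl_closed hb hx hy hxy)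
    have indI : ∀ y ∈ B, y ∉ C → ∀ y' ∈ B, y' ∉ C → ¬ G.Adj y y' := by
      intro y hy hyC y' hy' hyC' hyy
      exact hG.p23 y y' a b c hyy eab ebc nac' nac (nadj_symm (antiI a aC y hy hyC))
        (nadj_symm (antiI b bC y hy hyC)) (nadj_symm (antiI c cC y hy hyC))
        (nadj_symm (antiI a aC y' hy' hyC')) (nadj_symm (antiI b bC y' hy' hyC'))
        (nadj_symm (antiI c cC y' hy' hyC'))
    set D : Set V := cl (coadj G) C a with hD
    have hDC : D ⊆ C := cl_subset aC
    have hDU : D ⊆ U := hDC.trans hCU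
    have aD : a ∈ D := cl_self _ _ _
    have cD : c ∈ D := cl_closed aC (cl_self _ _ _) cC nac
    have hDne : D ≠ C := by
      intro e
      exact not_conn_coconn (hX.p4.mono hCU) aC cC nac' bC aC (cl_cl hb) e
    have hjex : ∃ j, j ∈ C ∧ j ∉ D := by
      by_contra hcon
      push Not at hcon
      exact hDne (Set.Subset.antisymm hDC hcon)
    obtain ⟨j0, hj0C, hj0D⟩ := hjex
    have compJ : ∀ j ∈ C, j ∉ D → ∀ d ∈ D, G.Adj j d := by
      intro j hj hjD d hd
      by_contra hcon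
      exact hjD (cl_closed aC hd hj (nadj_symm hcon))
    have coD : ∀ d ∈ D, cl (coadj G) D d = D := by
      intro d hd
      have h1 : cl (coadj G) D a = D := cl_cl aC
      have hd' : d ∈ cl (coadj G) D a := by rw [h1]; exact hd
      rw [cl_eq (fun x y h => coadj_symm h) hd', h1]
    have qnD : q ∉ D := fun hh => hX.qnU (hDU hh)
    have homD : ∀ u ∈ insert q U, u ∉ D → (∀ d ∈ D, G.Adj u d) ∨ (∀ d ∈ D, ¬ G.Adj u d) := by
      intro u hu huD
      by_cases huC : u ∈ C
      · exact Or.inl (compJ u huC huD)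
      by_cases huB : u ∈ B
      · exact Or.inr fun d hd => nadj_symm (antiI d (hDC hd) u huB huC)
      by_cases huJ : u ∈ J
      · exact Or.inl fun d hd => hS.compl u huJ d (hCB (hDC hd))
      rcases hS.hom u hu huJ huB with h1 | h1
      · exact Or.inl fun d hd => h1 d (Or.inr (hCB (hDC hd)))
      · exact Or.inr fun d hd => h1 d (Or.inr (hCB (hDC hd)))
    have memZU : ∀ z ∈ Z, z ∉ U := fun z hz hz' => (disjoint_left.1 hX.disj) hz' hz
    -- escape
    have hesc : ∃ z ∈ Mx G Z D, ∃ v ∈ insert q U, v ∉ D ∧ G.Adj v z := by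
      by_contra hcon
      push Not at hcon
      refine hprime (D ∪ Mx G Z D) (R \ (D ∪ Mx G Z D)) a j0 disjoint_sdiff_right ?_
        (Or.inl aD) ?_ ?_ ?_ ?_
      · rw [union_sdiff_self, union_eq_right]
        rintro v (hv | hv)
        · exact Or.inr (Or.inl (hDU hv))
        · exact Or.inr (Or.inr hv.1)
      · refine ⟨Or.inr (Or.inl (hCU hj0C)), ?_⟩
        rintro (hv | hv)
        · exact hj0D hv
        · exact memZU _ hv.1 (hCU hj0C)
      · have hsub : {a, c} ⊆ D ∪ Mx G Z D := by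
          rintro v (rfl | rfl)
          · exact Or.inl aD
          · exact Or.inl cD
        calc 2 = ({a, c} : Set V).ncard := (Set.ncard_pair nac').symm
          _ ≤ _ := Set.ncard_le_ncard hsub (hfin _)
      · have hsub : {j0, q} ⊆ R \ (D ∪ Mx G Z D) := by
          rintro v (rfl | rfl)
          · refine ⟨Or.inr (Or.inl (hCU hj0C)), ?_⟩
            rintro (hv | hv)
            · exact hj0D hv
            · exact memZU _ hv.1 (hCU hj0C)
          · refine ⟨Or.inl rfl, ?_⟩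
            rintro (hv | hv)
            · exact qnD hv
            · exact hX.qnZ hv.1
        have hne : j0 ≠ q := fun e => hX.qnU (e ▸ hCU hj0C)
        calc 2 = ({j0, q} : Set V).ncard := (Set.ncard_pair hne).symm
          _ ≤ _ := Set.ncard_le_ncard hsub (hfin _)
      · rintro x hx y ⟨hyR, hyn⟩
        have hyD : y ∉ D := fun hh => hyn (Or.inl hh)
        have hyM : y ∉ Mx G Z D := fun hh => hyn (Or.inr hh)
        have hyR' : y ∈ insert q U ∨ y ∈ Z := by
          rcases hyR with h1 | h1 | h1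
          · exact Or.inl (Or.inl h1)
          · exact Or.inl (Or.inr h1)
          · exact Or.inr h1
        rcases hx with hx | hx
        · have h1 : G.Adj x y ↔ G.Adj a y := by
            rcases hyR' with hy | hy
            · rcases homD y hy hyD with h2 | h2
              · exact iff_of_true (h2 x hx).symm (h2 a aD).symm
              · exact iff_of_false (fun hh => h2 x hx hh.symm) (fun hh => h2 a aD hh.symm)
            · have key : ∀ u ∈ D, ∀ v ∈ D, G.Adj u y → G.Adj v y := by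
                intro u hu v hv huy
                by_contra hcon2
                exact hyM ⟨hy, ⟨u, hu, huy.symm⟩, ⟨v, hv, nadj_symm hcon2⟩⟩
              exact ⟨key x hx a aD, key a aD x hx⟩
          rw [h1]
          exact ⟨fun h => ⟨(compJ j0 hj0C hj0D x hx).symm, h⟩, fun h => h.2⟩
        · have h1 : ¬ G.Adj x y := by
            rcases hyR' with hy | hy
            · exact nadj_symm (hcon x hx y hy hyD)
            · exact hX.ind x hx.1 y hy
          have h2 : ¬ G.Adj x j0 := nadj_symm (hcon x hx j0 (Or.inr (hCU hj0C)) hj0D)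
          exact iff_of_false h1 fun h => h2 h.1
    obtain ⟨z0, hz0, v0, hv0, hv0D, hv0z0⟩ := hesc
    have mixconst : ∀ z ∈ Mx G Z D, ∀ w ∈ insert q U, (∀ d ∈ D, G.Adj w d) → ¬ G.Adj z w := by
      intro z hz w hw hwD hzw
      have hwU : w ∈ U := by
        rcases hw with h1 | h1
        · rw [h1] at hzw; exact absurd hzw.symm (hX.qZ z hz.1)
        · exact h1
      obtain ⟨d, hd, hzd⟩ := hz.2.1
      obtain ⟨d', hd', hzd'⟩ := hz.2.2
      exact hzd' (hX.const hDU coD hwU hwD hz.1 hzw d hd d' hd' hzd)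
    have v0anti : ∀ d ∈ D, ¬ G.Adj v0 d := by
      rcases homD v0 hv0 hv0D with h1 | h1
      · exact absurd hv0z0.symm (mixconst z0 hz0 v0 hv0 h1)
      · exact h1
    have v0C : v0 ∉ C := fun hh => v0anti a aD (compJ v0 hh hv0D a aD)
    have v0antiC : ∀ x ∈ C, ¬ G.Adj v0 x := by
      by_cases huB : v0 ∈ B
      · exact fun x hx => nadj_symm (antiI x hx v0 huB v0C)
      by_cases huJ : v0 ∈ J
      · exact absurd (hS.compl v0 huJ a (hCB aC)) (v0anti a aD)
      rcases hS.hom v0 hv0 huJ huB with h1 | h1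
      · exact absurd (h1 a (Or.inr (hCB aC))) (v0anti a aD)
      · exact fun x hx => h1 x (Or.inr (hCB hx))
    have z0J : ∀ j ∈ C, j ∉ D → ¬ G.Adj z0 j := fun j hj hjD =>
      mixconst z0 hz0 j (Or.inr (hCU hj)) (compJ j hj hjD)
    have cliqueJ : ∀ j ∈ C, j ∉ D → ∀ j' ∈ C, j' ∉ D → j ≠ j' → G.Adj j j' := by
      intro j hj hjD j' hj' hjD' hne
      by_contra hcon
      obtain ⟨d, hd, hzd⟩ := hz0.2.2
      exact hG.p23 v0 z0 j d j' hv0z0 (compJ j hj hjD d hd) (compJ j' hj' hjD' d hd).symm hne hcon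
        (v0antiC j hj) (v0antiC d (hDC hd)) (v0antiC j' hj') (z0J j hj hjD) hzd (z0J j' hj' hjD')
    -- the new station
    set J' : Set V := {j | j ∈ C ∧ j ∉ D} with hJ'
    have JD : ∀ u, u ∉ J' → u ∉ D → u ∉ C := fun u h1 h2 h3 => h1 ⟨h3, h2⟩
    have JDC : ∀ x, x ∈ J' ∪ D → x ∈ C := by
      rintro x (hx | hx)
      · exact hx.1
      · exact hDC hx
    have Ocase : ∀ u ∈ Ost G q U J' D, (u ∈ B ∧ u ∉ C) ∨ u ∈ Ost G q U J B := by
      rintro u ⟨huU, huJ', huD, huanti⟩
      have huC := JD u huJ' huD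
      by_cases huB : u ∈ B
      · exact Or.inl ⟨huB, huC⟩
      · right
        have huJ : u ∉ J := fun hh => huanti a (Or.inr aD) (hS.compl u hh a (hCB aC))
        refine ⟨huU, huJ, huB, ?_⟩
        rcases hS.hom u huU huJ huB with h1 | h1
        · exact absurd (h1 a (Or.inr (hCB aC))) (huanti a (Or.inr aD))
        · exact h1
    have hS' : Station G q U Z J' D := by
      refine ⟨hDU, fun j hj => Or.inr (hCU hj.1), ⟨j0, hj0C, hj0D⟩, fun j hj => hj.2,
        fun j hj => compJ j hj.1 hj.2, ?_, ?_, ?_, Or.inr coD⟩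
      · intro u hu huJ' huD
        have huC := JD u huJ' huD
        by_cases huB : u ∈ B
        · exact Or.inr fun x hx => nadj_symm (antiI x (JDC x hx) u huB huC)
        by_cases huJ : u ∈ J
        · exact Or.inl fun x hx => hS.compl u huJ x (hCB (JDC x hx))
        rcases hS.hom u hu huJ huB with h1 | h1
        · exact Or.inl fun x hx => h1 x (Or.inr (hCB (JDC x hx)))
        · exact Or.inr fun x hx => h1 x (Or.inr (hCB (JDC x hx)))
      · intro u hu v hv huv
        rcases Ocase u hu with ⟨hu1, hu2⟩ | hu1 <;> rcases Ocase v hv with ⟨hv1, hv2⟩ | hv1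
        · exact indI u hu1 hu2 v hv1 hv2 huv
        · exact hv1.2.2.2 u (Or.inr hu1) huv.symm
        · exact hu1.2.2.2 v (Or.inr hv1) huv
        · exact hS.Oind u hu1 v hv1 huv
      · intro z hz u hu _ huD
        exact mixconst z hz u hu huD
    have hlt : D.ncard < n := by
      rw [← hn]
      refine Set.ncard_lt_ncard ⟨hDC.trans hCB, ?_⟩ (hfin _)
      intro hh
      exact hj0D (hh (hCB hj0C))
    have tD := ih D.ncard hlt J' D rfl hS'
    have fD : Few G (D ∪ Zin G q U Z J' D) (R \ (D ∪ Zin G q U Z J' D)) 8 := hS'.few hX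
    have fD' : Few G (R \ (D ∪ Zin G q U Z J' D)) (D ∪ Zin G q U Z J' D) 256 := fD.symm
    have hMM : ∀ z ∈ Mx G Z D, z ∈ Mx G Z B := by
      rintro z ⟨hz, ⟨d, hd, h1⟩, ⟨d', hd', h2⟩⟩
      exact ⟨hz, ⟨d, hCB (hDC hd), h1⟩, ⟨d', hCB (hDC hd'), h2⟩⟩
    -- nestedness
    have hnest : ∀ z ∈ Mx G Z D, z ∉ Ms G q U Z J B := by
      rintro z hz ⟨hzB, v, hv, hvz⟩
      have coB : ∀ b ∈ B, cl (coadj G) B b = B := by
        rcases hS.S5 with h1 | h1
        · rw [h1] at hv; exact hv.elim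
        · exact h1
      have hCne : C ≠ B := by
        intro e
        exact not_conn_coconn (hX.p4.mono hS.BU) ha hc nac' hb ha e (coB a ha)
      have hxex : ∃ x ∈ B, x ∉ C := by
        by_contra hcon
        push Not at hcon
        exact hCne (Set.Subset.antisymm hCB hcon)
      obtain ⟨x, hxB, hxC⟩ := hxex
      have hvO' : v ∈ Ost G q U J' D := by
        refine ⟨hv.1, fun hh => hv.2.2.1 (hCB hh.1), fun hh => hv.2.2.1 (hCB (hDC hh)), ?_⟩
        intro y hy
        exact hv.2.2.2 y (Or.inr (hCB (JDC y hy)))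
      have hxO' : x ∈ Ost G q U J' D := by
        refine ⟨Or.inr (hS.BU hxB), fun hh => hxC hh.1, fun hh => hxC (hDC hh), ?_⟩
        intro y hy
        exact nadj_symm (antiI y (JDC y hy) x hxB hxC)
      have hzx : ¬ G.Adj z x := by
        intro hh
        have := hS'.uniq hX hz hvO' hxO' hvz hh.symm
        exact hv.2.2.1 (this ▸ hxB)
      obtain ⟨j, hj⟩ := hS.Jne
      obtain ⟨d, hd, hzd⟩ := hz.2.2
      have hdB := hCB (hDC hd)
      have hzj : ¬ G.Adj z j := hS.S4 z hzB j (hS.JU hj) (hS.JB j hj) (hS.compl j hj)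
      have hxd : x ≠ d := fun e => hxC (e ▸ hDC hd)
      exact hG.p23 v z x j d hvz (hS.compl j hj x hxB).symm (hS.compl j hj d hdB) hxd
        (nadj_symm (antiI d (hDC hd) x hxB hxC)) (hv.2.2.2 x (Or.inr hxB))
        (hv.2.2.2 j (Or.inl hj)) (hv.2.2.2 d (Or.inr hdB)) hzx hzj hzd
    have hsubA : D ∪ Zin G q U Z J' D ⊆ A := by
      rintro v (hv | hv)
      · exact Or.inl (hCB (hDC hv))
      · exact Or.inr ⟨hMM v hv.1, fun _ => hnest v hv.1⟩
    -- the block
    set Bl : Set V := A \ (D ∪ Zin G q U Z J' D) with hBl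
    have hWBl : W G Bl kClu := by
      have h1 : W G ({u | u ∈ B ∧ u ∉ D} ∪ Z) kClu := by
        refine cluster_bound' hG (hX.disj.mono_left fun u hu => hS.BU hu.1) ?_ hX.ind
        rintro x ⟨hxB, hxD⟩ y ⟨hyB, hyD⟩ w ⟨hwB, hwD⟩ exy eyw hxw
        have hxC : x ∈ C := by
          by_contra hxC
          by_cases hyC : y ∈ C
          · exact antiI y hyC x hxB hxC exy.symm
          · exact indI x hxB hxC y hyB hyC exy
        have hyC : y ∈ C := cl_closed hb hxC hyB exy
        have hwC : w ∈ C := cl_closed hb hyC hwB eyw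
        exact cliqueJ x hxC hxD w hwC hwD hxw
      refine h1.subset ?_
      rintro v ⟨hv | hv, hvn⟩
      · exact Or.inl ⟨hv, fun hh => hvn (Or.inl hh)⟩
      · exact Or.inr hv.1.1
    have hBlR : Bl ⊆ R := fun v hv => hAR hv.1
    have hcover : R \ Bl ⊆ (R \ A) ∪ (D ∪ Zin G q U Z J' D) := by
      rintro v ⟨hvR, hvn⟩
      by_cases hvA : v ∈ A
      · right
        by_contra hcon
        exact hvn ⟨hvA, hcon⟩
      · exact Or.inl ⟨hvR, hvA⟩
    have g1 : Few G Bl (R \ Bl) (8 * 256) := by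
      refine Few.mono (Few.prod (fA.mono (fun v hv => hv.1) subset_rfl le_rfl)
        (fD'.mono ?_ subset_rfl le_rfl)) subset_rfl hcover le_rfl
      rintro v ⟨hvA, hvn⟩
      exact ⟨hAR hvA, hvn⟩
    have g2 : Few G (R \ Bl) Bl (256 + 8) := by
      refine Few.mono (Few.union (fA'.mono subset_rfl (fun v hv => hv.1) le_rfl)
        (fD.mono subset_rfl ?_ le_rfl)) hcover subset_rfl le_rfl
      rintro v ⟨hvA, hvn⟩
      exact ⟨hAR hvA, hvn⟩
    have tBl : Tree (CutOK G R kStat) Bl := by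
      refine Tree.imp (Tree.transfer hWBl subset_rfl hBlR g1 g2) ?_
      intro X _ hcut
      exact hcut.mono (kStat_ge (by norm_num) (by norm_num))
    have hAeq : A = (D ∪ Zin G q U Z J' D) ∪ Bl := by
      rw [hBl, union_sdiff_cancel hsubA]
    rw [hAeq]
    refine Tree.union _ _ disjoint_sdiff_right tD tBl ?_
    rw [← hAeq]
    exact cutOK_of_few fA fA' (kStat_ge' (by norm_num)) (kStat_ge' (by norm_num))

/-- split-prime members of the class -/
theorem classX_prime [Finite V] (hX : XSet G q U Z)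
    (hprime : SplitPrime G (insert q (U ∪ Z))) : W G (insert q (U ∪ Z)) kStat := by
  have hS : Station G q U Z {q} U := by
    refine ⟨subset_rfl, ?_, singleton_nonempty q, ?_, ?_, ?_, ?_, ?_, ?_⟩
    · rintro v rfl; exact Or.inl rfl
    · rintro v rfl; exact hX.qnU
    · rintro v rfl u hu; exact hX.qU u hu
    · rintro u (hu | hu) h1 h2
      · exact absurd hu h1
      · exact absurd hu h2
    · rintro u ⟨hu | hu, h1, h2, _⟩
      · exact absurd hu h1
      · exact absurd hu h2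
    · rintro z hz u (hu | hu) h1 _
      · rw [hu]; exact nadj_symm (hX.qZ z hz.1)
      · exact absurd hu h1
    · left
      rw [eq_empty_iff_forall_notMem]
      rintro u ⟨hu | hu, h1, h2, _⟩
      · exact absurd hu h1
      · exact absurd hu h2
  have t1 := station_tree hX hprime U.ncard {q} U rfl hS
  have f1 := hS.few hX
  set A : Set V := U ∪ Zin G q U Z {q} U with hA
  have hsub : A ⊆ insert q (U ∪ Z) := by
    rintro v (hv | hv)
    · exact Or.inr (Or.inl hv)
    · exact Or.inr (Or.inr hv.1.1)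
  have hind : W G (insert q (U ∪ Z) \ A) 1 := by
    refine (W.of_indep (R := insert q Z) ?_).subset ?_
    · rintro a (ha | ha) b (hb | hb) hab
      · exact hab.ne (ha.trans hb.symm)
      · rw [ha] at hab; exact hX.qZ b hb hab
      · rw [hb] at hab; exact hX.qZ a ha hab.symm
      · exact hX.ind a ha b hb hab
    · rintro v ⟨hv | hv | hv, hvn⟩
      · exact Or.inl hv
      · exact absurd (Or.inl hv) hvn
      · exact Or.inr hv
  have e1 : insert q (U ∪ Z) \ (insert q (U ∪ Z) \ A) = A := by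
    rw [sdiff_sdiff_right_self]; exact inter_eq_right.2 hsub
  have t2 : Tree (CutOK G (insert q (U ∪ Z)) kStat) (insert q (U ∪ Z) \ A) := by
    refine Tree.imp (Tree.transfer hind subset_rfl (fun v hv => hv.1) (n := 256) (m := 8) ?_ ?_) ?_
    · rw [e1]; exact f1.symm
    · rw [e1]; exact f1
    · intro X _ hcut
      refine hcut.mono ?_
      unfold kStat
      have := Nat.mul_le_mul (Nat.le_add_left 1 kClu) (le_refl 2048)
      refine le_trans ?_ (Nat.add_le_add this (Nat.le_add_left _ _))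
      norm_num
  have e2 : insert q (U ∪ Z) = A ∪ (insert q (U ∪ Z) \ A) := by
    rw [union_sdiff_cancel hsub]
  have e3 : Tree (CutOK G (insert q (U ∪ Z)) kStat) (A ∪ (insert q (U ∪ Z) \ A)) := by
    refine Tree.union _ _ disjoint_sdiff_right t1 t2 ?_
    rw [← e2]
    exact cutOK_self (kStat_ge' (by norm_num))
  unfold W
  rw [← e2] at e3
  exact e3

/-- the class X: the non-neighbours of `q` are independent -/
def HX (G : SimpleGraph V) (q : V) (R : Set V) : Prop :=
  ∀ a ∈ R, ∀ b ∈ R, a ≠ q → b ≠ q → ¬ G.Adj q a → ¬ G.Adj q b → ¬ G.Adj a b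

theorem HX.mono {R S : Set V} (h : HX G q R) (hS : S ⊆ R) : HX G q S :=
  fun a ha b hb => h a (hS ha) b (hS hb)

theorem classX_aux [Finite V] (hG : Cls G) : ∀ R : Set V, q ∈ R → HX G q R → W G R kStat := by
  intro R
  induction hn : R.ncard using Nat.strong_induction_on generalizing R with
  | _ n ih =>
    intro hq hR
    by_cases hsp : SplitPrime G R
    · have e : R = insert q ({u | u ∈ R ∧ G.Adj q u} ∪ {z | z ∈ R ∧ z ≠ q ∧ ¬ G.Adj q z}) := by
        ext v; constructor
        · intro hv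
          by_cases h1 : v = q
          · exact Or.inl h1
          · by_cases h2 : G.Adj q v
            · exact Or.inr (Or.inl ⟨hv, h2⟩)
            · exact Or.inr (Or.inr ⟨hv, h1, h2⟩)
        · rintro (hv | hv | hv)
          · rw [hv]; exact hq
          · exact hv.1
          · exact hv.1
      have hX : XSet G q {u | u ∈ R ∧ G.Adj q u} {z | z ∈ R ∧ z ≠ q ∧ ¬ G.Adj q z} := by
        refine ⟨hG, fun u hu => hu.2, fun z hz => hz.2.2, fun hh => hh.2.1 rfl, ?_⟩
        rintro a ⟨ha, ha1, ha2⟩ b ⟨hb, hb1, hb2⟩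
        exact hR a ha b hb ha1 hb1 ha2 hb2
      have := classX_prime hX (by rw [← e]; exact hsp)
      rwa [← e] at this
    · unfold SplitPrime at hsp
      push Not at hsp
      obtain ⟨X, Y, x0, y0, hd, hXY, hx0, hy0, hX2, hY2, hs⟩ := hsp
      have hfin : ∀ S : Set V, S.Finite := fun S => Set.toFinite S
      have key : ∀ X Y : Set V, ∀ x0 y0 : V, Disjoint X Y → X ∪ Y = R → x0 ∈ X → y0 ∈ Y →
          2 ≤ X.ncard → 2 ≤ Y.ncard →
          (∀ x ∈ X, ∀ y ∈ Y, (G.Adj x y ↔ (G.Adj x y0 ∧ G.Adj x0 y))) → q ∈ X →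
          W G R kStat := by
        clear hs hX2 hY2 hy0 hx0 hXY hd
        intro X Y x0 y0 hd hXY hx0 hy0 hX2 hY2 hs hqX
        have hcard : X.ncard + Y.ncard = R.ncard := by
          rw [← hXY, Set.ncard_union_eq hd (hfin _) (hfin _)]
        have hXR : X ⊆ R := hXY ▸ subset_union_left
        have hYR : Y ⊆ R := hXY ▸ subset_union_right
        have h1 : (insert y0 X).ncard ≤ X.ncard + 1 := Set.ncard_insert_le _ _
        have h2 : (insert q Y).ncard ≤ Y.ncard + 1 := Set.ncard_insert_le _ _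
        have w1 : W G (insert y0 X) kStat :=
          ih _ (by omega) _ rfl (Or.inr hqX) (hR.mono (insert_subset (hYR hy0) hXR))
        by_cases hqy : G.Adj q y0
        · have w2 : W G (insert q Y) kStat :=
            ih _ (by omega) _ rfl (Or.inl rfl) (hR.mono (insert_subset (hXR hqX) hYR))
          rw [← hXY]
          refine W.split (kStat_ge' (by norm_num)) hd hqX hy0 ?_ w1 w2
          intro x hx y hy
          rw [hs x hx y hy, hs q hqX y hy]
          exact ⟨fun h => ⟨h.1, hqy, h.2⟩, fun h => ⟨h.1, h.2.2⟩⟩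
        · have hanti : ∀ y ∈ Y, ¬ G.Adj q y := fun y hy h => hqy ((hs q hqX y hy).1 h).1
          have hne : ∀ y ∈ Y, y ≠ q := fun y hy e => (disjoint_left.1 hd) hqX (e ▸ hy)
          have w3 : W G Y 1 := W.of_indep fun a ha b hb =>
            hR a (hYR ha) b (hYR hb) (hne a ha) (hne b hb) (hanti a ha) (hanti b hb)
          have w2 : W G (insert x0 Y) kStat :=
            (W.insert_vertex w3 x0).mono (kStat_ge' (by unfold comb; norm_num))
          rw [← hXY]
          exact W.split (kStat_ge' (by norm_num)) hd hx0 hy0 hs w1 w2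
      have hqXY : q ∈ X ∨ q ∈ Y := by rw [← hXY] at hq; exact hq
      rcases hqXY with h1 | h1
      · exact key X Y x0 y0 hd hXY hx0 hy0 hX2 hY2 hs h1
      · refine key Y X y0 x0 hd.symm (by rw [union_comm]; exact hXY) hy0 hx0 hY2 hX2 ?_ h1
        intro y hy x hx
        rw [G.adj_comm y x, hs x hx y hy, G.adj_comm y x0, G.adj_comm y0 x]
        exact and_comm

/-- T2, class X -/
theorem classX_bound' [Finite V] (hG : Cls G) {R : Set V}
    (h : ∀ a ∈ R, ∀ b ∈ R, a ≠ q → b ≠ q → ¬ G.Adj q a → ¬ G.Adj q b → ¬ G.Adj a b) :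
    W G R kStat := by
  refine (classX_aux (q := q) hG (insert q R) (Or.inl rfl) ?_).subset (subset_insert _ _)
  rintro a (ha | ha) b (hb | hb) h1 h2
  · exact absurd ha h1
  · exact absurd ha h1
  · exact absurd hb h2
  · exact h a ha b hb h1 h2

theorem classX_bound : ∃ k : ℕ, ∀ (V : Type) [Finite V] (G : SimpleGraph V) (q : V) (R : Set V),
    Cls G → (∀ a ∈ R, ∀ b ∈ R, a ≠ q → b ≠ q → ¬ G.Adj q a → ¬ G.Adj q b → ¬ G.Adj a b) →
    W G R k :=
  ⟨kStat, fun _ _ _ _ _ hG h => classX_bound' hG h⟩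

end Pool.Agent.GemWidth
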