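import Pool.Agent.GemWidth.Ops

set_option autoImplicit false

namespace Pool.Agent.GemWidth

open Set

variable {V : Type*}

/-- gem-free and (P2+P3)-free -/
structure Cls (G : SimpleGraph V) : Prop where
  gem : ∀ h a b c d : V, G.Adj h a → G.Adj h b → G.Adj h c → G.Adj h d →
    G.Adj a b → G.Adj b c → G.Adj c d → ¬ G.Adj a c → ¬ G.Adj a d → ¬ G.Adj b d → False
  p23 : ∀ u v x y z : V, G.Adj u v → G.Adj x y → G.Adj y z → x ≠ z → ¬ G.Adj x z →
    ¬ G.Adj u x → ¬ G.Adj u y → ¬ G.Adj u z → ¬ G.Adj v x → ¬ G.Adj v y → ¬ G.Adj v z → False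

/-- no induced five-cycle -/
def NoC5 (G : SimpleGraph V) : Prop :=
  ∀ a b c d e : V, G.Adj a b → G.Adj b c → G.Adj c d → G.Adj d e → G.Adj e a →
    ¬ G.Adj a c → ¬ G.Adj a d → ¬ G.Adj b d → ¬ G.Adj b e → ¬ G.Adj c e → False

/-- independent set -/
def Indep (G : SimpleGraph V) (Z : Set V) : Prop := ∀ a ∈ Z, ∀ b ∈ Z, ¬ G.Adj a b

/-- disjoint union of cliques -/
def P3Free (G : SimpleGraph V) (U : Set V) : Prop :=
  ∀ a ∈ U, ∀ b ∈ U, ∀ c ∈ U, G.Adj a b → G.Adj b c → a ≠ c → G.Adj a c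

theorem Indep.mono {G : SimpleGraph V} {S T : Set V} (h : Indep G T) (hST : S ⊆ T) : Indep G S :=
  fun a ha b hb => h a (hST ha) b (hST hb)

theorem P3Free.mono {G : SimpleGraph V} {S T : Set V} (h : P3Free G T) (hST : S ⊆ T) :
    P3Free G S := fun a ha b hb c hc => h a (hST ha) b (hST hb) c (hST hc)

theorem nadj_symm {G : SimpleGraph V} {a b : V} (h : ¬ G.Adj a b) : ¬ G.Adj b a :=
  fun h' => h h'.symm

/-- `G[R]` has no split (in particular, if it has at least four vertices: it is connected,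
has no twins and no pendant vertices) -/
def SplitPrime (G : SimpleGraph V) (R : Set V) : Prop :=
  ∀ X Y : Set V, ∀ x0 y0 : V, Disjoint X Y → X ∪ Y = R → x0 ∈ X → y0 ∈ Y → 2 ≤ X.ncard →
    2 ≤ Y.ncard → ¬ (∀ x ∈ X, ∀ y ∈ Y, (G.Adj x y ↔ (G.Adj x y0 ∧ G.Adj x0 y)))

/-- reduction to split-prime members of a hereditary family of vertex sets -/
theorem W.of_prime [Finite V] {G : SimpleGraph V} {k : ℕ} (hk : 1 ≤ k) (C : Set V → Prop)
    (hered : ∀ R S : Set V, S ⊆ R → C R → C S)
    (hprime : ∀ R : Set V, C R → SplitPrime G R → W G R k) :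
    ∀ R : Set V, C R → W G R k := by
  intro R
  induction hn : R.ncard using Nat.strong_induction_on generalizing R with
  | _ n ih =>
    intro hR
    by_cases hsp : SplitPrime G R
    · exact hprime R hR hsp
    · unfold SplitPrime at hsp
      push Not at hsp
      obtain ⟨X, Y, x0, y0, hd, hXY, hx0, hy0, hX2, hY2, hs⟩ := hsp
      have hfin : ∀ S : Set V, S.Finite := fun S => Set.toFinite S
      have hcard : X.ncard + Y.ncard = R.ncard := by
        rw [← hXY, Set.ncard_union_eq hd (hfin _) (hfin _)]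
      have hXR : X ⊆ R := hXY ▸ subset_union_left
      have hYR : Y ⊆ R := hXY ▸ subset_union_right
      have h1 : (insert y0 X).ncard ≤ X.ncard + 1 := Set.ncard_insert_le _ _
      have h2 : (insert x0 Y).ncard ≤ Y.ncard + 1 := Set.ncard_insert_le _ _
      have w1 : W G (insert y0 X) k :=
        ih _ (by omega) _ rfl (hered R _ (insert_subset (hYR hy0) hXR) hR)
      have w2 : W G (insert x0 Y) k :=
        ih _ (by omega) _ rfl (hered R _ (insert_subset (hXR hx0) hYR) hR)
      rw [← hXY]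
      exact W.split hk hd hx0 hy0 hs w1 w2

end Pool.Agent.GemWidth
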