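import Pool.Agent.GemWidth.Conflict

set_option autoImplicit false

namespace Pool.Agent.GemWidth

open Set

variable {V : Type*} {G : SimpleGraph V}

/-- cutting off a clique component -/
theorem cut_clique [Finite V] (hG : Cls G) {U Z K : Set V} {k : ℕ} (hd : Disjoint U Z)
    (hKU : K ⊆ U) (hK : ∀ a ∈ K, ∀ b ∈ K, a ≠ b → G.Adj a b)
    (hKB : ∀ a ∈ K, ∀ b ∈ U \ K, ¬ G.Adj a b) (hZ : Indep G Z)
    (h : W G ((U \ K) ∪ Z) k) : W G (U ∪ Z) (comb (max kLam k) 257) := by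
  classical
  set ZB : Set V := {z | z ∈ Z ∧ ∃ v ∈ U \ K, G.Adj v z} with hZB
  set S : Set V := {z | z ∈ Z ∧ ¬ ∃ v ∈ U \ K, G.Adj v z} with hS
  have hZU : ∀ v ∈ Z, v ∉ U := fun v hv hv' => (disjoint_left.1 hd) hv' hv
  have hX : W G (K ∪ S) kLam := laminar_clique hG (hd.mono hKU fun v hv => hv.1) hK
    (hZ.mono fun v hv => hv.1)
  have hY : W G ((U \ K) ∪ ZB) k := h.subset (union_subset_union_right _ fun v hv => hv.1)
  refine W.cut (hX.mono (le_max_left _ _)) (hY.mono (le_max_right _ _)) ?_ ?_ ?_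
  · ext v; constructor
    · rintro (hv | hv)
      · by_cases hvK : v ∈ K
        · exact Or.inl (Or.inl hvK)
        · exact Or.inr (Or.inl ⟨hv, hvK⟩)
      · by_cases hvB : ∃ w ∈ U \ K, G.Adj w v
        · exact Or.inr (Or.inr ⟨hv, hvB⟩)
        · exact Or.inl (Or.inr ⟨hv, hvB⟩)
    · rintro ((hv | hv) | (hv | hv))
      · exact Or.inl (hKU hv)
      · exact Or.inr hv.1
      · exact Or.inl hv.1
      · exact Or.inr hv.1
  · rw [disjoint_left]
    rintro v (hv | hv) (hv' | hv')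
    · exact hv'.2 hv
    · exact hZU v hv'.1 (hKU hv)
    · exact hZU v hv.1 hv'.1
    · exact hv.2 hv'.2
  · have f1 : Few G K ((U \ K) ∪ ZB) (1 * 2 ^ 8) := by
      refine Few.prod (few_anti hKB) ?_
      exact (few_traces hG (hd.mono_left hKU) hK hKB hZ).symm
    have f2 : Few G S ((U \ K) ∪ ZB) 1 := by
      refine few_anti ?_
      rintro s hs b (hb | hb) hsb
      · exact hs.2 ⟨b, hb, hsb.symm⟩
      · exact hZ s hs.1 b hb.1 hsb
    exact (Few.union f1 f2).mono_n (by norm_num)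

/-- the bound of the cluster lemma -/
def kClu : ℕ := max kPS (comb (max kLam (comb (max kLam kFam) 257)) 257)

theorem cluster_bound' [Finite V] (hG : Cls G) {U Z : Set V} (hd : Disjoint U Z)
    (hU : P3Free G U) (hZ : Indep G Z) : W G (U ∪ Z) kClu := by
  classical
  -- the independent case
  have hind : ∀ U' : Set V, U' ⊆ U → Indep G U' → W G (U' ∪ Z) kFam := by
    intro U' hU' hI
    refine nested_family (hd.mono_left hU') hI hZ ?_
    intro a ha b hb z1 hz1 z2 hz2 z hz h1 h2 h3 h4 h5 h6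
    exact hG.R2 (hI a ha b hb) (hZ z1 hz1 z2 hz2) (hZ z1 hz1 z hz) (hZ z2 hz2 z hz) h1 h2 h3 h4
      h5 h6
  have hcl : ∀ u ∈ U, ∀ a ∈ cmp G U u, ∀ b ∈ cmp G U u, a ≠ b → G.Adj a b := by
    intro u hu a ha b hb hab
    rcases ha with ⟨haU, rfl | ha⟩ <;> rcases hb with ⟨hbU, rfl | hb⟩
    · exact absurd rfl hab
    · exact hb.symm
    · exact ha
    · exact hU a haU u hu b hbU ha hb.symm hab
  have hanti : ∀ U' : Set V, U' ⊆ U → ∀ u ∈ U', ∀ a ∈ cmp G U' u, ∀ b ∈ U' \ cmp G U' u,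
      ¬ G.Adj a b := by
    rintro U' hU' u hu a ⟨haU, ha⟩ b ⟨hbU, hb⟩ hab
    apply hb
    refine ⟨hbU, ?_⟩
    by_cases hbu : b = u
    · exact Or.inl hbu
    · rcases ha with rfl | ha
      · exact Or.inr hab.symm
      · exact Or.inr (hU b (hU' hbU) a (hU' haU) u (hU' hu) hab.symm ha hbu)
  by_cases h3 : ∃ x1 ∈ U, ∃ y1 ∈ U, ∃ x2 ∈ U, ∃ y2 ∈ U, ∃ x3 ∈ U, ∃ y3 ∈ U, G.Adj x1 y1 ∧
      G.Adj x2 y2 ∧ G.Adj x3 y3 ∧ x1 ≠ x2 ∧ x1 ≠ x3 ∧ x2 ≠ x3 ∧ ¬ G.Adj x1 x2 ∧ ¬ G.Adj x1 x3 ∧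
      ¬ G.Adj x2 x3
  · -- property P
    refine W.mono ?_ (le_max_left _ _)
    obtain ⟨x1, hx1, y1, hy1, x2, hx2, y2, hy2, x3, hx3, y3, hy3, e1, e2, e3, n12, n13, n23,
      a12, a13, a23⟩ := h3
    refine PSet.bound ⟨hG, hd, hU, hZ, ?_⟩
    rintro z hz ⟨p, hp, p', hp', hzp, hzp', hpp, npp⟩ u hu u' hu' huu
    by_contra hcon
    push Not at hcon
    obtain ⟨hzu, hzu'⟩ := hcon
    -- z cannot have two neighbours outside the component of u
    have key : ∀ a ∈ U, ∀ b ∈ U, G.Adj z a → G.Adj z b → a ≠ b → ¬ G.Adj a b →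
        ∀ v ∈ U, ∀ v' ∈ U, G.Adj v v' → ¬ G.Adj z v → ¬ G.Adj z v' → ¬ G.Adj v a → ¬ G.Adj v b →
        False := by
      intro a ha b hb hza hzb hab nab v hv v' hv' hvv nzv nzv' nva nvb
      have nv'a : ¬ G.Adj v' a := by
        intro hh
        have : v ≠ a := fun e => nzv (e ▸ hza)
        exact nva (hU v hv v' hv' a ha hvv hh this)
      have nv'b : ¬ G.Adj v' b := by
        intro hh
        have : v ≠ b := fun e => nzv (e ▸ hzb)
        exact nvb (hU v hv v' hv' b hb hvv hh this)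
      exact hG.p23 v v' a z b hvv hza.symm hzb hab nab nva (nadj_symm nzv) nvb nv'a
        (nadj_symm nzv') nv'b
    -- wlog p is outside the component of u
    have hout : ∃ a ∈ U, G.Adj z a ∧ ¬ G.Adj u a := by
      by_cases h1 : G.Adj u p
      · refine ⟨p', hp', hzp', fun h2 => npp ?_⟩
        exact hU p hp u hu p' hp' h1.symm h2 hpp
      · exact ⟨p, hp, hzp, h1⟩
    obtain ⟨a, ha, hza, nua⟩ := hout
    have hau : a ≠ u := fun e => hzu (e ▸ hza)
    -- a nontrivial component different from those of u and a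
    have hthird : ∃ x ∈ U, ∃ y ∈ U, G.Adj x y ∧ x ≠ u ∧ ¬ G.Adj x u ∧ x ≠ a ∧ ¬ G.Adj x a := by
      have key2 : ∀ c ∈ U, ∀ x ∈ U, ∀ y ∈ U, x ≠ y → ¬ G.Adj x y →
          (x ≠ c ∧ ¬ G.Adj x c) ∨ (y ≠ c ∧ ¬ G.Adj y c) := by
        intro c hc x hx y hy hxy nxy
        by_contra hcon
        push Not at hcon
        obtain ⟨g1, g2⟩ := hcon
        by_cases hxc : x = c
        · subst hxc
          exact nxy (g2 (Ne.symm hxy)).symm
        · have hxc' := g1 hxc
          by_cases hyc : y = c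
          · subst hyc; exact nxy hxc'
          · exact nxy (hU x hx c hc y hy hxc' (g2 hyc).symm hxy)
      have k12 := key2 u hu x1 hx1 x2 hx2 n12 a12
      have k13 := key2 u hu x1 hx1 x3 hx3 n13 a13
      have k23 := key2 u hu x2 hx2 x3 hx3 n23 a23
      have l12 := key2 a ha x1 hx1 x2 hx2 n12 a12
      have l13 := key2 a ha x1 hx1 x3 hx3 n13 a13
      have l23 := key2 a ha x2 hx2 x3 hx3 n23 a23
      by_cases g1 : (x1 ≠ u ∧ ¬ G.Adj x1 u) ∧ (x1 ≠ a ∧ ¬ G.Adj x1 a)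
      · exact ⟨x1, hx1, y1, hy1, e1, g1.1.1, g1.1.2, g1.2.1, g1.2.2⟩
      by_cases g2 : (x2 ≠ u ∧ ¬ G.Adj x2 u) ∧ (x2 ≠ a ∧ ¬ G.Adj x2 a)
      · exact ⟨x2, hx2, y2, hy2, e2, g2.1.1, g2.1.2, g2.2.1, g2.2.2⟩
      have g3 : (x3 ≠ u ∧ ¬ G.Adj x3 u) ∧ (x3 ≠ a ∧ ¬ G.Adj x3 a) := by
        constructor
        · by_contra hcon
          exact g1 ⟨k13.resolve_right hcon, by
            by_contra hcon2
            exact g2 ⟨k23.resolve_right hcon, l12.resolve_left hcon2⟩⟩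
        · by_contra hcon
          exact g1 ⟨by
            by_contra hcon2
            exact g2 ⟨k12.resolve_left hcon2, l23.resolve_right hcon⟩, l13.resolve_right hcon⟩
      exact ⟨x3, hx3, y3, hy3, e3, g3.1.1, g3.1.2, g3.2.1, g3.2.2⟩
    obtain ⟨x, hx, y, hy, hxy, hxu, nxu, hxa, nxa⟩ := hthird
    -- z hits the edge xy
    have hhit : ∃ w ∈ U, G.Adj z w ∧ w ≠ u ∧ ¬ G.Adj w u ∧ w ≠ a ∧ ¬ G.Adj w a := by
      by_cases h1 : G.Adj z x
      · exact ⟨x, hx, h1, hxu, nxu, hxa, nxa⟩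
      have hyu : y ≠ u := fun e => nxu (e ▸ hxy)
      have hya : y ≠ a := fun e => nxa (e ▸ hxy)
      have nyu : ¬ G.Adj y u := fun hh => nxu (hU x hx y hy u hu hxy hh hxu)
      have nya : ¬ G.Adj y a := fun hh => nxa (hU x hx y hy a ha hxy hh hxa)
      by_cases h2 : G.Adj z y
      · exact ⟨y, hy, h2, hyu, nyu, hya, nya⟩
      · exfalso
        -- x y is missed by z: the pair p, p' or a and one of them is outside
        have hin : G.Adj x p ∨ G.Adj x p' := by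
          by_contra hcon
          push Not at hcon
          exact key p hp p' hp' hzp hzp' hpp npp x hx y hy hxy h1 h2 hcon.1 hcon.2
        have hother : ∃ b ∈ U, G.Adj z b ∧ G.Adj x b := by
          rcases hin with h4 | h4
          · exact ⟨p, hp, hzp, h4⟩
          · exact ⟨p', hp', hzp', h4⟩
        obtain ⟨b, hbU, hzb, hxb⟩ := hother
        have hba : b ≠ a := fun e => nxa (e ▸ hxb)
        have nba : ¬ G.Adj a b := by
          intro hh
          exact nxa (hU x hx b hbU a ha hxb hh.symm hxa)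
        have nub : ¬ G.Adj u b := by
          intro hh
          exact nxu (hU x hx b hbU u hu hxb hh.symm hxu)
        exact key a ha b hbU hza hzb (Ne.symm hba) nba u hu u' hu' huu hzu hzu' nua nub
    obtain ⟨w, hw, hzw, hwu, nwu, hwa, nwa⟩ := hhit
    exact key a ha w hw hza hzw (Ne.symm hwa) (nadj_symm nwa) u hu u' hu' huu hzu hzu' nua
      (nadj_symm nwu)
  · refine W.mono ?_ (le_max_right _ _)
    -- at most two nontrivial components
    have step : ∀ U' : Set V, U' ⊆ U → ∀ u ∈ U', ∀ k : ℕ, W G ((U' \ cmp G U' u) ∪ Z) k →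
        W G (U' ∪ Z) (comb (max kLam k) 257) := by
      intro U' hU' u hu k hk
      refine cut_clique hG (hd.mono_left hU') (fun v hv => hv.1) ?_ (hanti U' hU' u hu) hZ hk
      intro a ha b hb hab
      exact hcl u (hU' hu) a ⟨hU' ha.1, ha.2⟩ b ⟨hU' hb.1, hb.2⟩ hab
    by_cases i1 : Indep G U
    · refine (hind U subset_rfl i1).mono ?_
      refine le_trans ?_ (le_refl (comb (max kLam (comb (max kLam kFam) 257)) 257))
      have h1 : kFam ≤ comb (max kLam kFam) 257 := by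
        unfold comb
        have : kFam ≤ max kLam kFam := le_max_right _ _
        have h0 := Nat.zero_le ((max kLam kFam + 1) * 2 ^ 257)
        omega
      have h2 : comb (max kLam kFam) 257 ≤ comb (max kLam (comb (max kLam kFam) 257)) 257 := by
        refine comb_mono ?_ le_rfl
        exact max_le (le_max_left _ _) (h1.trans (le_max_right _ _))
      exact h1.trans h2
    unfold Indep at i1
    push Not at i1
    obtain ⟨x1, hx1, y1, hy1, e1⟩ := i1
    refine step U subset_rfl x1 hx1 _ ?_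
    by_cases i2 : Indep G (U \ cmp G U x1)
    · refine (hind _ (fun v hv => hv.1) i2).mono ?_
      unfold comb
      have : kFam ≤ max kLam kFam := le_max_right _ _
      have h0 := Nat.zero_le ((max kLam kFam + 1) * 2 ^ 257)
      omega
    unfold Indep at i2
    push Not at i2
    obtain ⟨x2, hx2, y2, hy2, e2⟩ := i2
    refine step (U \ cmp G U x1) (fun v hv => hv.1) x2 hx2 _ ?_
    refine hind _ (fun v hv => hv.1.1) ?_
    intro x3 hx3 y3 hy3 e3
    have out1 : ∀ v ∈ U, v ∉ cmp G U x1 → x1 ≠ v ∧ ¬ G.Adj x1 v := by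
      intro v hv hv1
      exact ⟨fun e => hv1 ⟨hv, Or.inl e.symm⟩, fun hh => hv1 ⟨hv, Or.inr hh.symm⟩⟩
    have o2 := out1 x2 hx2.1 hx2.2
    have o3 := out1 x3 hx3.1.1 hx3.1.2
    have o23 : x2 ≠ x3 ∧ ¬ G.Adj x2 x3 :=
      ⟨fun e => hx3.2 ⟨hx3.1, Or.inl e.symm⟩, fun hh => hx3.2 ⟨hx3.1, Or.inr hh.symm⟩⟩
    exact h3 ⟨x1, hx1, y1, hy1, x2, hx2.1, y2, hy2.1, x3, hx3.1.1, y3, hy3.1.1, e1, e2, e3, o2.1,
      o3.1, o23.1, o2.2, o3.2, o23.2⟩

theorem cluster_bound : ∃ k : ℕ, ∀ (V : Type) [Finite V] (G : SimpleGraph V) (U Z : Set V),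
    Cls G → Disjoint U Z → P3Free G U → Indep G Z → W G (U ∪ Z) k :=
  ⟨kClu, fun _ _ _ _ _ hG hd hU hZ => cluster_bound' hG hd hU hZ⟩

end Pool.Agent.GemWidth
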