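import Pool.Agent.GemWidth.PropP

set_option autoImplicit false

namespace Pool.Agent.GemWidth

open Set

variable {V : Type*} {G : SimpleGraph V}

/-- the big vertices missed by `u` -/
def Mis (G : SimpleGraph V) (U Z : Set V) (u : V) : Set V := {z | z ∈ Z ∧ Big G U z ∧ ¬ G.Adj z u}

theorem Mis.mono {U Z U' Z' : Set V} (hU : U' ⊆ U) (hZ : Z' ⊆ Z) (u : V) :
    Mis G U' Z' u ⊆ Mis G U Z u := fun _ hz => ⟨hZ hz.1, hz.2.1.mono hU, hz.2.2⟩

/-- a conflict component -/
def Conf (G : SimpleGraph V) (U Z : Set V) (a b : V) : Prop :=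
  a ∈ U ∧ b ∈ U ∧ G.Adj a b ∧ (Mis G U Z a).Nonempty ∧ (Mis G U Z b).Nonempty

theorem Conf.symm {U Z : Set V} {a b : V} (h : Conf G U Z a b) : Conf G U Z b a :=
  ⟨h.2.1, h.1, h.2.2.1.symm, h.2.2.2.2, h.2.2.2.1⟩

theorem Conf.mono {U Z U' Z' : Set V} {a b : V} (h : Conf G U' Z' a b) (hU : U' ⊆ U)
    (hZ : Z' ⊆ Z) : Conf G U Z a b :=
  ⟨hU h.1, hU h.2.1, h.2.2.1, h.2.2.2.1.mono (Mis.mono hU hZ a),
    h.2.2.2.2.mono (Mis.mono hU hZ b)⟩

section facts

variable {U Z : Set V} (h : PSet G U Z)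

include h

theorem PSet.mis_adj {a b : V} (ha : a ∈ U) (hb : b ∈ U) (hab : G.Adj a b) {z : V}
    (hz : z ∈ Mis G U Z a) : G.Adj z b :=
  (h.hit z hz.1 hz.2.1 a ha b hb hab).resolve_left hz.2.2

theorem PSet.conf_iso {a b c : V} (hc : Conf G U Z a b) (hcU : c ∈ U) (_hca : c ≠ a)
    (hcb : c ≠ b) : ¬ G.Adj c a := by
  intro hadj
  obtain ⟨haU, hbU, hab, ⟨z, hz⟩, ⟨z', hz'⟩⟩ := hc
  have hcb' : G.Adj c b := h.clus c hcU a haU b hbU hadj hab hcb
  have h1 : G.Adj z b := h.mis_adj haU hbU hab hz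
  have h2 : G.Adj z' a := h.mis_adj hbU haU hab.symm hz'
  have h3 : G.Adj z c := h.mis_adj haU hcU hadj.symm hz
  have h4 : G.Adj z' c := h.mis_adj hbU hcU hcb'.symm hz'
  exact h.cls.lam (i := b) (j := c) (k := a) hcb'.symm hadj hab.symm h3 h4 h1 hz'.2.2 h2 hz.2.2
    (h.ind z hz.1 z' hz'.1)

theorem PSet.conf_iso' {a b c : V} (hc : Conf G U Z a b) (hcU : c ∈ U) (hca : c ≠ a)
    (hcb : c ≠ b) : ¬ G.Adj c b := h.conf_iso hc.symm hcU hcb hca

/-- nested or one-one swap, in terms of missed vertices -/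
theorem PSet.R2m {u v : V} (huv : ¬ G.Adj u v) {z1 z2 z : V} (h1 : z1 ∈ Mis G U Z u)
    (h1' : z1 ∉ Mis G U Z v) (h2 : z2 ∈ Mis G U Z u) (h2' : z2 ∉ Mis G U Z v)
    (h3 : z ∈ Mis G U Z v) (h3' : z ∉ Mis G U Z u) : z1 = z2 := by
  have e : ∀ w x, w ∈ Mis G U Z x → ∀ y, w ∉ Mis G U Z y → G.Adj w y := by
    intro w x hw y hwy
    by_contra hcon
    exact hwy ⟨hw.1, hw.2.1, hcon⟩
  exact h.cls.R2 (a := v) (b := u) (z := z) (nadj_symm huv) (h.ind z1 h1.1 z2 h2.1)
    (h.ind z1 h1.1 z h3.1) (h.ind z2 h2.1 z h3.1) (e z1 u h1 v h1').symm (nadj_symm h1.2.2)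
    (e z2 u h2 v h2').symm (nadj_symm h2.2.2) (e z v h3 u h3').symm (nadj_symm h3.2.2)

/-- the rule for two vertices of `Z` -/
theorem PSet.R2z {v v1 v2 z z' : V} (hz : z ∈ Mis G U Z v) (hz' : z' ∉ Mis G U Z v)
    (h1 : z' ∈ Mis G U Z v1) (h1' : z ∉ Mis G U Z v1) (h2 : z' ∈ Mis G U Z v2)
    (h2' : z ∉ Mis G U Z v2) (h12 : v1 ≠ v2) (n12 : ¬ G.Adj v1 v2) (n1 : ¬ G.Adj v v1)
    (n2 : ¬ G.Adj v v2) : False := by
  have e : ∀ w x, w ∈ Mis G U Z x → ∀ y, w ∉ Mis G U Z y → G.Adj w y := by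
    intro w x hw y hwy
    by_contra hcon
    exact hwy ⟨hw.1, hw.2.1, hcon⟩
  have a1 := e z v hz v1 h1'
  have a2 := e z v hz v2 h2'
  have a3 := e z' v1 h1 v hz'
  exact h.cls.p23 v z' v1 z v2 a3.symm a1.symm a2 h12 n12 n1 (nadj_symm hz.2.2) n2
    h1.2.2 (h.ind z' h1.1 z hz.1) h2.2.2

theorem PSet.mis_disj {a b : V} (ha : a ∈ U) (hb : b ∈ U) (hab : G.Adj a b) {z : V}
    (hz : z ∈ Mis G U Z a) (hz' : z ∈ Mis G U Z b) : False :=
  hz'.2.2 (h.mis_adj ha hb hab hz)

end facts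

/-- bound used below -/
def kP1 : ℕ := max (addN kP0 4) (comb (max kP0 kCell) 4)

theorem PSet.noConf_bound [Finite V] {U Z : Set V} (h : PSet G U Z)
    (hnc : ∀ a b, ¬ Conf G U Z a b) : W G (U ∪ Z) kP0 := by
  refine h.noConflict ?_
  intro a ha b hb hab
  by_contra hcon
  push Not at hcon
  obtain ⟨⟨z, hz, hz1, hz2⟩, z', hz', hz1', hz2'⟩ := hcon
  exact hnc a b ⟨ha, hb, hab, ⟨z, hz, hz1, hz2⟩, ⟨z', hz', hz1', hz2'⟩⟩

/-- cut off a union of conflict components with attached vertices: the common part -/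
theorem PSet.cutoff [Finite V] {U Z : Set V} (h : PSet G U Z) {U' Y : Set V} {k : ℕ}
    (hU' : U' ⊆ U) (hY : Y ⊆ Z)
    (hclosed : ∀ u ∈ U', ∀ v ∈ U, v ∉ U' → ¬ G.Adj u v)
    (lab : V → Prop)
    (hrow : ∀ u ∈ U', ∀ u' ∈ U', (lab u ↔ lab u') → ∀ z ∈ Z, z ∉ Y → Big G U z →
      (G.Adj z u ↔ G.Adj z u'))
    (hrowY : ∀ y ∈ Y, ∀ y' ∈ Y, ∀ u ∈ U, u ∉ U' → (G.Adj y u ↔ G.Adj y' u))
    (hL : W G (U' ∪ Y ∪ {z | z ∈ Z ∧ ¬ Big G U z ∧ ∃ u ∈ U', G.Adj z u}) k)
    (hR : W G ((U \ U') ∪ {z | z ∈ Z ∧ z ∉ Y ∧ ¬ (¬ Big G U z ∧ ∃ u ∈ U', G.Adj z u)}) k) :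
    W G (U ∪ Z) (comb k 8) := by
  classical
  set S : Set V := {z | z ∈ Z ∧ ¬ Big G U z ∧ ∃ u ∈ U', G.Adj z u} with hS
  set Z' : Set V := {z | z ∈ Z ∧ z ∉ Y ∧ ¬ (¬ Big G U z ∧ ∃ u ∈ U', G.Adj z u)} with hZ'
  have hZU : ∀ v ∈ Z, v ∉ U := fun v hv hv' => (disjoint_left.1 h.disj) hv' hv
  refine W.cut hL hR ?_ ?_ ?_
  · ext v; constructor
    · rintro (hv | hv)
      · by_cases hv' : v ∈ U'
        · exact Or.inl (Or.inl (Or.inl hv'))
        · exact Or.inr (Or.inl ⟨hv, hv'⟩)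
      · by_cases hvY : v ∈ Y
        · exact Or.inl (Or.inl (Or.inr hvY))
        · by_cases hvS : ¬ Big G U v ∧ ∃ u ∈ U', G.Adj v u
          · exact Or.inl (Or.inr ⟨hv, hvS⟩)
          · exact Or.inr (Or.inr ⟨hv, hvY, hvS⟩)
    · rintro (((hv | hv) | hv) | (hv | hv))
      · exact Or.inl (hU' hv)
      · exact Or.inr (hY hv)
      · exact Or.inr hv.1
      · exact Or.inl hv.1
      · exact Or.inr hv.1
  · rw [disjoint_left]
    rintro v ((hv | hv) | hv) (hv' | hv')
    · exact hv'.2 hv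
    · exact hZU v hv'.1 (hU' hv)
    · exact hZU v (hY hv) hv'.1
    · exact hv'.2.1 hv
    · exact hZU v hv.1 hv'.1
    · exact hv'.2.2 hv.2
  · refine few_of_label (fun v => (decide (v ∈ U'), decide (lab v), decide (v ∈ Y))) ?_ (by simp)
    intro a ha a' ha' e b hb
    simp only [Prod.mk.injEq, decide_eq_decide] at e
    obtain ⟨e1, e2, e3⟩ := e
    by_cases haU : a ∈ U'
    · have haU' := e1.1 haU
      rcases hb with ⟨hbU, hbU'⟩ | ⟨hbZ, hbY, hbS⟩
      · exact iff_of_false (hclosed a haU b hbU hbU') (hclosed a' haU' b hbU hbU')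
      · by_cases hbb : Big G U b
        · rw [G.adj_comm a b, G.adj_comm a' b]
          exact hrow a haU a' haU' e2 b hbZ hbY hbb
        · exact iff_of_false (fun hh => hbS ⟨hbb, a, haU, hh.symm⟩)
            (fun hh => hbS ⟨hbb, a', haU', hh.symm⟩)
    · have haU' : a' ∉ U' := fun hh => haU (e1.2 hh)
      have inZ : ∀ v, v ∈ U' ∪ Y ∪ S → v ∉ U' → v ∈ Z := by
        rintro v ((hv | hv) | hv) hvU
        · exact absurd hv hvU
        · exact hY hv
        · exact hv.1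
      have haZ := inZ a ha haU
      have haZ' := inZ a' ha' haU'
      rcases hb with ⟨hbU, hbU'⟩ | ⟨hbZ, hbY, hbS⟩
      · by_cases haY : a ∈ Y
        · exact hrowY a haY a' (e3.1 haY) b hbU hbU'
        · have haY' : a' ∉ Y := fun hh => haY (e3.2 hh)
          have haS : a ∈ S := ha.resolve_left fun hh => hh.elim haU haY
          have haS' : a' ∈ S := ha'.resolve_left fun hh => hh.elim haU' haY'
          have key : ∀ s ∈ S, ¬ G.Adj s b := by
            rintro s ⟨hsZ, hsb, u, hu, hsu⟩ hsb'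
            have hub : u ≠ b := fun e => hbU' (e ▸ hu)
            exact hsb ⟨u, hU' hu, b, hbU, hsu, hsb', hub, hclosed u hu b hbU hbU'⟩
          exact iff_of_false (key a haS) (key a' haS')
      · exact iff_of_false (h.ind a haZ b hbZ) (h.ind a' haZ' b hbZ)

/-- stage 1: all missed sets of conflict vertices are singletons -/
theorem PSet.stage1 [Finite V] {U Z : Set V} (h : PSet G U Z)
    (hsub : ∀ a b, Conf G U Z a b → (Mis G U Z a).Subsingleton) :
    W G (U ∪ Z) (max (addN kP0 4) (comb (max kP0 kCell) 8)) := by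
  classical
  set U' : Set V := {c | ∃ d, Conf G U Z c d} with hU'
  have hU'U : U' ⊆ U := fun c ⟨d, hd⟩ => hd.1
  by_cases h3 : ∃ c1 ∈ U', ∃ c2 ∈ U', ∃ c3 ∈ U', c1 ≠ c2 ∧ c1 ≠ c3 ∧ c2 ≠ c3 ∧
      ¬ G.Adj c1 c2 ∧ ¬ G.Adj c1 c3 ∧ ¬ G.Adj c2 c3
  · refine W.mono ?_ (le_max_right _ _)
    obtain ⟨c1, h1, c2, h2, c3, h3', n12, n13, n23, a12, a13, a23⟩ := h3
    have third : ∀ c ∈ U, ∀ c' ∈ U, ∃ e ∈ U', e ≠ c ∧ ¬ G.Adj e c ∧ e ≠ c' ∧ ¬ G.Adj e c' := by
      intro c hc c' hc'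
      have key : ∀ c ∈ U, ∀ x ∈ U, ∀ y ∈ U, x ≠ y → ¬ G.Adj x y →
          (x ≠ c ∧ ¬ G.Adj x c) ∨ (y ≠ c ∧ ¬ G.Adj y c) := by
        intro c hc x hx y hy hxy nxy
        by_contra hcon
        push Not at hcon
        obtain ⟨g1, g2⟩ := hcon
        by_cases hxc : x = c
        · subst hxc
          have := g2 (Ne.symm hxy)
          exact nxy this.symm
        · have hxc' := g1 hxc
          by_cases hyc : y = c
          · subst hyc; exact nxy hxc'
          · exact nxy (h.clus x hx c hc y hy hxc' (g2 hyc).symm hxy)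
      have k12 := key c hc c1 (hU'U h1) c2 (hU'U h2) n12 a12
      have k13 := key c hc c1 (hU'U h1) c3 (hU'U h3') n13 a13
      have k23 := key c hc c2 (hU'U h2) c3 (hU'U h3') n23 a23
      have l12 := key c' hc' c1 (hU'U h1) c2 (hU'U h2) n12 a12
      have l13 := key c' hc' c1 (hU'U h1) c3 (hU'U h3') n13 a13
      have l23 := key c' hc' c2 (hU'U h2) c3 (hU'U h3') n23 a23
      by_cases g1 : (c1 ≠ c ∧ ¬ G.Adj c1 c) ∧ (c1 ≠ c' ∧ ¬ G.Adj c1 c')
      · exact ⟨c1, h1, g1.1.1, g1.1.2, g1.2.1, g1.2.2⟩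
      by_cases g2 : (c2 ≠ c ∧ ¬ G.Adj c2 c) ∧ (c2 ≠ c' ∧ ¬ G.Adj c2 c')
      · exact ⟨c2, h2, g2.1.1, g2.1.2, g2.2.1, g2.2.2⟩
      have g3 : (c3 ≠ c ∧ ¬ G.Adj c3 c) ∧ (c3 ≠ c' ∧ ¬ G.Adj c3 c') := by
        constructor
        · by_contra hcon
          exact g1 ⟨k13.resolve_right hcon, by
            by_contra hcon2
            exact g2 ⟨k23.resolve_right hcon, l12.resolve_left hcon2⟩⟩
        · by_contra hcon
          exact g1 ⟨by
            by_contra hcon2
            exact g2 ⟨k12.resolve_left hcon2, l23.resolve_right hcon⟩, l13.resolve_right hcon⟩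
      exact ⟨c3, h3', g3.1.1, g3.1.2, g3.2.1, g3.2.2⟩
    -- missed sets of different conflict vertices are disjoint
    have q1 : ∀ c ∈ U', ∀ c' ∈ U', c ≠ c' → ∀ x, x ∈ Mis G U Z c → x ∈ Mis G U Z c' → False := by
      rintro c ⟨d, hcd⟩ c' ⟨d', hcd'⟩ hne x hx hx'
      by_cases hadj : G.Adj c c'
      · exact h.mis_disj hcd.1 hcd'.1 hadj hx hx'
      obtain ⟨e, ⟨e', hee⟩, ne1, ae1, ne2, ae2⟩ := third c hcd.1 c' hcd'.1
      -- one of e, e' is not missed by x
      have key : ∀ p, p ∈ U → p ≠ c → ¬ G.Adj p c → p ≠ c' → ¬ G.Adj p c' → x ∉ Mis G U Z p →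
          (Mis G U Z p).Nonempty → False := by
        rintro p hp hpc apc hpc' apc' hxp ⟨w, hw⟩
        have hwx : w ≠ x := fun e => hxp (e ▸ hw)
        have w1 : w ∉ Mis G U Z c := fun hh => hwx (hsub c d hcd hh hx)
        have w2 : w ∉ Mis G U Z c' := fun hh => hwx (hsub c' d' hcd' hh hx')
        exact h.R2z hw hxp hx w1 hx' w2 hne hadj apc apc'
      by_cases hxe : x ∈ Mis G U Z e
      · have hxe' : x ∉ Mis G U Z e' := fun hh => h.mis_disj hee.1 hee.2.1 hee.2.2.1 hxe hh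
        have he'c : e' ≠ c := fun hh => ae1 (hh ▸ hee.2.2.1)
        have he'c' : e' ≠ c' := fun hh => ae2 (hh ▸ hee.2.2.1)
        refine key e' hee.2.1 he'c ?_ he'c' ?_ hxe' hee.2.2.2.2
        · exact fun hh => h.conf_iso' hee hcd.1 (Ne.symm ne1) (Ne.symm he'c) hh.symm
        · exact fun hh => h.conf_iso' hee hcd'.1 (Ne.symm ne2) (Ne.symm he'c') hh.symm
      · exact key e hee.1 ne1 ae1 ne2 ae2 hxe hee.2.2.2.1
    have q2 : ∀ c ∈ U', ∀ c' ∈ U', ∀ x ∈ Mis G U Z c, ∀ w ∈ Mis G U Z c', ∀ u ∈ U, u ∉ U' →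
        x ∈ Mis G U Z u → w ∈ Mis G U Z u := by
      rintro c ⟨d, hcd⟩ c' ⟨d', hcd'⟩ x hx w hw u hu huU' hxu
      by_contra hwu
      have huc : u ≠ c := fun e => huU' (e ▸ ⟨d, hcd⟩)
      have huc' : u ≠ c' := fun e => huU' (e ▸ ⟨d', hcd'⟩)
      have hud : u ≠ d := fun e => huU' (e ▸ ⟨c, hcd.symm⟩)
      have hud' : u ≠ d' := fun e => huU' (e ▸ ⟨c', hcd'.symm⟩)
      have nuc : ¬ G.Adj u c := h.conf_iso hcd hu huc hud
      have nuc' : ¬ G.Adj u c' := h.conf_iso hcd' hu huc' hud'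
      have hxw : x ≠ w := fun e => hwu (e ▸ hxu)
      have hxc' : x ∉ Mis G U Z c' := fun hh => hxw (hsub c' d' hcd' hh hw)
      -- M(u) is the singleton x
      have hsing : ∀ y ∈ Mis G U Z u, y = x := by
        intro y hy
        have hyc' : y ∉ Mis G U Z c' := by
          intro hh
          have : y = w := hsub c' d' hcd' hh hw
          exact hwu (this ▸ hy)
        exact h.R2m nuc' hy hyc' hxu hxc' hw hwu
      obtain ⟨e, ⟨e', hee⟩, ne1, ae1, ne2, ae2⟩ := third c hcd.1 c hcd.1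
      have heU' : e ∈ U' := ⟨e', hee⟩
      have hue : u ≠ e := fun hh => huU' (hh ▸ heU')
      have hue' : u ≠ e' := fun hh => huU' (hh ▸ ⟨e, hee.symm⟩)
      have nue : ¬ G.Adj u e := h.conf_iso hee hu hue hue'
      obtain ⟨ω, hω⟩ := hee.2.2.2.1
      have hxe : x ∉ Mis G U Z e := fun hh => q1 c ⟨d, hcd⟩ e heU' (Ne.symm ne1) x hx hh
      have hωx : ω ≠ x := fun hh => hxe (hh ▸ hω)
      have hωu : ω ∉ Mis G U Z u := fun hh => hωx (hsing ω hh)
      have hωc : ω ∉ Mis G U Z c := fun hh => hωx (hsub c d hcd hh hx)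
      exact h.R2z hω hxe hxu hωu hx hωc huc nuc (nadj_symm nue) ae1
    set Y : Set V := {y | y ∈ Z ∧ ∃ c ∈ U', y ∈ Mis G U Z c} with hY
    have hYZ : Y ⊆ Z := fun y hy => hy.1
    set S : Set V := {z | z ∈ Z ∧ ¬ Big G U z ∧ ∃ u ∈ U', G.Adj z u} with hS
    refine h.cutoff (U' := U') (Y := Y) (lab := fun _ => True) hU'U hYZ ?_ ?_ ?_ ?_ ?_
    · rintro u ⟨d, hud⟩ v hv hvU' huv
      have hvu : v ≠ u := fun e => hvU' (e ▸ ⟨d, hud⟩)
      have hvd : v ≠ d := fun e => hvU' (e ▸ ⟨u, hud.symm⟩)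
      exact h.conf_iso hud hv hvu hvd huv.symm
    · intro u hu u' hu' _ z hz hzY hzb
      have key : ∀ u ∈ U', G.Adj z u := by
        intro u hu
        by_contra hcon
        exact hzY ⟨hz, u, hu, hz, hzb, hcon⟩
      exact iff_of_true (key u hu) (key u' hu')
    · rintro y ⟨hy, c, hc, hyc⟩ y' ⟨hy', c', hc', hyc'⟩ u hu huU'
      have b1 := hyc.2.1
      have b2 := hyc'.2.1
      constructor
      · intro hyu
        by_contra hcon
        exact (q2 c' hc' c hc y' hyc' y hyc u hu huU' ⟨hy', b2, hcon⟩).2.2 hyu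
      · intro hyu
        by_contra hcon
        exact (q2 c hc c' hc' y hyc y' hyc' u hu huU' ⟨hy, b1, hcon⟩).2.2 hyu
    · refine W.mono ?_ (le_max_right _ _)
      set f : V → V := fun y => if hh : ∃ c ∈ U', y ∈ Mis G U Z c then hh.choose else y with hf
      have hfs : ∀ y ∈ Y, f y ∈ U' ∧ y ∈ Mis G U Z (f y) := by
        rintro y ⟨_, hh⟩
        have : f y = hh.choose := by simp only [hf]; rw [dif_pos hh]
        rw [this]; exact hh.choose_spec
      refine h.cells hU'U hYZ (fun z hz => hz.1) f (fun y hy => (hfs y hy).1) ?_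
        (fun z hz => ⟨hz.2.1, hz.2.2⟩) (fun _ => True) ?_ ?_
      · rw [disjoint_left]
        rintro y ⟨_, c, hc, hyc⟩ hyS
        exact hyS.2.1 hyc.2.1
      · intro u hu y hy hne _
        refine iff_of_true ?_ trivial
        by_contra hcon
        exact q1 _ (hfs y hy).1 u hu hne y (hfs y hy).2 ⟨hy.1, (hfs y hy).2.2.1, hcon⟩
      · rintro u ⟨d, hud⟩
        obtain ⟨x, hx⟩ := hud.2.2.2.1
        obtain ⟨y, hy⟩ := hud.2.2.2.2
        refine ⟨{u, d, x, y}, Finset.card_le_four, ?_, ?_⟩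
        · rintro v hv ⟨hvU, hvu | hvu⟩
          · simp [hvu]
          · by_cases hvd : v = d
            · simp [hvd]
            · exact absurd hvu (h.conf_iso hud hvU hvu.ne hvd)
        · intro w hw hfw
          have hw2 := (hfs w hw).2
          have : f w = u ∨ f w = d := by
            rcases hfw with ⟨hfU, hfu | hfu⟩
            · exact Or.inl hfu
            · by_cases hvd : f w = d
              · exact Or.inr hvd
              · exact absurd hfu (h.conf_iso hud hfU hfu.ne hvd)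
          rcases this with e | e
          · rw [e] at hw2
            simp [hsub u d hud hw2 hx]
          · rw [e] at hw2
            simp [hsub d u hud.symm hw2 hy]
    · refine W.mono ?_ (le_max_left _ _)
      refine PSet.noConf_bound (h.mono (fun v hv => hv.1) (fun v hv => hv.1)) ?_
      intro a b hab
      have hab' : Conf G U Z a b := hab.mono (fun v hv => hv.1) (fun v hv => hv.1)
      exact hab.1.2 ⟨b, hab'⟩
  · refine W.mono ?_ (le_max_left _ _)
    -- at most two conflict components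
    have hF : ∃ F : Finset V, F.card ≤ 4 ∧ ∀ u ∈ U', u ∈ F := by
      by_cases e1 : U' = ∅
      · exact ⟨∅, by simp, by simp [e1]⟩
      obtain ⟨c1, hc1⟩ := Set.nonempty_iff_ne_empty.2 e1
      obtain ⟨d1, hcd1⟩ := id hc1
      by_cases e2 : ∀ u ∈ U', u = c1 ∨ u = d1
      · exact ⟨{c1, d1}, le_trans Finset.card_le_two (by norm_num), fun u hu => by
          simpa using e2 u hu⟩
      push Not at e2
      obtain ⟨c2, hc2, n1, n2⟩ := e2
      obtain ⟨d2, hcd2⟩ := id hc2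
      refine ⟨{c1, d1, c2, d2}, Finset.card_le_four, fun u hu => ?_⟩
      by_contra hcon
      simp only [Finset.mem_insert, Finset.mem_singleton, not_or] at hcon
      obtain ⟨m1, m2, m3, m4⟩ := hcon
      exact h3 ⟨c1, hc1, c2, hc2, u, hu, Ne.symm n1, Ne.symm m1, Ne.symm m3,
        nadj_symm (h.conf_iso hcd1 hcd2.1 n1 n2),
        nadj_symm (h.conf_iso hcd1 (hU'U hu) m1 m2),
        nadj_symm (h.conf_iso hcd2 (hU'U hu) m3 m4)⟩
    obtain ⟨F, hF4, hF⟩ := hF
    have h1 : W G ((U ∪ Z) \ (F : Set V)) kP0 := by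
      have h2 : PSet G (U \ U') Z := h.mono (fun v hv => hv.1) subset_rfl
      have h3 : W G ((U \ U') ∪ Z) kP0 := by
        refine h2.noConf_bound ?_
        intro a b hab
        have hab' : Conf G U Z a b := hab.mono (fun v hv => hv.1) subset_rfl
        exact hab.1.2 ⟨b, hab'⟩
      refine h3.subset ?_
      rintro v ⟨hv | hv, hvF⟩
      · exact Or.inl ⟨hv, fun hh => hvF (hF v hh)⟩
      · exact Or.inr hv
    exact (W.of_diff_finset F h1).mono (addN_mono hF4)

/-- oriented conflict components of type 2 -/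
def T2 (G : SimpleGraph V) (U Z : Set V) (a b : V) : Prop :=
  Conf G U Z a b ∧ (Mis G U Z b).Subsingleton ∧ ¬ (Mis G U Z a).Subsingleton

/-- the bound of stage 2 -/
def kS2 : ℕ := comb (max (max (addN kP0 4) (comb (max kP0 kCell) 8)) kCell) 8

/-- stage 2: in every conflict component one of the missed sets is a singleton -/
theorem PSet.stage2 [Finite V] {U Z : Set V} (h : PSet G U Z)
    (hsub : ∀ a b, Conf G U Z a b → (Mis G U Z a).Subsingleton ∨ (Mis G U Z b).Subsingleton) :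
    W G (U ∪ Z) kS2 := by
  classical
  set A2 : Set V := {a | ∃ b, T2 G U Z a b} with hA2
  set B2 : Set V := {b | ∃ a, T2 G U Z a b} with hB2
  have hAB : ∀ v ∈ A2, v ∉ B2 := by
    rintro v ⟨b, hb⟩ ⟨a, ha⟩
    exact hb.2.2 ha.2.1
  have hAU : A2 ⊆ U := fun a ⟨b, hb⟩ => hb.1.1
  have hBU : B2 ⊆ U := fun b ⟨a, ha⟩ => ha.1.2.1
  -- uniqueness of partners
  have huniq : ∀ a b a' b', T2 G U Z a b → T2 G U Z a' b' → a ≠ a' →
      a' ≠ b ∧ b' ≠ a ∧ b' ≠ b ∧ ¬ G.Adj a a' ∧ ¬ G.Adj a b' ∧ ¬ G.Adj b a' ∧ ¬ G.Adj b b' := by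
    intro a b a' b' h1 h2 hne
    have e1 : a' ≠ b := fun e => h2.2.2 (e ▸ h1.2.1)
    have e2 : b' ≠ a := fun e => h1.2.2 (e ▸ h2.2.1)
    have n1 : ¬ G.Adj a' a := h.conf_iso h1.1 h2.1.1 (Ne.symm hne) e1
    have n2 : ¬ G.Adj a' b := h.conf_iso' h1.1 h2.1.1 (Ne.symm hne) e1
    have e3 : b' ≠ b := fun e => n2 (e ▸ h2.1.2.2.1)
    have n3 : ¬ G.Adj b' a := h.conf_iso h1.1 h2.1.2.1 e2 e3
    have n4 : ¬ G.Adj b' b := h.conf_iso' h1.1 h2.1.2.1 e2 e3
    exact ⟨e1, e2, e3, nadj_symm n1, nadj_symm n3, nadj_symm n2, nadj_symm n4⟩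
  have two : ∀ a b, T2 G U Z a b → ∀ y, ∃ u ∈ Mis G U Z a, u ≠ y := by
    intro a b hab y
    by_contra hcon
    push Not at hcon
    exact hab.2.2 fun u hu v hv => (hcon u hu).trans (hcon v hv).symm
  have p1 : ∀ a b a' b', T2 G U Z a b → T2 G U Z a' b' → a ≠ a' →
      ∀ y' ∈ Mis G U Z b', y' ∈ Mis G U Z a := by
    intro a b a' b' h1 h2 hne y' hy'
    by_contra hcon
    obtain ⟨_, _, _, _, nab', _, _⟩ := huniq a b a' b' h1 h2 hne
    obtain ⟨u, hu, huy⟩ := two a b h1 y'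
    obtain ⟨u', hu', huu⟩ := two a b h1 u
    have g1 : u ∉ Mis G U Z b' := fun hh => huy (h2.2.1 hh hy')
    have g2 : u' ∉ Mis G U Z b' := fun hh => hcon ((h2.2.1 hh hy') ▸ hu')
    exact huu (h.R2m nab' hu' g2 hu g1 hy' hcon)
  have p2 : ∀ a b a' b', T2 G U Z a b → T2 G U Z a' b' → a ≠ a' →
      ∀ y ∈ Mis G U Z b, ∀ y' ∈ Mis G U Z b', ∀ z, z ≠ y' → z ∈ Mis G U Z a →
      z ∈ Mis G U Z a' := by
    intro a b a' b' h1 h2 hne y hy y' hy' z hz hza
    by_contra hcon
    obtain ⟨_, _, _, naa', _, _, _⟩ := huniq a b a' b' h1 h2 hne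
    have g1 := p1 a b a' b' h1 h2 hne y' hy'
    have g2 := p1 a' b' a b h2 h1 (Ne.symm hne) y hy
    have g3 : y' ∉ Mis G U Z a' := fun hh => h.mis_disj h2.1.1 h2.1.2.1 h2.1.2.2.1 hh hy'
    have g4 : y ∉ Mis G U Z a := fun hh => h.mis_disj h1.1.1 h1.1.2.1 h1.1.2.2.1 hh hy
    exact hz (h.R2m naa' hza hcon g1 g3 g2 g4)
  have p3 : ∀ a b a' b', T2 G U Z a b → T2 G U Z a' b' → a ≠ a' →
      ∀ y ∈ Mis G U Z b, ∀ y' ∈ Mis G U Z b', ∀ u ∈ U, u ≠ a → u ≠ b → u ≠ a' → u ≠ b' →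
      y ∈ Mis G U Z u → y' ∈ Mis G U Z u := by
    intro a b a' b' h1 h2 hne y hy y' hy' u hu hua hub hua' hub' hyu
    by_contra hcon
    have nua : ¬ G.Adj u a := h.conf_iso h1.1 hu hua hub
    have nub' : ¬ G.Adj u b' := h.conf_iso' h2.1 hu hua' hub'
    have g1 := p1 a b a' b' h1 h2 hne y' hy'
    have g4 : y ∉ Mis G U Z a := fun hh => h.mis_disj h1.1.1 h1.1.2.1 h1.1.2.2.1 hh hy
    obtain ⟨w, hw, hwy⟩ := two a b h1 y'
    have hwu : w ∈ Mis G U Z u := by
      by_contra hwu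
      exact hwy (h.R2m (nadj_symm nua) hw hwu g1 hcon hyu g4)
    have hwy' : w ≠ y := fun e => g4 (e ▸ hw)
    have k1 : w ∉ Mis G U Z b' := fun hh => hwy (h2.2.1 hh hy')
    have k2 : y ∉ Mis G U Z b' := by
      intro hh
      have := h2.2.1 hh hy'
      exact hcon (this ▸ hyu)
    exact hwy' (h.R2m nub' hwu k1 hyu k2 hy' hcon)
  set U' : Set V := A2 ∪ B2 with hU'
  have hU'U : U' ⊆ U := union_subset hAU hBU
  have hclosed' : ∀ a b, T2 G U Z a b → ∀ v ∈ U, v ∉ U' → ¬ G.Adj a v ∧ ¬ G.Adj b v ∧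
      v ≠ a ∧ v ≠ b := by
    intro a b hab v hv hvU'
    have hva : v ≠ a := fun e => hvU' (e ▸ Or.inl ⟨b, hab⟩)
    have hvb : v ≠ b := fun e => hvU' (e ▸ Or.inr ⟨a, hab⟩)
    exact ⟨nadj_symm (h.conf_iso hab.1 hv hva hvb), nadj_symm (h.conf_iso' hab.1 hv hva hvb),
      hva, hvb⟩
  set Y : Set V := {y | y ∈ Z ∧ ∃ a, ∃ b, T2 G U Z a b ∧ y ∈ Mis G U Z b} with hY
  have hYZ : Y ⊆ Z := fun y hy => hy.1
  refine h.cutoff (U' := U') (Y := Y) (lab := fun v => v ∈ A2) hU'U hYZ ?_ ?_ ?_ ?_ ?_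
  · rintro u (⟨b, hub⟩ | ⟨a, hau⟩) v hv hvU'
    · exact (hclosed' u b hub v hv hvU').1
    · exact (hclosed' a u hau v hv hvU').2.1
  · intro u hu u' hu' hlab z hz hzY hzb
    by_cases huA : u ∈ A2
    · have huA' := hlab.1 huA
      obtain ⟨b, hub⟩ := huA
      obtain ⟨b', hub'⟩ := huA'
      by_cases hne : u = u'
      · rw [hne]
      · obtain ⟨y, hy⟩ := hub.1.2.2.2.2
        obtain ⟨y', hy'⟩ := hub'.1.2.2.2.2
        have hzy : z ≠ y := fun e => hzY ⟨hz, u, b, hub, e ▸ hy⟩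
        have hzy' : z ≠ y' := fun e => hzY ⟨hz, u', b', hub', e ▸ hy'⟩
        constructor
        · intro hzu
          by_contra hcon
          exact (p2 u' b' u b hub' hub (Ne.symm hne) y' hy' y hy z hzy ⟨hz, hzb, hcon⟩).2.2 hzu
        · intro hzu
          by_contra hcon
          exact (p2 u b u' b' hub hub' hne y hy y' hy' z hzy' ⟨hz, hzb, hcon⟩).2.2 hzu
    · have huA' : u' ∉ A2 := fun hh => huA (hlab.2 hh)
      have key : ∀ v ∈ U', v ∉ A2 → G.Adj z v := by
        rintro v (hv | ⟨a, hav⟩) hvA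
        · exact absurd hv hvA
        · by_contra hcon
          exact hzY ⟨hz, a, v, hav, hz, hzb, hcon⟩
      exact iff_of_true (key u hu huA) (key u' hu' huA')
  · rintro y ⟨hyZ, a, b, hab, hyb⟩ y' ⟨hyZ', a', b', hab', hyb'⟩ u hu huU'
    have k1 := hclosed' a b hab u hu huU'
    have k2 := hclosed' a' b' hab' u hu huU'
    by_cases hne : a = a'
    · subst hne
      -- same component
      have hbb : b = b' := by
        by_contra hbb
        have e1 : b' ≠ a := fun e => hab.2.2 (e ▸ hab'.2.1)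
        exact h.conf_iso hab.1 hab'.1.2.1 e1 (Ne.symm hbb) hab'.1.2.2.1.symm
      subst hbb
      rw [hab.2.1 hyb hyb']
    · constructor
      · intro hyu
        by_contra hcon
        exact (p3 a' b' a b hab' hab (Ne.symm hne) y' hyb' y hyb u hu k2.2.2.1 k2.2.2.2 k1.2.2.1
          k1.2.2.2 ⟨hyZ', hyb'.2.1, hcon⟩).2.2 hyu
      · intro hyu
        by_contra hcon
        exact (p3 a b a' b' hab hab' hne y hyb y' hyb' u hu k1.2.2.1 k1.2.2.2 k2.2.2.1
          k2.2.2.2 ⟨hyZ, hyb.2.1, hcon⟩).2.2 hyu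
  · refine W.mono ?_ (le_max_right _ _)
    set f : V → V := fun y => if hh : ∃ a, ∃ b, T2 G U Z a b ∧ y ∈ Mis G U Z b then hh.choose
      else y with hf
    have hfs : ∀ y ∈ Y, ∃ b, T2 G U Z (f y) b ∧ y ∈ Mis G U Z b := by
      rintro y ⟨_, hh⟩
      have : f y = hh.choose := by simp only [hf]; rw [dif_pos hh]
      rw [this]; exact hh.choose_spec
    refine h.cells hU'U hYZ (fun z hz => hz.1) f (fun y hy => ?_) ?_
      (fun z hz => ⟨hz.2.1, hz.2.2⟩) (fun v => v ∈ B2) ?_ ?_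
    · obtain ⟨b, hb, _⟩ := hfs y hy
      exact Or.inl ⟨b, hb⟩
    · rw [disjoint_left]
      rintro y ⟨_, a, b, _, hyb⟩ hyS
      exact hyS.2.1 hyb.2.1
    · rintro u hu y hy hne hnadj
      obtain ⟨b, hb, hyb⟩ := hfs y hy
      by_cases huB : u ∈ B2
      · refine iff_of_true ?_ huB
        obtain ⟨a', ha'⟩ := huB
        by_contra hcon
        have hyu : y ∈ Mis G U Z u := ⟨hy.1, hyb.2.1, hcon⟩
        have hne' : f y ≠ a' := by
          intro e
          rw [e] at hnadj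
          exact hnadj ha'.1.2.2.1
        -- y missed by u=b', but y' = y in M(f y)
        have := p1 (f y) b a' u hb ha' hne' y hyu
        exact h.mis_disj hb.1.1 hb.1.2.1 hb.1.2.2.1 this hyb
      · refine iff_of_false ?_ huB
        have huA : u ∈ A2 := hu.resolve_right huB
        obtain ⟨b', hb'⟩ := huA
        intro hadj
        exact (p1 u b' (f y) b hb' hb (Ne.symm hne) y hyb).2.2 hadj
    · intro u hu
      have hpair : ∀ a b, T2 G U Z a b → ∃ F : Finset V, F.card ≤ 4 ∧ a ∈ F ∧ b ∈ F ∧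
          ∀ y ∈ Y, (f y = a ∨ f y = b) → y ∈ F := by
        intro a b hab
        obtain ⟨y, hy⟩ := hab.1.2.2.2.2
        refine ⟨{a, b, y, y}, Finset.card_le_four, by simp, by simp, ?_⟩
        intro w hw hfw
        obtain ⟨b', hb', hwb'⟩ := hfs w hw
        have hfa : f w = a := by
          rcases hfw with e | e
          · exact e
          · exfalso
            rw [e] at hb'
            exact hb'.2.2 hab.2.1
        rw [hfa] at hb'
        have hbb : b = b' := by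
          by_contra hbb
          have e1 : b' ≠ a := fun e => hab.2.2 (e ▸ hb'.2.1)
          exact h.conf_iso hab.1 hb'.1.2.1 e1 (Ne.symm hbb) hb'.1.2.2.1.symm
        subst hbb
        have : w = y := hab.2.1 hwb' hy
        simp [this]
      have hcmp : ∀ a b, T2 G U Z a b → ∀ v, v ∈ cmp G U a ∨ v ∈ cmp G U b → v = a ∨ v = b := by
        intro a b hab v hv
        by_contra hcon
        push Not at hcon
        rcases hv with ⟨hvU, e | e⟩ | ⟨hvU, e | e⟩
        · exact hcon.1 e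
        · exact h.conf_iso hab.1 hvU hcon.1 hcon.2 e
        · exact hcon.2 e
        · exact h.conf_iso' hab.1 hvU hcon.1 hcon.2 e
      rcases hu with ⟨b, hub⟩ | ⟨a, hau⟩
      · obtain ⟨F, hF4, ha, hb, hF⟩ := hpair u b hub
        refine ⟨F, hF4, ?_, ?_⟩
        · intro v _ hv
          rcases hcmp u b hub v (Or.inl hv) with e | e
          · rw [e]; exact ha
          · rw [e]; exact hb
        · intro y hy hfy
          exact hF y hy (hcmp u b hub _ (Or.inl hfy))
      · obtain ⟨F, hF4, ha, hb, hF⟩ := hpair a u hau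
        refine ⟨F, hF4, ?_, ?_⟩
        · intro v _ hv
          rcases hcmp a u hau v (Or.inr hv) with e | e
          · rw [e]; exact ha
          · rw [e]; exact hb
        · intro y hy hfy
          exact hF y hy (hcmp a u hau _ (Or.inr hfy))
  · refine W.mono ?_ (le_max_left _ _)
    refine PSet.stage1 (h.mono (fun v hv => hv.1) (fun v hv => hv.1)) ?_
    intro a b hab
    have hab' : Conf G U Z a b := hab.mono (fun v hv => hv.1) (fun v hv => hv.1)
    have hsubm := Mis.mono (G := G) (U := U) (Z := Z) (U' := U \ U')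
      (Z' := {z | z ∈ Z ∧ z ∉ Y ∧ ¬ (¬ Big G U z ∧ ∃ u ∈ U', G.Adj z u)})
      (fun v hv => hv.1) (fun v hv => hv.1) a
    have : (Mis G U Z a).Subsingleton := by
      rcases hsub a b hab' with h1 | h1
      · exact h1
      · by_contra hcon
        exact hab.1.2 (Or.inl ⟨b, hab', h1, hcon⟩)
    exact this.anti hsubm

/-- the bound for the sets with property P -/
def kPS : ℕ := max kS2 (comb kP0 32)

/-- a conflict component with two large missed sets, or stage 2 -/
theorem PSet.bound [Finite V] {U Z : Set V} (h : PSet G U Z) : W G (U ∪ Z) kPS := by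
  classical
  by_cases hex : ∃ a b, Conf G U Z a b ∧ ¬ (Mis G U Z a).Subsingleton ∧
      ¬ (Mis G U Z b).Subsingleton
  · refine W.mono ?_ (le_max_right _ _)
    obtain ⟨a, b, hab, ha2, hb2⟩ := hex
    have two : ∀ x, ¬ (Mis G U Z x).Subsingleton → ∀ y, ∃ u ∈ Mis G U Z x, u ≠ y := by
      intro x hx y
      by_contra hcon
      push Not at hcon
      exact hx fun u hu v hv => (hcon u hu).trans (hcon v hv).symm
    -- every other conflict vertex misses exactly one vertex of M(a) and one of M(b)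
    have meets : ∀ c, c ∈ U → ∀ x, ¬ (Mis G U Z x).Subsingleton → ¬ G.Adj c x →
        (Mis G U Z c).Nonempty → ∃ w ∈ Mis G U Z c, w ∈ Mis G U Z x := by
      rintro c _ x hx ncx ⟨w, hw⟩
      by_contra hcon
      push Not at hcon
      obtain ⟨u, hu, -⟩ := two x hx w
      obtain ⟨u', hu', huu⟩ := two x hx u
      have g : ∀ v ∈ Mis G U Z x, v ∉ Mis G U Z c := fun v hv hv' => hcon v hv' hv
      exact huu (h.R2m (nadj_symm ncx) hu' (g u' hu') hu (g u hu) hw (hcon w hw))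
    have shape : ∀ c d, Conf G U Z c d → c ≠ a → c ≠ b → ∃ x ∈ Mis G U Z a, ∃ y ∈ Mis G U Z b,
        (∀ m, m ∈ Mis G U Z c ↔ m = x ∨ m = y) ∧ ∃ x' ∈ Mis G U Z a, ∃ y' ∈ Mis G U Z b,
          (∀ m ∈ Mis G U Z a, m = x ∨ m = x') ∧ (∀ m ∈ Mis G U Z b, m = y ∨ m = y') := by
      intro c d hcd hca hcb
      have nca : ¬ G.Adj c a := h.conf_iso hab hcd.1 hca hcb
      have ncb : ¬ G.Adj c b := h.conf_iso' hab hcd.1 hca hcb
      have hda : d ≠ a := fun e => nca (e ▸ hcd.2.2.1)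
      have hdb : d ≠ b := fun e => ncb (e ▸ hcd.2.2.1)
      have nda : ¬ G.Adj d a := h.conf_iso hab hcd.2.1 hda hdb
      have ndb : ¬ G.Adj d b := h.conf_iso' hab hcd.2.1 hda hdb
      obtain ⟨x, hxc, hxa⟩ := meets c hcd.1 a ha2 nca hcd.2.2.2.1
      obtain ⟨y, hyc, hyb⟩ := meets c hcd.1 b hb2 ncb hcd.2.2.2.1
      obtain ⟨x', hxd, hxa'⟩ := meets d hcd.2.1 a ha2 nda hcd.2.2.2.2
      obtain ⟨y', hyd, hyb'⟩ := meets d hcd.2.1 b hb2 ndb hcd.2.2.2.2
      have dis : ∀ z, z ∈ Mis G U Z c → z ∈ Mis G U Z d → False := fun z g g' =>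
        h.mis_disj hcd.1 hcd.2.1 hcd.2.2.1 g g'
      have disab : ∀ z, z ∈ Mis G U Z a → z ∈ Mis G U Z b → False := fun z g g' =>
        h.mis_disj hab.1 hab.2.1 hab.2.2.1 g g'
      have hx'c : x' ∉ Mis G U Z c := fun hh => dis _ hh hxd
      have hy'c : y' ∉ Mis G U Z c := fun hh => dis _ hh hyd
      have hxb : x ∉ Mis G U Z b := fun hh => disab _ hxa hh
      have hya : y ∉ Mis G U Z a := fun hh => disab _ hh hyb
      -- M(c) \ M(a) = {y}, M(c) \ M(b) = {x}
      have g1 : ∀ m ∈ Mis G U Z c, m ∉ Mis G U Z a → m = y := fun m hm hma =>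
        h.R2m nca hm hma hyc hya hxa' hx'c
      have g2 : ∀ m ∈ Mis G U Z c, m ∉ Mis G U Z b → m = x := fun m hm hmb =>
        h.R2m ncb hm hmb hxc hxb hyb' hy'c
      have g3 : ∀ m ∈ Mis G U Z a, m ∉ Mis G U Z c → m = x' := fun m hm hmc =>
        h.R2m (nadj_symm nca) hm hmc hxa' hx'c hyc hya
      have g4 : ∀ m ∈ Mis G U Z b, m ∉ Mis G U Z c → m = y' := fun m hm hmc =>
        h.R2m (nadj_symm ncb) hm hmc hyb' hy'c hxc hxb
      refine ⟨x, hxa, y, hyb, ?_, x', hxa', y', hyb', ?_, ?_⟩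
      · intro m; constructor
        · intro hm
          by_cases hma : m ∈ Mis G U Z a
          · exact Or.inl (g2 m hm fun hh => disab _ hma hh)
          · exact Or.inr (g1 m hm hma)
        · rintro (rfl | rfl)
          · exact hxc
          · exact hyc
      · intro m hm
        by_cases hmc : m ∈ Mis G U Z c
        · exact Or.inl (g2 m hmc fun hh => disab _ hm hh)
        · exact Or.inr (g3 m hm hmc)
      · intro m hm
        by_cases hmc : m ∈ Mis G U Z c
        · exact Or.inl (g1 m hmc fun hh => disab _ hh hm)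
        · exact Or.inr (g4 m hm hmc)
    obtain ⟨s, hs, -⟩ := two a ha2 a
    obtain ⟨t, ht, -⟩ := two b hb2 b
    -- equality of missed sets from the two bits
    have hsame : ∀ c d c' d', Conf G U Z c d → Conf G U Z c' d' → c ≠ a → c ≠ b → c' ≠ a →
        c' ≠ b → (G.Adj s c ↔ G.Adj s c') → (G.Adj t c ↔ G.Adj t c') →
        ∀ m, m ∈ Mis G U Z c → m ∈ Mis G U Z c' := by
      intro c d c' d' hcd hcd' n1 n2 n3 n4 es et m hm
      obtain ⟨x, hx, y, hy, hM, x', hx', y', hy', hA, hB⟩ := shape c d hcd n1 n2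
      obtain ⟨p, hp, q, hq, hM', p', hp', q', hq', hA', hB'⟩ := shape c' d' hcd' n3 n4
      have disab : ∀ z, z ∈ Mis G U Z a → z ∈ Mis G U Z b → False := fun z g g' =>
        h.mis_disj hab.1 hab.2.1 hab.2.2.1 g g'
      have adjs : ∀ v, G.Adj s v ↔ s ∉ Mis G U Z v := fun v =>
        ⟨fun h1 h2 => h2.2.2 h1, fun h1 => by
          by_contra hcon; exact h1 ⟨hs.1, hs.2.1, hcon⟩⟩
      have adjt : ∀ v, G.Adj t v ↔ t ∉ Mis G U Z v := fun v =>
        ⟨fun h1 h2 => h2.2.2 h1, fun h1 => by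
          by_contra hcon; exact h1 ⟨ht.1, ht.2.1, hcon⟩⟩
      rw [adjs, adjs, hM, hM'] at es
      rw [adjt, adjt, hM, hM'] at et
      have sy : s ≠ y := fun e => disab _ hs (e ▸ hy)
      have sq : s ≠ q := fun e => disab _ hs (e ▸ hq)
      have tx : t ≠ x := fun e => disab _ (e ▸ hx) ht
      have tp : t ≠ p := fun e => disab _ (e ▸ hp) ht
      have exp : x = p := by
        by_cases h1 : s = x
        · have h2 : s = p := by
            by_contra hcon
            have : ¬ (s = x ∨ s = y) := es.2 (fun hh => hh.elim hcon sq)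
            exact this (Or.inl h1)
          rw [← h1, ← h2]
        · have h2 : s ≠ p := by
            intro hh
            have : ¬ (s = p ∨ s = q) := es.1 (fun hh => hh.elim h1 sy)
            exact this (Or.inl hh)
          have h3 : s = x' := (hA s hs).resolve_left h1
          have h4 := (hA p hp)
          rcases h4 with h4 | h4
          · exact h4.symm
          · exact absurd (h3.trans h4.symm) h2
      have eyq : y = q := by
        by_cases h1 : t = y
        · have h2 : t = q := by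
            by_contra hcon
            have : ¬ (t = x ∨ t = y) := et.2 (fun hh => hh.elim tp hcon)
            exact this (Or.inr h1)
          rw [← h1, ← h2]
        · have h2 : t ≠ q := by
            intro hh
            have : ¬ (t = p ∨ t = q) := et.1 (fun hh => hh.elim tx h1)
            exact this (Or.inr hh)
          have h3 : t = y' := (hB t ht).resolve_left h1
          have h4 := (hB q hq)
          rcases h4 with h4 | h4
          · exact h4.symm
          · exact absurd (h3.trans h4.symm) h2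
      rw [hM'] 
      rw [hM] at hm
      rw [← exp, ← eyq]; exact hm
    -- the cut
    set U' : Set V := {c | ∃ d, Conf G U Z c d} with hU'
    have hU'U : U' ⊆ U := fun c ⟨d, hd⟩ => hd.1
    set S : Set V := {z | z ∈ Z ∧ ¬ Big G U z ∧ ∃ u ∈ U', G.Adj z u} with hS
    have hclosed : ∀ u ∈ U', ∀ v ∈ U, v ∉ U' → ¬ G.Adj u v := by
      rintro u ⟨d, hud⟩ v hv hvU' huv
      have hvu : v ≠ u := fun e => hvU' (e ▸ ⟨d, hud⟩)
      have hvd : v ≠ d := fun e => hvU' (e ▸ ⟨u, hud.symm⟩)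
      exact h.conf_iso hud hv hvu hvd huv.symm
    have hZU : ∀ v ∈ Z, v ∉ U := fun v hv hv' => (disjoint_left.1 h.disj) hv' hv
    have hL : W G (U' ∪ S) kP0 := by
      refine PSet.noConf_bound (h.mono hU'U (fun z hz => hz.1)) ?_
      rintro c d ⟨_, _, _, ⟨z, hz⟩, _⟩
      exact hz.1.2.1 (hz.2.1.mono hU'U)
    have hR : W G ((U \ U') ∪ (Z \ S)) kP0 := by
      refine PSet.noConf_bound (h.mono (fun v hv => hv.1) (fun v hv => hv.1)) ?_
      intro c d hcd
      have hcd' : Conf G U Z c d := hcd.mono (fun v hv => hv.1) (fun v hv => hv.1)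
      exact hcd.1.2 ⟨d, hcd'⟩
    refine W.cut hL hR ?_ ?_ ?_
    · ext v; constructor
      · rintro (hv | hv)
        · by_cases hv' : v ∈ U'
          · exact Or.inl (Or.inl hv')
          · exact Or.inr (Or.inl ⟨hv, hv'⟩)
        · by_cases hv' : v ∈ S
          · exact Or.inl (Or.inr hv')
          · exact Or.inr (Or.inr ⟨hv, hv'⟩)
      · rintro ((hv | hv) | (hv | hv))
        · exact Or.inl (hU'U hv)
        · exact Or.inr hv.1
        · exact Or.inl hv.1
        · exact Or.inr hv.1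
    · rw [disjoint_left]
      rintro v (hv | hv) (hv' | hv')
      · exact hv'.2 hv
      · exact hZU v hv'.1 (hU'U hv)
      · exact hZU v hv.1 hv'.1
      · exact hv'.2 hv
    · refine few_of_label (fun v => ((decide (v = a), decide (v = b)), (decide (v ∈ U'),
        (decide (G.Adj s v), decide (G.Adj t v))))) ?_ (by simp)
      intro c hc c' hc' e z hz
      simp only [Prod.mk.injEq, decide_eq_decide] at e
      obtain ⟨⟨e1, e2⟩, e3, e4, e5⟩ := e
      by_cases hcU : c ∈ U'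
      · have hcU' := e3.1 hcU
        rcases hz with ⟨hzU, hzU'⟩ | ⟨hzZ, hzS⟩
        · exact iff_of_false (hclosed c hcU z hzU hzU') (hclosed c' hcU' z hzU hzU')
        · by_cases hzb : Big G U z
          · by_cases ca : c = a
            · rw [ca, e1.1 ca]
            by_cases cb : c = b
            · rw [cb, e2.1 cb]
            have ca' : c' ≠ a := fun hh => ca (e1.2 hh)
            have cb' : c' ≠ b := fun hh => cb (e2.2 hh)
            obtain ⟨d, hcd⟩ := hcU
            obtain ⟨d', hcd'⟩ := hcU'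
            constructor
            · intro hcz
              by_contra hcon
              have hm : z ∈ Mis G U Z c' := ⟨hzZ, hzb, fun hh => hcon hh.symm⟩
              exact (hsame c' d' c d hcd' hcd ca' cb' ca cb e4.symm e5.symm z hm).2.2 hcz.symm
            · intro hcz
              by_contra hcon
              have hm : z ∈ Mis G U Z c := ⟨hzZ, hzb, fun hh => hcon hh.symm⟩
              exact (hsame c d c' d' hcd hcd' ca cb ca' cb' e4 e5 z hm).2.2 hcz.symm
          · exact iff_of_false (fun hh => hzS ⟨hzZ, hzb, c, hcU, hh.symm⟩)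
              (fun hh => hzS ⟨hzZ, hzb, c', hcU', hh.symm⟩)
      · have hcU' : c' ∉ U' := fun hh => hcU (e3.2 hh)
        have hcS := hc.resolve_left hcU
        have hcS' := hc'.resolve_left hcU'
        rcases hz with ⟨hzU, hzU'⟩ | ⟨hzZ, hzS⟩
        · have key : ∀ s ∈ S, ¬ G.Adj s z := by
            rintro s ⟨hsZ, hsb, u, hu, hsu⟩ hsz
            have huz : u ≠ z := fun e => hzU' (e ▸ hu)
            exact hsb ⟨u, hU'U hu, z, hzU, hsu, hsz, huz, hclosed u hu z hzU hzU'⟩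
          exact iff_of_false (key c hcS) (key c' hcS')
        · exact iff_of_false (h.ind c hcS.1 z hzZ) (h.ind c' hcS'.1 z hzZ)
  · push Not at hex
    refine W.mono ?_ (le_max_left _ _)
    refine h.stage2 ?_
    intro a b hab
    by_cases h1 : (Mis G U Z a).Subsingleton
    · exact Or.inl h1
    · exact Or.inr (hex a b hab (Set.not_subsingleton_iff.1 h1))

end Pool.Agent.GemWidth
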