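import Pool.Agent.GemWidth.Cls

set_option autoImplicit false

namespace Pool.Agent.GemWidth

open Set

/-- label expressions: the least family closed under the four clique-width operations -/
inductive Exp {V ι : Type} : Set V → (V → ι) → SimpleGraph V → Prop
  | single (v : V) (l0 : V → ι) : Exp {v} l0 ⊥
  | union (S1 S2 : Set V) (l1 l2 l0 : V → ι) (H1 H2 : SimpleGraph V) :
      Exp S1 l1 H1 → Exp S2 l2 H2 → Disjoint S1 S2 →
      (∀ u ∈ S1, l0 u = l1 u) → (∀ u ∈ S2, l0 u = l2 u) → Exp (S1 ∪ S2) l0 (H1 ⊔ H2)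
  | join (S : Set V) (l0 : V → ι) (H H' : SimpleGraph V) (i j : ι) :
      Exp S l0 H → i ≠ j →
      (∀ u v : V, H'.Adj u v ↔ (H.Adj u v ∨
        (u ∈ S ∧ v ∈ S ∧ ((l0 u = i ∧ l0 v = j) ∨ (l0 u = j ∧ l0 v = i))))) → Exp S l0 H'
  | relabel (S : Set V) (l0 l' : V → ι) (H : SimpleGraph V) (i j : ι) :
      Exp S l0 H → (∀ u ∈ S, (l0 u = i → l' u = j) ∧ (l0 u ≠ i → l' u = l0 u)) → Exp S l' H

section ExpLemmas

variable {V ι : Type} {S : Set V} {l l' : V → ι} {H : SimpleGraph V}

theorem Exp.congr (h : Exp S l H) (hl : ∀ u ∈ S, l' u = l u) : Exp S l' H := by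
  by_cases hV : Nonempty V
  · obtain ⟨v⟩ := hV
    refine Exp.relabel S l l' H (l v) (l v) h ?_
    intro u hu
    exact ⟨fun e => by rw [hl u hu, e], fun _ => hl u hu⟩
  · have : l' = l := by
      funext v; exact absurd ⟨v⟩ hV
    rw [this]; exact h

/-- relabel a finite set of labels at once, to labels outside the set -/
theorem Exp.relabel_finset [DecidableEq ι] (h : Exp S l H) (D : Finset ι) (f : ι → ι)
    (hf : ∀ d ∈ D, f d ∉ D) : Exp S (fun u => if l u ∈ D then f (l u) else l u) H := by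
  induction D using Finset.induction_on with
  | empty => exact h.congr fun u _ => by simp
  | insert d D hd ih =>
    have ih' := ih fun e he h2 => hf e (Finset.mem_insert_of_mem he) (Finset.mem_insert_of_mem h2)
    refine Exp.relabel S _ _ H d (f d) ih' ?_
    intro u _
    by_cases h1 : l u ∈ D
    · have h2 : f (l u) ≠ d := fun e =>
        hf (l u) (Finset.mem_insert_of_mem h1) (by rw [e]; exact Finset.mem_insert_self _ _)
      refine ⟨fun e => absurd (by simpa [h1] using e) h2, fun _ => ?_⟩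
      simp [h1]
    · by_cases h3 : l u = d
      · refine ⟨fun _ => by simp [h3], fun e => absurd (by simp [h3, hd]) e⟩
      · refine ⟨fun e => absurd (by simpa [h1] using e) h3, fun _ => ?_⟩
        simp [h1, h3]

/-- the graph of joins between the labels `(0,p.1)` and `(1,p.2)`, `p ∈ L` -/
def joinG {n : ℕ} (S : Set V) (l : V → Fin 3 × Fin n) (L : Finset (Fin n × Fin n)) :
    SimpleGraph V where
  Adj u v := ∃ p ∈ L, u ∈ S ∧ v ∈ S ∧
    ((l u = (0, p.1) ∧ l v = (1, p.2)) ∨ (l u = (1, p.2) ∧ l v = (0, p.1)))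
  symm := ⟨by
    rintro u v ⟨p, hp, hu, hv, h | h⟩
    · exact ⟨p, hp, hv, hu, Or.inr ⟨h.2, h.1⟩⟩
    · exact ⟨p, hp, hv, hu, Or.inl ⟨h.2, h.1⟩⟩⟩
  loopless := ⟨by
    rintro u ⟨p, hp, hu, hv, h | h⟩
    · have := h.1.symm.trans h.2
      simp at this
    · have := h.1.symm.trans h.2
      simp at this⟩

theorem Exp.joins {n : ℕ} {l : V → Fin 3 × Fin n} (h : Exp S l H) (L : Finset (Fin n × Fin n)) :
    Exp S l (H ⊔ joinG S l L) := by
  classical
  induction L using Finset.induction_on with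
  | empty =>
    have : H ⊔ joinG S l ∅ = H := by
      ext u v
      simp [joinG]
    rw [this]; exact h
  | insert p L hp ih =>
    refine Exp.join S l _ _ (0, p.1) (1, p.2) ih (by simp) ?_
    intro u v
    simp only [SimpleGraph.sup_adj, joinG, Finset.mem_insert]
    constructor
    · rintro (h1 | ⟨q, rfl | hq, hu, hv, h2⟩)
      · exact Or.inl (Or.inl h1)
      · exact Or.inr ⟨hu, hv, h2⟩
      · exact Or.inl (Or.inr ⟨q, hq, hu, hv, h2⟩)
    · rintro ((h1 | ⟨q, hq, hu, hv, h2⟩) | ⟨hu, hv, h2⟩)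
      · exact Or.inl h1
      · exact Or.inr ⟨q, Or.inr hq, hu, hv, h2⟩
      · exact Or.inr ⟨p, Or.inl rfl, hu, hv, h2⟩

/-- edges of `G` inside `A` -/
def inG (G : SimpleGraph V) (A : Set V) : SimpleGraph V where
  Adj u v := G.Adj u v ∧ u ∈ A ∧ v ∈ A
  symm := ⟨fun _ _ h => ⟨h.1.symm, h.2.2, h.2.1⟩⟩
  loopless := ⟨fun _ h => h.1.ne rfl⟩

theorem exp_of_tree {G : SimpleGraph V} {n : ℕ} [Nonempty V] {A : Set V}
    (hn : 0 < n)
    (h : Tree (fun A => Few G A (univ \ A) n) A) :
    A = ∅ ∨ ∃ c : V → Fin n, (∀ a ∈ A, ∀ a' ∈ A, c a = c a' → ∀ b ∉ A, (G.Adj a b ↔ G.Adj a' b)) ∧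
      Exp A (fun v => ((0 : Fin 3), c v)) (inG G A) := by
  classical
  induction h with
  | empty => exact Or.inl rfl
  | single v =>
    refine Or.inr ⟨fun _ => ⟨0, hn⟩, ?_, ?_⟩
    · intro a ha a' ha' _ b _
      simp only [mem_singleton_iff] at ha ha'
      subst ha; subst ha'; exact Iff.rfl
    · have : inG G {v} = ⊥ := by
        ext x y
        simp only [inG, mem_singleton_iff, SimpleGraph.bot_adj, iff_false]
        rintro ⟨h1, rfl, rfl⟩
        exact h1.ne rfl
      rw [this]; exact Exp.single v _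
  | union A B hd hA hB hP ihA ihB =>
    rcases ihA with rfl | ⟨cA, hcA, eA⟩
    · rw [empty_union]; exact ihB
    rcases ihB with rfl | ⟨cB, hcB, eB⟩
    · rw [union_empty]; exact Or.inr ⟨cA, hcA, eA⟩
    obtain ⟨cC, hcC⟩ := hP
    have hAne : ∀ a ∈ A, ∃ a' ∈ A, cA a' = cA a := fun a ha => ⟨a, ha, rfl⟩
    -- representatives
    let rA : Fin n → V := fun i => if h : ∃ a ∈ A, cA a = i then h.choose else Classical.arbitrary V
    let rB : Fin n → V := fun i => if h : ∃ a ∈ B, cB a = i then h.choose else Classical.arbitrary V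
    have hrA : ∀ a ∈ A, rA (cA a) ∈ A ∧ cA (rA (cA a)) = cA a := by
      intro a ha
      have h : ∃ a' ∈ A, cA a' = cA a := ⟨a, ha, rfl⟩
      simp only [rA, dif_pos h]
      exact h.choose_spec
    have hrB : ∀ a ∈ B, rB (cB a) ∈ B ∧ cB (rB (cB a)) = cB a := by
      intro a ha
      have h : ∃ a' ∈ B, cB a' = cB a := ⟨a, ha, rfl⟩
      simp only [rB, dif_pos h]
      exact h.choose_spec
    let c' : V → Fin n := fun v => if v ∈ A then cC (rA (cA v)) else cC (rB (cB v))
    refine Or.inr ⟨c', ?_, ?_⟩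
    · -- rows
      have key : ∀ v ∈ A ∪ B, ∃ w ∈ A ∪ B, c' v = cC w ∧ ∀ b ∉ A ∪ B, (G.Adj v b ↔ G.Adj w b) := by
        rintro v hv
        by_cases hvA : v ∈ A
        · refine ⟨rA (cA v), Or.inl (hrA v hvA).1, by simp [c', hvA], ?_⟩
          intro b hb
          exact hcA v hvA _ (hrA v hvA).1 (hrA v hvA).2.symm b fun h => hb (Or.inl h)
        · have hvB : v ∈ B := hv.resolve_left hvA
          refine ⟨rB (cB v), Or.inr (hrB v hvB).1, by simp [c', hvA], ?_⟩
          intro b hb
          exact hcB v hvB _ (hrB v hvB).1 (hrB v hvB).2.symm b fun h => hb (Or.inr h)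
      intro a ha a' ha' e b hb
      obtain ⟨w, hw, e1, h1⟩ := key a ha
      obtain ⟨w', hw', e1', h1'⟩ := key a' ha'
      rw [h1 b hb, h1' b hb]
      exact hcC w hw w' hw' (by rw [← e1, ← e1', e]) b ⟨mem_univ b, hb⟩
    · -- the expression
      -- move B to block 1
      have eB1 := Exp.relabel_finset eB (Finset.univ.filter fun x : Fin 3 × Fin n => x.1 = 0)
        (fun x => (1, x.2)) (by intro d _; simp)
      have eB2 : Exp B (fun v => ((1 : Fin 3), cB v)) (inG G B) := eB1.congr fun u _ => by simp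
      -- union
      let l0 : V → Fin 3 × Fin n := fun v => if v ∈ A then (0, cA v) else (1, cB v)
      have eU : Exp (A ∪ B) l0 (inG G A ⊔ inG G B) := by
        refine Exp.union A B _ _ l0 _ _ eA eB2 hd ?_ ?_
        · intro u hu; simp [l0, hu]
        · intro u hu
          have : u ∉ A := fun h => (disjoint_left.1 hd) h hu
          simp [l0, this]
      -- joins
      let L : Finset (Fin n × Fin n) := Finset.univ.filter fun p => ∃ a ∈ A, ∃ b ∈ B,
        cA a = p.1 ∧ cB b = p.2 ∧ G.Adj a b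
      have eJ := eU.joins L
      have hBA : ∀ b ∈ B, b ∉ A := fun b hb h => (disjoint_left.1 hd) h hb
      have hAB : ∀ a ∈ A, a ∉ B := fun a ha h => (disjoint_left.1 hd) ha h
      have hL : ∀ a ∈ A, ∀ b ∈ B, ((cA a, cB b) ∈ L ↔ G.Adj a b) := by
        intro a ha b hb
        simp only [L, Finset.mem_filter, Finset.mem_univ, true_and]
        constructor
        · rintro ⟨a', ha', b', hb', e1, e2, hadj⟩
          have h1 : G.Adj a b' := (hcA a' ha' a ha e1 b' (hBA b' hb')).1 hadj
          exact ((hcB b' hb' b hb e2 a (hAB a ha)).1 h1.symm).symm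
        · intro hadj
          exact ⟨a, ha, b, hb, rfl, rfl, hadj⟩
      have hgraph : (inG G A ⊔ inG G B) ⊔ joinG (A ∪ B) l0 L = inG G (A ∪ B) := by
        ext u v
        simp only [SimpleGraph.sup_adj, inG, joinG]
        constructor
        · rintro ((⟨h1, h2, h3⟩ | ⟨h1, h2, h3⟩) | ⟨p, hp, hu, hv, h | h⟩)
          · exact ⟨h1, Or.inl h2, Or.inl h3⟩
          · exact ⟨h1, Or.inr h2, Or.inr h3⟩
          · by_cases huA : u ∈ A
            · by_cases hvA : v ∈ A
              · simp [l0, hvA] at h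
              · have hvB : v ∈ B := hv.resolve_left hvA
                simp only [l0, huA, hvA, if_true, if_false, Prod.mk.injEq, true_and] at h
                refine ⟨(hL u huA v hvB).1 ?_, hu, hv⟩
                rw [h.1, h.2]; exact hp
            · simp [l0, huA] at h
          · by_cases hvA : v ∈ A
            · by_cases huA : u ∈ A
              · simp [l0, huA] at h
              · have huB : u ∈ B := hu.resolve_left huA
                simp only [l0, huA, hvA, if_true, if_false, Prod.mk.injEq, true_and] at h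
                refine ⟨((hL v hvA u huB).1 ?_).symm, hu, hv⟩
                rw [h.1, h.2]; exact hp
            · simp [l0, hvA] at h
        · rintro ⟨h1, h2, h3⟩
          by_cases huA : u ∈ A <;> by_cases hvA : v ∈ A
          · exact Or.inl (Or.inl ⟨h1, huA, hvA⟩)
          · have hvB : v ∈ B := h3.resolve_left hvA
            refine Or.inr ⟨(cA u, cB v), (hL u huA v hvB).2 h1, h2, h3, Or.inl ?_⟩
            simp [l0, huA, hvA]
          · have huB : u ∈ B := h2.resolve_left huA
            refine Or.inr ⟨(cA v, cB u), (hL v hvA u huB).2 h1.symm, h2, h3, Or.inr ?_⟩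
            simp [l0, huA, hvA]
          · exact Or.inl (Or.inr ⟨h1, h2.resolve_left huA, h3.resolve_left hvA⟩)
      rw [hgraph] at eJ
      -- relabel to block 2
      have e2 := Exp.relabel_finset eJ (Finset.univ.filter fun x : Fin 3 × Fin n => x.1 ≠ 2)
        (fun x => (2, if x.1 = 0 then cC (rA x.2) else cC (rB x.2))) (by intro d _; simp)
      have e3 : Exp (A ∪ B) (fun v => ((2 : Fin 3), c' v)) (inG G (A ∪ B)) := by
        refine e2.congr ?_
        intro u _
        by_cases huA : u ∈ A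
        · simp [l0, c', huA]
        · simp [l0, c', huA]
      have e4 := Exp.relabel_finset e3 (Finset.univ.filter fun x : Fin 3 × Fin n => x.1 = 2)
        (fun x => (0, x.2)) (by intro d _; simp)
      exact e4.congr fun u _ => by simp

/-- transport of expressions along an equivalence of the label types -/
theorem Exp.map {κ : Type} (e : ι ≃ κ) (P : Set V → (V → κ) → SimpleGraph V → Prop)
    (h1 : ∀ (v : V) (l0 : V → κ), P ({v} : Set V) l0 ⊥)
    (h2 : ∀ (S1 S2 : Set V) (l1 l2 l0 : V → κ) (H1 H2 : SimpleGraph V),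
          P S1 l1 H1 → P S2 l2 H2 → Disjoint S1 S2 →
          (∀ u ∈ S1, l0 u = l1 u) → (∀ u ∈ S2, l0 u = l2 u) →
          P (S1 ∪ S2) l0 (H1 ⊔ H2))
    (h3 : ∀ (S : Set V) (l0 : V → κ) (H H' : SimpleGraph V) (i j : κ),
          P S l0 H → i ≠ j →
          (∀ u v : V, H'.Adj u v ↔ (H.Adj u v ∨
              (u ∈ S ∧ v ∈ S ∧ ((l0 u = i ∧ l0 v = j) ∨ (l0 u = j ∧ l0 v = i))))) →
          P S l0 H')
    (h4 : ∀ (S : Set V) (l0 l' : V → κ) (H : SimpleGraph V) (i j : κ),
          P S l0 H →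
          (∀ u ∈ S, (l0 u = i → l' u = j) ∧ (l0 u ≠ i → l' u = l0 u)) →
          P S l' H)
    (h : Exp S l H) : P S (fun v => e (l v)) H := by
  induction h with
  | single v l0 => exact h1 v _
  | union S1 S2 l1 l2 l0 H1 H2 _ _ hd hu1 hu2 ih1 ih2 =>
    exact h2 S1 S2 _ _ _ H1 H2 ih1 ih2 hd (fun u hu => by rw [hu1 u hu])
      (fun u hu => by rw [hu2 u hu])
  | join S l0 H H' i j _ hij hadj ih =>
    refine h3 S _ H H' (e i) (e j) ih (fun h => hij (e.injective h)) ?_
    intro u v
    rw [hadj u v]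
    simp only [e.injective.eq_iff]
  | relabel S l0 l' H i j _ hu ih =>
    refine h4 S _ _ H (e i) (e j) ih ?_
    intro u huS
    refine ⟨fun h => ?_, fun h => ?_⟩
    · rw [(hu u huS).1 (e.injective h)]
    · rw [(hu u huS).2 fun h' => h (by rw [h'])]

end ExpLemmas

/-- conversion of the width parameter into clique-width, in the form used by the frozen statement -/
theorem cw_of_W {V : Type} [Nonempty V] (G : SimpleGraph V) (k : ℕ) (h : W G univ k) :
    ∃ l : V → Fin (3 * (k + 1)), ∀ P : Set V → (V → Fin (3 * (k + 1))) → SimpleGraph V → Prop,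
      (∀ (v : V) (l0 : V → Fin (3 * (k + 1))), P ({v} : Set V) l0 ⊥) →
      (∀ (S1 S2 : Set V) (l1 l2 l0 : V → Fin (3 * (k + 1))) (H1 H2 : SimpleGraph V),
          P S1 l1 H1 → P S2 l2 H2 → Disjoint S1 S2 →
          (∀ u ∈ S1, l0 u = l1 u) → (∀ u ∈ S2, l0 u = l2 u) →
          P (S1 ∪ S2) l0 (H1 ⊔ H2)) →
      (∀ (S : Set V) (l0 : V → Fin (3 * (k + 1))) (H H' : SimpleGraph V) (i j : Fin (3 * (k + 1))),
          P S l0 H → i ≠ j →
          (∀ u v : V, H'.Adj u v ↔ (H.Adj u v ∨
              (u ∈ S ∧ v ∈ S ∧ ((l0 u = i ∧ l0 v = j) ∨ (l0 u = j ∧ l0 v = i))))) →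
          P S l0 H') →
      (∀ (S : Set V) (l0 l' : V → Fin (3 * (k + 1))) (H : SimpleGraph V) (i j : Fin (3 * (k + 1))),
          P S l0 H →
          (∀ u ∈ S, (l0 u = i → l' u = j) ∧ (l0 u ≠ i → l' u = l0 u)) →
          P S l' H) →
      P Set.univ l G := by
  have hT : Tree (fun A => Few G A (univ \ A) (k + 1)) (univ : Set V) :=
    Tree.imp h fun B _ hB => hB.1.few
  rcases exp_of_tree (Nat.succ_pos k) hT with h0 | ⟨c, _, hc⟩
  · exact absurd h0 (by
      intro h1
      obtain ⟨v⟩ := (inferInstance : Nonempty V)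
      have : v ∈ (∅ : Set V) := h1 ▸ mem_univ v
      exact this)
  · have hG : inG G univ = G := by
      ext u v; simp [inG]
    rw [hG] at hc
    refine ⟨fun v => finProdFinEquiv ((0 : Fin 3), c v), ?_⟩
    intro P h1 h2 h3 h4
    exact Exp.map finProdFinEquiv P h1 h2 h3 h4 hc

/-- the hypotheses of the frozen statement give `Cls G` -/
theorem cls_of_isEmpty {V : Type} (G : SimpleGraph V)
    (h1 : IsEmpty ((SimpleGraph.fromRel (fun a b : Fin 5 => a.val + 1 = b.val ∧ b.val ≤ 3))ᶜ ↪g G))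
    (h2 : IsEmpty (SimpleGraph.fromRel (fun a b : Fin 5 =>
        (a.val = 0 ∧ b.val = 1) ∨ (a.val = 2 ∧ b.val = 3) ∨ (a.val = 3 ∧ b.val = 4)) ↪g G)) :
    Cls G := by
  constructor
  · intro h a b c d ha hb hc hd ab bc cd nac nad nbd
    have eac : a ≠ c := by rintro rfl; exact nad cd
    have ead : a ≠ d := by rintro rfl; exact nac cd.symm
    have ebd : b ≠ d := by rintro rfl; exact nad ab
    refine h1.elim ⟨⟨![b, d, a, c, h], ?_⟩, ?_⟩
    · intro i j hij
      fin_cases i <;> fin_cases j <;>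
        simp_all [ab.ne, ab.ne.symm, bc.ne, bc.ne.symm, cd.ne, cd.ne.symm, ha.ne, ha.ne.symm,
          hb.ne, hb.ne.symm, hc.ne, hc.ne.symm, hd.ne, hd.ne.symm, eac.symm, ead.symm, ebd.symm]
    · intro i j
      change G.Adj (![b, d, a, c, h] i) (![b, d, a, c, h] j) ↔ _
      fin_cases i <;> fin_cases j <;>
        simp [SimpleGraph.compl_adj, SimpleGraph.fromRel_adj, ab, ab.symm, bc, bc.symm, cd, cd.symm,
          ha, ha.symm, hb, hb.symm, hc, hc.symm, hd, hd.symm, nac, nadj_symm nac, nad,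
          nadj_symm nad, nbd, nadj_symm nbd]
  · intro u v x y z uv xy yz exz nxz nux nuy nuz nvx nvy nvz
    have e1 : u ≠ x := by rintro rfl; exact nvx uv.symm
    have e2 : u ≠ y := by rintro rfl; exact nvy uv.symm
    have e3 : u ≠ z := by rintro rfl; exact nvz uv.symm
    have e4 : v ≠ x := by rintro rfl; exact nux uv
    have e5 : v ≠ y := by rintro rfl; exact nuy uv
    have e6 : v ≠ z := by rintro rfl; exact nuz uv
    refine h2.elim ⟨⟨![u, v, x, y, z], ?_⟩, ?_⟩
    · intro i j hij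
      fin_cases i <;> fin_cases j <;>
        simp_all [uv.ne, uv.ne.symm, xy.ne, xy.ne.symm, yz.ne, yz.ne.symm, exz.symm, e1.symm,
          e2.symm, e3.symm, e4.symm, e5.symm, e6.symm]
    · intro i j
      change G.Adj (![u, v, x, y, z] i) (![u, v, x, y, z] j) ↔ _
      fin_cases i <;> fin_cases j <;>
        simp [SimpleGraph.fromRel_adj, uv, uv.symm, xy, xy.symm, yz, yz.symm, nxz, nadj_symm nxz,
          nux, nadj_symm nux, nuy, nadj_symm nuy, nuz, nadj_symm nuz, nvx, nadj_symm nvx, nvy,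
          nadj_symm nvy, nvz, nadj_symm nvz]

end Pool.Agent.GemWidth
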