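import Pool.Agent.GemWidth.EO

set_option autoImplicit false

namespace Pool.Agent.GemWidth

open Set

variable {V : Type}

/-- the hypotheses of the EO+ lemma -/
structure EOP (G : SimpleGraph V) (E O Z : Set V) (a0 b0 a1 b1 : V) : Prop where
  cls : Cls G
  c5 : NoC5 G
  dEO : Disjoint E O
  dEZ : Disjoint E Z
  dOZ : Disjoint O Z
  iZ : Indep G Z
  ab0 : G.Adj a0 b0
  ab1 : G.Adj a1 b1
  aa : ¬ G.Adj a0 a1
  ab : ¬ G.Adj a0 b1
  ba : ¬ G.Adj b0 a1
  bb : ¬ G.Adj b0 b1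
  hE : ∀ e ∈ E, G.Adj e a0 ∧ G.Adj e a1 ∧ ¬ G.Adj e b1
  hO : ∀ o ∈ O, G.Adj o b0 ∧ G.Adj o b1 ∧ ¬ G.Adj o a1
  hZ : ∀ z ∈ Z, ¬ G.Adj z a0 ∧ ¬ G.Adj z b0 ∧ ¬ G.Adj z a1 ∧ ¬ G.Adj z b1
  hn : ∀ e ∈ E, ∀ o ∈ O, ¬ G.Adj e o → ¬ G.Adj e b0 ∧ ¬ G.Adj o a0

section EOP

variable {G : SimpleGraph V} {E O Z : Set V} {a0 b0 a1 b1 : V}

theorem EOP.n1 (h : EOP G E O Z a0 b0 a1 b1) {e o : V} (he : e ∈ E) (ho : o ∈ O)
    (hno : ¬ G.Adj e o) {z : V} (hz : z ∈ Z) : ¬ G.Adj z e ∧ ¬ G.Adj z o := by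
  obtain ⟨e0, e1, e2⟩ := h.hE e he
  obtain ⟨o0, o1, o2⟩ := h.hO o ho
  obtain ⟨z0, z1, z2, z3⟩ := h.hZ z hz
  obtain ⟨eb, oa⟩ := h.hn e he o ho hno
  by_cases ze : G.Adj z e <;> by_cases zo : G.Adj z o
  · exact absurd (h.c5 e a0 b0 o z e0 h.ab0 o0.symm zo.symm ze eb hno (nadj_symm oa)
      (nadj_symm z0) (nadj_symm z1)) not_false
  · exact absurd (h.cls.p23 z e b0 o b1 ze o0.symm o1 (by
        intro hh; exact h.ab (hh ▸ h.ab0)) h.bb z1 zo z3 eb hno e2) not_false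
  · exact absurd (h.cls.p23 z o a0 e a1 zo e0.symm e1 (by
        intro hh; exact h.ba (hh ▸ h.ab0.symm)) h.aa z0 ze z2 oa (nadj_symm hno) o2) not_false
  · exact ⟨ze, zo⟩

/-- uniqueness of the nonneighbour in `E` -/
theorem EOP.n2 (h : EOP G E O Z a0 b0 a1 b1) {e e' o : V} (he : e ∈ E) (he' : e' ∈ E) (ho : o ∈ O)
    (hno : ¬ G.Adj e o) (hno' : ¬ G.Adj e' o) : e = e' := by
  by_contra hne
  obtain ⟨e0, e1, e2⟩ := h.hE e he
  obtain ⟨e0', e1', e2'⟩ := h.hE e' he'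
  obtain ⟨o0, o1, o2⟩ := h.hO o ho
  obtain ⟨eb, oa⟩ := h.hn e he o ho hno
  obtain ⟨eb', _⟩ := h.hn e' he' o ho hno'
  by_cases hee : G.Adj e e'
  · exact h.cls.p23 e e' b0 o b1 hee o0.symm o1 (by
      intro hh; exact h.ab (hh ▸ h.ab0)) h.bb eb hno e2 eb' hno' e2'
  · exact h.cls.p23 o b1 e a0 e' o1 e0 e0'.symm hne hee (nadj_symm hno) oa (nadj_symm hno')
      (nadj_symm e2) (nadj_symm h.ab) (nadj_symm e2')

/-- uniqueness of the nonneighbour in `O` -/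
theorem EOP.n2' (h : EOP G E O Z a0 b0 a1 b1) {e o o' : V} (he : e ∈ E) (ho : o ∈ O)
    (ho' : o' ∈ O) (hno : ¬ G.Adj e o) (hno' : ¬ G.Adj e o') : o = o' := by
  by_contra hne
  obtain ⟨e0, e1, e2⟩ := h.hE e he
  obtain ⟨o0, o1, o2⟩ := h.hO o ho
  obtain ⟨o0', o1', o2'⟩ := h.hO o' ho'
  obtain ⟨eb, oa⟩ := h.hn e he o ho hno
  obtain ⟨_, oa'⟩ := h.hn e he o' ho' hno'
  by_cases hoo : G.Adj o o'
  · exact h.cls.p23 o o' a0 e a1 hoo e0.symm e1 (by
      intro hh; exact h.ba (hh ▸ h.ab0.symm)) h.aa oa (nadj_symm hno) o2 oa' (nadj_symm hno') o2'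
  · exact h.cls.p23 e a1 o b0 o' e1 o0 o0'.symm hne hoo hno eb hno'
      (nadj_symm o2) (nadj_symm h.ba) (nadj_symm o2')

theorem EOP.n3 (h : EOP G E O Z a0 b0 a1 b1) {e1 o1 e2 o2 : V} (he1 : e1 ∈ E) (ho1 : o1 ∈ O)
    (he2 : e2 ∈ E) (ho2 : o2 ∈ O) (hn1 : ¬ G.Adj e1 o1) (hn2 : ¬ G.Adj e2 o2) :
    (G.Adj o1 o2 ↔ G.Adj e1 e2) := by
  by_cases he : e1 = e2
  · subst he
    have : o1 = o2 := h.n2' he1 ho1 ho2 hn1 hn2
    subst this
    exact iff_of_false (fun hh => hh.ne rfl) (fun hh => hh.ne rfl)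
  have ho : o1 ≠ o2 := by
    rintro rfl
    exact he (h.n2 he1 he2 ho1 hn1 hn2)
  have c1 : G.Adj e2 o1 := by
    by_contra hh; exact he (h.n2 he1 he2 ho1 hn1 hh)
  have c2 : G.Adj e1 o2 := by
    by_contra hh; exact he (h.n2 he1 he2 ho2 hh hn2)
  obtain ⟨x0, x1, x2⟩ := h.hE e1 he1
  obtain ⟨x0', x1', x2'⟩ := h.hE e2 he2
  obtain ⟨y0, y1, y2⟩ := h.hO o1 ho1
  obtain ⟨y0', y1', y2'⟩ := h.hO o2 ho2
  obtain ⟨w1, w2⟩ := h.hn e1 he1 o1 ho1 hn1
  obtain ⟨w1', w2'⟩ := h.hn e2 he2 o2 ho2 hn2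
  constructor
  · intro hoo
    by_contra hee
    exact h.c5 e1 o2 o1 e2 a0 c2 hoo.symm c1.symm x0' x0.symm hn1 hee (nadj_symm hn2) w2' w2
  · intro hee
    by_contra hoo
    exact h.c5 o1 e2 e1 o2 b0 c1.symm hee.symm c2 y0' y0.symm (nadj_symm hn1) hoo hn2 w1' w1

theorem EOP.n4 (h : EOP G E O Z a0 b0 a1 b1) {e o e2 o2 : V} (he : e ∈ E) (ho : o ∈ O)
    (he2 : e2 ∈ E) (ho2 : o2 ∈ O) (hno : ¬ G.Adj e o) (hee : G.Adj e e2) (hoo : G.Adj o o2) :
    ¬ G.Adj e2 o2 := by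
  intro hh
  have c1 : G.Adj e2 o := by
    by_contra h1; exact hee.ne (h.n2 he he2 ho hno h1)
  have c2 : G.Adj e o2 := by
    by_contra h1; exact hoo.ne (h.n2' he ho ho2 hno h1)
  obtain ⟨x0, x1, x2⟩ := h.hE e he
  obtain ⟨x0', x1', x2'⟩ := h.hE e2 he2
  obtain ⟨y0, y1, y2⟩ := h.hO o ho
  obtain ⟨y0', y1', y2'⟩ := h.hO o2 ho2
  exact h.cls.gem e2 a1 e o2 o x1' hee.symm hh c1 x1.symm c2 hoo.symm (nadj_symm y2')
    (nadj_symm y2) hno

/-- EO+ lemma -/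
theorem EOP.bound [Finite V] {k : ℕ} (h : EOP G E O Z a0 b0 a1 b1)
    (hB : ∀ (E O : Set V) (qE qO : V), EOH G E O Z qE qO → W G (E ∪ O ∪ Z) k) :
    W G (E ∪ O ∪ Z) ((k + 1) * 5 + (comb 0 1 + 1) * 5 + (comb 0 1 + 1 + 2 ^ 5)) := by
  classical
  have hEO : ∀ x ∈ E, x ∉ O := fun x hx hx' => (disjoint_left.1 h.dEO) hx hx'
  have hEZ : ∀ x ∈ E, x ∉ Z := fun x hx hx' => (disjoint_left.1 h.dEZ) hx hx'
  have hOZ : ∀ x ∈ O, x ∉ Z := fun x hx hx' => (disjoint_left.1 h.dOZ) hx hx'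
  -- attached vertices of O and of E
  set AO : Set V := {o | o ∈ O ∧ ∃ e ∈ E, ¬ G.Adj e o ∧
    ((∀ o' ∈ O, ¬ G.Adj o o') ∨ ∃ e' ∈ E, G.Adj e e')} with hAO
  set AE : Set V := {e | e ∈ E ∧ ∃ o ∈ O, ¬ G.Adj e o ∧
    ((∃ o' ∈ O, G.Adj o o') ∧ ∀ e' ∈ E, ¬ G.Adj e e')} with hAE
  have exO : ∀ o ∈ AO, ∃ e, e ∈ E ∧ ¬ G.Adj e o := by
    rintro o ⟨_, e, he, h1, _⟩; exact ⟨e, he, h1⟩
  have exE : ∀ e ∈ AE, ∃ o, o ∈ O ∧ ¬ G.Adj e o := by
    rintro e ⟨_, o, ho, h1, _⟩; exact ⟨o, ho, h1⟩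
  have hAOE : ∀ x ∈ AO, x ∉ AE := fun x hx hx' => hEO x hx'.1 hx.1
  let π : V → V := fun v => if hv : v ∈ AO then (exO v hv).choose
    else if hv : v ∈ AE then (exE v hv).choose else v
  have π1 : ∀ o ∈ AO, π o ∈ E ∧ ¬ G.Adj (π o) o := by
    intro o ho
    simp only [π, dif_pos ho]
    exact (exO o ho).choose_spec
  have π2 : ∀ e ∈ AE, π e ∈ O ∧ ¬ G.Adj e (π e) := by
    intro e he
    have : e ∉ AO := fun hh => hAOE e hh he
    simp only [π, dif_neg this, dif_pos he]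
    exact (exE e he).choose_spec
  have π3 : ∀ v, v ∉ AO → v ∉ AE → π v = v := by
    intro v h1 h2
    simp only [π, dif_neg h1, dif_neg h2]
  -- the partner of an attached vertex is not attached
  have π4 : ∀ o ∈ AO, π o ∉ AE := by
    intro o ho hh
    obtain ⟨h1, h2⟩ := π1 o ho
    obtain ⟨hoO, e, he, hne, hor⟩ := ho
    obtain ⟨_, o2, ho2, hn2, ⟨o3, ho3, h3⟩, h4⟩ := hh
    have e1 : e = π o := h.n2 he h1 hoO hne h2
    have e2 : o2 = o := h.n2' h1 ho2 hoO hn2 h2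
    rcases hor with hor | ⟨e', he', h5⟩
    · exact hor o3 ho3 (e2 ▸ h3)
    · exact h4 e' he' (e1 ▸ h5)
  have π5 : ∀ e ∈ AE, π e ∉ AO := by
    intro e he hh
    obtain ⟨h1, h2⟩ := π2 e he
    obtain ⟨heE, o, ho, hno, ⟨o3, ho3, h3⟩, h4⟩ := he
    obtain ⟨_, e2, he2, hn2, hor⟩ := hh
    have e1 : o = π e := h.n2' heE ho h1 hno h2
    have e3 : e2 = e := h.n2 he2 heE h1 hn2 h2
    rcases hor with hor | ⟨e', he', h5⟩
    · exact hor o3 ho3 (e1 ▸ h3)
    · exact h4 e' he' (e3 ▸ h5)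
  -- every nonadjacent pair has exactly one attached vertex
  have pair : ∀ e ∈ E, ∀ o ∈ O, ¬ G.Adj e o → (o ∈ AO ∨ e ∈ AE) := by
    intro e he o ho hno
    by_cases h1 : (∀ o' ∈ O, ¬ G.Adj o o') ∨ ∃ e' ∈ E, G.Adj e e'
    · exact Or.inl ⟨ho, e, he, hno, h1⟩
    · push Not at h1
      exact Or.inr ⟨he, o, ho, hno, h1.1, h1.2⟩
  set E' : Set V := E \ AE with hE'
  set O' : Set V := O \ AO with hO'
  have hcomp : ∀ e ∈ E', ∀ o ∈ O', G.Adj e o := by
    intro e he o ho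
    by_contra hh
    rcases pair e he.1 o ho.1 hh with h1 | h1
    · exact ho.2 h1
    · exact he.2 h1
  have hEOH : EOH G E' O' Z a1 b1 := by
    refine ⟨h.cls, h.dEO.mono sdiff_subset sdiff_subset, h.dEZ.mono_left sdiff_subset,
      h.dOZ.mono_left sdiff_subset, h.iZ, hcomp, fun e he => (h.hE e he.1).2.1.symm,
      fun o ho => (h.hO o ho.1).2.1.symm, ?_, ?_⟩
    · rintro x (hx | hx)
      · exact nadj_symm (h.hO x hx.1).2.2
      · exact nadj_symm (h.hZ x hx).2.2.1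
    · rintro x (hx | hx)
      · exact nadj_symm (h.hE x hx.1).2.2
      · exact nadj_symm (h.hZ x hx).2.2.2
  have wX := hB E' O' a1 b1 hEOH
  have hmem : ∀ v ∈ E ∪ O ∪ Z, v ∈ AO ∨ v ∈ AE ∨ (v ∉ AO ∧ v ∉ AE ∧ v ∈ E' ∪ O' ∪ Z) := by
    intro v hv
    by_cases h1 : v ∈ AO
    · exact Or.inl h1
    by_cases h2 : v ∈ AE
    · exact Or.inr (Or.inl h2)
    refine Or.inr (Or.inr ⟨h1, h2, ?_⟩)
    rcases hv with (hv | hv) | hv
    · exact Or.inl (Or.inl ⟨hv, h2⟩)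
    · exact Or.inl (Or.inr ⟨hv, h1⟩)
    · exact Or.inr hv
  -- five types
  let p : V → Fin 5 := fun v => if v ∈ AO then 3 else if v ∈ AE then 4 else
    if v ∈ E then 0 else if v ∈ O then 1 else 2
  have p3 : ∀ v, p v = 3 ↔ v ∈ AO := by
    intro v; simp only [p]; split_ifs with h1 h2 h3 h4 <;> simp [h1]
  have p4 : ∀ v ∈ AE, p v = 4 := by
    intro v hv
    have : v ∉ AO := fun hh => hAOE v hh hv
    simp [p, this, hv]
  have p0 : ∀ v ∈ E', p v = 0 := by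
    intro v hv
    have : v ∉ AO := fun hh => hEO v hv.1 hh.1
    simp [p, this, hv.1, hv.2]
  have p1 : ∀ v ∈ O', p v = 1 := by
    intro v hv
    have h1 : v ∉ AE := fun hh => hEO v hh.1 hv.1
    have h2 : v ∉ E := fun hh => hEO v hh hv.1
    simp [p, hv.2, h1, h2, hv.1]
  have p2 : ∀ v ∈ Z, p v = 2 := by
    intro v hv
    have h1 : v ∉ AE := fun hh => hEZ v hh.1 hv
    have h2 : v ∉ E := fun hh => hEZ v hh hv
    have h3 : v ∉ AO := fun hh => hOZ v hh.1 hv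
    have h4 : v ∉ O := fun hh => hOZ v hh hv
    simp [p, h1, h2, h3, h4]
  have πE' : ∀ v ∈ E', π v = v := fun v hv => π3 v (fun hh => hEO v hv.1 hh.1) hv.2
  have πO' : ∀ v ∈ O', π v = v := fun v hv => π3 v hv.2 (fun hh => hEO v hh.1 hv.1)
  have πZ : ∀ v ∈ Z, π v = v := fun v hv =>
    π3 v (fun hh => hOZ v hh.1 hv) (fun hh => hEZ v hh.1 hv)
  -- case split of the membership
  have hmem5 : ∀ v ∈ E ∪ O ∪ Z, v ∈ AO ∨ v ∈ AE ∨ v ∈ E' ∨ v ∈ O' ∨ v ∈ Z := by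
    intro v hv
    rcases hmem v hv with h1 | h1 | ⟨_, _, (h1 | h1) | h1⟩
    · exact Or.inl h1
    · exact Or.inr (Or.inl h1)
    · exact Or.inr (Or.inr (Or.inl h1))
    · exact Or.inr (Or.inr (Or.inr (Or.inl h1)))
    · exact Or.inr (Or.inr (Or.inr (Or.inr h1)))
  refine W.subst (H := G) (X := E' ∪ O' ∪ Z) (m := 5) (n := comb 0 1) π p wX ?_ ?_ ?_
  · intro v hv
    rcases hmem5 v hv with h1 | h1 | h1 | h1 | h1
    · exact Or.inl (Or.inl ⟨(π1 v h1).1, π4 v h1⟩)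
    · exact Or.inl (Or.inr ⟨(π2 v h1).1, π5 v h1⟩)
    · rw [πE' v h1]; exact Or.inl (Or.inl h1)
    · rw [πO' v h1]; exact Or.inl (Or.inr h1)
    · rw [πZ v h1]; exact Or.inr h1
  · -- blocks
    intro x hx
    rcases hx with (hx | hx) | hx
    · -- representative in E'
      have hb : ∀ v ∈ {v | v ∈ E ∪ O ∪ Z ∧ π v = x}, v = x ∨ (v ∈ O ∧ ¬ G.Adj x v) := by
        rintro v ⟨hv, hvx⟩
        rcases hmem5 v hv with h1 | h1 | h1 | h1 | h1
        · have := π1 v h1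
          rw [hvx] at this
          exact Or.inr ⟨h1.1, this.2⟩
        · have := (π2 v h1).1
          rw [hvx] at this
          exact absurd this (hEO x hx.1)
        · rw [πE' v h1] at hvx; exact Or.inl hvx
        · rw [πO' v h1] at hvx; exact Or.inl hvx
        · rw [πZ v h1] at hvx; exact Or.inl hvx
      by_cases hex : ∃ o ∈ O, ¬ G.Adj x o
      · obtain ⟨o, ho, hxo⟩ := hex
        refine (W.insert_vertex (W.single (G := G) (k := 0) o) x).subset ?_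
        intro v hv
        rcases hb v hv with h1 | h1
        · exact Or.inl h1
        · exact Or.inr (h.n2' hx.1 h1.1 ho h1.2 hxo)
      · push Not at hex
        refine W.of_subsingleton ?_
        intro a ha b hb'
        rcases hb a ha with h1 | h1
        · rcases hb b hb' with h2 | h2
          · rw [h1, h2]
          · exact absurd (hex b h2.1) h2.2
        · exact absurd (hex a h1.1) h1.2
    · have hb : ∀ v ∈ {v | v ∈ E ∪ O ∪ Z ∧ π v = x}, v = x ∨ (v ∈ E ∧ ¬ G.Adj v x) := by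
        rintro v ⟨hv, hvx⟩
        rcases hmem5 v hv with h1 | h1 | h1 | h1 | h1
        · have := (π1 v h1).1
          rw [hvx] at this
          exact absurd hx.1 (hEO x this)
        · have := π2 v h1
          rw [hvx] at this
          exact Or.inr ⟨h1.1, this.2⟩
        · rw [πE' v h1] at hvx; exact Or.inl hvx
        · rw [πO' v h1] at hvx; exact Or.inl hvx
        · rw [πZ v h1] at hvx; exact Or.inl hvx
      by_cases hex : ∃ e ∈ E, ¬ G.Adj e x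
      · obtain ⟨e, he, hxe⟩ := hex
        refine (W.insert_vertex (W.single (G := G) (k := 0) e) x).subset ?_
        intro v hv
        rcases hb v hv with h1 | h1
        · exact Or.inl h1
        · exact Or.inr (h.n2 h1.1 he hx.1 h1.2 hxe)
      · push Not at hex
        refine W.of_subsingleton ?_
        intro a ha b hb'
        rcases hb a ha with h1 | h1
        · rcases hb b hb' with h2 | h2
          · rw [h1, h2]
          · exact absurd (hex b h2.1) h2.2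
        · exact absurd (hex a h1.1) h1.2
    · have hb : ∀ v ∈ {v | v ∈ E ∪ O ∪ Z ∧ π v = x}, v = x := by
        rintro v ⟨hv, hvx⟩
        rcases hmem5 v hv with h1 | h1 | h1 | h1 | h1
        · have := (π1 v h1).1
          rw [hvx] at this
          exact absurd hx (hEZ x this)
        · have := (π2 v h1).1
          rw [hvx] at this
          exact absurd hx (hOZ x this)
        · rw [πE' v h1] at hvx; exact hvx
        · rw [πO' v h1] at hvx; exact hvx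
        · rw [πZ v h1] at hvx; exact hvx
      refine W.of_subsingleton ?_
      intro a ha b hb'
      rw [hb a ha, hb b hb']
  · -- adjacency is determined by the types and the adjacency of the representatives
    -- facts for all pairs of types
    have f03 : ∀ a ∈ E', ∀ b ∈ AO, π a ≠ π b → G.Adj a b := by
      intro a ha b hb hne
      by_contra hh
      have := h.n2 ha.1 (π1 b hb).1 hb.1 hh (π1 b hb).2
      exact hne (by rw [πE' a ha]; exact this)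
    have f04 : ∀ a ∈ E, ∀ b ∈ AE, ¬ G.Adj a b := by
      rintro a ha b ⟨_, o, _, _, _, h4⟩ hh
      exact h4 a ha hh.symm
    have f13 : ∀ a ∈ O', ∀ b ∈ AO, ¬ G.Adj a b := by
      rintro a ha b ⟨hb, e, he, hne, hor⟩ hh
      rcases hor with hor | ⟨e2, he2, h5⟩
      · exact hor a ha.1 hh.symm
      · have h6 := h.n4 he hb he2 ha.1 hne h5 hh.symm
        exact ha.2 ⟨ha.1, e2, he2, h6, Or.inr ⟨e, he, h5.symm⟩⟩
    have f14 : ∀ a ∈ O', ∀ b ∈ AE, π a ≠ π b → G.Adj a b := by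
      intro a ha b hb hne
      by_contra hh
      have := h.n2' hb.1 ha.1 (π2 b hb).1 (nadj_symm hh) (π2 b hb).2
      exact hne (by rw [πO' a ha]; exact this)
    have f23 : ∀ a ∈ Z, ∀ b ∈ AO, ¬ G.Adj a b := fun a ha b hb =>
      (h.n1 (π1 b hb).1 hb.1 (π1 b hb).2 ha).2
    have f24 : ∀ a ∈ Z, ∀ b ∈ AE, ¬ G.Adj a b := fun a ha b hb =>
      (h.n1 hb.1 (π2 b hb).1 (π2 b hb).2 ha).1
    have f33 : ∀ a ∈ AO, ∀ b ∈ AO, (G.Adj a b ↔ G.Adj (π a) (π b)) := fun a ha b hb =>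
      h.n3 (π1 a ha).1 ha.1 (π1 b hb).1 hb.1 (π1 a ha).2 (π1 b hb).2
    have f34 : ∀ a ∈ AO, ∀ b ∈ AE, G.Adj a b := by
      intro a ha b hb
      by_contra hh
      have h1 := h.n2 hb.1 (π1 a ha).1 ha.1 (nadj_symm hh) (π1 a ha).2
      exact π4 a ha (h1 ▸ hb)
    intro a ha a' ha' b hb hab hab' e hadj
    rcases hmem5 a ha with h1 | h1 | h1 | h1 | h1
    · -- a ∈ AO
      have h1' : a' ∈ AO := by rw [← p3, ← e, p3]; exact h1
      rcases hmem5 b hb with h2 | h2 | h2 | h2 | h2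
      · rw [f33 a h1 b h2, f33 a' h1' b h2]; exact hadj
      · exact iff_of_true (f34 a h1 b h2) (f34 a' h1' b h2)
      · exact iff_of_true (f03 b h2 a h1 hab.symm).symm (f03 b h2 a' h1' hab'.symm).symm
      · exact iff_of_false (nadj_symm (f13 b h2 a h1)) (nadj_symm (f13 b h2 a' h1'))
      · exact iff_of_false (nadj_symm (f23 b h2 a h1)) (nadj_symm (f23 b h2 a' h1'))
    · have h1' : a' ∈ AE := by
        have e1 : p a' = 4 := by rw [← e]; exact p4 a h1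
        rcases hmem5 a' ha' with h3 | h3 | h3 | h3 | h3
        · rw [(p3 a').2 h3] at e1; exact absurd e1 (by decide)
        · exact h3
        · rw [p0 a' h3] at e1; exact absurd e1 (by decide)
        · rw [p1 a' h3] at e1; exact absurd e1 (by decide)
        · rw [p2 a' h3] at e1; exact absurd e1 (by decide)
      rcases hmem5 b hb with h2 | h2 | h2 | h2 | h2
      · exact iff_of_true (f34 b h2 a h1).symm (f34 b h2 a' h1').symm
      · exact iff_of_false (f04 a h1.1 b h2) (f04 a' h1'.1 b h2)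
      · exact iff_of_false (nadj_symm (f04 b h2.1 a h1)) (nadj_symm (f04 b h2.1 a' h1'))
      · exact iff_of_true (f14 b h2 a h1 hab.symm).symm (f14 b h2 a' h1' hab'.symm).symm
      · exact iff_of_false (nadj_symm (f24 b h2 a h1)) (nadj_symm (f24 b h2 a' h1'))
    · have h1' : a' ∈ E' := by
        have e1 : p a' = 0 := by rw [← e]; exact p0 a h1
        rcases hmem5 a' ha' with h3 | h3 | h3 | h3 | h3
        · rw [(p3 a').2 h3] at e1; exact absurd e1 (by decide)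
        · rw [p4 a' h3] at e1; exact absurd e1 (by decide)
        · exact h3
        · rw [p1 a' h3] at e1; exact absurd e1 (by decide)
        · rw [p2 a' h3] at e1; exact absurd e1 (by decide)
      rcases hmem5 b hb with h2 | h2 | h2 | h2 | h2
      · exact iff_of_true (f03 a h1 b h2 hab) (f03 a' h1' b h2 hab')
      · exact iff_of_false (f04 a h1.1 b h2) (f04 a' h1'.1 b h2)
      · rw [πE' a h1, πE' a' h1', πE' b h2] at hadj; exact hadj
      · exact iff_of_true (hcomp a h1 b h2) (hcomp a' h1' b h2)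
      · rw [πE' a h1, πE' a' h1', πZ b h2] at hadj; exact hadj
    · have h1' : a' ∈ O' := by
        have e1 : p a' = 1 := by rw [← e]; exact p1 a h1
        rcases hmem5 a' ha' with h3 | h3 | h3 | h3 | h3
        · rw [(p3 a').2 h3] at e1; exact absurd e1 (by decide)
        · rw [p4 a' h3] at e1; exact absurd e1 (by decide)
        · rw [p0 a' h3] at e1; exact absurd e1 (by decide)
        · exact h3
        · rw [p2 a' h3] at e1; exact absurd e1 (by decide)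
      rcases hmem5 b hb with h2 | h2 | h2 | h2 | h2
      · exact iff_of_false (f13 a h1 b h2) (f13 a' h1' b h2)
      · exact iff_of_true (f14 a h1 b h2 hab) (f14 a' h1' b h2 hab')
      · exact iff_of_true (hcomp b h2 a h1).symm (hcomp b h2 a' h1').symm
      · rw [πO' a h1, πO' a' h1', πO' b h2] at hadj; exact hadj
      · rw [πO' a h1, πO' a' h1', πZ b h2] at hadj; exact hadj
    · have h1' : a' ∈ Z := by
        have e1 : p a' = 2 := by rw [← e]; exact p2 a h1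
        rcases hmem5 a' ha' with h3 | h3 | h3 | h3 | h3
        · rw [(p3 a').2 h3] at e1; exact absurd e1 (by decide)
        · rw [p4 a' h3] at e1; exact absurd e1 (by decide)
        · rw [p0 a' h3] at e1; exact absurd e1 (by decide)
        · rw [p1 a' h3] at e1; exact absurd e1 (by decide)
        · exact h3
      rcases hmem5 b hb with h2 | h2 | h2 | h2 | h2
      · exact iff_of_false (f23 a h1 b h2) (f23 a' h1' b h2)
      · exact iff_of_false (f24 a h1 b h2) (f24 a' h1' b h2)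
      · rw [πZ a h1, πZ a' h1', πE' b h2] at hadj; exact hadj
      · rw [πZ a h1, πZ a' h1', πO' b h2] at hadj; exact hadj
      · exact iff_of_false (h.iZ a h1 b h2) (h.iZ a' h1' b h2)

end EOP

theorem EOplus_bound_of {k : ℕ} (hX : ClassX k) :
    ∃ k : ℕ, ∀ (V : Type) [Finite V] (G : SimpleGraph V) (E O Z : Set V)
    (a0 b0 a1 b1 : V),
    Cls G → NoC5 G → Disjoint E O → Disjoint E Z → Disjoint O Z → Indep G Z →
    G.Adj a0 b0 → G.Adj a1 b1 → ¬ G.Adj a0 a1 → ¬ G.Adj a0 b1 → ¬ G.Adj b0 a1 → ¬ G.Adj b0 b1 →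
    (∀ e ∈ E, G.Adj e a0 ∧ G.Adj e a1 ∧ ¬ G.Adj e b1) →
    (∀ o ∈ O, G.Adj o b0 ∧ G.Adj o b1 ∧ ¬ G.Adj o a1) →
    (∀ z ∈ Z, ¬ G.Adj z a0 ∧ ¬ G.Adj z b0 ∧ ¬ G.Adj z a1 ∧ ¬ G.Adj z b1) →
    (∀ e ∈ E, ∀ o ∈ O, ¬ G.Adj e o → ¬ G.Adj e b0 ∧ ¬ G.Adj o a0) →
    W G (E ∪ O ∪ Z) k := by
  refine ⟨_, fun V _ G E O Z a0 b0 a1 b1 h1 h2 h3 h4 h5 h6 h7 h8 h9 h10 h11 h12 h13 h14 h15 h16 =>
    EOP.bound ⟨h1, h2, h3, h4, h5, h6, h7, h8, h9, h10, h11, h12, h13, h14, h15, h16⟩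
      fun E O qE qO hh => EOH.bound (k := k) hh fun q R hR => ?_⟩
  exact hX V G q R h1 hR

end Pool.Agent.GemWidth
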