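import Pool.Agent.GemWidth.Cls

set_option autoImplicit false

namespace Pool.Agent.GemWidth

open Set

variable {V : Type*} {G : SimpleGraph V}

/-- every vertex of `A` is attached to a vertex `p a` of `Z` and otherwise all have the same row -/
theorem attach_family [Finite V] {A Z S : Set V} (hd : Disjoint A Z) (hA : Indep G A)
    (hZ : Indep G Z) (p : V → V) (hp : ∀ b ∈ A, p b ∈ Z)
    (h : ∀ b ∈ A, ∀ z ∈ Z, z ≠ p b → (G.Adj b z ↔ z ∈ S)) : W G (A ∪ Z) 60 := by
  classical
  have hAZ : ∀ v ∈ Z, v ∉ A := fun v hv hv' => (disjoint_left.1 hd) hv' hv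
  have hH : W (⊥ : SimpleGraph V) Z 1 := W.of_indep fun _ _ _ _ h => h
  have := W.subst (G := G) (R := A ∪ Z) (H := ⊥) (X := Z) (n := 6) (m := 3) (k := 1)
    (fun v => if v ∈ A then p v else v)
    (fun v => if v ∈ A then 0 else if v ∈ S then 1 else 2) hH ?_ ?_ ?_
  · exact this.mono (by norm_num)
  · intro v hv
    by_cases hvA : v ∈ A
    · simp only [hvA, if_true]; exact hp v hvA
    · simp only [hvA, if_false]; exact hv.resolve_left hvA
  · intro x hx
    refine W.mono (W.of_classes (m := 3) (fun v => if v = x then 0 else if G.Adj v x then 1 else 2)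
      ?_) (by norm_num)
    rintro a ⟨ha, hax⟩ a' ⟨ha', hax'⟩ b ⟨hb, hbx⟩ hab hab' e
    have hxA : x ∉ A := hAZ x hx
    have key : ∀ v, v ∈ A ∪ Z → (if v ∈ A then p v else v) = x → v = x ∨ v ∈ A := by
      intro v hv h
      by_cases hvA : v ∈ A
      · exact Or.inr hvA
      · simp only [hvA, if_false] at h; exact Or.inl h
    rcases key b hb hbx with rfl | hbA
    · -- b = x
      simp only [hab, hab', if_false] at e
      by_cases h1 : G.Adj a b <;> by_cases h2 : G.Adj a' b <;> simp [h1, h2] at e ⊢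
    · have hbx' : b ≠ x := fun h => hxA (h ▸ hbA)
      rcases key a ha hax with rfl | haA
      · by_cases hax'' : a' = a
        · rw [hax'']
        · exfalso
          simp only [if_true, hax'', if_false] at e
          by_cases h2 : G.Adj a' a <;> simp [h2] at e
      · have hax1 : a ≠ x := fun h => hxA (h ▸ haA)
        rcases key a' ha' hax' with rfl | haA'
        · exfalso
          simp only [if_true, hax1, if_false] at e
          by_cases h2 : G.Adj a a' <;> simp [h2] at e
        · exact iff_of_false (hA a haA b hbA) (hA a' haA' b hbA)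
  · intro a ha a' ha' b hb hab hab' e _
    by_cases haA : a ∈ A <;> by_cases haA' : a' ∈ A
    · by_cases hbA : b ∈ A
      · exact iff_of_false (hA a haA b hbA) (hA a' haA' b hbA)
      · have hbZ : b ∈ Z := hb.resolve_left hbA
        simp only [haA, haA', hbA, if_true, if_false] at hab hab'
        rw [h a haA b hbZ (Ne.symm hab), h a' haA' b hbZ (Ne.symm hab')]
    · exfalso
      simp only [haA, haA', if_true, if_false] at e
      by_cases h2 : a' ∈ S <;> simp [h2] at e
    · exfalso
      simp only [haA, haA', if_true, if_false] at e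
      by_cases h2 : a ∈ S <;> simp [h2] at e
    · have haZ : a ∈ Z := ha.resolve_left haA
      have haZ' : a' ∈ Z := ha'.resolve_left haA'
      by_cases hbA : b ∈ A
      · simp only [haA, haA', hbA, if_true, if_false] at hab hab'
        rw [G.adj_comm a b, G.adj_comm a' b, h b hbA a haZ hab, h b hbA a' haZ' hab']
        simp only [haA, haA', if_false] at e
        by_cases h1 : a ∈ S <;> by_cases h2 : a' ∈ S <;> simp [h1, h2] at e ⊢
      · have hbZ : b ∈ Z := hb.resolve_left hbA
        exact iff_of_false (hZ a haZ b hbZ) (hZ a' haZ' b hbZ)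

/-- all traces pairwise equal or obtained by exchanging one element -/
theorem swap_family [Finite V] {A Z : Set V} (hd : Disjoint A Z) (hA : Indep G A)
    (hZ : Indep G Z)
    (h : ∀ a ∈ A, ∀ b ∈ A, (∀ z ∈ Z, G.Adj a z ↔ G.Adj b z) ∨
      ∃ p ∈ Z, ∃ q ∈ Z, G.Adj a p ∧ ¬ G.Adj b p ∧ G.Adj b q ∧ ¬ G.Adj a q ∧
        ∀ z ∈ Z, z ≠ p → z ≠ q → (G.Adj a z ↔ G.Adj b z)) : W G (A ∪ Z) 60 := by
  classical
  by_cases hall : ∀ a ∈ A, ∀ b ∈ A, ∀ z ∈ Z, (G.Adj a z ↔ G.Adj b z)
  · -- three classes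
    refine W.mono (W.of_classes (m := 3)
      (fun v => if v ∈ A then 0 else if (∃ a ∈ A, G.Adj a v) then 1 else 2) ?_) (by norm_num)
    intro a ha a' ha' b hb _ _ e
    by_cases haA : a ∈ A <;> by_cases haA' : a' ∈ A
    · by_cases hbA : b ∈ A
      · exact iff_of_false (hA a haA b hbA) (hA a' haA' b hbA)
      · exact hall a haA a' haA' b (hb.resolve_left hbA)
    · exfalso
      simp only [haA, haA', if_true, if_false] at e
      by_cases h2 : ∃ c ∈ A, G.Adj c a' <;> simp [h2] at e
    · exfalso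
      simp only [haA, haA', if_true, if_false] at e
      by_cases h2 : ∃ c ∈ A, G.Adj c a <;> simp [h2] at e
    · have haZ : a ∈ Z := ha.resolve_left haA
      have haZ' : a' ∈ Z := ha'.resolve_left haA'
      by_cases hbA : b ∈ A
      · simp only [haA, haA', if_false] at e
        have k1 : (∃ c ∈ A, G.Adj c a) ↔ G.Adj b a :=
          ⟨fun ⟨c, hc, hca⟩ => (hall c hc b hbA a haZ).1 hca, fun h => ⟨b, hbA, h⟩⟩
        have k2 : (∃ c ∈ A, G.Adj c a') ↔ G.Adj b a' :=
          ⟨fun ⟨c, hc, hca⟩ => (hall c hc b hbA a' haZ').1 hca, fun h => ⟨b, hbA, h⟩⟩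
        rw [G.adj_comm a b, G.adj_comm a' b]
        by_cases h1 : G.Adj b a <;> by_cases h2 : G.Adj b a' <;>
          simp [k1, k2, h1, h2] at e ⊢
      · have hbZ : b ∈ Z := hb.resolve_left hbA
        exact iff_of_false (hZ a haZ b hbZ) (hZ a' haZ' b hbZ)
  · push Not at hall
    obtain ⟨a1, ha1, a2, ha2, z0, hz0, hz0'⟩ := hall
    obtain ⟨p1, hp1, p2, hp2, g1, g2, g3, g4, g5⟩ : ∃ p ∈ Z, ∃ q ∈ Z, G.Adj a1 p ∧ ¬ G.Adj a2 p ∧
        G.Adj a2 q ∧ ¬ G.Adj a1 q ∧ ∀ z ∈ Z, z ≠ p → z ≠ q → (G.Adj a1 z ↔ G.Adj a2 z) := by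
      rcases h a1 ha1 a2 ha2 with h1 | h1
      · exfalso
        have := h1 z0 hz0
        tauto
      · exact h1
    have hp12 : p1 ≠ p2 := fun e => g4 (e ▸ g1)
    -- sunflower or co-sunflower
    by_cases hsun : ∀ b ∈ A, ∀ z ∈ Z, z ≠ p1 → z ≠ p2 → G.Adj a1 z → G.Adj b z
    · -- sunflower with core S
      set S := {z | z ≠ p1 ∧ z ≠ p2 ∧ G.Adj a1 z} with hS
      have key : ∀ b ∈ A, ∃ x ∈ Z, ∀ z ∈ Z, z ≠ x → (G.Adj b z ↔ z ∈ S) := by
        intro b hb
        have hbS : ∀ z ∈ Z, z ∈ S → G.Adj b z := fun z hz hzS => hsun b hb z hz hzS.1 hzS.2.1 hzS.2.2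
        rcases h a1 ha1 b hb with h1 | ⟨p, hp, q, hq, k1, k2, k3, k4, k5⟩
        · refine ⟨p1, hp1, fun z hz hzp => ⟨fun hbz => ?_, hbS z hz⟩⟩
          have haz := (h1 z hz).2 hbz
          refine ⟨hzp, ?_, haz⟩
          rintro rfl
          exact g4 haz
        · -- T(a1) loses p, wins q; p must be p1
          have hpp : p = p1 := by
            by_contra hne
            have hp2' : p ≠ p2 := fun e => g4 (e ▸ k1)
            exact k2 (hsun b hb p hp hne hp2' k1)
          subst hpp
          refine ⟨q, hq, fun z hz hzq => ⟨fun hbz => ?_, hbS z hz⟩⟩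
          have hzp : z ≠ p := fun e => k2 (e ▸ hbz)
          have haz := (k5 z hz hzp hzq).2 hbz
          exact ⟨hzp, fun e => g4 (e ▸ haz), haz⟩
      choose! x hx1 hx2 using key
      exact attach_family hd hA hZ x hx1 (fun b hb z hz hzx => hx2 b hb z hz hzx)
    · push Not at hsun
      obtain ⟨b0, hb0, s, hs, hs1, hs2, hs3, hs4⟩ := hsun
      -- b0 misses s in the core, hence contains p1, p2 and nothing else outside
      have hs3' : G.Adj a2 s := (g5 s hs hs1 hs2).1 hs3
      have hb0full : G.Adj b0 p1 ∧ G.Adj b0 p2 ∧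
          (∀ z ∈ Z, z ≠ p2 → G.Adj b0 z → G.Adj a1 z) ∧
          (∀ z ∈ Z, z ≠ s → G.Adj a1 z → G.Adj b0 z) := by
        rcases h a1 ha1 b0 hb0 with h1 | ⟨p, hp, q, hq, k1, k2, k3, k4, k5⟩
        · exact absurd ((h1 s hs).1 hs3) hs4
        have hps : p = s := by
          by_contra hne
          have hsq : s ≠ q := fun e => k4 (e ▸ hs3)
          exact hs4 ((k5 s hs (Ne.symm hne) hsq).1 hs3)
        subst hps
        have hbp1 : G.Adj b0 p1 := by
          have : p1 ≠ q := fun e => k4 (e ▸ g1)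
          exact (k5 p1 hp1 (Ne.symm hs1) this).1 g1
        rcases h a2 ha2 b0 hb0 with h2 | ⟨p', hp', q', hq', l1, l2, l3, l4, l5⟩
        · exact absurd ((h2 p hs).1 hs3') hs4
        have hps' : p' = p := by
          by_contra hne
          have hsq : p ≠ q' := fun e => l4 (e ▸ hs3')
          exact hs4 ((l5 p hs (Ne.symm hne) hsq).1 hs3')
        subst hps'
        have hbp2 : G.Adj b0 p2 := by
          have : p2 ≠ q' := fun e => l4 (e ▸ g3)
          exact (l5 p2 hp2 (Ne.symm hs2) this).1 g3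
        have hq2 : q = p2 := by
          by_contra hne
          have hp2p : p2 ≠ p' := Ne.symm hs2
          exact g4 ((k5 p2 hp2 hp2p (Ne.symm hne)).2 hbp2)
        subst hq2
        refine ⟨hbp1, hbp2, fun z hz hzq hbz => ?_, fun z hz hzs haz => ?_⟩
        · have hzp : z ≠ p' := fun e => hs4 (e ▸ hbz)
          exact (k5 z hz hzp hzq).2 hbz
        · have hzq : z ≠ q := fun e => k4 (e ▸ haz)
          exact (k5 z hz hzs hzq).1 haz
      obtain ⟨f1, f2, f3, f4⟩ := hb0full
      set S := {z | z = p1 ∨ z = p2 ∨ G.Adj a1 z} with hS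
      have key : ∀ b ∈ A, ∃ x ∈ Z, ∀ z ∈ Z, z ≠ x → (G.Adj b z ↔ z ∈ S) := by
        intro b hb
        -- b has no neighbour outside S
        have hbS : ∀ z ∈ Z, G.Adj b z → z ∈ S := by
          intro z hz hbz
          by_contra hzS
          simp only [hS, mem_ofPred_eq, not_or] at hzS
          obtain ⟨z1, z2, z3⟩ := hzS
          -- b contains the whole core
          have hbs : G.Adj b s := by
            rcases h a1 ha1 b hb with h1 | ⟨p, hp, q, hq, k1, k2, k3, k4, k5⟩
            · exact (h1 s hs).1 hs3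
            by_contra hbs
            have hps : p = s := by
              by_contra hne
              have hsq : s ≠ q := fun e => k4 (e ▸ hs3)
              exact hbs ((k5 s hs (Ne.symm hne) hsq).1 hs3)
            have hqz : q = z := by
              by_contra hne
              have hzp : z ≠ p := fun e => k2 (e ▸ hbz)
              exact z3 ((k5 z hz hzp (Ne.symm hne)).2 hbz)
            subst hps; subst hqz
            rcases h a2 ha2 b hb with h2 | ⟨p', hp', q', hq', l1, l2, l3, l4, l5⟩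
            · exact hbs ((h2 p hp).1 hs3')
            have e1 : p' = p := by
              by_contra hne
              have hsq : p ≠ q' := fun e => l4 (e ▸ hs3')
              exact hbs ((l5 p hp (Ne.symm hne) hsq).1 hs3')
            subst e1
            have hbp1 : G.Adj b p1 := (k5 p1 hp1 (Ne.symm hs1) (Ne.symm z1)).1 g1
            have hq' : q' = p1 := by
              by_contra hne
              exact g2 ((l5 p1 hp1 (Ne.symm hs1) (Ne.symm hne)).2 hbp1)
            have : q ≠ p' := Ne.symm (fun e => k2 (e ▸ hbz))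
            have ha2q : G.Adj a2 q := (l5 q hq this (fun e => z1 (e.trans hq'))).2 hbz
            exact z3 ((g5 q hq z1 z2).2 ha2q)
          have hb0z : ¬ G.Adj b0 z := fun hh => z3 (f3 z hz z2 hh)
          -- b has two private elements s and z against b0
          rcases h b hb b0 hb0 with h1 | ⟨p, hp, q, hq, k1, k2, k3, k4, k5⟩
          · exact hs4 ((h1 s hs).1 hbs)
          have hsp : s = p := by
            by_contra hne
            have hsq : s ≠ q := fun e => k4 (e ▸ hbs)
            exact hs4 ((k5 s hs hne hsq).1 hbs)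
          have hzp : z = p := by
            by_contra hne
            have hzq : z ≠ q := fun e => k4 (e ▸ hbz)
            exact hb0z ((k5 z hz hne hzq).1 hbz)
          exact z3 ((hzp.trans hsp.symm) ▸ hs3)
        rcases h a1 ha1 b hb with h1 | ⟨p, hp, q, hq, k1, k2, k3, k4, k5⟩
        · refine ⟨p2, hp2, fun z hz hzp => ⟨hbS z hz, fun hzS => ?_⟩⟩
          rcases hzS with rfl | rfl | haz
          · exact (h1 _ hz).1 g1
          · exact absurd rfl hzp
          · exact (h1 z hz).1 haz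
        · have hqS := hbS q hq k3
          have hq2 : q = p2 := by
            rcases hqS with e | e | e
            · exact absurd (e ▸ g1) k4
            · exact e
            · exact absurd e k4
          subst hq2
          refine ⟨p, hp, fun z hz hzp => ⟨hbS z hz, fun hzS => ?_⟩⟩
          rcases hzS with rfl | rfl | haz
          · exact (k5 z hz hzp hp12).1 g1
          · exact k3
          · have hzq : z ≠ q := fun e => k4 (e ▸ haz)
            exact (k5 z hz hzp hzq).1 haz
      choose! x hx1 hx2 using key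
      exact attach_family hd hA hZ x hx1 (fun b hb z hz hzx => hx2 b hb z hz hzx)

/-- the bound for nested-or-swap families -/
def kFam : ℕ := (60 + 1) * (3 * 3) + (60 + 1 + (3 + 3)) + 3

/-- independent family, traces pairwise nested or obtained by exchanging one element -/
theorem nested_family [Finite V] {A Z : Set V} (hd : Disjoint A Z) (hA : Indep G A)
    (hZ : Indep G Z)
    (h : ∀ a ∈ A, ∀ b ∈ A, ∀ z1 ∈ Z, ∀ z2 ∈ Z, ∀ z ∈ Z, G.Adj a z1 → ¬ G.Adj b z1 →
      G.Adj a z2 → ¬ G.Adj b z2 → G.Adj b z → ¬ G.Adj a z → z1 = z2) : W G (A ∪ Z) kFam := by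
  classical
  set T : V → Set V := fun a => {z | z ∈ Z ∧ G.Adj a z} with hT
  set d : V → ℕ := fun a => (T a).ncard with hdd
  have hfin : ∀ S : Set V, S.Finite := fun S => Set.toFinite S
  -- if both have private elements then exactly one each
  have hpriv : ∀ a ∈ A, ∀ b ∈ A, ∀ p ∈ Z, ∀ q ∈ Z, G.Adj a p → ¬ G.Adj b p → G.Adj b q →
      ¬ G.Adj a q → T a \ T b = {p} ∧ T b \ T a = {q} := by
    intro a ha b hb p hp q hq h1 h2 h3 h4
    constructor
    · ext z; constructor
      · rintro ⟨⟨hz, haz⟩, hz2⟩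
        have hbz : ¬ G.Adj b z := fun hh => hz2 ⟨hz, hh⟩
        exact h a ha b hb z hz p hp q hq haz hbz h1 h2 h3 h4
      · intro hz
        rw [mem_singleton_iff] at hz
        subst hz
        exact ⟨⟨hp, h1⟩, fun hh => h2 hh.2⟩
    · ext z; constructor
      · rintro ⟨⟨hz, hbz⟩, hz2⟩
        have haz : ¬ G.Adj a z := fun hh => hz2 ⟨hz, hh⟩
        exact h b hb a ha z hz q hq p hp hbz haz h3 h4 h1 h2
      · intro hz
        rw [mem_singleton_iff] at hz
        subst hz
        exact ⟨⟨hq, h3⟩, fun hh => h4 hh.2⟩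
  have hcard : ∀ a b : V, (T a \ T b).ncard + (T a ∩ T b).ncard = d a := by
    intro a b
    have h1 := Set.ncard_inter_add_ncard_sdiff_eq_ncard (T a) (T b) (hfin _)
    have e1 : d a = (T a).ncard := rfl
    omega
  have hlt : ∀ a ∈ A, ∀ b ∈ A, d a < d b → ∀ z ∈ Z, G.Adj a z → G.Adj b z := by
    intro a ha b hb hab z hz haz
    by_contra hbz
    have h2 : ∃ q ∈ Z, G.Adj b q ∧ ¬ G.Adj a q := by
      by_contra hcon
      push Not at hcon
      have : T b ⊆ T a := fun x hx => ⟨hx.1, hcon x hx.1 hx.2⟩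
      have := Set.ncard_le_ncard this (hfin _)
      have e1 : d a = (T a).ncard := rfl
      have e2 : d b = (T b).ncard := rfl
      omega
    obtain ⟨q, hq, hbq, haq⟩ := h2
    obtain ⟨e1, e2⟩ := hpriv a ha b hb z hz q hq haz hbz hbq haq
    have c1 := hcard a b
    have c2 := hcard b a
    rw [e1, Set.ncard_singleton] at c1
    rw [e2, Set.ncard_singleton, Set.inter_comm] at c2
    omega
  have heq : ∀ a ∈ A, ∀ b ∈ A, d a = d b → (∀ z ∈ Z, G.Adj a z ↔ G.Adj b z) ∨
      ∃ p ∈ Z, ∃ q ∈ Z, G.Adj a p ∧ ¬ G.Adj b p ∧ G.Adj b q ∧ ¬ G.Adj a q ∧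
        ∀ z ∈ Z, z ≠ p → z ≠ q → (G.Adj a z ↔ G.Adj b z) := by
    intro a ha b hb hab
    by_cases h1 : ∃ p ∈ Z, G.Adj a p ∧ ¬ G.Adj b p
    · obtain ⟨p, hp, hap, hbp⟩ := h1
      by_cases h2 : ∃ q ∈ Z, G.Adj b q ∧ ¬ G.Adj a q
      · obtain ⟨q, hq, hbq, haq⟩ := h2
        obtain ⟨e1, e2⟩ := hpriv a ha b hb p hp q hq hap hbp hbq haq
        refine Or.inr ⟨p, hp, q, hq, hap, hbp, hbq, haq, fun z hz hzp hzq => ⟨fun haz => ?_,
          fun hbz => ?_⟩⟩
        · by_contra hbz
          have : z ∈ T a \ T b := ⟨⟨hz, haz⟩, fun hh => hbz hh.2⟩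
          rw [e1] at this; exact hzp this
        · by_contra haz
          have : z ∈ T b \ T a := ⟨⟨hz, hbz⟩, fun hh => haz hh.2⟩
          rw [e2] at this; exact hzq this
      · exfalso
        push Not at h2
        have hsub : T b ⊆ T a := fun x hx => ⟨hx.1, h2 x hx.1 hx.2⟩
        have hss : T b ⊂ T a := ⟨hsub, fun hh => hbp (hh ⟨hp, hap⟩).2⟩
        have := Set.ncard_lt_ncard hss (hfin _)
        have e1 : d a = (T a).ncard := rfl
        have e2 : d b = (T b).ncard := rfl
        omega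
    · push Not at h1
      by_cases h2 : ∃ q ∈ Z, G.Adj b q ∧ ¬ G.Adj a q
      · exfalso
        obtain ⟨q, hq, hbq, haq⟩ := h2
        have hsub : T a ⊆ T b := fun x hx => ⟨hx.1, h1 x hx.1 hx.2⟩
        have hss : T a ⊂ T b := ⟨hsub, fun hh => haq (hh ⟨hq, hbq⟩).2⟩
        have := Set.ncard_lt_ncard hss (hfin _)
        have e1 : d a = (T a).ncard := rfl
        have e2 : d b = (T b).ncard := rfl
        omega
      · push Not at h2
        exact Or.inl fun z hz => ⟨h1 z hz, h2 z hz⟩
  -- the level function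
  set f : V → ℕ := fun v => if v ∈ A then d v else sInf {n | ∃ a ∈ A, G.Adj a v ∧ d a = n} with hf
  have hAZ : ∀ v ∈ Z, v ∉ A := fun v hv hv' => (disjoint_left.1 hd) hv' hv
  have fA : ∀ v ∈ A, f v = d v := fun v hv => by simp only [hf, hv, if_true]
  have fZ : ∀ v ∈ Z, f v = sInf {n | ∃ a ∈ A, G.Adj a v ∧ d a = n} := fun v hv => by
    simp only [hf, hAZ v hv, if_false]
  have fle : ∀ v ∈ Z, ∀ a ∈ A, G.Adj a v → f v ≤ d a := by
    intro v hv a ha hav
    rw [fZ v hv]
    exact Nat.sInf_le ⟨a, ha, hav, rfl⟩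
  have fex : ∀ v ∈ Z, (∃ a ∈ A, G.Adj a v) → ∃ a ∈ A, G.Adj a v ∧ d a = f v := by
    rintro v hv ⟨a, ha, hav⟩
    rw [fZ v hv]
    exact Nat.sInf_mem (s := {n | ∃ a ∈ A, G.Adj a v ∧ d a = n}) ⟨_, a, ha, hav, rfl⟩
  have hup : ∀ v ∈ Z, (∃ a ∈ A, G.Adj a v) → ∀ b ∈ A, f v < d b → G.Adj b v := by
    intro v hv hex b hb hlt'
    obtain ⟨a, ha, hav, hda⟩ := fex v hv hex
    exact hlt a ha b hb (by omega) v hv hav
  refine W.levels (k := 60) (n := 3) f ?_ ?_ ?_
  · intro i
    have hsub : {v | v ∈ A ∪ Z ∧ f v = i} ⊆ {v | v ∈ A ∧ d v = i} ∪ Z := by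
      rintro v ⟨hv | hv, hfv⟩
      · exact Or.inl ⟨hv, (fA v hv) ▸ hfv⟩
      · exact Or.inr hv
    refine W.subset ?_ hsub
    refine swap_family ?_ ?_ hZ ?_
    · exact hd.mono_left fun v hv => hv.1
    · exact hA.mono fun v hv => hv.1
    · rintro a ⟨ha, hda⟩ b ⟨hb, hdb⟩
      exact heq a ha b hb (hda.trans hdb.symm)
  · intro i
    refine few_of_label (α := Bool) (fun v => decide (v ∈ Z ∧ ∃ a ∈ A, G.Adj a v)) ?_ (by simp)
    rintro a ⟨ha, hai⟩ a' ⟨ha', hai'⟩ e b ⟨hb, hbi⟩
    simp only [decide_eq_decide] at e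
    have empty : ∀ v ∈ A ∪ Z, f v < i → ¬ (v ∈ Z ∧ ∃ a ∈ A, G.Adj a v) → ¬ G.Adj v b := by
      intro v hv hvi hne hvb
      rcases hv with hv | hv
      · rcases hb with hb | hb
        · exact hA v hv b hb hvb
        · have := fle b hb v hv hvb
          have := fA v hv
          omega
      · rcases hb with hb | hb
        · exact hne ⟨hv, b, hb, hvb.symm⟩
        · exact hZ v hv b hb hvb
    have full : ∀ v ∈ A ∪ Z, f v < i → (v ∈ Z ∧ ∃ a ∈ A, G.Adj a v) → (G.Adj v b ↔ b ∈ A) := by
      rintro v hv hvi ⟨hvZ, hex⟩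
      constructor
      · intro hvb
        rcases hb with hb | hb
        · exact hb
        · exact absurd hvb (hZ v hvZ b hb)
      · intro hbA
        exact (hup v hvZ hex b hbA (by have := fA b hbA; omega)).symm
    by_cases h1 : (a ∈ Z ∧ ∃ c ∈ A, G.Adj c a)
    · rw [full a ha hai h1, full a' ha' hai' (e.1 h1)]
    · exact iff_of_false (empty a ha hai h1) (empty a' ha' hai' (fun h => h1 (e.2 h)))
  · intro i
    refine few_of_label (α := Bool) (fun v => decide (v ∈ A)) ?_ (by simp)
    rintro a ⟨ha, hai⟩ a' ⟨ha', hai'⟩ e b ⟨hb, hbi⟩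
    simp only [decide_eq_decide] at e
    have full : ∀ v ∈ A, i ≤ f v → (G.Adj v b ↔ (b ∈ Z ∧ ∃ c ∈ A, G.Adj c b)) := by
      intro v hv hvi
      constructor
      · intro hvb
        rcases hb with hb | hb
        · exact absurd hvb (hA v hv b hb)
        · exact ⟨hb, v, hv, hvb⟩
      · rintro ⟨hbZ, hex⟩
        exact hup b hbZ hex v hv (by have := fA v hv; omega)
    have empty : ∀ v ∈ Z, i ≤ f v → ¬ G.Adj v b := by
      intro v hv hvi hvb
      rcases hb with hb | hb
      · have := fle v hv b hb hvb.symm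
        have := fA b hb
        omega
      · exact hZ v hv b hb hvb
    by_cases h1 : a ∈ A
    · rw [full a h1 hai, full a' (e.1 h1) hai']
    · have h2 : a' ∉ A := fun h => h1 (e.2 h)
      exact iff_of_false (empty a (ha.resolve_left h1) hai) (empty a' (ha'.resolve_left h2) hai')

end Pool.Agent.GemWidth
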