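import Pool.Agent.GemWidth.Family

set_option autoImplicit false

namespace Pool.Agent.GemWidth

open Set

variable {V : Type*} {G : SimpleGraph V}

/-- laminarity of traces on a clique -/
theorem Cls.lam (hG : Cls G) {i j k z z' : V} (hij : G.Adj i j) (hjk : G.Adj j k)
    (hik : G.Adj i k) (h1 : G.Adj z j) (h2 : G.Adj z' j) (h3 : G.Adj z i) (h4 : ¬ G.Adj z' i)
    (h5 : G.Adj z' k) (h6 : ¬ G.Adj z k) (hzz : ¬ G.Adj z z') : False :=
  hG.gem j z i k z' h1.symm hij.symm hjk h2.symm h3 hik h5.symm h6 hzz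
    (nadj_symm h4)

/-- the bound for a clique and an independent set -/
def kLam : ℕ := addN 1 2

theorem four_le_kLam : 4 ≤ kLam := by decide

theorem laminar_clique [Finite V] (hG : Cls G) {K Z : Set V} (hd : Disjoint K Z)
    (hK : ∀ a ∈ K, ∀ b ∈ K, a ≠ b → G.Adj a b) (hZ : Indep G Z) : W G (K ∪ Z) kLam := by
  classical
  have hfin : ∀ S : Set V, S.Finite := fun S => Set.toFinite S
  refine W.of_prime (G := G) (k := kLam) (le_trans (by norm_num) four_le_kLam)
    (fun R => R ⊆ K ∪ Z) (fun R S hSR hR => hSR.trans hR) ?_ (K ∪ Z) subset_rfl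
  intro R hR hsp
  by_cases hK2 : (R ∩ K).ncard ≤ 2
  · -- at most two clique vertices
    have hfK : (R ∩ K).Finite := hfin _
    have h1 : W G (R \ (hfK.toFinset : Set V)) 1 := by
      refine W.of_indep ?_
      intro a ha b hb
      rw [hfK.coe_toFinset] at ha hb
      have haZ : a ∈ Z := (hR ha.1).resolve_left fun h => ha.2 ⟨ha.1, h⟩
      have hbZ : b ∈ Z := (hR hb.1).resolve_left fun h => hb.2 ⟨hb.1, h⟩
      exact hZ a haZ b hbZ
    refine (W.of_diff_finset hfK.toFinset h1).mono ?_
    have : hfK.toFinset.card ≤ 2 := by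
      rw [← Set.ncard_eq_toFinset_card _ hfK]; exact hK2
    exact addN_mono this
  · push Not at hK2
    by_cases hex : ∃ z ∈ R ∩ Z, ∃ c ∈ R ∩ K, G.Adj z c
    · exfalso
      -- a vertex with a minimal nonempty trace
      set N : V → Set V := fun z => {c | c ∈ R ∩ K ∧ G.Adj z c} with hN
      obtain ⟨z1, hz1, c1, hc1, hzc1⟩ := hex
      set F : Set V := {z | z ∈ R ∩ Z ∧ ∃ c ∈ R ∩ K, G.Adj z c} with hF
      obtain ⟨z0, hz0, hmin⟩ := Set.exists_min_image F (fun z => (N z).ncard) (hfin _)
        ⟨z1, hz1, c1, hc1, hzc1⟩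
      obtain ⟨⟨hz0R, hz0Z⟩, c, ⟨hcR, hcK⟩, hz0c⟩ := hz0
      have hz0K : z0 ∉ K := fun h => (disjoint_left.1 hd) h hz0Z
      have third : ∀ a b : V, ∃ d ∈ R ∩ K, d ≠ a ∧ d ≠ b := by
        intro a b
        by_contra hcon
        push Not at hcon
        have : R ∩ K ⊆ {a, b} := by
          intro d hd'
          by_cases h : d = a
          · exact Or.inl h
          · exact Or.inr (hcon d hd' h)
        have := Set.ncard_le_ncard this (hfin _)
        have h2 := Set.ncard_insert_le a {b}
        rw [Set.ncard_singleton] at h2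
        omega
      by_cases hone : ∀ d ∈ N z0, d = c
      · -- pendant vertex
        obtain ⟨d, ⟨hdR, hdK⟩, hdc, -⟩ := third c c
        obtain ⟨e, ⟨heR, heK⟩, hec, hed⟩ := third c d
        refine hsp {z0, c} (R \ {z0, c}) c d ?_ ?_ (by simp) ?_ ?_ ?_ ?_
        · exact disjoint_sdiff_right
        · rw [union_sdiff_self, union_eq_right]
          rintro x (rfl | rfl)
          · exact hz0R
          · exact hcR
        · refine ⟨hdR, ?_⟩
          rintro (rfl | rfl)
          · exact hz0K hdK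
          · exact hdc rfl
        · rw [Set.ncard_pair]
          rintro rfl
          exact hz0K hcK
        · have hsub : {d, e} ⊆ R \ {z0, c} := by
            rintro x (rfl | rfl)
            · refine ⟨hdR, ?_⟩
              rintro (rfl | rfl)
              · exact hz0K hdK
              · exact hdc rfl
            · refine ⟨heR, ?_⟩
              rintro (rfl | rfl)
              · exact hz0K heK
              · exact hec rfl
          calc 2 = ({d, e} : Set V).ncard := (Set.ncard_pair (Ne.symm hed)).symm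
            _ ≤ _ := Set.ncard_le_ncard hsub (hfin _)
        · rintro x (rfl | rfl) y ⟨hyR, hy⟩
          · -- x = z0
            have h1 : ¬ G.Adj x d := fun h => hdc (hone d ⟨⟨hdR, hdK⟩, h⟩)
            have h2 : ¬ G.Adj x y := by
              intro h
              rcases hR hyR with hyK | hyZ
              · exact hy (Or.inr (hone y ⟨⟨hyR, hyK⟩, h⟩))
              · exact hZ x hz0Z y hyZ h
            exact iff_of_false h2 fun h => h1 h.1
          · exact ⟨fun h => ⟨hK x hcK d hdK (Ne.symm hdc), h⟩, fun h => h.2⟩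
      · -- twins
        push Not at hone
        obtain ⟨c', ⟨⟨hc'R, hc'K⟩, hz0c'⟩, hcc'⟩ := hone
        have htw : ∀ p ∈ K, ∀ p' ∈ K, p ∈ R → p' ∈ R → G.Adj z0 p → G.Adj z0 p' → p ≠ p' →
            ∀ y ∈ R, y ≠ p → y ≠ p' → G.Adj p y → G.Adj p' y := by
          intro p hp p' hp' hpR hp'R hzp hzp' hpp y hyR hyp hyp' hpy
          rcases hR hyR with hyK | hyZ
          · exact hK p' hp' y hyK (Ne.symm hyp')
          · by_contra hp'y
            have hmin' := hmin y ⟨⟨hyR, hyZ⟩, p, ⟨hpR, hp⟩, hpy.symm⟩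
            have : ∃ k ∈ N y, k ∉ N z0 := by
              by_contra hcon
              push Not at hcon
              have hss : N y ⊂ N z0 := ⟨hcon, fun hh => hp'y (hh ⟨⟨hp'R, hp'⟩, hzp'⟩).2.symm⟩
              have := Set.ncard_lt_ncard hss (hfin _)
              omega
            obtain ⟨k, ⟨⟨hkR, hkK⟩, hyk⟩, hk⟩ := this
            have hz0k : ¬ G.Adj z0 k := fun h => hk ⟨⟨hkR, hkK⟩, h⟩
            have hpk : p ≠ k := fun e => hz0k (e ▸ hzp)
            have hp'k : p' ≠ k := fun e => hz0k (e ▸ hzp')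
            exact hG.lam (hK p' hp' p hp (Ne.symm hpp)) (hK p hp k hkK hpk) (hK p' hp' k hkK hp'k)
              hzp hpy.symm hzp' (nadj_symm hp'y) hyk hz0k (hZ z0 hz0Z y hyZ)
        obtain ⟨d, ⟨hdR, hdK⟩, hdc, hdc'⟩ := third c c'
        refine hsp {c, c'} (R \ {c, c'}) c z0 ?_ ?_ (by simp) ?_ ?_ ?_ ?_
        · exact disjoint_sdiff_right
        · rw [union_sdiff_self, union_eq_right]
          rintro x (rfl | rfl)
          · exact hcR
          · exact hc'R
        · refine ⟨hz0R, ?_⟩
          rintro (rfl | rfl)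
          · exact hz0K hcK
          · exact hz0K hc'K
        · rw [Set.ncard_pair (Ne.symm hcc')]
        · have hsub : {d, z0} ⊆ R \ {c, c'} := by
            rintro x (rfl | rfl)
            · refine ⟨hdR, ?_⟩
              rintro (rfl | rfl)
              · exact hdc rfl
              · exact hdc' rfl
            · refine ⟨hz0R, ?_⟩
              rintro (rfl | rfl)
              · exact hz0K hcK
              · exact hz0K hc'K
          have hdz : d ≠ z0 := fun e => hz0K (e ▸ hdK)
          calc 2 = ({d, z0} : Set V).ncard := (Set.ncard_pair hdz).symm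
            _ ≤ _ := Set.ncard_le_ncard hsub (hfin _)
        · rintro x hx y ⟨hyR, hy⟩
          have hyc : y ≠ c := fun e => hy (Or.inl e)
          have hyc' : y ≠ c' := fun e => hy (Or.inr e)
          rcases hx with rfl | rfl
          · exact ⟨fun h => ⟨hz0c.symm, h⟩, fun h => h.2⟩
          · constructor
            · intro h
              exact ⟨hz0c'.symm, htw x hc'K c hcK hc'R hcR hz0c' hz0c hcc' y hyR hyc' hyc h⟩
            · rintro ⟨_, h⟩
              exact htw c hcK x hc'K hcR hc'R hz0c hz0c' (Ne.symm hcc') y hyR hyc hyc' h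
    · -- no edges between K and Z inside R
      push Not at hex
      refine W.mono (W.of_classes (m := 2) (fun v => if v ∈ K then 0 else 1) ?_) four_le_kLam
      intro a ha a' ha' b hb hab hab' e
      have hKZ : ∀ v ∈ R, v ∉ K → v ∈ Z := fun v hv h => (hR hv).resolve_left h
      by_cases haK : a ∈ K <;> by_cases haK' : a' ∈ K
      · by_cases hbK : b ∈ K
        · exact iff_of_true (hK a haK b hbK hab) (hK a' haK' b hbK hab')
        · have hbZ := hKZ b hb hbK
          exact iff_of_false (fun h => hex b ⟨hb, hbZ⟩ a ⟨ha, haK⟩ h.symm)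
            (fun h => hex b ⟨hb, hbZ⟩ a' ⟨ha', haK'⟩ h.symm)
      · simp [haK, haK'] at e
      · simp [haK, haK'] at e
      · have haZ := hKZ a ha haK
        have haZ' := hKZ a' ha' haK'
        by_cases hbK : b ∈ K
        · exact iff_of_false (hex a ⟨ha, haZ⟩ b ⟨hb, hbK⟩) (hex a' ⟨ha', haZ'⟩ b ⟨hb, hbK⟩)
        · have hbZ := hKZ b hb hbK
          exact iff_of_false (hZ a haZ b hbZ) (hZ a' haZ' b hbZ)

/-- the `z`'s having a neighbour outside the clique component `K` have few traces on `K` -/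
theorem few_traces [Finite V] (hG : Cls G) {K B Z : Set V} (hKZ : Disjoint K Z)
    (hK : ∀ a ∈ K, ∀ b ∈ K, a ≠ b → G.Adj a b) (hKB : ∀ a ∈ K, ∀ b ∈ B, ¬ G.Adj a b)
    (hZ : Indep G Z) : Few G {z | z ∈ Z ∧ ∃ v ∈ B, G.Adj v z} K 8 := by
  classical
  have hfin : ∀ S : Set V, S.Finite := fun S => Set.toFinite S
  by_cases hK3 : K.ncard ≤ 3
  · -- a small clique
    have : Fintype K := Fintype.ofFinite K
    refine few_of_label (α := K → Bool) (fun z => fun x => decide (G.Adj z x)) ?_ ?_
    · intro a _ a' _ e b hb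
      have := congrFun e ⟨b, hb⟩
      simpa only [decide_eq_decide] using this
    · rw [Fintype.card_fun, Fintype.card_bool]
      have h1 : Fintype.card K = K.ncard := by
        rw [← Nat.card_eq_fintype_card]; rfl
      rw [h1]
      calc 2 ^ K.ncard ≤ 2 ^ 3 := Nat.pow_le_pow_right (by norm_num) hK3
        _ = 8 := by norm_num
  · push Not at hK3
    set N : V → Set V := fun z => {x | x ∈ K ∧ G.Adj z x} with hN
    set M : V → Set V := fun z => {x | x ∈ K ∧ ¬ G.Adj z x} with hM
    set ZB : Set V := {z | z ∈ Z ∧ ∃ v ∈ B, G.Adj v z} with hZB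
    -- (i) different traces have at most one common missed vertex
    have hi : ∀ z ∈ ZB, ∀ z' ∈ ZB, ∀ c ∈ K, G.Adj z c → ¬ G.Adj z' c →
        ∀ u ∈ K, ∀ u' ∈ K, ¬ G.Adj z u → ¬ G.Adj z u' → ¬ G.Adj z' u → ¬ G.Adj z' u' → u = u' := by
      rintro z ⟨hz, v, hv, hvz⟩ z' ⟨hz', v', hv', hvz'⟩ c hc hzc hzc' u hu u' hu' h1 h2 h3 h4
      by_contra huu
      have huu' := hK u hu u' hu' huu
      have hzz : z ≠ z' := fun e => hzc' (e ▸ hzc)
      have hzz' := hZ z hz z' hz'
      have key : ∀ w ∈ B, G.Adj w z → G.Adj w z' → False := by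
        intro w hw h5 h6
        exact hG.p23 u u' z w z' huu' h5.symm h6 hzz hzz' (nadj_symm h1) (hKB u hu w hw)
          (nadj_symm h3) (nadj_symm h2) (hKB u' hu' w hw) (nadj_symm h4)
      have hvz2 : ¬ G.Adj v z' := fun h => key v hv hvz h
      have hvz2' : ¬ G.Adj v' z := fun h => key v' hv' h hvz'
      have hzv' : z ≠ v' := by
        rintro rfl
        exact hzz' hvz'
      by_cases hvv : G.Adj v v'
      · exact hG.p23 u u' z v v' huu' hvz.symm hvv hzv' (nadj_symm hvz2') (nadj_symm h1)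
          (hKB u hu v hv) (hKB u hu v' hv') (nadj_symm h2) (hKB u' hu' v hv) (hKB u' hu' v' hv')
      · have hcv : c ≠ v := by
          rintro rfl
          exact hKB u hu c hv (by
            have : u ≠ c := fun e => h1 (e ▸ hzc)
            exact hK u hu c hc this)
        exact hG.p23 v' z' c z v hvz' hzc.symm hvz.symm hcv (hKB c hc v hv)
          (nadj_symm (hKB c hc v' hv')) hvz2' (nadj_symm hvv) hzc' (nadj_symm hzz')
          (nadj_symm hvz2)
    -- (ii) laminarity
    have hlam : ∀ z ∈ Z, ∀ z' ∈ Z, ∀ i ∈ K, ∀ j ∈ K, ∀ k ∈ K, G.Adj z j → G.Adj z' j →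
        G.Adj z i → ¬ G.Adj z' i → G.Adj z' k → ¬ G.Adj z k → False := by
      intro z hz z' hz' i hi' j hj k hk h1 h2 h3 h4 h5 h6
      have hij : i ≠ j := fun e => h4 (e ▸ h2)
      have hjk : j ≠ k := fun e => h6 (e ▸ h1)
      have hik : i ≠ k := fun e => h6 (e ▸ h3)
      exact hG.lam (hK i hi' j hj hij) (hK j hj k hk hjk) (hK i hi' k hk hik) h1 h2 h3 h4 h5 h6
        (hZ z hz z' hz')
    have hbig : ∀ a b : V, ∃ d ∈ K, d ≠ a ∧ d ≠ b := by
      intro a b
      by_contra hcon
      push Not at hcon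
      have hsub : K ⊆ {a, b} := by
        intro d hd'
        by_cases h : d = a
        · exact Or.inl h
        · exact Or.inr (hcon d hd' h)
      have h1 := Set.ncard_le_ncard hsub (hfin _)
      have h2 := Set.ncard_insert_le a {b}
      rw [Set.ncard_singleton] at h2
      omega
    -- two different traces missing at least two vertices are not nested
    have hnn : ∀ x ∈ ZB, ∀ y ∈ ZB, ¬ (M y).Subsingleton → N x ≠ N y → ∃ c ∈ N x, c ∉ N y := by
      intro x hx y hy hy2 hxy
      by_contra hcon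
      push Not at hcon
      have : ∃ c ∈ N y, c ∉ N x := by
        by_contra hcon2
        push Not at hcon2
        exact hxy (Set.Subset.antisymm hcon hcon2)
      obtain ⟨c, ⟨hcK, hyc⟩, hcx⟩ := this
      have hxc : ¬ G.Adj x c := fun h => hcx ⟨hcK, h⟩
      apply hy2
      rintro u ⟨hu, hyu⟩ u' ⟨hu', hyu'⟩
      have hxu : ¬ G.Adj x u := fun h => hyu (hcon u ⟨hu, h⟩).2
      have hxu' : ¬ G.Adj x u' := fun h => hyu' (hcon u' ⟨hu', h⟩).2
      exact hi y hy x hx c hcK hyc hxc u hu u' hu' hyu hyu' hxu hxu'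
    have hdis : ∀ x ∈ ZB, ∀ y ∈ ZB, ¬ (M x).Subsingleton → ¬ (M y).Subsingleton → N x ≠ N y →
        ∀ j ∈ N x, j ∉ N y := by
      intro x hx y hy hx2 hy2 hxy j hj hj'
      obtain ⟨c, ⟨hcK, hxc⟩, hcy⟩ := hnn x hx y hy hy2 hxy
      obtain ⟨c', ⟨hcK', hyc'⟩, hcx'⟩ := hnn y hy x hx hx2 (Ne.symm hxy)
      exact hlam x hx.1 y hy.1 c hcK j hj.1 c' hcK' hj.2 hj'.2 hxc (fun h => hcy ⟨hcK, h⟩) hyc'
        (fun h => hcx' ⟨hcK', h⟩)
    have hsub : ∀ x ∈ ZB, ∀ y ∈ ZB, ∀ w ∈ ZB, ¬ (M x).Subsingleton → ¬ (M y).Subsingleton →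
        ¬ (M w).Subsingleton → N x ≠ N y → N y ≠ N w → N x ≠ N w → (N x).Subsingleton := by
      intro x hx y hy w hw hx2 hy2 hw2 hxy hyw hxw u hu u' hu'
      obtain ⟨c, ⟨hcK, hyc⟩, hcw⟩ := hnn y hy w hw hw2 hyw
      have d1 := hdis x hx y hy hx2 hy2 hxy
      have d2 := hdis x hx w hw hx2 hw2 hxw
      exact hi y hy w hw c hcK hyc (fun h => hcw ⟨hcK, h⟩) u hu.1 u' hu'.1
        (fun h => d1 u hu ⟨hu.1, h⟩) (fun h => d1 u' hu' ⟨hu'.1, h⟩)
        (fun h => d2 u hu ⟨hu.1, h⟩) (fun h => d2 u' hu' ⟨hu'.1, h⟩)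
    have hthree : ∀ x ∈ ZB, ∀ y ∈ ZB, ∀ w ∈ ZB, ¬ (M x).Subsingleton → ¬ (M y).Subsingleton →
        ¬ (M w).Subsingleton → N x ≠ N y → N y ≠ N w → N x ≠ N w → False := by
      intro x hx y hy w hw hx2 hy2 hw2 hxy hyw hxw
      have s1 := hsub x hx y hy w hw hx2 hy2 hw2 hxy hyw hxw
      have s2 := hsub y hy x hx w hw hy2 hx2 hw2 (Ne.symm hxy) hxw hyw
      have s3 : (M x ∩ M y).Subsingleton := by
        rintro u ⟨⟨hu, h1⟩, ⟨_, h2⟩⟩ u' ⟨⟨hu', h3⟩, ⟨_, h4⟩⟩
        obtain ⟨c, ⟨hcK, hxc⟩, hcy⟩ := hnn x hx y hy hy2 hxy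
        exact hi x hx y hy c hcK hxc (fun h => hcy ⟨hcK, h⟩) u hu u' hu' h1 h3 h2 h4
      have hcov : K ⊆ (N x ∪ N y) ∪ (M x ∩ M y) := by
        intro u hu
        by_cases h1 : G.Adj x u
        · exact Or.inl (Or.inl ⟨hu, h1⟩)
        · by_cases h2 : G.Adj y u
          · exact Or.inl (Or.inr ⟨hu, h2⟩)
          · exact Or.inr ⟨⟨hu, h1⟩, ⟨hu, h2⟩⟩
      have c1 := Set.ncard_le_ncard hcov (hfin _)
      have c2 := Set.ncard_union_le (N x ∪ N y) (M x ∩ M y)
      have c3 := Set.ncard_union_le (N x) (N y)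
      have e1 : (N x).ncard ≤ 1 := Set.ncard_le_one_iff_subsingleton.2 s1
      have e2 : (N y).ncard ≤ 1 := Set.ncard_le_one_iff_subsingleton.2 s2
      have e3 : (M x ∩ M y).ncard ≤ 1 := Set.ncard_le_one_iff_subsingleton.2 s3
      omega
    set L0 : Set V := if h : ∃ z0 ∈ ZB, ¬ (M z0).Subsingleton then N h.choose else ∅ with hL0
    have key : ∀ a ∈ ZB, ∀ a' ∈ ZB,
        ((if (M a).Subsingleton then (if M a = ∅ then 0 else 1) else (if N a = L0 then 2 else 3)
          : Fin 4) =
        (if (M a').Subsingleton then (if M a' = ∅ then 0 else 1) else (if N a' = L0 then 2 else 3)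
          : Fin 4)) → N a = N a' := by
      intro a ha a' ha' e
      by_cases h1 : (M a).Subsingleton <;> by_cases h2 : (M a').Subsingleton
      · by_cases h3 : M a = ∅ <;> by_cases h4 : M a' = ∅
        · have f1 : ∀ v, M v = ∅ → N v = K := by
            intro v hv
            ext u; constructor
            · exact fun h => h.1
            · intro hu
              refine ⟨hu, ?_⟩
              by_contra hcon
              have : u ∈ M v := ⟨hu, hcon⟩
              rw [hv] at this; exact this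
          rw [f1 a h3, f1 a' h4]
        · simp [h1, h2, h3, h4] at e
        · simp [h1, h2, h3, h4] at e
        · obtain ⟨x, hx⟩ := Set.nonempty_iff_ne_empty.2 h3
          obtain ⟨x', hx'⟩ := Set.nonempty_iff_ne_empty.2 h4
          have hxx : x = x' := by
            by_contra hne
            obtain ⟨j, hj, hjx, hjx'⟩ := hbig x x'
            have g1 : G.Adj a j := by
              by_contra hcon
              exact hjx (h1 ⟨hj, hcon⟩ hx)
            have g2 : G.Adj a' j := by
              by_contra hcon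
              exact hjx' (h2 ⟨hj, hcon⟩ hx')
            have g3 : G.Adj a x' := by
              by_contra hcon
              exact hne (h1 hx ⟨hx'.1, hcon⟩)
            have g4 : G.Adj a' x := by
              by_contra hcon
              exact hne (h2 ⟨hx.1, hcon⟩ hx')
            exact hlam a ha.1 a' ha'.1 x' hx'.1 j hj x hx.1 g1 g2 g3 hx'.2 g4 hx.2
          subst hxx
          ext u
          constructor
          · rintro ⟨hu, hau⟩
            refine ⟨hu, ?_⟩
            by_contra hcon
            have : u = x := h2 ⟨hu, hcon⟩ hx'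
            exact hx.2 (this ▸ hau)
          · rintro ⟨hu, hau⟩
            refine ⟨hu, ?_⟩
            by_contra hcon
            have : u = x := h1 ⟨hu, hcon⟩ hx
            exact hx'.2 (this ▸ hau)
      · exfalso
        by_cases h3 : M a = ∅ <;> by_cases h4 : N a' = L0 <;> simp [h1, h2, h3, h4] at e
      · exfalso
        by_cases h3 : M a' = ∅ <;> by_cases h4 : N a = L0 <;> simp [h1, h2, h3, h4] at e
      · by_cases h3 : N a = L0 <;> by_cases h4 : N a' = L0
        · rw [h3, h4]
        · simp [h1, h2, h3, h4] at e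
        · simp [h1, h2, h3, h4] at e
        · by_contra hne
          have hex : ∃ z0 ∈ ZB, ¬ (M z0).Subsingleton := ⟨a, ha, h1⟩
          have hL : L0 = N hex.choose := by simp only [hL0, hex, dite_true]
          obtain ⟨g1, g2⟩ := hex.choose_spec
          rw [hL] at h3 h4
          exact hthree a ha a' ha' _ g1 h1 h2 g2 hne h4 h3
    refine Few.mono (n := 4) ⟨fun a => (if (M a).Subsingleton then (if M a = ∅ then 0 else 1) else
      (if N a = L0 then 2 else 3) : Fin 4), ?_⟩ subset_rfl subset_rfl (by norm_num)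
    intro a ha a' ha' e b hb
    have hN' := key a ha a' ha' e
    constructor
    · intro h
      have : b ∈ N a := ⟨hb, h⟩
      rw [hN'] at this; exact this.2
    · intro h
      have : b ∈ N a' := ⟨hb, h⟩
      rw [← hN'] at this; exact this.2

end Pool.Agent.GemWidth
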