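import Pool.Agent.GemWidth.Cls

set_option autoImplicit false

namespace Pool.Agent.GemWidth

open Set

/-- statement of the class X theorem with bound `k` -/
def ClassXBound (k : ℕ) : Prop := ∀ (V : Type) [Finite V] (G : SimpleGraph V) (q : V) (R : Set V),
    Cls G → (∀ a ∈ R, ∀ b ∈ R, a ≠ q → b ≠ q → ¬ G.Adj q a → ¬ G.Adj q b → ¬ G.Adj a b) → W G R k

/-- statement of the EO lemma with bound `k` -/
def EOBound (k : ℕ) : Prop := ∀ (V : Type) [Finite V] (G : SimpleGraph V) (E O Z : Set V)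
    (qE qO : V),
    Cls G → Disjoint E O → Disjoint E Z → Disjoint O Z → Indep G Z →
    (∀ e ∈ E, ∀ o ∈ O, G.Adj e o) → (∀ e ∈ E, G.Adj qE e) → (∀ o ∈ O, G.Adj qO o) →
    (∀ x ∈ O ∪ Z, ¬ G.Adj qE x) → (∀ x ∈ E ∪ Z, ¬ G.Adj qO x) → W G (E ∪ O ∪ Z) k

section General

variable {V : Type*} {G : SimpleGraph V} {A B R S : Set V} {n m k : ℕ}

/-- blocks with adjacency between different blocks determined by the types -/
theorem W.blocks [Finite V] {ι : Type*} (κ : V → ι) (p : V → Fin m)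
    (hblock : ∀ i, W G {v | v ∈ R ∧ κ v = i} n)
    (hadj : ∀ a ∈ R, ∀ a' ∈ R, ∀ b ∈ R, κ a ≠ κ b → κ a' ≠ κ b → p a = p a' →
      (G.Adj a b ↔ G.Adj a' b)) :
    W G R ((1 + 1) * m + (n + 1) * m + (n + 1 + 2 ^ m)) := by
  classical
  set P : V → V := fun v => if h : ∃ u ∈ R, κ u = κ v then Classical.choose h else v with hP
  have hPR : ∀ v ∈ R, P v ∈ R ∧ κ (P v) = κ v := by
    intro v hv
    have h : ∃ u ∈ R, κ u = κ v := ⟨v, hv, rfl⟩
    have e : P v = Classical.choose h := by simp only [hP]; rw [dif_pos h]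
    rw [e]; exact Classical.choose_spec h
  have hPeq : ∀ v ∈ R, ∀ w ∈ R, κ v = κ w → P v = P w := by
    intro v hv w hw e
    simp only [hP, e]
    rw [dif_pos ⟨w, hw, rfl⟩]
    rw [dif_pos (show ∃ u ∈ R, κ u = κ w from ⟨w, hw, rfl⟩)]
  refine W.subst (H := (⊥ : SimpleGraph V)) (X := R) P p (W.of_indep fun _ _ _ _ h => h)
    (fun v hv => (hPR v hv).1) ?_ ?_
  · intro x hx
    refine (hblock (κ x)).subset ?_
    rintro v ⟨hv, hvx⟩
    refine ⟨hv, ?_⟩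
    rw [← hvx, (hPR v hv).2]
  · intro a ha a' ha' b hb h1 h2 h3 _
    exact hadj a ha a' ha' b hb (fun h => h1 (hPeq a ha b hb h))
      (fun h => h2 (hPeq a' ha' b hb h)) h3

/-- the block bound -/
def blk (n m : ℕ) : ℕ := (1 + 1) * m + (n + 1) * m + (n + 1 + 2 ^ m)

theorem W.clique [Finite V] (h : ∀ a ∈ R, ∀ b ∈ R, a ≠ b → G.Adj a b) : W G R 2 := by
  have := W.of_classes (G := G) (R := R) (m := 1) (fun _ => 0) (by
    intro a ha a' ha' b hb h1 h2 _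
    exact iff_of_true (h a ha b hb h1) (h a' ha' b hb h2))
  simpa using this

end General

variable {V : Type} {G : SimpleGraph V} {S F Z : Set V} {π : V → ℕ}

/-- the situation of T4.2 (with `three`) -/
structure MC (G : SimpleGraph V) (S F Z : Set V) (π : V → ℕ) : Prop where
  cls : Cls G
  noC5 : NoC5 G
  dSF : Disjoint S F
  dSZ : Disjoint S Z
  dFZ : Disjoint F Z
  adjS : ∀ a ∈ S, ∀ b ∈ S, a ≠ b → (G.Adj a b ↔ π a = π b)
  two : ∀ a ∈ S, ∃ b ∈ S, a ≠ b ∧ π a = π b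
  three : ∃ a ∈ S, ∃ b ∈ S, ∃ c ∈ S, π a ≠ π b ∧ π a ≠ π c ∧ π b ≠ π c
  indZ : Indep G Z
  antiZ : ∀ z ∈ Z, ∀ x ∈ S, ¬ G.Adj z x
  touch : ∀ f ∈ F, ∀ a ∈ S, ∃ x ∈ S, π x = π a ∧ G.Adj f x

/-- conflict -/
def Cf (G : SimpleGraph V) (S : Set V) (π : V → ℕ) (f g : V) : Prop :=
  ∃ a ∈ S, ∃ b ∈ S, π a = π b ∧ a ≠ b ∧ ¬ G.Adj f a ∧ ¬ G.Adj g b

/-- `f` is complete to component `c` -/
def Full (G : SimpleGraph V) (S : Set V) (π : V → ℕ) (f : V) (c : ℕ) : Prop :=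
  ∀ v ∈ S, π v = c → G.Adj f v

/-- bad component -/
def Bad (G : SimpleGraph V) (S F : Set V) (π : V → ℕ) (c : ℕ) : Prop :=
  ∃ f ∈ F, ∃ g ∈ F, ∃ a ∈ S, ∃ b ∈ S, π a = c ∧ π b = c ∧ a ≠ b ∧ ¬ G.Adj f a ∧ ¬ G.Adj g b

theorem Cf.symm {f g : V} (h : Cf G S π f g) : Cf G S π g f := by
  obtain ⟨a, ha, b, hb, e, ne, h1, h2⟩ := h
  exact ⟨b, hb, a, ha, e.symm, ne.symm, h2, h1⟩

theorem not_full {f : V} {c : ℕ} (h : ¬ Full G S π f c) : ∃ v ∈ S, π v = c ∧ ¬ G.Adj f v := by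
  unfold Full at h
  push Not at h
  exact h

namespace MC

theorem nS (h : MC G S F Z π) {a b : V} (ha : a ∈ S) (hb : b ∈ S) (e : π a ≠ π b) :
    ¬ G.Adj a b := by
  have hne : a ≠ b := fun h => e (by rw [h])
  exact fun h' => e ((h.adjS a ha b hb hne).1 h')

theorem yS (h : MC G S F Z π) {a b : V} (ha : a ∈ S) (hb : b ∈ S) (hne : a ≠ b) (e : π a = π b) :
    G.Adj a b := (h.adjS a ha b hb hne).2 e

/-- two other components -/
theorem others (h : MC G S F Z π) (c : ℕ) : ∃ a ∈ S, ∃ b ∈ S, π a ≠ c ∧ π b ≠ c ∧ π a ≠ π b := by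
  obtain ⟨a, ha, b, hb, d, hd, h1, h2, h3⟩ := h.three
  by_cases ea : π a = c
  · exact ⟨b, hb, d, hd, fun h => h1 (ea.trans h.symm), fun h => h2 (ea.trans h.symm), h3⟩
  · by_cases eb : π b = c
    · exact ⟨a, ha, d, hd, ea, fun h => h3 (eb.trans h.symm), h2⟩
    · exact ⟨a, ha, b, hb, ea, eb, h1⟩

theorem other (h : MC G S F Z π) (c d : ℕ) : ∃ a ∈ S, π a ≠ c ∧ π a ≠ d := by
  obtain ⟨a, ha, b, hb, h1, h2, h3⟩ := h.others c
  by_cases e : π a = d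
  · exact ⟨b, hb, h2, fun h => h3 (e.trans h.symm)⟩
  · exact ⟨a, ha, h1, e⟩

/-- every `f` misses at most one vertex of each component -/
theorem miss (h : MC G S F Z π) {f a b : V} (hf : f ∈ F) (ha : a ∈ S) (hb : b ∈ S)
    (e : π a = π b) (h1 : ¬ G.Adj f a) (h2 : ¬ G.Adj f b) : a = b := by
  by_contra hne
  obtain ⟨c, hc, d, hd, hc1, hd1, hcd⟩ := h.others (π a)
  obtain ⟨x, hx, ex, fx⟩ := h.touch f hf c hc
  obtain ⟨y, hy, ey, fy⟩ := h.touch f hf d hd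
  have hxy : π x ≠ π y := by rw [ex, ey]; exact hcd
  have hax : π a ≠ π x := by rw [ex]; exact hc1.symm
  have hay : π a ≠ π y := by rw [ey]; exact hd1.symm
  exact h.cls.p23 a b x f y (h.yS ha hb hne e) fx.symm fy (fun h => hxy (by rw [h]))
    (h.nS hx hy hxy) (h.nS ha hx hax) (fun h => h1 h.symm) (h.nS ha hy hay)
    (h.nS hb hx (e ▸ hax)) (fun h => h2 h.symm) (h.nS hb hy (e ▸ hay))

theorem adj_of_miss (h : MC G S F Z π) {f a b : V} (hf : f ∈ F) (ha : a ∈ S) (hb : b ∈ S)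
    (e : π a = π b) (h1 : ¬ G.Adj f a) (hne : a ≠ b) : G.Adj f b := by
  by_contra h2
  exact hne (h.miss hf ha hb e h1 h2)

theorem f1 (h : MC G S F Z π) {f g x w w' : V} (hx : x ∈ S) (hw : w ∈ S) (hw' : w' ∈ S)
    (fg : G.Adj f g) (fx : G.Adj f x) (gx : G.Adj g x) (fw' : G.Adj f w') (gw' : G.Adj g w')
    (e : π x ≠ π w') (e' : π w = π w') (fw : G.Adj f w) : G.Adj g w := by
  by_contra hgw
  have hne : w' ≠ w := by rintro rfl; exact hgw gw'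
  exact h.cls.gem f x g w' w fx fg fw' fw gx.symm gw' (h.yS hw' hw hne e'.symm)
    (h.nS hx hw' e) (h.nS hx hw (e' ▸ e)) hgw

theorem f2 (h : MC G S F Z π) {f g x w w' : V} (hx : x ∈ S) (hw : w ∈ S) (hw' : w' ∈ S)
    (fg : ¬ G.Adj f g) (fx : G.Adj f x) (gx : G.Adj g x) (e : π x ≠ π w) (e' : π w = π w')
    (fw : G.Adj f w) (gw : ¬ G.Adj g w) (fw' : ¬ G.Adj f w') (gw' : G.Adj g w') : False := by
  have hne : w ≠ w' := by rintro rfl; exact gw gw'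
  exact h.noC5 x f w w' g fx.symm fw (h.yS hw hw' hne e') gw'.symm gx (h.nS hx hw e)
    (h.nS hx hw' (e' ▸ e)) fw' fg (nadj_symm gw)

/-- (A) nonadjacent implies no conflict -/
theorem fA (h : MC G S F Z π) {f g : V} (hf : f ∈ F) (hg : g ∈ F) (c : Cf G S π f g) :
    G.Adj f g := by
  by_contra fg
  obtain ⟨a, ha, b, hb, e, ne, fa, gb⟩ := c
  have fb := h.adj_of_miss hf ha hb e fa ne
  have ga := h.adj_of_miss hg hb ha e.symm gb ne.symm
  obtain ⟨c, hc, d, hd, hc1, hd1, hcd⟩ := h.others (π a)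
  have key : ∀ y ∈ S, π y ≠ π a → ∃ z ∈ S, π z = π y ∧ G.Adj g z ∧ ¬ G.Adj f z := by
    intro y hy hya
    obtain ⟨z, hz, ez, gz⟩ := h.touch g hg y hy
    refine ⟨z, hz, ez, gz, fun fz => ?_⟩
    exact h.f2 hz hb ha fg fz gz (by rw [ez, ← e]; exact hya) e.symm fb gb fa ga
  obtain ⟨x, hx, ex, gx, fx⟩ := key c hc hc1
  obtain ⟨y, hy, ey, gy, fy⟩ := key d hd hd1
  have hxy : π x ≠ π y := by rw [ex, ey]; exact hcd
  have hbx : π b ≠ π x := by rw [ex, ← e]; exact hc1.symm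
  have hby : π b ≠ π y := by rw [ey, ← e]; exact hd1.symm
  exact h.cls.p23 f b x g y fb gx.symm gy (fun h => hxy (by rw [h])) (h.nS hx hy hxy)
    fx fg fy (h.nS hb hx hbx) (nadj_symm gb) (h.nS hb hy hby)

theorem share_or (h : MC G S F Z π) {f g a : V} (hf : f ∈ F) (hg : g ∈ F) (ha : a ∈ S) :
    (∃ x ∈ S, π x = π a ∧ G.Adj f x ∧ G.Adj g x) ∨
    (∃ x ∈ S, ∃ y ∈ S, π x = π a ∧ π y = π a ∧ x ≠ y ∧ ¬ G.Adj f x ∧ ¬ G.Adj g y) := by
  obtain ⟨x, hx, ex, fx⟩ := h.touch f hf a ha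
  by_cases gx : G.Adj g x
  · exact Or.inl ⟨x, hx, ex, fx, gx⟩
  obtain ⟨y, hy, ey, gy⟩ := h.touch g hg a ha
  by_cases fy : G.Adj f y
  · exact Or.inl ⟨y, hy, ey, fy, gy⟩
  · exact Or.inr ⟨y, hy, x, hx, ey, ex, (by rintro rfl; exact gx gy), fy, gx⟩

theorem share_full (h : MC G S F Z π) {f g : V} {c : ℕ} (hg : g ∈ F)
    (hc : ∃ a ∈ S, π a = c) (hfull : Full G S π f c) : ∃ x ∈ S, π x = c ∧ G.Adj f x ∧ G.Adj g x := by
  obtain ⟨a, ha, ea⟩ := hc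
  obtain ⟨x, hx, ex, gx⟩ := h.touch g hg a ha
  exact ⟨x, hx, ex.trans ea, hfull x hx (ex.trans ea), gx⟩

/-- (B) -/
theorem fB (h : MC G S F Z π) {f g x y w v : V} (fg : G.Adj f g) (hx : x ∈ S) (hy : y ∈ S)
    (hw : w ∈ S) (hv : v ∈ S) (fx : G.Adj f x) (gx : G.Adj g x) (fy : G.Adj f y) (gy : G.Adj g y)
    (fw : G.Adj f w) (gw : G.Adj g w) (e : π x ≠ π y) (e' : π v = π w) :
    G.Adj f v ↔ G.Adj g v := by
  by_cases e1 : π x = π w
  · have e2 : π y ≠ π w := fun h => e (e1.trans h.symm)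
    exact ⟨h.f1 hy hv hw fg fy gy fw gw e2 e', h.f1 hy hv hw fg.symm gy fy gw fw e2 e'⟩
  · exact ⟨h.f1 hx hv hw fg fx gx fw gw e1 e', h.f1 hx hv hw fg.symm gx fx gw fw e1 e'⟩

/-- (C) -/
theorem fC (h : MC G S F Z π) {f g v : V} (hf : f ∈ F) (hg : g ∈ F) (hc : ¬ Cf G S π f g)
    (hv : v ∈ S) (hd : ¬ (G.Adj f v ↔ G.Adj g v)) : ¬ G.Adj f g := by
  intro fg
  have sh : ∀ a ∈ S, ∃ x ∈ S, π x = π a ∧ G.Adj f x ∧ G.Adj g x := by
    intro a ha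
    rcases h.share_or hf hg ha with h1 | ⟨x, hx, y, hy, ex, ey, ne, fx, gy⟩
    · exact h1
    · exact absurd ⟨x, hx, y, hy, ex.trans ey.symm, ne, fx, gy⟩ hc
  obtain ⟨a, ha, ea, _⟩ := h.other (π v) (π v)
  obtain ⟨w, hw, ew, fw, gw⟩ := sh v hv
  obtain ⟨x, hx, ex, fx, gx⟩ := sh a ha
  exact hd (h.fB fg hx hw hw hv fx gx fw gw fw gw (by rw [ex, ew]; exact ea) ew.symm)

/-- adjacent vertices sharing a component where one is full and the other not, and another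
component, cannot be adjacent -/
theorem nadj_of_full (h : MC G S F Z π) {f g x v : V} {c : ℕ} (hg : g ∈ F)
    (hfull : Full G S π f c) (hv : v ∈ S) (ev : π v = c) (gv : ¬ G.Adj g v) (hx : x ∈ S)
    (fx : G.Adj f x) (gx : G.Adj g x) (ex : π x ≠ c) : ¬ G.Adj f g := by
  intro fg
  obtain ⟨w, hw, ew, fw, gw⟩ := h.share_full hg ⟨v, hv, ev⟩ hfull
  have := h.fB fg hx hw hw hv fx gx fw gw fw gw (by rw [ew]; exact ex) (by rw [ev, ew])
  exact gv (this.1 (hfull v hv ev))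

end MC

end Pool.Agent.GemWidth
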