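import Pool.Agent.GemWidth.ManyA

set_option autoImplicit false

namespace Pool.Agent.GemWidth

open Set

variable {V : Type} {G : SimpleGraph V} {S F Z : Set V} {π : V → ℕ}

namespace MC

/-- the gem behind (D): `x` missed only by `f`, `y` missed only by `g`, different components -/
theorem sing (h : MC G S F Z π) {f g k x y : V} (hx : x ∈ S) (hy : y ∈ S) (fg : G.Adj f g)
    (fk : G.Adj f k) (gk : G.Adj g k) (fx : ¬ G.Adj f x) (gx : G.Adj g x) (kx : G.Adj k x)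
    (fy : G.Adj f y) (gy : ¬ G.Adj g y) (ky : G.Adj k y) : π x = π y := by
  by_contra e
  exact h.cls.gem k x g f y kx gk.symm fk.symm ky gx.symm fg.symm fy (nadj_symm fx)
    (h.nS hx hy e) gy

/-- all conflicts of a conflict triangle are in one component -/
theorem tri_same (h : MC G S F Z π) {f g k a b a' b' a'' b'' : V} (hf : f ∈ F) (hg : g ∈ F)
    (hk : k ∈ F) (ha : a ∈ S) (hb : b ∈ S) (ha' : a' ∈ S) (hb' : b' ∈ S) (ha'' : a'' ∈ S)
    (hb'' : b'' ∈ S) (e : π a = π b) (e' : π a' = π b') (e'' : π a'' = π b'') (ne : a ≠ b)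
    (ne' : a' ≠ b') (ne'' : a'' ≠ b'') (fa : ¬ G.Adj f a) (gb : ¬ G.Adj g b)
    (fa' : ¬ G.Adj f a') (kb' : ¬ G.Adj k b') (ga'' : ¬ G.Adj g a'') (kb'' : ¬ G.Adj k b'') :
    π a = π a' ∧ π a = π a'' := by
  have fg := h.fA hf hg ⟨a, ha, b, hb, e, ne, fa, gb⟩
  have fk := h.fA hf hk ⟨a', ha', b', hb', e', ne', fa', kb'⟩
  have gk := h.fA hg hk ⟨a'', ha'', b'', hb'', e'', ne'', ga'', kb''⟩
  have fb := h.adj_of_miss hf ha hb e fa ne
  have ga := h.adj_of_miss hg hb ha e.symm gb ne.symm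
  have fb' := h.adj_of_miss hf ha' hb' e' fa' ne'
  have ka' := h.adj_of_miss hk hb' ha' e'.symm kb' ne'.symm
  have gb'' := h.adj_of_miss hg ha'' hb'' e'' ga'' ne''
  have ka'' := h.adj_of_miss hk hb'' ha'' e''.symm kb'' ne''.symm
  -- singular alternatives
  have s1 : G.Adj k a ∨ G.Adj k b := by
    by_contra hh
    push Not at hh
    exact ne (h.miss hk ha hb e hh.1 hh.2)
  have s2 : G.Adj g a' ∨ G.Adj g b' := by
    by_contra hh
    push Not at hh
    exact ne' (h.miss hg ha' hb' e' hh.1 hh.2)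
  have s3 : G.Adj f a'' ∨ G.Adj f b'' := by
    by_contra hh
    push Not at hh
    exact ne'' (h.miss hf ha'' hb'' e'' hh.1 hh.2)
  rcases s1 with ka | kb <;> rcases s2 with ga' | gb' <;> rcases s3 with fa'' | fb''
  · -- f@a, f@a', g@a''
    have r1 := h.sing ha ha'' fg fk gk fa ga ka fa'' ga'' ka''
    have r2 := h.sing ha' ha'' fg fk gk fa' ga' ka' fa'' ga'' ka''
    exact ⟨r1.trans r2.symm, r1⟩
  · -- f@a, f@a', k@b''
    have r1 := h.sing ha hb'' fk fg gk.symm fa ka ga fb'' kb'' gb''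
    have r2 := h.sing ha' hb'' fk fg gk.symm fa' ka' ga' fb'' kb'' gb''
    exact ⟨r1.trans r2.symm, r1.trans e''.symm⟩
  · -- f@a, k@b', g@a''
    have r1 := h.sing ha hb' fk fg gk.symm fa ka ga fb' kb' gb'
    have r2 := h.sing ha ha'' fg fk gk fa ga ka fa'' ga'' ka''
    exact ⟨r1.trans e'.symm, r2⟩
  · -- f@a, k@b', k@b''
    have r1 := h.sing ha hb' fk fg gk.symm fa ka ga fb' kb' gb'
    have r2 := h.sing ha hb'' fk fg gk.symm fa ka ga fb'' kb'' gb''
    exact ⟨r1.trans e'.symm, r2.trans e''.symm⟩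
  · -- g@b, f@a', g@a''
    have r1 := h.sing hb ha' fg.symm gk fk gb fb kb ga' fa' ka'
    have r2 := h.sing ha' ha'' fg fk gk fa' ga' ka' fa'' ga'' ka''
    exact ⟨e.trans r1, (e.trans r1).trans r2⟩
  · -- g@b, f@a', k@b''
    have r1 := h.sing hb ha' fg.symm gk fk gb fb kb ga' fa' ka'
    have r2 := h.sing ha' hb'' fk fg gk.symm fa' ka' ga' fb'' kb'' gb''
    exact ⟨e.trans r1, ((e.trans r1).trans r2).trans e''.symm⟩
  · -- g@b, k@b', g@a''
    have r1 := h.sing hb hb' gk fg.symm fk.symm gb kb fb gb' kb' fb'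
    have r2 := h.sing ha'' hb' gk fg.symm fk.symm ga'' ka'' fa'' gb' kb' fb'
    exact ⟨(e.trans r1).trans e'.symm, (e.trans r1).trans r2.symm⟩
  · -- g@b, k@b', k@b''
    have r1 := h.sing hb hb' gk fg.symm fk.symm gb kb fb gb' kb' fb'
    have r2 := h.sing hb hb'' gk fg.symm fk.symm gb kb fb gb'' kb'' fb''
    exact ⟨(e.trans r1).trans e'.symm, (e.trans r2).trans e''.symm⟩

/-- (D) the conflict graph is triangle-free -/
theorem fD (h : MC G S F Z π) {f g k : V} (hf : f ∈ F) (hg : g ∈ F) (hk : k ∈ F)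
    (c1 : Cf G S π f g) (c2 : Cf G S π f k) (c3 : Cf G S π g k) : False := by
  have fg := h.fA hf hg c1
  obtain ⟨a, ha, b, hb, e, ne, fa, gb⟩ := c1
  obtain ⟨a', ha', b', hb', e', ne', fa', kb'⟩ := c2
  obtain ⟨a'', ha'', b'', hb'', e'', ne'', ga'', kb''⟩ := c3
  obtain ⟨r1, r2⟩ := h.tri_same hf hg hk ha hb ha' hb' ha'' hb'' e e' e'' ne ne' ne'' fa gb fa'
    kb' ga'' kb''
  have aa : a = a' := h.miss hf ha ha' r1 fa fa'
  have bb : b' = b'' := h.miss hk hb' hb'' (by rw [← e', ← e'', ← r1, ← r2]) kb' kb''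
  have ba : b = a'' := h.miss hg hb ha'' (by rw [← e, ← r2]) gb ga''
  subst aa; subst bb; subst ba
  -- b' is a common neighbour of f and g in the component
  have fb' : G.Adj f b' := h.adj_of_miss hf ha hb' e' fa ne'
  have gb' : G.Adj g b' := h.adj_of_miss hg hb hb' e'' gb ne''
  have ga := h.adj_of_miss hg hb ha e.symm gb ne.symm
  obtain ⟨d, hd, hda, _⟩ := h.other (π a) (π a)
  rcases h.share_or hf hg hd with ⟨x, hx, ex, fx, gx⟩ | ⟨x, hx, y, hy, ex, ey, nexy, fx, gy⟩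
  · have := h.fB fg hx hb' hb' ha fx gx fb' gb' fb' gb' (by rw [ex, ← e']; exact hda) e'
    exact fa (this.2 ga)
  · have := h.tri_same hf hg hk hx hy ha' hb' hb hb'' (ex.trans ey.symm) e' e'' nexy ne' ne''
      fx gy fa kb' gb kb'
    exact hda (ex.symm.trans this.1)

/-- a bad component has exactly two missed vertices -/
theorem bad_two (h : MC G S F Z π) {f g k a b v : V} (hf : f ∈ F) (hg : g ∈ F) (hk : k ∈ F)
    (ha : a ∈ S) (hb : b ∈ S) (hv : v ∈ S) (e : π a = π b) (e' : π v = π a) (ne : a ≠ b)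
    (fa : ¬ G.Adj f a) (gb : ¬ G.Adj g b) (kv : ¬ G.Adj k v) : v = a ∨ v = b := by
  by_contra hh
  push Not at hh
  exact h.fD hf hg hk ⟨a, ha, b, hb, e, ne, fa, gb⟩ ⟨a, ha, v, hv, e'.symm, hh.1.symm, fa, kv⟩
    ⟨b, hb, v, hv, e.symm.trans e'.symm, hh.2.symm, gb, kv⟩

/-- in a bad component every missed vertex has an opponent -/
theorem opp (h : MC G S F Z π) {c : ℕ} (hc : Bad G S F π c) (u : V) :
    ∃ p ∈ F, ∃ v ∈ S, π v = c ∧ v ≠ u ∧ ¬ G.Adj p v := by
  obtain ⟨f, hf, g, hg, a, ha, b, hb, ea, eb, ne, fa, gb⟩ := hc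
  by_cases e : a = u
  · exact ⟨g, hg, b, hb, eb, fun h => ne (e.trans h.symm), gb⟩
  · exact ⟨f, hf, a, ha, ea, e, fa⟩

/-- (K) -/
theorem fK (h : MC G S F Z π) {f g : V} {j l : ℕ} (hf : f ∈ F) (hg : g ∈ F)
    (hjl : j ≠ l) (hj : Bad G S F π j) (hl : Bad G S F π l) (fj : Full G S π f j)
    (fl : Full G S π f l) (gj : ¬ Full G S π g j) (gl : ¬ Full G S π g l) : False := by
  obtain ⟨w, hw, ew, gw⟩ := not_full gj
  obtain ⟨m, hm, em, gm⟩ := not_full gl
  obtain ⟨k, hk, m', hm', em', nem, km'⟩ := h.opp hl m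
  -- f nonadjacent to g and k
  have fg : ¬ G.Adj f g := by
    obtain ⟨x, hx, ex, fx, gx⟩ := h.share_full hg ⟨m, hm, em⟩ fl
    exact h.nadj_of_full hg fj hw ew gw hx fx gx (by rw [ex]; exact hjl.symm)
  have fk : ¬ G.Adj f k := by
    obtain ⟨x, hx, ex, fx, kx⟩ := h.share_full hk ⟨w, hw, ew⟩ fj
    exact h.nadj_of_full hk fl hm' em' km' hx fx kx (by rw [ex]; exact hjl)
  have cgk : Cf G S π g k := ⟨m, hm, m', hm', em.trans em'.symm, nem.symm, gm, km'⟩
  have gk := h.fA hg hk cgk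
  have gm' := h.adj_of_miss hg hm hm' (em.trans em'.symm) gm nem.symm
  by_cases kw : G.Adj k w
  · -- C5 f - m' - g - k - w
    exact h.noC5 f m' g k w (fl m' hm' em') gm'.symm gk kw (fj w hw ew).symm fg fk
      (nadj_symm km') (h.nS hm' hw (by rw [em', ew]; exact hjl.symm)) gw
  · obtain ⟨p, hp, w', hw', ew', new, pw'⟩ := h.opp hj w
    exact h.fD hg hk hp cgk ⟨w, hw, w', hw', ew.trans ew'.symm, new.symm, gw, pw'⟩
      ⟨w, hw, w', hw', ew.trans ew'.symm, new.symm, kw, pw'⟩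

/-- mutually exclusive components -/
theorem ex_step (h : MC G S F Z π) {j l d : ℕ} (hjl : j ≠ l) (hj : Bad G S F π j)
    (hl : Bad G S F π l) (hd : Bad G S F π d) (hdj : d ≠ j)
    (hex : ∀ g ∈ F, Full G S π g j ∨ Full G S π g l) :
    ∀ g ∈ F, Full G S π g j ∨ Full G S π g d := by
  intro g hg
  by_contra hh
  push Not at hh
  obtain ⟨gj, gd⟩ := hh
  have hdl : d ≠ l := by
    rintro rfl
    exact (hex g hg).elim gj gd
  -- nobody is full at both j and d
  have k1 : ∀ f ∈ F, ¬ (Full G S π f j ∧ Full G S π f d) :=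
    fun f hf hh => h.fK hf hg hdj.symm hj hd hh.1 hh.2 gj gd
  obtain ⟨g1, hg1, g2, hg2, a, ha, b, hb, ea, eb, neab, g1a, g2b⟩ := id hj
  obtain ⟨h1, hh1, h2, hh2, a', ha', b', hb', ea', eb', neab', h1a', h2b'⟩ := id hl
  have nf : ∀ {f v : V} {c : ℕ}, v ∈ S → π v = c → ¬ G.Adj f v → ¬ Full G S π f c :=
    fun hv e hn hfull => hn (hfull _ hv e)
  have h1j : Full G S π h1 j := (hex h1 hh1).resolve_right (nf ha' ea' h1a')
  have g1l : Full G S π g1 l := (hex g1 hg1).resolve_left (nf ha ea g1a)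
  have g2l : Full G S π g2 l := (hex g2 hg2).resolve_left (nf hb eb g2b)
  have h1d : ¬ Full G S π h1 d := fun hh => k1 h1 hh1 ⟨h1j, hh⟩
  -- nobody is full at both l and d
  have k2 : ∀ f ∈ F, ¬ (Full G S π f l ∧ Full G S π f d) :=
    fun f hf hh => h.fK hf hh1 hdl.symm hl hd hh.1 hh.2 (nf ha' ea' h1a') h1d
  obtain ⟨u, hu, eu, h1u⟩ := not_full h1d
  -- g_i miss the same vertex u at d
  have same : ∀ g' ∈ F, ¬ Full G S π g' j → ¬ G.Adj g' u := by
    intro g' hg' hgj g'u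
    have g'l : Full G S π g' l := (hex g' hg').resolve_left hgj
    have g'd : ¬ Full G S π g' d := fun hh => k2 g' hg' ⟨g'l, hh⟩
    obtain ⟨v, hv, ev, g'v⟩ := not_full g'd
    have cf : Cf G S π h1 g' := ⟨u, hu, v, hv, eu.trans ev.symm,
      (by rintro rfl; exact g'v g'u), h1u, g'v⟩
    have adj := h.fA hh1 hg' cf
    obtain ⟨w, hw, ew, g'w⟩ := not_full hgj
    obtain ⟨x, hx, ex, g'x, h1x⟩ := h.share_full hh1 ⟨a', ha', ea'⟩ g'l
    exact h.nadj_of_full hg' h1j hw ew g'w hx h1x g'x (by rw [ex]; exact hjl.symm) adj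
  have g1u := same g1 hg1 (nf ha ea g1a)
  have g2u := same g2 hg2 (nf hb eb g2b)
  obtain ⟨p, hp, v, hv, ev, nev, pv⟩ := h.opp hd u
  exact h.fD hg1 hg2 hp ⟨a, ha, b, hb, ea.trans eb.symm, neab, g1a, g2b⟩
    ⟨u, hu, v, hv, eu.trans ev.symm, nev.symm, g1u, pv⟩
    ⟨u, hu, v, hv, eu.trans ev.symm, nev.symm, g2u, pv⟩

/-- in Case I all pairs of bad components are mutually exclusive -/
theorem ex_all (h : MC G S F Z π) {j l : ℕ} (hjl : j ≠ l) (hj : Bad G S F π j)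
    (hl : Bad G S F π l) (hex : ∀ g ∈ F, Full G S π g j ∨ Full G S π g l) {c d : ℕ}
    (hcd : c ≠ d) (hc : Bad G S F π c) (hd : Bad G S F π d) :
    ∀ g ∈ F, Full G S π g c ∨ Full G S π g d := by
  by_cases e : c = j
  · subst e
    exact h.ex_step hjl hc hl hd hcd.symm hex
  · have h1 := h.ex_step hjl hj hl hc e hex
    exact h.ex_step e hc hj hd hcd.symm fun g hg => (h1 g hg).symm

end MC

end Pool.Agent.GemWidth
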