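import Pool.Agent.GemWidth.ManyB

set_option autoImplicit false

namespace Pool.Agent.GemWidth

open Set

variable {V : Type} {G : SimpleGraph V} {S F Z : Set V} {π : V → ℕ}

namespace MC

/-- unions of cliques have bounded width -/
theorem wS [Finite V] (h : MC G S F Z π) {T : Set V} (hT : T ⊆ S) : W G T (blk 2 1) := by
  refine W.blocks (G := G) (R := T) (m := 1) (n := 2) π (fun _ => 0) ?_ ?_
  · intro i
    refine W.clique ?_
    rintro a ⟨ha, ea⟩ b ⟨hb, eb⟩ hne
    exact h.yS (hT ha) (hT hb) hne (ea.trans eb.symm)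
  · intro a ha a' ha' b hb h1 h2 _
    exact iff_of_false (h.nS (hT ha) (hT hb) h1) (h.nS (hT ha') (hT hb) h2)

/-- the good part -/
theorem good_part [Finite V] (h : MC G S F Z π) {kX : ℕ} (hX : ClassXBound kX)
    {T F' : Set V} {q : V} (hT : T ⊆ S) (hF' : F' ⊆ F)
    (hone : ∀ a ∈ T, ∀ b ∈ T, π a = π b → ∀ f ∈ F', ∀ g ∈ F', ¬ G.Adj f a → ¬ G.Adj g b → a = b)
    (qF : ∀ f ∈ F', G.Adj q f) :
    W G (T ∪ F' ∪ Z) ((kX + 1) * 4 + (2 + 1) * 4 + (2 + 1 + 2 ^ 4)) := by
  classical
  -- representatives
  have hrep : ∀ v ∈ T, ∃ m ∈ T, π m = π v ∧ ∀ w ∈ T, π w = π v → w ≠ m → ∀ f ∈ F', G.Adj f w := by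
    intro v hv
    by_cases hm : ∃ m ∈ T, π m = π v ∧ ∃ f ∈ F', ¬ G.Adj f m
    · obtain ⟨m, hm, em, f, hf, fm⟩ := hm
      refine ⟨m, hm, em, ?_⟩
      intro w hw ew hne g hg
      by_contra gw
      exact hne (hone w hw m hm (ew.trans em.symm) g hg f hf gw fm)
    · push Not at hm
      exact ⟨v, hv, rfl, fun w hw ew _ f hf => hm w hw ew f hf⟩
  -- choose a representative depending only on the component
  have hch : ∃ r : ℕ → V, ∀ v ∈ T, r (π v) ∈ T ∧ π (r (π v)) = π v ∧
      ∀ w ∈ T, π w = π v → w ≠ r (π v) → ∀ f ∈ F', G.Adj f w := by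
    have : ∀ c : ℕ, ∃ m : V, (∃ v ∈ T, π v = c) → (m ∈ T ∧ π m = c ∧
        ∀ w ∈ T, π w = c → w ≠ m → ∀ f ∈ F', G.Adj f w) := by
      intro c
      by_cases hc : ∃ v ∈ T, π v = c
      · obtain ⟨v, hv, ev⟩ := hc
        obtain ⟨m, hm, em, h2⟩ := hrep v hv
        subst ev
        exact ⟨m, fun _ => ⟨hm, em, h2⟩⟩
      · by_cases hne : Nonempty V
        · exact ⟨hne.some, fun h => absurd h hc⟩
        · exact ⟨q, fun h => absurd h hc⟩
    choose r hr using this
    exact ⟨r, fun v hv => hr (π v) ⟨v, hv, rfl⟩⟩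
  obtain ⟨r, hr⟩ := hch
  set P : V → V := fun v => if v ∈ T then r (π v) else v with hP
  have PT : ∀ v ∈ T, P v = r (π v) := fun v hv => by simp only [hP]; rw [if_pos hv]
  have Pn : ∀ v, v ∉ T → P v = v := fun v hv => by simp only [hP]; rw [if_neg hv]
  have FT : ∀ f ∈ F', f ∉ T := fun f hf hfT => disjoint_left.1 h.dSF (hT hfT) (hF' hf)
  have ZT : ∀ z ∈ Z, z ∉ T := fun z hz hzT => disjoint_left.1 h.dSZ (hT hzT) hz
  have FZ : ∀ f ∈ F', f ∉ Z := fun f hf hfZ => disjoint_left.1 h.dFZ (hF' hf) hfZ
  set p : V → Fin 4 := fun v => if v ∈ T then (if v = r (π v) then 0 else 1) else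
    (if v ∈ F' then 2 else 3) with hp
  set X : Set V := {v | v ∈ T ∪ F' ∪ Z ∧ (v ∈ T → v = r (π v))} with hXdef
  refine W.subst (H := G) (X := X) P p (hX V G q X h.cls ?_) ?_ ?_ ?_
  · -- class X
    rintro a ⟨ha, har⟩ b ⟨hb, hbr⟩ _ _ qa qb hab
    have ha' : a ∈ T ∪ Z := by
      rcases ha with (ha | ha) | ha
      · exact Or.inl ha
      · exact absurd (qF a ha) qa
      · exact Or.inr ha
    have hb' : b ∈ T ∪ Z := by
      rcases hb with (hb | hb) | hb
      · exact Or.inl hb
      · exact absurd (qF b hb) qb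
      · exact Or.inr hb
    rcases ha' with ha' | ha' <;> rcases hb' with hb' | hb'
    · by_cases e : π a = π b
      · have : a = b := by rw [har ha', hbr hb', e]
        subst this; exact G.irrefl hab
      · exact h.nS (hT ha') (hT hb') e hab
    · exact h.antiZ b hb' a (hT ha') hab.symm
    · exact h.antiZ a ha' b (hT hb') hab
    · exact h.indZ a ha' b hb' hab
  · -- P maps into X
    intro v hv
    by_cases hvT : v ∈ T
    · rw [PT v hvT]
      refine ⟨Or.inl (Or.inl (hr v hvT).1), fun _ => ?_⟩
      rw [(hr v hvT).2.1]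
    · rw [Pn v hvT]
      exact ⟨hv, fun h => absurd h hvT⟩
  · -- blocks
    intro x hx
    by_cases hxT : x ∈ T
    · refine W.clique ?_
      have key : ∀ v, v ∈ T ∪ F' ∪ Z → P v = x → v ∈ T ∧ π v = π x := by
        intro v hv hvx
        by_cases hvT : v ∈ T
        · refine ⟨hvT, ?_⟩
          rw [PT v hvT] at hvx
          rw [← hvx, (hr v hvT).2.1]
        · rw [Pn v hvT] at hvx
          exact absurd (hvx ▸ hxT) hvT
      rintro a ⟨ha, hax⟩ b ⟨hb, hbx⟩ hne
      obtain ⟨h1, h2⟩ := key a ha hax
      obtain ⟨h3, h4⟩ := key b hb hbx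
      exact h.yS (hT h1) (hT h3) hne (h2.trans h4.symm)
    · refine W.of_subsingleton ?_
      have key : ∀ v, P v = x → v = x := by
        intro v hvx
        by_cases hvT : v ∈ T
        · rw [PT v hvT] at hvx
          exact absurd (hvx ▸ (hr v hvT).1) hxT
        · rw [Pn v hvT] at hvx
          exact hvx
      rintro a ⟨_, hax⟩ b ⟨_, hbx⟩
      exact (key a hax).trans (key b hbx).symm
  · -- adjacency
    have comp_ne : ∀ a ∈ T, ∀ b ∈ T, P a ≠ P b → π a ≠ π b := by
      intro a ha b hb hne e
      exact hne (by rw [PT a ha, PT b hb, e])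
    -- adjacency of a non-representative
    have other : ∀ a ∈ T, a ≠ r (π a) → ∀ b, b ∈ T ∪ F' ∪ Z → P a ≠ P b →
        (G.Adj a b ↔ b ∈ F') := by
      intro a ha har b hb hne
      rcases hb with (hb | hb) | hb
      · exact iff_of_false (h.nS (hT ha) (hT hb) (comp_ne a ha b hb hne)) (fun hF => FT b hF hb)
      · exact iff_of_true ((hr a ha).2.2 a ha rfl har b hb).symm hb
      · exact iff_of_false (fun hab => h.antiZ b hb a (hT ha) hab.symm) (fun hF => FZ b hF hb)
    intro a ha a' ha' b hb h1 h2 hpe hH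
    by_cases hbT : b ∈ T
    · by_cases haT : a ∈ T
      · have ha'T : a' ∈ T := by
          by_contra hn
          simp only [hp, haT, hn, if_true, if_false] at hpe
          split_ifs at hpe <;> exact absurd hpe (by decide)
        exact iff_of_false (h.nS (hT haT) (hT hbT) (comp_ne a haT b hbT h1))
          (h.nS (hT ha'T) (hT hbT) (comp_ne a' ha'T b hbT h2))
      · have ha'T : a' ∉ T := by
          intro hn
          simp only [hp, haT, hn, if_true, if_false] at hpe
          split_ifs at hpe <;> exact absurd hpe (by decide)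
        by_cases hbr : b = r (π b)
        · rw [Pn a haT, Pn a' ha'T, PT b hbT, ← hbr] at hH
          exact hH
        · have e1 := other b hbT hbr a ha h1.symm
          have e2 := other b hbT hbr a' ha' h2.symm
          rw [SimpleGraph.adj_comm, e1, SimpleGraph.adj_comm, e2]
          by_cases hF1 : a ∈ F' <;> by_cases hF2 : a' ∈ F'
          · exact iff_of_true hF1 hF2
          · simp [hp, haT, ha'T, hF1, hF2] at hpe
          · simp [hp, haT, ha'T, hF1, hF2] at hpe
          · exact iff_of_false hF1 hF2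
    · by_cases haT : a ∈ T
      · have ha'T : a' ∈ T := by
          by_contra hn
          simp only [hp, haT, hn, if_true, if_false] at hpe
          split_ifs at hpe <;> exact absurd hpe (by decide)
        by_cases har : a = r (π a) <;> by_cases har' : a' = r (π a')
        · rw [PT a haT, PT a' ha'T, Pn b hbT, ← har, ← har'] at hH
          exact hH
        · rw [hp] at hpe
          simp only [haT, ha'T, if_true] at hpe
          rw [if_pos har, if_neg har'] at hpe
          exact absurd hpe (by decide)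
        · rw [hp] at hpe
          simp only [haT, ha'T, if_true] at hpe
          rw [if_neg har, if_pos har'] at hpe
          exact absurd hpe (by decide)
        · rw [other a haT har b hb h1, other a' ha'T har' b hb h2]
      · have ha'T : a' ∉ T := by
          intro hn
          simp only [hp, haT, hn, if_true, if_false] at hpe
          split_ifs at hpe <;> exact absurd hpe (by decide)
        rw [Pn a haT, Pn a' ha'T, Pn b hbT] at hH
        exact hH

end MC

end Pool.Agent.GemWidth
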