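import Pool.Agent.GemWidth.ManyF

set_option autoImplicit false

namespace Pool.Agent.GemWidth

open Set

variable {V : Type} {G : SimpleGraph V} {S F Z : Set V} {π : V → ℕ}

namespace MC

/-- nonconflict is transitive if all components are bad -/
theorem nc_trans (h : MC G S F Z π) (bad : ∀ v ∈ S, Bad G S F π (π v))
    (noTwo : ∀ f ∈ F, ∀ v ∈ S, ∀ w ∈ S, π v ≠ π w → Full G S π f (π v) → ¬ Full G S π f (π w))
    {f g k : V} (hf : f ∈ F) (hg : g ∈ F) (hk : k ∈ F) (fg : ¬ Cf G S π f g)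
    (gk : ¬ Cf G S π g k) : ¬ Cf G S π f k := by
  intro cf
  have fk := h.fA hf hk cf
  -- a conflict of f and k at a component makes g full there
  have key : ∀ a ∈ S, ∀ b ∈ S, π a = π b → a ≠ b → ¬ G.Adj f a → ¬ G.Adj k b →
      Full G S π g (π a) := by
    intro a ha b hb e ne fa kb u hu eu
    by_contra gu
    by_cases eua : u = a
    · subst eua
      exact gk ⟨u, hu, b, hb, e, ne, gu, kb⟩
    · exact fg ⟨a, ha, u, hu, eu.symm, fun hh => eua hh.symm, fa, gu⟩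
  obtain ⟨a, ha, b, hb, e, ne, fa, kb⟩ := id cf
  have ga := key a ha b hb e ne fa kb
  -- f and k share in every other component
  have sh : ∀ y ∈ S, π y ≠ π a → ∃ x ∈ S, π x = π y ∧ G.Adj f x ∧ G.Adj k x := by
    intro y hy hya
    rcases h.share_or hf hk hy with h1 | ⟨x, hx, z, hz, ex, ez, nexz, fx, kz⟩
    · exact h1
    · have gx := key x hx z hz (ex.trans ez.symm) nexz fx kz
      exact absurd gx (noTwo g hg a ha x hx (by rw [ex]; exact Ne.symm hya) ga)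
  -- two other components, f is not full at one of them
  obtain ⟨c, hc, d, hd, hca, hda, hcd⟩ := h.others (π a)
  have main : ∀ y ∈ S, π y ≠ π a → ∀ y' ∈ S, π y' ≠ π a → π y ≠ π y' →
      Full G S π f (π y) := by
    intro y hy hya y' hy' hya' hne
    by_contra fy
    obtain ⟨w, hw, ew, fw⟩ := not_full fy
    obtain ⟨x, hx, ex, fx, kx⟩ := sh y hy hya
    obtain ⟨x', hx', ex', fx', kx'⟩ := sh y' hy' hya'
    have kw : ¬ G.Adj k w := by
      intro kw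
      have := h.fB fk hx' hx hx hw fx' kx' fx kx fx kx (by rw [ex, ex']; exact Ne.symm hne)
        (by rw [ew, ex])
      exact fw (this.2 kw)
    obtain ⟨p, hp, w', hw', ew', new, pw'⟩ := h.opp (bad y hy) w
    exact h.fD hf hk hp cf ⟨w, hw, w', hw', ew.trans ew'.symm, new.symm, fw, pw'⟩
      ⟨w, hw, w', hw', ew.trans ew'.symm, new.symm, kw, pw'⟩
  exact noTwo f hf c hc d hd hcd (main c hc hca d hd hda hcd) (main d hd hda c hc hca (Ne.symm hcd))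

/-- bound in the non-nice case II -/
def kNN (kX kE : ℕ) : ℕ :=
  comb (blk 2 1 + kE) 4 + comb (blk (comb (blk 2 1 + kX) 3) 3 + kE) 3

theorem caseIInot [Finite V] (h : MC G S F Z π) {kX kE : ℕ} (hX : ClassXBound kX)
    (hE : EOBound kE)
    (hII : ∀ j l, j ≠ l → Bad G S F π j → Bad G S F π l →
      ∃ g ∈ F, ¬ Full G S π g j ∧ ¬ Full G S π g l)
    (hnn : ∀ v ∈ S, ∃ f ∈ F, ¬ G.Adj f v) : W G (S ∪ F ∪ Z) (kNN kX kE) := by
  classical
  have bad : ∀ v ∈ S, Bad G S F π (π v) := by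
    intro v hv
    obtain ⟨w, hw, ne, e⟩ := h.two v hv
    obtain ⟨f, hf, fv⟩ := hnn v hv
    obtain ⟨g, hg, gw⟩ := hnn w hw
    exact ⟨f, hf, g, hg, v, hv, w, hw, rfl, e.symm, ne, fv, gw⟩
  have noTwo : ∀ f ∈ F, ∀ v ∈ S, ∀ w ∈ S, π v ≠ π w → Full G S π f (π v) →
      ¬ Full G S π f (π w) := fun f hf v hv w hw hne fv =>
    h.no_two hII hne (bad v hv) (bad w hw) hf fv
  obtain ⟨f0, hf0⟩ : ∃ f0, f0 ∈ F := by
    obtain ⟨a, ha, _⟩ := h.three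
    obtain ⟨f, hf, _⟩ := hnn a ha
    exact ⟨f, hf⟩
  set E : Set V := {f | f ∈ F ∧ ¬ Cf G S π f0 f} with hEdef
  set O : Set V := {f | f ∈ F ∧ Cf G S π f0 f} with hOdef
  set Sa : Set V := {v | v ∈ S ∧ ∃ e ∈ E, ¬ G.Adj e v} with hSa
  set So : Set V := {v | v ∈ S ∧ ∃ o ∈ O, ¬ G.Adj o v} with hSo
  have nc : ∀ {f g k : V}, f ∈ F → g ∈ F → k ∈ F → ¬ Cf G S π f g → ¬ Cf G S π g k →
      ¬ Cf G S π f k := fun hf hg hk h1 h2 => h.nc_trans bad noTwo hf hg hk h1 h2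
  have ncE : ∀ e ∈ E, ∀ e' ∈ E, ¬ Cf G S π e e' := fun e he e' he' =>
    nc he.1 hf0 he'.1 (fun hh => he.2 hh.symm) he'.2
  have ncO : ∀ o ∈ O, ∀ o' ∈ O, ¬ Cf G S π o o' := fun o ho o' ho' hh =>
    h.fD hf0 ho.1 ho'.1 ho.2 ho'.2 hh
  have cEO : ∀ e ∈ E, ∀ o ∈ O, Cf G S π e o := by
    intro e he o ho
    by_contra hn
    exact nc hf0 he.1 ho.1 he.2 hn ho.2
  -- not missed by both
  have notboth : ∀ v ∈ S, ∀ e ∈ E, ∀ o ∈ O, ¬ G.Adj e v → ¬ G.Adj o v → False := by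
    intro v hv e he o ho ev ov
    obtain ⟨w, hw, ne, ew⟩ := h.two v hv
    obtain ⟨f, hf, fw⟩ := hnn w hw
    by_cases hc : Cf G S π f0 f
    · exact ncO o ho f ⟨hf, hc⟩ ⟨v, hv, w, hw, ew, ne, ov, fw⟩
    · exact ncE e he f ⟨hf, hc⟩ ⟨v, hv, w, hw, ew, ne, ev, fw⟩
  have covS : S ⊆ Sa ∪ So := by
    intro v hv
    obtain ⟨f, hf, fv⟩ := hnn v hv
    by_cases hc : Cf G S π f0 f
    · exact Or.inr ⟨hv, f, ⟨hf, hc⟩, fv⟩
    · exact Or.inl ⟨hv, f, ⟨hf, hc⟩, fv⟩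
  have dS : Disjoint Sa So := by
    rw [disjoint_left]
    rintro v ⟨hv, e, he, ev⟩ ⟨_, o, ho, ov⟩
    exact notboth v hv e he o ho ev ov
  have oneA : ∀ v ∈ Sa, ∀ v' ∈ Sa, π v = π v' → v = v' := by
    rintro v ⟨hv, e, he, ev⟩ v' ⟨hv', e', he', ev'⟩ hpi
    by_contra hne
    exact ncE e he e' he' ⟨v, hv, v', hv', hpi, hne, ev, ev'⟩
  have oneO : ∀ v ∈ So, ∀ v' ∈ So, π v = π v' → v = v' := by
    rintro v ⟨hv, e, he, ev⟩ v' ⟨hv', e', he', ev'⟩ hpi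
    by_contra hne
    exact ncO e he e' he' ⟨v, hv, v', hv', hpi, hne, ev, ev'⟩
  have hasA : ∀ v ∈ S, ∃ a ∈ Sa, π a = π v := by
    intro v hv
    rcases covS hv with h1 | h1
    · exact ⟨v, h1, rfl⟩
    · obtain ⟨w, hw, ne, ew⟩ := h.two v hv
      rcases covS hw with h2 | h2
      · exact ⟨w, h2, ew.symm⟩
      · exact absurd (oneO v h1 w h2 ew) ne
  have hasO : ∀ v ∈ S, ∃ a ∈ So, π a = π v := by
    intro v hv
    rcases covS hv with h1 | h1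
    · obtain ⟨w, hw, ne, ew⟩ := h.two v hv
      rcases covS hw with h2 | h2
      · exact absurd (oneA v h1 w h2 ew) ne
      · exact ⟨w, h2, ew.symm⟩
    · exact ⟨v, h1, rfl⟩
  have missE : ∀ e ∈ E, ∀ v ∈ S, (¬ G.Adj e v ↔ (v ∈ Sa ∧ ¬ Full G S π e (π v))) := by
    intro e he v hv
    constructor
    · intro hn
      exact ⟨⟨hv, e, he, hn⟩, fun hh => hn (hh v hv rfl)⟩
    · rintro ⟨h1, h2⟩
      obtain ⟨u, hu, eu, gu⟩ := not_full h2
      have : u = v := oneA u ⟨hu, e, he, gu⟩ v h1 eu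
      rwa [this] at gu
  have missO : ∀ o ∈ O, ∀ v ∈ S, (¬ G.Adj o v ↔ (v ∈ So ∧ ¬ Full G S π o (π v))) := by
    intro e he v hv
    constructor
    · intro hn
      exact ⟨⟨hv, e, he, hn⟩, fun hh => hn (hh v hv rfl)⟩
    · rintro ⟨h1, h2⟩
      obtain ⟨u, hu, eu, gu⟩ := not_full h2
      have : u = v := oneO u ⟨hu, e, he, gu⟩ v h1 eu
      rwa [this] at gu
  have cover : F ⊆ E ∪ O := by
    intro f hf
    by_cases hc : Cf G S π f0 f
    · exact Or.inr ⟨hf, hc⟩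
    · exact Or.inl ⟨hf, hc⟩
  have NNh : NN G S F Z π E O Sa So :=
    { mc := h
      EF := fun f hf => hf.1
      OF := fun f hf => hf.1
      cover := cover
      dEO := by rw [disjoint_left]; exact fun f h1 h2 => h1.2 h2.2
      eo := fun e he o ho => h.fA he.1 ho.1 (cEO e he o ho)
      ncE := ncE
      ncO := ncO
      SaS := fun v hv => hv.1
      SoS := fun v hv => hv.1
      covS := covS
      dS := dS
      missE := missE
      missO := missO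
      hasA := hasA
      hasO := hasO
      oneA := oneA
      oneO := oneO
      noTwo := noTwo }
  by_cases hone : ∃ c0, ∀ f ∈ F, ∀ v ∈ S, π v ≠ c0 → ¬ Full G S π f (π v)
  · obtain ⟨c0, hc0⟩ := hone
    exact (NNh.sub1 hE hc0).mono (by unfold kNN; omega)
  · push Not at hone
    obtain ⟨f1, hf1, v1, hv1, _, full1⟩ := hone 0
    obtain ⟨f2, hf2, v2, hv2, hne, full2⟩ := hone (π v1)
    rcases cover hf1 with m1 | m1 <;> rcases cover hf2 with m2 | m2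
    · exact (NNh.sub2 hE hX m1 m2 hv1 hv2 (Ne.symm hne) full1 full2).mono (by unfold kNN; omega)
    · exact (NNh.noEO m1 m2 hv1 hv2 (Ne.symm hne) full1 full2).elim
    · exact (NNh.swap.noEO m1 m2 hv1 hv2 (Ne.symm hne) full1 full2).elim
    · exact (NNh.swap.sub2 hE hX m1 m2 hv1 hv2 (Ne.symm hne) full1 full2).mono
        (by unfold kNN; omega)

theorem bound [Finite V] (h : MC G S F Z π) {kX kE : ℕ} (hX : ClassXBound kX)
    (hE : EOBound kE) : W G (S ∪ F ∪ Z) (kI kX + kN kX + kNN kX kE) := by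
  classical
  by_cases hI : ∃ j l, j ≠ l ∧ Bad G S F π j ∧ Bad G S F π l ∧
      ∀ g ∈ F, Full G S π g j ∨ Full G S π g l
  · obtain ⟨j, l, hjl, hj, hl, hex⟩ := hI
    exact (h.caseI hX hjl hj hl hex).mono (by omega)
  · have hII : ∀ j l, j ≠ l → Bad G S F π j → Bad G S F π l →
        ∃ g ∈ F, ¬ Full G S π g j ∧ ¬ Full G S π g l := by
      intro j l hjl hj hl
      by_contra hn
      push Not at hn
      refine hI ⟨j, l, hjl, hj, hl, fun g hg => ?_⟩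
      by_cases h1 : Full G S π g j
      · exact Or.inl h1
      · exact Or.inr (hn g hg h1)
    by_cases hq : ∃ q ∈ S, ∀ f ∈ F, G.Adj q f
    · obtain ⟨q, hq, qF⟩ := hq
      exact (h.caseIInice hX hII hq qF).mono (by omega)
    · push Not at hq
      refine (h.caseIInot hX hE hII fun v hv => ?_).mono (by omega)
      obtain ⟨f, hf, hn⟩ := hq v hv
      exact ⟨f, hf, nadj_symm hn⟩

end MC

/-- T4.2 -/
theorem manyComps_bound_of {kX kE : ℕ} (hX : ClassXBound kX) (hE : EOBound kE) :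
    ∃ k : ℕ, ∀ (V : Type) [Finite V] (G : SimpleGraph V) (S F Z : Set V) (π : V → ℕ),
    Cls G → NoC5 G → Disjoint S F → Disjoint S Z → Disjoint F Z →
    (∀ a ∈ S, ∀ b ∈ S, a ≠ b → (G.Adj a b ↔ π a = π b)) →
    (∀ a ∈ S, ∃ b ∈ S, a ≠ b ∧ π a = π b) →
    (∃ a ∈ S, ∃ b ∈ S, ∃ c ∈ S, π a ≠ π b ∧ π a ≠ π c ∧ π b ≠ π c) →
    Indep G Z → (∀ z ∈ Z, ∀ x ∈ S, ¬ G.Adj z x) →
    (∀ f ∈ F, ∀ a ∈ S, ∃ x ∈ S, π x = π a ∧ G.Adj f x) →
    W G (S ∪ F ∪ Z) k :=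
  ⟨MC.kI kX + MC.kN kX + MC.kNN kX kE, fun _ _ _ _ _ _ _ h1 h2 h3 h4 h5 h6 h7 h8 h9 h10 h11 =>
    MC.bound ⟨h1, h2, h3, h4, h5, h6, h7, h8, h9, h10, h11⟩ hX hE⟩

/-- T4.2 with existential hypotheses -/
theorem manyComps_bound_of'
    (hX : ∃ k : ℕ, ∀ (V : Type) [Finite V] (G : SimpleGraph V) (q : V) (R : Set V),
      Cls G → (∀ a ∈ R, ∀ b ∈ R, a ≠ q → b ≠ q → ¬ G.Adj q a → ¬ G.Adj q b → ¬ G.Adj a b) →
      W G R k)
    (hE : ∃ k : ℕ, ∀ (V : Type) [Finite V] (G : SimpleGraph V) (E O Z : Set V) (qE qO : V),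
      Cls G → Disjoint E O → Disjoint E Z → Disjoint O Z → Indep G Z →
      (∀ e ∈ E, ∀ o ∈ O, G.Adj e o) → (∀ e ∈ E, G.Adj qE e) → (∀ o ∈ O, G.Adj qO o) →
      (∀ x ∈ O ∪ Z, ¬ G.Adj qE x) → (∀ x ∈ E ∪ Z, ¬ G.Adj qO x) → W G (E ∪ O ∪ Z) k) :
    ∃ k : ℕ, ∀ (V : Type) [Finite V] (G : SimpleGraph V) (S F Z : Set V) (π : V → ℕ),
    Cls G → NoC5 G → Disjoint S F → Disjoint S Z → Disjoint F Z →
    (∀ a ∈ S, ∀ b ∈ S, a ≠ b → (G.Adj a b ↔ π a = π b)) →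
    (∀ a ∈ S, ∃ b ∈ S, a ≠ b ∧ π a = π b) →
    (∃ a ∈ S, ∃ b ∈ S, ∃ c ∈ S, π a ≠ π b ∧ π a ≠ π c ∧ π b ≠ π c) →
    Indep G Z → (∀ z ∈ Z, ∀ x ∈ S, ¬ G.Adj z x) →
    (∀ f ∈ F, ∀ a ∈ S, ∃ x ∈ S, π x = π a ∧ G.Adj f x) →
    W G (S ∪ F ∪ Z) k := by
  obtain ⟨kX, hX⟩ := hX
  obtain ⟨kE, hE⟩ := hE
  exact manyComps_bound_of (kX := kX) (kE := kE) hX hE

end Pool.Agent.GemWidth
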