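import Pool.Agent.GemWidth.ManyC

set_option autoImplicit false

namespace Pool.Agent.GemWidth

open Set

variable {V : Type} {G : SimpleGraph V} {S F Z : Set V} {π : V → ℕ}

theorem W.comb_of {V : Type*} {G : SimpleGraph V} {X Y R : Set V} {k k' n K : ℕ} (hX : W G X k)
    (hY : W G Y k') (hd : Disjoint X Y) (h1 : Few G X Y n) (hR : R ⊆ X ∪ Y)
    (hK : comb (k + k') n ≤ K) : W G R K := by
  have := W.combine' (hX.mono (Nat.le_add_right k k')) (hY.mono (Nat.le_add_left k' k)) hd h1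
  exact (this.subset hR).mono hK

namespace MC

/-- at most two missed vertices in each component -/
theorem two_missed (h : MC G S F Z π) (c : ℕ) : ∃ a b : V, ∀ v ∈ S, π v = c → ∀ f ∈ F,
    ¬ G.Adj f v → v = a ∨ v = b := by
  by_cases hc : Bad G S F π c
  · obtain ⟨f, hf, g, hg, a, ha, b, hb, ea, eb, ne, fa, gb⟩ := hc
    refine ⟨a, b, ?_⟩
    intro v hv ev k hk kv
    exact h.bad_two hf hg hk ha hb hv (ea.trans eb.symm) (ev.trans ea.symm) ne fa gb kv
  · by_cases hm : ∃ v ∈ S, π v = c ∧ ∃ f ∈ F, ¬ G.Adj f v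
    · obtain ⟨a, ha, ea, f, hf, fa⟩ := hm
      refine ⟨a, a, ?_⟩
      intro v hv ev k hk kv
      by_contra hne
      push Not at hne
      exact hc ⟨f, hf, k, hk, a, ha, v, hv, ea, ev, hne.1.symm, fa, kv⟩
    · push Not at hm
      obtain ⟨a, _⟩ := h.three
      exact ⟨a, a, fun v hv ev f hf fv => absurd (hm v hv ev f hf) fv⟩

/-- a component has few rows towards everything else -/
theorem comp_few (h : MC G S F Z π) {c : ℕ} {T : Set V} (hT : ∀ v ∈ T, v ∈ S ∧ π v = c)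
    {B : Set V} (hB : ∀ b ∈ B, (b ∈ S ∧ π b ≠ c) ∨ b ∈ F ∨ b ∈ Z) : Few G T B 3 := by
  classical
  obtain ⟨a, b, hab⟩ := h.two_missed c
  refine ⟨fun v => if v = a then 0 else if v = b then 1 else 2, ?_⟩
  intro v hv v' hv' e w hw
  have key : ∀ u ∈ T, u ≠ a → u ≠ b → (G.Adj u w ↔ w ∈ F) := by
    intro u hu h1 h2
    obtain ⟨hu1, hu2⟩ := hT u hu
    rcases hB w hw with ⟨hw1, hw2⟩ | hw1 | hw1
    · refine iff_of_false (h.nS hu1 hw1 (by rw [hu2]; exact hw2.symm)) ?_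
      intro hF; exact disjoint_left.1 h.dSF hw1 hF
    · refine iff_of_true ?_ hw1
      by_contra hn
      exact (hab u hu1 hu2 w hw1 (nadj_symm hn)).elim h1 h2
    · refine iff_of_false (fun hh => h.antiZ w hw1 u hu1 hh.symm) ?_
      intro hF; exact disjoint_left.1 h.dFZ hF hw1
  change (if v = a then (0 : Fin 3) else if v = b then 1 else 2) =
    (if v' = a then 0 else if v' = b then 1 else 2) at e
  by_cases h1 : v = a <;> by_cases h1' : v' = a
  · rw [h1, h1']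
  · rw [if_pos h1, if_neg h1'] at e
    split_ifs at e <;> exact absurd e (by decide)
  · rw [if_neg h1, if_pos h1'] at e
    split_ifs at e <;> exact absurd e (by decide)
  · rw [if_neg h1, if_neg h1'] at e
    by_cases h2 : v = b <;> by_cases h2' : v' = b
    · rw [h2, h2']
    · rw [if_pos h2, if_neg h2'] at e
      exact absurd e (by decide)
    · rw [if_neg h2, if_pos h2'] at e
      exact absurd e (by decide)
    · rw [key v hv h1 h2, key v' hv' h1' h2']

/-- bound in case I -/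
def kI (kX : ℕ) : ℕ :=
  comb (blk (comb (blk 2 1 + kX) 3) 2 + ((kX + 1) * 4 + (2 + 1) * 4 + (2 + 1 + 2 ^ 4))) 2

theorem same_nbhd (h : MC G S F Z π) {g k v : V} {c d : ℕ} (hg : g ∈ F) (hk : k ∈ F)
    (hcd : c ≠ d) (gc : ¬ Full G S π g c) (kd : ¬ Full G S π k d)
    (gd : Full G S π g d) (kc : Full G S π k c)
    (hv : v ∈ Z ∨ (v ∈ S ∧ π v ≠ c ∧ π v ≠ d)) (gv : G.Adj g v) : G.Adj k v := by
  by_contra kv
  obtain ⟨w, hw, ew, gw⟩ := not_full gc
  obtain ⟨w', hw', ew', kw'⟩ := not_full kd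
  have kg : ¬ G.Adj k g := by
    obtain ⟨x, hx, ex, gx, kx⟩ := h.share_full hk ⟨w', hw', ew'⟩ gd
    exact h.nadj_of_full hg kc hw ew gw hx kx gx (by rw [ex]; exact hcd.symm)
  have vw : ¬ G.Adj v w := by
    rcases hv with hv | ⟨hv, h1, _⟩
    · exact h.antiZ v hv w hw
    · exact h.nS hv hw (by rw [ew]; exact h1)
  have vw' : ¬ G.Adj v w' := by
    rcases hv with hv | ⟨hv, _, h1⟩
    · exact h.antiZ v hv w' hw'
    · exact h.nS hv hw' (by rw [ew']; exact h1)
  have vne : v ≠ w' := by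
    rintro rfl
    rcases hv with hv | ⟨_, _, h1⟩
    · exact disjoint_left.1 h.dSZ hw' hv
    · exact h1 ew'
  exact h.cls.p23 k w v g w' (kc w hw ew) gv.symm (gd w' hw' ew') vne vw' kv kg kw'
    (nadj_symm vw) (nadj_symm gw) (h.nS hw hw' (by rw [ew, ew']; exact hcd))

theorem caseI [Finite V] (h : MC G S F Z π) {kX : ℕ} (hX : ClassXBound kX) {j l : ℕ}
    (hjl : j ≠ l) (hj : Bad G S F π j) (hl : Bad G S F π l)
    (hex : ∀ g ∈ F, Full G S π g j ∨ Full G S π g l) : W G (S ∪ F ∪ Z) (kI kX) := by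
  classical
  have EX : ∀ {c d : ℕ}, c ≠ d → Bad G S F π c → Bad G S F π d → ∀ g ∈ F, ¬ Full G S π g c →
      Full G S π g d := fun hcd hc hd g hg hn => (h.ex_all hjl hj hl hex hcd hc hd g hg).resolve_left hn
  -- another bad component
  have OB : ∀ c : ℕ, ∃ d, d ≠ c ∧ Bad G S F π d := by
    intro c
    by_cases e : j = c
    · exact ⟨l, fun h => hjl (e.trans h.symm), hl⟩
    · exact ⟨j, e, hj⟩
  have pick : ∀ {c : ℕ}, Bad G S F π c → ∃ a ∈ S, π a = c := by
    rintro c ⟨f, hf, g, hg, a, ha, b, hb, ea, eb, ne, fa, gb⟩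
    exact ⟨a, ha, ea⟩
  have nonfull : ∀ {c : ℕ}, Bad G S F π c → ∃ f ∈ F, ¬ Full G S π f c := by
    rintro c ⟨f, hf, g, hg, a, ha, b, hb, ea, eb, ne, fa, gb⟩
    exact ⟨f, hf, fun hh => fa (hh a ha ea)⟩
  set SB : Set V := {v | v ∈ S ∧ Bad G S F π (π v)} with hSB
  set SG : Set V := {v | v ∈ S ∧ ¬ Bad G S F π (π v)} with hSG
  set FB : Set V := {g | g ∈ F ∧ ∃ c, Bad G S F π c ∧ ¬ Full G S π g c} with hFB
  set F0 : Set V := {g | g ∈ F ∧ ∀ c, Bad G S F π c → Full G S π g c} with hF0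
  have FS : ∀ f ∈ F, f ∉ S := fun f hf hfS => disjoint_left.1 h.dSF hfS hf
  -- anti
  have anti1 : ∀ {g k : V} {c d : ℕ}, g ∈ F → k ∈ F → c ≠ d → Bad G S F π d →
      ¬ Full G S π g c → Full G S π k c → Full G S π g d → ¬ G.Adj g k := by
    intro g k c d hg hk hcd hd gc kc gd
    obtain ⟨v, hv, ev, gv⟩ := not_full gc
    obtain ⟨x, hx, ex, gx, kx⟩ := h.share_full hk (pick hd) gd
    exact nadj_symm (h.nadj_of_full hg kc hv ev gv hx kx gx (by rw [ex]; exact hcd.symm))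
  -- right part
  have wR : W G (SG ∪ F0 ∪ Z) ((kX + 1) * 4 + (2 + 1) * 4 + (2 + 1 + 2 ^ 4)) := by
    obtain ⟨q, hq, eq⟩ := pick hj
    refine h.good_part hX (q := q) (fun v hv => hv.1) (fun v hv => hv.1) ?_ ?_
    · intro a ha b hb e f hf g hg fa gb
      by_contra hne
      exact ha.2 ⟨f, hf.1, g, hg.1, a, ha.1, b, hb.1, rfl, e.symm, hne, fa, gb⟩
    · intro f hf
      exact (hf.2 j hj q hq eq).symm
  -- left part
  set κ : V → ℕ := fun v => if v ∈ S then π v else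
    if hh : ∃ c, Bad G S F π c ∧ ¬ Full G S π v c then Classical.choose hh else 0 with hκ
  have κS : ∀ v ∈ S, κ v = π v := fun v hv => by simp only [hκ]; rw [if_pos hv]
  have κF : ∀ v ∈ FB, Bad G S F π (κ v) ∧ ¬ Full G S π v (κ v) := by
    intro v hv
    have e : κ v = Classical.choose hv.2 := by
      simp only [hκ]; rw [if_neg (FS v hv.1), dif_pos hv.2]
    rw [e]; exact Classical.choose_spec hv.2
  have wL : W G (SB ∪ FB) (blk (comb (blk 2 1 + kX) 3) 2) := by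
    refine W.blocks (m := 2) (n := comb (blk 2 1 + kX) 3) κ
      (fun v => if v ∈ S then 0 else 1) ?_ ?_
    · intro i
      have w1 : W G {v | v ∈ S ∧ π v = i} (blk 2 1) := h.wS (fun v hv => hv.1)
      have w2 : W G {v | v ∈ FB ∧ κ v = i} kX := by
        obtain ⟨d, hdi, hd⟩ := OB i
        obtain ⟨q, hq, eq⟩ := pick hd
        refine hX V G q _ h.cls ?_
        rintro a ⟨ha, ea⟩ b _ _ _ qa
        have ha2 := κF a ha
        rw [ea] at ha2
        exact absurd (EX hdi.symm ha2.1 hd a ha.1 ha2.2 q hq eq).symm qa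
      refine W.comb_of w1 w2 ?_ (n := 3) ?_ ?_ le_rfl
      · rw [disjoint_left]
        rintro v ⟨hv, _⟩ ⟨hv2, _⟩
        exact FS v hv2.1 hv
      · refine h.comp_few (c := i) (fun v hv => hv) ?_
        rintro b ⟨hb, _⟩
        exact Or.inr (Or.inl hb.1)
      · rintro v ⟨hv, ev⟩
        rcases hv with hv | hv
        · left; rw [κS v hv.1] at ev; exact ⟨hv.1, ev⟩
        · right; exact ⟨hv, ev⟩
    · intro a ha a' ha' b hb h1 h2 hpe
      have aS : a ∈ S ↔ a' ∈ S := by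
        by_cases x1 : a ∈ S <;> by_cases x2 : a' ∈ S <;> simp_all
      have sf : ∀ u ∈ SB, ∀ w ∈ FB, κ u ≠ κ w → G.Adj u w := by
        intro u hu w hw hne
        rw [κS u hu.1] at hne
        have hw2 := κF w hw
        exact (EX hne.symm hw2.1 hu.2 w hw.1 hw2.2 u hu.1 rfl).symm
      have ff : ∀ u ∈ FB, ∀ w ∈ FB, κ u ≠ κ w → ¬ G.Adj u w := by
        intro u hu w hw hne
        have hu2 := κF u hu
        have hw2 := κF w hw
        exact anti1 hu.1 hw.1 hne hw2.1 hu2.2 (EX hne.symm hw2.1 hu2.1 w hw.1 hw2.2)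
          (EX hne hu2.1 hw2.1 u hu.1 hu2.2)
      by_cases aS1 : a ∈ S
      · have aS2 := aS.1 aS1
        have a1 : a ∈ SB := ha.resolve_right fun hh => FS a hh.1 aS1
        have a2 : a' ∈ SB := ha'.resolve_right fun hh => FS a' hh.1 aS2
        rcases hb with hb | hb
        · rw [κS a aS1, κS b hb.1] at h1
          rw [κS a' aS2, κS b hb.1] at h2
          exact iff_of_false (h.nS aS1 hb.1 h1) (h.nS aS2 hb.1 h2)
        · exact iff_of_true (sf a a1 b hb h1) (sf a' a2 b hb h2)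
      · have aS2 : a' ∉ S := fun hh => aS1 (aS.2 hh)
        have a1 : a ∈ FB := ha.resolve_left fun hh => aS1 hh.1
        have a2 : a' ∈ FB := ha'.resolve_left fun hh => aS2 hh.1
        rcases hb with hb | hb
        · exact iff_of_true (sf b hb a a1 h1.symm).symm (sf b hb a' a2 h2.symm).symm
        · exact iff_of_false (ff a a1 b hb h1) (ff a' a2 b hb h2)
  -- same neighbourhood
  have same : ∀ g ∈ FB, ∀ k ∈ FB, ∀ v, (v ∈ Z ∨ v ∈ SG) → G.Adj g v → G.Adj k v := by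
    have hv' : ∀ {v : V} {c d : ℕ}, (v ∈ Z ∨ v ∈ SG) → Bad G S F π c → Bad G S F π d →
        (v ∈ Z ∨ (v ∈ S ∧ π v ≠ c ∧ π v ≠ d)) := by
      intro v c d hv hc hd
      rcases hv with hv | hv
      · exact Or.inl hv
      · exact Or.inr ⟨hv.1, fun e => hv.2 (e ▸ hc), fun e => hv.2 (e ▸ hd)⟩
    intro g hg k hk v hv gv
    have hg2 := κF g hg
    have hk2 := κF k hk
    by_cases e : κ g = κ k
    · obtain ⟨d, hd1, hd⟩ := OB (κ g)
      obtain ⟨p, hp, pd⟩ := nonfull hd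
      have pc : Full G S π p (κ g) := EX hd1 hd hg2.1 p hp pd
      have pv := h.same_nbhd hg.1 hp hd1.symm hg2.2 pd (EX hd1.symm hg2.1 hd g hg.1 hg2.2) pc
        (hv' hv hg2.1 hd) gv
      rw [e] at pc hd1
      exact h.same_nbhd hp hk.1 hd1 pd hk2.2 pc (EX hd1.symm hk2.1 hd k hk.1 hk2.2)
        (hv' hv hd hk2.1) pv
    · exact h.same_nbhd hg.1 hk.1 e hg2.2 hk2.2 (EX e hg2.1 hk2.1 g hg.1 hg2.2)
        (EX (Ne.symm e) hk2.1 hg2.1 k hk.1 hk2.2) (hv' hv hg2.1 hk2.1) gv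
  have few : Few G (SB ∪ FB) (SG ∪ F0 ∪ Z) 2 := by
    refine ⟨fun v => if v ∈ S then 0 else 1, ?_⟩
    intro a ha a' ha' hpe b hb
    have aS : a ∈ S ↔ a' ∈ S := by
      by_cases x1 : a ∈ S <;> by_cases x2 : a' ∈ S <;> simp_all
    by_cases aS1 : a ∈ S
    · have aS2 := aS.1 aS1
      have a1 : a ∈ SB := ha.resolve_right fun hh => FS a hh.1 aS1
      have a2 : a' ∈ SB := ha'.resolve_right fun hh => FS a' hh.1 aS2
      rcases hb with (hb | hb) | hb
      · refine iff_of_false (h.nS a1.1 hb.1 ?_) (h.nS a2.1 hb.1 ?_)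
        · intro e; exact hb.2 (e ▸ a1.2)
        · intro e; exact hb.2 (e ▸ a2.2)
      · exact iff_of_true (hb.2 _ a1.2 a a1.1 rfl).symm (hb.2 _ a2.2 a' a2.1 rfl).symm
      · exact iff_of_false (fun hh => h.antiZ b hb a aS1 hh.symm)
          (fun hh => h.antiZ b hb a' aS2 hh.symm)
    · have aS2 : a' ∉ S := fun hh => aS1 (aS.2 hh)
      have a1 : a ∈ FB := ha.resolve_left fun hh => aS1 hh.1
      have a2 : a' ∈ FB := ha'.resolve_left fun hh => aS2 hh.1
      have nf : ∀ u ∈ FB, ∀ w ∈ F0, ¬ G.Adj u w := by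
        intro u hu w hw
        have hu2 := κF u hu
        obtain ⟨d, hd1, hd⟩ := OB (κ u)
        exact anti1 hu.1 hw.1 hd1.symm hd hu2.2 (hw.2 _ hu2.1) (EX hd1.symm hu2.1 hd u hu.1 hu2.2)
      rcases hb with (hb | hb) | hb
      · exact ⟨same a a1 a' a2 b (Or.inr hb), same a' a2 a a1 b (Or.inr hb)⟩
      · exact iff_of_false (nf a a1 b hb) (nf a' a2 b hb)
      · exact ⟨same a a1 a' a2 b (Or.inl hb), same a' a2 a a1 b (Or.inl hb)⟩
  refine W.comb_of wL wR ?_ few ?_ le_rfl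
  · rw [disjoint_left]
    rintro v (hv | hv) ((hv2 | hv2) | hv2)
    · exact hv2.2 hv.2
    · exact FS v hv2.1 hv.1
    · exact disjoint_left.1 h.dSZ hv.1 hv2
    · exact FS v hv.1 hv2.1
    · obtain ⟨c, hc, hn⟩ := hv.2
      exact hn (hv2.2 c hc)
    · exact disjoint_left.1 h.dFZ hv.1 hv2
  · rintro v ((hv | hv) | hv)
    · by_cases hb : Bad G S F π (π v)
      · exact Or.inl (Or.inl ⟨hv, hb⟩)
      · exact Or.inr (Or.inl (Or.inl ⟨hv, hb⟩))
    · by_cases hb : ∃ c, Bad G S F π c ∧ ¬ Full G S π v c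
      · exact Or.inl (Or.inr ⟨hv, hb⟩)
      · push Not at hb
        exact Or.inr (Or.inl (Or.inr ⟨hv, hb⟩))
    · exact Or.inr (Or.inr hv)

end MC

end Pool.Agent.GemWidth
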