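import Pool.Agent.GemWidth.ManyD

set_option autoImplicit false

namespace Pool.Agent.GemWidth

open Set

variable {V : Type} {G : SimpleGraph V} {S F Z : Set V} {π : V → ℕ}

namespace MC

/-- bound in the nice case II -/
def kN (kX : ℕ) : ℕ :=
  comb (blk 2 1 + comb (blk 2 1 + ((kX + 1) * 4 + (2 + 1) * 4 + (2 + 1 + 2 ^ 4))) 3) 3

theorem no_two (h : MC G S F Z π)
    (hII : ∀ j l, j ≠ l → Bad G S F π j → Bad G S F π l →
      ∃ g ∈ F, ¬ Full G S π g j ∧ ¬ Full G S π g l) {j l : ℕ} (hjl : j ≠ l)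
    (hj : Bad G S F π j) (hl : Bad G S F π l) {f : V} (hf : f ∈ F) (fj : Full G S π f j) :
    ¬ Full G S π f l := by
  intro fl
  obtain ⟨g, hg, gj, gl⟩ := hII j l hjl hj hl
  exact h.fK hf hg hjl hj hl fj fl gj gl

theorem caseIInice [Finite V] (h : MC G S F Z π) {kX : ℕ} (hX : ClassXBound kX)
    (hII : ∀ j l, j ≠ l → Bad G S F π j → Bad G S F π l →
      ∃ g ∈ F, ¬ Full G S π g j ∧ ¬ Full G S π g l) {q : V} (hq : q ∈ S)
    (qF : ∀ f ∈ F, G.Adj q f) : W G (S ∪ F ∪ Z) (kN kX) := by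
  classical
  set SB : Set V := {v | v ∈ S ∧ Bad G S F π (π v) ∧ π v ≠ π q} with hSB
  set Sq : Set V := {v | v ∈ S ∧ π v = π q} with hSq
  set SG : Set V := {v | v ∈ S ∧ ¬ Bad G S F π (π v) ∧ π v ≠ π q} with hSG
  have FS : ∀ f ∈ F, f ∉ S := fun f hf hfS => disjoint_left.1 h.dSF hfS hf
  have wR : W G (SG ∪ F ∪ Z) ((kX + 1) * 4 + (2 + 1) * 4 + (2 + 1 + 2 ^ 4)) := by
    refine h.good_part hX (q := q) (fun v hv => hv.1) subset_rfl ?_ qF
    intro a ha b hb e f hf g hg fa gb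
    by_contra hne
    exact ha.2.1 ⟨f, hf, g, hg, a, ha.1, b, hb.1, rfl, e.symm, hne, fa, gb⟩
  have w1 : W G (Sq ∪ (SG ∪ F ∪ Z))
      (comb (blk 2 1 + ((kX + 1) * 4 + (2 + 1) * 4 + (2 + 1 + 2 ^ 4))) 3) := by
    refine W.comb_of (h.wS (T := Sq) fun v hv => hv.1) wR ?_
      (h.comp_few (c := π q) (fun v hv => hv) ?_) subset_rfl le_rfl
    · rw [disjoint_left]
      rintro v hv ((hv2 | hv2) | hv2)
      · exact hv2.2.2 hv.2
      · exact FS v hv2 hv.1
      · exact disjoint_left.1 h.dSZ hv.1 hv2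
    · rintro b ((hb | hb) | hb)
      · exact Or.inl ⟨hb.1, hb.2.2⟩
      · exact Or.inr (Or.inl hb)
      · exact Or.inr (Or.inr hb)
  have few : Few G SB (Sq ∪ (SG ∪ F ∪ Z)) 3 := by
    by_cases hone : ∃ c, ∀ v ∈ SB, π v = c
    · obtain ⟨c, hc⟩ := hone
      by_cases hemp : SB = ∅
      · rw [hemp]
        exact ⟨fun _ => 0, fun a ha => absurd ha (notMem_empty a)⟩
      · obtain ⟨v0, hv0⟩ := nonempty_iff_ne_empty.2 hemp
        have ec := hc v0 hv0
        refine h.comp_few (c := c) (fun v hv => ⟨hv.1, hc v hv⟩) ?_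
        rintro b (hb | ((hb | hb) | hb))
        · exact Or.inl ⟨hb.1, fun e => hv0.2.2 (by rw [ec, ← e, hb.2])⟩
        · exact Or.inl ⟨hb.1, fun e => hb.2.1 (by rw [e, ← ec]; exact hv0.2.1)⟩
        · exact Or.inr (Or.inl hb)
        · exact Or.inr (Or.inr hb)
    · push Not at hone
      -- another bad component
      have OB : ∀ c : ℕ, ∃ d, d ≠ c ∧ d ≠ π q ∧ Bad G S F π d := by
        intro c
        obtain ⟨v, hv, hne⟩ := hone c
        exact ⟨π v, hne, hv.2.2, hv.2.1⟩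
      have noFull : ∀ l, Bad G S F π l → l ≠ π q → ∀ f ∈ F, ¬ Full G S π f l := by
        intro l hl hlq f hf fl
        obtain ⟨l', hne, hl'q, hl'⟩ := OB l
        have fl' : ¬ Full G S π f l' := h.no_two hII (Ne.symm hne) hl hl' hf fl
        obtain ⟨u, hu, eu, fu⟩ := not_full fl'
        have c1 : ∀ g ∈ F, ∀ u' ∈ S, π u' = l' → u' ≠ u → ¬ G.Adj g u' → Full G S π g l := by
          intro g hg u' hu' eu' neu gu'
          by_contra gl
          obtain ⟨v, hv, ev, gv⟩ := not_full gl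
          have adj := h.fA hf hg ⟨u, hu, u', hu', eu.trans eu'.symm, neu.symm, fu, gu'⟩
          exact h.nadj_of_full hg fl hv ev gv hq (qF f hf).symm (qF g hg).symm hlq.symm adj
        obtain ⟨g, hg, gl, gl'⟩ := hII l l' (Ne.symm hne) hl hl'
        obtain ⟨w, hw, ew, gw⟩ := not_full gl'
        by_cases e : w = u
        · subst e
          obtain ⟨p, hp, w', hw', ew', new, pw'⟩ := h.opp hl' w
          have pl := c1 p hp w' hw' ew' new pw'
          obtain ⟨v, hv, ev, gv⟩ := not_full gl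
          have adj := h.fA hp hg ⟨w', hw', w, hw, ew'.trans ew.symm, new, pw', gw⟩
          exact h.nadj_of_full hg pl hv ev gv hq (qF p hp).symm (qF g hg).symm hlq.symm adj
        · exact gl (c1 g hg w hw ew e gw)
      obtain ⟨l0, _, _, hl0⟩ := OB 0
      obtain ⟨f0, hf0, _⟩ := hl0
      refine ⟨fun v => if ¬ G.Adj f0 v then 0 else if ∃ g ∈ F, ¬ G.Adj g v then 1 else 2, ?_⟩
      intro v hv v' hv' e b hb
      change (if ¬ G.Adj f0 v then (0 : Fin 3) else if ∃ g ∈ F, ¬ G.Adj g v then 1 else 2) =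
        (if ¬ G.Adj f0 v' then 0 else if ∃ g ∈ F, ¬ G.Adj g v' then 1 else 2) at e
      -- the part outside F
      by_cases hbF : b ∈ F
      swap
      · have hn : ∀ u ∈ SB, ¬ G.Adj u b := by
          intro u hu
          rcases hb with hb | ((hb | hb) | hb)
          · exact h.nS hu.1 hb.1 (by rw [hb.2]; exact hu.2.2)
          · refine h.nS hu.1 hb.1 ?_
            intro ee; exact hb.2.1 (ee ▸ hu.2.1)
          · exact absurd hb hbF
          · exact fun hh => h.antiZ b hb u hu.1 hh.symm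
        exact iff_of_false (hn v hv) (hn v' hv')
      rw [SimpleGraph.adj_comm G v b, SimpleGraph.adj_comm G v' b]
      -- both missed by f0
      have k0 : ∀ u ∈ SB, ∀ u' ∈ SB, ¬ G.Adj f0 u → ¬ G.Adj f0 u' → G.Adj b u → G.Adj b u' := by
        intro u hu u' hu' f0u f0u' bu
        by_contra bu'
        obtain ⟨w, hw, ew, bw⟩ := not_full (noFull (π u) hu.2.1 hu.2.2 b hbF)
        have cf : Cf G S π f0 b := ⟨u, hu.1, w, hw, ew.symm, (by rintro rfl; exact bw bu), f0u, bw⟩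
        obtain ⟨p, hp, w', hw', ew', new, pw'⟩ := h.opp hu'.2.1 u'
        exact h.fD hf0 hbF hp cf ⟨u', hu'.1, w', hw', ew'.symm, new.symm, f0u', pw'⟩
          ⟨u', hu'.1, w', hw', ew'.symm, new.symm, bu', pw'⟩
      have k1 : ∀ u ∈ SB, ∀ u' ∈ SB, G.Adj f0 u → G.Adj f0 u' →
          (∃ g ∈ F, ¬ G.Adj g u') → G.Adj b u' → G.Adj b u := by
        rintro u hu u' hu' f0u f0u' ⟨g, hg, gu'⟩ bu'
        by_contra bu
        obtain ⟨w, hw, ew, f0w⟩ := not_full (noFull (π u) hu.2.1 hu.2.2 f0 hf0)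
        have cf : Cf G S π f0 b := ⟨w, hw, u, hu.1, ew, (by rintro rfl; exact f0w f0u), f0w, bu⟩
        obtain ⟨w1, hw1, ew1, f0w1⟩ := not_full (noFull (π u') hu'.2.1 hu'.2.2 f0 hf0)
        obtain ⟨w2, hw2, ew2, bw2⟩ := not_full (noFull (π u') hu'.2.1 hu'.2.2 b hbF)
        exact h.fD hf0 hbF hg cf
          ⟨w1, hw1, u', hu'.1, ew1, (by rintro rfl; exact f0w1 f0u'), f0w1, gu'⟩
          ⟨w2, hw2, u', hu'.1, ew2, (by rintro rfl; exact bw2 bu'), bw2, gu'⟩
      by_cases h1 : G.Adj f0 v <;> by_cases h1' : G.Adj f0 v'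
      · rw [if_neg (not_not.2 h1), if_neg (not_not.2 h1')] at e
        by_cases h2 : ∃ g ∈ F, ¬ G.Adj g v <;> by_cases h2' : ∃ g ∈ F, ¬ G.Adj g v'
        · exact ⟨k1 v' hv' v hv h1' h1 h2, k1 v hv v' hv' h1 h1' h2'⟩
        · rw [if_pos h2, if_neg h2'] at e; exact absurd e (by decide)
        · rw [if_neg h2, if_pos h2'] at e; exact absurd e (by decide)
        · push Not at h2 h2'
          exact iff_of_true (h2 b hbF) (h2' b hbF)
      · rw [if_neg (not_not.2 h1), if_pos h1'] at e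
        split_ifs at e <;> exact absurd e (by decide)
      · rw [if_pos h1, if_neg (not_not.2 h1')] at e
        split_ifs at e <;> exact absurd e (by decide)
      · exact ⟨k0 v hv v' hv' h1 h1', k0 v' hv' v hv h1' h1⟩
  refine W.comb_of (h.wS (T := SB) fun v hv => hv.1) w1 ?_ few ?_ le_rfl
  · rw [disjoint_left]
    rintro v hv (hv2 | ((hv2 | hv2) | hv2))
    · exact hv.2.2 hv2.2
    · exact hv2.2.1 hv.2.1
    · exact FS v hv2 hv.1
    · exact disjoint_left.1 h.dSZ hv.1 hv2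
  · rintro v ((hv | hv) | hv)
    · by_cases e : π v = π q
      · exact Or.inr (Or.inl ⟨hv, e⟩)
      · by_cases hb : Bad G S F π (π v)
        · exact Or.inl ⟨hv, hb, e⟩
        · exact Or.inr (Or.inr (Or.inl (Or.inl ⟨hv, hb, e⟩)))
    · exact Or.inr (Or.inr (Or.inl (Or.inr hv)))
    · exact Or.inr (Or.inr (Or.inr hv))

end MC

end Pool.Agent.GemWidth
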