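import Pool.Agent.GemWidth.ManyE

set_option autoImplicit false

namespace Pool.Agent.GemWidth

open Set

variable {V : Type} {G : SimpleGraph V} {S F Z : Set V} {π : V → ℕ}

theorem lab3 {p q p' q' : Prop} [Decidable p] [Decidable q] [Decidable p'] [Decidable q']
    (h : (if p then (0 : Fin 3) else if q then 1 else 2) =
      (if p' then 0 else if q' then 1 else 2)) : (p ↔ p') ∧ (¬ p → (q ↔ q')) := by
  by_cases x1 : p <;> by_cases x2 : p' <;> by_cases x3 : q <;> by_cases x4 : q' <;>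
    simp_all

/-- the two-class situation of the non-nice case -/
structure NN (G : SimpleGraph V) (S F Z : Set V) (π : V → ℕ) (E O Sa So : Set V) : Prop where
  mc : MC G S F Z π
  EF : E ⊆ F
  OF : O ⊆ F
  cover : F ⊆ E ∪ O
  dEO : Disjoint E O
  eo : ∀ e ∈ E, ∀ o ∈ O, G.Adj e o
  ncE : ∀ e ∈ E, ∀ e' ∈ E, ¬ Cf G S π e e'
  ncO : ∀ o ∈ O, ∀ o' ∈ O, ¬ Cf G S π o o'
  SaS : Sa ⊆ S
  SoS : So ⊆ S
  covS : S ⊆ Sa ∪ So
  dS : Disjoint Sa So
  missE : ∀ e ∈ E, ∀ v ∈ S, (¬ G.Adj e v ↔ (v ∈ Sa ∧ ¬ Full G S π e (π v)))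
  missO : ∀ o ∈ O, ∀ v ∈ S, (¬ G.Adj o v ↔ (v ∈ So ∧ ¬ Full G S π o (π v)))
  hasA : ∀ v ∈ S, ∃ a ∈ Sa, π a = π v
  hasO : ∀ v ∈ S, ∃ w ∈ So, π w = π v
  oneA : ∀ v ∈ Sa, ∀ v' ∈ Sa, π v = π v' → v = v'
  oneO : ∀ v ∈ So, ∀ v' ∈ So, π v = π v' → v = v'
  noTwo : ∀ f ∈ F, ∀ v ∈ S, ∀ w ∈ S, π v ≠ π w → Full G S π f (π v) → ¬ Full G S π f (π w)

namespace NN

variable {E O Sa So : Set V}

theorem swap (h : NN G S F Z π E O Sa So) : NN G S F Z π O E So Sa where
  mc := h.mc
  EF := h.OF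
  OF := h.EF
  cover := fun f hf => (h.cover hf).symm
  dEO := h.dEO.symm
  eo := fun e he o ho => (h.eo o ho e he).symm
  ncE := h.ncO
  ncO := h.ncE
  SaS := h.SoS
  SoS := h.SaS
  covS := fun v hv => (h.covS hv).symm
  dS := h.dS.symm
  missE := h.missO
  missO := h.missE
  hasA := h.hasO
  hasO := h.hasA
  oneA := h.oneO
  oneO := h.oneA
  noTwo := h.noTwo

theorem adjEo (h : NN G S F Z π E O Sa So) {e w : V} (he : e ∈ E) (hw : w ∈ So) : G.Adj e w := by
  by_contra hn
  have := (h.missE e he w (h.SoS hw)).1 hn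
  exact disjoint_left.1 h.dS this.1 hw

theorem adjOa (h : NN G S F Z π E O Sa So) {o w : V} (ho : o ∈ O) (hw : w ∈ Sa) : G.Adj o w :=
  h.swap.adjEo ho hw

/-- an edge between `E` and `O` with letters C in different components is impossible -/
theorem noEO (h : NN G S F Z π E O Sa So) {e o v w : V} (he : e ∈ E) (ho : o ∈ O) (hv : v ∈ S)
    (hw : w ∈ S) (ne : π v ≠ π w) (ev : Full G S π e (π v)) (ow : Full G S π o (π w)) : False := by
  have ov : ¬ Full G S π o (π v) := h.noTwo o (h.OF ho) w hw v hv (Ne.symm ne) ow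
  obtain ⟨u, hu, eu, ou⟩ := not_full ov
  obtain ⟨x, hx, ex, ox, exx⟩ := h.mc.share_full (h.EF he) ⟨w, hw, rfl⟩ ow
  exact h.mc.nadj_of_full (h.OF ho) ev hu eu ou hx exx ox (by rw [ex]; exact Ne.symm ne)
    (h.eo e he o ho)

/-- `E ∪ O ∪ Z` part with no letter C at the component of `v0` -/
theorem eoPart [Finite V] (h : NN G S F Z π E O Sa So) {kE : ℕ} (hE : EOBound kE) {v0 : V}
    (hv0 : v0 ∈ S) {E' O' : Set V} (hE' : E' ⊆ E) (hO' : O' ⊆ O)
    (nE : ∀ e ∈ E', ¬ Full G S π e (π v0)) (nO : ∀ o ∈ O', ¬ Full G S π o (π v0)) :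
    W G (E' ∪ O' ∪ Z) kE := by
  obtain ⟨a, ha, ea⟩ := h.hasA v0 hv0
  obtain ⟨w, hw, ew⟩ := h.hasO v0 hv0
  refine hE V G E' O' Z w a h.mc.cls (h.dEO.mono hE' hO') ?_ ?_ h.mc.indZ ?_ ?_ ?_ ?_ ?_
  · exact h.mc.dFZ.mono_left (hE'.trans h.EF)
  · exact h.mc.dFZ.mono_left (hO'.trans h.OF)
  · exact fun e he o ho => h.eo e (hE' he) o (hO' ho)
  · exact fun e he => (h.adjEo (hE' he) hw).symm
  · exact fun o ho => (h.adjOa (hO' ho) ha).symm
  · rintro x (hx | hx)
    · exact nadj_symm ((h.missO x (hO' hx) w (h.SoS hw)).2 ⟨hw, by rw [ew]; exact nO x hx⟩)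
    · exact nadj_symm (h.mc.antiZ x hx w (h.SoS hw))
  · rintro x (hx | hx)
    · exact nadj_symm ((h.missE x (hE' hx) a (h.SaS ha)).2 ⟨ha, by rw [ea]; exact nE x hx⟩)
    · exact nadj_symm (h.mc.antiZ x hx a (h.SaS ha))

/-- all letters C in one component -/
theorem sub1 [Finite V] (h : NN G S F Z π E O Sa So) {kE : ℕ} (hE : EOBound kE) {c0 : ℕ}
    (hc : ∀ f ∈ F, ∀ v ∈ S, π v ≠ c0 → ¬ Full G S π f (π v)) :
    W G (S ∪ F ∪ Z) (comb (blk 2 1 + kE) 4) := by
  classical
  obtain ⟨v0, hv0, hne, _⟩ := h.mc.other c0 c0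
  have w1 : W G (E ∪ O ∪ Z) kE := h.eoPart hE hv0 subset_rfl subset_rfl
    (fun e he => hc e (h.EF he) v0 hv0 hne) (fun o ho => hc o (h.OF ho) v0 hv0 hne)
  have few : Few G S (E ∪ O ∪ Z) 4 := by
    refine few_of_label (fun v => ((decide (π v = c0), decide (v ∈ Sa)) : Bool × Bool)) ?_
      (by simp)
    intro a ha a' ha' e b hb
    simp only [Prod.mk.injEq, decide_eq_decide] at e
    obtain ⟨e1, e2⟩ := e
    by_cases hca : π a = c0
    · -- same vertex
      have hca' := e1.1 hca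
      have : a = a' := by
        by_cases haS : a ∈ Sa
        · exact h.oneA a haS a' (e2.1 haS) (hca.trans hca'.symm)
        · have h1 := (h.covS ha).resolve_left haS
          have h2 := (h.covS ha').resolve_left fun hh => haS (e2.2 hh)
          exact h.oneO a h1 a' h2 (hca.trans hca'.symm)
      rw [this]
    · have hca' : π a' ≠ c0 := fun hh => hca (e1.2 hh)
      rw [SimpleGraph.adj_comm G a b, SimpleGraph.adj_comm G a' b]
      rcases hb with (hb | hb) | hb
      · rw [← not_iff_not, h.missE b hb a ha, h.missE b hb a' ha']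
        have n1 := hc b (h.EF hb) a ha hca
        have n2 := hc b (h.EF hb) a' ha' hca'
        exact ⟨fun hh => ⟨e2.1 hh.1, n2⟩, fun hh => ⟨e2.2 hh.1, n1⟩⟩
      · rw [← not_iff_not, h.missO b hb a ha, h.missO b hb a' ha']
        have n1 := hc b (h.OF hb) a ha hca
        have n2 := hc b (h.OF hb) a' ha' hca'
        have key : a ∈ So ↔ a' ∈ So := by
          constructor
          · intro hh
            exact (h.covS ha').resolve_left fun h3 => disjoint_left.1 h.dS (e2.2 h3) hh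
          · intro hh
            exact (h.covS ha).resolve_left fun h3 => disjoint_left.1 h.dS (e2.1 h3) hh
        exact ⟨fun hh => ⟨key.1 hh.1, n2⟩, fun hh => ⟨key.2 hh.1, n1⟩⟩
      · exact iff_of_false (h.mc.antiZ b hb a ha) (h.mc.antiZ b hb a' ha')
  refine W.comb_of (h.mc.wS (T := S) subset_rfl) w1 ?_ few ?_ le_rfl
  · rw [disjoint_left]
    rintro v hv ((hv2 | hv2) | hv2)
    · exact disjoint_left.1 h.mc.dSF hv (h.EF hv2)
    · exact disjoint_left.1 h.mc.dSF hv (h.OF hv2)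
    · exact disjoint_left.1 h.mc.dSZ hv hv2
  · rintro v ((hv | hv) | hv)
    · exact Or.inl hv
    · exact Or.inr (Or.inl (h.cover hv))
    · exact Or.inr (Or.inr hv)

/-- letters C of `E` in at least two components -/
theorem sub2 [Finite V] (h : NN G S F Z π E O Sa So) {kE kX : ℕ} (hE : EOBound kE)
    (hX : ClassXBound kX) {e1 e2 v1 v2 : V} (he1 : e1 ∈ E) (he2 : e2 ∈ E) (hv1 : v1 ∈ S)
    (hv2 : v2 ∈ S) (hne : π v1 ≠ π v2) (f1 : Full G S π e1 (π v1)) (f2 : Full G S π e2 (π v2)) :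
    W G (S ∪ F ∪ Z) (comb (blk (comb (blk 2 1 + kX) 3) 3 + kE) 3) := by
  classical
  -- no letters C in O
  have nO : ∀ o ∈ O, ∀ v ∈ S, ¬ Full G S π o (π v) := by
    intro o ho v hv ov
    by_cases e : π v1 = π v
    · exact h.noEO he2 ho hv2 hv (fun hh => hne (e.trans hh.symm)) f2 ov
    · exact h.noEO he1 ho hv1 hv e f1 ov
  set Es : Set V := {e | e ∈ E ∧ ∃ v ∈ S, Full G S π e (π v)} with hEs
  set E' : Set V := {e | e ∈ E ∧ ∀ v ∈ S, ¬ Full G S π e (π v)} with hE'
  have FS : ∀ f ∈ F, f ∉ S := fun f hf hfS => disjoint_left.1 h.mc.dSF hfS hf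
  have wR : W G (E' ∪ O ∪ Z) kE := h.eoPart hE hv1 (fun e he => he.1) subset_rfl
    (fun e he => he.2 v1 hv1) (fun o ho => nO o ho v1 hv1)
  set κ : V → ℕ := fun v => if v ∈ S then π v else
    if hh : ∃ c, (∃ w ∈ S, π w = c) ∧ Full G S π v c then Classical.choose hh else 0 with hκ
  have κS : ∀ v ∈ S, κ v = π v := fun v hv => by simp only [hκ]; rw [if_pos hv]
  have κE : ∀ v ∈ Es, ∃ w ∈ S, π w = κ v ∧ Full G S π v (κ v) := by
    intro v hv
    have hh : ∃ c, (∃ w ∈ S, π w = c) ∧ Full G S π v c := by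
      obtain ⟨w, hw, fw⟩ := hv.2
      exact ⟨π w, ⟨w, hw, rfl⟩, fw⟩
    have e : κ v = Classical.choose hh := by
      simp only [hκ]; rw [if_neg (FS v (h.EF hv.1)), dif_pos hh]
    obtain ⟨⟨w, hw, ew⟩, h2⟩ := Classical.choose_spec hh
    rw [e]; exact ⟨w, hw, ew, h2⟩
  -- elements of Es with different components are nonadjacent
  have ee : ∀ u ∈ Es, ∀ w ∈ Es, κ u ≠ κ w → ¬ G.Adj u w := by
    intro u hu w hw hne'
    obtain ⟨x, hx, ex, fx⟩ := κE u hu
    obtain ⟨y, hy, ey, fy⟩ := κE w hw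
    have wn : ¬ Full G S π w (κ u) := by
      rw [← ex]
      exact h.noTwo w (h.EF hw.1) y hy x hx (by rw [ex, ey]; exact Ne.symm hne') (by rw [ey]; exact fy)
    obtain ⟨v, hv, ev, wv⟩ := not_full wn
    obtain ⟨s, hs, es, ws, us⟩ := h.mc.share_full (h.EF hu.1) ⟨y, hy, ey⟩ fy
    exact h.mc.nadj_of_full (h.EF hw.1) fx hv ev wv hs us ws (by rw [es]; exact Ne.symm hne')
  -- Es against S
  have ea : ∀ u ∈ Es, ∀ v ∈ Sa, κ u ≠ π v → ¬ G.Adj u v := by
    intro u hu v hv hne'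
    obtain ⟨x, hx, ex, fx⟩ := κE u hu
    refine (h.missE u hu.1 v (h.SaS hv)).2 ⟨hv, ?_⟩
    exact h.noTwo u (h.EF hu.1) x hx v (h.SaS hv) (by rw [ex]; exact hne') (by rw [ex]; exact fx)
  have wL : W G (S ∪ Es) (blk (comb (blk 2 1 + kX) 3) 3) := by
    refine W.blocks (m := 3) (n := comb (blk 2 1 + kX) 3) κ
      (fun v => if v ∈ Sa then 0 else if v ∈ So then 1 else 2) ?_ ?_
    · intro i
      have w1 : W G {v | v ∈ S ∧ π v = i} (blk 2 1) := h.mc.wS (fun v hv => hv.1)
      have w2 : W G {v | v ∈ Es ∧ κ v = i} kX := by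
        obtain ⟨w, hw, _⟩ := h.hasO v1 hv1
        refine hX V G w _ h.mc.cls ?_
        rintro a ⟨ha, ea⟩ b _ _ _ wa
        exact absurd (h.adjEo ha.1 hw).symm wa
      refine W.comb_of w1 w2 ?_ (n := 3) ?_ ?_ le_rfl
      · rw [disjoint_left]
        rintro v ⟨hv, _⟩ ⟨hv2, _⟩
        exact FS v (h.EF hv2.1) hv
      · refine h.mc.comp_few (c := i) (fun v hv => hv) ?_
        rintro b ⟨hb, _⟩
        exact Or.inr (Or.inl (h.EF hb.1))
      · rintro v ⟨hv, ev⟩
        rcases hv with hv | hv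
        · left; rw [κS v hv] at ev; exact ⟨hv, ev⟩
        · right; exact ⟨hv, ev⟩
    · intro a ha a' ha' b hb h1 h2 hpe
      -- adjacency determined by type
      have tS : ∀ u ∈ S, u ∈ Sa ∨ u ∈ So := fun u hu => h.covS hu
      have nSa : ∀ u ∈ Es, u ∉ Sa := fun u hu hh => FS u (h.EF hu.1) (h.SaS hh)
      have nSo : ∀ u ∈ Es, u ∉ So := fun u hu hh => FS u (h.EF hu.1) (h.SoS hh)
      have nSoa : ∀ u ∈ So, u ∉ Sa := fun u hu hh => disjoint_left.1 h.dS hh hu
      have val : ∀ u ∈ S ∪ Es, κ u ≠ κ b →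
          (G.Adj u b ↔ ((u ∈ So ∧ b ∈ Es) ∨ (u ∈ Es ∧ b ∈ So))) := by
        intro u hu hub
        rcases hu with hu | hu
        · rcases hb with hb | hb
          · rw [κS u hu, κS b hb] at hub
            refine iff_of_false (h.mc.nS hu hb hub) ?_
            rintro (hh | hh)
            · exact FS b (h.EF hh.2.1) hb
            · exact FS u (h.EF hh.1.1) hu
          · rcases tS u hu with hu' | hu'
            · rw [κS u hu] at hub
              refine iff_of_false (nadj_symm (ea b hb u hu' (Ne.symm hub))) ?_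
              rintro (hh | hh)
              · exact nSoa u hh.1 hu'
              · exact FS u (h.EF hh.1.1) hu
            · exact iff_of_true (h.adjEo hb.1 hu').symm (Or.inl ⟨hu', hb⟩)
        · rcases hb with hb | hb
          · rcases tS b hb with hb' | hb'
            · rw [κS b hb] at hub
              refine iff_of_false (ea u hu b hb' hub) ?_
              rintro (hh | hh)
              · exact FS b (h.EF hh.2.1) hb
              · exact nSoa b hh.2 hb'
            · exact iff_of_true (h.adjEo hu.1 hb') (Or.inr ⟨hu, hb'⟩)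
          · refine iff_of_false (ee u hu b hb hub) ?_
            rintro (hh | hh)
            · exact nSo u hu hh.1
            · exact nSo b hb hh.2
      rw [val a ha h1, val a' ha' h2]
      change (if a ∈ Sa then (0 : Fin 3) else if a ∈ So then 1 else 2) =
        (if a' ∈ Sa then 0 else if a' ∈ So then 1 else 2) at hpe
      obtain ⟨l1, l2⟩ := lab3 hpe
      have tso : a ∈ So ↔ a' ∈ So := by
        by_cases x1 : a ∈ Sa
        · have x2 := l1.1 x1
          exact iff_of_false (fun hh => nSoa a hh x1) (fun hh => nSoa a' hh x2)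
        · exact l2 x1
      have te : a ∈ Es ↔ a' ∈ Es := by
        have c1 : ∀ u ∈ S ∪ Es, (u ∈ Es ↔ (u ∉ Sa ∧ u ∉ So)) := by
          intro u hu
          constructor
          · intro hh; exact ⟨nSa u hh, nSo u hh⟩
          · rintro ⟨h3, h4⟩
            rcases hu with hu | hu
            · exact ((tS u hu).elim h3 h4).elim
            · exact hu
        rw [c1 a ha, c1 a' ha', l1, tso]
      rw [tso, te]
  -- constant trace on Z
  have sameNe : ∀ u ∈ Es, ∀ w ∈ Es, κ u ≠ κ w → ∀ z ∈ Z, G.Adj u z → G.Adj w z := by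
    intro u hu w hw hne' z hz uz
    obtain ⟨x, hx, ex, fx⟩ := κE u hu
    obtain ⟨y, hy, ey, fy⟩ := κE w hw
    have wn : ¬ Full G S π w (κ u) := by
      rw [← ex]
      exact h.noTwo w (h.EF hw.1) y hy x hx (by rw [ex, ey]; exact Ne.symm hne') (by rw [ey]; exact fy)
    have un : ¬ Full G S π u (κ w) := by
      rw [← ey]
      exact h.noTwo u (h.EF hu.1) x hx y hy (by rw [ex, ey]; exact hne') (by rw [ex]; exact fx)
    exact h.mc.same_nbhd (h.EF hu.1) (h.EF hw.1) (Ne.symm hne') un wn fx fy (Or.inl hz) uz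
  have he1s : e1 ∈ Es := ⟨he1, v1, hv1, f1⟩
  have he2s : e2 ∈ Es := ⟨he2, v2, hv2, f2⟩
  have κuniq : ∀ u ∈ Es, ∀ v ∈ S, Full G S π u (π v) → κ u = π v := by
    intro u hu v hv fv
    obtain ⟨x, hx, ex, fx⟩ := κE u hu
    by_contra hne'
    exact h.noTwo u (h.EF hu.1) x hx v hv (by rw [ex]; exact hne') (by rw [ex]; exact fx) fv
  have k1 : κ e1 = π v1 := κuniq e1 he1s v1 hv1 f1
  have k2 : κ e2 = π v2 := κuniq e2 he2s v2 hv2 f2
  have same : ∀ u ∈ Es, ∀ w ∈ Es, ∀ z ∈ Z, G.Adj u z → G.Adj w z := by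
    intro u hu w hw z hz uz
    by_cases e : κ u = κ w
    · -- a third one
      obtain ⟨t, ht, hte⟩ : ∃ t ∈ Es, κ t ≠ κ u := by
        by_cases e3 : κ e1 = κ u
        · exact ⟨e2, he2s, by rw [← e3, k1, k2]; exact Ne.symm hne⟩
        · exact ⟨e1, he1s, e3⟩
      exact sameNe t ht w hw (by rw [← e]; exact hte) z hz (sameNe u hu t ht (Ne.symm hte) z hz uz)
    · exact sameNe u hu w hw e z hz uz
  have few : Few G (S ∪ Es) (E' ∪ O ∪ Z) 3 := by
    refine ⟨fun v => if v ∈ Sa then 0 else if v ∈ So then 1 else 2, ?_⟩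
    intro a ha a' ha' hpe b hb
    change (if a ∈ Sa then (0 : Fin 3) else if a ∈ So then 1 else 2) =
      (if a' ∈ Sa then 0 else if a' ∈ So then 1 else 2) at hpe
    have nSoa : ∀ u ∈ So, u ∉ Sa := fun u hu hh => disjoint_left.1 h.dS hh hu
    have rA : ∀ u ∈ Sa, (G.Adj u b ↔ b ∈ O) := by
      intro u hu
      rcases hb with (hb | hb) | hb
      · refine iff_of_false (nadj_symm ((h.missE b hb.1 u (h.SaS hu)).2 ⟨hu, hb.2 u (h.SaS hu)⟩)) ?_
        exact fun hh => disjoint_left.1 h.dEO hb.1 hh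
      · exact iff_of_true (h.adjOa hb hu).symm hb
      · refine iff_of_false (nadj_symm (h.mc.antiZ b hb u (h.SaS hu))) ?_
        exact fun hh => disjoint_left.1 h.mc.dFZ (h.OF hh) hb
    have rO : ∀ u ∈ So, (G.Adj u b ↔ b ∈ E') := by
      intro u hu
      rcases hb with (hb | hb) | hb
      · exact iff_of_true (h.adjEo hb.1 hu).symm hb
      · refine iff_of_false (nadj_symm ((h.missO b hb u (h.SoS hu)).2 ⟨hu, nO b hb u (h.SoS hu)⟩)) ?_
        exact fun hh => disjoint_left.1 h.dEO hh.1 hb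
      · refine iff_of_false (nadj_symm (h.mc.antiZ b hb u (h.SoS hu))) ?_
        exact fun hh => disjoint_left.1 h.mc.dFZ (h.EF hh.1) hb
    have rE : ∀ u ∈ Es, ∀ w ∈ Es, (G.Adj u b → G.Adj w b) := by
      intro u hu w hw hub
      rcases hb with (hb | hb) | hb
      · exfalso
        obtain ⟨x, hx, ex, fx⟩ := κE u hu
        obtain ⟨al, hal, eal⟩ := h.hasA x hx
        have hn : ¬ G.Adj b al := (h.missE b hb.1 al (h.SaS hal)).2 ⟨hal, hb.2 al (h.SaS hal)⟩
        have hy : G.Adj u al := fx al (h.SaS hal) (eal.trans ex)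
        exact h.mc.fC (h.EF hu.1) (h.EF hb.1) (h.ncE u hu.1 b hb.1) (h.SaS hal)
          (fun hh => hn (hh.1 hy)) hub
      · exact h.eo w hw.1 b hb
      · exact same u hu w hw b hb hub
    by_cases x1 : a ∈ Sa
    · have x2 : a' ∈ Sa := by
        by_contra x2
        rw [if_pos x1, if_neg x2] at hpe
        split_ifs at hpe <;> exact absurd hpe (by decide)
      rw [rA a x1, rA a' x2]
    · have x2 : a' ∉ Sa := by
        intro x2
        rw [if_neg x1, if_pos x2] at hpe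
        split_ifs at hpe <;> exact absurd hpe (by decide)
      rw [if_neg x1, if_neg x2] at hpe
      by_cases x3 : a ∈ So
      · have x4 : a' ∈ So := by
          by_contra x4
          rw [if_pos x3, if_neg x4] at hpe
          exact absurd hpe (by decide)
        rw [rO a x3, rO a' x4]
      · have x4 : a' ∉ So := by
          intro x4
          rw [if_neg x3, if_pos x4] at hpe
          exact absurd hpe (by decide)
        have y1 : a ∈ Es := ha.resolve_left fun hh => (h.covS hh).elim x1 x3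
        have y2 : a' ∈ Es := ha'.resolve_left fun hh => (h.covS hh).elim x2 x4
        exact ⟨rE a y1 a' y2, rE a' y2 a y1⟩
  refine W.comb_of wL wR ?_ few ?_ le_rfl
  · rw [disjoint_left]
    rintro v (hv | hv) ((hv2 | hv2) | hv2)
    · exact FS v (h.EF hv2.1) hv
    · exact FS v (h.OF hv2) hv
    · exact disjoint_left.1 h.mc.dSZ hv hv2
    · obtain ⟨w, hw, fw⟩ := hv.2
      exact hv2.2 w hw fw
    · exact disjoint_left.1 h.dEO hv.1 hv2
    · exact disjoint_left.1 h.mc.dFZ (h.EF hv.1) hv2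
  · rintro v ((hv | hv) | hv)
    · exact Or.inl (Or.inl hv)
    · rcases h.cover hv with hv | hv
      · by_cases hf : ∃ w ∈ S, Full G S π v (π w)
        · exact Or.inl (Or.inr ⟨hv, hf⟩)
        · push Not at hf
          exact Or.inr (Or.inl (Or.inl ⟨hv, hf⟩))
      · exact Or.inr (Or.inl (Or.inr hv))
    · exact Or.inr (Or.inr hv)

end NN

end Pool.Agent.GemWidth
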