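import Pool.Agent.GemWidth.Prism
import Pool.Agent.GemWidth.ClassX

set_option autoImplicit false

namespace Pool.Agent.GemWidth

open Set

variable {V : Type*}

/-- connectedness of `H[C]`, in terms of partitions -/
def HConn (H : SimpleGraph V) (C : Set V) : Prop :=
  ∀ A : Set V, A ⊆ C → A.Nonempty → (C \ A).Nonempty → ∃ a ∈ A, ∃ b ∈ C \ A, H.Adj a b

theorem HConn.insert {H : SimpleGraph V} {C : Set V} {s : V} (h : HConn H C)
    (hs : ∃ c ∈ C, H.Adj s c) : HConn H (insert s C) := by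
  obtain ⟨c, hc, hsc⟩ := hs
  intro A hA hAne hCA
  by_cases h1 : (A ∩ C).Nonempty
  · by_cases h2 : (C \ (A ∩ C)).Nonempty
    · obtain ⟨a, ha, b, hb, hab⟩ := h (A ∩ C) inter_subset_right h1 h2
      exact ⟨a, ha.1, b, ⟨Or.inr hb.1, fun h3 => hb.2 ⟨h3, hb.1⟩⟩, hab⟩
    · obtain ⟨t, ht1, ht2⟩ := hCA
      have hCA' : ∀ x ∈ C, x ∈ A := by
        intro x hx
        by_contra hxA
        exact h2 ⟨x, hx, fun h3 => hxA h3.1⟩
      rcases ht1 with rfl | ht1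
      · exact ⟨c, hCA' c hc, t, ⟨Or.inl rfl, ht2⟩, hsc.symm⟩
      · exact absurd (hCA' t ht1) ht2
  · have hAs : ∀ x ∈ A, x = s := by
      intro x hx
      rcases hA hx with h3 | h3
      · exact h3
      · exact absurd ⟨x, hx, h3⟩ h1
    obtain ⟨a, ha⟩ := hAne
    have := hAs a ha
    subst this
    exact ⟨a, ha, c, ⟨Or.inr hc, fun h3 => h1 ⟨c, h3, hc⟩⟩, hsc⟩

theorem hconn_singleton (H : SimpleGraph V) (c : V) : HConn H {c} := by
  rintro A hA ⟨a, ha⟩ ⟨b, hb1, hb2⟩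
  have h1 : a = c := hA ha
  have h2 : b = c := hb1
  exact absurd (h2 ▸ h1 ▸ ha) hb2

/-- in a connected `P4`-free set with disjoint anticomplete nonempty sets `X`, `Y` some vertex has a
neighbour in both -/
theorem exists_mid {H : SimpleGraph V} {C X Y : Set V} (hC : HConn H C) (hX : X ⊆ C) (hY : Y ⊆ C)
    (hXne : X.Nonempty) (hYne : Y.Nonempty) (hXY : Disjoint X Y)
    (hanti : ∀ x ∈ X, ∀ y ∈ Y, ¬ H.Adj x y)
    (hP4 : ∀ a ∈ C, ∀ b ∈ C, ∀ c ∈ C, ∀ d ∈ C, H.Adj a b → H.Adj b c → H.Adj c d → a ≠ c → a ≠ d →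
      b ≠ d → ¬ H.Adj a c → ¬ H.Adj a d → ¬ H.Adj b d → False) :
    ∃ w ∈ C, w ∉ X ∧ w ∉ Y ∧ (∃ x ∈ X, H.Adj w x) ∧ ∃ y ∈ Y, H.Adj w y := by
  by_contra hno
  push Not at hno
  -- levels
  let L1 : Set V := {w | w ∈ C ∧ w ∉ X ∧ ∃ x ∈ X, H.Adj w x}
  let L2 : Set V := {w | w ∈ C ∧ w ∉ X ∧ w ∉ L1 ∧ ∃ x ∈ L1, H.Adj w x}
  have hYL : ∀ y ∈ Y, y ∉ X ∪ (L1 ∪ L2) := by
    rintro y hy (h | h | h)
    · exact (disjoint_left.1 hXY) h hy
    · obtain ⟨_, _, x, hx, hyx⟩ := h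
      exact hanti x hx y hy hyx.symm
    · obtain ⟨_, _, _, w, ⟨hw1, hw2, x, hx, hwx⟩, hyw⟩ := h
      have hwY : w ∉ Y := fun h => hanti x hx w h hwx.symm
      exact hno w hw1 hw2 hwY ⟨x, hx, hwx⟩ y hy hyw.symm
  obtain ⟨y, hy⟩ := hYne
  obtain ⟨x, hx⟩ := hXne
  obtain ⟨a, ha, b, ⟨hbC, hb⟩, hab⟩ := hC (X ∪ (L1 ∪ L2)) (by
      rintro z (h | h | h)
      · exact hX h
      · exact h.1
      · exact h.1) ⟨x, Or.inl hx⟩ ⟨y, hY hy, hYL y hy⟩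
  have hbX : b ∉ X := fun h => hb (Or.inl h)
  have hb1 : b ∉ L1 := fun h => hb (Or.inr (Or.inl h))
  have hb2 : b ∉ L2 := fun h => hb (Or.inr (Or.inr h))
  have hbx : ∀ x ∈ X, ¬ H.Adj b x := fun x hx h => hb1 ⟨hbC, hbX, x, hx, h⟩
  have hbL1 : ∀ x ∈ L1, ¬ H.Adj b x := fun x hx h => hb2 ⟨hbC, hbX, hb1, x, hx, h⟩
  rcases ha with ha | ha | ha
  · exact hbx a ha hab.symm
  · exact hbL1 a ha hab.symm
  · obtain ⟨haC, haX, haL1, w, hw, haw⟩ := ha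
    obtain ⟨hwC, hwX, x', hx', hwx'⟩ := id hw
    have hax : ¬ H.Adj a x' := fun h => haL1 ⟨haC, haX, x', hx', h⟩
    refine hP4 x' (hX hx') w hwC a haC b hbC hwx'.symm haw.symm hab ?_ ?_ ?_ ?_ ?_ ?_
    · rintro rfl; exact haX hx'
    · rintro rfl; exact hbX hx'
    · rintro rfl; exact hb1 hw
    · exact fun h => hax h.symm
    · exact fun h => hbx x' hx' h.symm
    · exact fun h => hbL1 w hw h.symm

/-- Dirac's lemma (with an additional exclusion of `P4 + P1`) -/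
theorem exists_simplicial [Finite V] (H : SimpleGraph V) (R0 : Set V)
    (h4 : ∀ a ∈ R0, ∀ b ∈ R0, ∀ c ∈ R0, ∀ d ∈ R0, H.Adj a b → H.Adj b c → H.Adj c d → H.Adj d a →
      a ≠ c → b ≠ d → ¬ H.Adj a c → ¬ H.Adj b d → False)
    (h5 : ∀ a ∈ R0, ∀ b ∈ R0, ∀ c ∈ R0, ∀ d ∈ R0, ∀ e ∈ R0, H.Adj a b → H.Adj b c → H.Adj c d →
      H.Adj d e → H.Adj e a → a ≠ c → a ≠ d → b ≠ d → b ≠ e → c ≠ e → ¬ H.Adj a c → ¬ H.Adj a d →
      ¬ H.Adj b d → ¬ H.Adj b e → ¬ H.Adj c e → False)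
    (h6 : ∀ a ∈ R0, ∀ b ∈ R0, ∀ c ∈ R0, ∀ d ∈ R0, ∀ e ∈ R0, ∀ f ∈ R0, H.Adj a b → H.Adj b c →
      H.Adj c d → H.Adj d e → H.Adj e f → H.Adj f a → a ≠ c → a ≠ d → a ≠ e → b ≠ d → b ≠ e →
      b ≠ f → c ≠ e → c ≠ f → d ≠ f → ¬ H.Adj a c → ¬ H.Adj a d → ¬ H.Adj a e → ¬ H.Adj b d →
      ¬ H.Adj b e → ¬ H.Adj b f → ¬ H.Adj c e → ¬ H.Adj c f → ¬ H.Adj d f → False)
    (hP : ∀ v ∈ R0, ∀ a ∈ R0, ∀ b ∈ R0, ∀ c ∈ R0, ∀ d ∈ R0, H.Adj a b → H.Adj b c → H.Adj c d →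
      a ≠ c → a ≠ d → b ≠ d → v ≠ a → v ≠ b → v ≠ c → v ≠ d → ¬ H.Adj a c → ¬ H.Adj a d →
      ¬ H.Adj b d → ¬ H.Adj v a → ¬ H.Adj v b → ¬ H.Adj v c → ¬ H.Adj v d → False) :
    ∀ R : Set V, R ⊆ R0 → R.Nonempty → ∃ v ∈ R, ∀ a ∈ R, ∀ b ∈ R, H.Adj v a → H.Adj v b → a ≠ b →
      H.Adj a b := by
  intro R
  induction hn : R.ncard using Nat.strong_induction_on generalizing R with
  | _ n ih =>
    intro hR0 hRne
    have hfin : ∀ S : Set V, S.Finite := fun S => Set.toFinite S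
    let P : Set (V × Set V) := {p | p.1 ∈ R ∧ p.2 ⊆ R ∧ p.2.Nonempty ∧ HConn H p.2 ∧
      ∀ c ∈ p.2, c ≠ p.1 ∧ ¬ H.Adj p.1 c}
    by_cases hP0 : P.Nonempty
    · obtain ⟨⟨v, C⟩, hvC, hmax⟩ := Set.exists_max_image P (fun p => p.2.ncard) (Set.toFinite P) hP0
      obtain ⟨hv, hCR, hCne, hconn, hC⟩ := hvC
      simp only at hv hCR hCne hconn hC hmax
      let S : Set V := {s | s ∈ R ∧ s ∉ C ∧ ∃ c ∈ C, H.Adj s c}
      let D : Set V := R \ (C ∪ S)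
      have hvD : v ∈ D := by
        refine ⟨hv, ?_⟩
        rintro (h | ⟨_, _, c, hc, hvc⟩)
        · exact (hC v h).1 rfl
        · exact (hC c hc).2 hvc
      have hDC : ∀ u ∈ D, ∀ c ∈ C, ¬ H.Adj u c := by
        intro u hu c hc h
        exact hu.2 (Or.inr ⟨hu.1, fun h' => hu.2 (Or.inl h'), c, hc, h⟩)
      have hDS : ∀ u ∈ D, ∀ s ∈ S, H.Adj u s := by
        intro u hu s hs
        by_contra hus
        have hmem : ((u, insert s C) : V × Set V) ∈ P := by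
          refine ⟨hu.1, ?_, ⟨s, Or.inl rfl⟩, hconn.insert hs.2.2, ?_⟩
          · rintro x (rfl | hx)
            · exact hs.1
            · exact hCR hx
          · rintro c (rfl | hc)
            · refine ⟨?_, hus⟩
              rintro rfl
              exact hu.2 (Or.inr hs)
            · refine ⟨?_, hDC u hu c hc⟩
              rintro rfl
              exact hu.2 (Or.inl hc)
        have h1 := hmax _ hmem
        simp only at h1
        rw [Set.ncard_insert_of_notMem hs.2.1 (hfin C)] at h1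
        omega
      have hSS : ∀ x ∈ S, ∀ y ∈ S, x ≠ y → H.Adj x y := by
        intro x hx y hy hxy
        by_contra hnxy
        have hvx := hDS v hvD x hx
        have hvy := hDS v hvD y hy
        let X : Set V := {c | c ∈ C ∧ H.Adj x c}
        let Y : Set V := {c | c ∈ C ∧ H.Adj y c}
        have hX : X.Nonempty := hx.2.2
        have hY : Y.Nonempty := hy.2.2
        have rv := hR0 hv
        have rx := hR0 hx.1
        have ry := hR0 hy.1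
        have rC : ∀ c ∈ C, c ∈ R0 := fun c hc => hR0 (hCR hc)
        have vC : ∀ c ∈ C, v ≠ c := fun c hc => (hC c hc).1.symm
        have xC : ∀ c ∈ C, x ≠ c := by rintro c hc rfl; exact hx.2.1 hc
        have yC : ∀ c ∈ C, y ≠ c := by rintro c hc rfl; exact hy.2.1 hc
        have nvC : ∀ c ∈ C, ¬ H.Adj v c := fun c hc => (hC c hc).2
        by_cases hd : Disjoint X Y
        · by_cases han : ∀ c ∈ X, ∀ c' ∈ Y, ¬ H.Adj c c'
          · -- C6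
            obtain ⟨w, hw, hwX, hwY, ⟨c, hc, hwc⟩, c', hc', hwc'⟩ :=
              exists_mid hconn (fun _ h => h.1) (fun _ h => h.1) hX hY hd han (by
                intro a ha b hb c hc d hd hab hbc hcd e1 e2 e3 n1 n2 n3
                exact hP v rv a (rC a ha) b (rC b hb) c (rC c hc) d (rC d hd) hab hbc hcd
                  e1 e2 e3 (vC a ha) (vC b hb) (vC c hc) (vC d hd) n1 n2 n3 (nvC a ha) (nvC b hb)
                  (nvC c hc) (nvC d hd))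
            have hcY : ¬ H.Adj y c := fun h => (disjoint_left.1 hd) hc ⟨hc.1, h⟩
            have hcX : ¬ H.Adj x c' := fun h => (disjoint_left.1 hd) ⟨hc'.1, h⟩ hc'
            have hxw : ¬ H.Adj x w := fun h => hwX ⟨hw, h⟩
            have hyw : ¬ H.Adj y w := fun h => hwY ⟨hw, h⟩
            have hcc : c ≠ c' := by rintro rfl; exact (disjoint_left.1 hd) hc hc'
            refine h6 v rv x rx c (rC c hc.1) w (rC w hw) c' (rC c' hc'.1) y ry hvx hc.2 hwc.symm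
              hwc' hc'.2.symm hvy.symm (vC c hc.1) (vC w hw) (vC c' hc'.1) (xC w hw) (xC c' hc'.1)
              hxy hcc (yC c hc.1).symm (yC w hw).symm (nvC c hc.1) (nvC w hw) (nvC c' hc'.1) hxw hcX
              hnxy (han c hc c' hc') (fun h => hcY h.symm) (fun h => hyw h.symm)
          · push Not at han
            obtain ⟨c, hc, c', hc', hcc'⟩ := han
            have hcY : ¬ H.Adj y c := fun h => (disjoint_left.1 hd) hc ⟨hc.1, h⟩
            have hcX : ¬ H.Adj x c' := fun h => (disjoint_left.1 hd) ⟨hc'.1, h⟩ hc'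
            exact h5 v rv x rx c (rC c hc.1) c' (rC c' hc'.1) y ry hvx hc.2 hcc' hc'.2.symm
              hvy.symm (vC c hc.1) (vC c' hc'.1) (xC c' hc'.1) hxy (yC c hc.1).symm (nvC c hc.1)
              (nvC c' hc'.1) hcX hnxy (fun h => hcY h.symm)
        · rw [Set.not_disjoint_iff] at hd
          obtain ⟨c, hc1, hc2⟩ := hd
          exact h4 v rv x rx c (rC c hc1.1) y ry hvx hc1.2 hc2.2.symm hvy.symm (vC c hc1.1) hxy
            (nvC c hc1.1) hnxy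
      have hDlt : D.ncard < n := by
        rw [← hn]
        refine Set.ncard_lt_ncard ⟨fun x hx => hx.1, fun h => ?_⟩ (hfin R)
        obtain ⟨c, hc⟩ := hCne
        exact (h (hCR hc)).2 (Or.inl hc)
      obtain ⟨w, hw, hws⟩ := ih _ hDlt D rfl (fun x hx => hR0 hx.1) ⟨v, hvD⟩
      refine ⟨w, hw.1, ?_⟩
      intro a ha b hb hwa hwb hab
      have haC : a ∉ C := fun h => hDC w hw a h hwa
      have hbC : b ∉ C := fun h => hDC w hw b h hwb
      by_cases haS : a ∈ S <;> by_cases hbS : b ∈ S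
      · exact hSS a haS b hbS hab
      · exact (hDS b ⟨hb, fun h => h.elim hbC hbS⟩ a haS).symm
      · exact hDS a ⟨ha, fun h => h.elim haC haS⟩ b hbS
      · exact hws a ⟨ha, fun h => h.elim haC haS⟩ b ⟨hb, fun h => h.elim hbC hbS⟩ hwa hwb hab
    · obtain ⟨v, hv⟩ := hRne
      refine ⟨v, hv, ?_⟩
      intro a ha b hb _ _ hab
      by_contra h
      refine hP0 ⟨(a, {b}), ha, ?_, ⟨b, rfl⟩, hconn_singleton H b, ?_⟩
      · rintro x hx
        rw [mem_singleton_iff.1 hx]; exact hb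
      · intro c hc
        rw [mem_singleton_iff.1 hc]; exact ⟨hab.symm, h⟩

/-- T3, with a concrete bound -/
theorem noTwoP2_bound' {V : Type} [Finite V] {G : SimpleGraph V} {R : Set V} (hG : Cls G) (h5 : NoC5 G)
    (h2 : ∀ a ∈ R, ∀ b ∈ R, ∀ c ∈ R, ∀ d ∈ R, G.Adj a b → G.Adj c d → ¬ G.Adj a c → ¬ G.Adj a d →
      ¬ G.Adj b c → ¬ G.Adj b d → False) : W G R (2 * 2 ^ 6 + kStat) := by
  rcases R.eq_empty_or_nonempty with rfl | hne
  · exact W.empty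
  by_cases hpr : ∃ a1 ∈ R, ∃ a2 ∈ R, ∃ a3 ∈ R, ∃ b1 ∈ R, ∃ b2 ∈ R, ∃ b3 ∈ R,
      (G.Adj a1 a2 ∧ G.Adj a1 a3 ∧ G.Adj a2 a3) ∧ (G.Adj b1 b2 ∧ G.Adj b1 b3 ∧ G.Adj b2 b3) ∧
      (G.Adj a1 b1 ∧ G.Adj a2 b2 ∧ G.Adj a3 b3) ∧
      (¬ G.Adj a1 b2 ∧ ¬ G.Adj a1 b3 ∧ ¬ G.Adj a2 b1 ∧ ¬ G.Adj a2 b3 ∧ ¬ G.Adj a3 b1 ∧
        ¬ G.Adj a3 b2)
  · obtain ⟨a1, ra1, a2, ra2, a3, ra3, b1, rb1, b2, rb2, b3, rb3, ⟨p1, p2, p3⟩, ⟨p4, p5, p6⟩,
      ⟨p7, p8, p9⟩, q1, q2, q3, q4, q5, q6⟩ := hpr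
    exact (prism_bound hG h5 h2 ra1 ra2 ra3 rb1 rb2 rb3 p1 p2 p3 p4 p5 p6 p7 p8 p9 q1 q2 q3 q4 q5
      q6).mono (Nat.le_add_right _ _)
  · have key : ∃ v ∈ R, ∀ a ∈ R, ∀ b ∈ R, Gᶜ.Adj v a → Gᶜ.Adj v b → a ≠ b → Gᶜ.Adj a b := by
      have hadj : ∀ {a b : V}, a ≠ b → ¬ Gᶜ.Adj a b → G.Adj a b := by
        intro a b hab h
        by_contra h'
        exact h ((SimpleGraph.compl_adj G a b).2 ⟨hab, h'⟩)
      have hnadj : ∀ {a b : V}, Gᶜ.Adj a b → ¬ G.Adj a b := fun h =>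
        ((SimpleGraph.compl_adj G _ _).1 h).2
      refine exists_simplicial Gᶜ R ?_ ?_ ?_ ?_ R subset_rfl hne
      · intro a ha b hb c hc d hd hab hbc hcd hda e1 e2 n1 n2
        exact h2 a ha c hc b hb d hd (hadj e1 n1) (hadj e2 n2) (hnadj hab) (hnadj hda.symm)
          (hnadj hbc.symm) (hnadj hcd)
      · intro a _ b _ c _ d _ e _ hab hbc hcd hde hea e1 e2 e3 e4 e5 n1 n2 n3 n4 n5
        -- G-cycle a c e b d
        exact h5 a c e b d (hadj e1 n1) (hadj e5 n5) (hadj e4 n4).symm (hadj e3 n3)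
          (hadj e2 n2).symm (hnadj hea.symm) (hnadj hab) (hnadj hbc.symm) (hnadj hcd)
          (hnadj hde.symm)
      · intro a ha b hb c hc d hd e he f hf hab hbc hcd hde hef hfa e1 e2 e3 e4 e5 e6 e7 e8 e9
          n1 n2 n3 n4 n5 n6 n7 n8 n9
        -- triangles a c e and d f b; matching a-d, c-f, e-b
        exact hpr ⟨a, ha, c, hc, e, he, d, hd, f, hf, b, hb,
          ⟨hadj e1 n1, hadj e3 n3, hadj e7 n7⟩,
          ⟨hadj e9 n9, (hadj e4 n4).symm, (hadj e6 n6).symm⟩,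
          ⟨hadj e2 n2, hadj e8 n8, (hadj e5 n5).symm⟩,
          hnadj hfa.symm, hnadj hab, hnadj hcd, hnadj hbc.symm, hnadj hde.symm, hnadj hef⟩
      · intro v _ a _ b _ c _ d _ hab hbc hcd e1 e2 e3 f1 f2 f3 f4 n1 n2 n3 m1 m2 m3 m4
        -- gem: hub v, path c a d b
        exact hG.gem v c a d b (hadj f3 m3) (hadj f1 m1) (hadj f4 m4) (hadj f2 m2)
          (hadj e1 n1).symm (hadj e2 n2) (hadj e3 n3).symm (hnadj hcd) (hnadj hbc.symm) (hnadj hab)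
    obtain ⟨v, hv, hvs⟩ := key
    refine (classX_bound' (q := v) hG ?_).mono (Nat.le_add_left _ _)
    intro a ha b hb hav hbv hva hvb hab
    have h1 : Gᶜ.Adj v a := (SimpleGraph.compl_adj G v a).2 ⟨hav.symm, hva⟩
    have h2 : Gᶜ.Adj v b := (SimpleGraph.compl_adj G v b).2 ⟨hbv.symm, hvb⟩
    exact ((SimpleGraph.compl_adj G a b).1 (hvs a ha b hb h1 h2 hab.ne)).2 hab

/-- T3 -/
theorem noTwoP2_bound : ∃ k : ℕ, ∀ (V : Type) [Finite V] (G : SimpleGraph V) (R : Set V),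
    Cls G → NoC5 G →
    (∀ a ∈ R, ∀ b ∈ R, ∀ c ∈ R, ∀ d ∈ R, G.Adj a b → G.Adj c d → ¬ G.Adj a c → ¬ G.Adj a d →
      ¬ G.Adj b c → ¬ G.Adj b d → False) → W G R k :=
  ⟨2 * 2 ^ 6 + kStat, fun _ _ _ _ hG h5 h2 => noTwoP2_bound' hG h5 h2⟩

end Pool.Agent.GemWidth
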