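import Pool.Agent.GemWidth.Basic

set_option autoImplicit false

namespace Pool.Agent.GemWidth

open Set

variable {V : Type*} {G : SimpleGraph V} {A B R S : Set V} {n m k : ℕ}

theorem W.empty : W G ∅ k := Tree.empty

theorem W.single (v : V) : W G {v} k := Tree.single v

theorem W.of_subsingleton (h : R.Subsingleton) : W G R k := by
  rcases h.eq_empty_or_singleton with h | ⟨v, h⟩
  · rw [h]; exact W.empty
  · rw [h]; exact W.single v

/-- combine two parts along a cut with few rows in both directions -/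
theorem W.combine {X Y : Set V} {k' : ℕ} (hX : W G X k) (hY : W G Y k') (hd : Disjoint X Y)
    (h1 : Few G X Y n) (h2 : Few G Y X m) :
    W G (X ∪ Y) ((max k k' + 1) * (max n m) + (max k k' + 1 + max n m)) := by
  have e1 : (X ∪ Y) \ X = Y := by
    rw [union_sdiff_left]; exact sdiff_eq_self_iff_disjoint.2 hd
  have e2 : (X ∪ Y) \ Y = X := by
    rw [union_sdiff_right]; exact sdiff_eq_self_iff_disjoint.2 hd.symm
  have e3 : 1 ≤ (max k k' + 1) * (max n m) + (max k k' + 1 + max n m) := by
    have := Nat.zero_le ((max k k' + 1) * (max n m))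
    omega
  refine Tree.union X Y hd ?_ ?_ (cutOK_self e3)
  · refine Tree.transfer (W.mono hX (le_max_left k k')) subset_rfl subset_union_left ?_ ?_
    · rw [e1]; exact h1.mono_n (le_max_left _ _)
    · rw [e1]; exact h2.mono_n (le_max_right _ _)
  · refine Tree.transfer (W.mono hY (le_max_right k k')) subset_rfl subset_union_right ?_ ?_
    · rw [e2]; exact h2.mono_n (le_max_right _ _)
    · rw [e2]; exact h1.mono_n (le_max_left _ _)

/-- the bound of `W.combine'` -/
def comb (k n : ℕ) : ℕ := (k + 1) * 2 ^ n + (k + 1 + 2 ^ n)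

theorem comb_mono {k k' n n' : ℕ} (hk : k ≤ k') (hn : n ≤ n') : comb k n ≤ comb k' n' := by
  unfold comb
  have : 2 ^ n ≤ 2 ^ n' := Nat.pow_le_pow_right (by norm_num) hn
  have := Nat.mul_le_mul (Nat.add_le_add_right hk 1) this
  omega

/-- combine two parts along a cut with few rows in one direction -/
theorem W.combine' {X Y : Set V} (hX : W G X k) (hY : W G Y k) (hd : Disjoint X Y)
    (h1 : Few G X Y n) : W G (X ∪ Y) (comb k n) := by
  have := W.combine hX hY hd h1 h1.symm
  have h2 : n ≤ 2 ^ n := (Nat.lt_two_pow_self).le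
  rw [max_self, max_eq_right h2] at this
  exact this

/-- adding one vertex -/
theorem W.insert_vertex (h : W G R k) (v : V) : W G (insert v R) (comb k 1) := by
  classical
  by_cases hv : v ∈ R
  · rw [insert_eq_of_mem hv]
    refine h.mono ?_
    unfold comb; omega
  · have := W.combine' (W.single v) h (disjoint_singleton_left.2 hv) (few_singleton v R)
    rwa [singleton_union] at this

/-- iterate of `fun k => comb k 1` -/
def addN (k : ℕ) : ℕ → ℕ
  | 0 => k
  | n + 1 => comb (addN k n) 1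

theorem addN_le_succ (k n : ℕ) : addN k n ≤ addN k (n + 1) := by
  show addN k n ≤ comb (addN k n) 1
  unfold comb; omega

theorem addN_mono {k n m : ℕ} (h : n ≤ m) : addN k n ≤ addN k m :=
  monotone_nat_of_le_succ (addN_le_succ k) h

theorem addN_mono' {k k' n m : ℕ} (hk : k ≤ k') (h : n ≤ m) : addN k n ≤ addN k' m := by
  refine le_trans ?_ (addN_mono h)
  clear h
  induction n with
  | zero => exact hk
  | succ n ih => exact comb_mono ih le_rfl

/-- adding a finite set of vertices -/
theorem W.union_finset (h : W G R k) (F : Finset V) : W G (R ∪ F) (addN k F.card) := by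
  classical
  induction F using Finset.induction_on with
  | empty => simpa [addN] using h
  | insert v F hv ih =>
    have h2 := W.insert_vertex ih v
    rw [Finset.card_insert_of_notMem hv]
    have e : R ∪ ((insert v F : Finset V) : Set V) = insert v (R ∪ F) := by
      rw [Finset.coe_insert, union_insert]
    rw [e]; exact h2

/-- if `R` without a finite set `F` has bounded width then so has `R`. -/
theorem W.of_diff_finset (F : Finset V) (h : W G (R \ F) k) : W G R (addN k F.card) := by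
  have h2 := W.union_finset h F
  refine h2.subset ?_
  intro x hx
  by_cases hxF : x ∈ (F : Set V)
  · exact Or.inr hxF
  · exact Or.inl ⟨hx, hxF⟩

/-- flipping: if the adjacency of `H` is determined by classes and adjacency of `G`. -/
theorem Few.flip {H : SimpleGraph V} (p : V → Fin m) (h : Few G A B n)
    (hH : ∀ a ∈ A, ∀ a' ∈ A, ∀ b ∈ B, p a = p a' → (G.Adj a b ↔ G.Adj a' b) →
      (H.Adj a b ↔ H.Adj a' b)) : Few H A B (n * m) := by
  obtain ⟨c, hc⟩ := h
  refine few_of_label (fun v => (c v, p v)) ?_ (by simp)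
  intro a ha a' ha' e b hb
  simp only [Prod.mk.injEq] at e
  exact hH a ha a' ha' b hb e.2 (hc a ha a' ha' e.1 b hb)

theorem W.flip {H : SimpleGraph V} (p : V → Fin m) (h : W G R k)
    (hH : ∀ a ∈ R, ∀ a' ∈ R, ∀ b ∈ R, a ≠ b → a' ≠ b → p a = p a' → (G.Adj a b ↔ G.Adj a' b) →
      (H.Adj a b ↔ H.Adj a' b)) : W H R ((k + 1) * m) := by
  have : Tree (fun B => B ⊆ R → CutOK H R ((k + 1) * m) B) R := by
    refine Tree.imp h ?_
    intro B hB hcut hBR
    constructor
    · refine (Few.flip p hcut.1.few ?_).rb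
      intro a ha a' ha' b hb e1 e2
      refine hH a (hBR ha) a' (hBR ha') b hb.1 ?_ ?_ e1 e2
      · rintro rfl; exact hb.2 ha
      · rintro rfl; exact hb.2 ha'
    · refine (Few.flip p hcut.2.few ?_).rb
      intro a ha a' ha' b hb e1 e2
      refine hH a ha.1 a' ha'.1 b (hBR hb) ?_ ?_ e1 e2
      · rintro rfl; exact ha.2 hb
      · rintro rfl; exact ha'.2 hb
  exact Tree.imp this fun B hB h => h hB

/-- block substitution: every vertex `x` of `X` is replaced by the block `{v ∈ R | π v = x}`;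
adjacency between different blocks depends only on the types and the adjacency of `x, x'` in `H`. -/
theorem W.subst {H : SimpleGraph V} {X : Set V} (π : V → V) (p : V → Fin m)
    (hX : W H X k) (hπ : ∀ v ∈ R, π v ∈ X)
    (hblock : ∀ x ∈ X, W G {v | v ∈ R ∧ π v = x} n)
    (hadj : ∀ a ∈ R, ∀ a' ∈ R, ∀ b ∈ R, π a ≠ π b → π a' ≠ π b → p a = p a' →
      (H.Adj (π a) (π b) ↔ H.Adj (π a') (π b)) → (G.Adj a b ↔ G.Adj a' b)) :
    W G R ((k + 1) * m + (n + 1) * m + (n + 1 + 2 ^ m)) := by
  have hpos : 0 < 2 ^ m := Nat.two_pow_pos m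
  set N := (k + 1) * m + (n + 1) * m + (n + 1 + 2 ^ m) with hN
  -- few rows for block unions
  have hfew : ∀ A : Set V, A ⊆ X → CutOK H X k A →
      Few G {v | v ∈ R ∧ π v ∈ A} (R \ {v | v ∈ R ∧ π v ∈ A}) ((k + 1) * m) ∧
      Few G (R \ {v | v ∈ R ∧ π v ∈ A}) {v | v ∈ R ∧ π v ∈ A} ((k + 1) * m) := by
    intro A hA hcut
    obtain ⟨c, hc⟩ := hcut.1.few
    obtain ⟨d, hd⟩ := hcut.2.few
    constructor
    · refine few_of_label (fun v => (c (π v), p v)) ?_ (by simp)
      rintro a ⟨ha, haA⟩ a' ⟨ha', haA'⟩ e b ⟨hb, hbA⟩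
      simp only [Prod.mk.injEq] at e
      have hbA' : π b ∉ A := fun h => hbA ⟨hb, h⟩
      refine hadj a ha a' ha' b hb ?_ ?_ e.2 (hc _ haA _ haA' e.1 _ ⟨hπ b hb, hbA'⟩)
      · intro h; exact hbA' (h ▸ haA)
      · intro h; exact hbA' (h ▸ haA')
    · refine few_of_label (fun v => (d (π v), p v)) ?_ (by simp)
      rintro b ⟨hb, hbA⟩ b' ⟨hb', hbA'⟩ e a ⟨ha, haA⟩
      simp only [Prod.mk.injEq] at e
      have hbA1 : π b ∉ A := fun h => hbA ⟨hb, h⟩
      have hbA1' : π b' ∉ A := fun h => hbA' ⟨hb', h⟩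
      refine hadj b hb b' hb' a ha ?_ ?_ e.2
        (hd _ ⟨hπ b hb, hbA1⟩ _ ⟨hπ b' hb', hbA1'⟩ e.1 _ haA)
      · intro h; exact hbA1 (h ▸ haA)
      · intro h; exact hbA1' (h ▸ haA)
  have key : ∀ A : Set V, Tree (CutOK H X k) A → A ⊆ X → Tree (CutOK G R N) {v | v ∈ R ∧ π v ∈ A} := by
    intro A hT
    induction hT with
    | empty => intro _; simpa using Tree.empty
    | single x =>
      intro hx
      have hxX : x ∈ X := hx rfl
      have hb := hblock x hxX
      have e : {v | v ∈ R ∧ π v ∈ ({x} : Set V)} = {v | v ∈ R ∧ π v = x} := by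
        ext v; simp
      rw [e]
      set Bx := {v | v ∈ R ∧ π v = x} with hBx
      have hf : Few G Bx (R \ Bx) m := by
        refine ⟨p, ?_⟩
        rintro a ⟨ha, hax⟩ a' ⟨ha', hax'⟩ e b ⟨hb, hbx⟩
        have hne : π b ≠ x := fun h => hbx ⟨hb, h⟩
        refine hadj a ha a' ha' b hb ?_ ?_ e (by rw [hax, hax'])
        · rw [hax]; exact hne.symm
        · rw [hax']; exact hne.symm
      have := Tree.transfer hb subset_rfl (fun v hv => hv.1) hf hf.symm
      refine Tree.imp this ?_
      intro B _ hB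
      refine hB.mono ?_
      rw [hN]
      have : 0 ≤ (k + 1) * m := Nat.zero_le _
      omega
    | union A B hd hA hB hP ihA ihB =>
      intro hAB
      have hAX : A ⊆ X := subset_union_left.trans hAB
      have hBX : B ⊆ X := subset_union_right.trans hAB
      have e : {v | v ∈ R ∧ π v ∈ A ∪ B} = {v | v ∈ R ∧ π v ∈ A} ∪ {v | v ∈ R ∧ π v ∈ B} := by
        ext v; simp only [mem_union, mem_ofPred_eq]; tauto
      have hcut := hfew (A ∪ B) hAB hP
      rw [e]
      refine Tree.union _ _ ?_ (ihA hAX) (ihB hBX) ?_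
      · rw [disjoint_left]
        rintro v ⟨_, h1⟩ ⟨_, h2⟩
        exact (disjoint_left.1 hd) h1 h2
      · rw [← e]
        exact cutOK_of_few hcut.1 hcut.2 (by rw [hN]; omega) (by rw [hN]; omega)
  have := key X hX subset_rfl
  have e : {v | v ∈ R ∧ π v ∈ X} = R := by
    ext v; exact ⟨fun h => h.1, fun h => ⟨h, hπ v h⟩⟩
  rwa [e] at this

/-- level sets: `f` orders the blocks, every lower set is a few-row cut and blocks are bounded. -/
theorem W.levels [Finite V] (f : V → ℕ)
    (hblock : ∀ i, W G {v | v ∈ R ∧ f v = i} k)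
    (hcut1 : ∀ i, Few G {v | v ∈ R ∧ f v < i} {v | v ∈ R ∧ i ≤ f v} n)
    (hcut2 : ∀ i, Few G {v | v ∈ R ∧ i ≤ f v} {v | v ∈ R ∧ f v < i} n) :
    W G R ((k + 1) * (n * n) + (k + 1 + (n + n)) + n) := by
  classical
  set N := (k + 1) * (n * n) + (k + 1 + (n + n)) + n with hN
  have key : ∀ i, Tree (CutOK G R N) {v | v ∈ R ∧ f v < i} := by
    intro i
    induction i with
    | zero => simpa using Tree.empty
    | succ i ih =>
      have e : {v | v ∈ R ∧ f v < i + 1} = {v | v ∈ R ∧ f v < i} ∪ {v | v ∈ R ∧ f v = i} := by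
        ext v; simp only [mem_union, mem_ofPred_eq]
        constructor
        · rintro ⟨h1, h2⟩
          rcases Nat.lt_succ_iff_lt_or_eq.1 h2 with h | h
          · exact Or.inl ⟨h1, h⟩
          · exact Or.inr ⟨h1, h⟩
        · rintro (⟨h1, h2⟩ | ⟨h1, h2⟩)
          · exact ⟨h1, by omega⟩
          · exact ⟨h1, by omega⟩
      have e2 : ∀ j, R \ {v | v ∈ R ∧ f v < j} = {v | v ∈ R ∧ j ≤ f v} := by
        intro j; ext v; simp only [mem_sdiff, mem_ofPred_eq]
        constructor
        · rintro ⟨h1, h2⟩; exact ⟨h1, by by_contra h; exact h2 ⟨h1, by omega⟩⟩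
        · rintro ⟨h1, h2⟩; exact ⟨h1, fun h => by omega⟩
      rw [e]
      refine Tree.union _ _ ?_ ih ?_ ?_
      · rw [disjoint_left]; rintro v ⟨_, h1⟩ ⟨_, h2⟩; omega
      · have e3 : R \ {v | v ∈ R ∧ f v = i} ⊆ {v | v ∈ R ∧ f v < i} ∪ {v | v ∈ R ∧ i + 1 ≤ f v} := by
          rintro v ⟨h1, h2⟩
          rcases Nat.lt_trichotomy (f v) i with h | h | h
          · exact Or.inl ⟨h1, h⟩
          · exact absurd ⟨h1, h⟩ h2
          · exact Or.inr ⟨h1, h⟩
        have s1 : {v | v ∈ R ∧ f v = i} ⊆ {v | v ∈ R ∧ i ≤ f v} :=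
          fun v hv => ⟨hv.1, hv.2.ge⟩
        have s2 : {v | v ∈ R ∧ f v = i} ⊆ {v | v ∈ R ∧ f v < i + 1} :=
          fun v hv => ⟨hv.1, by have := hv.2; omega⟩
        have f1 : Few G {v | v ∈ R ∧ f v = i} (R \ {v | v ∈ R ∧ f v = i}) (n * n) := by
          refine Few.mono (Few.prod ((hcut2 i).mono s1 subset_rfl le_rfl)
            ((hcut1 (i + 1)).mono s2 subset_rfl le_rfl)) subset_rfl e3 le_rfl
        have f2 : Few G (R \ {v | v ∈ R ∧ f v = i}) {v | v ∈ R ∧ f v = i} (n + n) := by
          refine Few.mono (Few.union ((hcut1 i).mono subset_rfl s1 le_rfl)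
            ((hcut2 (i + 1)).mono subset_rfl s2 le_rfl)) e3 subset_rfl le_rfl
        have := Tree.transfer (hblock i) subset_rfl (fun v hv => hv.1) f1 f2
        refine Tree.imp this ?_
        intro B _ hB
        exact hB.mono (by rw [hN]; omega)
      · rw [← e]
        refine cutOK_of_few (n := n) (m := n) ?_ ?_ (by rw [hN]; omega) (by rw [hN]; omega)
        · rw [e2]; exact hcut1 (i + 1)
        · rw [e2]; exact hcut2 (i + 1)
  obtain ⟨M, hM⟩ : ∃ M, ∀ v, f v < M := by
    obtain ⟨M, hM⟩ := (Set.finite_range f).bddAbove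
    exact ⟨M + 1, fun v => Nat.lt_succ_of_le (hM ⟨v, rfl⟩)⟩
  have := key M
  have e : {v | v ∈ R ∧ f v < M} = R := by
    ext v; exact ⟨fun h => h.1, fun h => ⟨h, hM v⟩⟩
  rwa [e] at this

/-- linear layouts -/
theorem W.linear [Finite V] (f : V → ℕ) (hf : ∀ a ∈ R, ∀ b ∈ R, f a = f b → a = b)
    (hcut1 : ∀ i, Few G {v | v ∈ R ∧ f v < i} {v | v ∈ R ∧ i ≤ f v} n)
    (hcut2 : ∀ i, Few G {v | v ∈ R ∧ i ≤ f v} {v | v ∈ R ∧ f v < i} n) :
    W G R (n * n + (1 + (n + n)) + n) := by
  have := W.levels (k := 0) (G := G) (R := R) (n := n) f (fun i => ?_) hcut1 hcut2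
  · simpa using this
  · refine W.of_subsingleton ?_
    rintro a ⟨ha, h1⟩ b ⟨hb, h2⟩
    exact hf a ha b hb (h1.trans h2.symm)

/-- edgeless sets (inside `R`) have width at most one -/
theorem W.of_indep [Finite V] (h : ∀ a ∈ R, ∀ b ∈ R, ¬ G.Adj a b) : W G R 1 := by
  classical
  have : ∀ F : Finset V, (F : Set V) ⊆ R → W G F 1 := by
    intro F
    induction F using Finset.induction_on with
    | empty => intro _; simpa using W.empty
    | insert v F hv ih =>
      intro hF
      rw [Finset.coe_insert, ← singleton_union]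
      have hF' : (F : Set V) ⊆ R := fun x hx => hF (by simp [hx])
      refine W.disjoint_union (W.single v) (ih hF') ?_ ?_ le_rfl
      · rw [disjoint_singleton_left]; simpa using hv
      · intro a ha b hb
        simp only [mem_singleton_iff] at ha
        subst ha
        exact h a (hF (by simp)) b (hF' hb)
  have hfin : R.Finite := Set.toFinite R
  have h2 := this hfin.toFinset (by simp)
  rwa [hfin.coe_toFinset] at h2

/-- few homogeneous classes which are independent or cliques -/
theorem W.of_classes [Finite V] (p : V → Fin m)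
    (h : ∀ a ∈ R, ∀ a' ∈ R, ∀ b ∈ R, a ≠ b → a' ≠ b → p a = p a' → (G.Adj a b ↔ G.Adj a' b)) :
    W G R (2 * m) := by
  have h1 : W (⊥ : SimpleGraph V) R 1 := W.of_indep fun _ _ _ _ h => h
  exact W.flip p h1 fun a ha a' ha' b hb hab hab' e _ => h a ha a' ha' b hb hab hab' e

end Pool.Agent.GemWidth
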