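import Pool.Agent.GemWidth.Cls

set_option autoImplicit false

namespace Pool.Agent.GemWidth

open Set

variable {V : Type*} {G : SimpleGraph V} {A B R S : Set V} {n m k : ℕ}

/-- block substitution with labels in a finite type -/
theorem W.subst_label {α : Type*} [Fintype α] {H : SimpleGraph V} {X : Set V} (π : V → V)
    (p : V → α) (hm : Fintype.card α ≤ m)
    (hX : W H X k) (hπ : ∀ v ∈ R, π v ∈ X)
    (hblock : ∀ x ∈ X, W G {v | v ∈ R ∧ π v = x} n)
    (hadj : ∀ a ∈ R, ∀ a' ∈ R, ∀ b ∈ R, π a ≠ π b → π a' ≠ π b → p a = p a' →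
      (H.Adj (π a) (π b) ↔ H.Adj (π a') (π b)) → (G.Adj a b ↔ G.Adj a' b)) :
    W G R ((k + 1) * m + (n + 1) * m + (n + 1 + 2 ^ m)) := by
  classical
  refine W.subst π (fun v => ⟨(Fintype.equivFin α (p v)).val,
    lt_of_lt_of_le (Fintype.equivFin α (p v)).isLt hm⟩) hX hπ hblock ?_
  intro a ha a' ha' b hb h1 h2 e h3
  have e2 : (Fintype.equivFin α (p a)).val = (Fintype.equivFin α (p a')).val := Fin.mk.inj e
  have e3 : p a = p a' := (Fintype.equivFin α).injective (Fin.ext e2)
  exact hadj a ha a' ha' b hb h1 h2 e3 h3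

/-- blocks with type-determined adjacency between different blocks -/
theorem W.typed_blocks [Finite V] {α : Type*} [Fintype α] (π : V → V) (p : V → α)
    (hm : Fintype.card α ≤ m)
    (hblock : ∀ x, W G {v | v ∈ R ∧ π v = x} n)
    (hadj : ∀ a ∈ R, ∀ a' ∈ R, ∀ b ∈ R, π a ≠ π b → π a' ≠ π b → p a = p a' →
      (G.Adj a b ↔ G.Adj a' b)) :
    W G R ((1 + 1) * m + (n + 1) * m + (n + 1 + 2 ^ m)) := by
  refine W.subst_label (H := ⊥) (X := univ) (k := 1) π p hm (W.of_indep fun _ _ _ _ h => h)
    (fun v _ => mem_univ _) (fun x _ => hblock x) ?_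
  intro a ha a' ha' b hb h1 h2 e _
  exact hadj a ha a' ha' b hb h1 h2 e

/-- few homogeneous classes, labels in a finite type -/
theorem W.of_classes_label [Finite V] {α : Type*} [Fintype α] (p : V → α)
    (hm : Fintype.card α ≤ m)
    (h : ∀ a ∈ R, ∀ a' ∈ R, ∀ b ∈ R, a ≠ b → a' ≠ b → p a = p a' → (G.Adj a b ↔ G.Adj a' b)) :
    W G R (2 * m) := by
  classical
  refine W.of_classes (fun v => (⟨(Fintype.equivFin α (p v)).val,
    lt_of_lt_of_le (Fintype.equivFin α (p v)).isLt hm⟩ : Fin m)) ?_
  intro a ha a' ha' b hb h1 h2 e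
  have e2 : (Fintype.equivFin α (p a)).val = (Fintype.equivFin α (p a')).val := Fin.mk.inj e
  have e3 : p a = p a' := (Fintype.equivFin α).injective (Fin.ext e2)
  exact h a ha a' ha' b hb h1 h2 e3

/-- a finite set of at most `n` vertices has few rows -/
theorem few_of_ncard [Finite V] (h : A.ncard ≤ n) (B : Set V) : Few G A B (n + 1) := by
  classical
  have hfin : A.Finite := Set.toFinite A
  have : Fintype A := Fintype.ofFinite A
  refine few_of_label (α := Option A) (fun v => if h : v ∈ A then some ⟨v, h⟩ else none) ?_ ?_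
  · intro a ha a' ha' e b _
    simp only [ha, ha', dite_true, Option.some.injEq, Subtype.mk.injEq] at e
    rw [e]
  · rw [Fintype.card_option]
    have h1 : Fintype.card A = A.ncard := by
      rw [← Nat.card_eq_fintype_card]; rfl
    omega

/-- the whole set from a part and few-row cut -/
theorem W.cut {X Y : Set V} (hX : W G X k) (hY : W G Y k) (hR : R = X ∪ Y) (hd : Disjoint X Y)
    (h1 : Few G X Y n) : W G R (comb k n) := by
  rw [hR]; exact W.combine' hX hY hd h1

end Pool.Agent.GemWidth
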