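import Pool.Agent.GemWidth.Cls

set_option autoImplicit false
set_option maxHeartbeats 4000000

namespace Pool.Agent.GemWidth

open Set

variable {V : Type}

/-- two vertices with the same trace on a prism have the same neighbours (2P2-free, gem-free,
C5-free graphs) -/
theorem prism_core {G : SimpleGraph V} {R : Set V} (hG : Cls G) (h5 : NoC5 G)
    (h2 : ∀ a ∈ R, ∀ b ∈ R, ∀ c ∈ R, ∀ d ∈ R, G.Adj a b → G.Adj c d → ¬ G.Adj a c → ¬ G.Adj a d →
      ¬ G.Adj b c → ¬ G.Adj b d → False)
    {a1 a2 a3 b1 b2 b3 u w v : V} (ra1 : a1 ∈ R) (ra2 : a2 ∈ R) (ra3 : a3 ∈ R) (rb1 : b1 ∈ R) (rb2 : b2 ∈ R) (rb3 : b3 ∈ R) (ru : u ∈ R) (rw : w ∈ R) (rv : v ∈ R)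
    (ha1a2 : G.Adj a1 a2) (ha1a3 : G.Adj a1 a3) (ha1b1 : G.Adj a1 b1) (na1b2 : ¬ G.Adj a1 b2) (na1b3 : ¬ G.Adj a1 b3) (ha2a3 : G.Adj a2 a3) (na2b1 : ¬ G.Adj a2 b1) (ha2b2 : G.Adj a2 b2) (na2b3 : ¬ G.Adj a2 b3) (na3b1 : ¬ G.Adj a3 b1) (na3b2 : ¬ G.Adj a3 b2) (ha3b3 : G.Adj a3 b3) (hb1b2 : G.Adj b1 b2) (hb1b3 : G.Adj b1 b3) (hb2b3 : G.Adj b2 b3)
    (ea1 : G.Adj u a1 ↔ G.Adj w a1) (ea2 : G.Adj u a2 ↔ G.Adj w a2) (ea3 : G.Adj u a3 ↔ G.Adj w a3) (eb1 : G.Adj u b1 ↔ G.Adj w b1) (eb2 : G.Adj u b2 ↔ G.Adj w b2) (eb3 : G.Adj u b3 ↔ G.Adj w b3)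
    (huv : G.Adj u v) (nwv : ¬ G.Adj w v) : False := by
  by_cases hua1 : G.Adj u a1
  · by_cases hua2 : G.Adj u a2
    · by_cases hua3 : G.Adj u a3
      · by_cases hub1 : G.Adj u b1
        · by_cases hub2 : G.Adj u b2
          · exact hG.gem u a3 a1 b1 b2 hua3 hua1 hub1 hub2 ha1a3.symm ha1b1 hb1b2 na3b1 na3b2 na1b2
          · have nub2 : ¬ G.Adj u b2 := hub2
            by_cases hub3 : G.Adj u b3
            · exact hG.gem b1 a1 u b3 b2 ha1b1.symm hub1.symm hb1b3 hb1b2 hua1.symm hub3 hb2b3.symm na1b3 na1b2 nub2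
            · have nub3 : ¬ G.Adj u b3 := hub3
              exact h2 a1 ra1 u ru b2 rb2 b3 rb3 hua1.symm hb2b3 na1b2 na1b3 nub2 nub3
        · have nub1 : ¬ G.Adj u b1 := hub1
          by_cases hub2 : G.Adj u b2
          · by_cases hub3 : G.Adj u b3
            · exact hG.gem u a1 a2 b2 b3 hua1 hua2 hub2 hub3 ha1a2 ha2b2 hb2b3 na1b2 na1b3 na2b3
            · have nub3 : ¬ G.Adj u b3 := hub3
              exact h2 a2 ra2 u ru b1 rb1 b3 rb3 hua2.symm hb1b3 na2b1 na2b3 nub1 nub3
          · have nub2 : ¬ G.Adj u b2 := hub2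
            exact h2 a3 ra3 u ru b1 rb1 b2 rb2 hua3.symm hb1b2 na3b1 na3b2 nub1 nub2
      · have nua3 : ¬ G.Adj u a3 := hua3
        by_cases hub1 : G.Adj u b1
        · exact hG.gem a1 a3 a2 u b1 ha1a3 ha1a2 hua1.symm ha1b1 ha2a3.symm hua2.symm hub1 (nadj_symm nua3) na3b1 na2b1
        · have nub1 : ¬ G.Adj u b1 := hub1
          by_cases hub2 : G.Adj u b2
          · exact hG.gem a2 a3 a1 u b2 ha2a3 ha1a2.symm hua2.symm ha2b2 ha1a3.symm hua1.symm hub2 (nadj_symm nua3) na3b2 na1b2
          · have nub2 : ¬ G.Adj u b2 := hub2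
            by_cases hub3 : G.Adj u b3
            · by_cases hva1 : G.Adj v a1
              · by_cases hva2 : G.Adj v a2
                · by_cases hvb1 : G.Adj v b1
                  · exact hG.gem a1 b1 v a2 w ha1b1 hva1.symm ha1a2 (ea1.1 hua1).symm hvb1.symm hva2 (ea2.1 hua2).symm (nadj_symm na2b1) (nadj_symm (fun hh => nub1 (eb1.2 hh))) (nadj_symm nwv)
                  · have nvb1 : ¬ G.Adj v b1 := hvb1
                    by_cases hvb2 : G.Adj v b2
                    · exact hG.gem a2 b2 v a1 w ha2b2 hva2.symm ha1a2.symm (ea2.1 hua2).symm hvb2.symm hva1 (ea1.1 hua1).symm (nadj_symm na1b2) (nadj_symm (fun hh => nub2 (eb2.2 hh))) (nadj_symm nwv)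
                    · have nvb2 : ¬ G.Adj v b2 := hvb2
                      exact h2 b1 rb1 b2 rb2 u ru v rv hb1b2 huv (nadj_symm nub1) (nadj_symm nvb1) (nadj_symm nub2) (nadj_symm nvb2)
                · have nva2 : ¬ G.Adj v a2 := hva2
                  by_cases hva3 : G.Adj v a3
                  · exact hG.gem a1 w a2 a3 v (ea1.1 hua1).symm ha1a2 ha1a3 hva1.symm (ea2.1 hua2) ha2a3 hva3.symm (fun hh => nua3 (ea3.2 hh)) nwv (nadj_symm nva2)
                  · have nva3 : ¬ G.Adj v a3 := hva3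
                    exact hG.gem a1 a3 a2 u v ha1a3 ha1a2 hua1.symm hva1.symm ha2a3.symm hua2.symm huv (nadj_symm nua3) (nadj_symm nva3) (nadj_symm nva2)
              · have nva1 : ¬ G.Adj v a1 := hva1
                by_cases hvb2 : G.Adj v b2
                · exact h2 a1 ra1 w rw b2 rb2 v rv (ea1.1 hua1).symm hvb2.symm na1b2 (nadj_symm nva1) (fun hh => nub2 (eb2.2 hh)) nwv
                · have nvb2 : ¬ G.Adj v b2 := hvb2
                  by_cases hvb1 : G.Adj v b1
                  · by_cases hva2 : G.Adj v a2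
                    · by_cases hva3 : G.Adj v a3
                      · exact hG.gem a2 w a1 a3 v (ea2.1 hua2).symm ha1a2.symm ha2a3 hva2.symm (ea1.1 hua1) ha1a3 hva3.symm (fun hh => nua3 (ea3.2 hh)) nwv (nadj_symm nva1)
                      · have nva3 : ¬ G.Adj v a3 := hva3
                        exact hG.gem a2 a3 a1 u v ha2a3 ha1a2.symm hua2.symm hva2.symm ha1a3.symm hua1.symm huv (nadj_symm nua3) (nadj_symm nva3) (nadj_symm nva1)
                    · have nva2 : ¬ G.Adj v a2 := hva2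
                      exact h2 a2 ra2 w rw b1 rb1 v rv (ea2.1 hua2).symm hvb1.symm na2b1 (nadj_symm nva2) (fun hh => nub1 (eb1.2 hh)) nwv
                  · have nvb1 : ¬ G.Adj v b1 := hvb1
                    exact h2 b1 rb1 b2 rb2 u ru v rv hb1b2 huv (nadj_symm nub1) (nadj_symm nvb1) (nadj_symm nub2) (nadj_symm nvb2)
            · have nub3 : ¬ G.Adj u b3 := hub3
              exact h2 a1 ra1 u ru b2 rb2 b3 rb3 hua1.symm hb2b3 na1b2 na1b3 nub2 nub3
    · have nua2 : ¬ G.Adj u a2 := hua2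
      by_cases hua3 : G.Adj u a3
      · by_cases hub1 : G.Adj u b1
        · exact hG.gem a1 a2 a3 u b1 ha1a2 ha1a3 hua1.symm ha1b1 ha2a3 hua3.symm hub1 (nadj_symm nua2) na2b1 na3b1
        · have nub1 : ¬ G.Adj u b1 := hub1
          by_cases hub2 : G.Adj u b2
          · by_cases hub3 : G.Adj u b3
            · exact hG.gem u a1 a3 b3 b2 hua1 hua3 hub3 hub2 ha1a3 ha3b3 hb2b3.symm na1b3 na1b2 na3b2
            · have nub3 : ¬ G.Adj u b3 := hub3
              by_cases hva1 : G.Adj v a1
              · by_cases hva2 : G.Adj v a2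
                · by_cases hva3 : G.Adj v a3
                  · by_cases hvb1 : G.Adj v b1
                    · exact hG.gem a1 b1 v a3 w ha1b1 hva1.symm ha1a3 (ea1.1 hua1).symm hvb1.symm hva3 (ea3.1 hua3).symm (nadj_symm na3b1) (nadj_symm (fun hh => nub1 (eb1.2 hh))) (nadj_symm nwv)
                    · have nvb1 : ¬ G.Adj v b1 := hvb1
                      by_cases hvb3 : G.Adj v b3
                      · exact hG.gem a3 b3 v a1 w ha3b3 hva3.symm ha1a3.symm (ea3.1 hua3).symm hvb3.symm hva1 (ea1.1 hua1).symm (nadj_symm na1b3) (nadj_symm (fun hh => nub3 (eb3.2 hh))) (nadj_symm nwv)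
                      · have nvb3 : ¬ G.Adj v b3 := hvb3
                        exact h2 a2 ra2 v rv b1 rb1 b3 rb3 hva2.symm hb1b3 na2b1 na2b3 nvb1 nvb3
                  · have nva3 : ¬ G.Adj v a3 := hva3
                    exact hG.gem a1 w a3 a2 v (ea1.1 hua1).symm ha1a3 ha1a2 hva1.symm (ea3.1 hua3) ha2a3.symm hva2.symm (fun hh => nua2 (ea2.2 hh)) nwv (nadj_symm nva3)
                · have nva2 : ¬ G.Adj v a2 := hva2
                  by_cases hva3 : G.Adj v a3
                  · by_cases hvb1 : G.Adj v b1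
                    · exact hG.gem a1 a2 a3 v b1 ha1a2 ha1a3 hva1.symm ha1b1 ha2a3 hva3.symm hvb1 (nadj_symm nva2) na2b1 na3b1
                    · have nvb1 : ¬ G.Adj v b1 := hvb1
                      by_cases hvb3 : G.Adj v b3
                      · exact hG.gem a3 a2 a1 v b3 ha2a3.symm ha1a3.symm hva3.symm ha3b3 ha1a2.symm hva1.symm hvb3 (nadj_symm nva2) na2b3 na1b3
                      · have nvb3 : ¬ G.Adj v b3 := hvb3
                        exact h2 b1 rb1 b3 rb3 u ru v rv hb1b3 huv (nadj_symm nub1) (nadj_symm nvb1) (nadj_symm nub3) (nadj_symm nvb3)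
                  · have nva3 : ¬ G.Adj v a3 := hva3
                    exact hG.gem a1 a2 a3 u v ha1a2 ha1a3 hua1.symm hva1.symm ha2a3 hua3.symm huv (nadj_symm nua2) (nadj_symm nva2) (nadj_symm nva3)
              · have nva1 : ¬ G.Adj v a1 := hva1
                by_cases hvb3 : G.Adj v b3
                · exact h2 a1 ra1 w rw b3 rb3 v rv (ea1.1 hua1).symm hvb3.symm na1b3 (nadj_symm nva1) (fun hh => nub3 (eb3.2 hh)) nwv
                · have nvb3 : ¬ G.Adj v b3 := hvb3
                  by_cases hvb1 : G.Adj v b1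
                  · by_cases hva3 : G.Adj v a3
                    · by_cases hva2 : G.Adj v a2
                      · exact hG.gem a3 w a1 a2 v (ea3.1 hua3).symm ha1a3.symm ha2a3.symm hva3.symm (ea1.1 hua1) ha1a2 hva2.symm (fun hh => nua2 (ea2.2 hh)) nwv (nadj_symm nva1)
                      · have nva2 : ¬ G.Adj v a2 := hva2
                        exact hG.gem a3 a2 a1 u v ha2a3.symm ha1a3.symm hua3.symm hva3.symm ha1a2.symm hua1.symm huv (nadj_symm nua2) (nadj_symm nva2) (nadj_symm nva1)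
                    · have nva3 : ¬ G.Adj v a3 := hva3
                      exact h2 a3 ra3 w rw b1 rb1 v rv (ea3.1 hua3).symm hvb1.symm na3b1 (nadj_symm nva3) (fun hh => nub1 (eb1.2 hh)) nwv
                  · have nvb1 : ¬ G.Adj v b1 := hvb1
                    exact h2 b1 rb1 b3 rb3 u ru v rv hb1b3 huv (nadj_symm nub1) (nadj_symm nvb1) (nadj_symm nub3) (nadj_symm nvb3)
          · have nub2 : ¬ G.Adj u b2 := hub2
            exact h2 a3 ra3 u ru b1 rb1 b2 rb2 hua3.symm hb1b2 na3b1 na3b2 nub1 nub2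
      · have nua3 : ¬ G.Adj u a3 := hua3
        by_cases hub1 : G.Adj u b1
        · exact h2 a2 ra2 a3 ra3 b1 rb1 u ru ha2a3 hub1.symm na2b1 (nadj_symm nua2) na3b1 (nadj_symm nua3)
        · have nub1 : ¬ G.Adj u b1 := hub1
          by_cases hub2 : G.Adj u b2
          · by_cases hub3 : G.Adj u b3
            · by_cases hva1 : G.Adj v a1
              · by_cases hva2 : G.Adj v a2
                · by_cases hvb3 : G.Adj v b3
                  · exact hG.gem v a2 a1 u b3 hva2 hva1 huv.symm hvb3 ha1a2.symm hua1.symm hub3 (nadj_symm nua2) na2b3 na1b3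
                  · have nvb3 : ¬ G.Adj v b3 := hvb3
                    exact h2 a2 ra2 v rv b3 rb3 w rw hva2.symm (eb3.1 hub3).symm na2b3 (nadj_symm (fun hh => nua2 (ea2.2 hh))) nvb3 (nadj_symm nwv)
                · have nva2 : ¬ G.Adj v a2 := hva2
                  by_cases hva3 : G.Adj v a3
                  · exact hG.gem a1 a2 a3 v u ha1a2 ha1a3 hva1.symm hua1.symm ha2a3 hva3.symm huv.symm (nadj_symm nva2) (nadj_symm nua2) (nadj_symm nua3)
                  · have nva3 : ¬ G.Adj v a3 := hva3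
                    exact h2 a2 ra2 a3 ra3 u ru v rv ha2a3 huv (nadj_symm nua2) (nadj_symm nva2) (nadj_symm nua3) (nadj_symm nva3)
              · have nva1 : ¬ G.Adj v a1 := hva1
                by_cases hva2 : G.Adj v a2
                · by_cases hvb3 : G.Adj v b3
                  · exact h5 a1 a2 v b3 w ha1a2 hva2.symm hvb3 (eb3.1 hub3).symm (ea1.1 hua1) (nadj_symm nva1) na1b3 na2b3 (nadj_symm (fun hh => nua2 (ea2.2 hh))) (nadj_symm nwv)
                  · have nvb3 : ¬ G.Adj v b3 := hvb3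
                    exact h2 a2 ra2 v rv b3 rb3 w rw hva2.symm (eb3.1 hub3).symm na2b3 (nadj_symm (fun hh => nua2 (ea2.2 hh))) nvb3 (nadj_symm nwv)
                · have nva2 : ¬ G.Adj v a2 := hva2
                  by_cases hva3 : G.Adj v a3
                  · by_cases hvb2 : G.Adj v b2
                    · exact h5 a1 a3 v b2 w ha1a3 hva3.symm hvb2 (eb2.1 hub2).symm (ea1.1 hua1) (nadj_symm nva1) na1b2 na3b2 (nadj_symm (fun hh => nua3 (ea3.2 hh))) (nadj_symm nwv)
                    · have nvb2 : ¬ G.Adj v b2 := hvb2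
                      exact h2 a3 ra3 v rv b2 rb2 w rw hva3.symm (eb2.1 hub2).symm na3b2 (nadj_symm (fun hh => nua3 (ea3.2 hh))) nvb2 (nadj_symm nwv)
                  · have nva3 : ¬ G.Adj v a3 := hva3
                    exact h2 a2 ra2 a3 ra3 u ru v rv ha2a3 huv (nadj_symm nua2) (nadj_symm nva2) (nadj_symm nua3) (nadj_symm nva3)
            · have nub3 : ¬ G.Adj u b3 := hub3
              exact h5 a1 a3 b3 b2 u ha1a3 ha3b3 hb2b3.symm hub2.symm hua1 na1b3 na1b2 na3b2 (nadj_symm nua3) (nadj_symm nub3)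
          · have nub2 : ¬ G.Adj u b2 := hub2
            by_cases hub3 : G.Adj u b3
            · exact h5 a1 a2 b2 b3 u ha1a2 ha2b2 hb2b3 hub3.symm hua1 na1b2 na1b3 na2b3 (nadj_symm nua2) (nadj_symm nub2)
            · have nub3 : ¬ G.Adj u b3 := hub3
              exact h2 a1 ra1 u ru b2 rb2 b3 rb3 hua1.symm hb2b3 na1b2 na1b3 nub2 nub3
  · have nua1 : ¬ G.Adj u a1 := hua1
    by_cases hua2 : G.Adj u a2
    · by_cases hua3 : G.Adj u a3
      · by_cases hub2 : G.Adj u b2
        · exact hG.gem a2 a1 a3 u b2 ha1a2.symm ha2a3 hua2.symm ha2b2 ha1a3 hua3.symm hub2 (nadj_symm nua1) na1b2 na3b2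
        · have nub2 : ¬ G.Adj u b2 := hub2
          by_cases hub1 : G.Adj u b1
          · by_cases hub3 : G.Adj u b3
            · exact hG.gem a3 a1 a2 u b3 ha1a3.symm ha2a3.symm hua3.symm ha3b3 ha1a2 hua2.symm hub3 (nadj_symm nua1) na1b3 na2b3
            · have nub3 : ¬ G.Adj u b3 := hub3
              by_cases hva1 : G.Adj v a1
              · by_cases hva2 : G.Adj v a2
                · by_cases hva3 : G.Adj v a3
                  · by_cases hvb2 : G.Adj v b2
                    · exact hG.gem a2 b2 v a3 w ha2b2 hva2.symm ha2a3 (ea2.1 hua2).symm hvb2.symm hva3 (ea3.1 hua3).symm (nadj_symm na3b2) (nadj_symm (fun hh => nub2 (eb2.2 hh))) (nadj_symm nwv)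
                    · have nvb2 : ¬ G.Adj v b2 := hvb2
                      by_cases hvb3 : G.Adj v b3
                      · exact hG.gem a3 b3 v a2 w ha3b3 hva3.symm ha2a3.symm (ea3.1 hua3).symm hvb3.symm hva2 (ea2.1 hua2).symm (nadj_symm na2b3) (nadj_symm (fun hh => nub3 (eb3.2 hh))) (nadj_symm nwv)
                      · have nvb3 : ¬ G.Adj v b3 := hvb3
                        exact h2 a1 ra1 v rv b2 rb2 b3 rb3 hva1.symm hb2b3 na1b2 na1b3 nvb2 nvb3
                  · have nva3 : ¬ G.Adj v a3 := hva3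
                    exact hG.gem a2 w a3 a1 v (ea2.1 hua2).symm ha2a3 ha1a2.symm hva2.symm (ea3.1 hua3) ha1a3.symm hva1.symm (fun hh => nua1 (ea1.2 hh)) nwv (nadj_symm nva3)
                · have nva2 : ¬ G.Adj v a2 := hva2
                  by_cases hva3 : G.Adj v a3
                  · exact hG.gem a3 w a2 a1 v (ea3.1 hua3).symm ha2a3.symm ha1a3.symm hva3.symm (ea2.1 hua2) ha1a2.symm hva1.symm (fun hh => nua1 (ea1.2 hh)) nwv (nadj_symm nva2)
                  · have nva3 : ¬ G.Adj v a3 := hva3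
                    by_cases hvb1 : G.Adj v b1
                    · exact h2 a2 ra2 a3 ra3 b1 rb1 v rv ha2a3 hvb1.symm na2b1 (nadj_symm nva2) na3b1 (nadj_symm nva3)
                    · have nvb1 : ¬ G.Adj v b1 := hvb1
                      by_cases hvb2 : G.Adj v b2
                      · exact h2 a3 ra3 w rw b2 rb2 v rv (ea3.1 hua3).symm hvb2.symm na3b2 (nadj_symm nva3) (fun hh => nub2 (eb2.2 hh)) nwv
                      · have nvb2 : ¬ G.Adj v b2 := hvb2
                        by_cases hvb3 : G.Adj v b3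
                        · exact h2 a2 ra2 w rw b3 rb3 v rv (ea2.1 hua2).symm hvb3.symm na2b3 (nadj_symm nva2) (fun hh => nub3 (eb3.2 hh)) nwv
                        · have nvb3 : ¬ G.Adj v b3 := hvb3
                          exact h2 a1 ra1 v rv b2 rb2 b3 rb3 hva1.symm hb2b3 na1b2 na1b3 nvb2 nvb3
              · have nva1 : ¬ G.Adj v a1 := hva1
                by_cases hva2 : G.Adj v a2
                · by_cases hva3 : G.Adj v a3
                  · by_cases hvb2 : G.Adj v b2
                    · exact hG.gem a2 a1 a3 v b2 ha1a2.symm ha2a3 hva2.symm ha2b2 ha1a3 hva3.symm hvb2 (nadj_symm nva1) na1b2 na3b2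
                    · have nvb2 : ¬ G.Adj v b2 := hvb2
                      by_cases hvb3 : G.Adj v b3
                      · exact hG.gem a3 a1 a2 v b3 ha1a3.symm ha2a3.symm hva3.symm ha3b3 ha1a2 hva2.symm hvb3 (nadj_symm nva1) na1b3 na2b3
                      · have nvb3 : ¬ G.Adj v b3 := hvb3
                        exact h2 b2 rb2 b3 rb3 u ru v rv hb2b3 huv (nadj_symm nub2) (nadj_symm nvb2) (nadj_symm nub3) (nadj_symm nvb3)
                  · have nva3 : ¬ G.Adj v a3 := hva3
                    exact hG.gem a2 a1 a3 u v ha1a2.symm ha2a3 hua2.symm hva2.symm ha1a3 hua3.symm huv (nadj_symm nua1) (nadj_symm nva1) (nadj_symm nva3)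
                · have nva2 : ¬ G.Adj v a2 := hva2
                  by_cases hva3 : G.Adj v a3
                  · exact hG.gem a3 a1 a2 u v ha1a3.symm ha2a3.symm hua3.symm hva3.symm ha1a2 hua2.symm huv (nadj_symm nua1) (nadj_symm nva1) (nadj_symm nva2)
                  · have nva3 : ¬ G.Adj v a3 := hva3
                    by_cases hvb1 : G.Adj v b1
                    · exact h2 a2 ra2 a3 ra3 b1 rb1 v rv ha2a3 hvb1.symm na2b1 (nadj_symm nva2) na3b1 (nadj_symm nva3)
                    · have nvb1 : ¬ G.Adj v b1 := hvb1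
                      by_cases hvb2 : G.Adj v b2
                      · exact h2 a1 ra1 a3 ra3 b2 rb2 v rv ha1a3 hvb2.symm na1b2 (nadj_symm nva1) na3b2 (nadj_symm nva3)
                      · have nvb2 : ¬ G.Adj v b2 := hvb2
                        by_cases hvb3 : G.Adj v b3
                        · exact h2 a1 ra1 a2 ra2 b3 rb3 v rv ha1a2 hvb3.symm na1b3 (nadj_symm nva1) na2b3 (nadj_symm nva2)
                        · have nvb3 : ¬ G.Adj v b3 := hvb3
                          exact h2 b2 rb2 b3 rb3 u ru v rv hb2b3 huv (nadj_symm nub2) (nadj_symm nvb2) (nadj_symm nub3) (nadj_symm nvb3)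
          · have nub1 : ¬ G.Adj u b1 := hub1
            exact h2 a3 ra3 u ru b1 rb1 b2 rb2 hua3.symm hb1b2 na3b1 na3b2 nub1 nub2
      · have nua3 : ¬ G.Adj u a3 := hua3
        by_cases hub2 : G.Adj u b2
        · exact h2 a1 ra1 a3 ra3 b2 rb2 u ru ha1a3 hub2.symm na1b2 (nadj_symm nua1) na3b2 (nadj_symm nua3)
        · have nub2 : ¬ G.Adj u b2 := hub2
          by_cases hub1 : G.Adj u b1
          · by_cases hub3 : G.Adj u b3
            · by_cases hva1 : G.Adj v a1
              · by_cases hvb3 : G.Adj v b3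
                · by_cases hva2 : G.Adj v a2
                  · exact hG.gem v a1 a2 u b3 hva1 hva2 huv.symm hvb3 ha1a2 hua2.symm hub3 (nadj_symm nua1) na1b3 na2b3
                  · have nva2 : ¬ G.Adj v a2 := hva2
                    exact h5 a1 a2 w b3 v ha1a2 (ea2.1 hua2).symm (eb3.1 hub3) hvb3.symm hva1 (nadj_symm (fun hh => nua1 (ea1.2 hh))) na1b3 na2b3 (nadj_symm nva2) nwv
                · have nvb3 : ¬ G.Adj v b3 := hvb3
                  exact h2 a1 ra1 v rv b3 rb3 w rw hva1.symm (eb3.1 hub3).symm na1b3 (nadj_symm (fun hh => nua1 (ea1.2 hh))) nvb3 (nadj_symm nwv)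
              · have nva1 : ¬ G.Adj v a1 := hva1
                by_cases hva3 : G.Adj v a3
                · by_cases hva2 : G.Adj v a2
                  · exact hG.gem a2 a1 a3 v u ha1a2.symm ha2a3 hva2.symm hua2.symm ha1a3 hva3.symm huv.symm (nadj_symm nva1) (nadj_symm nua1) (nadj_symm nua3)
                  · have nva2 : ¬ G.Adj v a2 := hva2
                    by_cases hvb1 : G.Adj v b1
                    · exact h5 a2 a3 v b1 w ha2a3 hva3.symm hvb1 (eb1.1 hub1).symm (ea2.1 hua2) (nadj_symm nva2) na2b1 na3b1 (nadj_symm (fun hh => nua3 (ea3.2 hh))) (nadj_symm nwv)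
                    · have nvb1 : ¬ G.Adj v b1 := hvb1
                      exact h2 a3 ra3 v rv b1 rb1 w rw hva3.symm (eb1.1 hub1).symm na3b1 (nadj_symm (fun hh => nua3 (ea3.2 hh))) nvb1 (nadj_symm nwv)
                · have nva3 : ¬ G.Adj v a3 := hva3
                  exact h2 a1 ra1 a3 ra3 u ru v rv ha1a3 huv (nadj_symm nua1) (nadj_symm nva1) (nadj_symm nua3) (nadj_symm nva3)
            · have nub3 : ¬ G.Adj u b3 := hub3
              exact h5 a2 a3 b3 b1 u ha2a3 ha3b3 hb1b3.symm hub1.symm hua2 na2b3 na2b1 na3b1 (nadj_symm nua3) (nadj_symm nub3)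
          · have nub1 : ¬ G.Adj u b1 := hub1
            by_cases hub3 : G.Adj u b3
            · exact h5 a1 a2 u b3 b1 ha1a2 hua2.symm hub3 hb1b3.symm ha1b1.symm (nadj_symm nua1) na1b3 na2b3 na2b1 nub1
            · have nub3 : ¬ G.Adj u b3 := hub3
              exact h2 a2 ra2 u ru b1 rb1 b3 rb3 hua2.symm hb1b3 na2b1 na2b3 nub1 nub3
    · have nua2 : ¬ G.Adj u a2 := hua2
      by_cases hub3 : G.Adj u b3
      · exact h2 a1 ra1 a2 ra2 b3 rb3 u ru ha1a2 hub3.symm na1b3 (nadj_symm nua1) na2b3 (nadj_symm nua2)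
      · have nub3 : ¬ G.Adj u b3 := hub3
        by_cases hua3 : G.Adj u a3
        · by_cases hub1 : G.Adj u b1
          · by_cases hub2 : G.Adj u b2
            · by_cases hva1 : G.Adj v a1
              · by_cases hvb2 : G.Adj v b2
                · by_cases hva3 : G.Adj v a3
                  · exact hG.gem v a1 a3 u b2 hva1 hva3 huv.symm hvb2 ha1a3 hua3.symm hub2 (nadj_symm nua1) na1b2 na3b2
                  · have nva3 : ¬ G.Adj v a3 := hva3
                    exact h5 a1 a3 w b2 v ha1a3 (ea3.1 hua3).symm (eb2.1 hub2) hvb2.symm hva1 (nadj_symm (fun hh => nua1 (ea1.2 hh))) na1b2 na3b2 (nadj_symm nva3) nwv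
                · have nvb2 : ¬ G.Adj v b2 := hvb2
                  exact h2 a1 ra1 v rv b2 rb2 w rw hva1.symm (eb2.1 hub2).symm na1b2 (nadj_symm (fun hh => nua1 (ea1.2 hh))) nvb2 (nadj_symm nwv)
              · have nva1 : ¬ G.Adj v a1 := hva1
                by_cases hva2 : G.Adj v a2
                · by_cases hva3 : G.Adj v a3
                  · exact hG.gem a3 a1 a2 v u ha1a3.symm ha2a3.symm hva3.symm hua3.symm ha1a2 hva2.symm huv.symm (nadj_symm nva1) (nadj_symm nua1) (nadj_symm nua2)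
                  · have nva3 : ¬ G.Adj v a3 := hva3
                    by_cases hvb1 : G.Adj v b1
                    · exact h5 a2 a3 w b1 v ha2a3 (ea3.1 hua3).symm (eb1.1 hub1) hvb1.symm hva2 (nadj_symm (fun hh => nua2 (ea2.2 hh))) na2b1 na3b1 (nadj_symm nva3) nwv
                    · have nvb1 : ¬ G.Adj v b1 := hvb1
                      exact h2 a2 ra2 v rv b1 rb1 w rw hva2.symm (eb1.1 hub1).symm na2b1 (nadj_symm (fun hh => nua2 (ea2.2 hh))) nvb1 (nadj_symm nwv)
                · have nva2 : ¬ G.Adj v a2 := hva2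
                  exact h2 a1 ra1 a2 ra2 u ru v rv ha1a2 huv (nadj_symm nua1) (nadj_symm nva1) (nadj_symm nua2) (nadj_symm nva2)
            · have nub2 : ¬ G.Adj u b2 := hub2
              exact h5 a2 a3 u b1 b2 ha2a3 hua3.symm hub1 hb1b2 ha2b2.symm (nadj_symm nua2) na2b1 na3b1 na3b2 nub2
          · have nub1 : ¬ G.Adj u b1 := hub1
            by_cases hub2 : G.Adj u b2
            · exact h5 a1 a3 u b2 b1 ha1a3 hua3.symm hub2 hb1b2.symm ha1b1.symm (nadj_symm nua1) na1b2 na3b2 na3b1 nub1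
            · have nub2 : ¬ G.Adj u b2 := hub2
              exact h2 a3 ra3 u ru b1 rb1 b2 rb2 hua3.symm hb1b2 na3b1 na3b2 nub1 nub2
        · have nua3 : ¬ G.Adj u a3 := hua3
          by_cases hub1 : G.Adj u b1
          · exact h2 a2 ra2 a3 ra3 b1 rb1 u ru ha2a3 hub1.symm na2b1 (nadj_symm nua2) na3b1 (nadj_symm nua3)
          · have nub1 : ¬ G.Adj u b1 := hub1
            by_cases hub2 : G.Adj u b2
            · exact h2 a1 ra1 a3 ra3 b2 rb2 u ru ha1a3 hub2.symm na1b2 (nadj_symm nua1) na3b2 (nadj_symm nua3)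
            · have nub2 : ¬ G.Adj u b2 := hub2
              by_cases hva1 : G.Adj v a1
              · by_cases hva2 : G.Adj v a2
                · by_cases hva3 : G.Adj v a3
                  · by_cases hvb1 : G.Adj v b1
                    · by_cases hvb2 : G.Adj v b2
                      · exact hG.gem v a3 a1 b1 b2 hva3 hva1 hvb1 hvb2 ha1a3.symm ha1b1 hb1b2 na3b1 na3b2 na1b2
                      · have nvb2 : ¬ G.Adj v b2 := hvb2
                        by_cases hvb3 : G.Adj v b3
                        · exact hG.gem b1 a1 v b3 b2 ha1b1.symm hvb1.symm hb1b3 hb1b2 hva1.symm hvb3 hb2b3.symm na1b3 na1b2 nvb2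
                        · have nvb3 : ¬ G.Adj v b3 := hvb3
                          exact h2 a1 ra1 v rv b2 rb2 b3 rb3 hva1.symm hb2b3 na1b2 na1b3 nvb2 nvb3
                    · have nvb1 : ¬ G.Adj v b1 := hvb1
                      by_cases hvb2 : G.Adj v b2
                      · by_cases hvb3 : G.Adj v b3
                        · exact hG.gem v a1 a2 b2 b3 hva1 hva2 hvb2 hvb3 ha1a2 ha2b2 hb2b3 na1b2 na1b3 na2b3
                        · have nvb3 : ¬ G.Adj v b3 := hvb3
                          exact h2 a2 ra2 v rv b1 rb1 b3 rb3 hva2.symm hb1b3 na2b1 na2b3 nvb1 nvb3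
                      · have nvb2 : ¬ G.Adj v b2 := hvb2
                        exact h2 a3 ra3 v rv b1 rb1 b2 rb2 hva3.symm hb1b2 na3b1 na3b2 nvb1 nvb2
                  · have nva3 : ¬ G.Adj v a3 := hva3
                    by_cases hvb1 : G.Adj v b1
                    · exact hG.gem a1 a3 a2 v b1 ha1a3 ha1a2 hva1.symm ha1b1 ha2a3.symm hva2.symm hvb1 (nadj_symm nva3) na3b1 na2b1
                    · have nvb1 : ¬ G.Adj v b1 := hvb1
                      by_cases hvb2 : G.Adj v b2
                      · exact hG.gem a2 a3 a1 v b2 ha2a3 ha1a2.symm hva2.symm ha2b2 ha1a3.symm hva1.symm hvb2 (nadj_symm nva3) na3b2 na1b2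
                      · have nvb2 : ¬ G.Adj v b2 := hvb2
                        exact h2 b1 rb1 b2 rb2 u ru v rv hb1b2 huv (nadj_symm nub1) (nadj_symm nvb1) (nadj_symm nub2) (nadj_symm nvb2)
                · have nva2 : ¬ G.Adj v a2 := hva2
                  by_cases hva3 : G.Adj v a3
                  · by_cases hvb1 : G.Adj v b1
                    · exact hG.gem a1 a2 a3 v b1 ha1a2 ha1a3 hva1.symm ha1b1 ha2a3 hva3.symm hvb1 (nadj_symm nva2) na2b1 na3b1
                    · have nvb1 : ¬ G.Adj v b1 := hvb1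
                      by_cases hvb3 : G.Adj v b3
                      · exact hG.gem a3 a2 a1 v b3 ha2a3.symm ha1a3.symm hva3.symm ha3b3 ha1a2.symm hva1.symm hvb3 (nadj_symm nva2) na2b3 na1b3
                      · have nvb3 : ¬ G.Adj v b3 := hvb3
                        exact h2 b1 rb1 b3 rb3 u ru v rv hb1b3 huv (nadj_symm nub1) (nadj_symm nvb1) (nadj_symm nub3) (nadj_symm nvb3)
                  · have nva3 : ¬ G.Adj v a3 := hva3
                    exact h2 a2 ra2 a3 ra3 u ru v rv ha2a3 huv (nadj_symm nua2) (nadj_symm nva2) (nadj_symm nua3) (nadj_symm nva3)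
              · have nva1 : ¬ G.Adj v a1 := hva1
                by_cases hva2 : G.Adj v a2
                · by_cases hva3 : G.Adj v a3
                  · by_cases hvb1 : G.Adj v b1
                    · by_cases hvb2 : G.Adj v b2
                      · exact hG.gem a2 a1 a3 v b2 ha1a2.symm ha2a3 hva2.symm ha2b2 ha1a3 hva3.symm hvb2 (nadj_symm nva1) na1b2 na3b2
                      · have nvb2 : ¬ G.Adj v b2 := hvb2
                        by_cases hvb3 : G.Adj v b3
                        · exact hG.gem a3 a1 a2 v b3 ha1a3.symm ha2a3.symm hva3.symm ha3b3 ha1a2 hva2.symm hvb3 (nadj_symm nva1) na1b3 na2b3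
                        · have nvb3 : ¬ G.Adj v b3 := hvb3
                          exact h2 b2 rb2 b3 rb3 u ru v rv hb2b3 huv (nadj_symm nub2) (nadj_symm nvb2) (nadj_symm nub3) (nadj_symm nvb3)
                    · have nvb1 : ¬ G.Adj v b1 := hvb1
                      exact h2 a1 ra1 b1 rb1 u ru v rv ha1b1 huv (nadj_symm nua1) (nadj_symm nva1) (nadj_symm nub1) (nadj_symm nvb1)
                  · have nva3 : ¬ G.Adj v a3 := hva3
                    exact h2 a1 ra1 a3 ra3 u ru v rv ha1a3 huv (nadj_symm nua1) (nadj_symm nva1) (nadj_symm nua3) (nadj_symm nva3)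
                · have nva2 : ¬ G.Adj v a2 := hva2
                  exact h2 a1 ra1 a2 ra2 u ru v rv ha1a2 huv (nadj_symm nua1) (nadj_symm nva1) (nadj_symm nua2) (nadj_symm nva2)

/-- a 2P2-free graph (in the class, C5-free) which contains a prism has bounded width -/
theorem prism_bound [Finite V] {G : SimpleGraph V} {R : Set V} (hG : Cls G) (h5 : NoC5 G)
    (h2 : ∀ a ∈ R, ∀ b ∈ R, ∀ c ∈ R, ∀ d ∈ R, G.Adj a b → G.Adj c d → ¬ G.Adj a c → ¬ G.Adj a d →
      ¬ G.Adj b c → ¬ G.Adj b d → False)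
    {a1 a2 a3 b1 b2 b3 : V} (ra1 : a1 ∈ R) (ra2 : a2 ∈ R) (ra3 : a3 ∈ R) (rb1 : b1 ∈ R)
    (rb2 : b2 ∈ R) (rb3 : b3 ∈ R)
    (ha1a2 : G.Adj a1 a2) (ha1a3 : G.Adj a1 a3) (ha2a3 : G.Adj a2 a3)
    (hb1b2 : G.Adj b1 b2) (hb1b3 : G.Adj b1 b3) (hb2b3 : G.Adj b2 b3)
    (ha1b1 : G.Adj a1 b1) (ha2b2 : G.Adj a2 b2) (ha3b3 : G.Adj a3 b3)
    (na1b2 : ¬ G.Adj a1 b2) (na1b3 : ¬ G.Adj a1 b3) (na2b1 : ¬ G.Adj a2 b1)
    (na2b3 : ¬ G.Adj a2 b3) (na3b1 : ¬ G.Adj a3 b1) (na3b2 : ¬ G.Adj a3 b2) :
    W G R (2 * 2 ^ 6) := by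
  classical
  let P : Fin 6 → V := ![a1, a2, a3, b1, b2, b3]
  let c : V → (Fin 6 → Bool) := fun v i => decide (G.Adj v (P i))
  have hcard : Fintype.card (Fin 6 → Bool) = 2 ^ 6 := by simp
  refine W.of_classes (m := 2 ^ 6)
    (fun v => Fin.cast hcard (Fintype.equivFin (Fin 6 → Bool) (c v))) ?_
  intro u hu w hw v hv huv hwv e
  have e1 : c u = c w := (Fintype.equivFin _).injective (Fin.cast_injective hcard e)
  have e2 : ∀ i, (G.Adj u (P i) ↔ G.Adj w (P i)) := by
    intro i
    have := congrFun e1 i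
    simpa [c] using this
  constructor
  · intro h
    by_contra hn
    exact prism_core hG h5 h2 ra1 ra2 ra3 rb1 rb2 rb3 hu hw hv ha1a2 ha1a3 ha1b1 na1b2 na1b3 ha2a3
      na2b1 ha2b2 na2b3 na3b1 na3b2 ha3b3 hb1b2 hb1b3 hb2b3 (e2 0) (e2 1) (e2 2) (e2 3) (e2 4)
      (e2 5) h hn
  · intro h
    by_contra hn
    exact prism_core hG h5 h2 ra1 ra2 ra3 rb1 rb2 rb3 hw hu hv ha1a2 ha1a3 ha1b1 na1b2 na1b3 ha2a3
      na2b1 ha2b2 na2b3 na3b1 na3b2 ha3b3 hb1b2 hb1b3 hb2b3 (e2 0).symm (e2 1).symm (e2 2).symm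
      (e2 3).symm (e2 4).symm (e2 5).symm h hn

end Pool.Agent.GemWidth
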