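import Pool.Agent.GemWidth.Ops2
import Pool.Agent.GemWidth.Laminar

set_option autoImplicit false

namespace Pool.Agent.GemWidth

open Set

variable {V : Type*} {G : SimpleGraph V}

/-- `z` has neighbours in two components of `U` -/
def Big (G : SimpleGraph V) (U : Set V) (z : V) : Prop :=
  ∃ p ∈ U, ∃ p' ∈ U, G.Adj z p ∧ G.Adj z p' ∧ p ≠ p' ∧ ¬ G.Adj p p'

theorem Big.mono {U U' : Set V} {z : V} (h : Big G U' z) (hU : U' ⊆ U) : Big G U z := by
  obtain ⟨p, hp, p', hp', h⟩ := h
  exact ⟨p, hU hp, p', hU hp', h⟩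

/-- the setting of the cluster lemma with property P -/
structure PSet (G : SimpleGraph V) (U Z : Set V) : Prop where
  cls : Cls G
  disj : Disjoint U Z
  clus : P3Free G U
  ind : Indep G Z
  hit : ∀ z ∈ Z, Big G U z → ∀ u ∈ U, ∀ u' ∈ U, G.Adj u u' → G.Adj z u ∨ G.Adj z u'

theorem PSet.mono {U Z U' Z' : Set V} (h : PSet G U Z) (hU : U' ⊆ U) (hZ : Z' ⊆ Z) :
    PSet G U' Z' where
  cls := h.cls
  disj := h.disj.mono hU hZ
  clus := h.clus.mono hU
  ind := h.ind.mono hZ
  hit := fun z hz hb u hu u' hu' huu => h.hit z (hZ hz) (hb.mono hU) u (hU hu) u' (hU hu') huu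

/-- component of `u` in the cluster `U` -/
def cmp (G : SimpleGraph V) (U : Set V) (u : V) : Set V := {v | v ∈ U ∧ (v = u ∨ G.Adj v u)}

theorem cmp_self {U : Set V} {u : V} (hu : u ∈ U) : u ∈ cmp G U u := ⟨hu, Or.inl rfl⟩

theorem cmp_eq_of_adj {U : Set V} (hU : P3Free G U) {u v : V} (hu : u ∈ U) (hv : v ∈ U)
    (h : G.Adj u v) : cmp G U u = cmp G U v := by
  ext w; constructor
  · rintro ⟨hw, rfl | hwu⟩
    · exact ⟨hw, Or.inr h⟩
    · refine ⟨hw, ?_⟩
      by_cases hwv : w = v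
      · exact Or.inl hwv
      · exact Or.inr (hU w hw u hu v hv hwu h hwv)
  · rintro ⟨hw, rfl | hwv⟩
    · exact ⟨hw, Or.inr h.symm⟩
    · refine ⟨hw, ?_⟩
      by_cases hwu : w = u
      · exact Or.inl hwu
      · exact Or.inr (hU w hw v hv u hu hwv h.symm hwu)

theorem cmp_eq_of_mem {U : Set V} (hU : P3Free G U) {u v : V} (hu : u ∈ U)
    (h : v ∈ cmp G U u) : cmp G U v = cmp G U u := by
  rcases h with ⟨hv, rfl | hvu⟩
  · rfl
  · exact cmp_eq_of_adj hU hv hu hvu

open Classical in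
/-- a vertex of the set `C` satisfying `bad` if possible, otherwise any vertex of `C` -/
noncomputable def pick (bad : V → Prop) (C : Set V) (u : V) : V :=
  if h : ∃ r ∈ C, bad r then h.choose else if h' : ∃ r, r ∈ C then h'.choose else u

theorem pick_mem {bad : V → Prop} {C : Set V} {u : V} (hu : u ∈ C) : pick bad C u ∈ C := by
  unfold pick
  by_cases h : ∃ r ∈ C, bad r
  · rw [dif_pos h]; exact h.choose_spec.1
  · rw [dif_neg h]
    have h' : ∃ r, r ∈ C := ⟨u, hu⟩
    rw [dif_pos h']; exact h'.choose_spec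

theorem pick_bad {bad : V → Prop} {C : Set V} {u : V} (h : ∃ r ∈ C, bad r) :
    bad (pick bad C u) := by
  unfold pick
  rw [dif_pos h]; exact h.choose_spec.2

theorem pick_congr {bad : V → Prop} {C : Set V} {u v w : V} (hw : w ∈ C) :
    pick bad C u = pick bad C v := by
  unfold pick
  have h' : ∃ r, r ∈ C := ⟨w, hw⟩
  by_cases h : ∃ r ∈ C, bad r
  · rw [dif_pos h, dif_pos h]
  · rw [dif_neg h, dif_neg h, dif_pos h', dif_pos h']

/-- nested-or-swap rule from the forbidden subgraph -/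
theorem Cls.R2 (hG : Cls G) {a b z1 z2 z : V} (hab : ¬ G.Adj a b)
    (h12 : ¬ G.Adj z1 z2) (h1 : ¬ G.Adj z1 z) (h2 : ¬ G.Adj z2 z)
    (a1 : G.Adj a z1) (b1 : ¬ G.Adj b z1) (a2 : G.Adj a z2) (b2 : ¬ G.Adj b z2)
    (bz : G.Adj b z) (az : ¬ G.Adj a z) : z1 = z2 := by
  by_contra hne
  exact hG.p23 b z z1 a z2 bz a1.symm a2 hne h12 b1 (nadj_symm hab) b2 (nadj_symm h1)
    (nadj_symm az) (nadj_symm h2)

/-- the bound for the case without conflicts -/
def kP0 : ℕ := (kFam + 1) * 16 + (kLam + 1) * 16 + (kLam + 1 + 2 ^ 16)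

theorem PSet.noConflict [Finite V] {U Z : Set V} (h : PSet G U Z)
    (hnc : ∀ a ∈ U, ∀ b ∈ U, G.Adj a b → (∀ z ∈ Z, Big G U z → G.Adj z a) ∨
      (∀ z ∈ Z, Big G U z → G.Adj z b)) : W G (U ∪ Z) kP0 := by
  classical
  obtain ⟨hG, hd, hU, hZ, hP⟩ := h
  set bad : V → Prop := fun r => ∃ z ∈ Z, Big G U z ∧ ¬ G.Adj z r with hbad
  set r : V → V := fun u => pick bad (cmp G U u) u with hr
  have rmem : ∀ u ∈ U, r u ∈ cmp G U u := fun u hu => pick_mem (cmp_self hu)
  have rU : ∀ u ∈ U, r u ∈ U := fun u hu => (rmem u hu).1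
  have req : ∀ u ∈ U, ∀ v ∈ U, G.Adj u v → r u = r v := by
    intro u hu v hv huv
    simp only [hr]
    rw [cmp_eq_of_adj hU hu hv huv]
    exact pick_congr (cmp_self hv)
  have radj : ∀ u ∈ U, ∀ v ∈ U, r u = r v → u ≠ v → G.Adj u v := by
    intro u hu v hv e huv
    have h1 := rmem u hu
    have h2 := rmem v hv
    rw [← e] at h2
    have c1 := cmp_eq_of_mem hU hu h1
    have c2 := cmp_eq_of_mem hU hv h2
    have : u ∈ cmp G U v := by rw [← c2, c1]; exact cmp_self hu
    exact this.2.resolve_left huv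
  have rr : ∀ u ∈ U, r (r u) = r u := by
    intro u hu
    rcases (rmem u hu) with ⟨h1, h2 | h2⟩
    · rw [h2]; exact h2
    · exact req _ h1 u hu h2
  -- non-representatives are complete to big vertices
  have rfull : ∀ u ∈ U, r u ≠ u → ∀ z ∈ Z, Big G U z → G.Adj z u := by
    intro u hu hne z hz hb
    by_contra hzu
    have h1 : bad (r u) := pick_bad ⟨u, cmp_self hu, z, hz, hb, hzu⟩
    obtain ⟨z', hz', hb', hz'r⟩ := h1
    have hadj : G.Adj (r u) u := (rmem u hu).2.resolve_left hne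
    rcases hnc (r u) (rU u hu) u hu hadj with h2 | h2
    · exact hz'r (h2 z' hz' hb')
    · exact hzu (h2 z hz hb)
  set sm : V → Prop := fun z => ¬ Big G U z ∧ ∃ u ∈ U, G.Adj z u with hsm
  set nb : V → V := fun z => if h : ∃ u ∈ U, G.Adj z u then h.choose else z with hnb
  have nbs : ∀ z, sm z → nb z ∈ U ∧ G.Adj z (nb z) := by
    rintro z ⟨_, h1⟩
    have : nb z = h1.choose := by simp only [hnb]; rw [dif_pos h1]
    rw [this]; exact h1.choose_spec
  set π : V → V := fun v => if v ∈ U then r v else if sm v then r (nb v) else v with hπ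
  have πU : ∀ v ∈ U, π v = r v := fun v hv => by simp only [hπ]; rw [if_pos hv]
  have hZU : ∀ v ∈ Z, v ∉ U := fun v hv hv' => (disjoint_left.1 hd) hv' hv
  have πS : ∀ v ∈ Z, sm v → π v = r (nb v) := fun v hv hs => by
    simp only [hπ]; rw [if_neg (hZU v hv), if_pos hs]
  have πZ : ∀ v ∈ Z, ¬ sm v → π v = v := fun v hv hs => by
    simp only [hπ]; rw [if_neg (hZU v hv), if_neg hs]
  set X : Set V := {v | v ∈ U ∧ r v = v} ∪ {z | z ∈ Z ∧ ¬ sm z} with hX
  have hWX : W G X kFam := by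
    refine nested_family (hd.mono (fun v hv => hv.1) (fun v hv => hv.1)) ?_
      (hZ.mono fun v hv => hv.1) ?_
    · rintro a ⟨ha, hra⟩ b ⟨hb, hrb⟩ hab
      have := req a ha b hb hab
      rw [hra, hrb] at this
      exact hab.ne this
    · rintro a ⟨ha, hra⟩ b ⟨hb, hrb⟩ z1 ⟨hz1, _⟩ z2 ⟨hz2, _⟩ z ⟨hz, _⟩ h1 h2 h3 h4 h5 h6
      have hab : ¬ G.Adj a b := by
        intro hab
        have := req a ha b hb hab
        rw [hra, hrb] at this
        exact hab.ne this
      exact hG.R2 hab (hZ z1 hz1 z2 hz2) (hZ z1 hz1 z hz) (hZ z2 hz2 z hz) h1 h2 h3 h4 h5 h6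
  -- basic facts about different blocks
  have F1 : ∀ a ∈ U, ∀ b ∈ U, π a ≠ π b → ¬ G.Adj a b := by
    intro a ha b hb hne hab
    rw [πU a ha, πU b hb] at hne
    exact hne (req a ha b hb hab)
  have F2 : ∀ a ∈ U, ∀ z ∈ Z, sm z → π a ≠ π z → ¬ G.Adj z a := by
    intro a ha z hz hs hne hza
    rw [πU a ha, πS z hz hs] at hne
    obtain ⟨h1, h2⟩ := nbs z hs
    by_cases hae : a = nb z
    · rw [← hae] at hne; exact hne rfl
    · by_cases hadj : G.Adj a (nb z)
      · exact hne (req a ha _ h1 hadj)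
      · exact hs.1 ⟨a, ha, nb z, h1, hza, h2, hae, hadj⟩
  refine W.subst_label (H := G) (X := X) (k := kFam) (n := kLam) (m := 16) π
    (fun v => (decide (v ∈ U), decide (r v = v), decide (sm v), decide (Big G U v)))
    (by simp) hWX ?_ ?_ ?_
  · intro v hv
    by_cases hvU : v ∈ U
    · rw [πU v hvU]; exact Or.inl ⟨rU v hvU, rr v hvU⟩
    · have hvZ := hv.resolve_left hvU
      by_cases hs : sm v
      · rw [πS v hvZ hs]
        obtain ⟨h1, _⟩ := nbs v hs
        exact Or.inl ⟨rU _ h1, rr _ h1⟩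
      · rw [πZ v hvZ hs]; exact Or.inr ⟨hvZ, hs⟩
  · intro x _
    have hsub : {v | v ∈ U ∪ Z ∧ π v = x} ⊆ {v | v ∈ U ∧ r v = x} ∪ Z := by
      rintro v ⟨hv | hv, hvx⟩
      · exact Or.inl ⟨hv, (πU v hv) ▸ hvx⟩
      · exact Or.inr hv
    refine W.subset ?_ hsub
    refine laminar_clique hG (hd.mono_left fun v hv => hv.1) ?_ hZ
    rintro a ⟨ha, hra⟩ b ⟨hb, hrb⟩ hab
    exact radj a ha b hb (hra.trans hrb.symm) hab
  · intro a ha a' ha' b hb hab hab' e hH
    simp only [Prod.mk.injEq, decide_eq_decide] at e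
    obtain ⟨e1, e2, e3, e4⟩ := e
    by_cases haU : a ∈ U
    · have haU' := e1.1 haU
      by_cases hbU : b ∈ U
      · exact iff_of_false (F1 a haU b hbU hab) (F1 a' haU' b hbU hab')
      · have hbZ := hb.resolve_left hbU
        by_cases hsb : sm b
        · exact iff_of_false (fun hh => F2 a haU b hbZ hsb hab hh.symm)
            (fun hh => F2 a' haU' b hbZ hsb hab' hh.symm)
        · by_cases hra : r a = a
          · have hra' := e2.1 hra
            rw [πU a haU, πU a' haU', hra, hra', πZ b hbZ hsb] at hH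
            exact hH
          · have hra' : ¬ r a' = a' := fun hh => hra (e2.2 hh)
            by_cases hbb : Big G U b
            · exact iff_of_true (rfull a haU hra b hbZ hbb).symm (rfull a' haU' hra' b hbZ hbb).symm
            · have iso : ∀ u ∈ U, ¬ G.Adj u b := fun u hu hub => hsb ⟨hbb, u, hu, hub.symm⟩
              exact iff_of_false (iso a haU) (iso a' haU')
    · have haZ := ha.resolve_left haU
      have haU' : a' ∉ U := fun hh => haU (e1.2 hh)
      have haZ' := ha'.resolve_left haU'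
      by_cases hbU : b ∈ U
      · by_cases hsa : sm a
        · have hsa' := e3.1 hsa
          exact iff_of_false (F2 b hbU a haZ hsa (Ne.symm hab))
            (F2 b hbU a' haZ' hsa' (Ne.symm hab'))
        · have hsa' : ¬ sm a' := fun hh => hsa (e3.2 hh)
          by_cases hba : Big G U a
          · have hba' := e4.1 hba
            by_cases hrb : r b = b
            · rw [πU b hbU, hrb, πZ a haZ hsa, πZ a' haZ' hsa'] at hH
              exact hH
            · exact iff_of_true (rfull b hbU hrb a haZ hba) (rfull b hbU hrb a' haZ' hba')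
          · have hba' : ¬ Big G U a' := fun hh => hba (e4.2 hh)
            exact iff_of_false (fun hh => hsa ⟨hba, b, hbU, hh⟩)
              (fun hh => hsa' ⟨hba', b, hbU, hh⟩)
      · have hbZ := hb.resolve_left hbU
        exact iff_of_false (hZ a haZ b hbZ) (hZ a' haZ' b hbZ)

/-- the bound for cells -/
def kCell : ℕ := (1 + 1) * 8 + (addN 1 4 + 1) * 8 + (addN 1 4 + 1 + 2 ^ 8)

/-- cells: components of `U'` together with attached vertices `Y` (few per component) and small
vertices `S` -/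
theorem PSet.cells [Finite V] {U Z : Set V} (h : PSet G U Z) {U' Y S : Set V} (hU' : U' ⊆ U)
    (hY : Y ⊆ Z) (hS : S ⊆ Z) (f : V → V) (hf : ∀ y ∈ Y, f y ∈ U')
    (hYS : Disjoint Y S)
    (hSs : ∀ z ∈ S, ¬ Big G U z ∧ ∃ u ∈ U', G.Adj z u) (lab : V → Prop)
    (hadj : ∀ u ∈ U', ∀ y ∈ Y, f y ≠ u → ¬ G.Adj (f y) u → (G.Adj y u ↔ lab u))
    (hfin : ∀ u ∈ U', ∃ F : Finset V, F.card ≤ 4 ∧ (∀ v ∈ U', v ∈ cmp G U u → v ∈ F) ∧
      ∀ y ∈ Y, f y ∈ cmp G U u → y ∈ F) : W G (U' ∪ Y ∪ S) kCell := by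
  classical
  obtain ⟨hG, hd, hU, hZ, hP⟩ := h
  set r : V → V := fun u => pick (fun _ => False) (cmp G U u) u with hr
  have rmem : ∀ u ∈ U, r u ∈ cmp G U u := fun u hu => pick_mem (cmp_self hu)
  have req : ∀ u ∈ U, ∀ v ∈ U, G.Adj u v → r u = r v := by
    intro u hu v hv huv
    simp only [hr]
    rw [cmp_eq_of_adj hU hu hv huv]
    exact pick_congr (cmp_self hv)
  have rcmp : ∀ u ∈ U, ∀ v ∈ U, r u = r v → v ∈ cmp G U u := by
    intro u hu v hv e
    have h1 := rmem u hu
    have h2 := rmem v hv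
    rw [← e] at h2
    have c1 := cmp_eq_of_mem hU hu h1
    have c2 := cmp_eq_of_mem hU hv h2
    rw [← c1, c2]; exact cmp_self hv
  set nb : V → V := fun z => if h : ∃ u ∈ U', G.Adj z u then h.choose else z with hnb
  have nbs : ∀ z ∈ S, nb z ∈ U' ∧ G.Adj z (nb z) := by
    intro z hz
    obtain ⟨_, h1⟩ := hSs z hz
    have : nb z = h1.choose := by simp only [hnb]; rw [dif_pos h1]
    rw [this]; exact h1.choose_spec
  have hZU : ∀ v ∈ Z, v ∉ U := fun v hv hv' => (disjoint_left.1 hd) hv' hv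
  set π : V → V := fun v => if v ∈ U' then r v else if v ∈ Y then r (f v) else r (nb v) with hπ
  have πU : ∀ v ∈ U', π v = r v := fun v hv => by simp only [hπ]; rw [if_pos hv]
  have πY : ∀ v ∈ Y, π v = r (f v) := fun v hv => by
    simp only [hπ]; rw [if_neg (fun hh => hZU v (hY hv) (hU' hh)), if_pos hv]
  have πS : ∀ v ∈ S, π v = r (nb v) := fun v hv => by
    simp only [hπ]; rw [if_neg (fun hh => hZU v (hS hv) (hU' hh)),
      if_neg (fun hh => (disjoint_left.1 hYS) hh hv)]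
  have F1 : ∀ a ∈ U', ∀ b ∈ U', π a ≠ π b → ¬ G.Adj a b := by
    intro a ha b hb hne hab
    rw [πU a ha, πU b hb] at hne
    exact hne (req a (hU' ha) b (hU' hb) hab)
  have F2 : ∀ a ∈ U', ∀ z ∈ S, π a ≠ π z → ¬ G.Adj z a := by
    intro a ha z hz hne hza
    rw [πU a ha, πS z hz] at hne
    obtain ⟨h1, h2⟩ := nbs z hz
    by_cases hae : a = nb z
    · rw [← hae] at hne; exact hne rfl
    · by_cases hadj' : G.Adj a (nb z)
      · exact hne (req a (hU' ha) _ (hU' h1) hadj')
      · exact (hSs z hz).1 ⟨a, hU' ha, nb z, hU' h1, hza, h2, hae, hadj'⟩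
  have F3 : ∀ a ∈ U', ∀ y ∈ Y, π a ≠ π y → (G.Adj y a ↔ lab a) := by
    intro a ha y hy hne
    rw [πU a ha, πY y hy] at hne
    refine hadj a ha y hy (fun e => hne (by rw [e])) ?_
    intro hh
    exact hne (req _ (hU' ha) _ (hU' (hf y hy)) hh.symm)
  have F4 : ∀ a ∈ Z, ∀ b ∈ Z, ¬ G.Adj a b := hZ
  refine W.typed_blocks (n := addN 1 4) (m := 8) π
    (fun v => (decide (v ∈ U'), decide (v ∈ Y), decide (lab v))) (by simp) ?_ ?_
  · intro x
    by_cases hx : ∃ v ∈ U' ∪ Y ∪ S, π v = x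
    · -- choose a vertex of U' in the block
      have hex : ∃ u ∈ U', r u = x := by
        obtain ⟨v, (hv | hv) | hv, hvx⟩ := hx
        · exact ⟨v, hv, (πU v hv) ▸ hvx⟩
        · exact ⟨f v, hf v hv, (πY v hv) ▸ hvx⟩
        · exact ⟨nb v, (nbs v hv).1, (πS v hv) ▸ hvx⟩
      obtain ⟨u, hu, hux⟩ := hex
      obtain ⟨F, hF4, hF1, hF2⟩ := hfin u hu
      have h1 : W G ({v | v ∈ U' ∪ Y ∪ S ∧ π v = x} \ (F : Set V)) 1 := by
        refine W.of_indep ?_
        have key : ∀ v, v ∈ {v | v ∈ U' ∪ Y ∪ S ∧ π v = x} \ (F : Set V) → v ∈ Z := by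
          rintro v ⟨⟨(hv | hv) | hv, hvx⟩, hvF⟩
          · exfalso
            apply hvF
            rw [πU v hv, ← hux] at hvx
            exact hF1 v hv (rcmp u (hU' hu) v (hU' hv) hvx.symm)
          · exact hY hv
          · exact hS hv
        intro a ha b hb
        exact F4 a (key a ha) b (key b hb)
      exact (W.of_diff_finset F h1).mono (addN_mono hF4)
    · have : {v | v ∈ U' ∪ Y ∪ S ∧ π v = x} = ∅ := by
        ext v; constructor
        · rintro ⟨hv, hvx⟩; exact (hx ⟨v, hv, hvx⟩).elim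
        · intro hv; exact hv.elim
      rw [this]; exact W.empty
  · intro a ha a' ha' b hb hab hab' e
    simp only [Prod.mk.injEq, decide_eq_decide] at e
    obtain ⟨e1, e2, e3⟩ := e
    have hUZ : ∀ v ∈ Z, v ∉ U' := fun v hv hv' => hZU v hv (hU' hv')
    by_cases haU : a ∈ U'
    · have haU' := e1.1 haU
      rcases hb with (hbU | hbY) | hbS
      · exact iff_of_false (F1 a haU b hbU hab) (F1 a' haU' b hbU hab')
      · rw [G.adj_comm a b, G.adj_comm a' b, F3 a haU b hbY hab, F3 a' haU' b hbY hab']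
        exact e3
      · exact iff_of_false (fun hh => F2 a haU b hbS hab hh.symm)
          (fun hh => F2 a' haU' b hbS hab' hh.symm)
    · have haU' : a' ∉ U' := fun hh => haU (e1.2 hh)
      have hsplit : ∀ v ∈ U' ∪ Y ∪ S, v ∉ U' → v ∈ Z := by
        rintro v ((hv | hv) | hv) hvU
        · exact absurd hv hvU
        · exact hY hv
        · exact hS hv
      have haZ := hsplit a ha haU
      have haZ' := hsplit a' ha' haU'
      rcases hb with (hbU | hbY) | hbS
      · by_cases haY : a ∈ Y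
        · have haY' := e2.1 haY
          rw [F3 b hbU a haY (Ne.symm hab), F3 b hbU a' haY' (Ne.symm hab')]
        · have haY' : a' ∉ Y := fun hh => haY (e2.2 hh)
          have haS : a ∈ S := ha.resolve_left fun hh => hh.elim haU haY
          have haS' : a' ∈ S := ha'.resolve_left fun hh => hh.elim haU' haY'
          exact iff_of_false (F2 b hbU a haS (Ne.symm hab)) (F2 b hbU a' haS' (Ne.symm hab'))
      · exact iff_of_false (F4 a haZ b (hY hbY)) (F4 a' haZ' b (hY hbY))
      · exact iff_of_false (F4 a haZ b (hS hbS)) (F4 a' haZ' b (hS hbS))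

end Pool.Agent.GemWidth
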