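import Pool.Agent.GemWidth.TwoCompsSmall

set_option autoImplicit false

namespace Pool.Agent.GemWidth

open Set

namespace TC

variable {V : Type} {G : SimpleGraph V} {F Z : Set V} {kX kE : ℕ}

/-! ### General case -/

/-- context of the general case -/
structure Ctx {V : Type} (G : SimpleGraph V) (Q0 Q1 F Z : Set V) : Prop where
  cls : Cls G
  c5 : NoC5 G
  d01 : Disjoint Q0 Q1
  dF : Disjoint (Q0 ∪ Q1) F
  dZ : Disjoint (Q0 ∪ Q1) Z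
  dFZ : Disjoint F Z
  k0 : ∀ a ∈ Q0, ∀ b ∈ Q0, a ≠ b → G.Adj a b
  k1 : ∀ a ∈ Q1, ∀ b ∈ Q1, a ≠ b → G.Adj a b
  n01 : ∀ a ∈ Q0, ∀ b ∈ Q1, ¬ G.Adj a b
  ind : Indep G Z
  nZ : ∀ z ∈ Z, ∀ x ∈ Q0 ∪ Q1, ¬ G.Adj z x
  t0 : ∀ f ∈ F, ∃ x ∈ Q0, G.Adj f x
  t1 : ∀ f ∈ F, ∃ x ∈ Q1, G.Adj f x

section General

variable {Q0 Q1 : Set V}

theorem Ctx.swap (h : Ctx G Q0 Q1 F Z) : Ctx G Q1 Q0 F Z :=
  ⟨h.cls, h.c5, h.d01.symm, by rw [union_comm]; exact h.dF, by rw [union_comm]; exact h.dZ, h.dFZ,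
    h.k1, h.k0, fun a ha b hb hab => h.n01 b hb a ha hab.symm, h.ind,
    fun z hz x hx => h.nZ z hz x hx.symm, h.t1, h.t0⟩

/-- F1 -/
theorem Ctx.f1 (h : Ctx G Q0 Q1 F Z) {f g x w y : V} (hfg : G.Adj f g) (hx : x ∈ Q0) (hw : w ∈ Q1)
    (hy : y ∈ Q1) (hfx : G.Adj f x) (hgx : G.Adj g x) (hfw : G.Adj f w) (hgw : G.Adj g w)
    (hfy : G.Adj f y) : G.Adj g y := by
  by_contra hgy
  have hwy : w ≠ y := by rintro rfl; exact hgy hgw
  exact h.cls.gem f x g w y hfx hfg hfw hfy hgx.symm hgw (h.k1 w hw y hy hwy) (h.n01 x hx w hw)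
    (h.n01 x hx y hy) hgy

/-- F2 -/
theorem Ctx.f2 (h : Ctx G Q0 Q1 F Z) {f g x w w' : V} (hfg : ¬ G.Adj f g) (hx : x ∈ Q0)
    (hw : w ∈ Q1) (hw' : w' ∈ Q1) (hfx : G.Adj f x) (hgx : G.Adj g x) (hfw : G.Adj f w)
    (hgw : ¬ G.Adj g w) (hgw' : G.Adj g w') (hfw' : ¬ G.Adj f w') : False := by
  have hww : w ≠ w' := by rintro rfl; exact hgw hgw'
  exact h.c5 x f w w' g hfx.symm hfw (h.k1 w hw w' hw' hww) hgw'.symm hgx
    (h.n01 x hx w hw) (h.n01 x hx w' hw') hfw' hfg (nadj_symm hgw)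

/-- F3, first half -/
theorem Ctx.f3 (h : Ctx G Q0 Q1 F Z) {f x x' w : V} (hf : f ∈ F) (hx : x ∈ Q0) (hx' : x' ∈ Q0)
    (hne : x ≠ x') (n : ¬ G.Adj f x) (n' : ¬ G.Adj f x') (hw : w ∈ Q1) : G.Adj f w := by
  by_contra hfw
  obtain ⟨y, hy, hfy⟩ := h.t1 f hf
  have hyw : y ≠ w := by rintro rfl; exact hfw hfy
  have hfne : f ≠ w := by
    rintro rfl; exact (disjoint_left.1 h.dF) (Or.inr hw) hf
  exact h.cls.p23 x x' f y w (h.k0 x hx x' hx' hne) hfy (h.k1 y hy w hw hyw) hfne hfw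
    (nadj_symm n) (h.n01 x hx y hy) (h.n01 x hx w hw) (nadj_symm n') (h.n01 x' hx' y hy)
    (h.n01 x' hx' w hw)

/-- F3, second half -/
theorem Ctx.f3Z (h : Ctx G Q0 Q1 F Z) {f x x' z : V} (hf : f ∈ F) (hx : x ∈ Q0) (hx' : x' ∈ Q0)
    (hne : x ≠ x') (n : ¬ G.Adj f x) (n' : ¬ G.Adj f x') (hz : z ∈ Z) : ¬ G.Adj f z := by
  intro hfz
  obtain ⟨y, hy, hfy⟩ := h.t1 f hf
  have hzy : z ≠ y := by
    rintro rfl; exact (disjoint_left.1 h.dZ) (Or.inr hy) hz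
  exact h.cls.p23 x x' z f y (h.k0 x hx x' hx' hne) hfz.symm hfy hzy (h.nZ z hz y (Or.inr hy))
    (nadj_symm (h.nZ z hz x (Or.inl hx))) (nadj_symm n) (h.n01 x hx y hy)
    (nadj_symm (h.nZ z hz x' (Or.inl hx'))) (nadj_symm n') (h.n01 x' hx' y hy)

/-- vertices of `F` missing at least two vertices of `Q` -/
def DD (G : SimpleGraph V) (Q F : Set V) : Set V :=
  {f | f ∈ F ∧ ∃ x ∈ Q, ∃ x' ∈ Q, x ≠ x' ∧ ¬ G.Adj f x ∧ ¬ G.Adj f x'}

/-- the other vertices of `F` -/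
def FF (G : SimpleGraph V) (Q0 Q1 F : Set V) : Set V :=
  {f | f ∈ F ∧ f ∉ DD G Q0 F ∧ f ∉ DD G Q1 F}

theorem FF_swap : FF G Q0 Q1 F = FF G Q1 Q0 F := by
  ext f; simp only [FF, mem_ofPred_eq]; tauto

/-- a vertex of `FF` misses at most one vertex of `Q0` -/
theorem ff_miss {g x x' : V} (hg : g ∈ FF G Q0 Q1 F) (hx : x ∈ Q0) (hx' : x' ∈ Q0)
    (hne : x ≠ x') : G.Adj g x ∨ G.Adj g x' := by
  by_contra hn
  rw [not_or] at hn
  exact hg.2.1 ⟨hg.1, x, hx, x', hx', hne, hn.1, hn.2⟩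

theorem Ctx.D_complete (h : Ctx G Q0 Q1 F Z) {f w : V} (hf : f ∈ DD G Q0 F) (hw : w ∈ Q1) :
    G.Adj f w := by
  obtain ⟨hf, x, hx, x', hx', hne, n, n'⟩ := hf
  exact h.f3 hf hx hx' hne n n' hw

theorem Ctx.D_Z (h : Ctx G Q0 Q1 F Z) {f z : V} (hf : f ∈ DD G Q0 F) (hz : z ∈ Z) :
    ¬ G.Adj f z := by
  obtain ⟨hf, x, hx, x', hx', hne, n, n'⟩ := hf
  exact h.f3Z hf hx hx' hne n n' hz

/-- `D0` is a clique -/
theorem Ctx.D_clique (h : Ctx G Q0 Q1 F Z) {f g : V} (hf : f ∈ DD G Q0 F) (hg : g ∈ DD G Q0 F)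
    (hne : f ≠ g) : G.Adj f g := by
  by_contra hfg
  obtain ⟨w, hw, hfw⟩ := h.t1 f hf.1
  have hgw := h.D_complete hg hw
  -- nested traces
  have key : ∀ f g : V, f ∈ DD G Q0 F → f ≠ g → ¬ G.Adj f g → G.Adj f w → G.Adj g w →
      (∀ y ∈ Q0, G.Adj g y → G.Adj f y) → False := by
    intro f g hf hne hfg hfw hgw hsub
    obtain ⟨hf, x, hx, x', hx', hne', n, n'⟩ := hf
    exact h.cls.p23 x x' f w g (h.k0 x hx x' hx' hne') hfw hgw.symm hne hfg (nadj_symm n)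
      (h.n01 x hx w hw) (fun hh => n (hsub x hx hh.symm)) (nadj_symm n') (h.n01 x' hx' w hw)
      (fun hh => n' (hsub x' hx' hh.symm))
  by_cases hsub : ∀ y ∈ Q0, G.Adj g y → G.Adj f y
  · exact key f g hf hne hfg hfw hgw hsub
  · push Not at hsub
    obtain ⟨y, hy, hgy, hfy⟩ := hsub
    refine key g f hg hne.symm (nadj_symm hfg) hgw hfw ?_
    intro y' hy' hfy'
    by_contra hgy'
    exact h.swap.f2 hfg hw hy' hy hfw hgw hfy' hgy' hgy hfy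

/-- traces of `D0` on `Q0` are equal or disjoint -/
theorem Ctx.D_trace (h : Ctx G Q0 Q1 F Z) {f g x y : V} (hf : f ∈ DD G Q0 F) (hg : g ∈ DD G Q0 F)
    (hx : x ∈ Q0) (hy : y ∈ Q0) (hfx : G.Adj f x) (hgx : G.Adj g x) (hfy : G.Adj f y) :
    G.Adj g y := by
  by_cases hne : f = g
  · rw [← hne]; exact hfy
  obtain ⟨w, hw, hfw⟩ := h.t1 f hf.1
  exact h.swap.f1 (h.D_clique hf hg hne) hw hx hy hfw (h.D_complete hg hw) hfx hgx hfy

/-- `D0` is anticomplete to `D1` -/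
theorem Ctx.D_anti (h : Ctx G Q0 Q1 F Z) {f g : V} (hf : f ∈ DD G Q0 F) (hg : g ∈ DD G Q1 F) :
    ¬ G.Adj f g := by
  intro hfg
  obtain ⟨hf', x, hx, x', hx', hne, n, n'⟩ := hf
  obtain ⟨y, hy, hfy⟩ := h.t0 f hf'
  obtain ⟨w, hw, hgw⟩ := h.t1 g hg.1
  have hf : f ∈ DD G Q0 F := ⟨hf', x, hx, x', hx', hne, n, n'⟩
  have hgy := h.swap.D_complete hg hy
  have hgx := h.swap.D_complete hg hx
  exact n (h.swap.f1 hfg.symm hw hy hx hgw (h.D_complete hf hw) hgy hfy hgx)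

/-- adjacency between `D0` and `FF` -/
theorem Ctx.D_FF (h : Ctx G Q0 Q1 F Z) {f g : V} (hf : f ∈ DD G Q0 F) (hg : g ∈ FF G Q0 Q1 F) :
    G.Adj f g ↔ ∀ x ∈ Q0, ¬ (G.Adj f x ∧ G.Adj g x) := by
  obtain ⟨w, hw, hgw⟩ := h.t1 g hg.1
  have hfw := h.D_complete hf hw
  obtain ⟨hf', x, hx, x', hx', hne, n, n'⟩ := hf
  constructor
  · rintro hfg y hy ⟨hfy, hgy⟩
    rcases ff_miss hg hx hx' hne with hh | hh
    · exact n (h.swap.f1 hfg.symm hw hy hx hgw hfw hgy hfy hh)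
    · exact n' (h.swap.f1 hfg.symm hw hy hx' hgw hfw hgy hfy hh)
  · intro hdis
    by_contra hfg
    obtain ⟨y, hy, hfy⟩ := h.t0 f hf'
    have hgy : ¬ G.Adj g y := fun hh => hdis y hy ⟨hfy, hh⟩
    rcases ff_miss hg hx hx' hne with hh | hh
    · exact h.swap.f2 hfg hw hy hx hfw hgw hfy hgy hh n
    · exact h.swap.f2 hfg hw hy hx' hfw hgw hfy hgy hh n'

/-- at most two vertices of `Q0` are missed by `FF` -/
theorem Ctx.missed (h : Ctx G Q0 Q1 F Z) (h2 : ∃ w ∈ Q1, ∃ w' ∈ Q1, w ≠ w') {x1 x2 x3 g1 g2 g3 : V}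
    (hx1 : x1 ∈ Q0) (hx2 : x2 ∈ Q0) (hx3 : x3 ∈ Q0) (h12 : x1 ≠ x2) (h13 : x1 ≠ x3) (h23 : x2 ≠ x3)
    (hg1 : g1 ∈ FF G Q0 Q1 F) (hg2 : g2 ∈ FF G Q0 Q1 F) (hg3 : g3 ∈ FF G Q0 Q1 F)
    (n1 : ¬ G.Adj g1 x1) (n2 : ¬ G.Adj g2 x2) (n3 : ¬ G.Adj g3 x3) : False := by
  -- two of them: disjoint traces on `Q1`
  have key : ∀ {x1 x2 x3 g1 g2 : V}, x1 ∈ Q0 → x2 ∈ Q0 → x3 ∈ Q0 → x1 ≠ x2 → x1 ≠ x3 → x2 ≠ x3 →
      g1 ∈ FF G Q0 Q1 F → g2 ∈ FF G Q0 Q1 F → ¬ G.Adj g1 x1 → ¬ G.Adj g2 x2 →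
      ∀ w ∈ Q1, ¬ (G.Adj g1 w ∧ G.Adj g2 w) := by
    rintro x1 x2 x3 g1 g2 hx1 hx2 hx3 h12 h13 h23 hg1 hg2 n1 n2 w hw ⟨hw1, hw2⟩
    have a12 : G.Adj g1 x2 := (ff_miss hg1 hx1 hx2 h12).resolve_left n1
    have a21 : G.Adj g2 x1 := (ff_miss hg2 hx1 hx2 h12).resolve_right n2
    have a13 : G.Adj g1 x3 := (ff_miss hg1 hx1 hx3 h13).resolve_left n1
    have a23 : G.Adj g2 x3 := (ff_miss hg2 hx2 hx3 h23).resolve_left n2
    by_cases hadj : G.Adj g1 g2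
    · exact n1 (h.swap.f1 hadj.symm hw hx3 hx1 hw2 hw1 a23 a13 a21)
    · exact h.swap.f2 hadj hw hx2 hx1 hw1 hw2 a12 n2 a21 n1
  have d12 := key hx1 hx2 hx3 h12 h13 h23 hg1 hg2 n1 n2
  have d13 := key hx1 hx3 hx2 h13 h12 h23.symm hg1 hg3 n1 n3
  have d23 := key hx2 hx3 hx1 h23 h12.symm h13.symm hg2 hg3 n2 n3
  obtain ⟨w, hw, w', hw', hne⟩ := h2
  have miss : ∀ g, g ∈ FF G Q0 Q1 F → G.Adj g w ∨ G.Adj g w' := by
    intro g hg
    rw [FF_swap] at hg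
    exact ff_miss hg hw hw' hne
  have m1 := miss g1 hg1
  have m2 := miss g2 hg2
  have m3 := miss g3 hg3
  have a := d12 w hw
  have b := d12 w' hw'
  have c := d13 w hw
  have d := d13 w' hw'
  have e := d23 w hw
  have f := d23 w' hw'
  tauto

/-- the (at most two) missed vertices -/
theorem Ctx.exists_missed (h : Ctx G Q0 Q1 F Z) (h2 : ∃ w ∈ Q1, ∃ w' ∈ Q1, w ≠ w')
    (h0 : ∃ x, x ∈ Q0) :
    ∃ m1 ∈ Q0, ∃ m2 ∈ Q0, ∀ x ∈ Q0, ∀ g ∈ FF G Q0 Q1 F, ¬ G.Adj g x → x = m1 ∨ x = m2 := by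
  obtain ⟨x0, hx0⟩ := h0
  by_cases e1 : ∃ x ∈ Q0, ∃ g ∈ FF G Q0 Q1 F, ¬ G.Adj g x
  · obtain ⟨m1, hm1, g1, hg1, n1⟩ := e1
    by_cases e2 : ∃ x ∈ Q0, x ≠ m1 ∧ ∃ g ∈ FF G Q0 Q1 F, ¬ G.Adj g x
    · obtain ⟨m2, hm2, hne, g2, hg2, n2⟩ := e2
      refine ⟨m1, hm1, m2, hm2, ?_⟩
      intro x hx g hg n
      by_contra hx'
      rw [not_or] at hx'
      exact h.missed h2 hm1 hm2 hx hne.symm (Ne.symm hx'.1) (Ne.symm hx'.2) hg1 hg2 hg n1 n2 n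
    · push Not at e2
      refine ⟨m1, hm1, m1, hm1, ?_⟩
      intro x hx g hg n
      left
      by_contra hne
      exact n (e2 x hx hne g hg)
  · push Not at e1
    exact ⟨x0, hx0, x0, hx0, fun x hx g hg n => absurd (e1 x hx g hg) n⟩

/-- rows of `Q0` on `FF ∪ Z` -/
theorem Ctx.few_Q (h : Ctx G Q0 Q1 F Z) (h2 : ∃ w ∈ Q1, ∃ w' ∈ Q1, w ≠ w') (h0 : ∃ x, x ∈ Q0) :
    Few G Q0 (FF G Q0 Q1 F ∪ Z) 4 := by
  classical
  obtain ⟨m1, _, m2, _, hm⟩ := h.exists_missed h2 h0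
  refine few_of_label (fun x => (decide (x = m1), decide (x = m2))) ?_ (by simp)
  intro a ha a' ha' e b hb
  simp only [Prod.mk.injEq, decide_eq_decide] at e
  rcases hb with hb | hb
  · by_cases n1 : a = m1
    · rw [n1, e.1.1 n1]
    by_cases n2 : a = m2
    · rw [n2, e.2.1 n2]
    have n1' : a' ≠ m1 := fun hh => n1 (e.1.2 hh)
    have n2' : a' ≠ m2 := fun hh => n2 (e.2.2 hh)
    refine iff_of_true ?_ ?_
    · by_contra hn
      rcases hm a ha b hb (nadj_symm hn) with hh | hh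
      exacts [n1 hh, n2 hh]
    · by_contra hn
      rcases hm a' ha' b hb (nadj_symm hn) with hh | hh
      exacts [n1' hh, n2' hh]
  · exact iff_of_false (nadj_symm (h.nZ b hb a (Or.inl ha)))
      (nadj_symm (h.nZ b hb a' (Or.inl ha')))

/-- rows of `D0` on `FF ∪ Z` -/
theorem Ctx.few_D (h : Ctx G Q0 Q1 F Z) (h2 : ∃ w ∈ Q1, ∃ w' ∈ Q1, w ≠ w') (h0 : ∃ x, x ∈ Q0) :
    Few G (DD G Q0 F) (FF G Q0 Q1 F ∪ Z) 4 := by
  classical
  obtain ⟨m1, hm1, m2, hm2, hm⟩ := h.exists_missed h2 h0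
  refine few_of_label (fun f => (decide (∀ y ∈ Q0, (G.Adj f y ↔ y = m1)),
    decide (∀ y ∈ Q0, (G.Adj f y ↔ y = m2)))) ?_ (by simp)
  intro a ha a' ha' e b hb
  simp only [Prod.mk.injEq, decide_eq_decide] at e
  rcases hb with hb | hb
  · rw [h.D_FF ha hb, h.D_FF ha' hb]
    by_cases n1 : ∀ y ∈ Q0, (G.Adj a y ↔ y = m1)
    · have n1' := e.1.1 n1
      constructor
      · rintro hh x hx ⟨h3, h4⟩
        exact hh x hx ⟨(n1 x hx).2 ((n1' x hx).1 h3), h4⟩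
      · rintro hh x hx ⟨h3, h4⟩
        exact hh x hx ⟨(n1' x hx).2 ((n1 x hx).1 h3), h4⟩
    by_cases n2 : ∀ y ∈ Q0, (G.Adj a y ↔ y = m2)
    · have n2' := e.2.1 n2
      constructor
      · rintro hh x hx ⟨h3, h4⟩
        exact hh x hx ⟨(n2 x hx).2 ((n2' x hx).1 h3), h4⟩
      · rintro hh x hx ⟨h3, h4⟩
        exact hh x hx ⟨(n2' x hx).2 ((n2 x hx).1 h3), h4⟩
    have n1' : ¬ ∀ y ∈ Q0, (G.Adj a' y ↔ y = m1) := fun hh => n1 (e.1.2 hh)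
    have n2' : ¬ ∀ y ∈ Q0, (G.Adj a' y ↔ y = m2) := fun hh => n2 (e.2.2 hh)
    -- in this case there is no edge
    have key : ∀ c, c ∈ DD G Q0 F → ¬ (∀ y ∈ Q0, (G.Adj c y ↔ y = m1)) →
        ¬ (∀ y ∈ Q0, (G.Adj c y ↔ y = m2)) → ¬ ∀ x ∈ Q0, ¬ (G.Adj c x ∧ G.Adj b x) := by
      intro c hc c1 c2 hdis
      obtain ⟨x, hx, hcx⟩ := h.t0 c hc.1
      have hbx : ¬ G.Adj b x := fun hh => hdis x hx ⟨hcx, hh⟩
      have huniq : ∀ y ∈ Q0, (G.Adj c y ↔ y = x) := by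
        intro y hy
        constructor
        · intro hcy
          by_contra hne
          rcases ff_miss hb hy hx hne with hh | hh
          · exact hdis y hy ⟨hcy, hh⟩
          · exact hbx hh
        · rintro rfl; exact hcx
      rcases hm x hx b hb hbx with hh | hh
      · rw [hh] at huniq; exact c1 huniq
      · rw [hh] at huniq; exact c2 huniq
    exact iff_of_false (key a ha n1 n2) (key a' ha' n1' n2')
  · exact iff_of_false (h.D_Z ha hb) (h.D_Z ha' hb)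

/-- `Q0 ∪ D0` has bounded width -/
theorem Ctx.w_QD [Finite V] (h : Ctx G Q0 Q1 F Z) : W G (Q0 ∪ DD G Q0 F) 17 := by
  classical
  have hdis : ∀ x, x ∈ Q0 → x ∉ DD G Q0 F := fun x hx hx' =>
    (disjoint_left.1 h.dF) (Or.inl hx) hx'.1
  set S : V → Set V := fun v => if v ∈ Q0 then {f | f ∈ DD G Q0 F ∧ G.Adj f v} else
    {f | f ∈ DD G Q0 F ∧ ∀ y ∈ Q0, (G.Adj f y ↔ G.Adj v y)} with hS
  set π : V → V := fun v => if hv : (S v).Nonempty then hv.some else v with hπ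
  have hSQ : ∀ x ∈ Q0, S x = {f | f ∈ DD G Q0 F ∧ G.Adj f x} := by
    intro x hx; simp only [hS, hx, if_true]
  have hSD : ∀ f ∈ DD G Q0 F, S f = {g | g ∈ DD G Q0 F ∧ ∀ y ∈ Q0, (G.Adj g y ↔ G.Adj f y)} := by
    intro f hf
    have : f ∉ Q0 := fun hh => hdis f hh hf
    simp only [hS, this, if_false]
  have hSeq : ∀ x ∈ Q0, ∀ f ∈ DD G Q0 F, G.Adj f x → S x = S f := by
    intro x hx f hf hfx
    rw [hSQ x hx, hSD f hf]
    ext g
    simp only [mem_ofPred_eq]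
    constructor
    · rintro ⟨hg, hgx⟩
      refine ⟨hg, fun y hy => ⟨fun hh => ?_, fun hh => ?_⟩⟩
      · exact h.D_trace hg hf hx hy hgx hfx hh
      · exact h.D_trace hf hg hx hy hfx hgx hh
    · rintro ⟨hg, hh⟩
      exact ⟨hg, (hh x hx).2 hfx⟩
  have hπeq : ∀ x ∈ Q0, ∀ f ∈ DD G Q0 F, G.Adj f x → π x = π f := by
    intro x hx f hf hfx
    have e := hSeq x hx f hf hfx
    have hne : (S f).Nonempty := ⟨f, by rw [hSD f hf]; exact ⟨hf, fun _ _ => Iff.rfl⟩⟩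
    have hne' : (S x).Nonempty := e ▸ hne
    simp only [hπ, hne, hne', dif_pos]
    congr 1
  have hπD : ∀ f ∈ DD G Q0 F, π f ∈ DD G Q0 F ∧ ∀ y ∈ Q0, (G.Adj (π f) y ↔ G.Adj f y) := by
    intro f hf
    have hne : (S f).Nonempty := ⟨f, by rw [hSD f hf]; exact ⟨hf, fun _ _ => Iff.rfl⟩⟩
    have h3 : hne.some ∈ {g | g ∈ DD G Q0 F ∧ ∀ y ∈ Q0, (G.Adj g y ↔ G.Adj f y)} := by
      have h4 := hne.some_mem
      exact (Set.ext_iff.1 (hSD f hf) _).1 h4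
    simp only [hπ, hne, dif_pos]
    exact h3
  have hπQ : ∀ x ∈ Q0, (π x ∈ DD G Q0 F ∧ G.Adj (π x) x) ∨ π x = x := by
    intro x hx
    by_cases hne : (S x).Nonempty
    · left
      have h3 : hne.some ∈ {g | g ∈ DD G Q0 F ∧ G.Adj g x} := by
        have h4 := hne.some_mem
        exact (Set.ext_iff.1 (hSQ x hx) _).1 h4
      simp only [hπ, hne, dif_pos]
      exact h3
    · right
      simp only [hπ, hne, dif_neg, not_false_eq_true]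
  have := W.typed_blocks (G := G) (R := Q0 ∪ DD G Q0 F) (n := 2) (m := 2) π
    (fun v => decide (v ∈ Q0)) (by simp) ?_ ?_
  · exact this.mono (by norm_num)
  · intro x
    -- blocks are cliques
    have hcl : ∀ a ∈ {v | v ∈ Q0 ∪ DD G Q0 F ∧ π v = x}, ∀ b ∈ {v | v ∈ Q0 ∪ DD G Q0 F ∧ π v = x},
        a ≠ b → G.Adj a b := by
      have mixed : ∀ a ∈ Q0, ∀ b ∈ DD G Q0 F, π a = π b → G.Adj a b := by
        intro a ha b hb e
        obtain ⟨h1, h2⟩ := hπD b hb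
        rcases hπQ a ha with ⟨_, h4⟩ | h3
        · rw [e] at h4
          exact ((h2 a ha).1 h4).symm
        · rw [← e, h3] at h1
          exact absurd h1 (hdis a ha)
      rintro a ⟨ha, hax⟩ b ⟨hb, hbx⟩ hne
      rcases ha with ha | ha <;> rcases hb with hb | hb
      · exact h.k0 a ha b hb hne
      · exact mixed a ha b hb (hax.trans hbx.symm)
      · exact (mixed b hb a ha (hbx.trans hax.symm)).symm
      · exact h.D_clique ha hb hne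
    refine (W.of_classes (m := 1) (fun _ => 0) ?_)
    intro a ha a' ha' b hb hab hab' _
    exact iff_of_true (hcl a ha b hb hab) (hcl a' ha' b hb hab')
  · intro a ha a' ha' b hb hab hab' e
    simp only [decide_eq_decide] at e
    have hne : a ≠ b := by rintro rfl; exact hab rfl
    have hne' : a' ≠ b := by rintro rfl; exact hab' rfl
    -- adjacency between different blocks
    have hadj : ∀ c, c ∈ Q0 ∪ DD G Q0 F → π c ≠ π b → (G.Adj c b ↔ (c ∈ Q0 ↔ b ∈ Q0)) := by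
      intro c hc hcb
      have hne : c ≠ b := by rintro rfl; exact hcb rfl
      rcases hc with hc | hc <;> rcases hb with hb | hb
      · exact iff_of_true (h.k0 c hc b hb hne) (iff_of_true hc hb)
      · refine iff_of_false (fun hh => hcb (hπeq c hc b hb hh.symm)) ?_
        intro hh
        exact hdis b (hh.1 hc) hb
      · refine iff_of_false (fun hh => hcb (hπeq b hb c hc hh).symm) ?_
        intro hh
        exact hdis c (hh.2 hb) hc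
      · exact iff_of_true (h.D_clique hc hb hne)
          (iff_of_false (fun hh => hdis c hh hc) (fun hh => hdis b hh hb))
    rw [hadj a ha hab, hadj a' ha' hab', e]

/-- `S ∪ D` -/
theorem Ctx.w_SD [Finite V] (h : Ctx G Q0 Q1 F Z) :
    W G ((Q0 ∪ DD G Q0 F) ∪ (Q1 ∪ DD G Q1 F)) (comb 17 2) := by
  classical
  refine W.combine' h.w_QD h.swap.w_QD ?_ ?_
  · rw [disjoint_left]
    rintro x (hx | hx) (hx' | hx')
    · exact (disjoint_left.1 h.d01) hx hx'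
    · exact (disjoint_left.1 h.dF) (Or.inl hx) hx'.1
    · exact (disjoint_left.1 h.dF) (Or.inr hx') hx.1
    · obtain ⟨w, hw, hw', hne, n⟩ := hx'.2
      exact n.2.1 (h.D_complete hx hw)
  · refine few_of_label (α := Bool) (fun v => decide (v ∈ Q0)) ?_ (by simp)
    intro a ha a' ha' e b hb
    simp only [decide_eq_decide] at e
    have hadj : ∀ c, c ∈ Q0 ∪ DD G Q0 F → (G.Adj c b ↔ (c ∈ Q0 ↔ b ∉ Q1)) := by
      intro c hc
      rcases hc with hc | hc <;> rcases hb with hb | hb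
      · exact iff_of_false (h.n01 c hc b hb) (fun hh => (hh.1 hc) hb)
      · refine iff_of_true (h.swap.D_complete hb hc).symm (iff_of_true hc ?_)
        intro hh
        exact (disjoint_left.1 h.dF) (Or.inr hh) hb.1
      · refine iff_of_true (h.D_complete hc hb) (iff_of_false ?_ (fun hh => hh hb))
        intro hh
        exact (disjoint_left.1 h.dF) (Or.inl hh) hc.1
      · refine iff_of_false (h.D_anti hc hb) (fun hh => ?_)
        have hb' : b ∉ Q1 := fun hh => (disjoint_left.1 h.dF) (Or.inr hh) hb.1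
        exact (disjoint_left.1 h.dF) (Or.inl (hh.2 hb')) hc.1
    rw [hadj a ha, hadj a' ha', e]

theorem Ctx.w_FF [Finite V] (h : Ctx G Q0 Q1 F Z) (hX : XBound kX) (hE : EOpBound kE)
    (h0 : ∃ w ∈ Q0, ∃ w' ∈ Q0, w ≠ w') (h1 : ∃ w ∈ Q1, ∃ w' ∈ Q1, w ≠ w') :
    W G (FF G Q0 Q1 F ∪ Z) (kSmall kX kE) := by
  have hkX : kX ≤ kSmall kX kE := by
    unfold kSmall
    exact ((le_addN kX).trans (le_max_left _ _)).trans (le_comb _ _)
  by_cases nice : ∃ q ∈ Q0 ∪ Q1, ∀ g ∈ FF G Q0 Q1 F, G.Adj g q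
  · obtain ⟨q, hq, hqF⟩ := nice
    refine (hX V G q _ h.cls ?_).mono hkX
    intro a ha b hb _ _ hqa hqb
    have key : ∀ c ∈ FF G Q0 Q1 F ∪ Z, ¬ G.Adj q c → c ∈ Z := by
      rintro c (hc | hc) hqc
      · exact absurd (hqF c hc).symm hqc
      · exact hc
    exact h.ind a (key a ha hqa) b (key b hb hqb)
  · push Not at nice
    obtain ⟨u, hu, u', hu', huu⟩ := h0
    obtain ⟨v, hv, v', hv', hvv⟩ := h1
    obtain ⟨m1, hm1, m2, hm2, hm⟩ := h.exists_missed ⟨v, hv, v', hv', hvv⟩ ⟨u, hu⟩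
    obtain ⟨l1, hl1, l2, hl2, hl⟩ := h.swap.exists_missed ⟨u, hu, u', hu', huu⟩ ⟨v, hv⟩
    have hQ0 : ∀ x ∈ Q0, x = m1 ∨ x = m2 := by
      intro x hx
      obtain ⟨g, hg, n⟩ := nice x (Or.inl hx)
      exact hm x hx g hg n
    have hQ1 : ∀ x ∈ Q1, x = l1 ∨ x = l2 := by
      intro x hx
      obtain ⟨g, hg, n⟩ := nice x (Or.inr hx)
      exact hl x hx g (by rw [FF_swap]; exact hg) n
    have hmm : m1 ≠ m2 := by
      rintro rfl
      exact huu (((hQ0 u hu).elim id id).trans ((hQ0 u' hu').elim id id).symm)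
    have hll : l1 ≠ l2 := by
      rintro rfl
      exact hvv (((hQ1 v hv).elim id id).trans ((hQ1 v' hv').elim id id).symm)
    have sm : Small G (FF G Q0 Q1 F) Z m1 m2 l1 l2 := by
      refine ⟨h.cls, h.c5, h.dFZ.mono_left fun f hf => hf.1, h.ind, h.k0 m1 hm1 m2 hm2 hmm,
        h.k1 l1 hl1 l2 hl2 hll, h.n01 m1 hm1 l1 hl1, h.n01 m1 hm1 l2 hl2, h.n01 m2 hm2 l1 hl1,
        h.n01 m2 hm2 l2 hl2, ?_, ?_, ?_⟩
      · intro z hz
        exact ⟨h.nZ z hz m1 (Or.inl hm1), h.nZ z hz m2 (Or.inl hm2), h.nZ z hz l1 (Or.inr hl1),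
          h.nZ z hz l2 (Or.inr hl2)⟩
      · intro f hf
        obtain ⟨x, hx, hfx⟩ := h.t0 f hf.1
        rcases hQ0 x hx with rfl | rfl
        exacts [Or.inl hfx, Or.inr hfx]
      · intro f hf
        obtain ⟨x, hx, hfx⟩ := h.t1 f hf.1
        rcases hQ1 x hx with rfl | rfl
        exacts [Or.inl hfx, Or.inr hfx]
    exact sm.bound hX hE

theorem Ctx.bound [Finite V] (h : Ctx G Q0 Q1 F Z) (hX : XBound kX) (hE : EOpBound kE)
    (h0 : ∃ w ∈ Q0, ∃ w' ∈ Q0, w ≠ w') (h1 : ∃ w ∈ Q1, ∃ w' ∈ Q1, w ≠ w') :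
    W G (Q0 ∪ Q1 ∪ F ∪ Z) (comb (max (comb 17 2) (kSmall kX kE)) 16) := by
  have w1 := h.w_SD.mono (le_max_left _ (kSmall kX kE))
  have w2 := (h.w_FF hX hE h0 h1).mono (le_max_right (comb 17 2) _)
  have e0 : ∃ x, x ∈ Q0 := h0.imp fun _ hx => hx.1
  have e1 : ∃ x, x ∈ Q1 := h1.imp fun _ hx => hx.1
  have eFF : FF G Q1 Q0 F ∪ Z = FF G Q0 Q1 F ∪ Z := by rw [FF_swap]
  refine W.cut w1 w2 ?_ ?_ (n := 16) ?_
  · ext f
    constructor
    · rintro (((hf | hf) | hf) | hf)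
      · exact Or.inl (Or.inl (Or.inl hf))
      · exact Or.inl (Or.inr (Or.inl hf))
      · by_cases h2 : f ∈ DD G Q0 F
        · exact Or.inl (Or.inl (Or.inr h2))
        · by_cases h3 : f ∈ DD G Q1 F
          · exact Or.inl (Or.inr (Or.inr h3))
          · exact Or.inr (Or.inl ⟨hf, h2, h3⟩)
      · exact Or.inr (Or.inr hf)
    · rintro (((hf | hf) | (hf | hf)) | (hf | hf))
      · exact Or.inl (Or.inl (Or.inl hf))
      · exact Or.inl (Or.inr hf.1)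
      · exact Or.inl (Or.inl (Or.inr hf))
      · exact Or.inl (Or.inr hf.1)
      · exact Or.inl (Or.inr hf.1)
      · exact Or.inr hf
  · rw [disjoint_left]
    rintro f ((hf | hf) | (hf | hf)) (hf' | hf')
    · exact (disjoint_left.1 h.dF) (Or.inl hf) hf'.1
    · exact (disjoint_left.1 h.dZ) (Or.inl hf) hf'
    · exact hf'.2.1 hf
    · exact (disjoint_left.1 h.dFZ) hf.1 hf'
    · exact (disjoint_left.1 h.dF) (Or.inr hf) hf'.1
    · exact (disjoint_left.1 h.dZ) (Or.inr hf) hf'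
    · exact hf'.2.2 hf
    · exact (disjoint_left.1 h.dFZ) hf.1 hf'
  · have r1 := (h.few_Q h1 e0).union (h.few_D h1 e0)
    have r2 := (h.swap.few_Q h0 e1).union (h.swap.few_D h0 e1)
    rw [eFF] at r2
    exact (r1.union r2).mono_n (by norm_num)

end General

end TC

/-- T4.1 -/
theorem twoComps_of {kX kE : ℕ} (hX : XBound kX) (hE : EOpBound kE) :
    ∃ k : ℕ, ∀ (V : Type) [Finite V] (G : SimpleGraph V) (Q0 Q1 F Z : Set V),
    Cls G → NoC5 G → Disjoint Q0 Q1 → Disjoint (Q0 ∪ Q1) F → Disjoint (Q0 ∪ Q1) Z → Disjoint F Z →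
    2 ≤ Q0.ncard → 2 ≤ Q1.ncard →
    (∀ a ∈ Q0, ∀ b ∈ Q0, a ≠ b → G.Adj a b) → (∀ a ∈ Q1, ∀ b ∈ Q1, a ≠ b → G.Adj a b) →
    (∀ a ∈ Q0, ∀ b ∈ Q1, ¬ G.Adj a b) →
    Indep G Z → (∀ z ∈ Z, ∀ x ∈ Q0 ∪ Q1, ¬ G.Adj z x) →
    (∀ f ∈ F, ∃ x ∈ Q0, G.Adj f x) → (∀ f ∈ F, ∃ x ∈ Q1, G.Adj f x) →
    W G (Q0 ∪ Q1 ∪ F ∪ Z) k := by
  refine ⟨comb (max (comb 17 2) (TC.kSmall kX kE)) 16, fun V _ G Q0 Q1 F Z h1 h2 h3 h4 h5 h6 h7 h8 h9 h10 h11 h12 h13 h14 h15 => ?_⟩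
  have c : TC.Ctx G Q0 Q1 F Z := ⟨h1, h2, h3, h4, h5, h6, h9, h10, h11, h12, h13, h14, h15⟩
  have two : ∀ Q : Set V, 2 ≤ Q.ncard → ∃ w ∈ Q, ∃ w' ∈ Q, w ≠ w' := by
    intro Q hQ
    exact (Set.one_lt_ncard (Set.toFinite Q)).1 hQ
  exact c.bound hX hE (two Q0 h7) (two Q1 h8)

end Pool.Agent.GemWidth
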