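import Pool.Agent.GemWidth.TwoComps
import Pool.Agent.GemWidth.ClassX
import Pool.Agent.GemWidth.EOplus
import Pool.Agent.GemWidth.C5free

set_option autoImplicit false

namespace Pool.Agent.GemWidth

/-- T4.1, unconditional -/
theorem twoComps_bound : TwoCompsStmt := by
  obtain ⟨kX, hX⟩ := classX_bound
  obtain ⟨kE, hE⟩ := EOplus_bound_of hX
  exact twoComps_of hX hE

end Pool.Agent.GemWidth
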