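import Pool.Agent.GemWidth.Ops2

set_option autoImplicit false

namespace Pool.Agent.GemWidth

open Set

/-- conclusion of T2 (class X) for the bound `k` -/
def XBound (k : ℕ) : Prop :=
  ∀ (V : Type) [Finite V] (G : SimpleGraph V) (q : V) (R : Set V),
    Cls G → (∀ a ∈ R, ∀ b ∈ R, a ≠ q → b ≠ q → ¬ G.Adj q a → ¬ G.Adj q b → ¬ G.Adj a b) →
    W G R k

/-- conclusion of the EO+ lemma for the bound `k` -/
def EOpBound (k : ℕ) : Prop :=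
  ∀ (V : Type) [Finite V] (G : SimpleGraph V) (E O Z : Set V)
    (a0 b0 a1 b1 : V),
    Cls G → NoC5 G → Disjoint E O → Disjoint E Z → Disjoint O Z → Indep G Z →
    G.Adj a0 b0 → G.Adj a1 b1 → ¬ G.Adj a0 a1 → ¬ G.Adj a0 b1 → ¬ G.Adj b0 a1 → ¬ G.Adj b0 b1 →
    (∀ e ∈ E, G.Adj e a0 ∧ G.Adj e a1 ∧ ¬ G.Adj e b1) →
    (∀ o ∈ O, G.Adj o b0 ∧ G.Adj o b1 ∧ ¬ G.Adj o a1) →
    (∀ z ∈ Z, ¬ G.Adj z a0 ∧ ¬ G.Adj z b0 ∧ ¬ G.Adj z a1 ∧ ¬ G.Adj z b1) →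
    (∀ e ∈ E, ∀ o ∈ O, ¬ G.Adj e o → ¬ G.Adj e b0 ∧ ¬ G.Adj o a0) →
    W G (E ∪ O ∪ Z) k

namespace TC

/-! ### The small case: both components have two vertices -/

/-- context of the small case -/
structure Small {V : Type} (G : SimpleGraph V) (F Z : Set V) (a0 b0 a1 b1 : V) : Prop where
  cls : Cls G
  c5 : NoC5 G
  dis : Disjoint F Z
  ind : Indep G Z
  e0 : G.Adj a0 b0
  e1 : G.Adj a1 b1
  n00 : ¬ G.Adj a0 a1
  n01 : ¬ G.Adj a0 b1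
  n10 : ¬ G.Adj b0 a1
  n11 : ¬ G.Adj b0 b1
  hZ : ∀ z ∈ Z, ¬ G.Adj z a0 ∧ ¬ G.Adj z b0 ∧ ¬ G.Adj z a1 ∧ ¬ G.Adj z b1
  t0 : ∀ f ∈ F, G.Adj f a0 ∨ G.Adj f b0
  t1 : ∀ f ∈ F, G.Adj f a1 ∨ G.Adj f b1

variable {V : Type} {G : SimpleGraph V} {F Z : Set V} {a0 b0 a1 b1 : V}

theorem Small.swap (h : Small G F Z a0 b0 a1 b1) : Small G F Z a1 b1 a0 b0 :=
  ⟨h.cls, h.c5, h.dis, h.ind, h.e1, h.e0, nadj_symm h.n00, nadj_symm h.n10, nadj_symm h.n01,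
    nadj_symm h.n11, fun z hz => ⟨(h.hZ z hz).2.2.1, (h.hZ z hz).2.2.2, (h.hZ z hz).1,
    (h.hZ z hz).2.1⟩, h.t1, h.t0⟩

theorem Small.swap0 (h : Small G F Z a0 b0 a1 b1) : Small G F Z b0 a0 a1 b1 :=
  ⟨h.cls, h.c5, h.dis, h.ind, h.e0.symm, h.e1, h.n10, h.n11, h.n00,
    h.n01, fun z hz => ⟨(h.hZ z hz).2.1, (h.hZ z hz).1, (h.hZ z hz).2.2.1,
    (h.hZ z hz).2.2.2⟩, fun f hf => (h.t0 f hf).symm, h.t1⟩

theorem Small.swap1 (h : Small G F Z a0 b0 a1 b1) : Small G F Z a0 b0 b1 a1 :=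
  ⟨h.cls, h.c5, h.dis, h.ind, h.e0, h.e1.symm, h.n01, h.n00, h.n11,
    h.n10, fun z hz => ⟨(h.hZ z hz).1, (h.hZ z hz).2.1, (h.hZ z hz).2.2.2,
    (h.hZ z hz).2.2.1⟩, h.t0, fun f hf => (h.t1 f hf).symm⟩

theorem Small.mono (h : Small G F Z a0 b0 a1 b1) {F' : Set V} (hF : F' ⊆ F) :
    Small G F' Z a0 b0 a1 b1 :=
  ⟨h.cls, h.c5, h.dis.mono_left hF, h.ind, h.e0, h.e1, h.n00, h.n01, h.n10,
    h.n11, h.hZ, fun f hf => h.t0 f (hF hf), fun f hf => h.t1 f (hF hf)⟩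

/-- F1: adjacent with common neighbours `x`, `w` on both sides: same trace, one inclusion -/
theorem Small.f1_aux (h : Small G F Z a0 b0 a1 b1) {f g : V} (hfg : G.Adj f g)
    {x : V} (hx : x = a0 ∨ x = b0) (hfx : G.Adj f x) (hgx : G.Adj g x)
    (hfa : G.Adj f a1) (hga : G.Adj g a1) (hfb : G.Adj f b1) : G.Adj g b1 := by
  by_contra hgb
  have hxa : ¬ G.Adj x a1 := by rcases hx with rfl | rfl; exacts [h.n00, h.n10]
  have hxb : ¬ G.Adj x b1 := by rcases hx with rfl | rfl; exacts [h.n01, h.n11]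
  exact h.cls.gem f x g a1 b1 hfx hfg hfa hfb hgx.symm hga h.e1 hxa hxb hgb

/-- F1 on the second component -/
theorem Small.f1 (h : Small G F Z a0 b0 a1 b1) {f g : V} (hfg : G.Adj f g)
    (h0 : (G.Adj f a0 ∧ G.Adj g a0) ∨ (G.Adj f b0 ∧ G.Adj g b0))
    (h1 : (G.Adj f a1 ∧ G.Adj g a1) ∨ (G.Adj f b1 ∧ G.Adj g b1)) :
    (G.Adj f a1 ↔ G.Adj g a1) ∧ (G.Adj f b1 ↔ G.Adj g b1) := by
  have key : ∀ x, (x = a0 ∨ x = b0) → G.Adj f x → G.Adj g x →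
      (G.Adj f a1 ↔ G.Adj g a1) ∧ (G.Adj f b1 ↔ G.Adj g b1) := by
    intro x hx hfx hgx
    rcases h1 with ⟨ha, ha'⟩ | ⟨hb, hb'⟩
    · refine ⟨iff_of_true ha ha', fun hb => ?_, fun hb => ?_⟩
      · exact h.f1_aux hfg hx hfx hgx ha ha' hb
      · exact h.f1_aux hfg.symm hx hgx hfx ha' ha hb
    · refine ⟨⟨fun ha => ?_, fun ha => ?_⟩, iff_of_true hb hb'⟩
      · exact h.swap1.f1_aux hfg hx hfx hgx hb hb' ha
      · exact h.swap1.f1_aux hfg.symm hx hgx hfx hb' hb ha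
  rcases h0 with ⟨ha, ha'⟩ | ⟨hb, hb'⟩
  · exact key a0 (Or.inl rfl) ha ha'
  · exact key b0 (Or.inr rfl) hb hb'

/-- F1: all four adjacencies agree -/
theorem Small.f1' (h : Small G F Z a0 b0 a1 b1) {f g : V} (hfg : G.Adj f g)
    (h0 : (G.Adj f a0 ∧ G.Adj g a0) ∨ (G.Adj f b0 ∧ G.Adj g b0))
    (h1 : (G.Adj f a1 ∧ G.Adj g a1) ∨ (G.Adj f b1 ∧ G.Adj g b1)) :
    (G.Adj f a0 ↔ G.Adj g a0) ∧ (G.Adj f b0 ↔ G.Adj g b0) ∧
    (G.Adj f a1 ↔ G.Adj g a1) ∧ (G.Adj f b1 ↔ G.Adj g b1) :=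
  ⟨(h.swap.f1 hfg h1 h0).1, (h.swap.f1 hfg h1 h0).2, (h.f1 hfg h0 h1).1, (h.f1 hfg h0 h1).2⟩

/-- F2: nonadjacent with a common neighbour in the first component: no swap in the second -/
theorem Small.f2 (h : Small G F Z a0 b0 a1 b1) {f g : V} (hfg : ¬ G.Adj f g)
    (h0 : (G.Adj f a0 ∧ G.Adj g a0) ∨ (G.Adj f b0 ∧ G.Adj g b0))
    (hfa : G.Adj f a1) (hga : ¬ G.Adj g a1) (hgb : G.Adj g b1) (hfb : ¬ G.Adj f b1) : False := by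
  rcases h0 with ⟨hx, hx'⟩ | ⟨hx, hx'⟩
  · exact h.c5 a0 f a1 b1 g hx.symm hfa h.e1 hgb.symm hx' h.n00 h.n01 hfb hfg
      (nadj_symm hga)
  · exact h.c5 b0 f a1 b1 g hx.symm hfa h.e1 hgb.symm hx' h.n10 h.n11 hfb hfg
      (nadj_symm hga)

/-- F2 in the second orientation -/
theorem Small.adj_of_swap (h : Small G F Z a0 b0 a1 b1) {f g : V}
    (h0 : (G.Adj f a0 ∧ G.Adj g a0) ∨ (G.Adj f b0 ∧ G.Adj g b0))
    (h1 : (G.Adj f a1 ∧ ¬ G.Adj g a1 ∧ G.Adj g b1 ∧ ¬ G.Adj f b1) ∨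
      (G.Adj g a1 ∧ ¬ G.Adj f a1 ∧ G.Adj f b1 ∧ ¬ G.Adj g b1)) : G.Adj f g := by
  by_contra hfg
  rcases h1 with ⟨h1, h2, h3, h4⟩ | ⟨h1, h2, h3, h4⟩
  · exact h.f2 hfg h0 h1 h2 h3 h4
  · exact h.f2 (nadj_symm hfg) (h0.imp And.symm And.symm) h1 h2 h3 h4

/-- types aa, ba, Cb cannot all be present. -/
theorem Small.gem1 (h : Small G F Z a0 b0 a1 b1) {f g c : V}
    (hf : G.Adj f a0 ∧ ¬ G.Adj f b0 ∧ G.Adj f a1 ∧ ¬ G.Adj f b1)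
    (hg : ¬ G.Adj g a0 ∧ G.Adj g b0 ∧ G.Adj g a1 ∧ ¬ G.Adj g b1)
    (hc : G.Adj c a0 ∧ G.Adj c b0 ∧ ¬ G.Adj c a1 ∧ G.Adj c b1) : False := by
  have hfg : G.Adj f g := h.swap.adj_of_swap (Or.inl ⟨hf.2.2.1, hg.2.2.1⟩)
    (Or.inl ⟨hf.1, hg.1, hg.2.1, hf.2.1⟩)
  have hfc : G.Adj f c := h.adj_of_swap (Or.inl ⟨hf.1, hc.1⟩)
    (Or.inl ⟨hf.2.2.1, hc.2.2.1, hc.2.2.2, hf.2.2.2⟩)
  have hcg : G.Adj c g := h.adj_of_swap (Or.inr ⟨hc.2.1, hg.2.1⟩)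
    (Or.inr ⟨hg.2.2.1, hc.2.2.1, hc.2.2.2, hg.2.2.2⟩)
  exact h.cls.gem f a0 c g a1 hf.1 hfc hfg hf.2.2.1 hc.1.symm hcg hg.2.2.1 (nadj_symm hg.1) h.n00
    hc.2.2.1

/-- types aa, ab, ba present: `ab` anticomplete to `ba` -/
theorem Small.gem2 (h : Small G F Z a0 b0 a1 b1) {f g c : V}
    (hf : G.Adj f a0 ∧ ¬ G.Adj f b0 ∧ G.Adj f a1 ∧ ¬ G.Adj f b1)
    (hg : G.Adj g a0 ∧ ¬ G.Adj g b0 ∧ ¬ G.Adj g a1 ∧ G.Adj g b1)
    (hc : ¬ G.Adj c a0 ∧ G.Adj c b0 ∧ G.Adj c a1 ∧ ¬ G.Adj c b1) : ¬ G.Adj g c := by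
  intro hgc
  have hfg : G.Adj f g := h.adj_of_swap (Or.inl ⟨hf.1, hg.1⟩)
    (Or.inl ⟨hf.2.2.1, hg.2.2.1, hg.2.2.2, hf.2.2.2⟩)
  have hfc : G.Adj f c := h.swap.adj_of_swap (Or.inl ⟨hf.2.2.1, hc.2.2.1⟩)
    (Or.inl ⟨hf.1, hc.1, hc.2.1, hf.2.1⟩)
  exact h.cls.gem f a0 g c a1 hf.1 hfg hfc hf.2.2.1 hg.1.symm hgc hc.2.2.1 (nadj_symm hc.1) h.n00
    hg.2.2.1

/-- `aa` and `bb`: a vertex of `aa` has at most one nonneighbour in `bb` -/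
theorem Small.single (h : Small G F Z a0 b0 a1 b1) {g c c' : V}
    (hg : G.Adj g a0 ∧ ¬ G.Adj g b0 ∧ G.Adj g a1 ∧ ¬ G.Adj g b1)
    (hc : ¬ G.Adj c a0 ∧ G.Adj c b0 ∧ ¬ G.Adj c a1 ∧ G.Adj c b1)
    (hc' : ¬ G.Adj c' a0 ∧ G.Adj c' b0 ∧ ¬ G.Adj c' a1 ∧ G.Adj c' b1)
    (n : ¬ G.Adj g c) (n' : ¬ G.Adj g c') : c = c' := by
  by_contra hne
  by_cases hcc : G.Adj c c'
  · have hne' : a0 ≠ a1 := by rintro rfl; exact h.n01 h.e1
    exact h.cls.p23 c c' a0 g a1 hcc hg.1.symm hg.2.2.1 hne' h.n00 hc.1 (nadj_symm n) hc.2.2.1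
      hc'.1 (nadj_symm n') hc'.2.2.1
  · exact h.cls.p23 g a1 c b0 c' hg.2.2.1 hc.2.1 hc'.2.1.symm hne hcc n hg.2.1 n'
      (nadj_symm hc.2.2.1) (nadj_symm h.n10) (nadj_symm hc'.2.2.1)

variable [Finite V] {kX kE : ℕ}

/-- `q` is complete to `F` up to four vertices -/
theorem Small.del4 (h : Small G F Z a0 b0 a1 b1) (hX : XBound kX) {q : V}
    (hq : q = a0 ∨ q = b0 ∨ q = a1 ∨ q = b1) (x1 x2 x3 x4 : V)
    (hF : ∀ f ∈ F, f ≠ x1 → f ≠ x2 → f ≠ x3 → f ≠ x4 → G.Adj f q) :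
    W G (F ∪ Z) (addN kX 4) := by
  classical
  set T : Finset V := {x1, x2, x3, x4} with hT
  have hcard : T.card ≤ 4 := Finset.card_le_four
  have hqZ : ∀ z ∈ Z, ¬ G.Adj q z := by
    intro z hz hqz
    obtain ⟨h1, h2, h3, h4⟩ := h.hZ z hz
    rcases hq with rfl | rfl | rfl | rfl
    exacts [h1 hqz.symm, h2 hqz.symm, h3 hqz.symm, h4 hqz.symm]
  have hW : W G ((F ∪ Z) \ T) kX := by
    refine hX V G q _ h.cls ?_
    have key : ∀ a ∈ (F ∪ Z) \ (T : Set V), ¬ G.Adj q a → a ∈ Z := by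
      rintro a ⟨ha, haT⟩ hqa
      rcases ha with ha | ha
      · exfalso
        simp only [hT, Finset.coe_insert, Finset.coe_singleton, mem_insert_iff,
          mem_singleton_iff, not_or] at haT
        exact hqa (hF a ha haT.1 haT.2.1 haT.2.2.1 haT.2.2.2).symm
      · exact ha
    intro a ha b hb _ _ hqa hqb
    exact h.ind a (key a ha hqa) b (key b hb hqb)
  exact (W.of_diff_finset T hW).mono (addN_mono hcard)

/-- only the diagonal types `aa`, `bb` (both present) and no type with both neighbours in the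
second component only -/
theorem Small.opp (h : Small G F Z a0 b0 a1 b1) (hX : XBound kX) (hE : EOpBound kE)
    (hB : ∀ f ∈ F, G.Adj f a1 → G.Adj f b1 → G.Adj f a0 ∧ G.Adj f b0)
    (hab : ∀ f ∈ F, G.Adj f a0 → ¬ G.Adj f b0 → G.Adj f a1)
    (hba : ∀ f ∈ F, G.Adj f b0 → ¬ G.Adj f a0 → G.Adj f b1)
    {x y : V} (hx' : G.Adj x a0 ∧ ¬ G.Adj x b0 ∧ G.Adj x a1 ∧ ¬ G.Adj x b1)
    (hy' : ¬ G.Adj y a0 ∧ G.Adj y b0 ∧ ¬ G.Adj y a1 ∧ G.Adj y b1) :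
    W G (F ∪ Z) (max (addN kX 4) kE) := by
  by_cases hU : ∃ u ∈ F, G.Adj u a0 ∧ G.Adj u b0 ∧ G.Adj u a1 ∧ G.Adj u b1
  · obtain ⟨u, hu, hu'⟩ := hU
    -- `u` is anticomplete to `aa` and `bb`
    have hua : ∀ f, G.Adj f a0 → ¬ G.Adj f b0 → G.Adj f a1 → ¬ G.Adj u f := by
      intro f h1 h2 h3 huf
      have := h.f1' huf (Or.inl ⟨hu'.1, h1⟩) (Or.inl ⟨hu'.2.2.1, h3⟩)
      exact h2 (this.2.1.1 hu'.2.1)
    have hub : ∀ f, ¬ G.Adj f a0 → G.Adj f b0 → G.Adj f b1 → ¬ G.Adj u f := by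
      intro f h1 h2 h3 huf
      have := h.f1' huf (Or.inr ⟨hu'.2.1, h2⟩) (Or.inr ⟨hu'.2.2.2, h3⟩)
      exact h1 (this.1.1 hu'.1)
    have anti : ∀ e o, (G.Adj e a0 ∧ ¬ G.Adj e b0 ∧ G.Adj e a1 ∧ ¬ G.Adj e b1) →
        (¬ G.Adj o a0 ∧ G.Adj o b0 ∧ ¬ G.Adj o a1 ∧ G.Adj o b1) → ¬ G.Adj e o := by
      intro e o he ho heo
      exact h.c5 e a0 u b1 o he.1 hu'.1.symm hu'.2.2.2 ho.2.2.2.symm heo.symm
        (nadj_symm (hua e he.1 he.2.1 he.2.2.1)) he.2.2.2 h.n01 (nadj_symm ho.1)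
        (hub o ho.1 ho.2.1 ho.2.2.2)
    refine W.mono (h.del4 hX (q := a0) (Or.inl rfl) x y x y ?_) (le_max_left _ _)
    intro f hf h1 h2 _ _
    by_contra hfa
    have hfb := (h.t0 f hf).resolve_left hfa
    have hfb1 := hba f hf hfb hfa
    have hfa1 : ¬ G.Adj f a1 := fun h1 => hfa (hB f hf h1 hfb1).1
    exact h2 (h.single hx' ⟨hfa, hfb, hfa1, hfb1⟩ hy'
      (anti x f hx' ⟨hfa, hfb, hfa1, hfb1⟩) (anti x y hx' hy'))
  · push Not at hU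
    -- `E = aa + Ca`, `O = bb + Cb`
    set E : Set V := {f | f ∈ F ∧ G.Adj f a1} with hEd
    set O : Set V := {f | f ∈ F ∧ ¬ G.Adj f a1} with hOd
    have hEO : F = E ∪ O := by
      ext f; simp only [hEd, hOd, mem_union, mem_ofPred_eq]; tauto
    rw [hEO]
    have nU : ∀ f ∈ F, G.Adj f a1 → ¬ G.Adj f b1 := by
      intro f hf h1 h2
      exact hU f hf (hB f hf h1 h2).1 (hB f hf h1 h2).2 h1 h2
    have ea0 : ∀ f ∈ F, G.Adj f a1 → G.Adj f a0 := by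
      intro f hf h1
      by_contra h2
      exact nU f hf h1 (hba f hf ((h.t0 f hf).resolve_left h2) h2)
    have ob0 : ∀ f ∈ F, ¬ G.Adj f a1 → G.Adj f b0 := by
      intro f hf h1
      by_contra h2
      exact h1 (hab f hf ((h.t0 f hf).resolve_right h2) h2)
    refine W.mono (hE V G E O Z a0 b0 a1 b1 h.cls h.c5 ?_ ?_ ?_ h.ind h.e0 h.e1 h.n00 h.n01 h.n10
      h.n11 ?_ ?_ h.hZ ?_) (le_max_right _ _)
    · rw [disjoint_left]; rintro f ⟨_, h1⟩ ⟨_, h2⟩; exact h2 h1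
    · exact h.dis.mono_left fun f hf => hf.1
    · exact h.dis.mono_left fun f hf => hf.1
    · rintro f ⟨hf, h1⟩; exact ⟨ea0 f hf h1, h1, nU f hf h1⟩
    · rintro f ⟨hf, h1⟩; exact ⟨ob0 f hf h1, (h.t1 f hf).resolve_left h1, h1⟩
    · rintro e ⟨he, he1⟩ o ⟨ho, ho1⟩ heo
      have ho2 := (h.t1 o ho).resolve_left ho1
      constructor
      · intro h1
        exact heo (h.adj_of_swap (Or.inr ⟨h1, ob0 o ho ho1⟩) (Or.inl ⟨he1, ho1, ho2, nU e he he1⟩))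
      · intro h1
        exact heo (h.adj_of_swap (Or.inl ⟨ea0 e he he1, h1⟩)
          (Or.inl ⟨he1, ho1, ho2, nU e he he1⟩))

omit [Finite V] in
/-- three diagonal types with middle `ab`: the opposite ones `aa`, `bb` are single vertices -/
theorem Small.three (h : Small G F Z a0 b0 a1 b1) {m x y : V}
    (hm : G.Adj m a0 ∧ ¬ G.Adj m b0 ∧ ¬ G.Adj m a1 ∧ G.Adj m b1)
    (hx : G.Adj x a0 ∧ ¬ G.Adj x b0 ∧ G.Adj x a1 ∧ ¬ G.Adj x b1)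
    (hy : ¬ G.Adj y a0 ∧ G.Adj y b0 ∧ ¬ G.Adj y a1 ∧ G.Adj y b1) :
    (∀ f, G.Adj f a0 ∧ ¬ G.Adj f b0 ∧ G.Adj f a1 ∧ ¬ G.Adj f b1 → f = x) ∧
    (∀ f, ¬ G.Adj f a0 ∧ G.Adj f b0 ∧ ¬ G.Adj f a1 ∧ G.Adj f b1 → f = y) := by
  have anti : ∀ e o, (G.Adj e a0 ∧ ¬ G.Adj e b0 ∧ G.Adj e a1 ∧ ¬ G.Adj e b1) →
        (¬ G.Adj o a0 ∧ G.Adj o b0 ∧ ¬ G.Adj o a1 ∧ G.Adj o b1) → ¬ G.Adj e o := by
    intro e o he ho
    exact h.swap1.gem2 ⟨hm.1, hm.2.1, hm.2.2.2, hm.2.2.1⟩ ⟨he.1, he.2.1, he.2.2.2, he.2.2.1⟩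
      ⟨ho.1, ho.2.1, ho.2.2.2, ho.2.2.1⟩
  constructor
  · intro f hf
    exact h.swap0.swap1.single ⟨hy.2.1, hy.1, hy.2.2.2, hy.2.2.1⟩
      ⟨hf.2.1, hf.1, hf.2.2.2, hf.2.2.1⟩ ⟨hx.2.1, hx.1, hx.2.2.2, hx.2.2.1⟩
      (nadj_symm (anti f y hf hy)) (nadj_symm (anti x y hx hy))
  · intro f hf
    exact h.single hx hf hy (anti x f hx hf) (anti x y hx hy)

/-- both `aa` and `bb` present, no type with both neighbours in the second component only -/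
theorem Small.noB_opp (h : Small G F Z a0 b0 a1 b1) (hX : XBound kX) (hE : EOpBound kE)
    (hB : ∀ f ∈ F, G.Adj f a1 → G.Adj f b1 → G.Adj f a0 ∧ G.Adj f b0)
    {x y : V} (hx : G.Adj x a0 ∧ ¬ G.Adj x b0 ∧ G.Adj x a1 ∧ ¬ G.Adj x b1)
    (hy : ¬ G.Adj y a0 ∧ G.Adj y b0 ∧ ¬ G.Adj y a1 ∧ G.Adj y b1) :
    W G (F ∪ Z) (max (addN kX 4) kE) := by
  by_cases Pab : ∃ m ∈ F, G.Adj m a0 ∧ ¬ G.Adj m b0 ∧ ¬ G.Adj m a1 ∧ G.Adj m b1
  · obtain ⟨m, _, hm⟩ := Pab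
    obtain ⟨s1, s2⟩ := h.three hm hx hy
    by_cases Pba : ∃ m ∈ F, ¬ G.Adj m a0 ∧ G.Adj m b0 ∧ G.Adj m a1 ∧ ¬ G.Adj m b1
    · obtain ⟨l, _, hl⟩ := Pba
      obtain ⟨s3, s4⟩ := h.swap1.three ⟨hx.1, hx.2.1, hx.2.2.2, hx.2.2.1⟩
        ⟨hm.1, hm.2.1, hm.2.2.2, hm.2.2.1⟩ ⟨hl.1, hl.2.1, hl.2.2.2, hl.2.2.1⟩
      refine W.mono (h.del4 hX (q := a0) (Or.inl rfl) x y m l ?_) (le_max_left _ _)
      intro f hf h1 h2 h3 h4
      by_contra hfa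
      have hfb := (h.t0 f hf).resolve_left hfa
      by_cases f1 : G.Adj f a1 <;> by_cases f2 : G.Adj f b1
      · exact hfa (hB f hf f1 f2).1
      · exact h4 (s4 f ⟨hfa, hfb, f2, f1⟩)
      · exact h2 (s2 f ⟨hfa, hfb, f1, f2⟩)
      · exact (h.t1 f hf).elim f1 f2
    · push Not at Pba
      refine W.mono (h.del4 hX (q := a0) (Or.inl rfl) x y x y ?_) (le_max_left _ _)
      intro f hf h1 h2 _ _
      by_contra hfa
      have hfb := (h.t0 f hf).resolve_left hfa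
      by_cases f1 : G.Adj f a1 <;> by_cases f2 : G.Adj f b1
      · exact hfa (hB f hf f1 f2).1
      · exact f2 (Pba f hf hfa hfb f1)
      · exact h2 (s2 f ⟨hfa, hfb, f1, f2⟩)
      · exact (h.t1 f hf).elim f1 f2
  · push Not at Pab
    by_cases Pba : ∃ m ∈ F, ¬ G.Adj m a0 ∧ G.Adj m b0 ∧ G.Adj m a1 ∧ ¬ G.Adj m b1
    · obtain ⟨l, _, hl⟩ := Pba
      obtain ⟨s1, s2⟩ := h.swap0.swap1.three ⟨hl.2.1, hl.1, hl.2.2.2, hl.2.2.1⟩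
        ⟨hy.2.1, hy.1, hy.2.2.2, hy.2.2.1⟩ ⟨hx.2.1, hx.1, hx.2.2.2, hx.2.2.1⟩
      refine W.mono (h.del4 hX (q := b0) (Or.inr (Or.inl rfl)) x y x y ?_) (le_max_left _ _)
      intro f hf h1 h2 _ _
      by_contra hfb
      have hfa := (h.t0 f hf).resolve_right hfb
      by_cases f1 : G.Adj f a1 <;> by_cases f2 : G.Adj f b1
      · exact hfb (hB f hf f1 f2).2
      · exact h1 (s2 f ⟨hfb, hfa, f2, f1⟩)
      · exact Pab f hf hfa hfb f1 f2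
      · exact (h.t1 f hf).elim f1 f2
    · push Not at Pba
      refine h.opp hX hE hB ?_ ?_ hx hy
      · intro f hf h1 h2
        by_contra h3
        exact Pab f hf h1 h2 h3 ((h.t1 f hf).resolve_left h3)
      · intro f hf h1 h2
        by_contra h3
        exact h3 (Pba f hf h2 h1 ((h.t1 f hf).resolve_right h3))

/-- no type with both neighbours in the second component only -/
theorem Small.noB (h : Small G F Z a0 b0 a1 b1) (hX : XBound kX) (hE : EOpBound kE)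
    (hB : ∀ f ∈ F, G.Adj f a1 → G.Adj f b1 → G.Adj f a0 ∧ G.Adj f b0) :
    W G (F ∪ Z) (max (addN kX 4) kE) := by
  by_cases Paa : ∃ m ∈ F, G.Adj m a0 ∧ ¬ G.Adj m b0 ∧ G.Adj m a1 ∧ ¬ G.Adj m b1 <;>
  by_cases Pbb : ∃ m ∈ F, ¬ G.Adj m a0 ∧ G.Adj m b0 ∧ ¬ G.Adj m a1 ∧ G.Adj m b1
  · obtain ⟨x, _, hx⟩ := Paa
    obtain ⟨y, _, hy⟩ := Pbb
    exact h.noB_opp hX hE hB hx hy
  all_goals
    by_cases Pab : ∃ m ∈ F, G.Adj m a0 ∧ ¬ G.Adj m b0 ∧ ¬ G.Adj m a1 ∧ G.Adj m b1 <;>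
    by_cases Pba : ∃ m ∈ F, ¬ G.Adj m a0 ∧ G.Adj m b0 ∧ G.Adj m a1 ∧ ¬ G.Adj m b1
  -- Paa
  · obtain ⟨x, _, hx⟩ := Pab
    obtain ⟨y, _, hy⟩ := Pba
    exact h.swap1.noB_opp hX hE (fun f hf h1 h2 => hB f hf h2 h1)
      ⟨hx.1, hx.2.1, hx.2.2.2, hx.2.2.1⟩ ⟨hy.1, hy.2.1, hy.2.2.2, hy.2.2.1⟩
  · refine W.mono (h.del4 hX (q := a0) (Or.inl rfl) a0 a0 a0 a0 ?_) (le_max_left _ _)
    intro f hf _ _ _ _
    push Not at Pbb Pba
    have t0 := h.t0 f hf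
    have t1 := h.t1 f hf
    have b1 := Pbb f hf
    have b2 := Pba f hf
    have b3 := hB f hf
    tauto
  · obtain ⟨x, _, hx⟩ := Paa
    obtain ⟨y, _, hy⟩ := Pba
    refine W.mono (h.del4 hX (q := a1) (Or.inr (Or.inr (Or.inl rfl))) a0 a0 a0 a0 ?_)
      (le_max_left _ _)
    intro f hf _ _ _ _
    have hc := h.gem1 (c := f) hx hy
    push Not at Pbb Pab
    have t0 := h.t0 f hf
    have t1 := h.t1 f hf
    have b1 := Pbb f hf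
    have b2 := Pab f hf
    tauto
  · refine W.mono (h.del4 hX (q := a0) (Or.inl rfl) a0 a0 a0 a0 ?_) (le_max_left _ _)
    intro f hf _ _ _ _
    push Not at Pbb Pba
    have t0 := h.t0 f hf
    have t1 := h.t1 f hf
    have b1 := Pbb f hf
    have b2 := Pba f hf
    have b3 := hB f hf
    tauto
  -- Pbb
  · obtain ⟨x, _, hx⟩ := Pab
    obtain ⟨y, _, hy⟩ := Pba
    exact h.swap1.noB_opp hX hE (fun f hf h1 h2 => hB f hf h2 h1)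
      ⟨hx.1, hx.2.1, hx.2.2.2, hx.2.2.1⟩ ⟨hy.1, hy.2.1, hy.2.2.2, hy.2.2.1⟩
  · obtain ⟨x, _, hx⟩ := Pbb
    obtain ⟨y, _, hy⟩ := Pab
    refine W.mono (h.del4 hX (q := b1) (Or.inr (Or.inr (Or.inr rfl))) a0 a0 a0 a0 ?_)
      (le_max_left _ _)
    intro f hf _ _ _ _
    have hc := h.swap0.swap1.gem1 (c := f) ⟨hx.2.1, hx.1, hx.2.2.2, hx.2.2.1⟩
      ⟨hy.2.1, hy.1, hy.2.2.2, hy.2.2.1⟩
    push Not at Paa Pba
    have t0 := h.t0 f hf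
    have t1 := h.t1 f hf
    have b1 := Paa f hf
    have b2 := Pba f hf
    tauto
  · refine W.mono (h.del4 hX (q := b0) (Or.inr (Or.inl rfl)) a0 a0 a0 a0 ?_) (le_max_left _ _)
    intro f hf _ _ _ _
    push Not at Paa Pab
    have t0 := h.t0 f hf
    have t1 := h.t1 f hf
    have b1 := Paa f hf
    have b2 := Pab f hf
    have b3 := hB f hf
    tauto
  · refine W.mono (h.del4 hX (q := b0) (Or.inr (Or.inl rfl)) a0 a0 a0 a0 ?_) (le_max_left _ _)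
    intro f hf _ _ _ _
    push Not at Paa Pab
    have t0 := h.t0 f hf
    have t1 := h.t1 f hf
    have b1 := Paa f hf
    have b2 := Pab f hf
    have b3 := hB f hf
    tauto
  -- neither
  · obtain ⟨x, _, hx⟩ := Pab
    obtain ⟨y, _, hy⟩ := Pba
    exact h.swap1.noB_opp hX hE (fun f hf h1 h2 => hB f hf h2 h1)
      ⟨hx.1, hx.2.1, hx.2.2.2, hx.2.2.1⟩ ⟨hy.1, hy.2.1, hy.2.2.2, hy.2.2.1⟩
  · refine W.mono (h.del4 hX (q := a0) (Or.inl rfl) a0 a0 a0 a0 ?_) (le_max_left _ _)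
    intro f hf _ _ _ _
    push Not at Pbb Pba
    have t0 := h.t0 f hf
    have t1 := h.t1 f hf
    have b1 := Pbb f hf
    have b2 := Pba f hf
    have b3 := hB f hf
    tauto
  · refine W.mono (h.del4 hX (q := b0) (Or.inr (Or.inl rfl)) a0 a0 a0 a0 ?_) (le_max_left _ _)
    intro f hf _ _ _ _
    push Not at Paa Pab
    have t0 := h.t0 f hf
    have t1 := h.t1 f hf
    have b1 := Paa f hf
    have b2 := Pab f hf
    have b3 := hB f hf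
    tauto
  · refine W.mono (h.del4 hX (q := a0) (Or.inl rfl) a0 a0 a0 a0 ?_) (le_max_left _ _)
    intro f hf _ _ _ _
    push Not at Pbb Pba
    have t0 := h.t0 f hf
    have t1 := h.t1 f hf
    have b1 := Pbb f hf
    have b2 := Pba f hf
    have b3 := hB f hf
    tauto

omit [Finite V] in
/-- `Ca + Cb` and `aC + bC` have the same neighbours in `Z` (one inclusion) -/
theorem Small.sameT (h : Small G F Z a0 b0 a1 b1) {u v z : V} (hz : z ∈ Z) (hv : v ∈ F)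
    (hu : G.Adj u a0 ∧ G.Adj u b0) (hu' : ¬ (G.Adj u a1 ∧ G.Adj u b1))
    (hv1 : G.Adj v a1 ∧ G.Adj v b1) (hv' : ¬ (G.Adj v a0 ∧ G.Adj v b0)) (hu2 : u ∈ F)
    (hzu : G.Adj z u) : G.Adj z v := by
  by_contra hzv
  have huv : ¬ G.Adj u v := by
    intro huv
    have t0 := h.t0 v hv
    have t1 := h.t1 u hu2
    have := h.f1' huv (by tauto) (by tauto)
    tauto
  -- choose the missed vertices
  have t0 := h.t0 v hv
  have t1 := h.t1 u hu2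
  obtain ⟨w, hw, hvw⟩ : ∃ w, (w = a0 ∨ w = b0) ∧ ¬ G.Adj v w := by
    by_cases h1 : G.Adj v a0
    · exact ⟨b0, Or.inr rfl, fun h2 => hv' ⟨h1, h2⟩⟩
    · exact ⟨a0, Or.inl rfl, h1⟩
  obtain ⟨y, hy, huy⟩ : ∃ y, (y = a1 ∨ y = b1) ∧ ¬ G.Adj u y := by
    by_cases h1 : G.Adj u a1
    · exact ⟨b1, Or.inr rfl, fun h2 => hu' ⟨h1, h2⟩⟩
    · exact ⟨a1, Or.inl rfl, h1⟩
  have hz4 := h.hZ z hz
  have huw : G.Adj u w := by rcases hw with rfl | rfl; exacts [hu.1, hu.2]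
  have hvy : G.Adj v y := by rcases hy with rfl | rfl; exacts [hv1.1, hv1.2]
  have hzw : ¬ G.Adj z w := by rcases hw with rfl | rfl; exacts [hz4.1, hz4.2.1]
  have hzy : ¬ G.Adj z y := by rcases hy with rfl | rfl; exacts [hz4.2.2.1, hz4.2.2.2]
  have hyw : ¬ G.Adj y w := by
    rcases hy with rfl | rfl <;> rcases hw with rfl | rfl
    exacts [nadj_symm h.n00, nadj_symm h.n10, nadj_symm h.n01, nadj_symm h.n11]
  have hzne : z ≠ w := by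
    rintro rfl
    rcases hw with rfl | rfl
    · exact hz4.2.1 h.e0
    · exact hz4.1 h.e0.symm
  exact h.cls.p23 v y z u w hvy hzu huw hzne hzw (nadj_symm hzv) (nadj_symm huv) hvw
    (nadj_symm hzy) (nadj_symm huy) hyw

/-- the bound of the small case -/
def kSmall (kX kE : ℕ) : ℕ := comb (max (addN kX 4) kE) 16

theorem addN_pos (k : ℕ) : 1 ≤ addN k 4 := by
  show 1 ≤ comb (addN k 3) 1
  unfold comb; omega

theorem le_addN (k : ℕ) : k ≤ addN k 4 := addN_mono (k := k) (Nat.zero_le 4)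

theorem le_comb (k n : ℕ) : k ≤ comb k n := by
  unfold comb
  have h1 : 0 ≤ (k + 1) * 2 ^ n := Nat.zero_le _
  have h2 : 0 ≤ 2 ^ n := Nat.zero_le _
  generalize (k + 1) * 2 ^ n = u at h1 ⊢
  generalize 2 ^ n = v at h2 ⊢
  omega

omit [Finite V] in
/-- adjacency between `Ca + Cb` and the other types -/
theorem Small.adj_A (h : Small G F Z a0 b0 a1 b1) {c b : V} (hc : c ∈ F) (hb : b ∈ F)
    (hc1 : G.Adj c a0 ∧ G.Adj c b0) (hc2 : ¬ (G.Adj c a1 ∧ G.Adj c b1))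
    (hb1 : ¬ ((G.Adj b a0 ∧ G.Adj b b0) ∧ ¬ (G.Adj b a1 ∧ G.Adj b b1))) :
    (G.Adj c b ↔ ¬ ((G.Adj c a1 ∧ G.Adj b a1) ∨ (G.Adj c b1 ∧ G.Adj b b1))) := by
  have s0 : (G.Adj c a0 ∧ G.Adj b a0) ∨ (G.Adj c b0 ∧ G.Adj b b0) :=
    (h.t0 b hb).imp (fun h1 => ⟨hc1.1, h1⟩) (fun h1 => ⟨hc1.2, h1⟩)
  constructor
  · intro hcb s1
    obtain ⟨e1, e2, e3, e4⟩ := h.f1' hcb s0 s1
    rw [e3, e4] at hc2
    exact hb1 ⟨⟨e1.1 hc1.1, e2.1 hc1.2⟩, hc2⟩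
  · intro s1
    refine h.adj_of_swap s0 ?_
    have tb := h.t1 b hb
    have tc := h.t1 c hc
    tauto

theorem Small.bound (h : Small G F Z a0 b0 a1 b1) (hX : XBound kX) (hE : EOpBound kE) :
    W G (F ∪ Z) (kSmall kX kE) := by
  classical
  by_cases hB : ∀ f ∈ F, G.Adj f a1 → G.Adj f b1 → G.Adj f a0 ∧ G.Adj f b0
  · exact (h.noB hX hE hB).mono (le_comb _ _)
  by_cases hA : ∀ f ∈ F, G.Adj f a0 → G.Adj f b0 → G.Adj f a1 ∧ G.Adj f b1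
  · exact (h.swap.noB hX hE hA).mono (le_comb _ _)
  push Not at hA hB
  obtain ⟨x, hxF, hx1, hx2, hx3⟩ := hA
  obtain ⟨y, hyF, hy1, hy2, hy3⟩ := hB
  have hx3' : ¬ (G.Adj x a1 ∧ G.Adj x b1) := fun h => hx3 h.1 h.2
  have hy3' : ¬ (G.Adj y a0 ∧ G.Adj y b0) := fun h => hy3 h.1 h.2
  set A : Set V := {f | f ∈ F ∧ (G.Adj f a0 ∧ G.Adj f b0) ∧ ¬ (G.Adj f a1 ∧ G.Adj f b1)} with hAd
  set B : Set V := {f | f ∈ F ∧ (G.Adj f a1 ∧ G.Adj f b1) ∧ ¬ (G.Adj f a0 ∧ G.Adj f b0)} with hBd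
  have hAF : A ⊆ F := fun f hf => hf.1
  have hBF : B ⊆ F := fun f hf => hf.1
  have wA : W G A (max (addN kX 4) kE) := by
    refine (hX V G a0 A h.cls ?_).mono ((le_addN kX).trans (le_max_left _ _))
    intro a ha b _ _ _ h1 _
    exact absurd ha.2.1.1.symm h1
  have wB : W G B (max (addN kX 4) kE) := by
    refine (hX V G a1 B h.cls ?_).mono ((le_addN kX).trans (le_max_left _ _))
    intro a ha b _ _ _ h1 _
    exact absurd ha.2.1.1.symm h1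
  have hdAB : Disjoint A B := by
    rw [disjoint_left]; rintro f ⟨_, _, h2⟩ ⟨_, h3, _⟩; exact h2 h3
  have wAB : W G (A ∪ B) (max (addN kX 4) kE) := by
    refine wA.disjoint_union wB hdAB ?_ ((addN_pos kX).trans (le_max_left _ _))
    rintro f ⟨hf, h1, h2⟩ g ⟨hg, h3, h4⟩ hfg
    have t0 := h.t0 g hg
    have t1 := h.t1 f hf
    have := h.f1' hfg (by tauto) (by tauto)
    tauto
  have wY : W G ((F \ (A ∪ B)) ∪ Z) (max (addN kX 4) kE) := by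
    refine (h.mono (F' := F \ (A ∪ B)) sdiff_subset).noB hX hE ?_
    rintro f ⟨hf, hf'⟩ h1 h2
    by_contra h3
    exact hf' (Or.inr ⟨hf, ⟨h1, h2⟩, h3⟩)
  refine W.cut wAB wY ?_ ?_ (n := 16) ?_
  · ext f
    simp only [mem_union, mem_sdiff]
    constructor
    · rintro (h1 | h1)
      · by_cases h2 : f ∈ A ∪ B
        · exact Or.inl h2
        · exact Or.inr (Or.inl ⟨h1, h2⟩)
      · exact Or.inr (Or.inr h1)
    · rintro ((h1 | h1) | h1 | h1)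
      · exact Or.inl (hAF h1)
      · exact Or.inl (hBF h1)
      · exact Or.inl h1.1
      · exact Or.inr h1
  · rw [disjoint_left]
    intro f hf hf'
    rcases hf' with hf' | hf'
    · exact hf'.2 hf
    · exact (disjoint_left.1 h.dis) (hf.elim (fun h => hAF h) (fun h => hBF h)) hf'
  · refine few_of_label (fun f => (decide (G.Adj f a0), decide (G.Adj f b0), decide (G.Adj f a1),
      decide (G.Adj f b1))) ?_ (by simp)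
    intro a ha a' ha' e b hb
    simp only [Prod.mk.injEq, decide_eq_decide] at e
    obtain ⟨e1, e2, e3, e4⟩ := e
    rcases hb with hb | hb
    · obtain ⟨hbF, hbn⟩ := hb
      have hb1 : ¬ ((G.Adj b a0 ∧ G.Adj b b0) ∧ ¬ (G.Adj b a1 ∧ G.Adj b b1)) :=
        fun h => hbn (Or.inl ⟨hbF, h.1, h.2⟩)
      have hb2 : ¬ ((G.Adj b a1 ∧ G.Adj b b1) ∧ ¬ (G.Adj b a0 ∧ G.Adj b b0)) :=
        fun h => hbn (Or.inr ⟨hbF, h.1, h.2⟩)
      have hA' : ∀ c ∈ A, (G.Adj c b ↔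
          ¬ ((G.Adj c a1 ∧ G.Adj b a1) ∨ (G.Adj c b1 ∧ G.Adj b b1))) :=
        fun c hc => h.adj_A hc.1 hbF hc.2.1 hc.2.2 hb1
      have hB' : ∀ c ∈ B, (G.Adj c b ↔
          ¬ ((G.Adj c a0 ∧ G.Adj b a0) ∨ (G.Adj c b0 ∧ G.Adj b b0))) :=
        fun c hc => h.swap.adj_A hc.1 hbF hc.2.1 hc.2.2 hb2
      rcases ha with ha | ha <;> rcases ha' with ha' | ha'
      · rw [hA' a ha, hA' a' ha', e3, e4]
      · exact absurd ⟨e1.1 ha.2.1.1, e2.1 ha.2.1.2⟩ ha'.2.2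
      · exact absurd ⟨e3.1 ha.2.1.1, e4.1 ha.2.1.2⟩ ha'.2.2
      · rw [hB' a ha, hB' a' ha', e1, e2]
    · -- the same neighbours in `Z`
      have hsame : ∀ c ∈ A ∪ B, (G.Adj b c ↔ G.Adj b x) := by
        have hAB : ∀ u ∈ A, ∀ v ∈ B, (G.Adj b u ↔ G.Adj b v) := by
          rintro u ⟨hu, h1, h2⟩ v ⟨hv, h3, h4⟩
          exact ⟨h.sameT hb hv h1 h2 h3 h4 hu, h.swap.sameT hb hu h3 h4 h1 h2 hv⟩
        have hxA : x ∈ A := ⟨hxF, ⟨hx1, hx2⟩, hx3'⟩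
        have hyB : y ∈ B := ⟨hyF, ⟨hy1, hy2⟩, hy3'⟩
        rintro c (hc | hc)
        · rw [hAB c hc y hyB, hAB x hxA y hyB]
        · rw [hAB x hxA c hc]
      rw [SimpleGraph.adj_comm G a b, SimpleGraph.adj_comm G a' b, hsame a ha, hsame a' ha']

end TC

end Pool.Agent.GemWidth
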